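import Pool.Agent.Helper78.ITTM.Inv

/-!
# Module A2f: writing the pattern, and the output
-/

namespace Pool.Agent.Helper78.ITTM

open Ordinal

namespace InitAux

lemma run_nat {κ Q : Type} (M : Mach κ Q) (c : Cfg κ Q) (n : ℕ) :
    M.run c (n : Ordinal.{0}) = M.step^[n] c := by
  induction n with
  | zero => simp [Mach.run]
  | succ n ih =>
    rw [Function.iterate_succ_apply', ← ih]
    have : ((n + 1 : ℕ) : Ordinal.{0}) = Order.succ (n : Ordinal.{0}) := by
      simp [Order.succ_eq_add_one]
    rw [this]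
    simp [Mach.run]

lemma step_put {Q : Type} (M : Mach (Fin 14) Q) (q q' : Q) (h : ℕ) (T : Fin 14 → ℕ → Bool)
    (k : Fin 14) (b mv : Bool) (ht : M.tr q (fun k => T k h) = (q', put (fun k => T k h) k b, mv)) :
    M.step ⟨q, h, T⟩ = ⟨q', if mv then h + 1 else h - 1,
      fun k' i => if k' = k ∧ i = h then b else T k' i⟩ := by
  have hr : M.tr (Cfg.mk q h T).q (Cfg.mk q h T).rd = (q', put (fun k => T k h) k b, mv) := ht
  unfold Mach.step
  rw [hr]
  simp only [put]
  congr 1
  funext k' i
  simp only [Function.update_apply]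
  by_cases hi : i = h
  · subst hi
    by_cases hk : k' = k <;> simp [hk]
  · simp [hi]

lemma step_id {Q : Type} (M : Mach (Fin 14) Q) (q q' : Q) (h : ℕ) (T : Fin 14 → ℕ → Bool)
    (mv : Bool) (ht : M.tr q (fun k => T k h) = (q', (fun k => T k h), mv)) :
    M.step ⟨q, h, T⟩ = ⟨q', if mv then h + 1 else h - 1, T⟩ := by
  have hr : M.tr (Cfg.mk q h T).q (Cfg.mk q h T).rd = (q', (fun k => T k h), mv) := ht
  unfold Mach.step
  rw [hr]
  congr 1
  funext k' i
  simp only [Function.update_apply]
  by_cases hi : i = h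
  · subst hi
    simp
  · simp [hi]

end InitAux

section A2
variable (e : Prog) (a : List Bool) (x y : R2) (n : ℕ)

theorem init_seg (c : Cfg (Fin 14) (S2 e.k a.length)) (hq : c.q = S2.lim) (hh : c.h = 0)
    (h0 : c.T 0 = x) (h1 : c.T 1 = inp n) (h5 : c.T 5 = y) (h6 : ∀ i, c.T 6 i = false)
    (h10 : ∀ i, c.T 10 i = decide (i = 0)) (h11 : ∀ i, c.T 11 i = decide (i = 0))
    (h12 : ∀ i, c.T 12 i = decide (i = 0)) (h13 : ∀ i, c.T 13 i = false) :
    ∃ N : ℕ, (∃ T, (M2 e a).run c (N : Ordinal.{0}) = ⟨S2.lim, 0, T⟩ ∧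
      St2 x y n (pat a) T ∧ Fl true true T) ∧
    ∀ N' : ℕ, N' < N → out2 ((M2 e a).run c (N' : Ordinal.{0})).q = none := by
  obtain ⟨q, h, T⟩ := c
  simp only at hq hh h0 h1 h5 h6 h10 h11 h12 h13
  subst hq hh
  simp only [InitAux.run_nat]
  set TI : ℕ → Fin 14 → ℕ → Bool := fun j k i => if k = 13 then decide (i = 0) else
    if k = 6 then (decide (i < j) && a.getD i false) else T k i with hTI
  -- first step
  have s1 : (M2 e a).step ⟨S2.lim, 0, T⟩ = ⟨S2.ini ⟨0, by omega⟩, 0, TI 0⟩ := by
    rw [InitAux.step_put (M2 e a) S2.lim (S2.ini ⟨0, by omega⟩) 0 T 13 true false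
      (by simp [M2, tr2, h11, h12, h13])]
    congr 1
    funext k i
    simp only [hTI]
    by_cases hk : k = 13
    · subst hk
      by_cases hi : i = 0 <;> simp [hi, h13]
    · by_cases hk6 : k = 6
      · subst hk6
        simp [h6]
      · simp [hk, hk6]
  -- writing
  have s2 : ∀ j : ℕ, ∀ hj : j ≤ a.length, (M2 e a).step^[1 + j] ⟨S2.lim, 0, T⟩ =
      ⟨S2.ini ⟨j, by omega⟩, j, TI j⟩ := by
    intro j
    induction j with
    | zero => intro hj; simpa using s1
    | succ j ih =>
      intro hj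
      rw [← Nat.add_assoc, Function.iterate_succ_apply', ih (by omega)]
      rw [InitAux.step_put (M2 e a) (S2.ini ⟨j, by omega⟩) (S2.ini ⟨j + 1, by omega⟩) j (TI j) 6
        (a.getD j false) true (by
          have h : j < a.length := by omega
          simp [M2, tr2, h])]
      congr 1
      funext k i
      simp only [hTI]
      by_cases hk : k = 13
      · subst hk; simp
      · by_cases hk6 : k = 6
        · subst hk6
          by_cases hi : i = j
          · subst hi; simp
          · have : (i < j + 1) ↔ (i < j) := by omega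
            simp [hi, this]
        · simp [hk, hk6]
  -- turning
  have s3 : (M2 e a).step^[a.length + 2] ⟨S2.lim, 0, T⟩ =
      ⟨S2.bini, a.length - 1, TI a.length⟩ := by
    have := s2 a.length le_rfl
    rw [show a.length + 2 = (1 + a.length) + 1 by ring, Function.iterate_succ_apply', this]
    rw [InitAux.step_id (M2 e a) _ S2.bini a.length (TI a.length) false (by simp [M2, tr2])]
    simp
  -- walking back
  have s4 : ∀ t : ℕ, t ≤ a.length - 1 → (M2 e a).step^[a.length + 2 + t] ⟨S2.lim, 0, T⟩ =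
      ⟨S2.bini, a.length - 1 - t, TI a.length⟩ := by
    intro t
    induction t with
    | zero => intro _; simpa using s3
    | succ t ih =>
      intro ht
      rw [← Nat.add_assoc, Function.iterate_succ_apply', ih (by omega)]
      rw [InitAux.step_id (M2 e a) _ S2.bini (a.length - 1 - t) (TI a.length) false (by
        have h : TI a.length 10 (a.length - 1 - t) = false := by
          simp only [hTI]
          have : a.length - 1 - t ≠ 0 := by omega
          simp [h10, this]
        simp [M2, tr2, h])]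
      simp
      omega
  have s5 : (M2 e a).step^[a.length + 2 + (a.length - 1) + 1] ⟨S2.lim, 0, T⟩ =
      ⟨S2.lim, 0, TI a.length⟩ := by
    rw [Function.iterate_succ_apply', s4 _ le_rfl]
    rw [Nat.sub_self]
    rw [InitAux.step_id (M2 e a) _ S2.lim 0 (TI a.length) false (by
        have h : TI a.length 10 0 = true := by
          simp [hTI, h10]
        simp [M2, tr2, h])]
    simp
  refine ⟨a.length + 2 + (a.length - 1) + 1, ⟨TI a.length, s5, ?_, ?_⟩, ?_⟩
  · refine ⟨?_, ?_, ?_, ?_, ?_, ?_, ?_, ?_⟩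
    · funext i; simp [hTI, ← h0]
    · funext i; simp [hTI, ← h1]
    · funext i; simp [hTI, ← h5]
    · funext i
      simp only [hTI, pat]
      by_cases hi : i < a.length
      · simp [hi]
      · simp [hi]
    · intro i; simp [hTI, h10]
    · intro i hi
      have : i ≠ 0 := by omega
      simp [hTI, h11, this]
    · intro i hi
      have : i ≠ 0 := by omega
      simp [hTI, h12, this]
    · intro i; simp [hTI]
  · simp [Fl, hTI, h11, h12]
  · intro N' hN'
    rcases Nat.lt_or_ge N' 1 with h | h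
    · have : N' = 0 := by omega
      subst this
      simp [out2]
    rcases Nat.lt_or_ge N' (a.length + 2) with h' | h'
    · obtain ⟨j, rfl⟩ : ∃ j, N' = 1 + j := ⟨N' - 1, by omega⟩
      rw [s2 j (by omega)]
      simp [out2]
    · obtain ⟨t, rfl⟩ : ∃ t, N' = a.length + 2 + t := ⟨N' - (a.length + 2), by omega⟩
      rw [s4 t (by omega)]
      simp [out2]

theorem out_seg (W : R2) (c : Cfg (Fin 14) (S2 e.k a.length)) (hq : c.q = S2.lim) (hh : c.h = 0)
    (hT : St2 x y n W c.T) (hf : Fl true true c.T) (hW : W 0 = true) :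
    out2 ((M2 e a).run c 2).q = some (W 1) ∧ ((M2 e a).run c 2).h = 0 ∧
    out2 ((M2 e a).run c 1).q = none ∧ out2 ((M2 e a).run c 0).q = none := by
  obtain ⟨q, h, T⟩ := c
  simp only at hq hh hT hf
  subst hq hh
  have e2 := InitAux.run_nat (M2 e a) ⟨S2.lim, 0, T⟩ 2
  have e1 := InitAux.run_nat (M2 e a) ⟨S2.lim, 0, T⟩ 1
  have e0 := InitAux.run_nat (M2 e a) ⟨S2.lim, 0, T⟩ 0
  simp only [Nat.cast_ofNat, Nat.cast_one, Nat.cast_zero] at e2 e1 e0
  have t6 : T 6 0 = true := by rw [hT.t6, hW]
  have s1 : (M2 e a).step ⟨S2.lim, 0, T⟩ = ⟨S2.o1, 1, T⟩ := by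
    rw [InitAux.step_id (M2 e a) S2.lim S2.o1 0 T true
      (by simp [M2, tr2, hT.t13, hf.1, hf.2, t6])]
    simp
  have s2 : (M2 e a).step ⟨S2.o1, 1, T⟩ = ⟨S2.hlt (W 1), 0, T⟩ := by
    rw [InitAux.step_id (M2 e a) S2.o1 (S2.hlt (W 1)) 1 T false
      (by simp [M2, tr2, hT.t6])]
    simp
  rw [e2, e1, e0]
  simp only [Function.iterate_succ, Function.iterate_zero, Function.comp_apply, id_eq, s1, s2]
  simp [out2]

end A2

end Pool.Agent.Helper78.ITTM
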