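import Pool.Agent.Helper78.ITTM.Prog2

/-! The simulation of an abstract machine with `K` tracks by a machine with four tracks
(0 input, 1 scratch with blocks of `K` cells, 2 output and markers, 3 oracle). -/

namespace Pool.Agent.Helper78.ITTM

/-- States of the simulating machine. -/
inductive S1 (K : ℕ) (Q : Type)
  | start | lim | halt
  | b (first : Bool) (i : Bool) (j : Fin (K + 1))
  | sl
  | pa (o i : Bool)
  | sr (o i : Bool)
  | rd (q : Q) (j : Fin K) (v : Fin K → Bool)
  | wrt (q : Q) (w : Fin K → Bool) (mv : Bool) (j : Fin K)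
  | go (q : Q) (mv : Bool) (t : Fin (K + 2))

abbrev V4 : Type := Fin 4 → Bool

/-- Reading the block cell `j` in abstract state `q`. -/
def rdStep {K : ℕ} {Q : Type} (M : Mach (Fin K) Q) (out : Q → Option Bool) (hK : 2 < K) (q : Q)
    (j : Fin K) (w : Fin K → Bool) (v : V4) : S1 K Q × V4 × Bool :=
  match out q with
  | some b => (.halt, Function.update v 2 b, false)
  | none =>
    let w' : Fin K → Bool := Function.update w j (v 1)
    if h : j.1 + 1 < K then (.rd q ⟨j.1 + 1, h⟩ w', v, true)
    else
      let r := M.tr q w'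
      (.wrt r.1 r.2.1 r.2.2 ⟨K - 2, by omega⟩, Function.update v 1 (r.2.1 j), false)

/-- The transition table of the simulating machine. -/
def tr1 {K : ℕ} {Q : Type} (M : Mach (Fin K) Q) (out : Q → Option Bool) (hK : 2 < K) :
    S1 K Q → V4 → S1 K Q × V4 × Bool
  | .start, v => (.b true (v 0) ⟨1, by omega⟩, Function.update v 1 (v 3), true)
  | .b f i j, v =>
    if j.1 = 1 then
      (.b f i ⟨2, by omega⟩, Function.update (Function.update v 1 i) 2 f, true)
    else if h : j.1 < K then (.b f i ⟨j.1 + 1, by omega⟩, v, true)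
    else (.sl, Function.update v 2 true, false)
  | .sl, v =>
    if v 2 then (.pa (v 3) (v 0), Function.update v 2 false, true) else (.sl, v, false)
  | .pa o i, v => (.sr o i, Function.update v 2 true, true)
  | .sr o i, v =>
    if v 2 then (.b false i ⟨1, by omega⟩, Function.update (Function.update v 1 o) 2 false, true)
    else (.sr o i, v, true)
  | .lim, v => rdStep M out hK M.lim ⟨0, by omega⟩ (fun _ => false) v
  | .rd q j w, v => rdStep M out hK q j w v
  | .wrt q w mv j, v =>
    if h : 0 < j.1 then (.wrt q w mv ⟨j.1 - 1, by omega⟩, Function.update v 1 (w j), false)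
    else (.go q mv ⟨K + 1, by omega⟩, Function.update v 1 (w j), true)
  | .go q mv t, v =>
    if h : 1 < t.1 then
      (.go q mv ⟨t.1 - 1, by omega⟩, v, mv)
    else (.rd q ⟨0, by omega⟩ (fun _ => false), v, false)
  | .halt, v => (.halt, v, false)

/-- The simulating machine. -/
def M1 {K : ℕ} {Q : Type} (M : Mach (Fin K) Q) (out : Q → Option Bool) (hK : 2 < K) :
    Mach (Fin 4) (S1 K Q) where
  lim := .lim
  tr := tr1 M out hK

/-- Start configuration of a four track machine. -/
def start4 {Q : Type} (s : Q) (y : R2) (n : ℕ) : Cfg (Fin 4) Q where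
  q := s
  h := 0
  T := fun k i => if k = 0 then inp n i else if k = 3 then y i else false

/-- The four tracks coding an abstract tape in blocks. -/
def blk {K : ℕ} (hK : 2 < K) (y : R2) (n : ℕ) (T : Fin K → ℕ → Bool) : Fin 4 → ℕ → Bool :=
  ![inp n, fun p => T ⟨p % K, Nat.mod_lt _ (by omega)⟩ (p / K), fun _ => false, y]

/-- The coding of abstract configurations. -/
def Codes {K : ℕ} {Q : Type} (M : Mach (Fin K) Q) (hK : 2 < K) (y : R2) (n : ℕ)
    (c : Cfg (Fin K) Q) (d : Cfg (Fin 4) (S1 K Q)) : Prop :=
  ((∃ w, d.q = .rd c.q ⟨0, by omega⟩ w) ∨ (d.q = .lim ∧ c.q = M.lim)) ∧ d.h = K * c.h ∧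
    d.T = blk hK y n c.T

end Pool.Agent.Helper78.ITTM
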