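import Pool.Agent.Helper78.ITTM.Run
import Pool.Agent.Helper78.ITTM.Prog1

/-! `3 * K` steps of the simulating machine simulate one abstract step. -/

namespace Pool.Agent.Helper78.ITTM

open Ordinal

section block
variable {K : ℕ} {Q : Type}

/-- writing on track 1 -/
theorem upd_track (T : Fin 4 → ℕ → Bool) (h : ℕ) (b : Bool) :
    (fun k => Function.update (T k) h ((Function.update (fun k => T k h) 1 b : Fin 4 → Bool) k)) =
      Function.update T 1 (Function.update (T 1) h b) := by
  funext k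
  by_cases hk : k = 1
  · subst hk
    simp
  · simp [hk]

theorem upd_none (T : Fin 4 → ℕ → Bool) (h : ℕ) :
    (fun k => Function.update (T k) h (T k h)) = T := by
  funext k
  simp

variable (M : Mach (Fin K) Q) (out : Q → Option Bool) (hK : 2 < K)

theorem step_of (s : S1 K Q) (h : ℕ) (T : Fin 4 → ℕ → Bool) (r : S1 K Q × V4 × Bool)
    (hr : tr1 M out hK s (fun k => T k h) = r) :
    (M1 M out hK).step ⟨s, h, T⟩ =
      ⟨r.1, if r.2.2 then h + 1 else h - 1, fun k => Function.update (T k) h (r.2.1 k)⟩ := by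
  subst hr
  rfl

theorem step_rd (q : Q) (j : Fin K) (w : Fin K → Bool) (h : ℕ) (T : Fin 4 → ℕ → Bool)
    (ho : out q = none) (hj : j.1 + 1 < K) :
    (M1 M out hK).step ⟨.rd q j w, h, T⟩ =
      ⟨.rd q ⟨j.1 + 1, hj⟩ (Function.update w j (T 1 h)), h + 1, T⟩ := by
  have h1 : tr1 M out hK (.rd q j w) (fun k => T k h) =
      (.rd q ⟨j.1 + 1, hj⟩ (Function.update w j (T 1 h)), fun k => T k h, true) := by
    simp only [tr1, rdStep, ho]
    rw [dif_pos hj]
  rw [step_of M out hK _ h T _ h1]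
  simp only [upd_none]
  rfl

theorem step_rd_last (q : Q) (j : Fin K) (w : Fin K → Bool) (h : ℕ) (T : Fin 4 → ℕ → Bool)
    (ho : out q = none) (hj : ¬ j.1 + 1 < K) :
    (M1 M out hK).step ⟨.rd q j w, h, T⟩ =
      ⟨.wrt (M.tr q (Function.update w j (T 1 h))).1 (M.tr q (Function.update w j (T 1 h))).2.1
        (M.tr q (Function.update w j (T 1 h))).2.2 ⟨K - 2, by omega⟩, h - 1,
        Function.update T 1 (Function.update (T 1) h
          ((M.tr q (Function.update w j (T 1 h))).2.1 j))⟩ := by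
  have h1 : tr1 M out hK (.rd q j w) (fun k => T k h) =
      (.wrt (M.tr q (Function.update w j (T 1 h))).1 (M.tr q (Function.update w j (T 1 h))).2.1
        (M.tr q (Function.update w j (T 1 h))).2.2 ⟨K - 2, by omega⟩,
        Function.update (fun k => T k h) 1 ((M.tr q (Function.update w j (T 1 h))).2.1 j),
        false) := by
    simp only [tr1, rdStep, ho]
    rw [dif_neg hj]
  rw [step_of M out hK _ h T _ h1]
  simp only [upd_track]
  rfl

/-- the limit state behaves as the reading state -/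
theorem step_lim (h : ℕ) (T : Fin 4 → ℕ → Bool) :
    (M1 M out hK).step ⟨.lim, h, T⟩ =
      (M1 M out hK).step ⟨.rd M.lim ⟨0, by omega⟩ (fun _ => false), h, T⟩ := rfl

theorem step_wrt (q : Q) (w : Fin K → Bool) (mv : Bool) (j : Fin K) (h : ℕ)
    (T : Fin 4 → ℕ → Bool) (hj : 0 < j.1) :
    (M1 M out hK).step ⟨.wrt q w mv j, h, T⟩ =
      ⟨.wrt q w mv ⟨j.1 - 1, by omega⟩, h - 1,
        Function.update T 1 (Function.update (T 1) h (w j))⟩ := by
  have h1 : tr1 M out hK (.wrt q w mv j) (fun k => T k h) =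
      (.wrt q w mv ⟨j.1 - 1, by omega⟩, Function.update (fun k => T k h) 1 (w j), false) := by
    simp only [tr1]
    rw [dif_pos hj]
  rw [step_of M out hK _ h T _ h1]
  simp only [upd_track]
  rfl

theorem step_wrt_last (q : Q) (w : Fin K → Bool) (mv : Bool) (j : Fin K) (h : ℕ)
    (T : Fin 4 → ℕ → Bool) (hj : ¬ 0 < j.1) :
    (M1 M out hK).step ⟨.wrt q w mv j, h, T⟩ =
      ⟨.go q mv ⟨K + 1, by omega⟩, h + 1,
        Function.update T 1 (Function.update (T 1) h (w j))⟩ := by
  have h1 : tr1 M out hK (.wrt q w mv j) (fun k => T k h) =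
      (.go q mv ⟨K + 1, by omega⟩, Function.update (fun k => T k h) 1 (w j), true) := by
    simp only [tr1]
    rw [dif_neg hj]
  rw [step_of M out hK _ h T _ h1]
  simp only [upd_track]
  rfl

theorem step_go (q : Q) (mv : Bool) (t : Fin (K + 2)) (h : ℕ) (T : Fin 4 → ℕ → Bool)
    (ht : 1 < t.1) :
    (M1 M out hK).step ⟨.go q mv t, h, T⟩ =
      ⟨.go q mv ⟨t.1 - 1, by omega⟩, if mv then h + 1 else h - 1, T⟩ := by
  have h1 : tr1 M out hK (.go q mv t) (fun k => T k h) =
      (.go q mv ⟨t.1 - 1, by omega⟩, fun k => T k h, mv) := by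
    simp only [tr1]
    rw [dif_pos ht]
  rw [step_of M out hK _ h T _ h1]
  simp only [upd_none]

theorem step_go_last (q : Q) (mv : Bool) (t : Fin (K + 2)) (h : ℕ) (T : Fin 4 → ℕ → Bool)
    (ht : ¬ 1 < t.1) :
    (M1 M out hK).step ⟨.go q mv t, h, T⟩ =
      ⟨.rd q ⟨0, by omega⟩ (fun _ => false), h - 1, T⟩ := by
  have h1 : tr1 M out hK (.go q mv t) (fun k => T k h) =
      (.rd q ⟨0, by omega⟩ (fun _ => false), fun k => T k h, false) := by
    simp only [tr1]
    rw [dif_neg ht]
  rw [step_of M out hK _ h T _ h1]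
  simp only [upd_none]
  rfl

/-- the tape while the block is rewritten: the last `i` cells are new -/
def mixT (y : R2) (n : ℕ) (c : Cfg (Fin K) Q) (i : ℕ) : Fin 4 → ℕ → Bool :=
  ![inp n, fun p => if K * c.h + (K - i) ≤ p ∧ p < K * c.h + K then blk hK y n (M.step c).T 1 p
    else blk hK y n c.T 1 p, fun _ => false, y]

theorem blk_step (y : R2) (n : ℕ) (c : Cfg (Fin K) Q) (j : Fin K) :
    blk hK y n (M.step c).T 1 (K * c.h + j.1) = (M.tr c.q c.rd).2.1 j := by
  have h1 : (K * c.h + j.1) % K = j.1 := by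
    rw [Nat.mul_add_mod, Nat.mod_eq_of_lt j.2]
  have h2 : (K * c.h + j.1) / K = c.h := by
    rw [Nat.mul_add_div (by omega), Nat.div_eq_of_lt j.2, add_zero]
  show (M.step c).T ⟨(K * c.h + j.1) % K, _⟩ ((K * c.h + j.1) / K) = _
  have h3 : (⟨(K * c.h + j.1) % K, Nat.mod_lt _ (by omega)⟩ : Fin K) = j := Fin.ext h1
  rw [h3, h2]
  simp [Mach.step]

theorem blk_old (y : R2) (n : ℕ) (c : Cfg (Fin K) Q) (j : Fin K) :
    blk hK y n c.T 1 (K * c.h + j.1) = c.T j c.h := by
  have h1 : (K * c.h + j.1) % K = j.1 := by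
    rw [Nat.mul_add_mod, Nat.mod_eq_of_lt j.2]
  have h2 : (K * c.h + j.1) / K = c.h := by
    rw [Nat.mul_add_div (by omega), Nat.div_eq_of_lt j.2, add_zero]
  show c.T ⟨(K * c.h + j.1) % K, _⟩ ((K * c.h + j.1) / K) = _
  have h3 : (⟨(K * c.h + j.1) % K, Nat.mod_lt _ (by omega)⟩ : Fin K) = j := Fin.ext h1
  rw [h3, h2]

theorem mixT_zero (y : R2) (n : ℕ) (c : Cfg (Fin K) Q) :
    mixT M hK y n c 0 = blk hK y n c.T := by
  funext k p
  fin_cases k
  · rfl
  · show (if K * c.h + (K - 0) ≤ p ∧ p < K * c.h + K then _ else _) = _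
    rw [if_neg (by omega)]
    rfl
  · rfl
  · rfl

theorem mixT_all (y : R2) (n : ℕ) (c : Cfg (Fin K) Q) :
    mixT M hK y n c K = blk hK y n (M.step c).T := by
  funext k p
  fin_cases k
  · rfl
  · show (if K * c.h + (K - K) ≤ p ∧ p < K * c.h + K then _ else _) = _
    by_cases hp : K * c.h + (K - K) ≤ p ∧ p < K * c.h + K
    · rw [if_pos hp]
      rfl
    · rw [if_neg hp]
      show c.T ⟨p % K, _⟩ (p / K) = (M.step c).T ⟨p % K, _⟩ (p / K)
      have h1 : p / K ≠ c.h := by
        intro h1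
        apply hp
        have h2 := Nat.div_add_mod p K
        have h3 : p % K < K := Nat.mod_lt _ (by omega)
        rw [h1] at h2
        omega
      simp [Mach.step, Function.update_of_ne h1]
  · rfl
  · rfl

theorem mixT_succ (y : R2) (n : ℕ) (c : Cfg (Fin K) Q) (i : ℕ) (hi : i < K) :
    Function.update (mixT M hK y n c i) 1 (Function.update (mixT M hK y n c i 1)
      (K * c.h + (K - 1 - i)) ((M.tr c.q c.rd).2.1 ⟨K - 1 - i, by omega⟩)) =
      mixT M hK y n c (i + 1) := by
  funext k p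
  by_cases hk : k = 1
  · subst hk
    rw [Function.update_self]
    by_cases hp : p = K * c.h + (K - 1 - i)
    · subst hp
      rw [Function.update_self]
      show _ = (if K * c.h + (K - (i + 1)) ≤ K * c.h + (K - 1 - i) ∧
        K * c.h + (K - 1 - i) < K * c.h + K then _ else _)
      rw [if_pos (by omega)]
      exact (blk_step M hK y n c ⟨K - 1 - i, by omega⟩).symm
    · rw [Function.update_of_ne hp]
      show (if K * c.h + (K - i) ≤ p ∧ p < K * c.h + K then _ else _) =
        (if K * c.h + (K - (i + 1)) ≤ p ∧ p < K * c.h + K then _ else _)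
      by_cases h1 : K * c.h + (K - i) ≤ p ∧ p < K * c.h + K
      · rw [if_pos h1, if_pos (by omega)]
      · rw [if_neg h1, if_neg (by omega)]
  · rw [Function.update_of_ne hk]
    fin_cases k
    · rfl
    · exact absurd rfl hk
    · rfl
    · rfl

theorem mixT_props (y : R2) (n : ℕ) (c : Cfg (Fin K) Q) (i : ℕ) :
    mixT M hK y n c i 0 = inp n ∧ mixT M hK y n c i 2 = (fun _ => false) ∧
      mixT M hK y n c i 3 = y ∧
      ∀ p, mixT M hK y n c i 1 p = blk hK y n c.T 1 p ∨
        mixT M hK y n c i 1 p = blk hK y n (M.step c).T 1 p := by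
  refine ⟨rfl, rfl, rfl, fun p => ?_⟩
  show (if K * c.h + (K - i) ≤ p ∧ p < K * c.h + K then blk hK y n (M.step c).T 1 p
    else blk hK y n c.T 1 p) = _ ∨ (if K * c.h + (K - i) ≤ p ∧ p < K * c.h + K then
      blk hK y n (M.step c).T 1 p else blk hK y n c.T 1 p) = _
  split
  · exact Or.inr rfl
  · exact Or.inl rfl

theorem run_nat_succ (d : Cfg (Fin 4) (S1 K Q)) (m : ℕ) :
    (M1 M out hK).run d ((m + 1 : ℕ) : Ordinal.{0}) =
      (M1 M out hK).step ((M1 M out hK).run d (m : Ordinal.{0})) := by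
  rw [Nat.cast_succ, run_succ]

theorem run_nat_zero (d : Cfg (Fin 4) (S1 K Q)) :
    (M1 M out hK).run d ((0 : ℕ) : Ordinal.{0}) = d := by
  rw [Nat.cast_zero, run_zero]

theorem block (y : R2) (n : ℕ) (c : Cfg (Fin K) Q) (d : Cfg (Fin 4) (S1 K Q))
    (h : Codes M hK y n c d) (ho : out c.q = none) :
    Codes M hK y n (M.step c) ((M1 M out hK).run d ((3 * K : ℕ) : Ordinal.{0})) ∧
    ∀ m : ℕ, m < 3 * K →
      ((M1 M out hK).run d (m : Ordinal.{0})).q ≠ S1.halt ∧
      ((M1 M out hK).run d (m : Ordinal.{0})).T 0 = inp n ∧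
      ((M1 M out hK).run d (m : Ordinal.{0})).T 2 = (fun _ => false) ∧
      ((M1 M out hK).run d (m : Ordinal.{0})).T 3 = y ∧
      ∀ p, ((M1 M out hK).run d (m : Ordinal.{0})).T 1 p = blk hK y n c.T 1 p ∨
        ((M1 M out hK).run d (m : Ordinal.{0})).T 1 p = blk hK y n (M.step c).T 1 p := by
  obtain ⟨hq, hh, hT⟩ := h
  obtain ⟨dq, dh, dT⟩ := d
  simp only at hq hh hT
  subst hh hT
  -- phase A
  have hA : ∀ j, j + 1 < K → ∃ w : Fin K → Bool, (∀ i : Fin K, i.1 < j + 1 → w i = c.T i c.h) ∧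
      (M1 M out hK).run ⟨dq, K * c.h, blk hK y n c.T⟩ ((j + 1 : ℕ) : Ordinal.{0}) =
        if hj : j + 1 < K then ⟨.rd c.q ⟨j + 1, hj⟩ w, K * c.h + (j + 1), blk hK y n c.T⟩
        else ⟨dq, K * c.h, blk hK y n c.T⟩ := by
    intro j
    induction j with
    | zero =>
      intro hj
      have key : ∀ w : Fin K → Bool, (M1 M out hK).step
          ⟨.rd c.q ⟨0, by omega⟩ w, K * c.h, blk hK y n c.T⟩ =
          ⟨.rd c.q ⟨1, hj⟩ (Function.update w ⟨0, by omega⟩ (c.T ⟨0, by omega⟩ c.h)),
            K * c.h + 1, blk hK y n c.T⟩ := by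
        intro w
        rw [step_rd M out hK c.q ⟨0, by omega⟩ w (K * c.h) (blk hK y n c.T) ho hj]
        have := blk_old hK y n c ⟨0, by omega⟩
        simp only [add_zero] at this
        rw [this]
      have h0 : ∀ w : Fin K → Bool, ∀ i : Fin K, i.1 < 0 + 1 →
          Function.update w (⟨0, by omega⟩ : Fin K) (c.T ⟨0, by omega⟩ c.h) i = c.T i c.h := by
        intro w i hi
        have : i = ⟨0, by omega⟩ := Fin.ext (by simpa using hi)
        rw [this, Function.update_self]
      rcases hq with ⟨w, hw⟩ | ⟨hw, hw'⟩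
      · refine ⟨_, h0 w, ?_⟩
        rw [run_nat_succ, run_nat_zero, dif_pos hj]
        subst hw
        exact key w
      · refine ⟨_, h0 (fun _ => false), ?_⟩
        rw [run_nat_succ, run_nat_zero, dif_pos hj]
        subst hw
        rw [step_lim, ← hw']
        exact key _
    | succ j ih =>
      intro hj
      obtain ⟨w, hw1, hw2⟩ := ih (by omega)
      rw [dif_pos (by omega)] at hw2
      refine ⟨Function.update w ⟨j + 1, by omega⟩ (c.T ⟨j + 1, by omega⟩ c.h), ?_, ?_⟩
      · intro i hi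
        by_cases h1 : i = ⟨j + 1, by omega⟩
        · rw [h1, Function.update_self]
        · rw [Function.update_of_ne h1]
          refine hw1 i ?_
          have : i.1 ≠ j + 1 := fun h2 => h1 (Fin.ext h2)
          omega
      · rw [run_nat_succ, hw2, dif_pos hj,
          step_rd M out hK c.q ⟨j + 1, by omega⟩ w _ _ ho hj,
          blk_old hK y n c ⟨j + 1, by omega⟩]
        rfl
  -- end of phase A
  have hK1 : (M1 M out hK).run ⟨dq, K * c.h, blk hK y n c.T⟩ ((K : ℕ) : Ordinal.{0}) =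
      ⟨.wrt (M.tr c.q c.rd).1 (M.tr c.q c.rd).2.1 (M.tr c.q c.rd).2.2 ⟨K - 1 - (0 + 1), by omega⟩,
        K * c.h + (K - 1 - (0 + 1)), mixT M hK y n c (0 + 1)⟩ := by
    obtain ⟨w, hw1, hw2⟩ := hA (K - 2) (by omega)
    rw [dif_pos (by omega)] at hw2
    have e1 : K = (K - 2 + 1) + 1 := by omega
    have e2 : ((K : ℕ) : Ordinal.{0}) = (((K - 2 + 1) + 1 : ℕ) : Ordinal.{0}) := by
      rw [← e1]
    have e5 : (⟨K - 2 + 1, by omega⟩ : Fin K) = ⟨K - 1 - 0, by omega⟩ := Fin.ext (by
      simp only; omega)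
    have e6 : K * c.h + (K - 2 + 1) = K * c.h + (K - 1 - 0) := by omega
    rw [e5, e6] at hw2
    rw [e2, run_nat_succ, hw2, step_rd_last M out hK c.q ⟨K - 1 - 0, by omega⟩ w _ _ ho
      (by simp only; omega), blk_old hK y n c ⟨K - 1 - 0, by omega⟩]
    have e3 : Function.update w (⟨K - 1 - 0, by omega⟩ : Fin K)
        (c.T ⟨K - 1 - 0, by omega⟩ c.h) = c.rd := by
      funext i
      by_cases h1 : i = ⟨K - 1 - 0, by omega⟩
      · rw [h1, Function.update_self]
        rfl
      · rw [Function.update_of_ne h1]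
        refine hw1 i ?_
        have : i.1 ≠ K - 1 - 0 := fun h2 => h1 (Fin.ext h2)
        have := i.2
        omega
    rw [e3, ← mixT_zero M hK y n c]
    have e4 := mixT_succ M hK y n c 0 (by omega)
    rw [e4]
    have e7 : (⟨K - 2, by omega⟩ : Fin K) = ⟨K - 1 - (0 + 1), by omega⟩ := Fin.ext (by
      simp only; omega)
    have e8 : K * c.h + (K - 1 - 0) - 1 = K * c.h + (K - 1 - (0 + 1)) := by omega
    rw [e7, e8]
  -- phase B
  have hB : ∀ i, i + 2 ≤ K → (M1 M out hK).run ⟨dq, K * c.h, blk hK y n c.T⟩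
      ((K + i : ℕ) : Ordinal.{0}) =
      ⟨.wrt (M.tr c.q c.rd).1 (M.tr c.q c.rd).2.1 (M.tr c.q c.rd).2.2 ⟨K - 1 - (i + 1), by omega⟩,
        K * c.h + (K - 1 - (i + 1)), mixT M hK y n c (i + 1)⟩ := by
    intro i
    induction i with
    | zero =>
      intro _
      rw [add_zero]
      exact hK1
    | succ i ih =>
      intro hi
      have e1 : K + (i + 1) = (K + i) + 1 := by omega
      rw [e1, run_nat_succ, ih (by omega), step_wrt M out hK _ _ _ _ _ _ (by
        simp only; omega)]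
      have e4 := mixT_succ M hK y n c (i + 1) (by omega)
      rw [e4]
      have e6 : K * c.h + (K - 1 - (i + 1)) - 1 = K * c.h + (K - 1 - (i + 1 + 1)) := by omega
      rw [e6]
      congr 1
  -- end of phase B
  have hBend : (M1 M out hK).run ⟨dq, K * c.h, blk hK y n c.T⟩ ((2 * K - 1 : ℕ) : Ordinal.{0}) =
      ⟨.go (M.tr c.q c.rd).1 (M.tr c.q c.rd).2.2 ⟨K + 1, by omega⟩, K * c.h + 1,
        blk hK y n (M.step c).T⟩ := by
    have e1 : 2 * K - 1 = (K + (K - 2)) + 1 := by omega
    rw [e1, run_nat_succ, hB (K - 2) (by omega), step_wrt_last M out hK _ _ _ _ _ _ (by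
      simp only; omega)]
    have e4 := mixT_succ M hK y n c (K - 2 + 1) (by omega)
    have e8 : K - 2 + 1 + 1 = K := by omega
    rw [e4, e8, mixT_all]
    congr 1
    omega
  -- phase C
  have hC : ∀ i, i ≤ K → (M1 M out hK).run ⟨dq, K * c.h, blk hK y n c.T⟩
      ((2 * K - 1 + i : ℕ) : Ordinal.{0}) =
      ⟨.go (M.tr c.q c.rd).1 (M.tr c.q c.rd).2.2 ⟨K + 1 - i, by omega⟩,
        if (M.tr c.q c.rd).2.2 then K * c.h + 1 + i else K * c.h + 1 - i,
        blk hK y n (M.step c).T⟩ := by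
    intro i
    induction i with
    | zero =>
      intro _
      rw [add_zero, hBend]
      congr 1
      simp
    | succ i ih =>
      intro hi
      have e1 : 2 * K - 1 + (i + 1) = (2 * K - 1 + i) + 1 := by omega
      rw [e1, run_nat_succ, ih (by omega), step_go M out hK _ _ _ _ _ (by simp only; omega)]
      have e9 : ∀ b : Bool, (if b then (if b then K * c.h + 1 + i else K * c.h + 1 - i) + 1
          else (if b then K * c.h + 1 + i else K * c.h + 1 - i) - 1) =
          if b then K * c.h + 1 + (i + 1) else K * c.h + 1 - (i + 1) := by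
        intro b
        cases b
        · simp only [Bool.false_eq_true, if_false]
          omega
        · simp only [if_true]
          omega
      rw [e9]
      congr 1
  -- end of phase C
  have hEnd : (M1 M out hK).run ⟨dq, K * c.h, blk hK y n c.T⟩ ((3 * K : ℕ) : Ordinal.{0}) =
      ⟨.rd (M.tr c.q c.rd).1 ⟨0, by omega⟩ (fun _ => false), K * (M.step c).h,
        blk hK y n (M.step c).T⟩ := by
    have e1 : 3 * K = (2 * K - 1 + K) + 1 := by omega
    rw [e1, run_nat_succ, hC K le_rfl, step_go_last M out hK _ _ _ _ _ (by simp only; omega)]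
    congr 1
    show _ = K * (if (M.tr c.q c.rd).2.2 then c.h + 1 else c.h - 1)
    split
    · rw [mul_add, mul_one]
      omega
    · rcases Nat.eq_zero_or_pos c.h with h0 | h0
      · rw [h0]
        simp
      · obtain ⟨h', hh'⟩ : ∃ h', c.h = h' + 1 := ⟨c.h - 1, by omega⟩
        rw [hh', mul_add, mul_one]
        simp only [Nat.add_sub_cancel]
        omega
  refine ⟨?_, fun m hm => ?_⟩
  · rw [hEnd]
    exact ⟨Or.inl ⟨_, rfl⟩, rfl, rfl⟩
  · have hz := mixT_props M hK y n c 0
    rw [mixT_zero] at hz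
    have ha := mixT_props M hK y n c K
    rw [mixT_all] at ha
    rcases Nat.eq_zero_or_pos m with h0 | h0
    · subst h0
      rw [run_nat_zero]
      refine ⟨?_, hz⟩
      rcases hq with ⟨w, hw⟩ | ⟨hw, -⟩
      · rw [hw]
        simp
      · rw [hw]
        simp
    · by_cases h1 : m < K
      · obtain ⟨j, rfl⟩ : ∃ j, m = j + 1 := ⟨m - 1, by omega⟩
        obtain ⟨w, -, hw⟩ := hA j h1
        rw [dif_pos h1] at hw
        rw [hw]
        exact ⟨by simp, hz⟩
      · by_cases h2 : m < 2 * K - 1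
        · obtain ⟨i, rfl⟩ : ∃ i, m = K + i := ⟨m - K, by omega⟩
          rw [hB i (by omega)]
          exact ⟨by simp, mixT_props M hK y n c (i + 1)⟩
        · obtain ⟨i, rfl⟩ : ∃ i, m = 2 * K - 1 + i := ⟨m - (2 * K - 1), by omega⟩
          rw [hC i (by omega)]
          exact ⟨by simp, ha⟩

end block

end Pool.Agent.Helper78.ITTM
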