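import Pool.Agent.Helper78.ITTM.Run2
import Pool.Agent.Helper78.ITTM.Prog1

/-! The first `ω` steps of the simulating machine: oracle and input are written in the blocks. -/

namespace Pool.Agent.Helper78.ITTM

open Ordinal

namespace Stretch

section seg

variable {κ Q : Type} {M : Mach κ Q} {G : Cfg κ Q → Prop} {c d e : Cfg κ Q}

/-- A finite segment of a run, all configurations before the last one having the property `G`. -/
def Seg (M : Mach κ Q) (G : Cfg κ Q → Prop) (c d : Cfg κ Q) (n : ℕ) : Prop :=
  M.step^[n] c = d ∧ ∀ m, m < n → G (M.step^[m] c)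

theorem Seg.zero : Seg M G c c 0 := ⟨rfl, fun m hm => absurd hm (Nat.not_lt_zero m)⟩

theorem Seg.one (h : M.step c = d) (hG : G c) : Seg M G c d 1 := by
  refine ⟨h, fun m hm => ?_⟩
  have : m = 0 := by omega
  subst this
  exact hG

theorem Seg.trans {m n : ℕ} (h1 : Seg M G c d m) (h2 : Seg M G d e n) : Seg M G c e (m + n) := by
  refine ⟨?_, fun k hk => ?_⟩
  · rw [add_comm, Function.iterate_add_apply, h1.1, h2.1]
  · by_cases h : k < m
    · exact h1.2 k h
    · obtain ⟨j, rfl⟩ := Nat.exists_eq_add_of_le (not_lt.mp h)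
      rw [add_comm, Function.iterate_add_apply, h1.1]
      exact h2.2 j (by omega)

theorem Seg.walk (f : ℕ → Cfg κ Q) (n : ℕ) (h : ∀ j, j < n → M.step (f j) = f (j + 1))
    (hG : ∀ j, j < n → G (f j)) : Seg M G (f 0) (f n) n := by
  induction n with
  | zero => exact Seg.zero
  | succ n ih =>
    exact (ih (fun j hj => h j (by omega)) fun j hj => hG j (by omega)).trans
      (Seg.one (h n (by omega)) (hG n (by omega)))

/-- cells to the left of the head are not changed -/
theorem Seg.keep {n h0 : ℕ} (h : Seg M (fun c => h0 ≤ c.h ∧ G c) c d n) :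
    ∀ m, m ≤ n → ∀ k p, p < h0 → (M.step^[m] c).T k p = c.T k p := by
  intro m
  induction m with
  | zero => intro _ k p _; rfl
  | succ m ih =>
    intro hm k p hp
    rw [Function.iterate_succ_apply', ← ih (by omega) k p hp]
    have h1 := (h.2 m (by omega)).1
    show Function.update ((M.step^[m] c).T k) (M.step^[m] c).h _ p = _
    rw [Function.update_of_ne (by omega)]

end seg

/-- one step of a machine with four tracks which does not change tracks 0 and 3 -/
theorem step4 {Q : Type} (M : Mach (Fin 4) Q) (q q' : Q) (h : ℕ) (I A B Y : ℕ → Bool)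
    (v' : Fin 4 → Bool) (mv : Bool) (ht : M.tr q ![I h, A h, B h, Y h] = (q', v', mv))
    (h0 : v' 0 = I h) (h3 : v' 3 = Y h) :
    M.step ⟨q, h, ![I, A, B, Y]⟩ = ⟨q', if mv then h + 1 else h - 1,
      ![I, Function.update A h (v' 1), Function.update B h (v' 2), Y]⟩ := by
  have hrd : (⟨q, h, ![I, A, B, Y]⟩ : Cfg (Fin 4) Q).rd = ![I h, A h, B h, Y h] := by
    funext k
    fin_cases k <;> rfl
  unfold Mach.step
  rw [hrd, ht]
  congr 1
  funext k
  fin_cases k
  · show Function.update I h (v' 0) = I
    rw [h0, Function.update_eq_self]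
  · rfl
  · rfl
  · show Function.update Y h (v' 3) = Y
    rw [h3, Function.update_eq_self]

section main

variable {K : ℕ} {Q : Type} (M : Mach (Fin K) Q) (out : Q → Option Bool) (hK : 2 < K)
  (y : R2) (n : ℕ)

/-- the final contents of the scratch track -/
def bv (K : ℕ) (y : R2) (n p : ℕ) : Bool :=
  if p % K = 0 then y (p / K) else if p % K = 1 then inp n (p / K) else false

/-- the scratch track before block `i` -/
def Av (K : ℕ) (y : R2) (n i p : ℕ) : Bool :=
  if p < K * i then bv K y n p else if p = K * i then y i else false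

/-- the marker track before block `i` -/
def Bv (i p : ℕ) : Bool := decide (i ≠ 0 ∧ p = i + 1)

/-- the configuration before block `i` -/
def Dv (i : ℕ) : Cfg (Fin 4) (S1 K Q) :=
  ⟨.b (decide (i = 0)) (inp n i) ⟨1, by omega⟩, K * i + 1, ![inp n, Av K y n i, Bv i, y]⟩

include hK in
theorem bv_one (i : ℕ) : bv K y n (K * i + 1) = inp n i := by
  have h1 : (K * i + 1) % K = 1 := by
    rw [Nat.mul_add_mod, Nat.mod_eq_of_lt (by omega)]
  have h2 : (K * i + 1) / K = i := by
    rw [Nat.mul_add_div (by omega), Nat.div_eq_of_lt (by omega), add_zero]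
  unfold bv
  rw [h1, h2]
  simp

include hK in
theorem bv_zero (i : ℕ) : bv K y n (K * i) = y i := by
  have h1 : (K * i) % K = 0 := Nat.mul_mod_right K i
  have h2 : (K * i) / K = i := Nat.mul_div_cancel_left i (by omega)
  unfold bv
  rw [h1, h2]
  simp

include hK in
theorem bv_other (i j : ℕ) (h1 : 1 < j) (h2 : j < K) : bv K y n (K * i + j) = false := by
  have h3 : (K * i + j) % K = j := by
    rw [Nat.mul_add_mod, Nat.mod_eq_of_lt h2]
  unfold bv
  rw [h3, if_neg (by omega), if_neg (by omega)]

theorem seg (i : ℕ) : ∃ θ, 0 < θ ∧ Seg (M1 M out hK)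
    (fun c => i + 1 ≤ c.h ∧ c.q ≠ S1.halt) (Dv (Q := Q) hK y n i) (Dv hK y n (i + 1)) θ := by
  obtain ⟨k, hk⟩ : ∃ k, k = K * i := ⟨_, rfl⟩
  have hk3 : 3 * i ≤ k := hk ▸ Nat.mul_le_mul_right i hK
  have hkK : K * (i + 1) = k + K := by rw [hk, Nat.mul_succ]
  have hi1 : K * i + 1 = k + 1 := by rw [hk]
  have hk0 : i = 0 → k = 0 := fun h => by rw [hk, h, Nat.mul_zero]
  set A1 : ℕ → Bool := Function.update (Av K y n i) (k + 1) (inp n i) with hA1
  set B1 : ℕ → Bool := fun p => decide (p = i + 1) with hB1
  set B2 : ℕ → Bool := fun p => decide (p = i + 1 ∨ p = k + K) with hB2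
  set B3 : ℕ → Bool := fun p => decide (p = k + K) with hB3
  set B4 : ℕ → Bool := fun p => decide (p = i + 2 ∨ p = k + K) with hB4
  have e1 : Function.update (Bv i) (k + 1) (decide (i = 0)) = B1 := by
    funext p
    by_cases hp : p = k + 1
    · subst hp
      rw [Function.update_self, hB1]
      simp only [decide_eq_decide]
      omega
    · rw [Function.update_of_ne hp, hB1]
      simp only [Bv, decide_eq_decide]
      constructor
      · exact fun h => h.2
      · intro h
        refine ⟨fun h0 => hp ?_, h⟩
        subst h0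
        omega
  have e2 : Function.update B1 (k + K) true = B2 := by
    funext p
    by_cases hp : p = k + K
    · subst hp
      rw [Function.update_self, hB2]
      simp
    · rw [Function.update_of_ne hp, hB1, hB2]
      simp [hp]
  have e3 : Function.update B2 (i + 1) false = B3 := by
    funext p
    by_cases hp : p = i + 1
    · subst hp
      rw [Function.update_self, hB3]
      simp only [Bool.false_eq, decide_eq_false_iff_not]
      omega
    · rw [Function.update_of_ne hp, hB2, hB3]
      simp [hp]
  have e4 : Function.update B3 (i + 2) true = B4 := by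
    funext p
    by_cases hp : p = i + 2
    · subst hp
      rw [Function.update_self, hB4]
      simp
    · rw [Function.update_of_ne hp, hB3, hB4]
      simp [hp]
  have e5 : Function.update B4 (k + K) false = Bv (i + 1) := by
    funext p
    by_cases hp : p = k + K
    · subst hp
      rw [Function.update_self]
      simp only [Bv, Bool.false_eq, decide_eq_false_iff_not]
      omega
    · rw [Function.update_of_ne hp, hB4]
      simp only [Bv, decide_eq_decide]
      omega
  have e6 : Function.update A1 (k + K) (y (i + 1)) = Av K y n (i + 1) := by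
    funext p
    by_cases hp : p = k + K
    · subst hp
      rw [Function.update_self, Av, if_neg (by omega), if_pos (by omega)]
    · rw [Function.update_of_ne hp, hA1]
      by_cases hp1 : p = k + 1
      · subst hp1
        rw [Function.update_self, Av, if_pos (by omega), hk, bv_one hK y n]
      · rw [Function.update_of_ne hp1]
        rcases lt_trichotomy p k with h | h | h
        · rw [Av, Av, if_pos (by omega), if_pos (by omega)]
        · rw [Av, Av, if_neg (by omega), if_pos (by omega), if_pos (by omega), h, hk, bv_zero hK y n]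
        · rw [Av, Av, if_neg (by omega), if_neg (by omega)]
          by_cases h' : p < K * (i + 1)
          · rw [if_pos h']
            obtain ⟨j, hj⟩ := Nat.exists_eq_add_of_le h.le
            rw [hj, hk, bv_other hK y n i j (by omega) (by omega)]
          · rw [if_neg h', if_neg (by omega)]
  -- the segments
  have s1 : Seg (M1 M out hK) (fun c => i + 1 ≤ c.h ∧ c.q ≠ S1.halt) (Dv (Q := Q) hK y n i)
      ⟨.b (decide (i = 0)) (inp n i) ⟨min (0 + 2) K, by omega⟩, k + 2 + 0,
        ![inp n, A1, B1, y]⟩ 1 := by
    refine Seg.one ?_ ⟨?_, ?_⟩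
    · have h1 : (min (0 + 2) K) = 2 := by omega
      have h2 : (M1 M out hK).tr (.b (decide (i = 0)) (inp n i) ⟨1, by omega⟩)
          ![inp n (k + 1), Av K y n i (k + 1), Bv i (k + 1), y (k + 1)] =
          (.b (decide (i = 0)) (inp n i) ⟨2, by omega⟩,
            Function.update (Function.update
              ![inp n (k + 1), Av K y n i (k + 1), Bv i (k + 1), y (k + 1)] 1 (inp n i)) 2
              (decide (i = 0)), true) := rfl
      have h3 := step4 (M1 M out hK) _ _ _ (inp n) (Av K y n i) (Bv i) y _ _ h2
        (by simp) (by simp)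
      unfold Dv
      simp only [hi1, h1]
      rw [h3, ← e1]
      rfl
    · show i + 1 ≤ K * i + 1
      omega
    · exact fun h => by cases h
  have s2 := Seg.walk (M := M1 M out hK) (G := fun c => i + 1 ≤ c.h ∧ c.q ≠ S1.halt)
    (fun j => ⟨.b (decide (i = 0)) (inp n i) ⟨min (j + 2) K, by omega⟩, k + 2 + j,
        ![inp n, A1, B1, y]⟩) (K - 2) (fun j hj => by
      have h2 : (M1 M out hK).tr (.b (decide (i = 0)) (inp n i) ⟨min (j + 2) K, by omega⟩)
          ![inp n (k + 2 + j), A1 (k + 2 + j), B1 (k + 2 + j), y (k + 2 + j)] =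
          (.b (decide (i = 0)) (inp n i) ⟨min (j + 1 + 2) K, by omega⟩,
            ![inp n (k + 2 + j), A1 (k + 2 + j), B1 (k + 2 + j), y (k + 2 + j)], true) := by
        show (if min (j + 2) K = 1 then _ else if h : min (j + 2) K < K then _ else _) = _
        rw [if_neg (by omega), dif_pos (by omega)]
        congr 3
        show min (j + 2) K + 1 = min (j + 1 + 2) K
        omega
      have h3 := step4 (M1 M out hK) _ _ _ (inp n) A1 B1 y _ _ h2 rfl rfl
      rw [h3]
      congr 1
      show (![inp n, Function.update A1 (k + 2 + j) (A1 (k + 2 + j)),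
        Function.update B1 (k + 2 + j) (B1 (k + 2 + j)), y] : Fin 4 → ℕ → Bool) = _
      rw [Function.update_eq_self, Function.update_eq_self]) (fun j hj => by
      refine ⟨?_, fun h => by cases h⟩
      show i + 1 ≤ k + 2 + j
      omega)
  have s3 : Seg (M1 M out hK) (fun c => i + 1 ≤ c.h ∧ c.q ≠ S1.halt)
      ⟨.b (decide (i = 0)) (inp n i) ⟨min (K - 2 + 2) K, by omega⟩, k + 2 + (K - 2),
        ![inp n, A1, B1, y]⟩ ⟨.sl, k + K - 1 - 0, ![inp n, A1, B2, y]⟩ 1 := by
    have hh : k + 2 + (K - 2) = k + K := by omega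
    rw [hh]
    refine Seg.one ?_ ⟨?_, fun h => by cases h⟩
    · have h2 : (M1 M out hK).tr (.b (decide (i = 0)) (inp n i) ⟨min (K - 2 + 2) K, by omega⟩)
          ![inp n (k + K), A1 (k + K), B1 (k + K), y (k + K)] =
          (.sl, Function.update ![inp n (k + K), A1 (k + K), B1 (k + K), y (k + K)] 2 true,
            false) := by
        show (if min (K - 2 + 2) K = 1 then _ else
          if h : min (K - 2 + 2) K < K then _ else _) = _
        rw [if_neg (by omega), dif_neg (by omega)]
      have h3 := step4 (M1 M out hK) _ _ _ (inp n) A1 B1 y _ _ h2 (by simp) (by simp)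
      rw [h3]
      congr 1
      show (![inp n, Function.update A1 (k + K) (A1 (k + K)),
        Function.update B1 (k + K) true, y] : Fin 4 → ℕ → Bool) = _
      rw [Function.update_eq_self, e2]
    · show i + 1 ≤ k + K
      omega
  have s4 := Seg.walk (M := M1 M out hK) (G := fun c => i + 1 ≤ c.h ∧ c.q ≠ S1.halt)
    (fun j => ⟨.sl, k + K - 1 - j, ![inp n, A1, B2, y]⟩) (k + K - 1 - (i + 1)) (fun j hj => by
      obtain ⟨p, hp⟩ : ∃ p, p = k + K - 1 - j := ⟨_, rfl⟩
      have hB : B2 p = false := by
        simp only [hB2, decide_eq_false_iff_not]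
        omega
      have h2 : (M1 M out hK).tr .sl ![inp n p, A1 p, B2 p, y p] =
          (.sl, ![inp n p, A1 p, B2 p, y p], false) := by
        show (if B2 p = true then _ else _) = _
        rw [hB]
        rfl
      have h3 := step4 (M1 M out hK) _ _ _ (inp n) A1 B2 y _ _ h2 rfl rfl
      show (M1 M out hK).step ⟨.sl, k + K - 1 - j, ![inp n, A1, B2, y]⟩ =
        ⟨.sl, k + K - 1 - (j + 1), ![inp n, A1, B2, y]⟩
      rw [← hp, h3]
      have e : k + K - 1 - (j + 1) = p - 1 := by omega
      rw [e]
      congr 1
      show (![inp n, Function.update A1 p (A1 p), Function.update B2 p (B2 p), y] :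
        Fin 4 → ℕ → Bool) = _
      rw [Function.update_eq_self, Function.update_eq_self]) (fun j hj => by
      refine ⟨?_, fun h => by cases h⟩
      show i + 1 ≤ k + K - 1 - j
      omega)
  have s5 : Seg (M1 M out hK) (fun c => i + 1 ≤ c.h ∧ c.q ≠ S1.halt)
      ⟨.sl, k + K - 1 - (k + K - 1 - (i + 1)), ![inp n, A1, B2, y]⟩
      ⟨.pa (y (i + 1)) (inp n (i + 1)), i + 2, ![inp n, A1, B3, y]⟩ 1 := by
    have hh : k + K - 1 - (k + K - 1 - (i + 1)) = i + 1 := by omega
    rw [hh]
    refine Seg.one ?_ ⟨le_refl _, fun h => by cases h⟩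
    have hB : B2 (i + 1) = true := by simp [hB2]
    have h2 : (M1 M out hK).tr .sl ![inp n (i + 1), A1 (i + 1), B2 (i + 1), y (i + 1)] =
        (.pa (y (i + 1)) (inp n (i + 1)),
          Function.update ![inp n (i + 1), A1 (i + 1), B2 (i + 1), y (i + 1)] 2 false,
          true) := by
      show (if B2 (i + 1) = true then _ else _) = _
      rw [if_pos hB]
      rfl
    have h3 := step4 (M1 M out hK) _ _ _ (inp n) A1 B2 y _ _ h2 (by simp) (by simp)
    rw [h3]
    congr 1
    show (![inp n, Function.update A1 (i + 1) (A1 (i + 1)),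
      Function.update B2 (i + 1) false, y] : Fin 4 → ℕ → Bool) = _
    rw [Function.update_eq_self, e3]
  have s6 : Seg (M1 M out hK) (fun c => i + 1 ≤ c.h ∧ c.q ≠ S1.halt)
      ⟨.pa (y (i + 1)) (inp n (i + 1)), i + 2, ![inp n, A1, B3, y]⟩
      ⟨.sr (y (i + 1)) (inp n (i + 1)), i + 3 + 0, ![inp n, A1, B4, y]⟩ 1 := by
    refine Seg.one ?_ ⟨?_, fun h => by cases h⟩
    · have h2 : (M1 M out hK).tr (.pa (y (i + 1)) (inp n (i + 1)))
          ![inp n (i + 2), A1 (i + 2), B3 (i + 2), y (i + 2)] =
          (.sr (y (i + 1)) (inp n (i + 1)),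
            Function.update ![inp n (i + 2), A1 (i + 2), B3 (i + 2), y (i + 2)] 2 true,
            true) := rfl
      have h3 := step4 (M1 M out hK) _ _ _ (inp n) A1 B3 y _ _ h2 (by simp) (by simp)
      rw [h3]
      congr 1
      show (![inp n, Function.update A1 (i + 2) (A1 (i + 2)),
        Function.update B3 (i + 2) true, y] : Fin 4 → ℕ → Bool) = _
      rw [Function.update_eq_self, e4]
    · show i + 1 ≤ i + 2
      omega
  have s7 := Seg.walk (M := M1 M out hK) (G := fun c => i + 1 ≤ c.h ∧ c.q ≠ S1.halt)
    (fun j => ⟨.sr (y (i + 1)) (inp n (i + 1)), i + 3 + j, ![inp n, A1, B4, y]⟩)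
    (k + K - (i + 3)) (fun j hj => by
      obtain ⟨p, hp⟩ : ∃ p, p = i + 3 + j := ⟨_, rfl⟩
      have hB : B4 p = false := by
        simp only [hB4, decide_eq_false_iff_not]
        omega
      have h2 : (M1 M out hK).tr (.sr (y (i + 1)) (inp n (i + 1)))
          ![inp n p, A1 p, B4 p, y p] =
          (.sr (y (i + 1)) (inp n (i + 1)), ![inp n p, A1 p, B4 p, y p], true) := by
        show (if B4 p = true then _ else _) = _
        rw [hB]
        rfl
      have h3 := step4 (M1 M out hK) _ _ _ (inp n) A1 B4 y _ _ h2 rfl rfl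
      show (M1 M out hK).step
        ⟨.sr (y (i + 1)) (inp n (i + 1)), i + 3 + j, ![inp n, A1, B4, y]⟩ =
        ⟨.sr (y (i + 1)) (inp n (i + 1)), i + 3 + (j + 1), ![inp n, A1, B4, y]⟩
      rw [← hp, h3]
      have e : i + 3 + (j + 1) = p + 1 := by omega
      rw [e]
      congr 1
      show (![inp n, Function.update A1 p (A1 p), Function.update B4 p (B4 p), y] :
        Fin 4 → ℕ → Bool) = _
      rw [Function.update_eq_self, Function.update_eq_self]) (fun j hj => by
      refine ⟨?_, fun h => by cases h⟩
      show i + 1 ≤ i + 3 + j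
      omega)
  have s8 : Seg (M1 M out hK) (fun c => i + 1 ≤ c.h ∧ c.q ≠ S1.halt)
      ⟨.sr (y (i + 1)) (inp n (i + 1)), i + 3 + (k + K - (i + 3)), ![inp n, A1, B4, y]⟩
      (Dv hK y n (i + 1)) 1 := by
    have hh : i + 3 + (k + K - (i + 3)) = k + K := by omega
    rw [hh]
    refine Seg.one ?_ ⟨?_, fun h => by cases h⟩
    · have hB : B4 (k + K) = true := by simp [hB4]
      have h2 : (M1 M out hK).tr (.sr (y (i + 1)) (inp n (i + 1)))
          ![inp n (k + K), A1 (k + K), B4 (k + K), y (k + K)] =
          (.b false (inp n (i + 1)) ⟨1, by omega⟩,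
            Function.update (Function.update
              ![inp n (k + K), A1 (k + K), B4 (k + K), y (k + K)] 1 (y (i + 1))) 2 false,
            true) := by
        show (if B4 (k + K) = true then _ else _) = _
        rw [if_pos hB]
      have h3 := step4 (M1 M out hK) _ _ _ (inp n) A1 B4 y _ _ h2 (by simp) (by simp)
      rw [h3]
      unfold Dv
      rw [hkK]
      have hf : decide (i + 1 = 0) = false := by simp
      rw [hf]
      congr 1
      show (![inp n, Function.update A1 (k + K) (y (i + 1)),
        Function.update B4 (k + K) false, y] : Fin 4 → ℕ → Bool) = _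
      rw [e5, e6]
    · show i + 1 ≤ k + K
      omega
  exact ⟨_, by positivity, ((((((s1.trans s2).trans s3).trans s4).trans s5).trans s6).trans
    s7).trans s8⟩

theorem first : (M1 M out hK).step (start4 S1.start y n) = Dv hK y n 0 := by
  have h0 : (start4 (Q := S1 K Q) S1.start y n) =
      ⟨.start, 0, ![inp n, fun _ => false, fun _ => false, y]⟩ := by
    unfold start4
    congr 1
    funext k i
    fin_cases k <;> rfl
  have h2 : (M1 M out hK).tr S1.start ![inp n 0, false, false, y 0] =
      (.b true (inp n 0) ⟨1, by omega⟩,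
        Function.update ![inp n 0, false, false, y 0] 1 (y 0), true) := rfl
  have h3 := step4 (M1 M out hK) _ _ _ (inp n) (fun _ => false) (fun _ => false) y _ _ h2
    (by simp) (by simp)
  rw [h0, h3]
  unfold Dv
  have e1 : Function.update (fun _ => false) 0 (y 0) = Av K y n 0 := by
    funext p
    rcases Nat.eq_zero_or_pos p with rfl | hp
    · rw [Function.update_self, Av, if_neg (by omega), if_pos (by omega)]
    · rw [Function.update_of_ne (by omega), Av, if_neg (by omega), if_neg (by omega)]
  have e2 : Function.update (fun _ => false) 0 false = Bv 0 := by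
    funext p
    simp [Bv, Function.update_apply]
  congr 1
  show (![inp n, Function.update (fun _ => false) 0 (y 0),
    Function.update (fun _ => false) 0 false, y] : Fin 4 → ℕ → Bool) = _
  rw [e1, e2]

end main

end Stretch

open Stretch in
theorem stretch {K : ℕ} {Q : Type} (M : Mach (Fin K) Q) (out : Q → Option Bool) (hK : 2 < K)
    (y : R2) (n : ℕ) :
    ((M1 M out hK).run (start4 S1.start y n) ω =
      ⟨S1.lim, 0, blk hK y n (start2 M y n).T⟩) ∧
    ∀ m : ℕ, ((M1 M out hK).run (start4 S1.start y n) (m : Ordinal.{0})).q ≠ S1.halt := by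
  choose θ hθ hs using seg M out hK y n
  have hrun : ∀ i, (M1 M out hK).run (Dv hK y n i) (θ i : Ordinal.{0}) = Dv hK y n (i + 1) := by
    intro i
    rw [run_nat]
    exact (hs i).1
  have hst : ∀ a, (M1 M out hK).run (start4 S1.start y n) (1 + a) =
      (M1 M out hK).run (Dv hK y n 0) a := by
    intro a
    rw [run_add]
    congr 1
    have h1 := run_nat (M1 M out hK) (start4 S1.start y n) 1
    rw [Nat.cast_one] at h1
    rw [h1]
    exact first M out hK y n
  obtain ⟨h1, h2, h3, -, h5⟩ := chain_nat (M1 M out hK) (fun i => Dv hK y n i) θ hθ hrun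
  have hω : (1 : Ordinal.{0}) + ω = ω := Ordinal.one_add_omega0
  have hcell : ∀ k p, ((M1 M out hK).run (Dv hK y n 0) ω).T k p =
      blk hK y n (start2 M y n).T k p := by
    intro k p
    refine h3 k p _ (p + 1) fun i hi m hm => ?_
    rw [run_nat, (hs i).keep m hm.le k p (by omega)]
    have hpi : p < K * i := by
      have : 3 * i ≤ K * i := Nat.mul_le_mul_right i hK
      omega
    fin_cases k
    · rfl
    · show Av K y n i p = bv K y n p
      rw [Av, if_pos hpi]
    · show Bv i p = false
      simp only [Bv, decide_eq_false_iff_not]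
      omega
    · rfl
  constructor
  · have h6 := hst ω
    rw [hω] at h6
    rw [h6]
    generalize hX : (M1 M out hK).run (Dv hK y n 0) ω = X at *
    rcases X with ⟨q, h, T⟩
    have e1 : q = S1.lim := h1
    have e2 : h = 0 := h2
    have e3 : T = blk hK y n (start2 M y n).T := by
      funext k p
      exact hcell k p
    rw [e1, e2, e3]
  · intro m
    rcases m with _ | m
    · rw [run_nat]
      exact fun h => by cases h
    · have h6 := hst (m : Ordinal.{0})
      have e : ((m + 1 : ℕ) : Ordinal.{0}) = 1 + (m : Ordinal.{0}) := by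
        rw [add_comm m 1, Nat.cast_add, Nat.cast_one]
      rw [e, h6]
      obtain ⟨i, m', hm', h7⟩ := h5 (m : Ordinal.{0}) (Ordinal.natCast_lt_omega0 m)
      rw [h7, run_nat]
      exact ((hs i).2 m' hm').2

end Pool.Agent.Helper78.ITTM
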