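import Pool.Agent.Helper78.ITTM.Prog1

/-! A generic machine with four tracks and finitely many states is an official program. -/

namespace Pool.Agent.Helper78.ITTM

open Ordinal

namespace ToProg

theorem mrun_zero {κ Q : Type} (M : Mach κ Q) (c : Cfg κ Q) : M.run c 0 = c := by
  unfold Mach.run
  rw [Ordinal.limitRecOn_zero]

theorem mrun_succ {κ Q : Type} (M : Mach κ Q) (c : Cfg κ Q) (a : Ordinal.{0}) :
    M.run c (a + 1) = M.step (M.run c a) := by
  unfold Mach.run
  rw [Ordinal.limitRecOn_add_one]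

theorem mrun_lim {κ Q : Type} (M : Mach κ Q) (c : Cfg κ Q) {a : Ordinal.{0}}
    (ha : Order.IsSuccLimit a) :
    M.run c a = ⟨M.lim, 0, fun i j => lsup a (fun b _ => (M.run c b).T i j)⟩ := by
  unfold Mach.run
  rw [Ordinal.limitRecOn_limit _ _ _ _ ha]

theorem prun_zero (P : Prog) (y : R2) (n : ℕ) : P.run y n 0 = P.init n := by
  unfold Prog.run
  rw [Ordinal.limitRecOn_zero]

theorem prun_succ (P : Prog) (y : R2) (n : ℕ) (a : Ordinal.{0}) :
    P.run y n (a + 1) = P.step y (P.run y n a) := by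
  unfold Prog.run
  rw [Ordinal.limitRecOn_add_one]

theorem prun_lim (P : Prog) (y : R2) (n : ℕ) {a : Ordinal.{0}} (ha : Order.IsSuccLimit a) :
    P.run y n a = ⟨⟨1, by omega⟩, 0, fun i j => lsup a (fun b _ => (P.run y n b).T i j)⟩ := by
  unfold Prog.run
  rw [Ordinal.limitRecOn_limit _ _ _ _ ha]

theorem lsup_const {a : Ordinal.{0}} (ha : Order.IsSuccLimit a) (v : Bool) :
    lsup a (fun _ _ => v) = v := by
  classical
  unfold lsup
  cases v with
  | false =>
    apply decide_eq_false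
    intro h
    obtain ⟨c, _, _, hc⟩ := h 0 ha.bot_lt
    simp at hc
  | true =>
    apply decide_eq_true
    intro b hb
    exact ⟨b, hb, le_rfl, rfl⟩

theorem exists_equiv {Q : Type} [Finite Q] (s l t : Q) (h1 : s ≠ l) (h2 : t ≠ l) (h3 : s ≠ t) :
    ∃ (k : ℕ) (E : Q ≃ Fin (k + 3)), E s = ⟨0, by omega⟩ ∧ E l = ⟨1, by omega⟩ ∧
      E t = ⟨2, by omega⟩ := by
  classical
  obtain ⟨m, ⟨e⟩⟩ := Finite.exists_equiv_fin Q
  have hm : 3 ≤ m := by
    have hcard : Fintype.card (Fin 3) ≤ Fintype.card (Fin m) := by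
      apply Fintype.card_le_of_injective (fun i : Fin 3 => e (![s, l, t] i))
      apply e.injective.comp
      intro i j hij
      fin_cases i <;> fin_cases j <;> simp_all
    simpa using hcard
  obtain ⟨k, rfl⟩ : ∃ k, m = k + 3 := ⟨m - 3, by omega⟩
  refine ⟨k, ?_⟩
  let z0 : Fin (k + 3) := ⟨0, by omega⟩
  let z1 : Fin (k + 3) := ⟨1, by omega⟩
  let z2 : Fin (k + 3) := ⟨2, by omega⟩
  have h01 : z0 ≠ z1 := by simp [z0, z1]
  have h02 : z0 ≠ z2 := by simp [z0, z2]
  have h12 : z1 ≠ z2 := by simp [z1, z2]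
  let e1 : Q ≃ Fin (k + 3) := e.trans (Equiv.swap (e s) z0)
  have e1s : e1 s = z0 := by simp [e1]
  let e2 : Q ≃ Fin (k + 3) := e1.trans (Equiv.swap (e1 l) z1)
  have e2l : e2 l = z1 := by simp [e2]
  have e2s : e2 s = z0 := by
    show Equiv.swap (e1 l) z1 (e1 s) = z0
    rw [e1s, Equiv.swap_apply_of_ne_of_ne _ h01]
    rw [← e1s]
    exact fun h => h1 (e1.injective h)
  let e3 : Q ≃ Fin (k + 3) := e2.trans (Equiv.swap (e2 t) z2)
  have e3t : e3 t = z2 := by simp [e3]
  have e3s : e3 s = z0 := by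
    show Equiv.swap (e2 t) z2 (e2 s) = z0
    rw [e2s, Equiv.swap_apply_of_ne_of_ne _ h02]
    rw [← e2s]
    exact fun h => h3 (e2.injective h)
  have e3l : e3 l = z1 := by
    show Equiv.swap (e2 t) z2 (e2 l) = z1
    rw [e2l, Equiv.swap_apply_of_ne_of_ne _ h12]
    rw [← e2l]
    exact fun h => h2 (e2.injective h).symm
  exact ⟨e3, e3s, e3l, e3t⟩

/-- The official program of a four track machine. -/
def toProg {Q : Type} (M : Mach (Fin 4) Q) (k : ℕ) (E : Q ≃ Fin (k + 3)) : Prog where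
  k := k
  tr := fun q v => (E (M.tr (E.symm q) v).1, fun i => (M.tr (E.symm q) v).2.1 i.castSucc,
    (M.tr (E.symm q) v).2.2)

/-- The simulation relation. -/
structure Rel {Q : Type} (M : Mach (Fin 4) Q) (k : ℕ) (E : Q ≃ Fin (k + 3)) (y : R2)
    (c : Conf k) (d : Cfg (Fin 4) Q) : Prop where
  q : c.q = E d.q
  h : c.h = d.h
  T : ∀ i : Fin 3, c.T i = d.T i.castSucc
  o : d.T 3 = y

theorem rel_step {Q : Type} (M : Mach (Fin 4) Q) (hO : ∀ q v, (M.tr q v).2.1 3 = v 3) (k : ℕ)
    (E : Q ≃ Fin (k + 3)) (y : R2) (c : Conf k) (d : Cfg (Fin 4) Q) (hr : Rel M k E y c d) :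
    Rel M k E y ((toProg M k E).step y c) (M.step d) := by
  have hread : c.read y = d.rd := by
    funext i
    unfold Conf.read Cfg.rd
    split
    · rename_i hi
      rw [hr.T ⟨i.1, hi⟩, hr.h]
      rfl
    · rename_i hi
      have hi3 : i = 3 := by
        apply Fin.ext
        have := i.2
        show i.1 = 3
        omega
      rw [hi3, hr.o, hr.h]
  have hq : E.symm c.q = d.q := by rw [hr.q, E.symm_apply_apply]
  refine ⟨?_, ?_, ?_, ?_⟩
  · show E (M.tr (E.symm c.q) (c.read y)).1 = E (M.tr d.q d.rd).1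
    rw [hq, hread]
  · show (if (M.tr (E.symm c.q) (c.read y)).2.2 = true then c.h + 1 else c.h - 1) =
      (if (M.tr d.q d.rd).2.2 = true then d.h + 1 else d.h - 1)
    rw [hq, hread, hr.h]
  · intro i
    show Function.update (c.T i) c.h ((M.tr (E.symm c.q) (c.read y)).2.1 i.castSucc) =
      Function.update (d.T i.castSucc) d.h ((M.tr d.q d.rd).2.1 i.castSucc)
    rw [hq, hread, hr.h, hr.T i]
  · show Function.update (d.T 3) d.h ((M.tr d.q d.rd).2.1 3) = y
    rw [hO]
    show Function.update (d.T 3) d.h (d.T 3 d.h) = y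
    rw [Function.update_eq_self, hr.o]

theorem rel_run {Q : Type} (M : Mach (Fin 4) Q) (hO : ∀ q v, (M.tr q v).2.1 3 = v 3) (k : ℕ)
    (E : Q ≃ Fin (k + 3)) (s : Q) (hs : E s = ⟨0, by omega⟩) (hl : E M.lim = ⟨1, by omega⟩)
    (y : R2) (n : ℕ) (a : Ordinal.{0}) :
    Rel M k E y ((toProg M k E).run y n a) (M.run (start4 s y n) a) := by
  induction a using Ordinal.limitRecOn with
  | zero =>
    rw [prun_zero, mrun_zero]
    refine ⟨hs.symm, rfl, ?_, ?_⟩
    · intro i
      funext j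
      fin_cases i <;> simp [Prog.init, start4, inp]
    · funext j
      simp [start4]
  | add_one a ih =>
    rw [prun_succ, mrun_succ]
    exact rel_step M hO k E y _ _ ih
  | limit a ha ih =>
    rw [prun_lim _ _ _ ha, mrun_lim _ _ ha]
    refine ⟨hl.symm, rfl, ?_, ?_⟩
    · intro i
      funext j
      show lsup a _ = lsup a _
      congr 1
      funext b hb
      rw [(ih b hb).T i]
    · funext j
      show lsup a _ = y j
      have : (fun (b : Ordinal.{0}) (_ : b < a) => (M.run (start4 s y n) b).T 3 j) =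
          fun _ _ => y j := by
        funext b hb
        rw [(ih b hb).o]
      rw [this, lsup_const ha]

end ToProg

theorem prog_of_mach {Q : Type} [Finite Q] (M : Mach (Fin 4) Q) (s t : Q) (h1 : s ≠ M.lim)
    (h2 : t ≠ M.lim) (h3 : s ≠ t) (hO : ∀ q v, (M.tr q v).2.1 3 = v 3) :
    ∃ P : Prog, ∀ (y : R2) (n : ℕ) (a : Ordinal.{0}),
      ((P.run y n a).q = ⟨2, by omega⟩ ↔ (M.run (start4 s y n) a).q = t) ∧
      ∀ (i : Fin 3) (j : ℕ), (P.run y n a).T i j = (M.run (start4 s y n) a).T i.castSucc j := by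
  obtain ⟨k, E, hs, hl, ht⟩ := ToProg.exists_equiv s M.lim t h1 h2 h3
  refine ⟨ToProg.toProg M k E, fun y n a => ?_⟩
  have hr := ToProg.rel_run M hO k E s hs hl y n a
  refine ⟨?_, fun i j => by rw [hr.T i]⟩
  constructor
  · intro h
    have h' : E (M.run (start4 s y n) a).q = E t := by
      rw [← hr.q, ht]
      exact h
    exact E.injective h'
  · intro h
    have h' := hr.q
    rw [h, ht] at h'
    exact h'

end Pool.Agent.Helper78.ITTM
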