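import Pool.Agent.Helper78.ITTM.Run2
import Pool.Agent.Helper78.ITTM.ToProg
import Pool.Agent.Helper78.ITTM.Stretch
import Pool.Agent.Helper78.ITTM.Block

/-! Realisation of abstract machines by official programs (module A1). -/

namespace Pool.Agent.Helper78.ITTM

open Ordinal


theorem lsup_const_of {a : Ordinal.{0}} (ha : Order.IsSuccLimit a)
    (f : (b : Ordinal.{0}) → b < a → Bool) (v : Bool) (h : ∀ b hb, f b hb = v) :
    lsup a f = v := by
  have h0 : (0 : Ordinal.{0}) < a := by
    have := ha.not_isMin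
    rw [isMin_iff_eq_bot] at this
    exact bot_lt_iff_ne_bot.mpr this
  cases v with
  | true =>
    rw [lsup_eq_true]
    intro b hb
    exact ⟨b, hb, le_refl _, h b hb⟩
  | false =>
    rw [lsup_eq_false]
    exact ⟨0, h0, fun c hc _ => h c hc⟩

instance {K : ℕ} {Q : Type} [Finite Q] : Finite (S1 K Q) := by
  rw [← Set.finite_univ_iff]
  have h : (Set.univ : Set (S1 K Q)) ⊆
      ({S1.start, S1.lim, S1.halt, S1.sl} : Set (S1 K Q)) ∪
      (Set.range (fun p : Bool × Bool × Fin (K + 1) => S1.b p.1 p.2.1 p.2.2) ∪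
      (Set.range (fun p : Bool × Bool => S1.pa p.1 p.2) ∪
      (Set.range (fun p : Bool × Bool => S1.sr p.1 p.2) ∪
      (Set.range (fun p : Q × Fin K × (Fin K → Bool) => S1.rd p.1 p.2.1 p.2.2) ∪
      (Set.range (fun p : Q × (Fin K → Bool) × Bool × Fin K =>
        S1.wrt p.1 p.2.1 p.2.2.1 p.2.2.2) ∪
      Set.range (fun p : Q × Bool × Fin (K + 2) => S1.go p.1 p.2.1 p.2.2)))))) := by
    intro s _
    cases s with
    | start => left; simp
    | lim => left; simp
    | halt => left; simp
    | sl => left; simp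
    | b f i j => right; left; exact ⟨(f, i, j), rfl⟩
    | pa o i => right; right; left; exact ⟨(o, i), rfl⟩
    | sr o i => right; right; right; left; exact ⟨(o, i), rfl⟩
    | rd q j v => right; right; right; right; left; exact ⟨(q, j, v), rfl⟩
    | wrt q w mv j => right; right; right; right; right; left; exact ⟨(q, w, mv, j), rfl⟩
    | go q mv t => right; right; right; right; right; right; exact ⟨(q, mv, t), rfl⟩
  refine Set.Finite.subset ?_ h
  refine Set.Finite.union (Set.toFinite _) ?_
  refine Set.Finite.union (Set.finite_range _) ?_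
  refine Set.Finite.union (Set.finite_range _) ?_
  refine Set.Finite.union (Set.finite_range _) ?_
  refine Set.Finite.union (Set.finite_range _) ?_
  exact Set.Finite.union (Set.finite_range _) (Set.finite_range _)

theorem rdStep_three {K : ℕ} {Q : Type} (M : Mach (Fin K) Q) (out : Q → Option Bool)
    (hK : 2 < K) (q : Q) (j : Fin K) (w : Fin K → Bool) (v : V4) :
    (rdStep M out hK q j w v).2.1 3 = v 3 := by
  unfold rdStep
  cases out q with
  | some b => simp [Function.update]
  | none =>
    simp only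
    split_ifs
    · rfl
    · simp [Function.update]

theorem tr1_three {K : ℕ} {Q : Type} (M : Mach (Fin K) Q) (out : Q → Option Bool)
    (hK : 2 < K) (s : S1 K Q) (v : V4) : (tr1 M out hK s v).2.1 3 = v 3 := by
  cases s with
  | start => simp [tr1, Function.update]
  | lim => exact rdStep_three M out hK _ _ _ _
  | halt => rfl
  | b f i j =>
    simp only [tr1]
    split_ifs <;> simp [Function.update]
  | sl =>
    simp only [tr1]
    split_ifs <;> simp [Function.update]
  | pa o i => simp [tr1, Function.update]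
  | sr o i =>
    simp only [tr1]
    split_ifs <;> simp [Function.update]
  | rd q j w => exact rdStep_three M out hK _ _ _ _
  | wrt q w mv j =>
    simp only [tr1]
    split_ifs <;> simp [Function.update]
  | go q mv t =>
    simp only [tr1]
    split_ifs <;> simp

section
variable {K : ℕ} {Q : Type} (M : Mach (Fin K) Q) (out : Q → Option Bool) (hK : 2 < K)
  (x : R2) (n : ℕ)

theorem codes_q_ne_halt {c : Cfg (Fin K) Q} {d : Cfg (Fin 4) (S1 K Q)}
    (h : Codes M hK x n c d) : d.q ≠ S1.halt := by
  rcases h.1 with ⟨w, hw⟩ | ⟨hw, _⟩ <;> rw [hw] <;> intro h <;> cases h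

/-- The main induction: after time `ω + 3K * a` the simulating machine codes stage `a`. -/
theorem codes_run (t : Ordinal.{0})
    (hs : ∀ s, s < t → out (M.run (start2 M x n) s).q = none) (a : Ordinal.{0}) (ha : a ≤ t) :
    Codes M hK x n (M.run (start2 M x n) a)
      ((M1 M out hK).run (start4 S1.start x n) (ω + ((3 * K : ℕ) : Ordinal.{0}) * a)) := by
  induction a using Ordinal.limitRecOn with
  | zero =>
    rw [mul_zero, add_zero, (stretch M out hK x n).1, run_zero]
    refine ⟨Or.inr ⟨rfl, rfl⟩, rfl, rfl⟩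
  | add_one a ih =>
    have ha' : a < t := lt_of_lt_of_le (lt_add_one a) ha
    have ih' := ih ha'.le
    rw [run_succ, mul_add, mul_one, ← add_assoc, run_add]
    exact (block M out hK x n _ _ ih' (hs a ha')).1
  | limit a hl ih =>
    have hθ : (0 : Ordinal.{0}) < ((3 * K : ℕ) : Ordinal.{0}) := by
      exact_mod_cast (by omega : 0 < 3 * K)
    have hlθ : Order.IsSuccLimit (((3 * K : ℕ) : Ordinal.{0}) * a) :=
      Ordinal.isSuccLimit_mul_right hθ hl
    have hlω : Order.IsSuccLimit (ω + ((3 * K : ℕ) : Ordinal.{0}) * a) :=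
      Ordinal.isSuccLimit_add ω hlθ
    have key : ∀ b, b < a → ∀ m : ℕ, m < 3 * K →
        (M1 M out hK).run (start4 S1.start x n)
          (ω + (((3 * K : ℕ) : Ordinal.{0}) * b + (m : Ordinal.{0}))) =
        (M1 M out hK).run ((M1 M out hK).run (start4 S1.start x n)
          (ω + ((3 * K : ℕ) : Ordinal.{0}) * b)) (m : Ordinal.{0}) := by
      intro b _ m _
      rw [← add_assoc, run_add]
    have bl : ∀ b, b < a → _ := fun b hb =>
      (block M out hK x n _ _ (ih b hb (hb.le.trans ha)) (hs b (hb.trans_le ha))).2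
    have dec : ∀ c, c < ((3 * K : ℕ) : Ordinal.{0}) * a → ∃ b, b < a ∧ ∃ m : ℕ, m < 3 * K ∧
        c = ((3 * K : ℕ) : Ordinal.{0}) * b + (m : Ordinal.{0}) := by
      intro c hc
      have h1 : c % ((3 * K : ℕ) : Ordinal.{0}) < ((3 * K : ℕ) : Ordinal.{0}) :=
        Ordinal.mod_lt _ hθ.ne'
      obtain ⟨m, hm⟩ := Ordinal.lt_omega0.mp (h1.trans (Ordinal.natCast_lt_omega0 _))
      refine ⟨c / ((3 * K : ℕ) : Ordinal.{0}), (Ordinal.lt_mul_iff_div_lt hθ.ne').mp hc, m, ?_, ?_⟩
      · rw [hm] at h1
        exact_mod_cast h1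
      · rw [← hm, Ordinal.div_add_mod]
    rw [run_lim _ _ hlω, run_lim M _ hl]
    refine ⟨Or.inr ⟨rfl, rfl⟩, rfl, ?_⟩
    funext i p
    change lsup _ (fun b _ => ((M1 M out hK).run (start4 S1.start x n) b).T i p) = _
    rw [lsup_add hlθ (fun b => ((M1 M out hK).run (start4 S1.start x n) b).T i p)]
    fin_cases i
    · refine lsup_const_of hlθ _ (inp n p) ?_
      intro c hc
      obtain ⟨b, hb, m, hm, rfl⟩ := dec c hc
      have := (bl b hb m hm).2.1
      change ((M1 M out hK).run (start4 S1.start x n)
          (ω + (((3 * K : ℕ) : Ordinal.{0}) * b + (m : Ordinal.{0})))).T 0 p = _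
      rw [key b hb m hm, this]
    · have h1 : lsup (((3 * K : ℕ) : Ordinal.{0}) * a)
          (fun c _ => (fun c => ((M1 M out hK).run (start4 S1.start x n) (ω + c)).T 1 p) c) =
          lsup a (fun c _ => (fun c => (M.run (start2 M x n) c).T
            ⟨p % K, Nat.mod_lt _ (by omega)⟩ (p / K)) c) := by
        refine lsup_dilate hθ hl _ _ ?_ ?_
        · intro b hb d hd hf
          obtain ⟨m, rfl⟩ := Ordinal.lt_omega0.mp (hd.trans (Ordinal.natCast_lt_omega0 _))
          have hm : m < 3 * K := by exact_mod_cast hd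
          have := (bl b hb m hm).2.2.2.2 p
          change ((M1 M out hK).run (start4 S1.start x n)
            (ω + (((3 * K : ℕ) : Ordinal.{0}) * b + (m : Ordinal.{0})))).T 1 p = true at hf
          rw [key b hb m hm] at hf
          rw [hf] at this
          rcases this with h | h
          · left
            exact h.symm
          · right
            rw [run_succ]
            exact h.symm
        · intro b hb hg
          have := (ih b hb (hb.le.trans ha)).2.2
          change ((M1 M out hK).run (start4 S1.start x n)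
            (ω + ((3 * K : ℕ) : Ordinal.{0}) * b)).T 1 p = true
          rw [this]
          exact hg
      exact h1
    · refine lsup_const_of hlθ _ false ?_
      intro c hc
      obtain ⟨b, hb, m, hm, rfl⟩ := dec c hc
      have := (bl b hb m hm).2.2.1
      change ((M1 M out hK).run (start4 S1.start x n)
          (ω + (((3 * K : ℕ) : Ordinal.{0}) * b + (m : Ordinal.{0})))).T 2 p = _
      rw [key b hb m hm, this]
    · refine lsup_const_of hlθ _ (x p) ?_
      intro c hc
      obtain ⟨b, hb, m, hm, rfl⟩ := dec c hc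
      have := (bl b hb m hm).2.2.2.1
      change ((M1 M out hK).run (start4 S1.start x n)
          (ω + (((3 * K : ℕ) : Ordinal.{0}) * b + (m : Ordinal.{0})))).T 3 p = _
      rw [key b hb m hm, this]

end

theorem official {K : ℕ} {Q : Type} [Finite Q] (M : Mach (Fin K) Q) (out : Q → Option Bool)
    (hK : 2 < K) : ∃ P : Prog, ∀ (x : R2) (n : ℕ) (b : Bool),
      Halts2 M out x n b → Halts P x n b.toNat := by
  obtain ⟨P, hP⟩ := prog_of_mach (M1 M out hK) S1.start S1.halt (by intro h; cases h)
    (by intro h; cases h) (by intro h; cases h) (fun q v => tr1_three M out hK q v)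
  refine ⟨P, fun x n b ⟨t, ht, h0, hs⟩ => ?_⟩
  have hθ : (0 : Ordinal.{0}) < ((3 * K : ℕ) : Ordinal.{0}) := by
    exact_mod_cast (by omega : 0 < 3 * K)
  have hC := codes_run M out hK x n t hs t le_rfl
  have hstep : (M1 M out hK).run (start4 S1.start x n)
      (ω + ((3 * K : ℕ) : Ordinal.{0}) * t + 1) =
      (M1 M out hK).step ((M1 M out hK).run (start4 S1.start x n)
        (ω + ((3 * K : ℕ) : Ordinal.{0}) * t)) := run_succ _ _ _
  have hres : ((M1 M out hK).run (start4 S1.start x n)
      (ω + ((3 * K : ℕ) : Ordinal.{0}) * t + 1)).q = S1.halt ∧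
      ∀ j, ((M1 M out hK).run (start4 S1.start x n)
        (ω + ((3 * K : ℕ) : Ordinal.{0}) * t + 1)).T 2 j = decide (j < b.toNat) := by
    rw [hstep]
    set d := (M1 M out hK).run (start4 S1.start x n) (ω + ((3 * K : ℕ) : Ordinal.{0}) * t)
      with hd
    have hh : d.h = 0 := by rw [hC.2.1, h0, mul_zero]
    have hT : d.T 2 = fun _ => false := by rw [hC.2.2]; rfl
    have htr : tr1 M out hK d.q d.rd = (.halt, Function.update d.rd 2 b, false) := by
      rcases hC.1 with ⟨w, hw⟩ | ⟨hw, hq⟩
      · rw [hw]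
        simp only [tr1, rdStep, ht]
      · rw [hw]
        simp only [tr1, rdStep]
        rw [← hq, ht]
    refine ⟨?_, ?_⟩
    · change (tr1 M out hK d.q d.rd).1 = _
      rw [htr]
    · intro j
      change Function.update (d.T 2) d.h ((tr1 M out hK d.q d.rd).2.1 2) j = _
      rw [htr, hh, hT]
      cases b <;> simp [Function.update, Bool.toNat]
  refine ⟨ω + ((3 * K : ℕ) : Ordinal.{0}) * t + 1, (hP x n _).1.mpr hres.1, ?_, ?_⟩
  · intro s hslt h2
    have h2' := (hP x n s).1.mp h2
    have hsle : s ≤ ω + ((3 * K : ℕ) : Ordinal.{0}) * t := by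
      rw [← Order.lt_add_one_iff]
      exact hslt
    rcases lt_or_ge s ω with hlt | hge
    · obtain ⟨m, rfl⟩ := Ordinal.lt_omega0.mp hlt
      exact (stretch M out hK x n).2 m h2'
    · obtain ⟨c, rfl⟩ : ∃ c, s = ω + c := ⟨s - ω, (Ordinal.add_sub_cancel_of_le hge).symm⟩
      have hcle : c ≤ ((3 * K : ℕ) : Ordinal.{0}) * t := (add_le_add_iff_left ω).mp hsle
      rcases lt_or_eq_of_le hcle with hclt | heq
      · have h1 : c % ((3 * K : ℕ) : Ordinal.{0}) < ((3 * K : ℕ) : Ordinal.{0}) :=
          Ordinal.mod_lt _ hθ.ne'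
        obtain ⟨m, hm⟩ := Ordinal.lt_omega0.mp (h1.trans (Ordinal.natCast_lt_omega0 _))
        have hm' : m < 3 * K := by
          rw [hm] at h1
          exact_mod_cast h1
        have hb : c / ((3 * K : ℕ) : Ordinal.{0}) < t := (Ordinal.lt_mul_iff_div_lt hθ.ne').mp hclt
        have hc' := codes_run M out hK x n t hs _ hb.le
        have := ((block M out hK x n _ _ hc' (hs _ hb)).2 m hm').1
        apply this
        rw [← run_add, add_assoc, ← hm, Ordinal.div_add_mod]
        exact h2'
      · rw [heq] at h2'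
        exact codes_q_ne_halt M hK x n hC h2'
  · intro j
    rw [(hP x n _).2 2 j]
    exact hres.2 j

end Pool.Agent.Helper78.ITTM
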