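import Pool.Agent.Helper78.ITTM.Defs

/-! Basic properties of limits superior, runs and iterations. -/

namespace Pool.Agent.Helper78.ITTM

open Ordinal

theorem lsup_eq_true {a : Ordinal.{0}} {f : (b : Ordinal.{0}) → b < a → Bool} :
    lsup a f = true ↔ ∀ b, b < a → ∃ c, ∃ h : c < a, b ≤ c ∧ f c h = true := by
  classical
  unfold lsup
  rw [decide_eq_true_iff]

theorem lsup_eq_false {a : Ordinal.{0}} {f : (b : Ordinal.{0}) → b < a → Bool} :
    lsup a f = false ↔ ∃ b, b < a ∧ ∀ c, ∀ h : c < a, b ≤ c → f c h = false := by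
  rw [← Bool.not_eq_true, lsup_eq_true]
  push Not
  constructor
  · rintro ⟨b, hb, h⟩
    refine ⟨b, hb, fun c hc hbc => ?_⟩
    simpa using h c hc hbc
  · rintro ⟨b, hb, h⟩
    refine ⟨b, hb, fun c hc hbc => ?_⟩
    simpa using h c hc hbc

theorem run_bool_ext {u v : Bool} (h : u = true ↔ v = true) : u = v := by
  cases u <;> cases v <;> simp_all

/-- tail independence of the limit superior -/
theorem lsup_add {a b : Ordinal.{0}} (hb : Order.IsSuccLimit b) (f : Ordinal.{0} → Bool) :
    lsup (a + b) (fun c _ => f c) = lsup b (fun c _ => f (a + c)) := by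
  apply run_bool_ext
  rw [lsup_eq_true, lsup_eq_true]
  constructor
  · intro h e he
    obtain ⟨c, hc, hec, hf⟩ := h (a + e) (by gcongr)
    have hac : a ≤ c := le_trans (le_self_add) hec
    obtain ⟨d, rfl⟩ : ∃ d, c = a + d := ⟨c - a, (Ordinal.add_sub_cancel_of_le hac).symm⟩
    refine ⟨d, ?_, ?_, hf⟩
    · exact (add_lt_add_iff_left a).1 hc
    · exact (add_le_add_iff_left a).1 hec
  · intro h e he
    by_cases hea : e < a
    · obtain ⟨c, hc, -, hf⟩ := h 0 hb.bot_lt
      refine ⟨a + c, (add_lt_add_iff_left a).2 hc, ?_, hf⟩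
      exact le_trans hea.le (le_self_add)
    · have hae : a ≤ e := not_lt.1 hea
      obtain ⟨d, rfl⟩ : ∃ d, e = a + d := ⟨e - a, (Ordinal.add_sub_cancel_of_le hae).symm⟩
      obtain ⟨c, hc, hdc, hf⟩ := h d ((add_lt_add_iff_left a).1 he)
      exact ⟨a + c, (add_lt_add_iff_left a).2 hc, (add_le_add_iff_left a).2 hdc, hf⟩

section run
variable {κ Q : Type} (M : Mach κ Q) (c : Cfg κ Q)

theorem run_zero : M.run c 0 = c := by
  unfold Mach.run
  rw [Ordinal.limitRecOn_zero]

theorem run_succ (a : Ordinal.{0}) : M.run c (a + 1) = M.step (M.run c a) := by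
  unfold Mach.run
  rw [Ordinal.limitRecOn_add_one]

theorem run_lim {a : Ordinal.{0}} (ha : Order.IsSuccLimit a) :
    M.run c a = ⟨M.lim, 0, fun i j => lsup a (fun b _ => (M.run c b).T i j)⟩ := by
  unfold Mach.run
  rw [Ordinal.limitRecOn_limit _ _ _ _ ha]

theorem run_add (a b : Ordinal.{0}) : M.run c (a + b) = M.run (M.run c a) b := by
  induction b using Ordinal.limitRecOn with
  | zero => rw [add_zero, run_zero]
  | add_one b ih =>
    rw [← add_assoc, run_succ, ih, run_succ]
  | limit b hb ih =>
    rw [run_lim M c (Ordinal.isSuccLimit_add a hb), run_lim M _ hb]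
    congr 1
    funext i j
    rw [lsup_add hb (fun e => (M.run c e).T i j)]
    apply run_bool_ext
    rw [lsup_eq_true, lsup_eq_true]
    constructor
    · intro h e he
      obtain ⟨d, hd, hed, hf⟩ := h e he
      exact ⟨d, hd, hed, by rw [← ih d hd]; exact hf⟩
    · intro h e he
      obtain ⟨d, hd, hed, hf⟩ := h e he
      exact ⟨d, hd, hed, by rw [ih d hd]; exact hf⟩

theorem run_nat (n : ℕ) : M.run c (n : Ordinal.{0}) = M.step^[n] c := by
  induction n with
  | zero => simp [run_zero]
  | succ n ih => rw [Nat.cast_succ, run_succ, ih, Function.iterate_succ_apply']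

end run

section iter
variable {J : Type} (F : (J → Bool) → (J → Bool)) (z : J → Bool)

theorem iter_zero : iter F z 0 = z := by
  unfold iter
  rw [Ordinal.limitRecOn_zero]

theorem iter_succ (a : Ordinal.{0}) : iter F z (a + 1) = F (iter F z a) := by
  unfold iter
  rw [Ordinal.limitRecOn_add_one]

theorem iter_lim {a : Ordinal.{0}} (ha : Order.IsSuccLimit a) :
    iter F z a = fun j => lsup a (fun b _ => iter F z b j) := by
  unfold iter
  rw [Ordinal.limitRecOn_limit _ _ _ _ ha]

theorem iter_add (a b : Ordinal.{0}) : iter F z (a + b) = iter F (iter F z a) b := by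
  induction b using Ordinal.limitRecOn with
  | zero => rw [add_zero, iter_zero]
  | add_one b ih =>
    rw [← add_assoc, iter_succ, ih, iter_succ]
  | limit b hb ih =>
    rw [iter_lim F z (Ordinal.isSuccLimit_add a hb), iter_lim F _ hb]
    funext j
    rw [lsup_add hb (fun e => iter F z e j)]
    apply run_bool_ext
    rw [lsup_eq_true, lsup_eq_true]
    constructor
    · intro h e he
      obtain ⟨d, hd, hed, hf⟩ := h e he
      exact ⟨d, hd, hed, by rw [← ih d hd]; exact hf⟩
    · intro h e he
      obtain ⟨d, hd, hed, hf⟩ := h e he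
      exact ⟨d, hd, hed, by rw [ih d hd]; exact hf⟩

end iter

end Pool.Agent.Helper78.ITTM
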