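import Pool.Agent.Helper78.ITTM.Run

/-! Omega-chains of segments of runs; transfer of limits superior along a time dilation. -/

namespace Pool.Agent.Helper78.ITTM

open Ordinal

section run
variable {κ Q : Type} (M : Mach κ Q) (c : Cfg κ Q)

theorem chain_core (d : ℕ → Cfg κ Q) (θ : ℕ → Ordinal.{0}) (hpos : ∀ n, 0 < θ n)
    (h : ∀ n, M.run (d n) (θ n) = d (n + 1)) (s : ℕ → Ordinal.{0}) (hs0 : s 0 = 0)
    (hs : ∀ n, s (n + 1) = s n + θ n) (a : Ordinal.{0}) (ha1 : ∀ n, s n < a)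
    (ha2 : ∀ b, b < a → ∃ n, b < s n) :
    Order.IsSuccLimit a ∧ (M.run (d 0) a).q = M.lim ∧ (M.run (d 0) a).h = 0 ∧
      (∀ i j v n0, (∀ n, n0 ≤ n → ∀ β, β < θ n → (M.run (d n) β).T i j = v) →
        (M.run (d 0) a).T i j = v) ∧
      (∀ i j, (∀ n0, ∃ n, n0 ≤ n ∧ ∃ β, β < θ n ∧ (M.run (d n) β).T i j = true) →
        (M.run (d 0) a).T i j = true) ∧
      (∀ b, b < a → ∃ n β, β < θ n ∧ M.run (d 0) b = M.run (d n) β) := by
  classical
  have hmono : StrictMono s := strictMono_nat_of_lt_succ fun n => by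
    rw [hs n]
    exact lt_add_of_pos_right _ (hpos n)
  have hrun : ∀ n, M.run (d 0) (s n) = d n := by
    intro n
    induction n with
    | zero => rw [hs0, run_zero]
    | succ n ih => rw [hs n, run_add, ih, h n]
  have hrun2 : ∀ n β, M.run (d 0) (s n + β) = M.run (d n) β := by
    intro n β
    rw [run_add, hrun n]
  have hsplit : ∀ b, b < a → ∃ n β, β < θ n ∧ b = s n + β := by
    intro b hb
    obtain hex := ha2 b hb
    have hf := Nat.find_spec hex
    have hne : Nat.find hex ≠ 0 := by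
      intro h0
      rw [h0, hs0] at hf
      exact absurd hf not_lt_bot
    obtain ⟨m, hm⟩ := Nat.exists_eq_succ_of_ne_zero hne
    have hmle : s m ≤ b := by
      have := Nat.find_min hex (m := m) (by omega)
      exact not_lt.1 this
    refine ⟨m, b - s m, ?_, (Ordinal.add_sub_cancel_of_le hmle).symm⟩
    rw [hm, Nat.succ_eq_add_one, hs m] at hf
    rw [← add_lt_add_iff_left (s m), Ordinal.add_sub_cancel_of_le hmle]
    exact hf
  have hlim : Order.IsSuccLimit a := by
    rw [Order.isSuccLimit_iff]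
    refine ⟨?_, ?_⟩
    · intro hbot
      have := ha1 0
      rw [hbot.eq_bot] at this
      exact absurd this not_lt_bot
    · intro b hb
      obtain ⟨n, hn⟩ := ha2 b hb.lt
      exact hb.2 hn (ha1 n)
  refine ⟨hlim, ?_, ?_, ?_, ?_, ?_⟩
  · rw [run_lim M _ hlim]
  · rw [run_lim M _ hlim]
  · intro i j v n0 hv
    rw [run_lim M _ hlim]
    show lsup a (fun b _ => (M.run (d 0) b).T i j) = v
    cases v with
    | true =>
      rw [lsup_eq_true]
      intro b hb
      obtain ⟨n, hn⟩ := ha2 b hb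
      refine ⟨s (max n n0), ha1 _, ?_, ?_⟩
      · exact le_trans hn.le (hmono.monotone (le_max_left _ _))
      · have := hv (max n n0) (le_max_right _ _) 0 (hpos _)
        rw [run_zero] at this
        rw [hrun]
        exact this
    | false =>
      rw [lsup_eq_false]
      refine ⟨s n0, ha1 n0, ?_⟩
      intro e he hle
      obtain ⟨m, β, hβ, rfl⟩ := hsplit e he
      rw [hrun2]
      apply hv m _ β hβ
      by_contra hlt
      have hmn : m + 1 ≤ n0 := by omega
      have h3 : s (m + 1) ≤ s n0 := hmono.monotone hmn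
      have h4 : s m + β < s (m + 1) := by
        rw [hs m]
        exact (add_lt_add_iff_left _).2 hβ
      exact absurd (lt_of_lt_of_le h4 h3) (not_lt.2 hle)
  · intro i j hv
    rw [run_lim M _ hlim]
    show lsup a (fun b _ => (M.run (d 0) b).T i j) = true
    rw [lsup_eq_true]
    intro b hb
    obtain ⟨n, hn⟩ := ha2 b hb
    obtain ⟨m, hm, β, hβ, ht⟩ := hv n
    refine ⟨s m + β, ?_, ?_, ?_⟩
    · have h4 : s m + β < s (m + 1) := by
        rw [hs m]
        exact (add_lt_add_iff_left _).2 hβ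
      exact lt_trans h4 (ha1 _)
    · exact le_trans hn.le (le_trans (hmono.monotone hm) le_self_add)
    · rw [hrun2]
      exact ht
  · intro b hb
    obtain ⟨n, β, hβ, rfl⟩ := hsplit b hb
    exact ⟨n, β, hβ, hrun2 n β⟩

/-- omega-chains of segments of arbitrary positive lengths -/
theorem chain (d : ℕ → Cfg κ Q) (θ : ℕ → Ordinal.{0}) (hpos : ∀ n, 0 < θ n)
    (h : ∀ n, M.run (d n) (θ n) = d (n + 1)) :
    ∃ a, Order.IsSuccLimit a ∧ (M.run (d 0) a).q = M.lim ∧ (M.run (d 0) a).h = 0 ∧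
      (∀ i j v n0, (∀ n, n0 ≤ n → ∀ β, β < θ n → (M.run (d n) β).T i j = v) →
        (M.run (d 0) a).T i j = v) ∧
      (∀ i j, (∀ n0, ∃ n, n0 ≤ n ∧ ∃ β, β < θ n ∧ (M.run (d n) β).T i j = true) →
        (M.run (d 0) a).T i j = true) ∧
      (∀ b, b < a → ∃ n β, β < θ n ∧ M.run (d 0) b = M.run (d n) β) := by
  let s : ℕ → Ordinal.{0} := fun n => Nat.rec 0 (fun n x => x + θ n) n
  have hs0 : s 0 = 0 := rfl
  have hs : ∀ n, s (n + 1) = s n + θ n := fun n => rfl
  have hlt : ∀ n, s n < s (n + 1) := fun n => by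
    rw [hs n]
    exact lt_add_of_pos_right _ (hpos n)
  refine ⟨⨆ n, s n, chain_core M d θ hpos h s hs0 hs _ ?_ ?_⟩
  · intro n
    exact lt_of_lt_of_le (hlt n) (Ordinal.le_iSup s (n + 1))
  · intro b hb
    exact (Ordinal.lt_iSup_iff).1 hb

/-- omega-chains of segments of finite positive lengths end at time omega -/
theorem chain_nat (d : ℕ → Cfg κ Q) (θ : ℕ → ℕ) (hpos : ∀ n, 0 < θ n)
    (h : ∀ n, M.run (d n) (θ n : Ordinal.{0}) = d (n + 1)) :
    (M.run (d 0) ω).q = M.lim ∧ (M.run (d 0) ω).h = 0 ∧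
      (∀ i j v n0, (∀ n, n0 ≤ n → ∀ m, m < θ n →
        (M.run (d n) (m : Ordinal.{0})).T i j = v) → (M.run (d 0) ω).T i j = v) ∧
      (∀ i j, (∀ n0, ∃ n, n0 ≤ n ∧ ∃ m, m < θ n ∧
        (M.run (d n) (m : Ordinal.{0})).T i j = true) → (M.run (d 0) ω).T i j = true) ∧
      (∀ b, b < ω → ∃ n m, m < θ n ∧ M.run (d 0) b = M.run (d n) (m : Ordinal.{0})) := by
  let t : ℕ → ℕ := fun n => Nat.rec (motive := fun _ => ℕ) 0 (fun n x => x + θ n) n
  have ht0 : t 0 = 0 := rfl
  have ht : ∀ n, t (n + 1) = t n + θ n := fun n => rfl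
  have hge : ∀ n, n ≤ t n := by
    intro n
    induction n with
    | zero => exact Nat.zero_le _
    | succ n ih =>
      rw [ht n]
      have := hpos n
      omega
  let s : ℕ → Ordinal.{0} := fun n => Nat.cast (t n)
  have hs0 : s 0 = 0 := by
    show ((t 0 : ℕ) : Ordinal.{0}) = 0
    rw [ht0, Nat.cast_zero]
  have hs : ∀ n, s (n + 1) = s n + (θ n : Ordinal.{0}) := by
    intro n
    show ((t (n + 1) : ℕ) : Ordinal.{0}) = (t n : Ordinal.{0}) + (θ n : Ordinal.{0})
    rw [ht n, Nat.cast_add]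
  obtain ⟨-, h1, h2, h3, h4, h5⟩ := chain_core M d (fun n => (θ n : Ordinal.{0}))
    (fun n => by exact_mod_cast hpos n) h s hs0 hs ω (fun n => Ordinal.natCast_lt_omega0 _)
    (fun b hb => by
      obtain ⟨m, rfl⟩ := Ordinal.lt_omega0.1 hb
      refine ⟨m + 1, ?_⟩
      have := hge (m + 1)
      show (m : Ordinal.{0}) < ((t (m + 1) : ℕ) : Ordinal.{0})
      exact_mod_cast this)
  refine ⟨h1, h2, ?_, ?_, ?_⟩
  · intro i j v n0 hv
    apply h3 i j v n0
    intro n hn β hβ
    obtain ⟨m, rfl⟩ := Ordinal.lt_omega0.1 (hβ.trans (Ordinal.natCast_lt_omega0 _))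
    exact hv n hn m (by exact_mod_cast hβ)
  · intro i j hv
    apply h4 i j
    intro n0
    obtain ⟨n, hn, m, hm, hT⟩ := hv n0
    exact ⟨n, hn, m, by exact_mod_cast hm, hT⟩
  · intro b hb
    obtain ⟨n, β, hβ, hr⟩ := h5 b hb
    obtain ⟨m, rfl⟩ := Ordinal.lt_omega0.1 (hβ.trans (Ordinal.natCast_lt_omega0 _))
    exact ⟨n, m, by exact_mod_cast hβ, hr⟩

end run

/-- transfer of limits superior along the time map `θ * a` -/
theorem lsup_dilate {θ a : Ordinal.{0}} (hθ : 0 < θ) (ha : Order.IsSuccLimit a)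
    (f g : Ordinal.{0} → Bool)
    (h1 : ∀ b, b < a → ∀ d, d < θ → f (θ * b + d) = true → g b = true ∨ g (b + 1) = true)
    (h2 : ∀ b, b < a → g b = true → f (θ * b) = true) :
    lsup (θ * a) (fun c _ => f c) = lsup a (fun c _ => g c) := by
  have hne : θ ≠ 0 := hθ.ne'
  have hsucc : ∀ b, b < a → b + 1 < a := fun b hb => ha.add_one_lt hb
  apply run_bool_ext
  rw [lsup_eq_true, lsup_eq_true]
  constructor
  · intro h e he
    obtain ⟨c, hc, hec, hf⟩ := h (θ * e) ((mul_lt_mul_iff_right₀ hθ).2 he)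
    have hdm : θ * (c / θ) + c % θ = c := Ordinal.div_add_mod c θ
    have hmod : c % θ < θ := Ordinal.mod_lt c hne
    have hq : c / θ < a := (Ordinal.lt_mul_iff_div_lt hne).1 hc
    have hle : e ≤ c / θ := (Ordinal.mul_le_iff_le_div hne).1 hec
    rw [← hdm] at hf
    rcases h1 _ hq _ hmod hf with hg | hg
    · exact ⟨c / θ, hq, hle, hg⟩
    · exact ⟨c / θ + 1, hsucc _ hq, le_trans hle le_self_add, hg⟩
  · intro h e he
    have hq : e / θ < a := (Ordinal.lt_mul_iff_div_lt hne).1 he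
    obtain ⟨c, hc, hec, hg⟩ := h (e / θ + 1) (hsucc _ hq)
    refine ⟨θ * c, (mul_lt_mul_iff_right₀ hθ).2 hc, ?_, h2 c hc hg⟩
    have h5 : e < θ * (e / θ + 1) := by
      have := Ordinal.lt_mul_succ_div e hne
      simpa using this
    exact le_trans h5.le (mul_le_mul_right hec θ)

end Pool.Agent.Helper78.ITTM
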