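import Pool.Agent.Helper78.ITTM.Run

/-! Module G2: sweeps and walks of a generic machine. -/

namespace Pool.Agent.Helper78.ITTM

open Ordinal

/-! ## Module G2: sweeps and walks of a generic machine -/

section sweep
variable {κ Q : Type} (M : Mach κ Q)

/-- rewriting walk: every visited cell is rewritten by `f` as long as `stop` is false -/
theorem walk_write (s : Q) (stop : (κ → Bool) → Prop) (f : (κ → Bool) → κ → Bool)
    (hf : ∀ v, ¬ stop v → M.tr s v = (s, f v, true)) (c : Cfg κ Q) (hq : c.q = s) (n : ℕ)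
    (hn : ∀ i, c.h ≤ i → i < c.h + n → ¬ stop (fun k => c.T k i)) :
    M.run c (n : Ordinal.{0}) = ⟨s, c.h + n, fun k i =>
      if c.h ≤ i ∧ i < c.h + n then f (fun k' => c.T k' i) k else c.T k i⟩ := by
  induction n with
  | zero =>
    rw [Nat.cast_zero, run_zero]
    obtain ⟨q, h, T⟩ := c
    obtain rfl : q = s := hq
    have hT : (fun (k : κ) (i : ℕ) =>
        if h ≤ i ∧ i < h + 0 then f (fun k' => T k' i) k else T k i) = T := by
      funext k i
      rw [if_neg (by omega)]
    show (⟨q, h, T⟩ : Cfg κ Q) = ⟨q, h + 0, fun k i =>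
      if h ≤ i ∧ i < h + 0 then f (fun k' => T k' i) k else T k i⟩
    rw [hT, Nat.add_zero]
  | succ n ih =>
    have ih' := ih fun i h1 h2 => hn i h1 (by omega)
    have hstop := hn (c.h + n) (by omega) (by omega)
    rw [Nat.cast_succ, run_succ, ih']
    have hrd : (Cfg.rd (⟨s, c.h + n, fun k i =>
        if c.h ≤ i ∧ i < c.h + n then f (fun k' => c.T k' i) k else c.T k i⟩ : Cfg κ Q)) =
        fun k => c.T k (c.h + n) := by
      funext k
      show (if c.h ≤ c.h + n ∧ c.h + n < c.h + n then _ else _) = _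
      rw [if_neg (by omega)]
    unfold Mach.step
    simp only [hrd, hf _ hstop, if_true]
    congr 1
    funext k i
    by_cases hi : i = c.h + n
    · subst hi
      rw [Function.update_self, if_pos (by omega)]
    · rw [Function.update_of_ne hi]
      by_cases h1 : c.h ≤ i ∧ i < c.h + n
      · rw [if_pos h1, if_pos (by omega)]
      · rw [if_neg h1, if_neg (by omega)]

/-- sweeping to the right, rewriting every cell by `f` -/
theorem sweep_nat (s : Q) (f : (κ → Bool) → κ → Bool) (hf : ∀ v, M.tr s v = (s, f v, true))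
    (c : Cfg κ Q) (hq : c.q = s) (n : ℕ) :
    M.run c (n : Ordinal.{0}) = ⟨s, c.h + n, fun k i =>
      if c.h ≤ i ∧ i < c.h + n then f (fun k' => c.T k' i) k else c.T k i⟩ :=
  walk_write M s (fun _ => False) f (fun v _ => hf v) c hq n fun _ _ _ h => h

theorem sweep_omega (s : Q) (f : (κ → Bool) → κ → Bool) (hf : ∀ v, M.tr s v = (s, f v, true))
    (c : Cfg κ Q) (hq : c.q = s) :
    M.run c ω = ⟨M.lim, 0, fun k i =>
      if c.h ≤ i then f (fun k' => c.T k' i) k else c.T k i⟩ := by
  rw [run_lim M c Ordinal.isSuccLimit_omega0]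
  congr 1
  funext k i
  have key : ∀ n : ℕ, i + 1 ≤ n → (M.run c (n : Ordinal.{0})).T k i =
      if c.h ≤ i then f (fun k' => c.T k' i) k else c.T k i := by
    intro n hn
    rw [sweep_nat M s f hf c hq n]
    show (if c.h ≤ i ∧ i < c.h + n then _ else _) = _
    by_cases h : c.h ≤ i
    · rw [if_pos ⟨h, by omega⟩, if_pos h]
    · rw [if_neg (fun h' => h h'.1), if_neg h]
  cases hV : (if c.h ≤ i then f (fun k' => c.T k' i) k else c.T k i) with
  | true =>
    rw [lsup_eq_true]
    intro b hb
    obtain ⟨m, rfl⟩ := Ordinal.lt_omega0.mp hb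
    refine ⟨((max m (i + 1) : ℕ) : Ordinal.{0}), Ordinal.natCast_lt_omega0 _, ?_, ?_⟩
    · exact_mod_cast le_max_left m (i + 1)
    · rw [key _ (le_max_right _ _), hV]
  | false =>
    rw [lsup_eq_false]
    refine ⟨((i + 1 : ℕ) : Ordinal.{0}), Ordinal.natCast_lt_omega0 _, fun b hb hle => ?_⟩
    obtain ⟨m, rfl⟩ := Ordinal.lt_omega0.mp hb
    rw [key m (by exact_mod_cast hle), hV]

/-- walking to the right without changes as long as `stop` is false -/
theorem walk_right (s : Q) (stop : (κ → Bool) → Prop)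
    (hf : ∀ v, ¬ stop v → M.tr s v = (s, v, true)) (c : Cfg κ Q) (hq : c.q = s) (n : ℕ)
    (hn : ∀ i, c.h ≤ i → i < c.h + n → ¬ stop (fun k => c.T k i)) :
    M.run c (n : Ordinal.{0}) = ⟨s, c.h + n, c.T⟩ := by
  rw [walk_write M s stop (fun v => v) hf c hq n hn]
  congr 1
  funext k i
  exact ite_self _

/-- walking to the left without changes as long as `stop` is false -/
theorem walk_left (s : Q) (stop : (κ → Bool) → Prop)
    (hf : ∀ v, ¬ stop v → M.tr s v = (s, v, false)) (c : Cfg κ Q) (hq : c.q = s) (n : ℕ)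
    (hn : n ≤ c.h) (hs : ∀ i, i ≤ c.h → c.h < i + n → ¬ stop (fun k => c.T k i)) :
    M.run c (n : Ordinal.{0}) = ⟨s, c.h - n, c.T⟩ := by
  induction n with
  | zero =>
    rw [Nat.cast_zero, run_zero]
    obtain ⟨q, h, T⟩ := c
    obtain rfl : q = s := hq
    rfl
  | succ n ih =>
    have ih' := ih (by omega) fun i h1 h2 => hs i h1 (by omega)
    have hstop := hs (c.h - n) (by omega) (by omega)
    rw [Nat.cast_succ, run_succ, ih']
    unfold Mach.step
    have hrd : (Cfg.rd (⟨s, c.h - n, c.T⟩ : Cfg κ Q)) = fun k => c.T k (c.h - n) := rfl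
    simp only [hrd, hf _ hstop, Bool.false_eq_true, if_false, Function.update_eq_self]
    rw [Nat.sub_sub]

end sweep

end Pool.Agent.Helper78.ITTM
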