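import Pool.Agent.Helper78.ITTM.Inv
import Pool.Agent.Helper78.ITTM.Sweep

/-! Stage 1: the first step and the cleaning pass. -/

namespace Pool.Agent.Helper78.ITTM

open Ordinal

/-- A tape family agreeing with a stage 1 family outside of the tapes of `e`. -/
theorem St1.congrA {x y : R2} {n m : ℕ} {T T' : Fin 14 → ℕ → Bool} (h : St1 x y n m T)
    (hT : ∀ k : Fin 14, k ≠ 2 → k ≠ 3 → k ≠ 4 → T' k = T k) : St1 x y n m T' := by
  constructor
  · rw [hT 0 (by decide) (by decide) (by decide)]; exact h.t0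
  · rw [hT 1 (by decide) (by decide) (by decide)]; exact h.t1
  · rw [hT 5 (by decide) (by decide) (by decide)]; exact h.t5
  · rw [hT 6 (by decide) (by decide) (by decide)]; exact h.t6
  · rw [hT 7 (by decide) (by decide) (by decide)]; exact h.t7
  · rw [hT 8 (by decide) (by decide) (by decide)]; exact h.t8
  · rw [hT 9 (by decide) (by decide) (by decide)]; exact h.t9
  · rw [hT 10 (by decide) (by decide) (by decide)]; exact h.t10
  · rw [hT 11 (by decide) (by decide) (by decide)]; exact h.t11
  · rw [hT 12 (by decide) (by decide) (by decide)]; exact h.t12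
  · rw [hT 13 (by decide) (by decide) (by decide)]; exact h.t13

theorem Fl.congrA {f1 f2 : Bool} {T T' : Fin 14 → ℕ → Bool} (h : Fl f1 f2 T)
    (hT : ∀ k : Fin 14, k ≠ 2 → k ≠ 3 → k ≠ 4 → T' k = T k) : Fl f1 f2 T' := by
  unfold Fl at h ⊢
  rw [hT 11 (by decide) (by decide) (by decide), hT 12 (by decide) (by decide) (by decide)]
  exact h

theorem clrE_neA (v : V14) (k : Fin 14) (h2 : k ≠ 2) (h3 : k ≠ 3) (h4 : k ≠ 4) :
    clrE v k = v k := by
  simp [clrE, put, Function.update_of_ne, h2, h3, h4]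

theorem clrE_memA (v : V14) (k : Fin 14) (h2 : 2 ≤ k) (h4 : k ≤ 4) : clrE v k = false := by
  have h : k = 2 ∨ k = 3 ∨ k = 4 := by
    revert k; decide
  rcases h with rfl | rfl | rfl <;> simp [clrE, put]

section A2
variable (e : Prog) (a : List Bool) (x y : R2) (n : ℕ)

theorem first_step : ∃ T, (M2 e a).step (start2 (M2 e a) x n) = ⟨S2.clean1, 1, T⟩ ∧
    St1 x y n 0 T ∧ Fl true false T ∧ ∀ k : Fin 14, 2 ≤ k → k ≤ 4 → T k 0 = false := by
  refine ⟨fun k => Function.update ((start2 (M2 e a) x n).T k) 0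
    (clrE (put (put (put (start2 (M2 e a) x n).rd 10 true) 8 true) 11 true) k), ?_, ?_, ?_, ?_⟩
  · simp [Mach.step, start2, M2, tr2, Cfg.rd]
  · constructor
    · funext i
      by_cases hi : i = 0
      · subst hi; simp [start2, clrE, put, Cfg.rd]
      · simp [start2, clrE, put, Cfg.rd, hi]
    · funext i
      by_cases hi : i = 0
      · subst hi; simp [start2, clrE, put, Cfg.rd]
      · simp [start2, clrE, put, Cfg.rd, hi]
    all_goals
      intro i
      by_cases hi : i = 0
      · subst hi; simp [start2, clrE, put, Cfg.rd]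
      · simp [start2, clrE, put, Cfg.rd, hi]
  · constructor <;> simp [start2, clrE, put, Cfg.rd]
  · intro k h2 h4
    simp only [Function.update_self]
    exact clrE_memA _ k h2 h4

theorem clean1_pass (m : ℕ) (c : Cfg (Fin 14) (S2 e.k a.length)) (hq : c.q = S2.clean1)
    (hh : c.h = 1) (hT : St1 x y n m c.T) (hf : Fl true false c.T)
    (h0 : ∀ k : Fin 14, 2 ≤ k → k ≤ 4 → c.T k 0 = false) :
    (∃ T, (M2 e a).run c ω = ⟨S2.lim, 0, T⟩ ∧ St1 x y n m T ∧ Fl true false T ∧
      ∀ k : Fin 14, 2 ≤ k → k ≤ 4 → ∀ i, T k i = false) ∧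
    ∀ b, b < ω → out2 ((M2 e a).run c b).q = none ∧ St1 x y n m ((M2 e a).run c b).T ∧
      Fl true false ((M2 e a).run c b).T := by
  have htr : ∀ v, (M2 e a).tr S2.clean1 v = (S2.clean1, clrE v, true) := fun v => rfl
  refine ⟨?_, ?_⟩
  · rw [sweep_omega (M2 e a) S2.clean1 clrE htr c hq]
    refine ⟨_, rfl, ?_, ?_, ?_⟩
    · refine hT.congrA ?_
      intro k h2 h3 h4
      funext i
      by_cases hi : c.h ≤ i
      · simp only [if_pos hi]
        exact clrE_neA _ k h2 h3 h4
      · simp only [if_neg hi]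
    · refine hf.congrA ?_
      intro k h2 h3 h4
      funext i
      by_cases hi : c.h ≤ i
      · simp only [if_pos hi]
        exact clrE_neA _ k h2 h3 h4
      · simp only [if_neg hi]
    · intro k h2 h4 i
      by_cases hi : c.h ≤ i
      · simp only [if_pos hi]
        exact clrE_memA _ k h2 h4
      · simp only [if_neg hi]
        have : i = 0 := by omega
        rw [this]
        exact h0 k h2 h4
  · intro b hb
    obtain ⟨N, rfl⟩ := Ordinal.lt_omega0.1 hb
    rw [sweep_nat (M2 e a) S2.clean1 clrE htr c hq N]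
    have key : ∀ k : Fin 14, k ≠ 2 → k ≠ 3 → k ≠ 4 →
        (fun i => if c.h ≤ i ∧ i < c.h + N then clrE (fun k' => c.T k' i) k else c.T k i) =
          c.T k := by
      intro k h2 h3 h4
      funext i
      by_cases hi : c.h ≤ i ∧ i < c.h + N
      · simp only [if_pos hi]
        exact clrE_neA _ k h2 h3 h4
      · simp only [if_neg hi]
    exact ⟨rfl, hT.congrA key, hf.congrA key⟩

end A2

end Pool.Agent.Helper78.ITTM
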