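import Pool.Agent.Helper78.ITTM.Prog2

/-! Predicates on the tracks of the abstract program, used in the analysis of both stages. -/

namespace Pool.Agent.Helper78.ITTM

/-- tracks in stage 1 which are the same during the treatment of bit `m` -/
structure St1 (x y : R2) (n m : ℕ) (T : Fin 14 → ℕ → Bool) : Prop where
  t0 : T 0 = x
  t1 : T 1 = inp n
  t5 : ∀ i, T 5 i = (decide (i < m) && y i)
  t6 : ∀ i, T 6 i = false
  t7 : ∀ i, T 7 i = false
  t8 : ∀ i, T 8 i = decide (i = m)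
  t9 : ∀ i, T 9 i = false
  t10 : ∀ i, T 10 i = decide (i = 0)
  t11 : ∀ i, 0 < i → T 11 i = false
  t12 : ∀ i, 0 < i → T 12 i = false
  t13 : ∀ i, T 13 i = false

/-- tracks in stage 1 while bit `m` is stored -/
structure Mid1 (x y : R2) (n m : ℕ) (T : Fin 14 → ℕ → Bool) : Prop where
  t0 : T 0 = x
  t1 : T 1 = inp n
  t5a : ∀ i, i < m → T 5 i = y i
  t5b : ∀ i, m < i → T 5 i = false
  t6 : ∀ i, T 6 i = false
  t7 : ∀ i, T 7 i = false
  t8 : ∀ i, i ≠ m → i ≠ m + 1 → T 8 i = false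
  t9 : ∀ i, T 9 i = false
  t10 : ∀ i, T 10 i = decide (i = 0)
  t11 : ∀ i, 0 < i → T 11 i = false
  t12 : ∀ i, 0 < i → T 12 i = false
  t13 : ∀ i, T 13 i = false

/-- tracks in stage 2 -/
structure St2 (x y : R2) (n : ℕ) (W : R2) (T : Fin 14 → ℕ → Bool) : Prop where
  t0 : T 0 = x
  t1 : T 1 = inp n
  t5 : T 5 = y
  t6 : T 6 = W
  t10 : ∀ i, T 10 i = decide (i = 0)
  t11 : ∀ i, 0 < i → T 11 i = false
  t12 : ∀ i, 0 < i → T 12 i = false
  t13 : ∀ i, T 13 i = decide (i = 0)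

/-- values of the flags -/
def Fl (f1 f2 : Bool) (T : Fin 14 → ℕ → Bool) : Prop := T 11 0 = f1 ∧ T 12 0 = f2

end Pool.Agent.Helper78.ITTM
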