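import Pool.Agent.Helper78.ITTM.Run
import Pool.Agent.Helper78.ITTM.Inv

/-! Module A2b: writing the input of the program. -/

namespace Pool.Agent.Helper78.ITTM

/-- a phase of a run -/
theorem Ph.phase {κ Q : Type} (M : Mach κ Q) (c : Cfg κ Q) (s N : ℕ) (F : ℕ → Cfg κ Q)
    (h0 : M.run c (s : Ordinal.{0}) = F 0) (hs : ∀ j, j < N → M.step (F j) = F (j + 1)) :
    ∀ j, j ≤ N → M.run c ((s + j : ℕ) : Ordinal.{0}) = F j := by
  intro j
  induction j with
  | zero => intro _; exact h0
  | succ j ih =>
    intro hj
    rw [← Nat.add_assoc, Nat.cast_succ, run_succ, ih (by omega), hs j (by omega)]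

theorem Ph.phase_step {κ Q : Type} (M : Mach κ Q) (c : Cfg κ Q) (s : ℕ) (d d' : Cfg κ Q)
    (h0 : M.run c (s : Ordinal.{0}) = d) (hs : M.step d = d') :
    M.run c ((s + 1 : ℕ) : Ordinal.{0}) = d' := by
  rw [Nat.cast_succ, run_succ, h0, hs]

section A2
variable (e : Prog) (a : List Bool) (x y : R2) (n : ℕ)

/-! ## Module A2b: writing the input of `e` -/

theorem write_input (m : ℕ) (c : Cfg (Fin 14) (S2 e.k a.length)) (hq : c.q = S2.lim)
    (hh : c.h = 0) (hT : St1 x y n m c.T) (hf : Fl true false c.T)
    (h0 : ∀ k : Fin 14, 2 ≤ k → k ≤ 4 → ∀ i, c.T k i = false) :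
    ∃ N : ℕ, 0 < N ∧ (∃ T, (M2 e a).run c (N : Ordinal.{0}) = ⟨S2.run ⟨0, by omega⟩, 0, T⟩ ∧
      St1 x y n m T ∧ Fl false true T ∧ T 2 = inp m ∧ (∀ i, T 3 i = false) ∧
      ∀ i, T 4 i = false) ∧
    ∀ N' : ℕ, N' < N → out2 ((M2 e a).run c (N' : Ordinal.{0})).q = none ∧
      St1 x y n m ((M2 e a).run c (N' : Ordinal.{0})).T := by
  obtain ⟨q, h, T⟩ := c
  obtain rfl : q = S2.lim := hq
  obtain rfl : h = 0 := hh
  obtain ⟨f11, f12⟩ := hf
  simp only at hT f11 f12 h0
  have h2 : ∀ i, T 2 i = false := h0 2 (by decide) (by decide)
  have h3 : ∀ i, T 3 i = false := h0 3 (by decide) (by decide)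
  have h4 : ∀ i, T 4 i = false := h0 4 (by decide) (by decide)
  -- the tracks during this phase
  let TT : ℕ → Fin 14 → ℕ → Bool := fun j k i =>
    if k = 2 then decide (i < j) else if k = 11 ∧ i = 0 then false
    else if k = 12 ∧ i = 0 then true else T k i
  have hTT : ∀ j, St1 x y n m (TT j) := by
    intro j
    constructor
    · exact hT.t0
    · exact hT.t1
    · exact hT.t5
    · exact hT.t6
    · exact hT.t7
    · exact hT.t8
    · exact hT.t9
    · exact hT.t10
    · intro i hi
      show (if (11 : Fin 14) = 2 then _ else if (11 : Fin 14) = 11 ∧ i = 0 then false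
        else if (11 : Fin 14) = 12 ∧ i = 0 then true else T 11 i) = false
      rw [if_neg (by decide), if_neg (fun h => by omega), if_neg (fun h => by omega)]
      exact hT.t11 i hi
    · intro i hi
      show (if (12 : Fin 14) = 2 then _ else if (12 : Fin 14) = 11 ∧ i = 0 then false
        else if (12 : Fin 14) = 12 ∧ i = 0 then true else T 12 i) = false
      rw [if_neg (by decide), if_neg (fun h => by omega), if_neg (fun h => by omega)]
      exact hT.t12 i hi
    · exact hT.t13
  have hend : St1 x y n m (TT m) ∧ Fl false true (TT m) ∧ TT m 2 = inp m ∧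
      (∀ i, TT m 3 i = false) ∧ ∀ i, TT m 4 i = false :=
    ⟨hTT m, ⟨rfl, rfl⟩, rfl, h3, h4⟩
  have r0 : (M2 e a).run (⟨S2.lim, 0, T⟩ : Cfg (Fin 14) (S2 e.k a.length))
      ((0 : ℕ) : Ordinal.{0}) = ⟨S2.lim, 0, T⟩ := by
    rw [Nat.cast_zero, run_zero]
  have t13 : T 13 0 = false := hT.t13 0
  have t8 : T 8 0 = decide (0 = m) := hT.t8 0
  rcases Nat.eq_zero_or_pos m with rfl | hm
  · -- no input to write
    refine ⟨1, one_pos, ⟨TT 0, ?_, hend⟩, ?_⟩
    · have := Ph.phase_step (M2 e a) _ 0 _ ⟨S2.run ⟨0, by omega⟩, 0, TT 0⟩ r0 (by
        simp only [Mach.step, M2, tr2, Cfg.rd, t13, f11, f12, t8]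
        simp only [decide_true, if_true, Bool.false_eq_true, if_false, Nat.zero_sub]
        congr 1
        funext k i
        by_cases hi : i = 0
        · subst hi
          rw [Function.update_self]
          by_cases hk2 : k = 2
          · subst hk2
            simp [put, TT, h2, Cfg.rd]
          · by_cases hk11 : k = 11
            · subst hk11
              simp [put, TT]
            · by_cases hk12 : k = 12
              · subst hk12
                simp [put, TT]
              · simp [put, TT, hk2, hk11, hk12, Cfg.rd]
        · rw [Function.update_of_ne hi]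
          by_cases hk2 : k = 2
          · subst hk2
            simp [TT, h2]
          · simp [TT, hk2, hi])
      simpa using this
    · intro N' hN'
      obtain rfl : N' = 0 := by omega
      rw [r0]
      exact ⟨rfl, hT⟩
  · -- the general case
    obtain ⟨m', rfl⟩ : ∃ m', m = m' + 1 := ⟨m - 1, by omega⟩
    have r1 := Ph.phase_step (M2 e a) _ 0 _ ⟨S2.wr, 1, TT 1⟩ r0 (by
        have t8' : T 8 0 = false := by
          rw [t8]
          simp
        simp only [Mach.step, M2, tr2, Cfg.rd, t13, f11, f12, t8']
        simp only [if_true, Bool.false_eq_true, if_false]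
        congr 1
        funext k i
        by_cases hi : i = 0
        · subst hi
          rw [Function.update_self]
          by_cases hk2 : k = 2
          · subst hk2
            simp [put, TT]
          · by_cases hk11 : k = 11
            · subst hk11
              simp [put, TT]
            · by_cases hk12 : k = 12
              · subst hk12
                simp [put, TT]
              · simp [put, TT, hk2, hk11, hk12, Cfg.rd]
        · rw [Function.update_of_ne hi]
          by_cases hk2 : k = 2
          · subst hk2
            simp only [TT, if_true, h2]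
            symm
            simp
            omega
          · simp [TT, hk2, hi])
    have p1 := Ph.phase (M2 e a) _ 1 m' (fun j => ⟨S2.wr, j + 1, TT (j + 1)⟩) r1 (by
      intro j hj
      have e8 : TT (j + 1) 8 (j + 1) = false := by
        show T 8 (j + 1) = false
        rw [hT.t8]
        simp
        omega
      simp only [Mach.step, M2, tr2, Cfg.rd, e8]
      simp only [if_true, Bool.false_eq_true, if_false]
      congr 1
      funext k i
      by_cases hi : i = j + 1
      · subst hi
        rw [Function.update_self]
        by_cases hk2 : k = 2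
        · subst hk2
          simp [put, TT]
        · simp [put, TT, hk2, Cfg.rd]
      · rw [Function.update_of_ne hi]
        by_cases hk2 : k = 2
        · subst hk2
          simp only [TT, if_true]
          congr 1
          apply propext
          omega
        · simp [TT, hk2])
    have r3 := Ph.phase_step (M2 e a) _ (1 + m') _ ⟨S2.backRun, m', TT (m' + 1)⟩ (p1 m' le_rfl) (by
      have e8 : TT (m' + 1) 8 (m' + 1) = true := by
        show T 8 (m' + 1) = true
        rw [hT.t8]
        simp
      simp only [Mach.step, M2, tr2, Cfg.rd, e8]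
      simp only [if_true, Bool.false_eq_true, if_false, Nat.add_sub_cancel]
      congr 1
      funext k
      exact Function.update_eq_self _ _)
    have p2 := Ph.phase (M2 e a) _ (1 + m' + 1) m' (fun j => ⟨S2.backRun, m' - j, TT (m' + 1)⟩) r3 (by
      intro j hj
      have e10 : TT (m' + 1) 10 (m' - j) = false := by
        show T 10 (m' - j) = false
        rw [hT.t10]
        simp
        omega
      simp only [Mach.step, M2, tr2, Cfg.rd, e10]
      simp only [if_true, Bool.false_eq_true, if_false, Nat.sub_sub]
      congr 1
      funext k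
      exact Function.update_eq_self _ _)
    have r5 := Ph.phase_step (M2 e a) _ _ _ ⟨S2.run ⟨0, by omega⟩, 0, TT (m' + 1)⟩
      (p2 m' le_rfl) (by
      have e10 : TT (m' + 1) 10 0 = true := by
        show T 10 0 = true
        rw [hT.t10]
        simp
      simp only [Nat.sub_self, Mach.step, M2, tr2, Cfg.rd, e10]
      simp only [if_true, Bool.false_eq_true, if_false]
      congr 1
      funext k
      exact Function.update_eq_self _ _)
    refine ⟨1 + m' + 1 + m' + 1, by omega, ⟨TT (m' + 1), r5, hend⟩, ?_⟩
    intro N' hN'
    rcases Nat.lt_or_ge N' 1 with h | h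
    · obtain rfl : N' = 0 := by omega
      rw [r0]
      exact ⟨rfl, hT⟩
    rcases Nat.lt_or_ge N' (m' + 2) with h' | h'
    · have := p1 (N' - 1) (by omega)
      have e3 : 1 + (N' - 1) = N' := by omega
      rw [e3] at this
      rw [this]
      exact ⟨rfl, hTT _⟩
    · have := p2 (N' - (m' + 2)) (by omega)
      have e3 : 1 + m' + 1 + (N' - (m' + 2)) = N' := by omega
      rw [e3] at this
      rw [this]
      exact ⟨rfl, hTT _⟩

end A2

end Pool.Agent.Helper78.ITTM
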