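import Pool.Agent.Helper78.ITTM.Inv

/-! Module A2c: the abstract machine runs the official program `e` in lockstep. -/

namespace Pool.Agent.Helper78.ITTM

open Ordinal

namespace St1c

theorem mrun_zero {κ Q : Type} (M : Mach κ Q) (c : Cfg κ Q) : M.run c 0 = c := by
  unfold Mach.run
  exact Ordinal.limitRecOn_zero _ _ _

theorem mrun_succ {κ Q : Type} (M : Mach κ Q) (c : Cfg κ Q) (a : Ordinal.{0}) :
    M.run c (a + 1) = M.step (M.run c a) := by
  unfold Mach.run
  exact Ordinal.limitRecOn_add_one _ _ _ _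

theorem mrun_lim {κ Q : Type} (M : Mach κ Q) (c : Cfg κ Q) {a : Ordinal.{0}}
    (ha : Order.IsSuccLimit a) :
    M.run c a = ⟨M.lim, 0, fun i j => lsup a (fun b _ => (M.run c b).T i j)⟩ := by
  unfold Mach.run
  exact Ordinal.limitRecOn_limit _ _ _ _ ha

theorem prun_zero (P : Prog) (y : R2) (n : ℕ) : P.run y n 0 = P.init n := by
  unfold Prog.run
  exact Ordinal.limitRecOn_zero _ _ _

theorem prun_succ (P : Prog) (y : R2) (n : ℕ) (a : Ordinal.{0}) :
    P.run y n (a + 1) = P.step y (P.run y n a) := by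
  unfold Prog.run
  exact Ordinal.limitRecOn_add_one _ _ _ _

theorem prun_lim (P : Prog) (y : R2) (n : ℕ) {a : Ordinal.{0}} (ha : Order.IsSuccLimit a) :
    P.run y n a = ⟨⟨1, by omega⟩, 0, fun i j => lsup a (fun b _ => (P.run y n b).T i j)⟩ := by
  unfold Prog.run
  exact Ordinal.limitRecOn_limit _ _ _ _ ha

theorem lsup_congr' {a : Ordinal.{0}} {f g : (b : Ordinal.{0}) → b < a → Bool}
    (h : ∀ b hb, f b hb = g b hb) : lsup a f = lsup a g := by
  have : f = g := by funext b hb; exact h b hb
  rw [this]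

theorem lsup_const' {a : Ordinal.{0}} (ha : Order.IsSuccLimit a) (v : Bool) :
    lsup a (fun _ _ => v) = v := by
  unfold lsup
  cases v
  · have h0 : (0 : Ordinal.{0}) < a := ha.bot_lt
    have : ¬ (∀ b, b < a → ∃ c, ∃ _ : c < a, b ≤ c ∧ false = true) := by
      intro h
      obtain ⟨c, _, _, h3⟩ := h 0 h0
      exact absurd h3 (by simp)
    exact @decide_eq_false _ (_) this
  · exact @decide_eq_true _ (_) (fun b hb => ⟨b, hb, le_rfl, rfl⟩)

/-- The lockstep relation. -/
structure Lock (e : Prog) (a : List Bool) (x : R2) (T0 : Fin 14 → ℕ → Bool) (d : Conf e.k)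
    (c : Cfg (Fin 14) (S2 e.k a.length)) : Prop where
  q : c.q = S2.run d.q ∨ (c.q = S2.lim ∧ d.q = ⟨1, by omega⟩ ∧ c.h = 0)
  h : c.h = d.h
  t2 : c.T 2 = d.T 0
  t3 : c.T 3 = d.T 1
  t4 : c.T 4 = d.T 2
  r : ∀ k : Fin 14, k ≠ 2 → k ≠ 3 → k ≠ 4 → c.T k = T0 k

theorem read_eq {e : Prog} {a : List Bool} {x : R2} {T0 : Fin 14 → ℕ → Bool} {d : Conf e.k}
    {c : Cfg (Fin 14) (S2 e.k a.length)} (h : Lock e a x T0 d c) (h0 : T0 0 = x) :
    (![c.rd 2, c.rd 3, c.rd 4, c.rd 0] : Fin 4 → Bool) = d.read x := by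
  have e0 : c.T 0 = x := by rw [h.r 0 (by decide) (by decide) (by decide), h0]
  funext i
  fin_cases i
  · show c.T 2 c.h = _
    rw [h.t2, h.h]; rfl
  · show c.T 3 c.h = _
    rw [h.t3, h.h]; rfl
  · show c.T 4 c.h = _
    rw [h.t4, h.h]; rfl
  · show c.T 0 c.h = _
    rw [e0, h.h]; rfl

theorem lock_step {e : Prog} {a : List Bool} {x : R2} {T0 : Fin 14 → ℕ → Bool} {d : Conf e.k}
    {c : Cfg (Fin 14) (S2 e.k a.length)} (h : Lock e a x T0 d c) (h0 : T0 0 = x)
    (htr : tr2 e a c.q c.rd = runStep e a.length d.q c.rd) :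
    Lock e a x T0 (e.step x d) ((M2 e a).step c) := by
  have hr := read_eq h h0
  have hM : (M2 e a).tr c.q c.rd = runStep e a.length d.q c.rd := htr
  have hT : ∀ k, ((M2 e a).step c).T k =
      Function.update (c.T k) c.h ((runStep e a.length d.q c.rd).2.1 k) := by
    intro k
    show Function.update (c.T k) c.h (((M2 e a).tr c.q c.rd).2.1 k) = _
    rw [hM]
  refine ⟨Or.inl ?_, ?_, ?_, ?_, ?_, ?_⟩
  · show ((M2 e a).tr c.q c.rd).1 = _
    rw [hM]
    unfold runStep
    simp only [hr]
    rfl
  · show (if ((M2 e a).tr c.q c.rd).2.2 then c.h + 1 else c.h - 1) =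
      (if (e.tr d.q (d.read x)).2.2 then d.h + 1 else d.h - 1)
    rw [hM]
    unfold runStep
    simp only [hr, h.h]
  · rw [hT, h.t2, h.h]
    show _ = Function.update (d.T 0) d.h ((e.tr d.q (d.read x)).2.1 0)
    unfold runStep
    simp only [hr]
    simp [put, Function.update]
  · rw [hT, h.t3, h.h]
    show _ = Function.update (d.T 1) d.h ((e.tr d.q (d.read x)).2.1 1)
    unfold runStep
    simp only [hr]
    simp [put, Function.update]
  · rw [hT, h.t4, h.h]
    show _ = Function.update (d.T 2) d.h ((e.tr d.q (d.read x)).2.1 2)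
    unfold runStep
    simp only [hr]
    simp [put, Function.update]
  · intro k k2 k3 k4
    rw [hT]
    unfold runStep
    simp only [put, Function.update_of_ne k4, Function.update_of_ne k3, Function.update_of_ne k2]
    rw [← h.r k k2 k3 k4]
    exact Function.update_eq_self _ _

end St1c

open St1c

variable (e : Prog) (a : List Bool) (x y : R2) (n : ℕ)

theorem e_run (m z : ℕ) (hz : Halts e x m z) (c : Cfg (Fin 14) (S2 e.k a.length))
    (hq : c.q = S2.run ⟨0, by omega⟩)
    (hh : c.h = 0) (hT : St1 x y n m c.T) (hf : Fl false true c.T) (h2 : c.T 2 = inp m)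
    (h3 : ∀ i, c.T 3 i = false) (h4 : ∀ i, c.T 4 i = false) :
    ∃ θ : Ordinal.{0}, (((M2 e a).run c θ).q = S2.run ⟨2, by omega⟩ ∧
      St1 x y n m ((M2 e a).run c θ).T ∧ Fl false true ((M2 e a).run c θ).T ∧
      ((M2 e a).run c θ).T 4 0 = decide (0 < z)) ∧
    ∀ b, b < θ → out2 ((M2 e a).run c b).q = none ∧ St1 x y n m ((M2 e a).run c b).T := by
  obtain ⟨θ, hθ, hlt, hout⟩ := hz
  have key : ∀ b, b ≤ θ → Lock e a x c.T (e.run x m b) ((M2 e a).run c b) := by
    intro b
    induction b using Ordinal.limitRecOn with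
    | zero =>
      intro _
      rw [mrun_zero, prun_zero]
      refine ⟨Or.inl ?_, ?_, ?_, ?_, ?_, fun _ _ _ _ => rfl⟩
      · rw [hq]; rfl
      · rw [hh]; rfl
      · rw [h2]
        funext j
        show decide (j < m) = decide ((0 : Fin 3) = 0 ∧ j < m)
        simp
      · funext j
        rw [h3]
        show false = decide ((1 : Fin 3) = 0 ∧ j < m)
        simp
      · funext j
        rw [h4]
        show false = decide ((2 : Fin 3) = 0 ∧ j < m)
        simp
    | add_one b ih =>
      intro hb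
      have hb' : b < θ := lt_of_lt_of_le (by simp) hb
      have L := ih hb'.le
      rw [mrun_succ, prun_succ]
      refine lock_step L hT.t0 ?_
      rcases L.q with h | ⟨h, h', h''⟩
      · rw [h]
        show (if (e.run x m b).q = ⟨2, by omega⟩ then _ else _) = _
        rw [if_neg (hlt b hb')]
      · have e13 : ((M2 e a).run c b).rd 13 = false := by
          show ((M2 e a).run c b).T 13 _ = false
          rw [L.r 13 (by decide) (by decide) (by decide), hT.t13]
        have e11 : ((M2 e a).run c b).rd 11 = false := by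
          show ((M2 e a).run c b).T 11 _ = false
          rw [L.r 11 (by decide) (by decide) (by decide), h'']
          exact hf.1
        have e12 : ((M2 e a).run c b).rd 12 = true := by
          show ((M2 e a).run c b).T 12 _ = true
          rw [L.r 12 (by decide) (by decide) (by decide), h'']
          exact hf.2
        rw [h, h']
        simp only [tr2, e13, e11, e12]
        simp
    | limit b hb ih =>
      intro hbθ
      rw [mrun_lim _ _ hb, prun_lim _ _ _ hb]
      refine ⟨Or.inr ⟨rfl, rfl, rfl⟩, rfl, ?_, ?_, ?_, ?_⟩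
      · funext j
        exact lsup_congr' fun b' hb' => by rw [(ih b' hb' (hb'.le.trans hbθ)).t2]
      · funext j
        exact lsup_congr' fun b' hb' => by rw [(ih b' hb' (hb'.le.trans hbθ)).t3]
      · funext j
        exact lsup_congr' fun b' hb' => by rw [(ih b' hb' (hb'.le.trans hbθ)).t4]
      · intro k k2 k3 k4
        funext j
        show lsup b (fun b' _ => ((M2 e a).run c b').T k j) = c.T k j
        rw [← lsup_const' hb (c.T k j)]
        exact lsup_congr' fun b' hb' => by
          rw [(ih b' hb' (hb'.le.trans hbθ)).r k k2 k3 k4]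
  have hS : ∀ b, b ≤ θ → St1 x y n m ((M2 e a).run c b).T := by
    intro b hb
    have L := key b hb
    refine ⟨?_, ?_, ?_, ?_, ?_, ?_, ?_, ?_, ?_, ?_, ?_⟩
    · rw [L.r 0 (by decide) (by decide) (by decide)]; exact hT.t0
    · rw [L.r 1 (by decide) (by decide) (by decide)]; exact hT.t1
    · rw [L.r 5 (by decide) (by decide) (by decide)]; exact hT.t5
    · rw [L.r 6 (by decide) (by decide) (by decide)]; exact hT.t6
    · rw [L.r 7 (by decide) (by decide) (by decide)]; exact hT.t7
    · rw [L.r 8 (by decide) (by decide) (by decide)]; exact hT.t8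
    · rw [L.r 9 (by decide) (by decide) (by decide)]; exact hT.t9
    · rw [L.r 10 (by decide) (by decide) (by decide)]; exact hT.t10
    · rw [L.r 11 (by decide) (by decide) (by decide)]; exact hT.t11
    · rw [L.r 12 (by decide) (by decide) (by decide)]; exact hT.t12
    · rw [L.r 13 (by decide) (by decide) (by decide)]; exact hT.t13
  refine ⟨θ, ⟨?_, hS θ le_rfl, ?_, ?_⟩, ?_⟩
  · rcases (key θ le_rfl).q with h | ⟨_, h', _⟩
    · rw [h, hθ]
    · rw [hθ] at h'
      have h'' : (2 : ℕ) = 1 := congrArg Fin.val h'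
      omega
  · refine ⟨?_, ?_⟩
    · rw [(key θ le_rfl).r 11 (by decide) (by decide) (by decide)]; exact hf.1
    · rw [(key θ le_rfl).r 12 (by decide) (by decide) (by decide)]; exact hf.2
  · rw [(key θ le_rfl).t4]
    exact hout 0
  · intro b hb
    refine ⟨?_, hS b hb.le⟩
    rcases (key b hb.le).q with h | ⟨h, _⟩
    · rw [h]; rfl
    · rw [h]; rfl

end Pool.Agent.Helper78.ITTM
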