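import Pool.Agent.Helper78.ITTM.Run
import Pool.Agent.Helper78.ITTM.Inv
import Pool.Agent.Helper78.ITTM.St1b

/-! Module A2d: storing a bit. -/

namespace Pool.Agent.Helper78.ITTM

section A2
variable (e : Prog) (a : List Bool) (x y : R2) (n : ℕ)

/-- a step which does not change the tracks -/
theorem St1d.step_id (q q' : S2 e.k a.length) (h : ℕ) (mv : Bool) (T : Fin 14 → ℕ → Bool)
    (hs : tr2 e a q (fun k => T k h) = (q', (fun k => T k h), mv)) :
    (M2 e a).step ⟨q, h, T⟩ = ⟨q', if mv then h + 1 else h - 1, T⟩ := by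
  have h1 : (M2 e a).tr q (Cfg.rd (⟨q, h, T⟩ : Cfg (Fin 14) (S2 e.k a.length))) =
    (q', (fun k => T k h), mv) := hs
  unfold Mach.step
  simp only [h1]
  congr 1
  funext k
  exact Function.update_eq_self _ _

theorem St1d.step_write (q q' : S2 e.k a.length) (h : ℕ) (mv : Bool)
    (T T' : Fin 14 → ℕ → Bool) (w : Fin 14 → Bool)
    (hs : tr2 e a q (fun k => T k h) = (q', w, mv)) (hw : ∀ k, T' k h = w k)
    (hT : ∀ k i, i ≠ h → T' k i = T k i) :
    (M2 e a).step ⟨q, h, T⟩ = ⟨q', if mv then h + 1 else h - 1, T'⟩ := by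
  have h1 : (M2 e a).tr q (Cfg.rd (⟨q, h, T⟩ : Cfg (Fin 14) (S2 e.k a.length))) =
    (q', w, mv) := hs
  unfold Mach.step
  simp only [h1]
  congr 1
  funext k i
  by_cases hi : i = h
  · subst hi
    rw [Function.update_self, hw]
  · rw [Function.update_of_ne hi, hT k i hi]

/-! ## Module A2d (file ITTM/St1d.lean): storing the bit -/

theorem store (m : ℕ) (c : Cfg (Fin 14) (S2 e.k a.length)) (hq : c.q = S2.run ⟨2, by omega⟩)
    (hT : St1 x y n m c.T) (hf : Fl false true c.T) (h4 : c.T 4 0 = y m) :
    ∃ N : ℕ, 0 < N ∧ (∃ T, (M2 e a).run c (N : Ordinal.{0}) = ⟨S2.clean1, 1, T⟩ ∧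
      St1 x y n (m + 1) T ∧ Fl true false T ∧ ∀ k : Fin 14, 2 ≤ k → k ≤ 4 → T k 0 = false) ∧
    ∀ N' : ℕ, N' < N → out2 ((M2 e a).run c (N' : Ordinal.{0})).q = none ∧
      Mid1 x y n m ((M2 e a).run c (N' : Ordinal.{0})).T := by
  obtain ⟨q, h, T⟩ := c
  obtain rfl : q = S2.run ⟨2, by omega⟩ := hq
  obtain ⟨f11, f12⟩ := hf
  simp only at hT f11 f12 h4
  -- tracks
  let TB : Fin 14 → ℕ → Bool := fun k i =>
    if k = 5 ∧ i = m then y m else if k = 8 then false else T k i
  let TC : Fin 14 → ℕ → Bool := fun k i =>
    if k = 5 ∧ i = m then y m else if k = 8 then decide (i = m + 1) else T k i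
  let TD : Fin 14 → ℕ → Bool := fun k i =>
    if i = 0 ∧ k = 11 then true else if i = 0 ∧ k = 12 then false
    else if i = 0 ∧ (k = 2 ∨ k = 3 ∨ k = 4) then false else TC k i
  have hMA : Mid1 x y n m T := by
    constructor
    · exact hT.t0
    · exact hT.t1
    · intro i hi
      rw [hT.t5]
      simp [hi]
    · intro i hi
      rw [hT.t5]
      simp
      omega
    · exact hT.t6
    · exact hT.t7
    · intro i h1 _
      rw [hT.t8]
      simp [h1]
    · exact hT.t9
    · exact hT.t10
    · exact hT.t11
    · exact hT.t12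
    · exact hT.t13
  have hMB : Mid1 x y n m TB := by
    constructor
    · funext i
      exact congrFun hT.t0 i
    · funext i
      exact congrFun hT.t1 i
    · intro i hi
      show (if (5 : Fin 14) = 5 ∧ i = m then y m else _) = _
      rw [if_neg (fun h => by omega)]
      exact hMA.t5a i hi
    · intro i hi
      show (if (5 : Fin 14) = 5 ∧ i = m then y m else _) = _
      rw [if_neg (fun h => by omega)]
      exact hMA.t5b i hi
    · exact hT.t6
    · exact hT.t7
    · intro i _ _
      rfl
    · exact hT.t9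
    · exact hT.t10
    · exact hT.t11
    · exact hT.t12
    · exact hT.t13
  have hMC : Mid1 x y n m TC := by
    constructor
    · funext i
      exact congrFun hT.t0 i
    · funext i
      exact congrFun hT.t1 i
    · intro i hi
      show (if (5 : Fin 14) = 5 ∧ i = m then y m else _) = _
      rw [if_neg (fun h => by omega)]
      exact hMA.t5a i hi
    · intro i hi
      show (if (5 : Fin 14) = 5 ∧ i = m then y m else _) = _
      rw [if_neg (fun h => by omega)]
      exact hMA.t5b i hi
    · exact hT.t6
    · exact hT.t7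
    · intro i _ h2
      show decide (i = m + 1) = false
      simpa using h2
    · exact hT.t9
    · exact hT.t10
    · exact hT.t11
    · exact hT.t12
    · exact hT.t13
  have hTD : St1 x y n (m + 1) TD := by
    constructor
    · funext i
      show (if i = 0 ∧ (0 : Fin 14) = 11 then true else if i = 0 ∧ (0 : Fin 14) = 12 then false
        else if i = 0 ∧ ((0 : Fin 14) = 2 ∨ (0 : Fin 14) = 3 ∨ (0 : Fin 14) = 4) then false
        else TC 0 i) = x i
      rw [if_neg (by simp), if_neg (by simp), if_neg (by simp)]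
      exact congrFun hT.t0 i
    · funext i
      show (if i = 0 ∧ (1 : Fin 14) = 11 then true else if i = 0 ∧ (1 : Fin 14) = 12 then false
        else if i = 0 ∧ ((1 : Fin 14) = 2 ∨ (1 : Fin 14) = 3 ∨ (1 : Fin 14) = 4) then false
        else TC 1 i) = inp n i
      rw [if_neg (by simp), if_neg (by simp), if_neg (by simp)]
      exact congrFun hT.t1 i
    · intro i
      show (if i = 0 ∧ (5 : Fin 14) = 11 then true else if i = 0 ∧ (5 : Fin 14) = 12 then false
        else if i = 0 ∧ ((5 : Fin 14) = 2 ∨ (5 : Fin 14) = 3 ∨ (5 : Fin 14) = 4) then false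
        else TC 5 i) = _
      rw [if_neg (by simp), if_neg (by simp), if_neg (by simp)]
      show (if (5 : Fin 14) = 5 ∧ i = m then y m else if (5 : Fin 14) = 8 then _ else T 5 i) = _
      by_cases hi : i = m
      · subst hi
        simp
      · rw [if_neg (fun h => hi h.2), if_neg (by decide), hT.t5]
        congr 1
        simp only [decide_eq_decide]
        omega
    · intro i
      show (if i = 0 ∧ (6 : Fin 14) = 11 then true else if i = 0 ∧ (6 : Fin 14) = 12 then false
        else if i = 0 ∧ ((6 : Fin 14) = 2 ∨ (6 : Fin 14) = 3 ∨ (6 : Fin 14) = 4) then false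
        else TC 6 i) = _
      rw [if_neg (by simp), if_neg (by simp), if_neg (by simp)]
      exact hT.t6 i
    · intro i
      show (if i = 0 ∧ (7 : Fin 14) = 11 then true else if i = 0 ∧ (7 : Fin 14) = 12 then false
        else if i = 0 ∧ ((7 : Fin 14) = 2 ∨ (7 : Fin 14) = 3 ∨ (7 : Fin 14) = 4) then false
        else TC 7 i) = _
      rw [if_neg (by simp), if_neg (by simp), if_neg (by simp)]
      exact hT.t7 i
    · intro i
      show (if i = 0 ∧ (8 : Fin 14) = 11 then true else if i = 0 ∧ (8 : Fin 14) = 12 then false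
        else if i = 0 ∧ ((8 : Fin 14) = 2 ∨ (8 : Fin 14) = 3 ∨ (8 : Fin 14) = 4) then false
        else TC 8 i) = _
      rw [if_neg (by simp), if_neg (by simp), if_neg (by simp)]
      rfl
    · intro i
      show (if i = 0 ∧ (9 : Fin 14) = 11 then true else if i = 0 ∧ (9 : Fin 14) = 12 then false
        else if i = 0 ∧ ((9 : Fin 14) = 2 ∨ (9 : Fin 14) = 3 ∨ (9 : Fin 14) = 4) then false
        else TC 9 i) = _
      rw [if_neg (by simp), if_neg (by simp), if_neg (by simp)]
      exact hT.t9 i
    · intro i
      show (if i = 0 ∧ (10 : Fin 14) = 11 then true else if i = 0 ∧ (10 : Fin 14) = 12 then false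
        else if i = 0 ∧ ((10 : Fin 14) = 2 ∨ (10 : Fin 14) = 3 ∨ (10 : Fin 14) = 4) then false
        else TC 10 i) = _
      rw [if_neg (by simp), if_neg (by simp), if_neg (by simp)]
      exact hT.t10 i
    · intro i hi
      show (if i = 0 ∧ (11 : Fin 14) = 11 then true else if i = 0 ∧ (11 : Fin 14) = 12 then false
        else if i = 0 ∧ ((11 : Fin 14) = 2 ∨ (11 : Fin 14) = 3 ∨ (11 : Fin 14) = 4) then false
        else TC 11 i) = _
      rw [if_neg (fun h => by omega), if_neg (by simp), if_neg (by simp)]
      exact hT.t11 i hi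
    · intro i hi
      show (if i = 0 ∧ (12 : Fin 14) = 11 then true else if i = 0 ∧ (12 : Fin 14) = 12 then false
        else if i = 0 ∧ ((12 : Fin 14) = 2 ∨ (12 : Fin 14) = 3 ∨ (12 : Fin 14) = 4) then false
        else TC 12 i) = _
      rw [if_neg (by simp), if_neg (fun h => by omega), if_neg (by simp)]
      exact hT.t12 i hi
    · intro i
      show (if i = 0 ∧ (13 : Fin 14) = 11 then true else if i = 0 ∧ (13 : Fin 14) = 12 then false
        else if i = 0 ∧ ((13 : Fin 14) = 2 ∨ (13 : Fin 14) = 3 ∨ (13 : Fin 14) = 4) then false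
        else TC 13 i) = _
      rw [if_neg (by simp), if_neg (by simp), if_neg (by simp)]
      exact hT.t13 i
  have hFD : Fl true false TD := ⟨rfl, rfl⟩
  have h0D : ∀ k : Fin 14, 2 ≤ k → k ≤ 4 → TD k 0 = false := by
    intro k h1 h2
    have : k = 2 ∨ k = 3 ∨ k = 4 := by
      have h1' : 2 ≤ k.1 := h1
      have h2' : k.1 ≤ 4 := h2
      rcases Nat.lt_or_ge k.1 3 with h | h
      · left; ext; show k.1 = 2; omega
      · rcases Nat.lt_or_ge k.1 4 with h' | h'
        · right; left; ext; show k.1 = 3; omega
        · right; right; ext; show k.1 = 4; omega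
    rcases this with rfl | rfl | rfl <;> rfl
  -- phase 0: walking to the left
  have r0 : (M2 e a).run (⟨S2.run ⟨2, by omega⟩, h, T⟩ : Cfg (Fin 14) (S2 e.k a.length))
      ((0 : ℕ) : Ordinal.{0}) = ⟨S2.run ⟨2, by omega⟩, h, T⟩ := by
    rw [Nat.cast_zero, run_zero]
  have p0 := Ph.phase (M2 e a) _ 0 h (fun j => ⟨S2.run ⟨2, by omega⟩, h - j, T⟩) r0 (by
    intro j hj
    have e10 : T 10 (h - j) = false := by
      rw [hT.t10]
      simp
      omega
    have := St1d.step_id e a (S2.run ⟨2, by omega⟩) (S2.run ⟨2, by omega⟩) (h - j) false T (by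
      simp [tr2, e10])
    rw [this]
    simp only [Bool.false_eq_true, if_false, Nat.sub_sub])
  have p0h := p0 h le_rfl
  simp only [Nat.sub_self, Nat.zero_add] at p0h
  have e10 : T 10 0 = true := by
    rw [hT.t10]
    simp
  -- the state after storing the bit
  have hmv : ∃ F : ℕ → Cfg (Fin 14) (S2 e.k a.length),
      (M2 e a).run (⟨S2.run ⟨2, by omega⟩, h, T⟩ : Cfg (Fin 14) (S2 e.k a.length))
        ((h + m + 1 : ℕ) : Ordinal.{0}) = ⟨S2.mv, m + 1, TB⟩ ∧
      ∀ j, j ≤ m → out2 ((M2 e a).run (⟨S2.run ⟨2, by omega⟩, h, T⟩ :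
        Cfg (Fin 14) (S2 e.k a.length)) ((h + j : ℕ) : Ordinal.{0})).q = none ∧
        ((M2 e a).run (⟨S2.run ⟨2, by omega⟩, h, T⟩ :
        Cfg (Fin 14) (S2 e.k a.length)) ((h + j : ℕ) : Ordinal.{0})).T = T := by
    refine ⟨fun _ => ⟨S2.mv, 0, T⟩, ?_⟩
    rcases Nat.eq_zero_or_pos m with rfl | hm
    · have e8 : T 8 0 = true := by
        rw [hT.t8]
        simp
      have r1 := Ph.phase_step (M2 e a) _ h _ ⟨S2.mv, 1, TB⟩ p0h (by
        have := St1d.step_write e a (S2.run ⟨2, by omega⟩) S2.mv 0 true T TB
          (put (put (fun k => T k 0) 5 (T 4 0)) 8 false) (by simp [tr2, e10, e8]) (by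
            intro k
            by_cases h5 : k = 5
            · subst h5
              simp [put, TB, h4]
            · by_cases h8 : k = 8
              · subst h8
                simp [put, TB]
              · simp [put, TB, h5, h8]) (by
            intro k i hi
            by_cases h8 : k = 8
            · subst h8
              simp [TB, hT.t8, hi]
            · simp [TB, h8, hi])
        rw [this]
        rfl)
      refine ⟨r1, fun j hj => ?_⟩
      obtain rfl : j = 0 := by omega
      rw [Nat.add_zero h, p0h]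
      exact ⟨rfl, rfl⟩
    · obtain ⟨m', rfl⟩ : ∃ m', m = m' + 1 := ⟨m - 1, by omega⟩
      have e8 : T 8 0 = false := by
        rw [hT.t8]
        simp
      have r1 := Ph.phase_step (M2 e a) _ h _ ⟨S2.st (y (m' + 1)), 1, T⟩ p0h (by
        have := St1d.step_id e a (S2.run ⟨2, by omega⟩) (S2.st (T 4 0)) 0 true T
          (by simp [tr2, e10, e8])
        rw [this, h4]
        rfl)
      have p1 := Ph.phase (M2 e a) _ (h + 1) m' (fun j => ⟨S2.st (y (m' + 1)), 1 + j, T⟩) r1 (by
        intro j hj
        have e8' : T 8 (1 + j) = false := by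
          rw [hT.t8]
          simp
          omega
        have := St1d.step_id e a (S2.st (y (m' + 1))) (S2.st (y (m' + 1))) (1 + j) true T
          (by simp [tr2, e8'])
        rw [this]
        rfl)
      have r2 := Ph.phase_step (M2 e a) _ (h + 1 + m') _ ⟨S2.mv, m' + 1 + 1, TB⟩ (p1 m' le_rfl) (by
        have e8' : T 8 (1 + m') = true := by
          rw [hT.t8]
          simp
          omega
        have := St1d.step_write e a (S2.st (y (m' + 1))) S2.mv (1 + m') true T TB
          (put (put (fun k => T k (1 + m')) 5 (y (m' + 1))) 8 false) (by simp [tr2, e8']) (by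
            intro k
            by_cases h5 : k = 5
            · subst h5
              simp [put, TB, Nat.add_comm 1 m']
            · by_cases h8 : k = 8
              · subst h8
                simp [put, TB]
              · simp [put, TB, h5, h8]) (by
            intro k i hi
            have hi' : i ≠ m' + 1 := by omega
            by_cases h8 : k = 8
            · subst h8
              simp [TB, hT.t8, hi']
            · simp [TB, h8, hi'])
        rw [this]
        show (⟨S2.mv, 1 + m' + 1, TB⟩ : Cfg (Fin 14) (S2 e.k a.length)) = _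
        rw [Nat.add_comm 1 m'])
      refine ⟨?_, fun j hj => ?_⟩
      · have e3 : h + (m' + 1) + 1 = h + 1 + m' + 1 := by omega
        rw [e3]
        exact r2
      · rcases Nat.eq_zero_or_pos j with rfl | hj0
        · rw [Nat.add_zero h, p0h]
          exact ⟨rfl, rfl⟩
        · have := p1 (j - 1) (by omega)
          have e3 : h + 1 + (j - 1) = h + j := by omega
          rw [e3] at this
          rw [this]
          exact ⟨rfl, rfl⟩
  obtain ⟨-, hmv1, hmv2⟩ := hmv
  -- marking the next cell
  have r3 := Ph.phase_step (M2 e a) _ (h + m + 1) _ ⟨S2.bk, m, TC⟩ hmv1 (by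
    have := St1d.step_write e a S2.mv S2.bk (m + 1) false TB TC
      (put (fun k => TB k (m + 1)) 8 true) (by simp [tr2]) (by
        intro k
        by_cases h8 : k = 8
        · subst h8
          simp [put, TC]
        · simp [put, TB, TC, h8]) (by
        intro k i hi
        by_cases h8 : k = 8
        · subst h8
          simp [TC, TB, hi]
        · simp [TC, TB, h8])
    rw [this]
    rfl)
  have p3 := Ph.phase (M2 e a) _ (h + m + 1 + 1) m (fun j => ⟨S2.bk, m - j, TC⟩) r3 (by
    intro j hj
    have e10' : TC 10 (m - j) = false := by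
      show T 10 (m - j) = false
      rw [hT.t10]
      simp
      omega
    have := St1d.step_id e a S2.bk S2.bk (m - j) false TC (by simp [tr2, e10'])
    rw [this]
    simp only [Bool.false_eq_true, if_false, Nat.sub_sub])
  have r4 := Ph.phase_step (M2 e a) _ (h + m + 1 + 1 + m) _ ⟨S2.clean1, 1, TD⟩ (p3 m le_rfl) (by
    have e10' : TC 10 0 = true := e10
    rw [Nat.sub_self]
    have := St1d.step_write e a S2.bk S2.clean1 0 true TC TD
      (clrE (put (put (fun k => TC k 0) 11 true) 12 false)) (by simp [tr2, e10']) (by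
        intro k
        by_cases h2 : k = 2
        · subst h2
          simp [put, clrE, TD]
        by_cases h3 : k = 3
        · subst h3
          simp [put, clrE, TD]
        by_cases h4 : k = 4
        · subst h4
          simp [put, clrE, TD]
        by_cases h11 : k = 11
        · subst h11
          simp [put, clrE, TD]
        by_cases h12 : k = 12
        · subst h12
          simp [put, clrE, TD]
        simp [put, clrE, TD, h2, h3, h4, h11, h12]) (by
        intro k i hi
        simp [TD, hi])
    rw [this]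
    rfl)
  refine ⟨h + m + 1 + 1 + m + 1, by omega, ⟨TD, r4, hTD, hFD, h0D⟩, ?_⟩
  intro N' hN'
  rcases Nat.lt_or_ge N' h with h1 | h1
  · have := p0 N' (by omega)
    rw [Nat.zero_add] at this
    rw [this]
    exact ⟨rfl, hMA⟩
  rcases Nat.lt_or_ge N' (h + m + 1) with h2 | h2
  · have := hmv2 (N' - h) (by omega)
    have e3 : h + (N' - h) = N' := by omega
    rw [e3] at this
    rw [this.2]
    exact ⟨this.1, hMA⟩
  rcases Nat.lt_or_ge N' (h + m + 2) with h3 | h3
  · obtain rfl : N' = h + m + 1 := by omega
    rw [hmv1]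
    exact ⟨rfl, hMB⟩
  · have := p3 (N' - (h + m + 2)) (by omega)
    have e3 : h + m + 1 + 1 + (N' - (h + m + 2)) = N' := by omega
    rw [e3] at this
    rw [this]
    exact ⟨rfl, hMC⟩

end A2

end Pool.Agent.Helper78.ITTM
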