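import Pool.Agent.Helper78.ITTM.Inv
import Pool.Agent.Helper78.ITTM.Run2
import Pool.Agent.Helper78.ITTM.St1a
import Pool.Agent.Helper78.ITTM.St1b
import Pool.Agent.Helper78.ITTM.St1c
import Pool.Agent.Helper78.ITTM.St1d

/-! Stage 1 of the abstract program: all bits of `y` are computed. -/

namespace Pool.Agent.Helper78.ITTM

open Ordinal

/-- Concatenation of two segments of a run, for a property of all configurations. -/
theorem stage1_run_forall_add {κ Q : Type} (M : Mach κ Q) (P : Cfg κ Q → Prop) (c : Cfg κ Q)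
    (a b : Ordinal.{0}) (h1 : ∀ d, d < a → P (M.run c d))
    (h2 : ∀ d, d < b → P (M.run (M.run c a) d)) : ∀ d, d < a + b → P (M.run c d) := by
  intro d hd
  rcases lt_or_ge d a with h | h
  · exact h1 d h
  · obtain ⟨d', rfl⟩ : ∃ d', d = a + d' := ⟨d - a, (Ordinal.add_sub_cancel_of_le h).symm⟩
    rw [run_add]
    exact h2 d' ((add_lt_add_iff_left a).1 hd)

/-- The tracks of stage 1 between two bits are tracks while storing a bit. -/
theorem St1.toMid {x y : R2} {n m : ℕ} {T : Fin 14 → ℕ → Bool} (h : St1 x y n m T) :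
    Mid1 x y n m T where
  t0 := h.t0
  t1 := h.t1
  t5a := fun i hi => by rw [h.t5]; simp [hi]
  t5b := fun i hi => by rw [h.t5]; simp [Nat.lt_asymm hi]
  t6 := h.t6
  t7 := h.t7
  t8 := fun i hi _ => by rw [h.t8]; simp [hi]
  t9 := h.t9
  t10 := h.t10
  t11 := h.t11
  t12 := h.t12
  t13 := h.t13

section A2
variable (e : Prog) (a : List Bool) (x y : R2) (n : ℕ)

/-- The configuration at the beginning of the treatment of bit `m`. -/
structure Stage1Beg (m : ℕ) (c : Cfg (Fin 14) (S2 e.k a.length)) : Prop where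
  q : c.q = S2.clean1
  h : c.h = 1
  T : St1 x y n m c.T
  f : Fl true false c.T
  z : ∀ k : Fin 14, 2 ≤ k → k ≤ 4 → c.T k 0 = false

/-- The treatment of bit `m`. -/
theorem stage1_bit_loop (m : ℕ) (hm : Halts e x m (y m).toNat) (c : Cfg (Fin 14) (S2 e.k a.length))
    (hc : Stage1Beg e a x y n m c) :
    ∃ θ : Ordinal.{0}, 0 < θ ∧ Stage1Beg e a x y n (m + 1) ((M2 e a).run c θ) ∧
      (∀ b, b < θ → out2 ((M2 e a).run c b).q = none ∧ Mid1 x y n m ((M2 e a).run c b).T) ∧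
      (∃ b, b < θ ∧ ((M2 e a).run c b).T 11 0 = true) ∧
      (∃ b, b < θ ∧ ((M2 e a).run c b).T 12 0 = true) := by
  obtain ⟨⟨T1, hT1, hS1, hF1, hz1⟩, hb1⟩ := clean1_pass e a x y n m c hc.q hc.h hc.T hc.f hc.z
  obtain ⟨N1, hN1, ⟨T2, hT2, hS2, hF2, h22, h32, h42⟩, hb2⟩ :=
    write_input e a x y n m ⟨S2.lim, 0, T1⟩ rfl rfl hS1 hF1 hz1
  obtain ⟨θ3, ⟨hq3, hS3, hF3, h43⟩, hb3⟩ :=
    e_run e a x y n m _ hm ⟨S2.run ⟨0, by omega⟩, 0, T2⟩ rfl rfl hS2 hF2 h22 h32 h42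
  have h43' : ((M2 e a).run ⟨S2.run ⟨0, by omega⟩, 0, T2⟩ θ3).T 4 0 = y m := by
    rw [h43]
    cases y m <;> simp
  obtain ⟨N4, hN4, ⟨T4, hT4, hS4, hF4, hz4⟩, hb4⟩ :=
    store e a x y n m _ hq3 hS3 hF3 h43'
  have hnat : ∀ (N : ℕ) (b : Ordinal.{0}), b < (N : Ordinal.{0}) → ∃ k : ℕ, k < N ∧ b = k := by
    intro N b hb
    obtain ⟨k, rfl⟩ := Ordinal.lt_omega0.1 (hb.trans (Ordinal.natCast_lt_omega0 N))
    exact ⟨k, by exact_mod_cast hb, rfl⟩
  have hpos4 : (0 : Ordinal.{0}) < (N4 : Ordinal.{0}) := by exact_mod_cast hN4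
  refine ⟨ω + ((N1 : Ordinal.{0}) + (θ3 + (N4 : Ordinal.{0}))), ?_, ?_, ?_, ?_, ?_⟩
  · exact lt_of_lt_of_le Ordinal.omega0_pos le_self_add
  · rw [run_add, run_add, run_add, hT1, hT2, hT4]
    exact ⟨rfl, rfl, hS4, hF4, hz4⟩
  · refine stage1_run_forall_add (M2 e a) (fun d => out2 d.q = none ∧ Mid1 x y n m d.T) c _ _ ?_ ?_
    · intro d hd
      exact ⟨(hb1 d hd).1, (hb1 d hd).2.1.toMid⟩
    · rw [hT1]
      refine stage1_run_forall_add (M2 e a) (fun d => out2 d.q = none ∧ Mid1 x y n m d.T) _ _ _ ?_ ?_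
      · intro d hd
        obtain ⟨k, hk, rfl⟩ := hnat N1 d hd
        exact ⟨(hb2 k hk).1, (hb2 k hk).2.toMid⟩
      · rw [hT2]
        refine stage1_run_forall_add (M2 e a) (fun d => out2 d.q = none ∧ Mid1 x y n m d.T) _ _ _
          ?_ ?_
        · intro d hd
          exact ⟨(hb3 d hd).1, (hb3 d hd).2.toMid⟩
        · intro d hd
          obtain ⟨k, hk, rfl⟩ := hnat N4 d hd
          exact hb4 k hk
  · refine ⟨0, lt_of_lt_of_le Ordinal.omega0_pos le_self_add, ?_⟩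
    rw [run_zero]
    exact hc.f.1
  · refine ⟨ω + (N1 : Ordinal.{0}), ?_, ?_⟩
    · rw [← add_assoc]
      exact lt_of_lt_of_le (lt_of_le_of_lt le_rfl (lt_add_of_pos_right _
        (lt_of_lt_of_le hpos4 le_add_self))) le_rfl
    · rw [run_add, hT1, hT2]
      exact hF2.2

theorem stage1 (he : ∀ m, Halts e x m (y m).toNat) :
    ∃ (θ : Ordinal.{0}) (T : Fin 14 → ℕ → Bool),
      (M2 e a).run (start2 (M2 e a) x n) θ = ⟨S2.lim, 0, T⟩ ∧
      T 0 = x ∧ T 1 = inp n ∧ T 5 = y ∧ (∀ i, T 6 i = false) ∧ (∀ i, T 10 i = decide (i = 0)) ∧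
      (∀ i, T 11 i = decide (i = 0)) ∧ (∀ i, T 12 i = decide (i = 0)) ∧ (∀ i, T 13 i = false) ∧
      ∀ b, b < θ → out2 ((M2 e a).run (start2 (M2 e a) x n) b).q = none := by
  obtain ⟨T0, hT0, hS0, hF0, hz0⟩ := first_step e a x y n
  have hrun1 : (M2 e a).run (start2 (M2 e a) x n) 1 = ⟨S2.clean1, 1, T0⟩ := by
    have h1 : (1 : Ordinal.{0}) = 0 + 1 := (zero_add 1).symm
    rw [h1, run_succ, run_zero]
    exact hT0
  -- the sequence of configurations
  have hstep : ∀ (m : ℕ) (c : Cfg (Fin 14) (S2 e.k a.length)), ∃ θ : Ordinal.{0},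
      Stage1Beg e a x y n m c → 0 < θ ∧ Stage1Beg e a x y n (m + 1) ((M2 e a).run c θ) ∧
      (∀ b, b < θ → out2 ((M2 e a).run c b).q = none ∧ Mid1 x y n m ((M2 e a).run c b).T) ∧
      (∃ b, b < θ ∧ ((M2 e a).run c b).T 11 0 = true) ∧
      (∃ b, b < θ ∧ ((M2 e a).run c b).T 12 0 = true) := by
    intro m c
    by_cases hc : Stage1Beg e a x y n m c
    · obtain ⟨θ, h⟩ := stage1_bit_loop e a x y n m (he m) c hc
      exact ⟨θ, fun _ => h⟩
    · exact ⟨0, fun h => absurd h hc⟩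
  choose Θ hΘ using hstep
  let d : ℕ → Cfg (Fin 14) (S2 e.k a.length) := fun m =>
    Nat.rec ⟨S2.clean1, 1, T0⟩ (fun m c => (M2 e a).run c (Θ m c)) m
  have hd0 : d 0 = ⟨S2.clean1, 1, T0⟩ := rfl
  have hds : ∀ m, d (m + 1) = (M2 e a).run (d m) (Θ m (d m)) := fun m => rfl
  have hB : ∀ m, Stage1Beg e a x y n m (d m) := by
    intro m
    induction m with
    | zero => exact ⟨rfl, rfl, hS0, hF0, hz0⟩
    | succ m ih => rw [hds]; exact (hΘ m (d m) ih).2.1
  obtain ⟨A, hA, hqA, hhA, hc1, hc2, hc3⟩ := chain (M2 e a) d (fun m => Θ m (d m))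
    (fun m => (hΘ m (d m) (hB m)).1) (fun m => (hds m).symm)
  have hmid : ∀ m β, β < Θ m (d m) → Mid1 x y n m ((M2 e a).run (d m) β).T :=
    fun m β hβ => ((hΘ m (d m) (hB m)).2.2.1 β hβ).2
  have hrunA : (M2 e a).run (start2 (M2 e a) x n) (1 + A) = (M2 e a).run (d 0) A := by
    rw [run_add, hrun1, hd0]
  refine ⟨1 + A, ((M2 e a).run (d 0) A).T, ?_, ?_, ?_, ?_, ?_, ?_, ?_, ?_, ?_, ?_⟩
  · rw [hrunA]
    have hq : ((M2 e a).run (d 0) A).q = S2.lim := hqA
    have hh : ((M2 e a).run (d 0) A).h = 0 := hhA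
    cases hcfg : (M2 e a).run (d 0) A with
    | mk q h T =>
      rw [hcfg] at hq hh
      simp only at hq hh
      rw [hq, hh]
  · funext i
    exact hc1 0 i (x i) 0 (fun m _ β hβ => by rw [(hmid m β hβ).t0])
  · funext i
    exact hc1 1 i (inp n i) 0 (fun m _ β hβ => by rw [(hmid m β hβ).t1])
  · funext i
    exact hc1 5 i (y i) (i + 1) (fun m hm β hβ => (hmid m β hβ).t5a i (by omega))
  · intro i
    exact hc1 6 i false 0 (fun m _ β hβ => (hmid m β hβ).t6 i)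
  · intro i
    exact hc1 10 i (decide (i = 0)) 0 (fun m _ β hβ => (hmid m β hβ).t10 i)
  · intro i
    rcases Nat.eq_zero_or_pos i with rfl | hi
    · rw [decide_eq_true rfl]
      refine hc2 11 0 (fun m => ⟨m, le_rfl, ?_⟩)
      exact (hΘ m (d m) (hB m)).2.2.2.1
    · rw [decide_eq_false (by omega)]
      exact hc1 11 i false 0 (fun m _ β hβ => (hmid m β hβ).t11 i hi)
  · intro i
    rcases Nat.eq_zero_or_pos i with rfl | hi
    · rw [decide_eq_true rfl]
      refine hc2 12 0 (fun m => ⟨m, le_rfl, ?_⟩)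
      exact (hΘ m (d m) (hB m)).2.2.2.2
    · rw [decide_eq_false (by omega)]
      exact hc1 12 i false 0 (fun m _ β hβ => (hmid m β hβ).t12 i hi)
  · intro i
    exact hc1 13 i false 0 (fun m _ β hβ => (hmid m β hβ).t13 i)
  · refine stage1_run_forall_add (M2 e a) (fun d => out2 d.q = none) _ _ _ ?_ ?_
    · intro b hb
      have hb0 : b = 0 := Order.lt_one_iff.1 hb
      rw [hb0, run_zero]
      rfl
    · intro b hb
      rw [hrun1]
      obtain ⟨m, β, hβ, hr⟩ := hc3 b hb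
      rw [hd0] at hr
      rw [hr]
      exact ((hΘ m (d m) (hB m)).2.2.1 β hβ).1

end A2

end Pool.Agent.Helper78.ITTM
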