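import Pool.Agent.Helper78.ITTM.Inv
import Pool.Agent.Helper78.ITTM.Sweep

/-! Stage 2: the cleaning pass and the copy pass. -/

namespace Pool.Agent.Helper78.ITTM

open Ordinal

/-- A first step followed by a sweep to the right. -/
theorem passG {κ Q : Type} (M : Mach κ Q) (s : Q) (f : (κ → Bool) → κ → Bool)
    (hf : ∀ v, M.tr s v = (s, f v, true)) (c : Cfg κ Q) (hh : c.h = 0) (w : κ → Bool)
    (h1 : M.tr c.q c.rd = (s, w, true)) :
    M.run c ω = ⟨M.lim, 0, fun k i => if i = 0 then w k else f (fun k' => c.T k' i) k⟩ ∧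
    ∀ N : ℕ, M.run c ((N + 1 : ℕ) : Ordinal.{0}) = ⟨s, N + 1, fun k i =>
      if i = 0 then w k else if i < N + 1 then f (fun k' => c.T k' i) k else c.T k i⟩ := by
  have hs : M.step c = ⟨s, 1, fun k => Function.update (c.T k) 0 (w k)⟩ := by
    simp [Mach.step, h1, hh]
  have h1r : M.run c 1 = M.step c := by
    have := run_succ M c 0
    rwa [zero_add, run_zero] at this
  have hr : ∀ b : Ordinal.{0}, M.run c (1 + b) = M.run (M.step c) b := by
    intro b
    rw [run_add, h1r]
  refine ⟨?_, ?_⟩
  · have h := hr ω
    rw [Ordinal.one_add_omega0] at h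
    rw [h, hs, sweep_omega M s f hf _ rfl]
    congr 1
    funext k i
    by_cases hi : i = 0
    · subst hi; simp
    · have hi1 : 1 ≤ i := by omega
      simp [hi1, hi]
  · intro N
    have h := hr (N : Ordinal.{0})
    have hc : ((N + 1 : ℕ) : Ordinal.{0}) = 1 + (N : Ordinal.{0}) := by
      rw [add_comm N 1, Nat.cast_add, Nat.cast_one]
    rw [hc, h, hs, sweep_nat M s f hf _ rfl N]
    simp only [add_comm 1 N]
    congr 1
    funext k i
    by_cases hi : i = 0
    · subst hi; simp
    · have hi1 : 1 ≤ i := by omega
      simp [hi1, hi]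

theorem clrN_ne (v : V14) (k : Fin 14) (h2 : k ≠ 7) (h3 : k ≠ 8) (h4 : k ≠ 9) :
    clrN v k = v k := by
  simp [clrN, put, Function.update_of_ne, h2, h3, h4]

theorem clrN_mem (v : V14) (k : Fin 14) (h2 : 7 ≤ k) (h4 : k ≤ 9) : clrN v k = false := by
  have h : k = 7 ∨ k = 8 ∨ k = 9 := by
    revert k; decide
  rcases h with rfl | rfl | rfl <;> simp [clrN, put]

section A2
variable (e : Prog) (a : List Bool) (x y : R2) (n : ℕ)

theorem clean2_pass (W : R2) (c : Cfg (Fin 14) (S2 e.k a.length)) (hq : c.q = S2.lim)
    (hh : c.h = 0) (hT : St2 x y n W c.T) (hf : Fl true true c.T) (hW : W 0 = false) :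
    (∃ T, (M2 e a).run c ω = ⟨S2.lim, 0, T⟩ ∧ St2 x y n W T ∧ Fl true false T ∧
      ∀ k : Fin 14, 7 ≤ k → k ≤ 9 → ∀ i, T k i = false) ∧
    ∀ b, b < ω → out2 ((M2 e a).run c b).q = none ∧ St2 x y n W ((M2 e a).run c b).T := by
  have htr : ∀ v, (M2 e a).tr S2.clean2 v = (S2.clean2, clrN v, true) := fun v => rfl
  have h13 : c.rd 13 = true := by simp [Cfg.rd, hh, hT.t13]
  have h11 : c.rd 11 = true := by simp only [Cfg.rd, hh]; exact hf.1
  have h12 : c.rd 12 = true := by simp only [Cfg.rd, hh]; exact hf.2
  have h6 : c.rd 6 = false := by simp only [Cfg.rd, hh, hT.t6]; exact hW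
  have h1 : (M2 e a).tr c.q c.rd = (S2.clean2, clrN (put c.rd 12 false), true) := by
    rw [hq]
    simp [M2, tr2, h13, h11, h12, h6]
  obtain ⟨hω, hN⟩ := passG (M2 e a) S2.clean2 clrN htr c hh _ h1
  -- the first cell
  have hw : ∀ k : Fin 14, k ≠ 7 → k ≠ 8 → k ≠ 9 → k ≠ 12 →
      clrN (put c.rd 12 false) k = c.T k 0 := by
    intro k h7 h8 h9 h12
    rw [clrN_ne _ k h7 h8 h9, put, Function.update_of_ne h12]
    simp [Cfg.rd, hh]
  have hw12 : clrN (put c.rd 12 false) 12 = false := by
    rw [clrN_ne _ 12 (by decide) (by decide) (by decide)]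
    simp [put]
  have key : ∀ T' : Fin 14 → ℕ → Bool,
      (∀ k : Fin 14, k ≠ 7 → k ≠ 8 → k ≠ 9 → k ≠ 12 → ∀ i, T' k i = c.T k i) →
      (∀ i, 0 < i → T' 12 i = c.T 12 i) → St2 x y n W T' := by
    intro T' h h'
    constructor
    · funext i; rw [h 0 (by decide) (by decide) (by decide) (by decide), hT.t0]
    · funext i; rw [h 1 (by decide) (by decide) (by decide) (by decide), hT.t1]
    · funext i; rw [h 5 (by decide) (by decide) (by decide) (by decide), hT.t5]
    · funext i; rw [h 6 (by decide) (by decide) (by decide) (by decide), hT.t6]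
    · intro i; rw [h 10 (by decide) (by decide) (by decide) (by decide), hT.t10]
    · intro i hi; rw [h 11 (by decide) (by decide) (by decide) (by decide), hT.t11 i hi]
    · intro i hi; rw [h' i hi, hT.t12 i hi]
    · intro i; rw [h 13 (by decide) (by decide) (by decide) (by decide), hT.t13]
  refine ⟨?_, ?_⟩
  · rw [hω]
    refine ⟨_, rfl, ?_, ?_, ?_⟩
    · apply key
      · intro k h7 h8 h9 h12 i
        by_cases hi : i = 0
        · subst hi; simp only [if_true]; exact hw k h7 h8 h9 h12
        · simp only [if_neg hi]; exact clrN_ne _ k h7 h8 h9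
      · intro i hi
        have hi0 : i ≠ 0 := by omega
        simp only [if_neg hi0]
        exact clrN_ne _ 12 (by decide) (by decide) (by decide)
    · refine ⟨?_, ?_⟩
      · simp only [if_true]
        rw [hw 11 (by decide) (by decide) (by decide) (by decide)]
        exact hf.1
      · simp only [if_true]
        exact hw12
    · intro k h7 h9 i
      by_cases hi : i = 0
      · simp only [if_pos hi]; exact clrN_mem _ k h7 h9
      · simp only [if_neg hi]; exact clrN_mem _ k h7 h9
  · intro b hb
    obtain ⟨N, rfl⟩ := Ordinal.lt_omega0.1 hb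
    cases N with
    | zero =>
      rw [Nat.cast_zero, run_zero, hq]
      exact ⟨rfl, hT⟩
    | succ N =>
      rw [hN N]
      refine ⟨rfl, ?_⟩
      apply key
      · intro k h7 h8 h9 h12 i
        by_cases hi : i = 0
        · subst hi; simp only [if_true]; exact hw k h7 h8 h9 h12
        · simp only [if_neg hi]
          by_cases hi' : i < N + 1
          · simp only [if_pos hi']; exact clrN_ne _ k h7 h8 h9
          · simp only [if_neg hi']
      · intro i hi
        have hi0 : i ≠ 0 := by omega
        simp only [if_neg hi0]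
        by_cases hi' : i < N + 1
        · simp only [if_pos hi']; exact clrN_ne _ 12 (by decide) (by decide) (by decide)
        · simp only [if_neg hi']

theorem copy_pass (W N : R2) (c : Cfg (Fin 14) (S2 e.k a.length)) (hq : c.q = S2.lim)
    (hh : c.h = 0) (hT : St2 x y n W c.T) (hf : Fl false true c.T) (hN : c.T 7 = N) :
    (∃ T, (M2 e a).run c ω = ⟨S2.lim, 0, T⟩ ∧ St2 x y n N T ∧ Fl true true T) ∧
    ∀ b, b < ω → out2 ((M2 e a).run c b).q = none ∧
      ∃ V, St2 x y n V ((M2 e a).run c b).T ∧ ∀ i, V i = W i ∨ V i = N i := by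
  have htr : ∀ v, (M2 e a).tr S2.copy v = (S2.copy, (fun v : V14 => put v 6 (v 7)) v, true) :=
    fun v => rfl
  have h13 : c.rd 13 = true := by simp [Cfg.rd, hh, hT.t13]
  have h11 : c.rd 11 = false := by simp only [Cfg.rd, hh]; exact hf.1
  have h7 : c.rd 7 = N 0 := by simp only [Cfg.rd, hh, hN]
  have h1 : (M2 e a).tr c.q c.rd = (S2.copy, put (put c.rd 11 true) 6 (c.rd 7), true) := by
    rw [hq]
    simp [M2, tr2, h13, h11]
  obtain ⟨hω, hNN⟩ := passG (M2 e a) S2.copy (fun v : V14 => put v 6 (v 7)) htr c hh _ h1
  have hw : ∀ k : Fin 14, k ≠ 6 → k ≠ 11 →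
      put (put c.rd 11 true) 6 (c.rd 7) k = c.T k 0 := by
    intro k h6 h11
    rw [put, Function.update_of_ne h6, put, Function.update_of_ne h11]
    simp [Cfg.rd, hh]
  have hw6 : put (put c.rd 11 true) 6 (c.rd 7) 6 = N 0 := by
    simp [put, h7]
  have hw11 : put (put c.rd 11 true) 6 (c.rd 7) 11 = true := by
    simp [put]
  have key : ∀ (T' : Fin 14 → ℕ → Bool) (V : R2), T' 6 = V →
      (∀ k : Fin 14, k ≠ 6 → k ≠ 11 → ∀ i, T' k i = c.T k i) →
      (∀ i, 0 < i → T' 11 i = c.T 11 i) → St2 x y n V T' := by
    intro T' V hV h h'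
    constructor
    · funext i; rw [h 0 (by decide) (by decide), hT.t0]
    · funext i; rw [h 1 (by decide) (by decide), hT.t1]
    · funext i; rw [h 5 (by decide) (by decide), hT.t5]
    · exact hV
    · intro i; rw [h 10 (by decide) (by decide), hT.t10]
    · intro i hi; rw [h' i hi, hT.t11 i hi]
    · intro i hi; rw [h 12 (by decide) (by decide), hT.t12 i hi]
    · intro i; rw [h 13 (by decide) (by decide), hT.t13]
  refine ⟨?_, ?_⟩
  · rw [hω]
    refine ⟨_, rfl, ?_, ?_, ?_⟩
    · apply key
      · funext i
        by_cases hi : i = 0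
        · subst hi; simp only [if_true]; exact hw6
        · simp only [if_neg hi]
          simp [put, hN]
      · intro k h6 h11 i
        by_cases hi : i = 0
        · subst hi; simp only [if_true]; exact hw k h6 h11
        · simp only [if_neg hi]
          rw [put, Function.update_of_ne h6]
      · intro i hi
        have hi0 : i ≠ 0 := by omega
        simp only [if_neg hi0]
        rw [put, Function.update_of_ne (by decide)]
    · simp only [if_true]; exact hw11
    · simp only [if_true]
      rw [hw 12 (by decide) (by decide)]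
      exact hf.2
  · intro b hb
    obtain ⟨K, rfl⟩ := Ordinal.lt_omega0.1 hb
    cases K with
    | zero =>
      rw [Nat.cast_zero, run_zero, hq]
      exact ⟨rfl, W, hT, fun i => Or.inl rfl⟩
    | succ K =>
      rw [hNN K]
      refine ⟨rfl, fun i => if i < K + 1 then N i else W i, ?_, ?_⟩
      · apply key
        · funext i
          by_cases hi : i = 0
          · subst hi
            simp only [if_true, Nat.zero_lt_succ]; exact hw6
          · simp only [if_neg hi]
            by_cases hi' : i < K + 1
            · simp only [if_pos hi']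
              simp [put, hN]
            · simp only [if_neg hi', hT.t6]
        · intro k h6 h11 i
          by_cases hi : i = 0
          · subst hi; simp only [if_true]; exact hw k h6 h11
          · simp only [if_neg hi]
            by_cases hi' : i < K + 1
            · simp only [if_pos hi']
              rw [put, Function.update_of_ne h6]
            · simp only [if_neg hi']
        · intro i hi
          have hi0 : i ≠ 0 := by omega
          simp only [if_neg hi0]
          by_cases hi' : i < K + 1
          · simp only [if_pos hi']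
            rw [put, Function.update_of_ne (by decide)]
          · simp only [if_neg hi']
      · intro i
        by_cases hi' : i < K + 1
        · right; simp only [if_pos hi']
        · left; simp only [if_neg hi']

end A2

end Pool.Agent.Helper78.ITTM
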