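import Pool.Agent.Helper78.ITTM.Micro
import Pool.Agent.Helper78.ITTM.Run2

/-! The compute pass of stage 2: omega many micro-instructions compute the operator. -/

namespace Pool.Agent.Helper78.ITTM

open Ordinal

section A2
variable (e : Prog) (a : List Bool) (x y : R2) (n : ℕ)


theorem compute_first (W : R2) (c : Cfg (Fin 14) (S2 e.k a.length)) (hq : c.q = S2.lim)
    (hh : c.h = 0) (hT : St2 x y n W c.T) (hf : Fl true false c.T)
    (h0 : ∀ k : Fin 14, 7 ≤ k → k ≤ 9 → ∀ i, c.T k i = false) :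
    Mic e a x y n W 0 ((M2 e a).step c) := by
  obtain ⟨f1, f2⟩ := hf
  have h13 : c.T 13 0 = true := by rw [hT.t13 0]; rfl
  have hrd : (M2 e a).tr c.q c.rd = (S2.fetch true,
      put (put (put (put c.rd 11 false) 12 true) 8 true) 9 true, false) := by
    rw [hq]
    have e13 : c.rd 13 = true := by unfold Cfg.rd; rw [hh]; exact h13
    have e11 : c.rd 11 = true := by unfold Cfg.rd; rw [hh]; exact f1
    have e12 : c.rd 12 = false := by unfold Cfg.rd; rw [hh]; exact f2
    show tr2 e a S2.lim c.rd = _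
    simp [tr2, e13, e11, e12]
  have key : ∀ k i, ((M2 e a).step c).T k i =
      if i = 0 then (put (put (put (put c.rd 11 false) 12 true) 8 true) 9 true) k
      else c.T k i := by
    intro k i
    unfold Mach.step
    simp only [hrd, hh, Function.update_apply]
  have hz : ∀ k : Fin 14, k ≠ 8 → k ≠ 9 → k ≠ 11 → k ≠ 12 → ∀ i,
      ((M2 e a).step c).T k i = c.T k i := by
    intro k k8 k9 k11 k12 i
    rw [key]
    split_ifs with hi
    · subst hi
      simp [put, k8, k9, k11, k12, Cfg.rd, hh]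
    · rfl
  refine ⟨?_, ?_, ?_, ?_, ?_, ?_, ?_⟩
  · unfold Mach.step
    simp only [hrd]
    rfl
  · unfold Mach.step
    simp only [hrd, hh]
    rfl
  · refine ⟨?_, ?_, ?_, ?_, ?_, ?_, ?_, ?_⟩
    · funext i; rw [hz 0 (by decide) (by decide) (by decide) (by decide), hT.t0]
    · funext i; rw [hz 1 (by decide) (by decide) (by decide) (by decide), hT.t1]
    · funext i; rw [hz 5 (by decide) (by decide) (by decide) (by decide), hT.t5]
    · funext i; rw [hz 6 (by decide) (by decide) (by decide) (by decide), hT.t6]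
    · intro i; rw [hz 10 (by decide) (by decide) (by decide) (by decide), hT.t10]
    · intro i hi
      rw [key, if_neg (by omega), hT.t11 i hi]
    · intro i hi
      rw [key, if_neg (by omega), hT.t12 i hi]
    · intro i; rw [hz 13 (by decide) (by decide) (by decide) (by decide), hT.t13]
  · constructor
    · rw [key, if_pos rfl]; simp [put]
    · rw [key, if_pos rfl]; simp [put]
  · intro i
    rw [hz 7 (by decide) (by decide) (by decide) (by decide), h0 7 (by decide) (by decide)]
    simp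
  · intro i
    rw [key]
    split_ifs with hi
    · simp [put, hi]
    · rw [h0 8 (by decide) (by decide)]; simp [hi]
  · intro i
    rw [key]
    have : (sem (ops y) (trk W x y (inp n)) 0).1 = 0 := rfl
    rw [this]
    split_ifs with hi
    · simp [put, hi]
    · rw [h0 9 (by decide) (by decide)]; simp [hi]

theorem compute_pass (W : R2) (c : Cfg (Fin 14) (S2 e.k a.length)) (hq : c.q = S2.lim)
    (hh : c.h = 0) (hT : St2 x y n W c.T) (hf : Fl true false c.T)
    (h0 : ∀ k : Fin 14, 7 ≤ k → k ≤ 9 → ∀ i, c.T k i = false) :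
    (∃ T, (M2 e a).run c ω = ⟨S2.lim, 0, T⟩ ∧ St2 x y n W T ∧ Fl false true T ∧
      T 7 = Psi (ops y) (trk W x y (inp n))) ∧
    ∀ b, b < ω → out2 ((M2 e a).run c b).q = none ∧ St2 x y n W ((M2 e a).run c b).T := by
  classical
  have hM0 := compute_first e a x y n W c hq hh hT hf h0
  choose N hN hNM hNt using (fun (j : ℕ) (c : Cfg (Fin 14) (S2 e.k a.length))
    (hc : Mic e a x y n W j c) => micro e a x y n W j c hc)
  -- the sequence of configurations
  let E : (j : ℕ) → {c : Cfg (Fin 14) (S2 e.k a.length) // Mic e a x y n W j c} := fun j =>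
    Nat.rec ⟨(M2 e a).step c, hM0⟩
      (fun j p => ⟨(M2 e a).run p.1 (N j p.1 p.2 : Ordinal.{0}), hNM j p.1 p.2⟩) j
  have hE : ∀ j, (E (j + 1)).1 =
      (M2 e a).run (E j).1 (N j (E j).1 (E j).2 : Ordinal.{0}) := fun j => rfl
  let d : ℕ → Cfg (Fin 14) (S2 e.k a.length) := fun m => Nat.casesOn m c (fun j => (E j).1)
  let θ : ℕ → ℕ := fun m => Nat.casesOn m 1 (fun j => N j (E j).1 (E j).2)
  have hd0 : d 0 = c := rfl
  have hdS : ∀ j, d (j + 1) = (E j).1 := fun j => rfl
  have hθ0 : θ 0 = 1 := rfl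
  have hθS : ∀ j, θ (j + 1) = N j (E j).1 (E j).2 := fun j => rfl
  have hpos : ∀ m, 0 < θ m := by
    intro m
    cases m with
    | zero => rw [hθ0]; exact Nat.one_pos
    | succ j => rw [hθS]; exact hN j _ _
  have hstep : ∀ m, (M2 e a).run (d m) (Nat.cast (θ m) : Ordinal.{0}) = d (m + 1) := by
    intro m
    cases m with
    | zero =>
      rw [hθ0, hd0, run_nat]
      rfl
    | succ j => rw [hθS, hdS, hdS, hE]
  obtain ⟨c1, c2, c3, c4, c5⟩ := chain_nat (M2 e a) d θ hpos hstep
  rw [hd0] at c1 c2 c3 c4 c5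
  have seg : ∀ m, 1 ≤ m → ∀ k, k < θ m →
      out2 ((M2 e a).run (d m) (k : Ordinal.{0})).q = none ∧
      St2 x y n W ((M2 e a).run (d m) (k : Ordinal.{0})).T ∧
      Fl false true ((M2 e a).run (d m) (k : Ordinal.{0})).T ∧
      ∀ i, (((M2 e a).run (d m) (k : Ordinal.{0})).T 7 i = (d m).T 7 i ∨
        ((M2 e a).run (d m) (k : Ordinal.{0})).T 7 i = (d (m + 1)).T 7 i) := by
    intro m hm k hk
    obtain ⟨j, rfl⟩ : ∃ j, m = j + 1 := ⟨m - 1, by omega⟩
    rw [hθS] at hk
    have := hNt j (E j).1 (E j).2 k hk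
    rw [hdS, hdS, hE]
    exact this
  have mic : ∀ m, 1 ≤ m → Mic e a x y n W (m - 1) (d m) := by
    intro m hm
    obtain ⟨j, rfl⟩ : ∃ j, m = j + 1 := ⟨m - 1, by omega⟩
    rw [hdS]
    exact (E j).2
  have cst : ∀ k j v, (∀ T : Fin 14 → ℕ → Bool, St2 x y n W T → Fl false true T → T k j = v) →
      ((M2 e a).run c ω).T k j = v := by
    intro k j v hv
    apply c3 k j v 1
    intro m hm l hl
    obtain ⟨-, s2, s3, -⟩ := seg m hm l hl
    exact hv _ s2 s3
  refine ⟨⟨((M2 e a).run c ω).T, ?_, ?_, ?_, ?_⟩, ?_⟩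
  · cases hr : (M2 e a).run c ω with
    | mk q h T =>
      rw [hr] at c1 c2
      simp only at c1 c2
      rw [c1, c2]
      rfl
  · refine ⟨?_, ?_, ?_, ?_, ?_, ?_, ?_, ?_⟩
    · funext j; exact cst 0 j _ (fun T h1 _ => by rw [h1.t0])
    · funext j; exact cst 1 j _ (fun T h1 _ => by rw [h1.t1])
    · funext j; exact cst 5 j _ (fun T h1 _ => by rw [h1.t5])
    · funext j; exact cst 6 j _ (fun T h1 _ => by rw [h1.t6])
    · intro j; exact cst 10 j _ (fun T h1 _ => by rw [h1.t10])
    · intro j hj; exact cst 11 j _ (fun T h1 _ => by rw [h1.t11 j hj])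
    · intro j hj; exact cst 12 j _ (fun T h1 _ => by rw [h1.t12 j hj])
    · intro j; exact cst 13 j _ (fun T h1 _ => by rw [h1.t13])
  · exact ⟨cst 11 0 _ (fun T _ h2 => h2.1), cst 12 0 _ (fun T _ h2 => h2.2)⟩
  · funext i
    by_cases hp : ∃ j, ops y j = Op.emit ∧ sem (ops y) (trk W x y (inp n)) j = (i, true)
    · have : Psi (ops y) (trk W x y (inp n)) i = true := by
        unfold Psi; exact decide_eq_true hp
      rw [this]
      obtain ⟨j, j1, j2⟩ := hp
      apply c3 7 i true (j + 2)
      intro m hm l hl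
      have m1 : (d m).T 7 i = true :=
        ((mic m (by omega)).t7 i).2 ⟨j, by omega, j1, j2⟩
      have m2 : (d (m + 1)).T 7 i = true :=
        ((mic (m + 1) (by omega)).t7 i).2 ⟨j, by omega, j1, j2⟩
      obtain ⟨-, -, -, s4⟩ := seg m (by omega) l hl
      rcases s4 i with h | h
      · rw [h, m1]
      · rw [h, m2]
    · have : Psi (ops y) (trk W x y (inp n)) i = false := by
        unfold Psi; exact decide_eq_false hp
      rw [this]
      apply c3 7 i false 1
      intro m hm l hl
      have m1 : (d m).T 7 i = false := by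
        rw [← Bool.not_eq_true]
        intro hc
        obtain ⟨j, -, h1, h2⟩ := ((mic m (by omega)).t7 i).1 hc
        exact hp ⟨j, h1, h2⟩
      have m2 : (d (m + 1)).T 7 i = false := by
        rw [← Bool.not_eq_true]
        intro hc
        obtain ⟨j, -, h1, h2⟩ := ((mic (m + 1) (by omega)).t7 i).1 hc
        exact hp ⟨j, h1, h2⟩
      obtain ⟨-, -, -, s4⟩ := seg m (by omega) l hl
      rcases s4 i with h | h
      · rw [h, m1]
      · rw [h, m2]
  · intro b hb
    obtain ⟨m, k, hk, hr⟩ := c5 b hb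
    rw [hr]
    cases m with
    | zero =>
      have : k = 0 := by rw [hθ0] at hk; omega
      subst this
      rw [hd0, Nat.cast_zero, run_zero, hq]
      exact ⟨rfl, hT⟩
    | succ j =>
      obtain ⟨s1, s2, -, -⟩ := seg (j + 1) (by omega) k hk
      exact ⟨s1, s2⟩

end A2

end Pool.Agent.Helper78.ITTM
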