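import Pool.Agent.Helper78.ITTM.Inv
import Pool.Agent.Helper78.ITTM.Run
import Pool.Agent.Helper78.ITTM.Run2
import Pool.Agent.Helper78.ITTM.Clean2
import Pool.Agent.Helper78.ITTM.Compute

/-! Stage 2 of the abstract machine: the iteration in time `ω * 3 * t`. -/

namespace Pool.Agent.Helper78.ITTM

open Ordinal

theorem lsup_const2 {a : Ordinal.{0}} (ha : 0 < a) {f : (b : Ordinal.{0}) → b < a → Bool}
    {v : Bool} (h : ∀ b hb, f b hb = v) : lsup a f = v := by
  cases v with
  | true =>
    rw [lsup_eq_true]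
    exact fun b hb => ⟨b, hb, le_rfl, h b hb⟩
  | false =>
    rw [lsup_eq_false]
    exact ⟨0, ha, fun c hc _ => h c hc⟩

section
variable (e : Prog) (a : List Bool) (x y : R2) (n : ℕ)

/-- one step of the iteration takes time `ω * 3` -/
theorem stage2_block (W : R2) (c : Cfg (Fin 14) (S2 e.k a.length)) (hq : c.q = S2.lim)
    (hh : c.h = 0) (hT : St2 x y n W c.T) (hf : Fl true true c.T) (hW : W 0 = false) :
    (∃ T, (M2 e a).run c (ω * 3) = ⟨S2.lim, 0, T⟩ ∧
      St2 x y n (Psi (ops y) (trk W x y (inp n))) T ∧ Fl true true T) ∧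
    ∀ b, b < ω * 3 → out2 ((M2 e a).run c b).q = none ∧
      ∃ V, St2 x y n V ((M2 e a).run c b).T ∧
        ∀ i, V i = W i ∨ V i = Psi (ops y) (trk W x y (inp n)) i := by
  obtain ⟨⟨T1, h1, h1T, h1f, h10⟩, h1b⟩ := clean2_pass e a x y n W c hq hh hT hf hW
  obtain ⟨⟨T2, h2, h2T, h2f, h20⟩, h2b⟩ := compute_pass e a x y n W
    ⟨S2.lim, 0, T1⟩ rfl rfl h1T h1f h10
  obtain ⟨⟨T3, h3, h3T, h3f⟩, h3b⟩ := copy_pass e a x y n W _
    ⟨S2.lim, 0, T2⟩ rfl rfl h2T h2f h20
  have e3 : ω * 3 = ω + (ω + ω) := by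
    have h : (3 : Ordinal.{0}) = 1 + (1 + 1) := by norm_num
    rw [h, mul_add, mul_add, mul_one]
  have k1 : ∀ d, (M2 e a).run c (ω + d) = (M2 e a).run ⟨S2.lim, 0, T1⟩ d := by
    intro d
    rw [run_add, h1]
  have k2 : ∀ d, (M2 e a).run c (ω + (ω + d)) = (M2 e a).run ⟨S2.lim, 0, T2⟩ d := by
    intro d
    rw [k1, run_add, h2]
  refine ⟨⟨T3, ?_, h3T, h3f⟩, fun b hb => ?_⟩
  · rw [e3, k2, h3]
  · rcases lt_or_ge b ω with hb1 | hb1
    · exact ⟨(h1b b hb1).1, W, (h1b b hb1).2, fun i => Or.inl rfl⟩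
    · obtain ⟨d, rfl⟩ : ∃ d, b = ω + d := ⟨b - ω, (Ordinal.add_sub_cancel_of_le hb1).symm⟩
      rw [e3] at hb
      have hd : d < ω + ω := (add_lt_add_iff_left ω).mp hb
      rcases lt_or_ge d ω with hd1 | hd1
      · rw [k1]
        exact ⟨(h2b d hd1).1, W, (h2b d hd1).2, fun i => Or.inl rfl⟩
      · obtain ⟨d', rfl⟩ : ∃ d', d = ω + d' := ⟨d - ω, (Ordinal.add_sub_cancel_of_le hd1).symm⟩
        have hd' : d' < ω := (add_lt_add_iff_left ω).mp hd
        rw [k2]
        obtain ⟨h4, V, h5, h6⟩ := h3b d' hd'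
        exact ⟨h4, V, h5, h6⟩

theorem stage2 (c : Cfg (Fin 14) (S2 e.k a.length)) (hq : c.q = S2.lim)
    (hh : c.h = 0) (hT : St2 x y n (pat a) c.T) (hf : Fl true true c.T) (t : Ordinal.{0})
    (ht : ∀ s, s < t → W2 a x y n s 0 = false) :
    (∃ T, (M2 e a).run c (ω * 3 * t) = ⟨S2.lim, 0, T⟩ ∧ St2 x y n (W2 a x y n t) T ∧
      Fl true true T) ∧
    ∀ b, b < ω * 3 * t → out2 ((M2 e a).run c b).q = none := by
  have hθ : 0 < ω * 3 := mul_pos omega0_pos (by norm_num)
  -- the statement at the multiples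
  have A : ∀ t : Ordinal.{0}, (∀ s, s < t → W2 a x y n s 0 = false) →
      ∃ T, (M2 e a).run c (ω * 3 * t) = ⟨S2.lim, 0, T⟩ ∧ St2 x y n (W2 a x y n t) T ∧
        Fl true true T := by
    intro t
    induction t using Ordinal.limitRecOn with
    | zero =>
      intro _
      refine ⟨c.T, ?_, ?_, hf⟩
      · rw [mul_zero, run_zero]
        cases c
        simp only at hq hh
        rw [hq, hh]
      · have : W2 a x y n 0 = pat a := iter_zero _ _
        rw [this]
        exact hT
    | add_one t ih =>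
      intro ht
      obtain ⟨T, h1, h2, h3⟩ := ih fun s hs => ht s (hs.trans (Order.lt_add_one_iff.mpr le_rfl))
      have h0 := ht t (Order.lt_add_one_iff.mpr le_rfl)
      obtain ⟨⟨T', h4, h5, h6⟩, -⟩ := stage2_block e a x y n _ ⟨S2.lim, 0, T⟩ rfl rfl h2 h3 h0
      refine ⟨T', ?_, ?_, h6⟩
      · rw [mul_add, mul_one, run_add, h1, h4]
      · have : W2 a x y n (t + 1) = Psi (ops y) (trk (W2 a x y n t) x y (inp n)) :=
          iter_succ _ _ _
        rw [this]
        exact h5
    | limit t hlim ih =>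
      intro ht
      have A' : ∀ s, s < t → ∃ T, (M2 e a).run c (ω * 3 * s) = ⟨S2.lim, 0, T⟩ ∧
          St2 x y n (W2 a x y n s) T ∧ Fl true true T :=
        fun s hs => ih s hs fun r hr => ht r (hr.trans hs)
      have B : ∀ s, s < t → ∀ d, d < ω * 3 → out2 ((M2 e a).run c (ω * 3 * s + d)).q = none ∧
          ∃ V, St2 x y n V ((M2 e a).run c (ω * 3 * s + d)).T ∧
            ∀ i, V i = W2 a x y n s i ∨ V i = W2 a x y n (s + 1) i := by
        intro s hs d hd
        obtain ⟨T, h1, h2, h3⟩ := A' s hs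
        obtain ⟨-, h4⟩ := stage2_block e a x y n _ ⟨S2.lim, 0, T⟩ rfl rfl h2 h3 (ht s hs)
        rw [run_add, h1]
        have : W2 a x y n (s + 1) = Psi (ops y) (trk (W2 a x y n s) x y (inp n)) :=
          iter_succ _ _ _
        rw [this]
        exact h4 d hd
      have C : ∀ b, b < ω * 3 * t → ∃ V, St2 x y n V ((M2 e a).run c b).T := by
        intro b hb
        have h1 : b / (ω * 3) < t := (Ordinal.lt_mul_iff_div_lt hθ.ne').mp hb
        obtain ⟨-, V, hV, -⟩ := B _ h1 (b % (ω * 3)) (Ordinal.mod_lt b hθ.ne')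
        rw [Ordinal.div_add_mod] at hV
        exact ⟨V, hV⟩
      have hpos : 0 < ω * 3 * t := mul_pos hθ hlim.bot_lt
      have hlim' : Order.IsSuccLimit (ω * 3 * t) := Ordinal.isSuccLimit_mul_right hθ hlim
      refine ⟨_, run_lim _ _ hlim', ?_, ?_⟩
      · constructor
        · funext j
          exact lsup_const2 hpos fun b hb => by
            obtain ⟨V, hV⟩ := C b hb
            rw [hV.t0]
        · funext j
          exact lsup_const2 hpos fun b hb => by
            obtain ⟨V, hV⟩ := C b hb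
            rw [hV.t1]
        · funext j
          exact lsup_const2 hpos fun b hb => by
            obtain ⟨V, hV⟩ := C b hb
            rw [hV.t5]
        · funext j
          have e1 : W2 a x y n t j = lsup t (fun b _ => W2 a x y n b j) :=
            congrFun (iter_lim _ _ hlim) j
          rw [e1]
          refine lsup_dilate hθ hlim (fun b => ((M2 e a).run c b).T 6 j)
            (fun b => W2 a x y n b j) ?_ ?_
          · intro b hb d hd h1
            obtain ⟨-, V, hV, h2⟩ := B b hb d hd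
            have h3 : ((M2 e a).run c (ω * 3 * b + d)).T 6 j = V j := by rw [hV.t6]
            rw [h3] at h1
            rcases h2 j with h2 | h2
            · exact Or.inl (h2.symm.trans h1)
            · exact Or.inr (h2.symm.trans h1)
          · intro b hb h1
            obtain ⟨T, h2, h3, -⟩ := A' b hb
            show ((M2 e a).run c (ω * 3 * b)).T 6 j = true
            rw [h2]
            show T 6 j = true
            rw [h3.t6]
            exact h1
        · intro j
          exact lsup_const2 hpos fun b hb => by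
            obtain ⟨V, hV⟩ := C b hb
            rw [hV.t10]
        · intro j hj
          exact lsup_const2 hpos fun b hb => by
            obtain ⟨V, hV⟩ := C b hb
            exact hV.t11 j hj
        · intro j hj
          exact lsup_const2 hpos fun b hb => by
            obtain ⟨V, hV⟩ := C b hb
            exact hV.t12 j hj
        · intro j
          exact lsup_const2 hpos fun b hb => by
            obtain ⟨V, hV⟩ := C b hb
            rw [hV.t13]
      · have key : ∀ b, b < ω * 3 * t → ∃ b', ∃ hb' : b' < ω * 3 * t, b ≤ b' ∧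
            Fl true true ((M2 e a).run c b').T := by
          intro b hb
          have h1 : b / (ω * 3) < t := (Ordinal.lt_mul_iff_div_lt hθ.ne').mp hb
          have h2 : b / (ω * 3) + 1 < t := hlim.succ_lt h1
          obtain ⟨T, h3, -, h4⟩ := A' _ h2
          refine ⟨ω * 3 * (b / (ω * 3) + 1), ?_, ?_, ?_⟩
          · exact (mul_lt_mul_iff_right₀ hθ).mpr h2
          · exact (Ordinal.lt_mul_succ_div b hθ.ne').le
          · rw [h3]
            exact h4
        constructor
        · show lsup _ _ = true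
          rw [lsup_eq_true]
          intro b hb
          obtain ⟨b', hb', h1, h2⟩ := key b hb
          exact ⟨b', hb', h1, h2.1⟩
        · show lsup _ _ = true
          rw [lsup_eq_true]
          intro b hb
          obtain ⟨b', hb', h1, h2⟩ := key b hb
          exact ⟨b', hb', h1, h2.2⟩
  refine ⟨A t ht, fun b hb => ?_⟩
  have h1 : b / (ω * 3) < t := (Ordinal.lt_mul_iff_div_lt hθ.ne').mp hb
  obtain ⟨T, h2, h3, h4⟩ := A _ fun s hs => ht s (hs.trans h1)
  obtain ⟨-, h5⟩ := stage2_block e a x y n _ ⟨S2.lim, 0, T⟩ rfl rfl h3 h4 (ht _ h1)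
  have h6 := (h5 _ (Ordinal.mod_lt b hθ.ne')).1
  rw [← h2, ← run_add, Ordinal.div_add_mod] at h6
  exact h6

end

end Pool.Agent.Helper78.ITTM
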