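import Pool.Agent.Helper78.ITTM.Prog1
import Pool.Agent.Helper78.ITTM.Run
import Pool.Agent.Helper78.ITTM.Official
import Pool.Agent.Helper78.ITTM.Stage1
import Pool.Agent.Helper78.ITTM.Init
import Pool.Agent.Helper78.ITTM.Stage2

/-! Every halting iteration of a coded open operator is realised by an official program. -/

namespace Pool.Agent.Helper78.ITTM

open Ordinal

section A2
variable (e : Prog) (a : List Bool) (x y : R2) (n : ℕ)

/-- The number of a constructor and its arguments. -/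
def S2.code {k L : ℕ} (r0 : Fin (k + 3)) (l0 : Fin (L + 1)) :
    S2 k L → Fin 18 × Fin (k + 3) × Bool × Fin (L + 1) × Fin 9 × (Fin 4 → Bool)
  | .lim => (0, r0, false, l0, 0, fun _ => false)
  | .clean1 => (1, r0, false, l0, 0, fun _ => false)
  | .wr => (2, r0, false, l0, 0, fun _ => false)
  | .backRun => (3, r0, false, l0, 0, fun _ => false)
  | .run q => (4, q, false, l0, 0, fun _ => false)
  | .st b => (5, r0, b, l0, 0, fun _ => false)
  | .mv => (6, r0, false, l0, 0, fun _ => false)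
  | .bk => (7, r0, false, l0, 0, fun _ => false)
  | .ini j => (8, r0, false, j, 0, fun _ => false)
  | .bini => (9, r0, false, l0, 0, fun _ => false)
  | .clean2 => (10, r0, false, l0, 0, fun _ => false)
  | .copy => (11, r0, false, l0, 0, fun _ => false)
  | .fetch r => (12, r0, r, l0, 0, fun _ => false)
  | .rdi r t v => (13, r0, r, l0, t, v)
  | .bk2 r v => (14, r0, r, l0, 0, v)
  | .go r v => (15, r0, r, l0, 0, v)
  | .pr r => (16, r0, r, l0, 0, fun _ => false)
  | .bkf r => (17, r0, r, l0, 0, fun _ => false)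
  | .o1 => (0, r0, true, l0, 0, fun _ => false)
  | .hlt b => (1, r0, b, l0, 1, fun _ => false)

theorem S2.code_injective {k L : ℕ} (r0 : Fin (k + 3)) (l0 : Fin (L + 1)) :
    Function.Injective (S2.code r0 l0) := by
  intro p q h
  cases p <;> cases q <;> simp_all [S2.code]

instance S2.finite (k L : ℕ) : Finite (S2 k L) :=
  Finite.of_injective _ (S2.code_injective (k := k) (L := L) ⟨0, by omega⟩ ⟨0, by omega⟩)

theorem lsc_official : ∃ P : Prog, ∀ (x y : R2) (n : ℕ) (b : Bool),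
    (∀ m, Halts e x m (y m).toNat) →
    (∃ t, W2 a x y n t 0 = true ∧ (∀ s, s < t → W2 a x y n s 0 = false) ∧
      W2 a x y n t 1 = b) →
    Halts P x n b.toNat := by
  obtain ⟨P, hP⟩ := official (M2 e a) out2 (by omega)
  refine ⟨P, ?_⟩
  rintro x y n b he ⟨t, ht0, hts, htb⟩
  apply hP
  obtain ⟨θ, T, hr1, h0, h1, h5, h6, h10, h11, h12, h13, hn1⟩ := stage1 e a x y n he
  obtain ⟨N, ⟨T', hr2, hS2, hF2⟩, hn2⟩ :=
    init_seg e a x y n ⟨S2.lim, 0, T⟩ rfl rfl h0 h1 h5 h6 h10 h11 h12 h13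
  obtain ⟨⟨T'', hr3, hS3, hF3⟩, hn3⟩ :=
    stage2 e a x y n ⟨S2.lim, 0, T'⟩ rfl rfl hS2 hF2 t hts
  obtain ⟨ho1, ho2, ho3, ho4⟩ :=
    out_seg e a x y n _ ⟨S2.lim, 0, T''⟩ rfl rfl hS3 hF3 ht0
  have e1 : ∀ s, (M2 e a).run (start2 (M2 e a) x n) (θ + s) =
      (M2 e a).run ⟨S2.lim, 0, T⟩ s := fun s => by rw [run_add, hr1]
  have e2 : ∀ s, (M2 e a).run ⟨S2.lim, 0, T⟩ (N + s) =
      (M2 e a).run ⟨S2.lim, 0, T'⟩ s := fun s => by rw [run_add, hr2]
  have e3 : ∀ s, (M2 e a).run ⟨S2.lim, 0, T'⟩ (ω * 3 * t + s) =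
      (M2 e a).run ⟨S2.lim, 0, T''⟩ s := fun s => by rw [run_add, hr3]
  refine ⟨θ + (N + (ω * 3 * t + 2)), ?_, ?_, ?_⟩
  · rw [e1, e2, e3, ho1, htb]
  · rw [e1, e2, e3, ho2]
  · intro s hs
    rcases lt_or_ge s θ with h | h
    · exact hn1 s h
    obtain ⟨s1, rfl⟩ := exists_add_of_le h
    rw [e1]
    have hs1 := (add_lt_add_iff_left θ).1 hs
    rcases lt_or_ge s1 (N : Ordinal.{0}) with h | h
    · obtain ⟨m, rfl⟩ := Ordinal.lt_omega0.1 (h.trans (Ordinal.natCast_lt_omega0 N))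
      exact hn2 m (by exact_mod_cast h)
    obtain ⟨s2, rfl⟩ := exists_add_of_le h
    rw [e2]
    have hs2 := (add_lt_add_iff_left _).1 hs1
    rcases lt_or_ge s2 (ω * 3 * t) with h | h
    · exact hn3 s2 h
    obtain ⟨s3, rfl⟩ := exists_add_of_le h
    rw [e3]
    have hs3 := (add_lt_add_iff_left _).1 hs2
    obtain ⟨m, rfl⟩ := Ordinal.lt_omega0.1 (hs3.trans (by exact_mod_cast Ordinal.natCast_lt_omega0 2))
    have hm : m < 2 := by exact_mod_cast hs3
    interval_cases m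
    · simpa using ho4
    · simpa using ho3

end A2

end Pool.Agent.Helper78.ITTM
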