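import Pool.Agent.Helper78.ITTM.Defs

/-! Part B: conditions, forcing tables, canonical enumerations and generic reals.  All
definitions are polymorphic in the domain `Ω` with a strict order `lt`; they are used for the
ordinals and for codes of well-orders on the natural numbers. -/

namespace Pool.Agent.Helper78.ITTM

universe u

/-- Indices. -/
inductive Idx
  | root (q : ℚ)
  | node (i : Idx) (s : List Bool)
deriving DecidableEq

/-- Label of an index. -/
def Idx.label : Idx → ℚ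
  | .root q => q
  | .node i _ => i.label

/-- The first `j` bits of a sequence. -/
def pre (r : ℕ → Bool) (j : ℕ) : List Bool := (List.range j).map r

/-- Raw conditions: domain, the part of the domain with value 1, promises. -/
@[ext] structure Cond (Ω : Type u) where
  dom : Finset Idx
  tr : Finset Idx
  F : Finset (Idx × Ω)

/-- Value of a condition at an index. -/
def Cond.val {Ω : Type u} (p : Cond Ω) (i : Idx) : Bool := decide (i ∈ p.tr)

/-- The empty condition. -/
def Cond.bot (Ω : Type u) : Cond Ω := ⟨∅, ∅, ∅⟩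

/-- Image of a condition. -/
noncomputable def Cond.map {Ω Ω' : Type*} (f : Ω → Ω') (p : Cond Ω) : Cond Ω' :=
  open Classical in ⟨p.dom, p.tr, p.F.image (fun z => (z.1, f z.2))⟩

section poly
variable {Ω : Type u}

/-- Validity: the promises do not contradict each other outside the domain. -/
def Valid (r : Ω → Idx → ℕ → Bool) (p : Cond Ω) : Prop :=
  p.tr ⊆ p.dom ∧ (∀ i g, (i, g) ∈ p.F → i ∈ p.dom) ∧
  ∀ i g g' j, (i, g) ∈ p.F → (i, g') ∈ p.F → j % 2 = (p.val i).toNat →
    pre (r g i) j = pre (r g' i) j → Idx.node i (pre (r g i) j) ∉ p.dom → r g i j = r g' i j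

/-- `Ext r q p`: the condition `q` extends `p`. -/
def Ext (r : Ω → Idx → ℕ → Bool) (q p : Cond Ω) : Prop :=
  p.dom ⊆ q.dom ∧ (∀ i, i ∈ p.dom → (i ∈ q.tr ↔ i ∈ p.tr)) ∧ p.F ⊆ q.F ∧
  ∀ i g j, (i, g) ∈ p.F → j % 2 = (p.val i).toNat → Idx.node i (pre (r g i) j) ∈ q.dom →
    Idx.node i (pre (r g i) j) ∉ p.dom →
    (Idx.node i (pre (r g i) j) ∈ q.tr ↔ r g i j = true)

/-- Conditions below `a`. -/
def Pt (lt : Ω → Ω → Prop) (r : Ω → Idx → ℕ → Bool) (a : Ω) (p : Cond Ω) : Prop :=
  Valid r p ∧ ∀ i g, (i, g) ∈ p.F → lt g a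

/-- Restriction of the promises to elements below `a`. -/
noncomputable def res (lt : Ω → Ω → Prop) (a : Ω) (p : Cond Ω) : Cond Ω :=
  open Classical in ⟨p.dom, p.tr, p.F.filter (fun z => lt z.2 a)⟩

def isMin (lt : Ω → Ω → Prop) (a : Ω) : Prop := ∀ b, ¬ lt b a

/-- `a` is the successor of `b`. -/
def isSucc (lt : Ω → Ω → Prop) (b a : Ω) : Prop := lt b a ∧ ∀ g, lt g a → g = b ∨ lt g b

def isLim (lt : Ω → Ω → Prop) (a : Ω) : Prop :=
  (∃ b, lt b a) ∧ ∀ b, lt b a → ∃ b', lt b b' ∧ lt b' a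

/-- `a` is the `lt`-least element with property `P`. -/
def isLeast (lt : Ω → Ω → Prop) (P : Ω → Prop) (a : Ω) : Prop := P a ∧ ∀ b, lt b a → ¬ P b

end poly

/-- Local operators on `M → Bool`, depending on a constant `c` and on `x : Idx → Bool`, with
blocks, and with cells telling that a run has halted and with which bit. -/
structure LocOp (M : Type) where
  S : M → Finset M
  X : M → Finset Idx
  phi : R2 → M → (M → Bool) → (Idx → Bool) → Bool
  loc : ∀ c m z z' x x', (∀ l, l ∈ S m → z l = z' l) → (∀ i, i ∈ X m → x i = x' i) →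
    phi c m z x = phi c m z' x'
  meas : ∀ m z x, Measurable (fun c => phi c m z x)
  blk : M → ℚ
  blkS : ∀ m l, l ∈ S m → blk l = blk m
  blkX : ∀ m i, i ∈ X m → i.label < blk m
  hc : ℚ → Prog → ℕ → M
  oc : ℚ → Prog → ℕ → M
  blkh : ∀ q e n, blk (hc q e n) = q
  blko : ∀ q e n, blk (oc q e n) = q

/-- The data attached to an element: table, enumeration, real. -/
structure Dat (M : Type) (Ω : Type u) where
  B : Bool → M → Cond Ω → Prop
  C : ℕ → Ω → Prop
  r : Idx → ℕ → Bool

section tables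
variable {Ω : Type u} {M : Type} (L : LocOp M) (c : R2) (lt : Ω → Ω → Prop) (f : Ω → Dat M Ω)

/-- The reals of a data function. -/
def rr (f : Ω → Dat M Ω) : Ω → Idx → ℕ → Bool := fun a => (f a).r

/-- `p` forces bit `m` to be 0 on `[α, a)`. -/
def Z0 (a : Ω) (m : M) (α : Ω) (p : Cond Ω) : Prop :=
  ∀ β, lt β a → ¬ lt β α → ∀ q, Pt lt (rr f) a q → Ext (rr f) q p → ¬ (f β).B true m (res lt β q)

/-- The table at `a` from the data below `a`. -/
noncomputable def Btab (a : Ω) (b : Bool) (m : M) (p : Cond Ω) : Prop :=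
  Pt lt (rr f) a p ∧
  ((isMin lt a ∧ b = false) ∨
   (∃ a', isSucc lt a' a ∧ ∃ t, t ⊆ L.S m ∧
      (∀ l, l ∈ L.S m → (f a').B (@decide (l ∈ t) (Classical.propDecidable _)) l (res lt a' p)) ∧
      L.X m ⊆ p.dom ∧
      L.phi c m (fun l => @decide (l ∈ t) (Classical.propDecidable _)) p.val = b) ∨
   (isLim lt a ∧ b = false ∧ ∃ α, lt α a ∧ Z0 lt f a m α p) ∨
   (isLim lt a ∧ b = true ∧ ∀ q, Pt lt (rr f) a q → Ext (rr f) q p →
      ¬ ∃ α, lt α a ∧ Z0 lt f a m α q))

/-- Some extension in `P_h` forces bit `m` to be 1 at some place in `[α, h)`. -/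
def gP (m : M) (α : Ω) (p : Cond Ω) (h : Ω) : Prop :=
  ∃ β, lt β h ∧ ¬ lt β α ∧ ∃ q, Pt lt (rr f) h q ∧ Ext (rr f) q p ∧
    (f β).B true m (res lt β q)

/-- Some extension in `P_h` forces bit `m` to be 0 on `[h, a)`. -/
def zP (a : Ω) (m : M) (p : Cond Ω) (h : Ω) : Prop :=
  ∃ q, Pt lt (rr f) h q ∧ Ext (rr f) q p ∧ Z0 lt f a m h q

/-- The set `V_a(α)`. -/
def V (a α h : Ω) : Prop :=
  lt h a ∧ ∃ m p, Pt lt (rr f) α p ∧
    ((∃ α', ¬ lt α α' ∧ isLeast lt (gP lt f m α' p) h) ∨ isLeast lt (zP lt f a m p) h)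

/-- Closure points. -/
def CP (a β : Ω) : Prop :=
  lt β a ∧ isLim lt β ∧ ∀ α h, lt α β → V lt f a α h → lt h β

/-- Good limit elements: the closure points are unbounded. -/
def SG (a : Ω) : Prop :=
  isLim lt a ∧ ∀ α, lt α a → ∃ β, lt α β ∧ CP lt f a β

/-- `β` is the least strict upper bound of `α` and `V_a(α)`. -/
def Hn (a α β : Ω) : Prop :=
  lt β a ∧ isLeast lt (fun β => lt α β ∧ ∀ h, V lt f a α h → lt h β) β

/-- The iteration of `Hn` from `α₀`. -/
def It (a α0 : Ω) : ℕ → Ω → Prop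
  | 0 => fun α => α = α0
  | k + 1 => fun β => ∃ α, It a α0 k α ∧ Hn lt f a α β

/-- The base point of a limit element which is not good. -/
def Bs (a α0 : Ω) : Prop :=
  lt α0 a ∧ isLeast lt (fun α => ¬ ∃ β, lt α β ∧ CP lt f a β) α0

/-- The `k`-th closure point. -/
def CPk (a : Ω) : ℕ → Ω → Prop
  | 0 => isLeast lt (CP lt f a)
  | k + 1 => fun β => ∃ β', CPk a k β' ∧ isLeast lt (fun β => lt β' β ∧ CP lt f a β) β

/-- `p` is the image of `p'` under the enumeration of `α`. -/
def MapC (α : Ω) (p' : Cond ℕ) (p : Cond Ω) : Prop :=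
  p.dom = p'.dom ∧ p.tr = p'.tr ∧ (∀ i k, (i, k) ∈ p'.F → ∃ g, (f α).C k g) ∧
  ∀ i g, (i, g) ∈ p.F ↔ ∃ k, (i, k) ∈ p'.F ∧ (f α).C k g

/-- Indices of elements of the cofinal set. -/
abbrev TI (M : Type) : Type := ℕ × Option (M × Option ℕ × Cond ℕ × Bool)

/-- `h` is the element with index `t` of the canonical cofinal set of a limit element. -/
def Cf (a : Ω) (t : TI M) (h : Ω) : Prop :=
  (SG lt f a ∧ CPk lt f a t.1 h) ∨
  (¬ SG lt f a ∧ ∃ α0 α, Bs lt f a α0 ∧ It lt f a α0 t.1 α ∧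
    match t.2 with
    | none => h = α
    | some (m, o, p', e) => lt h a ∧ ∃ p, MapC f α p' p ∧ Pt lt (rr f) α p ∧
        if e then
          ∃ α', (match o with
            | none => α' = α
            | some l => (f α).C l α') ∧ isLeast lt (gP lt f m α' p) h
        else isLeast lt (zP lt f a m p) h)

/-- The enumeration at `a` from the data below `a`; `eT` numbers the indices. -/
def Ctab (eT : ℕ → TI M × ℕ) (a : Ω) (k : ℕ) (g : Ω) : Prop :=
  (∃ a', isSucc lt a' a ∧ ((k = 0 ∧ g = a') ∨ ∃ k', k = k' + 1 ∧ (f a').C k' g)) ∨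
  (isLim lt a ∧ ∃ h, lt h a ∧ Cf lt f a (eT k).1 h ∧ (f h).C (eT k).2 g)

/-- Component `i` of a finite approximation to a family of reals. -/
def comp (i : Idx) (t : List (Idx × Bool)) : List Bool :=
  t.filterMap (fun z => if z.1 = i then some z.2 else none)

/-- `t` makes the promises `N × {a}` contradict those of `p`. -/
def Bad (r : Ω → Idx → ℕ → Bool) (p : Cond Ω) (N : Finset Idx) (t : List (Idx × Bool)) : Prop :=
  ∃ i ∈ N, ∃ g, (i, g) ∈ p.F ∧ ∃ j b, (comp i t)[j]? = some b ∧ j % 2 = (p.val i).toNat ∧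
    (comp i t).take j = pre (r g i) j ∧ Idx.node i (pre (r g i) j) ∉ p.dom ∧ b ≠ r g i j

/-- `q` extends `p` and can take the promises `N × {a}` for all reals extending `t`. -/
def Gd (lt : Ω → Ω → Prop) (r : Ω → Idx → ℕ → Bool) (a : Ω) (p : Cond Ω) (N : Finset Idx)
    (t : List (Idx × Bool)) (q : Cond Ω) : Prop :=
  Pt lt r a q ∧ Ext r q p ∧ ∀ i ∈ N,
    (∀ j b, (comp i t)[j]? = some b → j % 2 = (p.val i).toNat →
      Idx.node i ((comp i t).take j) ∈ q.dom → Idx.node i ((comp i t).take j) ∉ p.dom →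
      (Idx.node i ((comp i t).take j) ∈ q.tr ↔ b = true)) ∧
    (∀ s, Idx.node i s ∈ q.dom → s.length < (comp i t).length) ∧
    ∀ g, (i, g) ∈ q.F → ∃ j b, (comp i t)[j]? = some b ∧ (comp i t).take j = pre (r g i) j ∧
      b ≠ r g i j ∧ (j % 2 = (p.val i).toNat → Idx.node i (pre (r g i) j) ∈ q.dom)

/-- The table decides bit `m` at `β`. -/
def inE (β : Ω) (m : M) (q : Cond Ω) : Prop :=
  (f β).B false m (res lt β q) ∨ (f β).B true m (res lt β q)

/-- `q` decides whether bit `m` is 1 at some place in `[α, β)`. -/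
def inD (β : Ω) (m : M) (α : Ω) (q : Cond Ω) : Prop :=
  (∃ γ, lt γ β ∧ ¬ lt γ α ∧ (f γ).B true m (res lt γ q)) ∨ Z0 lt f β m α (res lt β q)

/-- Indices of the dense sets to be met by the real at an element. -/
inductive DIx (M : Type)
  | E (o : Option ℕ) (m : M) (p : Cond ℕ) (N : Finset Idx)
  | D (o : Option ℕ) (m : M) (l : ℕ) (p : Cond ℕ) (N : Finset Idx)
  | ne (i : Idx) (k : ℕ)
  | len (i : Idx) (j : ℕ)

/-- `t` meets the dense set with index `d` at level `a`. -/
def Meets (a : Ω) (d : DIx M) (t : List (Idx × Bool)) : Prop :=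
  match d with
  | .E o m p' N => ∀ p β, MapC f a p' p → Pt lt (rr f) a p → N ⊆ p.dom →
      (match o with
        | none => β = a
        | some k => (f a).C k β) →
      Bad (rr f) p N t ∨ ∃ q, Gd lt (rr f) a p N t q ∧ inE lt f β m q
  | .D o m l p' N => ∀ p β α, MapC f a p' p → Pt lt (rr f) a p → N ⊆ p.dom →
      (match o with
        | none => β = a
        | some k => (f a).C k β) → isLim lt β → (f a).C l α → lt α β →
      Bad (rr f) p N t ∨ ∃ q, Gd lt (rr f) a p N t q ∧ inD lt f β m α q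
  | .ne i k => ∀ g, (f a).C k g → comp i t ≠ pre (rr f g i) (comp i t).length
  | .len i j => j < (comp i t).length

/-- The generic sequence at `a`: `eD` lists the dense sets, `eL` lists the finite sequences. -/
def Gs (eD : ℕ → DIx M) (eL : ℕ → List (Idx × Bool)) (a : Ω) :
    ℕ → List (Idx × Bool) → Prop
  | 0 => fun t => t = []
  | k + 1 => fun t => ∃ t0, Gs eD eL a k t0 ∧
      ((∃ n, t = t0 ++ eL n ∧ Meets lt f a (eD k) (t0 ++ eL n) ∧
          ∀ n', n' < n → ¬ Meets lt f a (eD k) (t0 ++ eL n')) ∨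
       (t = t0 ∧ ∀ n, ¬ Meets lt f a (eD k) (t0 ++ eL n)))

/-- The real at `a`. -/
noncomputable def Rtab (eD : ℕ → DIx M) (eL : ℕ → List (Idx × Bool)) (a : Ω) (i : Idx) (j : ℕ) :
    Bool :=
  @decide (∃ k t, Gs lt f eD eL a k t ∧ (comp i t)[j]? = some true) (Classical.propDecidable _)

end tables

/-- The enumerations used in the construction. -/
structure Enum (M : Type) where
  eT : ℕ → TI M × ℕ
  eD : ℕ → DIx M
  eL : ℕ → List (Idx × Bool)
  eTs : Function.Surjective eT
  eDs : Function.Surjective eD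
  eLs : Function.Surjective eL

section full
variable {Ω : Type u} {M : Type} (L : LocOp M) (en : Enum M) (c : R2) (lt : Ω → Ω → Prop)

/-- The data at `a` from the data below `a`. -/
noncomputable def Full (f : Ω → Dat M Ω) (a : Ω) : Dat M Ω :=
  let B' := Btab L c lt f a
  let C' := Ctab lt f en.eT a
  let f' : Ω → Dat M Ω := @Function.update Ω (fun _ => Dat M Ω) (Classical.decEq Ω) f a
    ⟨B', C', fun _ _ => false⟩
  ⟨B', C', Rtab lt f' en.eD en.eL a⟩

end full

/-- Truncation of a data function. -/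
noncomputable def trunc {M : Type} (a : Ordinal.{0}) (f : (b : Ordinal.{0}) → b < a → Dat M Ordinal.{0}) :
    Ordinal.{0} → Dat M Ordinal.{0} :=
  fun b => if h : b < a then f b h else ⟨fun _ _ _ => False, fun _ _ => False, fun _ _ => false⟩

/-- The hierarchy on the ordinals. -/
noncomputable def obj {M : Type} (L : LocOp M) (en : Enum M) (c : R2) :
    Ordinal.{0} → Dat M Ordinal.{0} :=
  WellFounded.fix (r := ((· < ·) : Ordinal.{0} → Ordinal.{0} → Prop)) Ordinal.lt_wf
    (fun a f => Full L en c (· < ·) (trunc a f) a)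

end Pool.Agent.Helper78.ITTM
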