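import Pool.Agent.Helper78.ITTM.BDefs

/-! Part B, second set of definitions: the real `x₀`, the ordinal `κ`, the local iteration. -/

namespace Pool.Agent.Helper78.ITTM

universe u

deriving instance Encodable for Idx

instance : Infinite Idx := Infinite.of_injective Idx.root (fun _ _ h => by cases h; rfl)

/-- A numbering of the indices. -/
noncomputable def E0 : Idx ≃ ℕ := @Denumerable.eqv Idx (Denumerable.ofEncodableOfInfinite Idx)

/-- The place of the root with label `l` in the oracles. -/
noncomputable def num (l : ℚ) : ℕ := 2 * E0 (Idx.root l) + 1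

/-- Indices of the tasks in the construction of `x₀`. -/
inductive XIx (M : Type)
  | E (l : ℕ) (m : M)
  | D (l : ℕ) (m : M) (l' : ℕ)
  | dm (i : Idx)
  | prm (i : Idx) (l : ℕ)
  | dg (e : Prog) (q q' : ℚ)

/-- Enumerations for the construction of `x₀`. -/
structure Enum2 (M : Type) where
  eC : ℕ → Cond ℕ
  eX : ℕ → XIx M
  eCs : Function.Surjective eC
  eXs : Function.Surjective eX

section poly
variable {Ω : Type u} {M : Type} (L : LocOp M) (en : Enum2 M) (lt : Ω → Ω → Prop)
  (f : Ω → Dat M Ω)

/-- The tasks. -/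
def Tgt (a : Ω) (d : XIx M) (q : Cond Ω) : Prop :=
  match d with
  | .E l m => ∀ β, (f a).C l β → inE lt f β m q
  | .D l m l' => ∀ β α, (f a).C l β → (f a).C l' α → isLim lt β → lt α β → inD lt f β m α q
  | .dm i => i ∈ q.dom
  | .prm i l => ∀ g, (f a).C l g → (i, g) ∈ q.F
  | .dg e q0 q1 => q0 < q1 → ∃ l, q0 ≤ l ∧ l < q1 ∧ Idx.root l ∈ q.dom ∧
      ((∃ γ b, lt γ a ∧ (f γ).B true (L.hc q0 e (num l)) (res lt γ q) ∧
          (f γ).B b (L.oc q0 e (num l)) (res lt γ q) ∧ (Idx.root l ∈ q.tr ↔ b = false)) ∨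
       ∀ q', Pt lt (rr f) a q' → Ext (rr f) q' q → ∀ γ, lt γ a →
          ¬ (f γ).B true (L.hc q0 e (num l)) (res lt γ q'))

/-- A possible choice at a stage of the construction of `x₀`. -/
def Good (a : Ω) (d : XIx M) (p q : Cond Ω) : Prop :=
  Pt lt (rr f) a q ∧ Ext (rr f) q p ∧ Tgt L lt f a d q

/-- The sequence of conditions defining `x₀`, computed at `a`. -/
def Xs (a : Ω) : ℕ → Cond Ω → Prop
  | 0 => fun q => q = Cond.bot Ω
  | k + 1 => fun q => ∃ p, Xs a k p ∧
      ((∃ n, MapC f a (en.eC n) q ∧ Good L lt f a (en.eX k) p q ∧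
          ∀ n', n' < n → ∀ q', MapC f a (en.eC n') q' → ¬ Good L lt f a (en.eX k) p q') ∨
       (q = p ∧ ∀ n q', MapC f a (en.eC n) q' → ¬ Good L lt f a (en.eX k) p q'))

/-- The real computed at `a`. -/
noncomputable def X0 (a : Ω) (i : Idx) : Bool :=
  @decide (∃ k p, Xs L en lt f a k p ∧ i ∈ p.tr) (Classical.propDecidable _)

end poly

section ord
variable {M : Type} (L : LocOp M) (en : Enum M) (en2 : Enum2 M) (c : R2)

/-- The order of the ordinals. -/
abbrev ltO : Ordinal.{0} → Ordinal.{0} → Prop := (· < ·)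

/-- The least good ordinal. -/
noncomputable def kap : Ordinal.{0} := sInf {a | SG ltO (obj L en c) a}

/-- The real `x₀`. -/
noncomputable def x0 : Idx → Bool := X0 L en2 ltO (obj L en c) (kap L en c)

/-- The local iteration with oracle `x`. -/
noncomputable def Zit (x : Idx → Bool) (a : Ordinal.{0}) : M → Bool :=
  iter (fun Z m => L.phi c m Z x) (fun _ => false) a

/-- The enumeration at `a` is onto. -/
def Surj (a : Ordinal.{0}) : Prop := ∀ g, g < a → ∃ k, ((obj L en c) a).C k g

/-- All tables up to `a` give dense sets below `a`. -/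
def Pres (a : Ordinal.{0}) : Prop :=
  ∀ β, β ≤ a → ∀ m p, Pt ltO (rr (obj L en c)) a p →
    (∃ q, Pt ltO (rr (obj L en c)) a q ∧ Ext (rr (obj L en c)) q p ∧
      inE ltO (obj L en c) β m q) ∧
    (isLim ltO β → ∀ α, α < β → ∃ q, Pt ltO (rr (obj L en c)) a q ∧
      Ext (rr (obj L en c)) q p ∧ inD ltO (obj L en c) β m α q)

end ord

/-- The part of a condition in the block `label < q`. -/
def Cond.blk {Ω : Type u} (q : ℚ) (p : Cond Ω) : Cond Ω where
  dom := p.dom.filter (fun i => i.label < q)
  tr := p.tr.filter (fun i => i.label < q)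
  F := p.F.filter (fun z => z.1.label < q)

/-- Merging the part of `p` in the block `label < q` with the rest of `p'`. -/
noncomputable def Cond.mrg {Ω : Type u} (q : ℚ) (p p' : Cond Ω) : Cond Ω :=
  open Classical in
  { dom := p.dom.filter (fun i => i.label < q) ∪ p'.dom.filter (fun i => ¬ i.label < q)
    tr := p.tr.filter (fun i => i.label < q) ∪ p'.tr.filter (fun i => ¬ i.label < q)
    F := p.F.filter (fun z => z.1.label < q) ∪ p'.F.filter (fun z => ¬ z.1.label < q) }

/-- Adding one index to the domain. -/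
def Cond.addI {Ω : Type u} (p : Cond Ω) (i : Idx) (b : Bool) : Cond Ω where
  dom := insert i p.dom
  tr := if b then insert i p.tr else p.tr
  F := p.F

/-- Adding the promises `N × {a}`. -/
noncomputable def Cond.addN {Ω : Type u} (p : Cond Ω) (N : Finset Idx) (a : Ω) : Cond Ω :=
  open Classical in
  { dom := p.dom
    tr := p.tr
    F := p.F ∪ N.image (fun i => (i, a)) }

/-- Correctness of a real `u`, on the block `label < q`, for the family `r`. -/
def Correct (q : ℚ) (r : Idx → ℕ → Bool) (u : Idx → Bool) : Prop :=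
  ∀ i : Idx, i.label < q → ∃ J, ∀ j, J ≤ j → j % 2 = (u i).toNat →
    u (Idx.node i (pre (r i) j)) = r i j

end Pool.Agent.Helper78.ITTM
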