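import Pool.Agent.Helper78.ITTM.Locality

/-! Part B, module Enumer: the canonical enumerations are functions with values below the
given ordinal, and every condition is coded by them when they are onto. -/

namespace Pool.Agent.Helper78.ITTM

universe u

section lin
variable {Ω : Type u} {M : Type} {lt : Ω → Ω → Prop} {f : Ω → Dat M Ω}

theorem e_isLeast_uniq (htri : ∀ x y, lt x y ∨ x = y ∨ lt y x) {P : Ω → Prop} {x y : Ω}
    (hx : isLeast lt P x) (hy : isLeast lt P y) : x = y := by
  rcases htri x y with h | h | h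
  · exact absurd hx.1 (hy.2 x h)
  · exact h
  · exact absurd hy.1 (hx.2 y h)

theorem e_isSucc_uniq (htri : ∀ x y, lt x y ∨ x = y ∨ lt y x)
    (htr : ∀ x y z, lt x y → lt y z → lt x z) (hirr : ∀ x, ¬ lt x x) {a b b' : Ω}
    (h : isSucc lt b a) (h' : isSucc lt b' a) : b = b' := by
  rcases htri b b' with h1 | h1 | h1
  · rcases h.2 b' h'.1 with h2 | h2
    · exact h2.symm
    · exact absurd (htr _ _ _ h1 h2) (hirr b)
  · exact h1
  · rcases h'.2 b h.1 with h2 | h2
    · exact h2
    · exact absurd (htr _ _ _ h1 h2) (hirr b')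

theorem e_CPk_uniq (htri : ∀ x y, lt x y ∨ x = y ∨ lt y x) {a : Ω} :
    ∀ (k : ℕ) {x y : Ω}, CPk lt f a k x → CPk lt f a k y → x = y
  | 0, x, y, hx, hy => e_isLeast_uniq htri hx hy
  | k + 1, x, y, ⟨b, hb, hx⟩, ⟨b', hb', hy⟩ => by
      have := e_CPk_uniq htri k hb hb'
      subst this
      exact e_isLeast_uniq htri hx hy

theorem e_It_uniq (htri : ∀ x y, lt x y ∨ x = y ∨ lt y x) {a α0 : Ω} :
    ∀ (k : ℕ) {x y : Ω}, It lt f a α0 k x → It lt f a α0 k y → x = y
  | 0, x, y, hx, hy => by
      simp only [It] at hx hy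
      rw [hx, hy]
  | k + 1, x, y, ⟨b, hb, hx⟩, ⟨b', hb', hy⟩ => by
      have := e_It_uniq htri k hb hb'
      subst this
      exact e_isLeast_uniq htri hx.2 hy.2

theorem e_It_lt {a α0 : Ω} (h0 : lt α0 a) : ∀ (k : ℕ) {x : Ω}, It lt f a α0 k x → lt x a
  | 0, x, hx => by
      simp only [It] at hx
      rw [hx]; exact h0
  | k + 1, x, ⟨b, hb, hx⟩ => hx.1

theorem e_MapC_uniq {α : Ω} {p' : Cond ℕ}
    {p q : Cond Ω} (hp : MapC f α p' p) (hq : MapC f α p' q) : p = q := by
  obtain ⟨h1, h2, -, h4⟩ := hp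
  obtain ⟨k1, k2, -, k4⟩ := hq
  apply Cond.ext
  · rw [h1, k1]
  · rw [h2, k2]
  · ext ⟨i, g⟩
    rw [h4 i g, k4 i g]

theorem e_Cf_uniq (htri : ∀ x y, lt x y ∨ x = y ∨ lt y x) {a : Ω}
    (hC : ∀ α, lt α a → ∀ k g g', (f α).C k g → (f α).C k g' → g = g') {t : TI M} {h h' : Ω}
    (h1 : Cf lt f a t h) (h2 : Cf lt f a t h') : h = h' := by
  rcases h1 with ⟨hs, h1⟩ | ⟨hs, α0, α, hb, hi, h1⟩
  · rcases h2 with ⟨-, h2⟩ | ⟨hs2, -⟩
    · exact e_CPk_uniq htri _ h1 h2
    · exact absurd hs hs2
  · rcases h2 with ⟨hs2, -⟩ | ⟨-, α0', α', hb', hi', h2⟩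
    · exact absurd hs2 hs
    · have e1 : α0 = α0' := e_isLeast_uniq htri hb.2 hb'.2
      subst e1
      have e2 : α = α' := e_It_uniq htri _ hi hi'
      subst e2
      have hαa : lt α a := e_It_lt hb.1 _ hi
      obtain ⟨n, o⟩ := t
      cases o with
      | none =>
        simp only at h1 h2
        rw [h1, h2]
      | some s =>
        obtain ⟨m, o, p', e⟩ := s
        simp only at h1 h2
        obtain ⟨-, p, hp, -, h1⟩ := h1
        obtain ⟨-, q, hq, -, h2⟩ := h2
        have e3 : p = q := e_MapC_uniq hp hq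
        subst e3
        cases e with
        | true =>
          simp only [if_true] at h1 h2
          obtain ⟨β, hβ, h1⟩ := h1
          obtain ⟨β', hβ', h2⟩ := h2
          cases o with
          | none =>
            simp only at hβ hβ'
            subst hβ
            subst hβ'
            exact e_isLeast_uniq htri h1 h2
          | some l =>
            simp only at hβ hβ'
            have e4 : β = β' := hC α hαa l _ _ hβ hβ'
            subst e4
            exact e_isLeast_uniq htri h1 h2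
        | false =>
          simp only [Bool.false_eq_true, if_false] at h1 h2
          exact e_isLeast_uniq htri h1 h2

end lin

section ord
variable {M : Type} (L : LocOp M) (en : Enum M) (c : R2)

theorem C_lt {a g : Ordinal.{0}} {k : ℕ} (h : (obj L en c a).C k g) : g < a := by
  induction a using WellFoundedLT.induction generalizing g k with
  | _ a ih =>
    rw [obj_C] at h
    rcases h with ⟨a', ha', h⟩ | ⟨-, h', hl, -, h⟩
    · rcases h with ⟨-, rfl⟩ | ⟨k', -, h⟩
      · exact ha'.1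
      · exact lt_trans (ih a' ha'.1 h) ha'.1
    · exact lt_trans (ih h' hl h) hl

theorem C_fun {a g g' : Ordinal.{0}} {k : ℕ} (h : (obj L en c a).C k g)
    (h' : (obj L en c a).C k g') : g = g' := by
  induction a using WellFoundedLT.induction generalizing g g' k with
  | _ a ih =>
    have htri : ∀ x y : Ordinal.{0}, ltO x y ∨ x = y ∨ ltO y x := fun x y => lt_trichotomy x y
    rw [obj_C] at h h'
    rcases h with ⟨a1, ha1, h⟩ | ⟨hlim, b1, hl1, hc1, h⟩
    · rcases h' with ⟨a2, ha2, h'⟩ | ⟨hlim, b2, hl2, hc2, h'⟩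
      · have e : a1 = a2 := e_isSucc_uniq htri (fun _ _ _ => lt_trans) (fun x => lt_irrefl x) ha1 ha2
        subst e
        rcases h with ⟨hk, rfl⟩ | ⟨k1, hk, h⟩
        · rcases h' with ⟨-, rfl⟩ | ⟨k2, hk2, h'⟩
          · rfl
          · omega
        · rcases h' with ⟨hk2, rfl⟩ | ⟨k2, hk2, h'⟩
          · omega
          · have e : k1 = k2 := by omega
            subst e
            exact ih a1 ha1.1 h h'
      · exfalso
        obtain ⟨b', hb1, hb2⟩ := hlim.2 a1 ha1.1
        rcases ha1.2 b' hb2 with e | e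
        · subst e; exact lt_irrefl _ hb1
        · exact lt_irrefl _ (lt_trans (show a1 < b' from hb1) e)
    · rcases h' with ⟨a1, ha1, h'⟩ | ⟨-, b2, hl2, hc2, h'⟩
      · exfalso
        obtain ⟨b', hb1, hb2⟩ := hlim.2 a1 ha1.1
        rcases ha1.2 b' hb2 with e | e
        · subst e; exact lt_irrefl _ hb1
        · exact lt_irrefl _ (lt_trans (show a1 < b' from hb1) e)
      · have e : b1 = b2 := e_Cf_uniq htri (fun α hα k g g' => ih α hα) hc1 hc2
        subst e
        exact ih b1 hl1 h h'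

theorem mapC_fun {a : Ordinal.{0}} {p' : Cond ℕ} {p q : Cond Ordinal.{0}}
    (hp : MapC (obj L en c) a p' p) (hq : MapC (obj L en c) a p' q) : p = q :=
  e_MapC_uniq hp hq

theorem mapC_surj {a : Ordinal.{0}} (hs : Surj L en c a) (p : Cond Ordinal.{0})
    (hp : ∀ i g, (i, g) ∈ p.F → g < a) : ∃ p', MapC (obj L en c) a p' p := by
  classical
  have hk : ∀ g : Ordinal.{0}, ∃ k, g < a → (obj L en c a).C k g := by
    intro g
    by_cases hg : g < a
    · obtain ⟨k, hk⟩ := hs g hg
      exact ⟨k, fun _ => hk⟩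
    · exact ⟨0, fun h => absurd h hg⟩
  choose κ hκ using hk
  refine ⟨⟨p.dom, p.tr, p.F.image (fun z => (z.1, κ z.2))⟩, rfl, rfl, ?_, ?_⟩
  · intro i k hik
    simp only [Finset.mem_image, Prod.mk.injEq, Prod.exists] at hik
    obtain ⟨i', g, hg, rfl, rfl⟩ := hik
    exact ⟨g, hκ g (hp _ _ hg)⟩
  · intro i g
    constructor
    · intro h
      refine ⟨κ g, ?_, hκ g (hp _ _ h)⟩
      simp only [Finset.mem_image, Prod.mk.injEq, Prod.exists]
      exact ⟨i, g, h, rfl, rfl⟩
    · rintro ⟨k, hik, hC⟩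
      simp only [Finset.mem_image, Prod.mk.injEq, Prod.exists] at hik
      obtain ⟨i', g', hg', rfl, rfl⟩ := hik
      have := C_fun L en c hC (hκ g' (hp _ _ hg'))
      subst this
      exact hg'

end ord

end Pool.Agent.Helper78.ITTM
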