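import Pool.Agent.Helper78.ITTM.BDefs2

/-! Module B3: the tables at `a` depend only on the data below `a`. -/

namespace Pool.Agent.Helper78.ITTM

set_option linter.unusedVariables false

universe u

section local_
variable {Ω : Type u} {M : Type} (L : LocOp M) (en : Enum M) (c : R2) {lt : Ω → Ω → Prop}
  {f f' : Ω → Dat M Ω}

theorem Loc.valid_of {r r' : Ω → Idx → ℕ → Bool} {p : Cond Ω}
    (h : ∀ i g, (i, g) ∈ p.F → r g = r' g) (hv : Valid r p) : Valid r' p := by
  refine ⟨hv.1, hv.2.1, fun i g g' j h1 h2 h3 h4 h5 => ?_⟩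
  have e1 := h i g h1
  have e2 := h i g' h2
  rw [← e1, ← e2] at h4
  rw [← e1] at h5
  rw [← e1, ← e2]
  exact hv.2.2 i g g' j h1 h2 h3 h4 h5

theorem Loc.ext_of {r r' : Ω → Idx → ℕ → Bool} {p q : Cond Ω}
    (h : ∀ i g, (i, g) ∈ p.F → r g = r' g) (he : Ext r q p) : Ext r' q p := by
  refine ⟨he.1, he.2.1, he.2.2.1, fun i g j h1 h2 h3 h4 => ?_⟩
  have e1 := h i g h1
  rw [← e1] at h3 h4
  rw [← e1]
  exact he.2.2.2 i g j h1 h2 h3 h4

theorem Loc.rr_eq {g : Ω} (h : f g = f' g) : rr f g = rr f' g := congrArg Dat.r h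

theorem Loc.pt_of {x : Ω} (h : ∀ b, lt b x → f b = f' b) {q : Cond Ω}
    (hp : Pt lt (rr f) x q) : Pt lt (rr f') x q :=
  ⟨Loc.valid_of (fun i g hg => Loc.rr_eq (h g (hp.2 i g hg))) hp.1, hp.2⟩

theorem Loc.pt_iff {x : Ω} (h : ∀ b, lt b x → f b = f' b) {q : Cond Ω} :
    Pt lt (rr f) x q ↔ Pt lt (rr f') x q :=
  ⟨Loc.pt_of h, Loc.pt_of fun b hb => (h b hb).symm⟩

theorem Loc.pe_of {x : Ω} (h : ∀ b, lt b x → f b = f' b) {p q : Cond Ω}
    (hp : Pt lt (rr f) x q) (he : Ext (rr f) q p) : Ext (rr f') q p :=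
  Loc.ext_of (fun i g hg => Loc.rr_eq (h g (hp.2 i g (he.2.2.1 hg)))) he

theorem Loc.z0_of {a : Ω} (h : ∀ b, lt b a → f b = f' b) {m : M} {α : Ω} {p : Cond Ω}
    (H : Z0 lt f a m α p) : Z0 lt f' a m α p := by
  intro β h1 h2 q hq he
  have h' : ∀ b, lt b a → f' b = f b := fun b hb => (h b hb).symm
  rw [← h β h1]
  exact H β h1 h2 q (Loc.pt_of h' hq) (Loc.pe_of h' hq he)

theorem z0_congr (htr : ∀ x y z, lt x y → lt y z → lt x z) {a : Ω}
    (h : ∀ b, lt b a → f b = f' b) (m : M) (α : Ω) (p : Cond Ω) :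
    Z0 lt f a m α p ↔ Z0 lt f' a m α p :=
  ⟨Loc.z0_of h, Loc.z0_of fun b hb => (h b hb).symm⟩

theorem Loc.isLeast_congr {P Q : Ω → Prop} {a : Ω} (h0 : P a ↔ Q a)
    (h1 : ∀ b, lt b a → (P b ↔ Q b)) : isLeast lt P a ↔ isLeast lt Q a := by
  unfold isLeast
  rw [h0]
  refine and_congr_right fun _ => forall_congr' fun b => ?_
  constructor
  · intro H hb hq
    exact H hb ((h1 b hb).mpr hq)
  · intro H hb hq
    exact H hb ((h1 b hb).mp hq)

theorem Loc.gP_of {x : Ω} (h : ∀ b, lt b x → f b = f' b) {m : M} {α : Ω} {p : Cond Ω}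
    (H : gP lt f m α p x) : gP lt f' m α p x := by
  obtain ⟨β, h1, h2, q, hq, he, hB⟩ := H
  refine ⟨β, h1, h2, q, Loc.pt_of h hq, Loc.pe_of h hq he, ?_⟩
  rw [← h β h1]
  exact hB

theorem Loc.gP_iff {x : Ω} (h : ∀ b, lt b x → f b = f' b) {m : M} {α : Ω} {p : Cond Ω} :
    gP lt f m α p x ↔ gP lt f' m α p x :=
  ⟨Loc.gP_of h, Loc.gP_of fun b hb => (h b hb).symm⟩

theorem Loc.leastG_iff (htr : ∀ x y z, lt x y → lt y z → lt x z) {x : Ω}
    (h : ∀ b, lt b x → f b = f' b) {m : M} {α : Ω} {p : Cond Ω} :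
    isLeast lt (gP lt f m α p) x ↔ isLeast lt (gP lt f' m α p) x :=
  Loc.isLeast_congr (Loc.gP_iff h) fun b hb => Loc.gP_iff fun b' hb' => h b' (htr _ _ _ hb' hb)

theorem Loc.zP_of (htr : ∀ x y z, lt x y → lt y z → lt x z) {a x : Ω} (hx : lt x a)
    (h : ∀ b, lt b a → f b = f' b) {m : M} {p : Cond Ω}
    (H : zP lt f a m p x) : zP lt f' a m p x := by
  obtain ⟨q, hq, he, hz⟩ := H
  have hx' : ∀ b, lt b x → f b = f' b := fun b hb => h b (htr _ _ _ hb hx)
  exact ⟨q, Loc.pt_of hx' hq, Loc.pe_of hx' hq he, Loc.z0_of h hz⟩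

theorem Loc.zP_iff (htr : ∀ x y z, lt x y → lt y z → lt x z) {a x : Ω} (hx : lt x a)
    (h : ∀ b, lt b a → f b = f' b) {m : M} {p : Cond Ω} :
    zP lt f a m p x ↔ zP lt f' a m p x :=
  ⟨Loc.zP_of htr hx h, Loc.zP_of htr hx fun b hb => (h b hb).symm⟩

theorem Loc.leastZ_iff (htr : ∀ x y z, lt x y → lt y z → lt x z) {a x : Ω} (hx : lt x a)
    (h : ∀ b, lt b a → f b = f' b) {m : M} {p : Cond Ω} :
    isLeast lt (zP lt f a m p) x ↔ isLeast lt (zP lt f' a m p) x :=
  Loc.isLeast_congr (Loc.zP_iff htr hx h) fun b hb => Loc.zP_iff htr (htr _ _ _ hb hx) h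

theorem Loc.v_of (htr : ∀ x y z, lt x y → lt y z → lt x z) {a α x : Ω} (hα : lt α a)
    (h : ∀ b, lt b a → f b = f' b) (H : V lt f a α x) : V lt f' a α x := by
  obtain ⟨hx, m, p, hp, H⟩ := H
  refine ⟨hx, m, p, Loc.pt_of (fun b hb => h b (htr _ _ _ hb hα)) hp, ?_⟩
  rcases H with ⟨α', h1, h2⟩ | h2
  · exact Or.inl ⟨α', h1, (Loc.leastG_iff htr fun b hb => h b (htr _ _ _ hb hx)).mp h2⟩
  · exact Or.inr ((Loc.leastZ_iff htr hx h).mp h2)

theorem Loc.v_iff (htr : ∀ x y z, lt x y → lt y z → lt x z) {a α x : Ω} (hα : lt α a)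
    (h : ∀ b, lt b a → f b = f' b) : V lt f a α x ↔ V lt f' a α x :=
  ⟨Loc.v_of htr hα h, Loc.v_of htr hα fun b hb => (h b hb).symm⟩

theorem Loc.cp_of (htr : ∀ x y z, lt x y → lt y z → lt x z) {a β : Ω}
    (h : ∀ b, lt b a → f b = f' b) (H : CP lt f a β) : CP lt f' a β :=
  ⟨H.1, H.2.1, fun α x h1 h2 => H.2.2 α x h1
    ((Loc.v_iff htr (htr _ _ _ h1 H.1) h).mpr h2)⟩

theorem Loc.cp_iff (htr : ∀ x y z, lt x y → lt y z → lt x z) {a β : Ω}
    (h : ∀ b, lt b a → f b = f' b) : CP lt f a β ↔ CP lt f' a β :=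
  ⟨Loc.cp_of htr h, Loc.cp_of htr fun b hb => (h b hb).symm⟩

theorem sg_congr (htr : ∀ x y z, lt x y → lt y z → lt x z) {a : Ω}
    (h : ∀ b, lt b a → f b = f' b) : SG lt f a ↔ SG lt f' a := by
  unfold SG
  refine and_congr_right fun _ => forall_congr' fun α => imp_congr_right fun _ =>
    exists_congr fun β => and_congr_right fun _ => Loc.cp_iff htr h

theorem Loc.hn_iff (htr : ∀ x y z, lt x y → lt y z → lt x z) {a α β : Ω}
    (h : ∀ b, lt b a → f b = f' b) : Hn lt f a α β ↔ Hn lt f' a α β := by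
  unfold Hn
  refine and_congr_right fun hβ => ?_
  have key : ∀ b, lt b a → ((lt α b ∧ ∀ x, V lt f a α x → lt x b) ↔
      (lt α b ∧ ∀ x, V lt f' a α x → lt x b)) := by
    intro b hb
    refine and_congr_right fun hαb => forall_congr' fun x => ?_
    rw [Loc.v_iff htr (htr _ _ _ hαb hb) h]
  exact Loc.isLeast_congr (key β hβ) fun b hb => key b (htr _ _ _ hb hβ)

theorem Loc.it_iff (htr : ∀ x y z, lt x y → lt y z → lt x z) {a α0 : Ω}
    (h : ∀ b, lt b a → f b = f' b) (k : ℕ) : ∀ α, It lt f a α0 k α ↔ It lt f' a α0 k α := by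
  induction k with
  | zero => intro α; exact Iff.rfl
  | succ k ih =>
    intro β
    show (∃ α, It lt f a α0 k α ∧ Hn lt f a α β) ↔ ∃ α, It lt f' a α0 k α ∧ Hn lt f' a α β
    exact exists_congr fun α => and_congr (ih α) (Loc.hn_iff htr h)

theorem Loc.bs_iff (htr : ∀ x y z, lt x y → lt y z → lt x z) {a α0 : Ω}
    (h : ∀ b, lt b a → f b = f' b) : Bs lt f a α0 ↔ Bs lt f' a α0 := by
  unfold Bs
  have key : ∀ α, (¬ ∃ β, lt α β ∧ CP lt f a β) ↔ ¬ ∃ β, lt α β ∧ CP lt f' a β := by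
    intro α
    exact not_congr (exists_congr fun β => and_congr_right fun _ => Loc.cp_iff htr h)
  exact and_congr_right fun _ => Loc.isLeast_congr (key α0) fun b _ => key b

theorem Loc.cpk_iff (htr : ∀ x y z, lt x y → lt y z → lt x z) {a : Ω}
    (h : ∀ b, lt b a → f b = f' b) (k : ℕ) : ∀ β, CPk lt f a k β ↔ CPk lt f' a k β := by
  induction k with
  | zero =>
    intro β
    exact Loc.isLeast_congr (Loc.cp_iff htr h) fun b _ => Loc.cp_iff htr h
  | succ k ih =>
    intro β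
    show (∃ β', CPk lt f a k β' ∧ isLeast lt (fun β => lt β' β ∧ CP lt f a β) β) ↔
      ∃ β', CPk lt f' a k β' ∧ isLeast lt (fun β => lt β' β ∧ CP lt f' a β) β
    exact exists_congr fun β' => and_congr (ih β')
      (Loc.isLeast_congr (and_congr_right fun _ => Loc.cp_iff htr h)
        fun b _ => and_congr_right fun _ => Loc.cp_iff htr h)

theorem Loc.it_lt {a α0 α : Ω} (h0 : lt α0 a) {k : ℕ} (h : It lt f a α0 k α) : lt α a := by
  cases k with
  | zero =>
    have : α = α0 := h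
    rw [this]
    exact h0
  | succ k =>
    obtain ⟨α', -, h2⟩ := h
    exact h2.1

theorem Loc.mapC_iff {α : Ω} (h : (f α).C = (f' α).C) {p' : Cond ℕ} {p : Cond Ω} :
    MapC f α p' p ↔ MapC f' α p' p := by
  unfold MapC
  rw [h]

theorem Loc.cf_of (htr : ∀ x y z, lt x y → lt y z → lt x z) {a x : Ω} {t : TI M}
    (h : ∀ b, lt b a → f b = f' b) (H : Cf lt f a t x) : Cf lt f' a t x := by
  rcases H with ⟨h1, h2⟩ | ⟨h1, α0, α, h2, h3, h4⟩
  · exact Or.inl ⟨(sg_congr htr h).mp h1, (Loc.cpk_iff htr h _ _).mp h2⟩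
  · refine Or.inr ⟨fun h' => h1 ((sg_congr htr h).mpr h'), α0, α, (Loc.bs_iff htr h).mp h2,
      (Loc.it_iff htr h _ _).mp h3, ?_⟩
    have hα : lt α a := Loc.it_lt h2.1 h3
    have hfα : f α = f' α := h α hα
    obtain ⟨t1, t2⟩ := t
    rcases t2 with _ | ⟨m, o, p', e⟩
    · exact h4
    · obtain ⟨hx, p, hp1, hp2, hp3⟩ := h4
      refine ⟨hx, p, (Loc.mapC_iff (congrArg Dat.C hfα)).mp hp1,
        Loc.pt_of (fun b hb => h b (htr _ _ _ hb hα)) hp2, ?_⟩
      cases e with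
      | true =>
        obtain ⟨α', h5, h6⟩ := hp3
        refine ⟨α', ?_, (Loc.leastG_iff htr fun b hb => h b (htr _ _ _ hb hx)).mp h6⟩
        cases o with
        | none => exact h5
        | some l =>
          have h5' : (f α).C l α' := h5
          rw [hfα] at h5'
          exact h5'
      | false => exact (Loc.leastZ_iff htr hx h).mp hp3

theorem Loc.cf_iff (htr : ∀ x y z, lt x y → lt y z → lt x z) {a x : Ω} {t : TI M}
    (h : ∀ b, lt b a → f b = f' b) : Cf lt f a t x ↔ Cf lt f' a t x :=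
  ⟨Loc.cf_of htr h, Loc.cf_of htr fun b hb => (h b hb).symm⟩

theorem Loc.btab_of {a : Ω} (h : ∀ b, lt b a → f b = f' b) {b : Bool} {m : M}
    {p : Cond Ω} (H : Btab L c lt f a b m p) : Btab L c lt f' a b m p := by
  have h' : ∀ b, lt b a → f' b = f b := fun b hb => (h b hb).symm
  obtain ⟨hp, H⟩ := H
  refine ⟨Loc.pt_of h hp, ?_⟩
  rcases H with H | ⟨a', h1, t, h2, h3, h4⟩ | ⟨h1, h2, α, h3, h4⟩ | ⟨h1, h2, h3⟩
  · exact Or.inl H
  · refine Or.inr (Or.inl ⟨a', h1, t, h2, fun l hl => ?_, h4⟩)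
    rw [← h a' h1.1]
    exact h3 l hl
  · exact Or.inr (Or.inr (Or.inl ⟨h1, h2, α, h3, Loc.z0_of h h4⟩))
  · refine Or.inr (Or.inr (Or.inr ⟨h1, h2, fun q hq he => ?_⟩))
    rintro ⟨α, h5, h6⟩
    exact h3 q (Loc.pt_of h' hq) (Loc.pe_of h' hq he) ⟨α, h5, Loc.z0_of h' h6⟩

theorem Loc.btab_congr {a : Ω} (h : ∀ b, lt b a → f b = f' b) :
    Btab L c lt f a = Btab L c lt f' a := by
  funext b m p
  exact propext ⟨Loc.btab_of L c h, Loc.btab_of L c fun b hb => (h b hb).symm⟩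

theorem Loc.ctab_of (htr : ∀ x y z, lt x y → lt y z → lt x z) {a : Ω}
    (h : ∀ b, lt b a → f b = f' b) {eT : ℕ → TI M × ℕ} {k : ℕ} {g : Ω}
    (H : Ctab lt f eT a k g) : Ctab lt f' eT a k g := by
  rcases H with ⟨a', h1, h2⟩ | ⟨h1, x, hx, h2, h3⟩
  · refine Or.inl ⟨a', h1, ?_⟩
    rw [← h a' h1.1]
    exact h2
  · refine Or.inr ⟨h1, x, hx, Loc.cf_of htr h h2, ?_⟩
    rw [← h x hx]
    exact h3

theorem Loc.ctab_congr (htr : ∀ x y z, lt x y → lt y z → lt x z) {a : Ω}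
    (h : ∀ b, lt b a → f b = f' b) (eT : ℕ → TI M × ℕ) :
    Ctab lt f eT a = Ctab lt f' eT a := by
  funext k g
  exact propext ⟨Loc.ctab_of htr h, Loc.ctab_of htr fun b hb => (h b hb).symm⟩

theorem Loc.ctab_lt (htr : ∀ x y z, lt x y → lt y z → lt x z) {a : Ω}
    (hlt : ∀ b, lt b a → ∀ k g, (f b).C k g → lt g b) {eT : ℕ → TI M × ℕ} {k : ℕ} {g : Ω}
    (H : Ctab lt f eT a k g) : lt g a := by
  rcases H with ⟨a', h1, (⟨-, rfl⟩ | ⟨k', -, h2⟩)⟩ | ⟨h1, x, hx, h2, h3⟩
  · exact h1.1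
  · exact htr _ _ _ (hlt a' h1.1 _ _ h2) h1.1
  · exact htr _ _ _ (hlt x hx _ _ h3) hx

theorem Loc.gd_of {a : Ω} (h : ∀ b, lt b a → f b = f' b) {p q : Cond Ω} {N : Finset Idx}
    {t : List (Idx × Bool)} (H : Gd lt (rr f) a p N t q) : Gd lt (rr f') a p N t q := by
  obtain ⟨h1, h2, h3⟩ := H
  refine ⟨Loc.pt_of h h1, Loc.pe_of h h1 h2, fun i hi => ?_⟩
  obtain ⟨h4, h5, h6⟩ := h3 i hi
  refine ⟨h4, h5, fun g hg => ?_⟩
  rw [← Loc.rr_eq (h g (h1.2 i g hg))]
  exact h6 g hg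

theorem Loc.bad_of {a : Ω} (h : ∀ b, lt b a → f b = f' b) {p : Cond Ω}
    (hp : Pt lt (rr f) a p) {N : Finset Idx}
    {t : List (Idx × Bool)} (H : Bad (rr f) p N t) : Bad (rr f') p N t := by
  obtain ⟨i, hi, g, hg, j, b, H⟩ := H
  refine ⟨i, hi, g, hg, j, b, ?_⟩
  rw [← Loc.rr_eq (h g (hp.2 i g hg))]
  exact H

theorem Loc.inE_of {β : Ω} (h : (f β).B = (f' β).B) {m : M} {q : Cond Ω}
    (H : inE lt f β m q) : inE lt f' β m q := by
  unfold inE
  rw [← h]
  exact H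

theorem Loc.inD_of {β : Ω} (h : ∀ b, lt b β → f b = f' b) {m : M} {α : Ω} {q : Cond Ω}
    (H : inD lt f β m α q) : inD lt f' β m α q := by
  rcases H with ⟨γ, h1, h2, h3⟩ | H
  · refine Or.inl ⟨γ, h1, h2, ?_⟩
    rw [← h γ h1]
    exact h3
  · exact Or.inr (Loc.z0_of h H)

theorem Loc.meets_of (htr : ∀ x y z, lt x y → lt y z → lt x z) {a : Ω}
    (h : ∀ b, lt b a → f b = f' b) (hB : (f a).B = (f' a).B) (hC : (f a).C = (f' a).C)
    (hlt : ∀ k g, (f a).C k g → lt g a) (d : DIx M) (t : List (Idx × Bool))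
    (H : Meets lt f a d t) : Meets lt f' a d t := by
  have h' : ∀ b, lt b a → f' b = f b := fun b hb => (h b hb).symm
  cases d with
  | E o m p' N =>
    intro p β h1 h2 h3 h4
    have h2' := Loc.pt_of h' h2
    have hβ : β = a ∨ lt β a := by
      cases o with
      | none => exact Or.inl h4
      | some k =>
        have h4' : (f' a).C k β := h4
        rw [← hC] at h4'
        exact Or.inr (hlt k β h4')
    have hBβ : (f β).B = (f' β).B := by
      rcases hβ with rfl | hβ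
      · exact hB
      · rw [h β hβ]
    rcases H p β ((Loc.mapC_iff hC).mpr h1) h2' h3 (by
      cases o with
      | none => exact h4
      | some k =>
        have h4' : (f' a).C k β := h4
        rw [← hC] at h4'
        exact h4') with h5 | ⟨q, h5, h6⟩
    · exact Or.inl (Loc.bad_of h h2' h5)
    · exact Or.inr ⟨q, Loc.gd_of h h5, Loc.inE_of hBβ h6⟩
  | D o m l p' N =>
    intro p β α h1 h2 h3 h4 h7 h8 h9
    have h2' := Loc.pt_of h' h2
    have hβ : ∀ b, lt b β → lt b a := by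
      cases o with
      | none =>
        have : β = a := h4
        rw [this]
        exact fun b hb => hb
      | some k =>
        have h4' : (f' a).C k β := h4
        rw [← hC] at h4'
        exact fun b hb => htr _ _ _ hb (hlt k β h4')
    rcases H p β α ((Loc.mapC_iff hC).mpr h1) h2' h3 (by
      cases o with
      | none => exact h4
      | some k =>
        have h4' : (f' a).C k β := h4
        rw [← hC] at h4'
        exact h4') h7 (by rw [hC]; exact h8) h9 with h5 | ⟨q, h5, h6⟩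
    · exact Or.inl (Loc.bad_of h h2' h5)
    · exact Or.inr ⟨q, Loc.gd_of h h5, Loc.inD_of (fun b hb => h b (hβ b hb)) h6⟩
  | ne i k =>
    intro g hg
    rw [← hC] at hg
    have := H g hg
    rwa [Loc.rr_eq (h g (hlt k g hg))] at this
  | len i j => exact H

theorem Loc.gs_iff (htr : ∀ x y z, lt x y → lt y z → lt x z) {a : Ω}
    (h : ∀ b, lt b a → f b = f' b) (hB : (f a).B = (f' a).B) (hC : (f a).C = (f' a).C)
    (hlt : ∀ k g, (f a).C k g → lt g a)
    (eD : ℕ → DIx M) (eL : ℕ → List (Idx × Bool)) (k : ℕ) :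
    ∀ t, Gs lt f eD eL a k t ↔ Gs lt f' eD eL a k t := by
  have hm : ∀ d t, Meets lt f a d t ↔ Meets lt f' a d t := fun d t =>
    ⟨Loc.meets_of htr h hB hC hlt d t, Loc.meets_of htr (fun b hb => (h b hb).symm) hB.symm
      hC.symm (by rw [← hC]; exact hlt) d t⟩
  induction k with
  | zero => intro t; exact Iff.rfl
  | succ k ih =>
    intro t
    unfold Gs
    simp only [ih, hm]

theorem rtab_congr (htr : ∀ x y z, lt x y → lt y z → lt x z) (hirr : ∀ x, ¬ lt x x) {a : Ω}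
    (h : ∀ b, lt b a → f b = f' b) (hB : (f a).B = (f' a).B) (hC : (f a).C = (f' a).C)
    (hlt : ∀ k g, (f a).C k g → lt g a)
    (eD : ℕ → DIx M) (eL : ℕ → List (Idx × Bool)) :
    Rtab lt f eD eL a = Rtab lt f' eD eL a := by
  funext i j
  unfold Rtab
  have key : (∃ k t, Gs lt f eD eL a k t ∧ (comp i t)[j]? = some true) =
      ∃ k t, Gs lt f' eD eL a k t ∧ (comp i t)[j]? = some true :=
    propext (exists_congr fun k => exists_congr fun t =>
      and_congr_left fun _ => Loc.gs_iff htr h hB hC hlt eD eL k t)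
  rw [key]

theorem full_congr (htr : ∀ x y z, lt x y → lt y z → lt x z) (hirr : ∀ x, ¬ lt x x) {a : Ω}
    (h : ∀ b, lt b a → f b = f' b) (hlt : ∀ b, lt b a → ∀ k g, (f b).C k g → lt g b) :
    Full L en c lt f a = Full L en c lt f' a := by
  have eB := Loc.btab_congr L c h
  have eC := Loc.ctab_congr htr h en.eT
  show (⟨Btab L c lt f a, Ctab lt f en.eT a,
    Rtab lt (@Function.update Ω (fun _ => Dat M Ω) (Classical.decEq Ω) f a
      ⟨Btab L c lt f a, Ctab lt f en.eT a, fun _ _ => false⟩) en.eD en.eL a⟩ : Dat M Ω) =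
    ⟨Btab L c lt f' a, Ctab lt f' en.eT a,
    Rtab lt (@Function.update Ω (fun _ => Dat M Ω) (Classical.decEq Ω) f' a
      ⟨Btab L c lt f' a, Ctab lt f' en.eT a, fun _ _ => false⟩) en.eD en.eL a⟩
  rw [← eB, ← eC]
  congr 1
  refine rtab_congr htr hirr ?_ ?_ ?_ ?_ en.eD en.eL
  · intro b hb
    have hba : b ≠ a := by
      rintro rfl
      exact hirr b hb
    rw [@Function.update_of_ne Ω _ (Classical.decEq Ω) _ _ hba,
      @Function.update_of_ne Ω _ (Classical.decEq Ω) _ _ hba]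
    exact h b hb
  · rw [@Function.update_self Ω _ (Classical.decEq Ω), @Function.update_self Ω _ (Classical.decEq Ω)]
  · rw [@Function.update_self Ω _ (Classical.decEq Ω), @Function.update_self Ω _ (Classical.decEq Ω)]
  · intro k g hg
    rw [@Function.update_self Ω _ (Classical.decEq Ω)] at hg
    have hg' : Ctab lt f en.eT a k g := hg
    exact Loc.ctab_lt htr hlt hg'

theorem Loc.obj_unfold (a : Ordinal.{0}) : obj L en c a =
    Full L en c ltO (trunc a (fun b _ => obj L en c b)) a := by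
  unfold obj
  rw [WellFounded.fix_eq]

theorem Loc.trunc_eq {a b : Ordinal.{0}} (hb : b < a) :
    trunc a (fun b _ => obj L en c b) b = obj L en c b := by
  unfold trunc
  rw [dif_pos hb]

theorem Loc.ltO_trans (x y z : Ordinal.{0}) (h : ltO x y) (h' : ltO y z) : ltO x z :=
  lt_trans h h'

theorem Loc.ltO_irrefl (x : Ordinal.{0}) : ¬ ltO x x := lt_irrefl x

theorem obj_C_lt (a : Ordinal.{0}) : ∀ k g, (obj L en c a).C k g → g < a := by
  induction a using WellFoundedLT.induction with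
  | ind a ih =>
    intro k g hg
    rw [Loc.obj_unfold] at hg
    have hg' : Ctab ltO (trunc a (fun b _ => obj L en c b)) en.eT a k g := hg
    refine Loc.ctab_lt Loc.ltO_trans ?_ hg'
    intro b hb k g h
    rw [Loc.trunc_eq L en c hb] at h
    exact ih b hb k g h

theorem obj_eq (a : Ordinal.{0}) : obj L en c a = Full L en c ltO (obj L en c) a := by
  rw [Loc.obj_unfold]
  refine full_congr L en c Loc.ltO_trans Loc.ltO_irrefl ?_ ?_
  · intro b hb
    exact Loc.trunc_eq L en c hb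
  · intro b hb k g h
    rw [Loc.trunc_eq L en c hb] at h
    exact obj_C_lt L en c b k g h

theorem obj_B (a : Ordinal.{0}) : (obj L en c a).B = Btab L c ltO (obj L en c) a := by
  rw [obj_eq]
  rfl

theorem obj_C (a : Ordinal.{0}) : (obj L en c a).C = Ctab ltO (obj L en c) en.eT a := by
  rw [obj_eq]
  rfl

theorem obj_r (a : Ordinal.{0}) :
    (obj L en c a).r = Rtab ltO (obj L en c) en.eD en.eL a := by
  have h1 := congrArg Dat.r (obj_eq L en c a)
  rw [h1]
  show Rtab ltO (@Function.update Ordinal.{0} (fun _ => Dat M Ordinal.{0})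
    (Classical.decEq Ordinal.{0}) (obj L en c) a
    ⟨Btab L c ltO (obj L en c) a, Ctab ltO (obj L en c) en.eT a, fun _ _ => false⟩) en.eD en.eL a
    = _
  refine rtab_congr Loc.ltO_trans Loc.ltO_irrefl ?_ ?_ ?_ ?_ en.eD en.eL
  · intro b hb
    have hba : b ≠ a := ne_of_lt hb
    rw [@Function.update_of_ne Ordinal.{0} _ (Classical.decEq Ordinal.{0}) _ _ hba]
  · rw [@Function.update_self Ordinal.{0} _ (Classical.decEq Ordinal.{0}), obj_B]
  · rw [@Function.update_self Ordinal.{0} _ (Classical.decEq Ordinal.{0}), obj_C]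
  · intro k g hg
    rw [@Function.update_self Ordinal.{0} _ (Classical.decEq Ordinal.{0})] at hg
    have hg' : Ctab ltO (obj L en c) en.eT a k g := hg
    rw [← obj_C] at hg'
    exact obj_C_lt L en c a k g hg'

end local_

end Pool.Agent.Helper78.ITTM
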