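import Pool.Agent.Helper78.ITTM.Cohen
import Pool.Agent.Helper78.ITTM.Enumer
import Pool.Agent.Helper78.ITTM.Locality

/-! Module B7: the generic real meets all the dense sets and differs from the earlier ones. -/

namespace Pool.Agent.Helper78.ITTM

universe u


section comp

theorem comp_append (i : Idx) (s t : List (Idx × Bool)) :
    comp i (s ++ t) = comp i s ++ comp i t := by
  simp [comp, List.filterMap_append]

theorem comp_replicate (i : Idx) (b : Bool) (n : ℕ) :
    comp i (List.replicate n (i, b)) = List.replicate n b := by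
  induction n with
  | zero => simp [comp]
  | succ n ih =>
    rw [List.replicate_succ, List.replicate_succ, ← ih]
    simp [comp]

theorem length_pre (r : ℕ → Bool) (j : ℕ) : (pre r j).length = j := by simp [pre]

end comp

section gs
variable {Ω : Type u} {M : Type} {lt : Ω → Ω → Prop} {f : Ω → Dat M Ω}
  {eD : ℕ → DIx M} {eL : ℕ → List (Idx × Bool)} {a : Ω}

theorem gs_uniq (k : ℕ) {t t' : List (Idx × Bool)} (h : Gs lt f eD eL a k t)
    (h' : Gs lt f eD eL a k t') : t = t' := by
  induction k generalizing t t' with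
  | zero => exact (show t = [] from h).trans (show t' = [] from h').symm
  | succ k ih =>
    obtain ⟨t0, h0, h1⟩ := h
    obtain ⟨t0', h0', h1'⟩ := h'
    obtain rfl := ih h0 h0'
    rcases h1 with ⟨n, hn, hm, hlt⟩ | ⟨ht, hno⟩
    · rcases h1' with ⟨n', hn', hm', hlt'⟩ | ⟨ht', hno'⟩
      · have : n = n' := by
          rcases lt_trichotomy n n' with h | h | h
          · exact absurd hm (hlt' n h)
          · exact h
          · exact absurd hm' (hlt n' h)
        subst this
        rw [hn, hn']
      · exact absurd hm (hno' n)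
    · rcases h1' with ⟨n', hn', hm', hlt'⟩ | ⟨ht', hno'⟩
      · exact absurd hm' (hno n')
      · rw [ht, ht']

theorem gs_ex (k : ℕ) : ∃ t, Gs lt f eD eL a k t := by
  induction k with
  | zero => exact ⟨[], rfl⟩
  | succ k ih =>
    obtain ⟨t0, h0⟩ := ih
    by_cases h : ∃ n, Meets lt f a (eD k) (t0 ++ eL n)
    · classical
      refine ⟨t0 ++ eL (Nat.find h), t0, h0, Or.inl ⟨Nat.find h, rfl, Nat.find_spec h, ?_⟩⟩
      intro n' hn'
      exact Nat.find_min h hn'
    · push Not at h
      exact ⟨t0, t0, h0, Or.inr ⟨rfl, h⟩⟩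

theorem gs_succ_pre (k : ℕ) {t t' : List (Idx × Bool)} (h : Gs lt f eD eL a k t)
    (h' : Gs lt f eD eL a (k + 1) t') : ∃ s, t' = t ++ s := by
  obtain ⟨t0, h0, h1⟩ := h'
  obtain rfl := gs_uniq k h0 h
  rcases h1 with ⟨n, hn, -, -⟩ | ⟨ht, -⟩
  · exact ⟨_, hn⟩
  · exact ⟨[], by simp [ht]⟩

theorem gs_pre {k k' : ℕ} (hk : k ≤ k') {t t' : List (Idx × Bool)} (h : Gs lt f eD eL a k t)
    (h' : Gs lt f eD eL a k' t') : ∃ s, t' = t ++ s := by
  induction k', hk using Nat.le_induction generalizing t' with
  | base => exact ⟨[], by rw [gs_uniq k h' h]; simp⟩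
  | succ k' hk ih =>
    obtain ⟨t1, h1⟩ := gs_ex (lt := lt) (f := f) (eD := eD) (eL := eL) (a := a) k'
    obtain ⟨s, hs⟩ := ih h1
    obtain ⟨s', hs'⟩ := gs_succ_pre k' h1 h'
    exact ⟨s ++ s', by rw [hs', hs]; simp⟩

/-- The real defined by the sequence agrees with every stage. -/
theorem gs_comp (k : ℕ) {t : List (Idx × Bool)} (h : Gs lt f eD eL a k t) (i : Idx) :
    comp i t = pre (Rtab lt f eD eL a i) (comp i t).length := by
  apply List.ext_getElem?
  intro j
  by_cases hj : j < (comp i t).length
  · rw [List.getElem?_eq_getElem hj]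
    rw [pre, List.getElem?_map, List.getElem?_range hj]
    simp only [Option.map_some, Option.some.injEq]
    cases hb : (comp i t)[j] with
    | true =>
      symm
      unfold Rtab
      simp only [decide_eq_true_eq]
      exact ⟨k, t, h, by rw [List.getElem?_eq_getElem hj, hb]⟩
    | false =>
      symm
      unfold Rtab
      simp only [decide_eq_false_iff_not]
      rintro ⟨k', t', h', hb'⟩
      rcases le_total k k' with hk | hk
      · obtain ⟨s, rfl⟩ := gs_pre hk h h'
        rw [comp_append, List.getElem?_append_left hj, List.getElem?_eq_getElem hj, hb] at hb'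
        simp at hb'
      · obtain ⟨s, rfl⟩ := gs_pre hk h' h
        have hj' : j < (comp i t').length := by
          by_contra hcon
          rw [List.getElem?_eq_none (by omega)] at hb'
          simp at hb'
        have h2 : (comp i (t' ++ s))[j]? = some false := by
          rw [List.getElem?_eq_getElem hj, hb]
        rw [comp_append, List.getElem?_append_left hj', hb'] at h2
        simp at h2
  · rw [List.getElem?_eq_none (by omega), List.getElem?_eq_none (by rw [length_pre]; omega)]

/-- If the dense set with index `d` can be met by extending any sequence, it is met. -/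
theorem gs_meets (hD : Function.Surjective eD) (hL : Function.Surjective eL) (d : DIx M)
    (hd : ∀ t0, ∃ s, Meets lt f a d (t0 ++ s)) :
    ∃ t, Meets lt f a d t ∧ ∀ i, comp i t = pre (Rtab lt f eD eL a i) (comp i t).length := by
  obtain ⟨k, rfl⟩ := hD d
  obtain ⟨t, ht⟩ := gs_ex (lt := lt) (f := f) (eD := eD) (eL := eL) (a := a) (k + 1)
  refine ⟨t, ?_, fun i => gs_comp (k + 1) ht i⟩
  obtain ⟨t0, h0, h1⟩ := ht
  rcases h1 with ⟨n, rfl, hm, -⟩ | ⟨-, hno⟩
  · exact hm
  · obtain ⟨s, hs⟩ := hd t0
    obtain ⟨n, rfl⟩ := hL s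
    exact absurd hs (hno n)

end gs

section ord
variable {M : Type} (L : LocOp M) (en : Enum M) (c : R2)

theorem meets_dense {a : Ordinal.{0}} (hp : Pres L en c a) (d : DIx M)
    (t0 : List (Idx × Bool)) : ∃ s, Meets ltO (obj L en c) a d (t0 ++ s) := by
  classical
  cases d with
  | E o m p' N =>
    have key : ∀ Q : Ordinal.{0} → Prop, (∀ β, Q β → β ≤ a) → (∀ β β', Q β → Q β' → β = β') →
        ∃ s, ∀ p β, MapC (obj L en c) a p' p → Pt ltO (rr (obj L en c)) a p → N ⊆ p.dom →
          Q β → Bad (rr (obj L en c)) p N (t0 ++ s) ∨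
            ∃ q, Gd ltO (rr (obj L en c)) a p N (t0 ++ s) q ∧ inE ltO (obj L en c) β m q := by
      intro Q hQ1 hQ2
      by_cases hex : ∃ p β, MapC (obj L en c) a p' p ∧ Pt ltO (rr (obj L en c)) a p ∧
        N ⊆ p.dom ∧ Q β
      · obtain ⟨p, β, hmap, hpt, hN, ho⟩ := hex
        obtain ⟨s, hs⟩ := cohen (inE ltO (obj L en c) β m)
          (fun p1 hp1 => (hp β (hQ1 β ho) m p1 hp1).1) p hpt N hN t0
        refine ⟨s, ?_⟩
        intro p1 β1 hmap1 hpt1 hN1 ho1
        obtain rfl := mapC_fun L en c hmap hmap1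
        obtain rfl := hQ2 β β1 ho ho1
        exact hs
      · refine ⟨[], ?_⟩
        intro p1 β1 hmap1 hpt1 hN1 ho1
        exact absurd ⟨p1, β1, hmap1, hpt1, hN1, ho1⟩ hex
    cases o with
    | none =>
      exact key (fun β => β = a) (fun β h => le_of_eq h) (fun β β' h h' => h.trans h'.symm)
    | some k =>
      exact key ((obj L en c a).C k) (fun β h => (C_lt L en c h).le)
        (fun β β' h h' => C_fun L en c h h')
  | D o m l p' N =>
    have key : ∀ Q : Ordinal.{0} → Prop, (∀ β, Q β → β ≤ a) → (∀ β β', Q β → Q β' → β = β') →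
        ∃ s, ∀ p β α, MapC (obj L en c) a p' p → Pt ltO (rr (obj L en c)) a p → N ⊆ p.dom →
          Q β → isLim ltO β → (obj L en c a).C l α → α < β →
          Bad (rr (obj L en c)) p N (t0 ++ s) ∨
            ∃ q, Gd ltO (rr (obj L en c)) a p N (t0 ++ s) q ∧
              inD ltO (obj L en c) β m α q := by
      intro Q hQ1 hQ2
      by_cases hex : ∃ p β α, MapC (obj L en c) a p' p ∧ Pt ltO (rr (obj L en c)) a p ∧
        N ⊆ p.dom ∧ Q β ∧ isLim ltO β ∧ (obj L en c a).C l α ∧ α < β
      · obtain ⟨p, β, α, hmap, hpt, hN, ho, hlim, hα, hαβ⟩ := hex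
        obtain ⟨s, hs⟩ := cohen (inD ltO (obj L en c) β m α)
          (fun p1 hp1 => (hp β (hQ1 β ho) m p1 hp1).2 hlim α hαβ) p hpt N hN t0
        refine ⟨s, ?_⟩
        intro p1 β1 α1 hmap1 hpt1 hN1 ho1 hlim1 hα1 hlt1
        obtain rfl := mapC_fun L en c hmap hmap1
        obtain rfl := hQ2 β β1 ho ho1
        obtain rfl := C_fun L en c hα hα1
        exact hs
      · refine ⟨[], ?_⟩
        intro p1 β1 α1 hmap1 hpt1 hN1 ho1 hlim1 hα1 hlt1
        exact absurd ⟨p1, β1, α1, hmap1, hpt1, hN1, ho1, hlim1, hα1, hlt1⟩ hex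
    cases o with
    | none =>
      exact key (fun β => β = a) (fun β h => le_of_eq h) (fun β β' h h' => h.trans h'.symm)
    | some k =>
      exact key ((obj L en c a).C k) (fun β h => (C_lt L en c h).le)
        (fun β β' h h' => C_fun L en c h h')
  | ne i k =>
    by_cases hex : ∃ g, (obj L en c a).C k g
    · obtain ⟨g, hg⟩ := hex
      set j := (comp i t0).length with hj
      refine ⟨[(i, !(rr (obj L en c) g i j))], ?_⟩
      intro g1 hg1 heq
      obtain rfl := C_fun L en c hg hg1
      have hc : comp i (t0 ++ [(i, !(rr (obj L en c) g i j))]) =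
          comp i t0 ++ [!(rr (obj L en c) g i j)] := by
        rw [comp_append]
        exact congrArg _ (comp_replicate i _ 1)
      rw [hc] at heq
      have h1 : (comp i t0 ++ [!(rr (obj L en c) g i j)])[j]? =
          some (!(rr (obj L en c) g i j)) := by
        rw [List.getElem?_append_right (by omega)]
        simp [hj]
      rw [heq, pre, List.getElem?_map, List.getElem?_range (by simp [hj])] at h1
      simp at h1
    · refine ⟨[], ?_⟩
      intro g1 hg1
      exact absurd ⟨g1, hg1⟩ hex
  | len i j =>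
    refine ⟨List.replicate (j + 1) (i, false), ?_⟩
    show j < (comp i (t0 ++ List.replicate (j + 1) (i, false))).length
    rw [comp_append, comp_replicate]
    simp
    omega

theorem r_meets {a : Ordinal.{0}} (_hs : Surj L en c a) (hp : Pres L en c a) (d : DIx M) :
    ∃ t, Meets ltO (obj L en c) a d t ∧
      ∀ i, comp i t = pre (rr (obj L en c) a i) (comp i t).length := by
  have h := gs_meets (lt := ltO) (f := obj L en c) (a := a) en.eDs en.eLs d
    (meets_dense L en c hp d)
  have hr : rr (obj L en c) a = Rtab ltO (obj L en c) en.eD en.eL a := obj_r L en c a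
  rw [hr]
  exact h

theorem r_ne {a g : Ordinal.{0}} (hs : Surj L en c a) (hp : Pres L en c a) (hg : g < a)
    (i : Idx) : rr (obj L en c) a i ≠ rr (obj L en c) g i := by
  intro heq
  obtain ⟨k, hk⟩ := hs g hg
  obtain ⟨t, ht, hc⟩ := r_meets L en c hs hp (DIx.ne i k)
  refine ht g hk ?_
  have h1 := hc i
  rw [heq] at h1
  exact h1

end ord

end Pool.Agent.Helper78.ITTM
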