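import Pool.Agent.Helper78.ITTM.CondBasic

/-! Existence and countability of the least good ordinal. -/

namespace Pool.Agent.Helper78.ITTM

section ord
variable {M : Type} (L : LocOp M) (en : Enum M) (c : R2)

theorem V_mono {f : Ordinal.{0} → Dat M Ordinal.{0}} {a α α' h : Ordinal.{0}} (hα : α ≤ α')
    (hV : V ltO f a α h) : V ltO f a α' h := by
  obtain ⟨h1, m, p, hp, hh⟩ := hV
  refine ⟨h1, m, p, pt_mono (fun g hg => lt_of_lt_of_le hg hα) hp, ?_⟩
  rcases hh with ⟨α'', h2, h3⟩ | h3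
  · exact Or.inl ⟨α'', fun h4 => h2 (lt_of_le_of_lt hα h4), h3⟩
  · exact Or.inr h3

theorem z0_down {f : Ordinal.{0} → Dat M Ordinal.{0}} {a δ α : Ordinal.{0}} {m : M}
    {q : Cond Ordinal.{0}} (hδa : δ ≤ a) (h : Z0 ltO f a m α q) : Z0 ltO f δ m α q :=
  fun β hβ hβα q' hq' hq'q =>
    h β (lt_of_lt_of_le hβ hδa) hβα q' (pt_mono (fun _ hg => lt_of_lt_of_le hg hδa) hq') hq'q

theorem z0_up {f : Ordinal.{0} → Dat M Ordinal.{0}} {a δ h : Ordinal.{0}} {m : M}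
    {q : Cond Ordinal.{0}} (ha : isLim ltO a) (hh : h < δ)
    (hcl : ∀ α, α < δ → ∃ β, α < β ∧ β < δ ∧ CP ltO f a β)
    (hq : Pt ltO (rr f) h q) (hz : Z0 ltO f δ m h q) : Z0 ltO f a m h q := by
  intro β' hβ' hβ'h q' hq' hq'q hB
  have hle : h ≤ β' := not_lt.1 hβ'h
  -- `gP` holds below `a`
  have hg : gP ltO f m h q (β' + 1) := by
    refine ⟨β', lt_add_one β', hβ'h, res ltO β' q', ?_, ?_, ?_⟩
    · exact pt_mono (fun g hg => lt_trans hg (lt_add_one β')) (pt_res hq')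
    · have h1 : res ltO β' q = q :=
        res_eq (pt_mono (fun g hg => lt_of_lt_of_le hg hle) hq)
      have h2 : Ext (rr f) (res ltO β' q') (res ltO β' q) := res_ext hq'q
      rwa [h1] at h2
    · rw [res_res (fun g hg => hg)]
      exact hB
  have hne : {x | gP ltO f m h q x}.Nonempty := ⟨_, hg⟩
  let hs := sInf {x | gP ltO f m h q x}
  have hs1 : gP ltO f m h q hs := csInf_mem hne
  have hs2 : ∀ b, b < hs → ¬ gP ltO f m h q b := fun b hb hgb =>
    notMem_of_lt_csInf hb (OrderBot.bddBelow _) hgb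
  have hs3 : hs < a := by
    obtain ⟨b', hb1, hb2⟩ := ha.2 β' hβ'
    have h6 : hs ≤ β' + 1 := csInf_le (OrderBot.bddBelow _) hg
    exact lt_of_le_of_lt (h6.trans (Order.add_one_le_of_lt hb1)) hb2
  have hV : V ltO f a h hs := ⟨hs3, m, q, hq, Or.inl ⟨h, lt_irrefl h, hs1, hs2⟩⟩
  obtain ⟨β1, hβ1, hβ1δ, hcp⟩ := hcl h hh
  have hs4 : hs < β1 := hcp.2.2 h hs hβ1 hV
  obtain ⟨β2, h1, h2, q2, h3, h4, h5⟩ := hs1
  exact hz β2 (h1.trans (hs4.trans hβ1δ)) h2 q2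
    (pt_mono (fun g hg => lt_trans (lt_trans hg hs4) hβ1δ) h3) h4 h5

theorem zP_iff {f : Ordinal.{0} → Dat M Ordinal.{0}} {a δ h : Ordinal.{0}} {m : M}
    {p : Cond Ordinal.{0}} (ha : isLim ltO a) (hδa : δ < a) (hh : h < δ)
    (hcl : ∀ α, α < δ → ∃ β, α < β ∧ β < δ ∧ CP ltO f a β) :
    zP ltO f δ m p h ↔ zP ltO f a m p h := by
  constructor
  · rintro ⟨q, h1, h2, h3⟩
    exact ⟨q, h1, h2, z0_up ha hh hcl h1 h3⟩
  · rintro ⟨q, h1, h2, h3⟩
    exact ⟨q, h1, h2, z0_down hδa.le h3⟩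

theorem cp_restrict {f : Ordinal.{0} → Dat M Ordinal.{0}} {a δ β : Ordinal.{0}}
    (ha : isLim ltO a) (hδa : δ < a)
    (hcl : ∀ α, α < δ → ∃ β, α < β ∧ β < δ ∧ CP ltO f a β) (hβ : β < δ)
    (h : CP ltO f a β) : CP ltO f δ β := by
  refine ⟨hβ, h.2.1, fun α x hα hV => h.2.2 α x hα ?_⟩
  obtain ⟨h1, m, p, hp, hh⟩ := hV
  refine ⟨h1.trans hδa, m, p, hp, ?_⟩
  rcases hh with ⟨α'', h2, h3⟩ | ⟨h3, h4⟩
  · exact Or.inl ⟨α'', h2, h3⟩
  · refine Or.inr ⟨(zP_iff ha hδa h1 hcl).1 h3, fun b hb hz => h4 b hb ?_⟩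
    exact (zP_iff ha hδa (lt_trans hb h1) hcl).2 hz

/-- `a` is assumed to be a limit. -/
theorem sg_restrict {a δ : Ordinal.{0}} (ha : isLim ltO a) (hδa : δ < a) (hδ : isLim ltO δ)
    (h : ∀ α, α < δ → ∃ β, α < β ∧ β < δ ∧ CP ltO (obj L en c) a β) :
    SG ltO (obj L en c) δ := by
  refine ⟨hδ, fun α hα => ?_⟩
  obtain ⟨β, h1, h2, h3⟩ := h α hα
  exact ⟨β, h1, cp_restrict ha hδa h h2 h3⟩

theorem cond_countable {α : Ordinal.{0}} (hα : (Set.Iio α).Countable) :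
    {p : Cond Ordinal.{0} | ∀ i g, (i, g) ∈ p.F → g < α}.Countable := by
  have hS : ((Set.univ : Set Idx) ×ˢ Set.Iio α).Countable := Set.countable_univ.prod hα
  have h1 := Set.countable_ofPred_finite_subset hS
  have h2 : ((Set.univ : Set (Finset Idx)) ×ˢ ((Set.univ : Set (Finset Idx)) ×ˢ
      {t : Set (Idx × Ordinal.{0}) | t.Finite ∧ t ⊆ (Set.univ : Set Idx) ×ˢ Set.Iio α})).Countable :=
    Set.countable_univ.prod (Set.countable_univ.prod h1)
  refine Set.MapsTo.countable_of_injOn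
    (f := fun p : Cond Ordinal.{0} => (p.dom, p.tr, (p.F : Set (Idx × Ordinal.{0})))) ?_ ?_ h2
  · intro p hp
    refine ⟨Set.mem_univ _, Set.mem_univ _, p.F.finite_toSet, ?_⟩
    rintro ⟨i, g⟩ hz
    exact ⟨Set.mem_univ _, hp i g hz⟩
  · intro p _ q _ hpq
    simp only [Prod.mk.injEq, Finset.coe_inj] at hpq
    exact Cond.ext hpq.1 hpq.2.1 hpq.2.2

theorem V_countable [Countable M] {f : Ordinal.{0} → Dat M Ordinal.{0}} {a α : Ordinal.{0}}
    (hα : (Set.Iio α).Countable) : {h | V ltO f a α h}.Countable := by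
  have hα' : (Set.Iic α).Countable := by
    rw [← Set.Iio_union_right]
    exact hα.union (Set.countable_singleton α)
  have hC := cond_countable hα
  have h1 : {h | V ltO f a α h} ⊆
      (⋃ m : M, ⋃ p ∈ {p : Cond Ordinal.{0} | ∀ i g, (i, g) ∈ p.F → g < α},
        ⋃ α' ∈ Set.Iic α, {h | isLeast ltO (gP ltO f m α' p) h}) ∪
      (⋃ m : M, ⋃ p ∈ {p : Cond Ordinal.{0} | ∀ i g, (i, g) ∈ p.F → g < α},
        {h | isLeast ltO (zP ltO f a m p) h}) := by
    rintro h ⟨-, m, p, hp, ⟨α', h2, h3⟩ | h3⟩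
    · refine Or.inl (Set.mem_iUnion.2 ⟨m, Set.mem_iUnion₂.2 ⟨p, hp.2, Set.mem_iUnion₂.2
        ⟨α', not_lt.1 h2, h3⟩⟩⟩)
    · exact Or.inr (Set.mem_iUnion.2 ⟨m, Set.mem_iUnion₂.2 ⟨p, hp.2, h3⟩⟩)
  have hsub : ∀ P : Ordinal.{0} → Prop, {h | isLeast ltO P h}.Countable := by
    intro P
    refine Set.Subsingleton.countable ?_
    rintro x ⟨hx, hx'⟩ y ⟨hy, hy'⟩
    rcases lt_trichotomy x y with h | h | h
    · exact absurd hx (hy' x h)
    · exact h
    · exact absurd hy (hx' y h)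
  refine Set.Countable.mono h1 (Set.Countable.union ?_ ?_)
  · exact Set.countable_iUnion (fun m => hC.biUnion (fun p _ => hα'.biUnion (fun α' _ => hsub _)))
  · exact Set.countable_iUnion (fun m => hC.biUnion (fun p _ => hsub _))

open Ordinal Cardinal in
theorem card_le_of_lt {α : Ordinal.{0}} (hα : α < ω₁) : α.card ≤ ℵ₀ := by
  have h := lt_omega_iff_card_lt.1 hα
  rw [← succ_aleph0, Order.lt_succ_iff] at h
  exact h

open Ordinal Cardinal in
theorem iio_countable {α : Ordinal.{0}} (hα : α < ω₁) : (Set.Iio α).Countable := by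
  rw [← Cardinal.le_aleph0_iff_set_countable, Cardinal.mk_Iio_ordinal]
  have h := card_le_of_lt hα
  exact lift_le_aleph0.2 h

open Ordinal in
theorem isLim_omega1 : isLim ltO (ω₁ : Ordinal.{0}) := by
  refine ⟨⟨0, omega_pos 1⟩, fun b hb => ⟨b + 1, lt_add_one b, ?_⟩⟩
  exact (Cardinal.isSuccLimit_omega 1).add_one_lt hb

open Ordinal in
/-- the closure points of `ω₁` are unbounded -/
theorem cp_omega1 [Countable M] (f : Ordinal.{0} → Dat M Ordinal.{0}) {α : Ordinal.{0}}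
    (hα : α < ω₁) : ∃ β, α < β ∧ CP ltO f ω₁ β := by
  have hstep : ∀ γ : Ordinal.{0}, γ < ω₁ → ∃ γ', γ < γ' ∧ γ' < ω₁ ∧
      ∀ h, V ltO f ω₁ γ h → h < γ' := by
    intro γ hγ
    have hc : Countable {h | V ltO f ω₁ γ h} := (V_countable (iio_countable hγ)).to_subtype
    have h1 : ⨆ h : {h | V ltO f ω₁ γ h}, (h : Ordinal.{0}) < ω₁ :=
      Ordinal.iSup_lt_omega_one (fun h => h.2.1)
    refine ⟨max γ (⨆ h : {h | V ltO f ω₁ γ h}, (h : Ordinal.{0})) + 1, ?_, ?_, ?_⟩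
    · exact lt_of_le_of_lt (le_max_left _ _) (lt_add_one _)
    · exact (Cardinal.isSuccLimit_omega 1).add_one_lt (max_lt hγ h1)
    · intro h hh
      have hb : BddAbove (Set.range (fun h : {h | V ltO f ω₁ γ h} => (h : Ordinal.{0}))) :=
        ⟨ω₁, by rintro _ ⟨h, rfl⟩; exact h.2.1.le⟩
      have h2 : h ≤ ⨆ h : {h | V ltO f ω₁ γ h}, (h : Ordinal.{0}) :=
        le_ciSup hb (⟨h, hh⟩ : {h | V ltO f ω₁ γ h})
      exact lt_of_le_of_lt (h2.trans (le_max_right _ _)) (lt_add_one _)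
  choose! g hg1 hg2 hg3 using hstep
  let s : ℕ → Ordinal.{0} := fun n => g^[n] α
  have hs : ∀ n, s n < ω₁ := by
    intro n
    induction n with
    | zero => exact hα
    | succ n ih => simp only [s, Function.iterate_succ_apply'] at ih ⊢; exact hg2 _ ih
  have hs1 : ∀ n, s n < s (n + 1) := by
    intro n
    have := hg1 (s n) (hs n)
    simpa only [s, Function.iterate_succ_apply'] using this
  have hs3 : ∀ n h, V ltO f ω₁ (s n) h → h < s (n + 1) := by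
    intro n h hh
    have := hg3 (s n) (hs n) h hh
    simpa only [s, Function.iterate_succ_apply'] using this
  have hb : BddAbove (Set.range s) := ⟨ω₁, by rintro _ ⟨n, rfl⟩; exact (hs n).le⟩
  have hlt : ∀ n, s n < ⨆ n, s n := fun n => lt_of_lt_of_le (hs1 n) (le_ciSup hb (n + 1))
  refine ⟨⨆ n, s n, hlt 0, Ordinal.iSup_lt_omega_one hs, ⟨⟨α, hlt 0⟩, ?_⟩, ?_⟩
  · intro b hb'
    obtain ⟨n, hn⟩ := (lt_ciSup_iff hb).1 hb'
    exact ⟨s n, hn, hlt n⟩
  · intro γ h hγ hV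
    obtain ⟨n, hn⟩ := (lt_ciSup_iff hb).1 hγ
    exact (hs3 n h (V_mono hn.le hV)).trans (hlt (n + 1))

open Ordinal in
theorem sg_exists [Countable M] : ∃ a : Ordinal.{0}, a.card ≤ Cardinal.aleph0 ∧
    SG ltO (obj L en c) a := by
  have hstep : ∀ α : Ordinal.{0}, α < ω₁ → ∃ β, α < β ∧ CP ltO (obj L en c) ω₁ β :=
    fun α hα => cp_omega1 (obj L en c) hα
  choose! g hg1 hg2 using hstep
  let s : ℕ → Ordinal.{0} := fun n => g^[n] 0
  have hs : ∀ n, s n < ω₁ := by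
    intro n
    induction n with
    | zero => exact omega_pos 1
    | succ n ih => simp only [s, Function.iterate_succ_apply'] at ih ⊢; exact (hg2 _ ih).1
  have hs1 : ∀ n, s n < s (n + 1) := by
    intro n
    have := hg1 (s n) (hs n)
    simpa only [s, Function.iterate_succ_apply'] using this
  have hs3 : ∀ n, CP ltO (obj L en c) ω₁ (s (n + 1)) := by
    intro n
    have := hg2 (s n) (hs n)
    simpa only [s, Function.iterate_succ_apply'] using this
  have hb : BddAbove (Set.range s) := ⟨ω₁, by rintro _ ⟨n, rfl⟩; exact (hs n).le⟩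
  have hlt : ∀ n, s n < ⨆ n, s n := fun n => lt_of_lt_of_le (hs1 n) (le_ciSup hb (n + 1))
  have hlt1 : ⨆ n, s n < ω₁ := Ordinal.iSup_lt_omega_one hs
  refine ⟨⨆ n, s n, card_le_of_lt hlt1, sg_restrict L en c isLim_omega1 hlt1 ⟨⟨0, hlt 0⟩, ?_⟩ ?_⟩
  · intro b hb'
    obtain ⟨n, hn⟩ := (lt_ciSup_iff hb).1 hb'
    exact ⟨s n, hn, hlt n⟩
  · intro α hα
    obtain ⟨n, hn⟩ := (lt_ciSup_iff hb).1 hα
    exact ⟨s (n + 1), hn.trans (hs1 n), hlt (n + 1), hs3 n⟩

theorem kap_sg [Countable M] : SG ltO (obj L en c) (kap L en c) := by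
  obtain ⟨a, -, ha⟩ := sg_exists L en c
  exact csInf_mem (s := {a | SG ltO (obj L en c) a}) ⟨a, ha⟩

theorem kap_card [Countable M] : (kap L en c).card ≤ Cardinal.aleph0 := by
  obtain ⟨a, h1, ha⟩ := sg_exists L en c
  refine (Ordinal.card_le_card (csInf_le (OrderBot.bddBelow _) ?_)).trans h1
  exact ha

theorem kap_min {b : Ordinal.{0}} (hb : b < kap L en c) : ¬ SG ltO (obj L en c) b :=
  fun h => notMem_of_lt_csInf hb (OrderBot.bddBelow _) h

end ord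

end Pool.Agent.Helper78.ITTM
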