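import Pool.Agent.Helper78.ITTM.CondBasic
import Pool.Agent.Helper78.ITTM.Locality

/-! Basic properties of the forcing tables. -/

namespace Pool.Agent.Helper78.ITTM

section ord
variable {M : Type} (L : LocOp M) (en : Enum M) (c : R2)

theorem B_pt {a : Ordinal.{0}} {b : Bool} {m : M} {p : Cond Ordinal.{0}}
    (h : (obj L en c a).B b m p) : Pt ltO (rr (obj L en c)) a p := by
  rw [obj_B] at h
  exact h.1

theorem tb_succ_unique {a a' b : Ordinal.{0}} (h : isSucc ltO a b) (h' : isSucc ltO a' b) :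
    a = a' := by
  rcases h.2 a' h'.1 with h1 | h1
  · exact h1.symm
  · rcases h'.2 a h.1 with h2 | h2
    · exact h2
    · exact absurd (lt_trans h1 h2) (lt_irrefl _)

theorem tb_min_succ {a b : Ordinal.{0}} (h : isMin ltO b) (h' : isSucc ltO a b) : False :=
  h a h'.1

theorem tb_min_lim {b : Ordinal.{0}} (h : isMin ltO b) (h' : isLim ltO b) : False := by
  obtain ⟨⟨g, hg⟩, _⟩ := h'
  exact h g hg

theorem tb_succ_lim {a b : Ordinal.{0}} (h : isSucc ltO a b) (h' : isLim ltO b) : False := by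
  obtain ⟨g, hg, hgb⟩ := h'.2 a h.1
  rcases h.2 g hgb with h1 | h1
  · subst h1
    exact lt_irrefl _ hg
  · exact lt_irrefl _ (lt_trans hg h1)

theorem tb_val_ext {Ω : Type*} {r : Ω → Idx → ℕ → Bool} {p q : Cond Ω} (h : Ext r q p) {i : Idx}
    (hi : i ∈ p.dom) : q.val i = p.val i := by
  unfold Cond.val
  have := h.2.1 i hi
  by_cases hq : i ∈ q.tr
  · have hp := this.1 hq
    simp [hq, hp]
  · have hp : i ∉ p.tr := fun h => hq (this.2 h)
    simp [hq, hp]

theorem tb_Z0_mono {Ω : Type*} {M : Type} {lt : Ω → Ω → Prop} {f : Ω → Dat M Ω} {a α : Ω} {m : M}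
    {p q : Cond Ω} (h : Z0 lt f a m α p) (hv : Valid (rr f) p) (hqp : Ext (rr f) q p) :
    Z0 lt f a m α q := by
  intro β hβ hβα s hs hsq
  exact h β hβ hβα s hs (ext_trans hv hsq hqp)

theorem B_open {a : Ordinal.{0}} {b : Bool} {m : M} {p q : Cond Ordinal.{0}}
    (h : (obj L en c a).B b m p) (hq : Pt ltO (rr (obj L en c)) a q)
    (hqp : Ext (rr (obj L en c)) q p) : (obj L en c a).B b m q := by
  induction a using Ordinal.induction generalizing b m p q with
  | h a ih =>
    rw [obj_B] at h ⊢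
    obtain ⟨hp, h⟩ := h
    refine ⟨hq, ?_⟩
    rcases h with h | h | h | h
    · exact Or.inl h
    · right; left
      obtain ⟨a', ha', t, ht, h1, h2, h3⟩ := h
      refine ⟨a', ha', t, ht, fun l hl => ?_, fun i hi => hqp.1 (h2 hi), ?_⟩
      · exact ih a' ha'.1 (h1 l hl) (pt_res hq) (res_ext hqp)
      · rw [← h3]
        exact L.loc c m _ _ _ _ (fun l hl => rfl) (fun i hi => tb_val_ext hqp (h2 hi))
    · right; right; left
      obtain ⟨hl, hb, α, hα, hz⟩ := h
      exact ⟨hl, hb, α, hα, tb_Z0_mono hz hp.1 hqp⟩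
    · right; right; right
      obtain ⟨hl, hb, hz⟩ := h
      exact ⟨hl, hb, fun s hs hsq => hz s hs (ext_trans hp.1 hsq hqp)⟩

theorem B_disj' {a : Ordinal.{0}} {m : M} {p : Cond Ordinal.{0}} {b b' : Bool}
    (h : (obj L en c a).B b m p) (h' : (obj L en c a).B b' m p) : b = b' := by
  induction a using Ordinal.induction generalizing b b' m p with
  | h a ih =>
    rw [obj_B] at h h'
    obtain ⟨hp, h⟩ := h
    obtain ⟨-, h'⟩ := h'
    rcases h with h | h | h | h <;> rcases h' with h' | h' | h' | h'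
    · rw [h.2, h'.2]
    · obtain ⟨a', ha', _⟩ := h'
      exact (tb_min_succ h.1 ha').elim
    · exact (tb_min_lim h.1 h'.1).elim
    · exact (tb_min_lim h.1 h'.1).elim
    · obtain ⟨a', ha', _⟩ := h
      exact (tb_min_succ h'.1 ha').elim
    · obtain ⟨a', ha', t, ht, h1, h2, h3⟩ := h
      obtain ⟨a'', ha'', t', ht', h1', h2', h3'⟩ := h'
      obtain rfl := tb_succ_unique ha' ha''
      rw [← h3, ← h3']
      exact L.loc c m _ _ _ _ (fun l hl => ih a' ha'.1 (h1 l hl) (h1' l hl)) (fun i hi => rfl)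
    · obtain ⟨a', ha', _⟩ := h
      exact (tb_succ_lim ha' h'.1).elim
    · obtain ⟨a', ha', _⟩ := h
      exact (tb_succ_lim ha' h'.1).elim
    · exact (tb_min_lim h'.1 h.1).elim
    · obtain ⟨a', ha', _⟩ := h'
      exact (tb_succ_lim ha' h.1).elim
    · rw [h.2.1, h'.2.1]
    · exact (h'.2.2 p hp (ext_refl p) h.2.2).elim
    · exact (tb_min_lim h'.1 h.1).elim
    · obtain ⟨a', ha', _⟩ := h'
      exact (tb_succ_lim ha' h.1).elim
    · exact (h.2.2 p hp (ext_refl p) h'.2.2).elim
    · rw [h.2.1, h'.2.1]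

theorem B_disj {a : Ordinal.{0}} {m : M} {p : Cond Ordinal.{0}}
    (h : (obj L en c a).B false m p) (h' : (obj L en c a).B true m p) : False := by
  have := B_disj' L en c h h'
  cases this

end ord

end Pool.Agent.Helper78.ITTM
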