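import Pool.Agent.Helper78.ITTM.GenSeq
import Pool.Agent.Helper78.ITTM.Tables
import Pool.Agent.Helper78.ITTM.Run

/-! Truth: the iteration with oracle `x` is decided by the tables along a generic sequence. -/

namespace Pool.Agent.Helper78.ITTM

section ord
variable {M : Type} (L : LocOp M) (en : Enum M) (en2 : Enum2 M) (c : R2)

section seq
variable {L en c} {a : Ordinal.{0}} {x : Idx → Bool} {p : ℕ → Cond Ordinal.{0}}

theorem GenSeq.ext_le (hG : GenSeq L en c a x p) {k l : ℕ} (h : k ≤ l) :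
    Ext (rr (obj L en c)) (p l) (p k) := by
  induction l, h using Nat.le_induction with
  | base => exact ext_refl _
  | succ l hl ih => exact ext_trans (hG.pt k).1 (hG.ext l) ih

theorem GenSeq.x_val (hG : GenSeq L en c a x p) {k : ℕ} {i : Idx} (h : i ∈ (p k).dom) :
    x i = (p k).val i := by
  have hiff : x i = true ↔ i ∈ (p k).tr := by
    rw [hG.x]
    constructor
    · rintro ⟨l, hl⟩
      rcases le_total k l with hkl | hlk
      · exact ((hG.ext_le hkl).2.1 i h).1 hl
      · exact ((hG.ext_le hlk).2.1 i ((hG.pt l).1.1 hl)).2 hl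
    · exact fun h => ⟨k, h⟩
  unfold Cond.val
  by_cases hx : i ∈ (p k).tr
  · rw [hiff.2 hx]
    simp [hx]
  · have : x i = false := by
      rw [← Bool.not_eq_true]
      exact fun h => hx (hiff.1 h)
    rw [this]
    simp [hx]

theorem GenSeq.open (hG : GenSeq L en c a x p) {k l : ℕ} (h : k ≤ l) {γ : Ordinal.{0}}
    {m : M} {b : Bool} (hB : (obj L en c γ).B b m (res ltO γ (p k))) :
    (obj L en c γ).B b m (res ltO γ (p l)) :=
  B_open L en c hB (pt_res (hG.pt l)) (res_ext (hG.ext_le h))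

theorem GenSeq.decE (hG : GenSeq L en c a x p) (hs : Surj L en c a) {γ : Ordinal.{0}}
    (hγ : γ < a) (m : M) : ∃ k b, (obj L en c γ).B b m (res ltO γ (p k)) := by
  obtain ⟨l, hl⟩ := hs γ hγ
  obtain ⟨k, hk⟩ := hG.tgt (.E l m)
  rcases hk γ hl with h | h
  · exact ⟨k, false, h⟩
  · exact ⟨k, true, h⟩

theorem GenSeq.decD (hG : GenSeq L en c a x p) (hs : Surj L en c a) {γ α : Ordinal.{0}}
    (hγ : γ < a) (hl : isLim ltO γ) (hα : α < γ) (m : M) :
    ∃ k, inD ltO (obj L en c) γ m α (p k) := by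
  obtain ⟨l, hl1⟩ := hs γ hγ
  obtain ⟨l', hl2⟩ := hs α (lt_trans hα hγ)
  obtain ⟨k, hk⟩ := hG.tgt (.D l m l')
  exact ⟨k, hk γ α hl1 hl2 hl hα⟩

end seq

theorem tr_min {γ : Ordinal.{0}} (h : isMin ltO γ) : γ = 0 := by
  by_contra h0
  exact h 0 (pos_iff_ne_zero.2 h0)

theorem tr_succ {γ δ : Ordinal.{0}} (h : isSucc ltO δ γ) : γ = δ + 1 := by
  apply le_antisymm
  · by_contra hlt
    push Not at hlt
    rcases h.2 _ hlt with h1 | h1
    · exact absurd h1 (by simp)
    · exact absurd h1 (by simp [ltO])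
  · exact Order.add_one_le_of_lt h.1

theorem tr_lim {γ : Ordinal.{0}} (h : isLim ltO γ) : Order.IsSuccLimit γ := by
  obtain ⟨⟨b, hb⟩, h2⟩ := h
  constructor
  · intro hm
    exact absurd hb (not_lt.2 (hm (le_of_lt hb)))
  · intro b hb
    obtain ⟨b', h1, h3⟩ := h2 b hb.1
    exact hb.2 h1 h3

theorem truth' {a : Ordinal.{0}} (hs : Surj L en c a) {x : Idx → Bool}
    {p : ℕ → Cond Ordinal.{0}} (hG : GenSeq L en c a x p) {γ : Ordinal.{0}} (hγ : γ < a)
    (m : M) (b : Bool) (k : ℕ) (h : (obj L en c γ).B b m (res ltO γ (p k))) :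
    Zit L c x γ m = b := by
  induction γ using Ordinal.induction generalizing m b k with
  | h γ ih =>
    have h0 := h
    rw [obj_B] at h
    obtain ⟨hp, h⟩ := h
    rcases h with h | h | h | h
    · obtain ⟨h1, rfl⟩ := h
      obtain rfl := tr_min h1
      unfold Zit
      rw [iter_zero]
    · obtain ⟨δ, hδ, t, ht, h1, h2, h3⟩ := h
      have hlt : δ < γ := hδ.1
      obtain rfl := tr_succ hδ
      unfold Zit
      rw [iter_succ, ← h3]
      apply L.loc
      · intro l hl
        have := h1 l hl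
        rw [res_res (fun g hg => lt_trans hg hlt)] at this
        exact ih δ hlt (lt_trans hlt hγ) l _ k this
      · intro i hi
        exact hG.x_val (k := k) (h2 hi)
    · obtain ⟨hl, rfl, α, hα, hz⟩ := h
      unfold Zit
      rw [iter_lim _ _ (tr_lim hl)]
      show lsup γ (fun b _ => Zit L c x b m) = false
      rw [lsup_eq_false]
      refine ⟨α, hα, fun β hβ hαβ => ?_⟩
      obtain ⟨k', b', hk'⟩ := hG.decE hs (lt_trans hβ hγ) m
      have hZ := ih β hβ (lt_trans hβ hγ) m b' k' hk'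
      cases b' with
      | false => exact hZ
      | true =>
        exfalso
        have hk2 := hG.open (le_max_right k k') hk'
        refine hz β hβ (not_lt.2 hαβ) (res ltO γ (p (max k k'))) (pt_res (hG.pt _))
          (res_ext (hG.ext_le (le_max_left k k'))) ?_
        rw [res_res (fun g hg => lt_trans hg hβ)]
        exact hk2
    · obtain ⟨hl, rfl, hz⟩ := h
      unfold Zit
      rw [iter_lim _ _ (tr_lim hl)]
      show lsup γ (fun b _ => Zit L c x b m) = true
      rw [lsup_eq_true]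
      intro α hα
      obtain ⟨k', hk'⟩ := hG.decD hs hγ hl hα m
      rcases hk' with ⟨δ, hδ, hδα, hB⟩ | hZ
      · exact ⟨δ, hδ, not_lt.1 hδα, ih δ hδ (lt_trans hδ hγ) m true k' hB⟩
      · exfalso
        refine hz (res ltO γ (p (max k k'))) (pt_res (hG.pt _))
          (res_ext (hG.ext_le (le_max_left k k'))) ⟨α, hα, ?_⟩
        exact tb_Z0_mono hZ (pt_res (hG.pt k') : Pt ltO (rr (obj L en c)) γ _).1
          (res_ext (hG.ext_le (le_max_right k k')))

theorem truth {a : Ordinal.{0}} (ha : isLim ltO a) (hs : Surj L en c a) {x : Idx → Bool}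
    {p : ℕ → Cond Ordinal.{0}} (hG : GenSeq L en c a x p) {γ : Ordinal.{0}} (hγ : γ < a)
    (m : M) (b : Bool) :
    Zit L c x γ m = b ↔ ∃ k, (obj L en c γ).B b m (res ltO γ (p k)) := by
  constructor
  · intro h
    obtain ⟨k, b', hk⟩ := hG.decE hs hγ m
    have := truth' L en c hs hG hγ m b' k hk
    rw [h] at this
    subst this
    exact ⟨k, hk⟩
  · rintro ⟨k, hk⟩
    exact truth' L en c hs hG hγ m b k hk

end ord

end Pool.Agent.Helper78.ITTM
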