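import Pool.Agent.Helper78.ITTM.Kappa
import Pool.Agent.Helper78.ITTM.Truth

/-! The iteration with the oracle given by a generic sequence below a good ordinal cycles
from the first closure point on. -/

namespace Pool.Agent.Helper78.ITTM

/-- an iteration which returns to its starting value `W` and does not switch on cells that are
off in `W` does this for ever -/
theorem cyc {J : Type} (F : (J → Bool) → (J → Bool)) (W : J → Bool) {θ : Ordinal.{0}}
    (hθ : 0 < θ) (h1 : iter F W θ = W)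
    (h2 : ∀ d, d < θ → ∀ j, W j = false → iter F W d j = false) (s : Ordinal.{0}) :
    iter F W (θ * s) = W := by
  induction s using WellFoundedLT.induction with
  | ind s ih =>
    have hdec : ∀ b, b < θ * s → b / θ < s ∧ b = θ * (b / θ) + b % θ ∧ b % θ < θ := fun b hb =>
      ⟨(Ordinal.lt_mul_iff_div_lt hθ.ne').1 hb, (Ordinal.div_add_mod b θ).symm, Ordinal.mod_lt b hθ.ne'⟩
    rcases Ordinal.zero_or_succ_or_isSuccLimit s with hs | ⟨s', hs⟩ | hs
    · rw [hs, mul_zero, iter_zero]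
    · subst hs
      have e : θ * (Order.succ s') = θ * s' + θ := Ordinal.mul_succ θ s'
      rw [e, iter_add, ih s' (Order.lt_succ s'), h1]
    · have hl : Order.IsSuccLimit (θ * s) := Ordinal.isSuccLimit_mul_right hθ hs
      have h0 : 0 < s := hs.bot_lt
      rw [iter_lim _ _ hl]
      funext j
      cases hj : W j with
      | false =>
        rw [lsup_eq_false]
        refine ⟨0, mul_pos hθ h0, fun b hb _ => ?_⟩
        obtain ⟨h3, h4, h5⟩ := hdec b hb
        rw [h4, iter_add, ih _ h3]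
        exact h2 _ h5 j hj
      | true =>
        rw [lsup_eq_true]
        intro b hb
        obtain ⟨h3, h4, h5⟩ := hdec b hb
        have h6 : b / θ + 1 < s := hs.add_one_lt h3
        refine ⟨θ * (b / θ + 1), (mul_lt_mul_iff_right₀ hθ).2 h6, ?_, ?_⟩
        · rw [mul_add, mul_one]
          conv_lhs => rw [h4]
          exact (add_lt_add_right h5 _).le
        · rw [ih _ h6]
          exact hj

theorem cyc' {J : Type} (F : (J → Bool) → (J → Bool)) (W : J → Bool) {θ : Ordinal.{0}}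
    (hθ : 0 < θ) (h1 : iter F W θ = W)
    (h2 : ∀ d, d < θ → ∀ j, W j = false → iter F W d j = false) (d : Ordinal.{0}) (j : J)
    (hj : W j = false) : iter F W d j = false := by
  rw [← Ordinal.div_add_mod d θ, iter_add, cyc F W hθ h1 h2]
  exact h2 _ (Ordinal.mod_lt d hθ.ne') j hj

section ord
variable {M : Type} (L : LocOp M) (en : Enum M) (c : R2)

/-- finitely many promises are bounded below a limit -/
theorem pt_bdd {f : Ordinal.{0} → Idx → ℕ → Bool} {b α : Ordinal.{0}} {q : Cond Ordinal.{0}}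
    (hb : isLim ltO b) (hα : α < b) (hq : Pt ltO f b q) :
    ∃ α', α ≤ α' ∧ α' < b ∧ Pt ltO f α' q := by
  have key : ∀ S : Finset (Idx × Ordinal.{0}), (∀ z ∈ S, z.2 < b) →
      ∃ α', α ≤ α' ∧ α' < b ∧ ∀ z ∈ S, z.2 < α' := by
    intro S
    induction S using Finset.induction_on with
    | empty => exact fun _ => ⟨α, le_rfl, hα, fun z hz => absurd hz (Finset.notMem_empty z)⟩
    | insert z S _ ih =>
      intro h
      obtain ⟨α', h1, h2, h3⟩ := ih (fun w hw => h w (Finset.mem_insert_of_mem hw))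
      obtain ⟨δ, h4, h5⟩ := hb.2 z.2 (h z (Finset.mem_insert_self z S))
      refine ⟨max α' δ, h1.trans (le_max_left _ _), max_lt h2 h5, fun w hw => ?_⟩
      rcases Finset.mem_insert.1 hw with rfl | hw
      · exact lt_of_lt_of_le h4 (le_max_right _ _)
      · exact lt_of_lt_of_le (h3 w hw) (le_max_left _ _)
  obtain ⟨α', h1, h2, h3⟩ := key q.F (fun z hz => hq.2 z.1 z.2 hz)
  exact ⟨α', h1, h2, hq.1, fun i g hg => h3 (i, g) hg⟩

theorem least_of {P : Ordinal.{0} → Prop} {h : Ordinal.{0}} (hh : P h) :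
    ∃ h', h' ≤ h ∧ isLeast ltO P h' := by
  refine ⟨sInf {x | P x}, csInf_le (OrderBot.bddBelow _) hh,
    csInf_mem (s := {x | P x}) ⟨h, hh⟩, fun b hb hPb => ?_⟩
  exact notMem_of_lt_csInf hb (OrderBot.bddBelow _) hPb

/-- zeros forced at a closure point are forced up to `a` -/
theorem z0_cp {f : Ordinal.{0} → Dat M Ordinal.{0}} {a b α : Ordinal.{0}} {m : M}
    {q : Cond Ordinal.{0}} (ha : isLim ltO a) (hb : CP ltO f a b) (hα : α < b)
    (hq : Pt ltO (rr f) b q) (hz : Z0 ltO f b m α q) : Z0 ltO f a m α q := by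
  intro β' hβ' hβ'α q' hq' hq'q hB
  obtain ⟨h, h1, h2, h3⟩ := pt_bdd ha hβ' hq'
  obtain ⟨h', h4, h5⟩ := ha.2 h h2
  have hg : gP ltO f m α q h' := by
    refine ⟨β', lt_of_le_of_lt h1 h4, hβ'α, q', ?_, hq'q, hB⟩
    exact pt_mono (fun g hg => lt_trans hg h4) h3
  obtain ⟨hs, h6, h7⟩ := least_of hg
  obtain ⟨α1, h8, h9, h10⟩ := pt_bdd hb.2.1 hα hq
  have hV : V ltO f a α1 hs := ⟨lt_of_le_of_lt h6 h5, m, q, h10,
    Or.inl ⟨α, not_lt.2 h8, h7⟩⟩
  have h11 : hs < b := hb.2.2 α1 hs h9 hV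
  obtain ⟨β2, k1, k2, q2, k3, k4, k5⟩ := h7.1
  exact hz β2 (lt_trans k1 h11) k2 q2 (pt_mono (fun g hg => lt_trans hg h11) k3) k4 k5

theorem b_lim_false {a : Ordinal.{0}} {m : M} {q : Cond Ordinal.{0}} (ha : isLim ltO a)
    (h : (obj L en c a).B false m q) : ∃ α, α < a ∧ Z0 ltO (obj L en c) a m α q := by
  rw [obj_B] at h
  rcases h.2 with h | h | h | h
  · obtain ⟨⟨b, hb⟩, -⟩ := ha
    exact absurd hb (h.1 b)
  · obtain ⟨a', ha', -⟩ := h
    obtain ⟨b', h1, h2⟩ := ha.2 a' ha'.1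
    rcases ha'.2 b' h2 with h3 | h3
    · exact absurd h1 (by rw [h3]; exact lt_irrefl _)
    · exact absurd h1 (lt_asymm h3)
  · exact h.2.2
  · exact absurd h.2.1 (by simp)

theorem b_lim_true {a : Ordinal.{0}} {m : M} {q : Cond Ordinal.{0}} (ha : isLim ltO a)
    (h : (obj L en c a).B true m q) : ∀ q', Pt ltO (rr (obj L en c)) a q' →
      Ext (rr (obj L en c)) q' q → ¬ ∃ α, α < a ∧ Z0 ltO (obj L en c) a m α q' := by
  rw [obj_B] at h
  rcases h.2 with h | h | h | h
  · exact absurd h.2 (by simp)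
  · obtain ⟨a', ha', -⟩ := h
    obtain ⟨b', h1, h2⟩ := ha.2 a' ha'.1
    rcases ha'.2 b' h2 with h3 | h3
    · exact absurd h1 (by rw [h3]; exact lt_irrefl _)
    · exact absurd h1 (lt_asymm h3)
  · exact absurd h.2.1 (by simp)
  · exact h.2.2

section seq
variable {L en c} {a : Ordinal.{0}} {x : Idx → Bool} {p : ℕ → Cond Ordinal.{0}}

/-- a zero at a closure point is forced up to `a` by some condition of the sequence -/
theorem zero_forced (ha : isLim ltO a) (hs : Surj L en c a) (hG : GenSeq L en c a x p)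
    {b : Ordinal.{0}} (hb : CP ltO (obj L en c) a b) {m : M} (hZ : Zit L c x b m = false) :
    ∃ k α, α < b ∧ Z0 ltO (obj L en c) a m α (p k) := by
  obtain ⟨k, hk⟩ := (truth L en c ha hs hG hb.1 m false).1 hZ
  obtain ⟨α, hα, hz⟩ := b_lim_false L en c hb.2.1 hk
  have h1 : Z0 ltO (obj L en c) a m α (res ltO b (p k)) :=
    z0_cp ha hb hα (pt_res (hG.pt k)) hz
  refine ⟨k, α, hα, fun β hβ hβα q hq hqp => h1 β hβ hβα q hq ?_⟩
  exact ext_trans (pt_res (lt := ltO) (b := b) (hG.pt k)).1 hqp (ext_res (hG.pt k).1)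

theorem zero_stays (ha : isLim ltO a) (hs : Surj L en c a) (hG : GenSeq L en c a x p)
    {b : Ordinal.{0}} (hb : CP ltO (obj L en c) a b) {m : M} (hZ : Zit L c x b m = false)
    {γ : Ordinal.{0}} (hγ : b ≤ γ) (hγa : γ < a) : Zit L c x γ m = false := by
  obtain ⟨k, α, hα, hz⟩ := zero_forced ha hs hG hb hZ
  by_contra hne
  rw [Bool.not_eq_false] at hne
  obtain ⟨k', hk'⟩ := (truth L en c ha hs hG hγa m true).1 hne
  exact hz γ hγa (not_lt.2 (hα.le.trans hγ)) (p (max k k')) (hG.pt _)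
    (hG.ext_le (le_max_left k k')) (hG.open (le_max_right k k') hk')

theorem zero_back (ha : isLim ltO a) (hs : Surj L en c a) (hG : GenSeq L en c a x p)
    {b b' : Ordinal.{0}} (hb : CP ltO (obj L en c) a b) (hb' : CP ltO (obj L en c) a b')
    {m : M} (hZ : Zit L c x b' m = false) : Zit L c x b m = false := by
  by_contra hne
  rw [Bool.not_eq_false] at hne
  obtain ⟨k, α, hα, hz⟩ := zero_forced ha hs hG hb' hZ
  obtain ⟨k1, hk1⟩ := (truth L en c ha hs hG hb.1 m true).1 hne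
  have hB := hG.open (le_max_right k k1) hk1
  have hz' : Z0 ltO (obj L en c) a m α (p (max k k1)) := fun β hβ hβα q hq hqp =>
    hz β hβ hβα q hq (ext_trans (hG.pt k).1 hqp (hG.ext_le (le_max_left k k1)))
  obtain ⟨h, h1, h2, h3⟩ := pt_bdd ha (lt_trans hα hb'.1) (hG.pt (max k k1))
  have hzP : zP ltO (obj L en c) a m (res ltO b (p (max k k1))) h := by
    refine ⟨p (max k k1), h3, ext_res (hG.pt _).1, fun β hβ hβh q hq hqp => ?_⟩
    exact hz' β hβ (fun h4 => hβh (lt_of_lt_of_le h4 h1)) q hq hqp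
  obtain ⟨hs', h4, h5⟩ := least_of hzP
  have hptb : Pt ltO (rr (obj L en c)) b (res ltO b (p (max k k1))) := pt_res (hG.pt _)
  obtain ⟨⟨b0, hb0⟩, -⟩ := hb.2.1
  obtain ⟨α1, -, h6, h7⟩ := pt_bdd hb.2.1 hb0 hptb
  have hV : V ltO (obj L en c) a α1 hs' :=
    ⟨lt_of_le_of_lt h4 h2, m, _, h7, Or.inr h5⟩
  have h8 : hs' < b := hb.2.2 α1 hs' h6 hV
  obtain ⟨q'', k2, k3, k4⟩ := h5.1
  exact b_lim_true L en c hb.2.1 hB q'' (pt_mono (fun g hg => lt_trans hg h8) k2) k3
    ⟨hs', h8, z0_down hb.1.le k4⟩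

end seq

theorem loops {a : Ordinal.{0}} (ha : SG ltO (obj L en c) a) (hs : Surj L en c a)
    {x : Idx → Bool} {p : ℕ → Cond Ordinal.{0}} (hG : GenSeq L en c a x p) :
    ∃ β, β < a ∧ ∀ m, Zit L c x β m = false → ∀ γ, β ≤ γ → Zit L c x γ m = false := by
  obtain ⟨hl, hcp⟩ := ha
  obtain ⟨a0, ha0⟩ := hl.1
  obtain ⟨b, -, hb⟩ := hcp a0 ha0
  obtain ⟨b', hbb', hb'⟩ := hcp b hb.1
  refine ⟨b, hb.1, fun m hm γ hγ => ?_⟩
  have hadd : ∀ d, Zit L c x (b + d) = iter (fun Z m => L.phi c m Z x) (Zit L c x b) d :=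
    fun d => iter_add _ _ b d
  have e : b + (b' - b) = b' := Ordinal.add_sub_cancel_of_le hbb'.le
  have hθ : 0 < b' - b := by
    rw [pos_iff_ne_zero]
    intro h0
    rw [h0, add_zero] at e
    exact absurd e hbb'.ne
  have hret : iter (fun Z m => L.phi c m Z x) (Zit L c x b) (b' - b) = Zit L c x b := by
    rw [← hadd, e]
    funext m
    cases hm : Zit L c x b m with
    | false => exact zero_stays hl hs hG hb hm hbb'.le hb'.1
    | true =>
      by_contra hne
      rw [Bool.not_eq_true] at hne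
      rw [zero_back hl hs hG hb hb' hne] at hm
      exact absurd hm (by simp)
  have hz : ∀ d, d < b' - b → ∀ m, Zit L c x b m = false →
      iter (fun Z m => L.phi c m Z x) (Zit L c x b) d m = false := by
    intro d hd m hm
    rw [← hadd]
    refine zero_stays hl hs hG hb hm (le_add_right le_rfl) ?_
    refine lt_trans ?_ hb'.1
    rw [← e]
    exact add_lt_add_right hd b
  have e2 : b + (γ - b) = γ := Ordinal.add_sub_cancel_of_le hγ
  rw [← e2, hadd]
  exact cyc' _ _ hθ hret hz _ m hm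

end ord

end Pool.Agent.Helper78.ITTM
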