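import Pool.Agent.Helper78.ITTM.BDefs2

/-! Adding the promises given by a real which meets the Cohen dense sets. -/

namespace Pool.Agent.Helper78.ITTM

universe u

theorem cu_pre_get {ρ : ℕ → Bool} {n j : ℕ} {b : Bool} (h : (pre ρ n)[j]? = some b) :
    j < n ∧ b = ρ j := by
  unfold pre at h
  rw [List.getElem?_map] at h
  rcases lt_or_ge j n with hj | hj
  · rw [List.getElem?_range hj] at h
    exact ⟨hj, (Option.some.inj h).symm⟩
  · rw [List.getElem?_eq_none (by simpa using hj)] at h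
    simp at h

theorem cu_pre_get' {ρ : ℕ → Bool} {n j : ℕ} (hj : j < n) : (pre ρ n)[j]? = some (ρ j) := by
  unfold pre
  rw [List.getElem?_map, List.getElem?_range hj]
  rfl

theorem cu_pre_take {ρ : ℕ → Bool} {n j : ℕ} (hj : j ≤ n) : (pre ρ n).take j = pre ρ j := by
  unfold pre
  rw [← List.map_take, List.take_range, min_eq_left hj]

theorem cu_pre_length {ρ : ℕ → Bool} {n : ℕ} : (pre ρ n).length = n := by
  simp [pre]

theorem cu_pre_eq {ρ ρ' : ℕ → Bool} {j : ℕ} (h : pre ρ j = pre ρ' j) {k : ℕ} (hk : k < j) :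
    ρ k = ρ' k := by
  have h1 := cu_pre_get' (ρ := ρ) hk
  rw [h] at h1
  exact (cu_pre_get h1).2

theorem cu_mem_addN {Ω : Type u} {p : Cond Ω} {N : Finset Idx} {a g : Ω} {i : Idx} :
    (i, g) ∈ (p.addN N a).F ↔ (i, g) ∈ p.F ∨ (i ∈ N ∧ g = a) := by
  classical
  unfold Cond.addN
  rw [Finset.mem_union, Finset.mem_image]
  constructor
  · rintro (h | ⟨k, hk, h⟩)
    · exact Or.inl h
    · obtain ⟨rfl, rfl⟩ := Prod.mk.inj h
      exact Or.inr ⟨hk, rfl⟩
  · rintro (h | ⟨h, rfl⟩)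
    · exact Or.inl h
    · exact Or.inr ⟨i, h, rfl⟩

section cond
variable {Ω : Type u} {lt : Ω → Ω → Prop} {r : Ω → Idx → ℕ → Bool}

theorem gd_add {a : Ω} {p q : Cond Ω} {N : Finset Idx} {t : List (Idx × Bool)}
    (hN : N ⊆ p.dom) (h : Gd lt r a p N t q)
    (hr : ∀ i, i ∈ N → comp i t = pre (r a i) (comp i t).length) :
    Valid r (q.addN N a) ∧ Ext r (q.addN N a) (p.addN N a) := by
  obtain ⟨hq, hqp, hG⟩ := h
  have hval : ∀ i, i ∈ p.dom → q.val i = p.val i := by
    intro i hi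
    unfold Cond.val
    exact decide_eq_decide.mpr (hqp.2.1 i hi)
  -- the new promise and an old one
  have key : ∀ i g j, i ∈ N → (i, g) ∈ q.F → j % 2 = (q.val i).toNat →
      pre (r g i) j = pre (r a i) j → Idx.node i (pre (r g i) j) ∉ q.dom →
      r g i j = r a i j := by
    intro i g j hi hg hj hpre hnd
    obtain ⟨j0, b, h1, h2, h3, h4⟩ := (hG i hi).2.2 g hg
    have hri := hr i hi
    rw [hri] at h1 h2
    obtain ⟨hj0, hb⟩ := cu_pre_get h1
    rw [cu_pre_take hj0.le] at h2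
    subst hb
    rcases lt_trichotomy j j0 with hlt | heq | hgt
    · exact (cu_pre_eq h2 hlt).symm
    · subst heq
      rw [hval i (hN hi)] at hj
      exact absurd (h4 hj) hnd
    · exact absurd (cu_pre_eq hpre hgt).symm h3
  refine ⟨⟨hq.1.1, ?_, ?_⟩, hqp.1, hqp.2.1, ?_, ?_⟩
  · intro i g hg
    rcases cu_mem_addN.mp hg with hg | ⟨hi, -⟩
    · exact hq.1.2.1 i g hg
    · exact hqp.1 (hN hi)
  · intro i g g' j hg hg' hj hpre hnd
    rcases cu_mem_addN.mp hg with h1 | ⟨hi, e1⟩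
    · rcases cu_mem_addN.mp hg' with h2 | ⟨hi, e2⟩
      · exact hq.1.2.2 i g g' j h1 h2 hj hpre hnd
      · rw [e2] at hpre ⊢
        exact key i g j hi h1 hj hpre hnd
    · rcases cu_mem_addN.mp hg' with h2 | ⟨hi', e2⟩
      · rw [hpre] at hnd
        rw [e1] at hpre ⊢
        exact (key i g' j hi h2 hj hpre.symm hnd).symm
      · rw [e1, e2]
  · rintro ⟨i, g⟩ hg
    rcases cu_mem_addN.mp hg with hg | hg
    · exact cu_mem_addN.mpr (Or.inl (hqp.2.2.1 hg))
    · exact cu_mem_addN.mpr (Or.inr hg)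
  · intro i g j hg hj hd hnd
    rcases cu_mem_addN.mp hg with hg | ⟨hi, rfl⟩
    · exact hqp.2.2.2 i g j hg hj hd hnd
    · obtain ⟨h1, h2, -⟩ := hG i hi
      have hlen := h2 _ hd
      rw [cu_pre_length] at hlen
      have hri := hr i hi
      have e1 : (comp i t)[j]? = some (r g i j) := by
        rw [hri]
        exact cu_pre_get' hlen
      have e2 : (comp i t).take j = pre (r g i) j := by
        rw [hri]
        exact cu_pre_take hlen.le
      have h3 := h1 j (r g i j) e1 hj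
      rw [e2] at h3
      exact h3 hd hnd

theorem bad_add {a : Ω} {p : Cond Ω} {N : Finset Idx} {t : List (Idx × Bool)}
    (hN : N ⊆ p.dom) (h : Bad r p N t)
    (hr : ∀ i, i ∈ N → comp i t = pre (r a i) (comp i t).length) :
    ¬ Valid r (p.addN N a) := by
  rintro ⟨-, -, hv⟩
  obtain ⟨i, hi, g, hg, j, b, h1, h2, h3, h4, h5⟩ := h
  have hri := hr i hi
  rw [hri] at h1 h3
  obtain ⟨hj, hb⟩ := cu_pre_get h1
  rw [cu_pre_take hj.le] at h3
  have h6 := hv i g a j (cu_mem_addN.mpr (Or.inl hg)) (cu_mem_addN.mpr (Or.inr ⟨hi, rfl⟩)) h2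
    h3.symm h4
  exact h5 (hb.trans h6.symm)

end cond

end Pool.Agent.Helper78.ITTM
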