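import Pool.Agent.Helper78.ITTM.CondBasic

/-! Adding indices and promises to conditions; merging conditions along a block. -/

namespace Pool.Agent.Helper78.ITTM

universe u

theorem pre_length (s : ℕ → Bool) (j : ℕ) : (pre s j).length = j := by
  simp [pre]

theorem pre_eq_iff {s t : ℕ → Bool} {j : ℕ} : pre s j = pre t j ↔ ∀ k, k < j → s k = t k := by
  unfold pre
  rw [List.map_inj_left]
  simp

section cond
variable {Ω : Type u} {lt : Ω → Ω → Prop} {r : Ω → Idx → ℕ → Bool}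

theorem addI_gen {p : Cond Ω} (hp : Valid r p) (i : Idx) (hi : i ∉ p.dom) (b : Bool)
    (hb : ∀ i' g j, (i', g) ∈ p.F → j % 2 = (p.val i').toNat →
      Idx.node i' (pre (r g i') j) = i → (b = true ↔ r g i' j = true)) :
    Valid r (p.addI i b) ∧ Ext r (p.addI i b) p := by
  have hit : i ∉ p.tr := fun h => hi (hp.1 h)
  have htr : ∀ x, x ∈ (p.addI i b).tr ↔ (b = true ∧ x = i) ∨ x ∈ p.tr := by
    intro x
    cases b <;> simp [Cond.addI]
  have hdom : ∀ x, x ∈ (p.addI i b).dom ↔ x = i ∨ x ∈ p.dom := by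
    intro x
    simp [Cond.addI]
  have hext : Ext r (p.addI i b) p := by
    refine ⟨fun x hx => (hdom x).2 (Or.inr hx), ?_, fun z hz => hz, ?_⟩
    · intro x hx
      rw [htr]
      constructor
      · rintro (⟨-, rfl⟩ | h)
        · exact absurd hx hi
        · exact h
      · exact Or.inr
    · intro i' g j hF hj hs hn
      have he : Idx.node i' (pre (r g i') j) = i := by
        rcases (hdom _).1 hs with h | h
        · exact h
        · exact absurd h hn
      rw [htr, he, ← hb i' g j hF hj he]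
      constructor
      · rintro (⟨h, -⟩ | h)
        · exact h
        · exact absurd h hit
      · intro h
        exact Or.inl ⟨h, rfl⟩
  refine ⟨⟨?_, ?_, ?_⟩, hext⟩
  · intro x hx
    rcases (htr x).1 hx with ⟨-, rfl⟩ | h
    · exact (hdom _).2 (Or.inl rfl)
    · exact (hdom _).2 (Or.inr (hp.1 h))
  · intro i' g hF
    exact (hdom _).2 (Or.inr (hp.2.1 i' g hF))
  · intro i' g g' j hF hF' hj hpre hn
    rw [val_eq_of_ext hext (hp.2.1 i' g hF)] at hj
    exact hp.2.2 i' g g' j hF hF' hj hpre (fun h => hn ((hdom _).2 (Or.inr h)))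

theorem add_index {p : Cond Ω} (hp : Valid r p) (i : Idx) :
    ∃ q, Valid r q ∧ Ext r q p ∧ i ∈ q.dom ∧ q.F = p.F := by
  classical
  by_cases hi : i ∈ p.dom
  · exact ⟨p, hp, ext_refl p, hi, rfl⟩
  · let P : Prop := ∃ i' g j, (i', g) ∈ p.F ∧ j % 2 = (p.val i').toNat ∧
      Idx.node i' (pre (r g i') j) = i ∧ r g i' j = true
    have h := addI_gen hp i hi (decide P) (by
      intro i' g j hF hj he
      rw [decide_eq_true_iff]
      constructor
      · rintro ⟨i2, g2, j2, hF2, hj2, he2, hr2⟩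
        rw [← he] at he2
        injection he2 with h1 h2
        subst h1
        have hjj : j2 = j := by
          have := congrArg List.length h2
          simpa [pre_length] using this
        subst hjj
        have := hp.2.2 i2 g2 g j2 hF2 hF hj2 h2 (by rw [h2, he]; exact hi)
        rw [← this]
        exact hr2
      · intro hr
        exact ⟨i', g, j, hF, hj, he, hr⟩)
    refine ⟨p.addI i (decide P), h.1, h.2, ?_, rfl⟩
    simp [Cond.addI]

theorem add_root {p : Cond Ω} (hp : Valid r p) (l : ℚ) (hl : Idx.root l ∉ p.dom) (b : Bool) :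
    Valid r (p.addI (Idx.root l) b) ∧ Ext r (p.addI (Idx.root l) b) p := by
  apply addI_gen hp _ hl
  intro i' g j _ _ he
  cases he

theorem add_indices {p : Cond Ω} (hp : Valid r p) (S : Finset Idx) :
    ∃ q, Valid r q ∧ Ext r q p ∧ S ⊆ q.dom ∧ q.F = p.F := by
  classical
  induction S using Finset.induction_on with
  | empty => exact ⟨p, hp, ext_refl p, Finset.empty_subset _, rfl⟩
  | insert i S _ ih =>
    obtain ⟨q, hq, hqp, hS, hF⟩ := ih
    obtain ⟨s, hs, hsq, hi, hFs⟩ := add_index hq i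
    refine ⟨s, hs, ext_trans hp hsq hqp, ?_, hFs.trans hF⟩
    intro x hx
    rcases Finset.mem_insert.1 hx with rfl | hx
    · exact hi
    · exact hsq.1 (hS hx)

theorem add_promise {p : Cond Ω} (hp : Valid r p) {i : Idx} (hi : i ∈ p.dom) (g : Ω) :
    ∃ q, Valid r q ∧ Ext r q p ∧ (i, g) ∈ q.F ∧ ∀ z, z ∈ q.F → z = (i, g) ∨ z ∈ p.F := by
  classical
  let J : Ω → ℕ := fun g' => if h : ∃ j, r g i j ≠ r g' i j then Nat.find h else 0
  have hJ : ∀ g' j, pre (r g i) j = pre (r g' i) j → r g i j ≠ r g' i j → J g' = j := by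
    intro g' j hpre hne
    have hex : ∃ j, r g i j ≠ r g' i j := ⟨j, hne⟩
    show (if h : ∃ j, r g i j ≠ r g' i j then Nat.find h else 0) = j
    rw [dif_pos hex, Nat.find_eq_iff]
    refine ⟨hne, fun k hk => ?_⟩
    have := (pre_eq_iff.1 hpre) k hk
    simpa using this
  obtain ⟨q, hq, hqp, hS, hF⟩ := add_indices hp
    (p.F.image (fun z => Idx.node i (pre (r g i) (J z.2))))
  have hkey : ∀ g' j, (i, g') ∈ p.F → pre (r g i) j = pre (r g' i) j →
      Idx.node i (pre (r g i) j) ∉ q.dom → r g i j = r g' i j := by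
    intro g' j hF' hpre hn
    by_contra hne
    apply hn
    apply hS
    rw [Finset.mem_image]
    exact ⟨(i, g'), hF', by rw [hJ g' j hpre hne]⟩
  refine ⟨⟨q.dom, q.tr, insert (i, g) q.F⟩, ⟨hq.1, ?_, ?_⟩, ⟨hqp.1, hqp.2.1, ?_, ?_⟩, ?_, ?_⟩
  · intro i' g' hF'
    rcases Finset.mem_insert.1 hF' with h | h
    · injection h with h1 h2
      subst h1
      exact hqp.1 hi
    · exact hq.2.1 i' g' h
  · intro i' g1 g2 j h1 h2 hj hpre hn
    rcases Finset.mem_insert.1 h1 with k1 | k1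
    · injection k1 with ha hb
      subst ha hb
      rcases Finset.mem_insert.1 h2 with k2 | k2
      · injection k2 with hc hd
        rw [hd]
      · rw [hF] at k2
        exact hkey g2 j k2 hpre hn
    · rcases Finset.mem_insert.1 h2 with k2 | k2
      · injection k2 with hc hd
        subst hc hd
        rw [hF] at k1
        exact (hkey g1 j k1 hpre.symm (by rw [← hpre]; exact hn)).symm
      · exact hq.2.2 i' g1 g2 j k1 k2 hj hpre hn
  · intro z hz
    exact Finset.mem_insert_of_mem (hqp.2.2.1 hz)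
  · intro i' g' j hF' hj hs hn
    exact hqp.2.2.2 i' g' j hF' hj hs hn
  · exact Finset.mem_insert_self _ _
  · intro z hz
    rcases Finset.mem_insert.1 hz with h | h
    · exact Or.inl h
    · rw [hF] at h
      exact Or.inr h

theorem mem_mrg_dom {p p' : Cond Ω} {q : ℚ} {i : Idx} : i ∈ (Cond.mrg q p p').dom ↔
    (i ∈ p.dom ∧ i.label < q) ∨ (i ∈ p'.dom ∧ ¬ i.label < q) := by
  classical
  simp [Cond.mrg]

theorem mem_mrg_tr {p p' : Cond Ω} {q : ℚ} {i : Idx} : i ∈ (Cond.mrg q p p').tr ↔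
    (i ∈ p.tr ∧ i.label < q) ∨ (i ∈ p'.tr ∧ ¬ i.label < q) := by
  classical
  simp [Cond.mrg]

theorem mem_mrg_F {p p' : Cond Ω} {q : ℚ} {z : Idx × Ω} : z ∈ (Cond.mrg q p p').F ↔
    (z ∈ p.F ∧ z.1.label < q) ∨ (z ∈ p'.F ∧ ¬ z.1.label < q) := by
  classical
  simp [Cond.mrg]

theorem mem_blk_dom {p : Cond Ω} {q : ℚ} {i : Idx} : i ∈ (p.blk q).dom ↔
    i ∈ p.dom ∧ i.label < q := by
  simp [Cond.blk]

theorem mem_blk_tr {p : Cond Ω} {q : ℚ} {i : Idx} : i ∈ (p.blk q).tr ↔
    i ∈ p.tr ∧ i.label < q := by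
  simp [Cond.blk]

theorem mem_blk_F {p : Cond Ω} {q : ℚ} {z : Idx × Ω} : z ∈ (p.blk q).F ↔
    z ∈ p.F ∧ z.1.label < q := by
  simp [Cond.blk]

theorem label_node (i : Idx) (s : List Bool) : (Idx.node i s).label = i.label := rfl

theorem mrg_val_lt {p p' : Cond Ω} {q : ℚ} {i : Idx} (h : i.label < q) :
    (Cond.mrg q p p').val i = p.val i := by
  unfold Cond.val
  rw [decide_eq_decide, mem_mrg_tr]
  tauto

theorem mrg_val_ge {p p' : Cond Ω} {q : ℚ} {i : Idx} (h : ¬ i.label < q) :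
    (Cond.mrg q p p').val i = p'.val i := by
  unfold Cond.val
  rw [decide_eq_decide, mem_mrg_tr]
  tauto

theorem valid_mrg {p p' : Cond Ω} (q : ℚ) (hp : Valid r p) (hp' : Valid r p') :
    Valid r (Cond.mrg q p p') := by
  refine ⟨?_, ?_, ?_⟩
  · intro i hi
    rw [mem_mrg_tr] at hi
    rw [mem_mrg_dom]
    rcases hi with h | h
    · exact Or.inl ⟨hp.1 h.1, h.2⟩
    · exact Or.inr ⟨hp'.1 h.1, h.2⟩
  · intro i g hi
    rw [mem_mrg_F] at hi
    rw [mem_mrg_dom]
    rcases hi with h | h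
    · exact Or.inl ⟨hp.2.1 i g h.1, h.2⟩
    · exact Or.inr ⟨hp'.2.1 i g h.1, h.2⟩
  · intro i g g' j h1 h2 hj hpre hn
    rw [mem_mrg_F] at h1 h2
    rw [mem_mrg_dom, label_node] at hn
    by_cases hq : i.label < q
    · rw [mrg_val_lt hq] at hj
      have h1' : (i, g) ∈ p.F := by tauto
      have h2' : (i, g') ∈ p.F := by tauto
      exact hp.2.2 i g g' j h1' h2' hj hpre (by tauto)
    · rw [mrg_val_ge hq] at hj
      have h1' : (i, g) ∈ p'.F := by tauto
      have h2' : (i, g') ∈ p'.F := by tauto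
      exact hp'.2.2 i g g' j h1' h2' hj hpre (by tauto)

theorem mrg_self {p : Cond Ω} (q : ℚ) : Cond.mrg q p p = p := by
  apply Cond.ext
  · ext i
    rw [mem_mrg_dom]
    tauto
  · ext i
    rw [mem_mrg_tr]
    tauto
  · ext z
    rw [mem_mrg_F]
    tauto

/-- version for different lower conditions -/
theorem ext_mrg' {p p' s s' : Cond Ω} (q : ℚ) (h0 : Valid r p) (h0' : Valid r p')
    (h : Ext r s p) (h' : Ext r s' p') : Ext r (Cond.mrg q s s') (Cond.mrg q p p') := by
  refine ⟨?_, ?_, ?_, ?_⟩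
  · intro i hi
    rw [mem_mrg_dom] at hi ⊢
    rcases hi with hi | hi
    · exact Or.inl ⟨h.1 hi.1, hi.2⟩
    · exact Or.inr ⟨h'.1 hi.1, hi.2⟩
  · intro i hi
    rw [mem_mrg_dom] at hi
    rw [mem_mrg_tr, mem_mrg_tr]
    rcases hi with hi | hi
    · have := h.2.1 i hi.1
      tauto
    · have := h'.2.1 i hi.1
      tauto
  · intro z hz
    rw [mem_mrg_F] at hz ⊢
    rcases hz with hz | hz
    · exact Or.inl ⟨h.2.2.1 hz.1, hz.2⟩
    · exact Or.inr ⟨h'.2.2.1 hz.1, hz.2⟩
  · intro i g j hF hj hs hn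
    rw [mem_mrg_F] at hF
    rw [mem_mrg_dom, label_node] at hs hn
    rw [mem_mrg_tr, label_node]
    by_cases hq : i.label < q
    · rw [mrg_val_lt hq] at hj
      have h1 : (i, g) ∈ p.F := by tauto
      have h2 := h.2.2.2 i g j h1 hj (by tauto) (by tauto)
      tauto
    · rw [mrg_val_ge hq] at hj
      have h1 : (i, g) ∈ p'.F := by tauto
      have h2 := h'.2.2.2 i g j h1 hj (by tauto) (by tauto)
      tauto

theorem ext_mrg {p0 s s' : Cond Ω} (q : ℚ) (h0 : Valid r p0) (h : Ext r s p0)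
    (h' : Ext r s' p0) : Ext r (Cond.mrg q s s') p0 := by
  have := ext_mrg' q h0 h0 h h'
  rwa [mrg_self] at this

theorem blk_mrg {p p' : Cond Ω} (q : ℚ) : (Cond.mrg q p p').blk q = p.blk q := by
  apply Cond.ext
  · ext i
    rw [mem_blk_dom, mem_blk_dom, mem_mrg_dom]
    tauto
  · ext i
    rw [mem_blk_tr, mem_blk_tr, mem_mrg_tr]
    tauto
  · ext z
    rw [mem_blk_F, mem_blk_F, mem_mrg_F]
    tauto

theorem mrg_blk_congr {p p' s : Cond Ω} (q : ℚ) (h : p.blk q = p'.blk q) :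
    Cond.mrg q p s = Cond.mrg q p' s := by
  apply Cond.ext
  · ext i
    have h1 : i ∈ (p.blk q).dom ↔ i ∈ (p'.blk q).dom := by rw [h]
    rw [mem_blk_dom, mem_blk_dom] at h1
    rw [mem_mrg_dom, mem_mrg_dom]
    tauto
  · ext i
    have h1 : i ∈ (p.blk q).tr ↔ i ∈ (p'.blk q).tr := by rw [h]
    rw [mem_blk_tr, mem_blk_tr] at h1
    rw [mem_mrg_tr, mem_mrg_tr]
    tauto
  · ext z
    have h1 : z ∈ (p.blk q).F ↔ z ∈ (p'.blk q).F := by rw [h]
    rw [mem_blk_F, mem_blk_F] at h1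
    rw [mem_mrg_F, mem_mrg_F]
    tauto

theorem res_mrg {b : Ω} {p p' : Cond Ω} (q : ℚ) :
    res lt b (Cond.mrg q p p') = Cond.mrg q (res lt b p) (res lt b p') := by
  apply Cond.ext
  · ext i
    rw [mem_mrg_dom]
    show i ∈ (Cond.mrg q p p').dom ↔ _
    rw [mem_mrg_dom]
    rfl
  · ext i
    rw [mem_mrg_tr]
    show i ∈ (Cond.mrg q p p').tr ↔ _
    rw [mem_mrg_tr]
    rfl
  · ext z
    rw [mem_res_F, mem_mrg_F, mem_mrg_F, mem_res_F, mem_res_F]
    tauto

theorem res_blk {b : Ω} {p : Cond Ω} (q : ℚ) : res lt b (p.blk q) = (res lt b p).blk q := by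
  apply Cond.ext
  · rfl
  · rfl
  · ext z
    rw [mem_res_F, mem_blk_F, mem_blk_F, mem_res_F]
    tauto

theorem pt_mrg {a : Ω} {p p' : Cond Ω} (q : ℚ) (hp : Pt lt r a p) (hp' : Pt lt r a p') :
    Pt lt r a (Cond.mrg q p p') := by
  refine ⟨valid_mrg q hp.1 hp'.1, ?_⟩
  intro i g hF
  rw [mem_mrg_F] at hF
  rcases hF with h | h
  · exact hp.2 i g h.1
  · exact hp'.2 i g h.1

end cond

end Pool.Agent.Helper78.ITTM
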