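import Pool.Agent.Helper78.ITTM.CondBasic
import Pool.Agent.Helper78.ITTM.CondBasic2
import Pool.Agent.Helper78.ITTM.CohenUse
import Pool.Agent.Helper78.ITTM.Tables
import Pool.Agent.Helper78.ITTM.Enumer
import Pool.Agent.Helper78.ITTM.Generic

/-! Part B, module B7x: the density of the tables is preserved by the generic reals. -/

namespace Pool.Agent.Helper78.ITTM

namespace Preserve

theorem decomp {a : Ordinal.{0}} {r : Ordinal.{0} → Idx → ℕ → Bool} {p : Cond Ordinal.{0}}
    (hp : Pt ltO r (a + 1) p) :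
    ∃ N : Finset Idx, N ⊆ (res ltO a p).dom ∧ (res ltO a p).addN N a = p := by
  classical
  refine ⟨(p.F.filter (fun z => z.2 = a)).image Prod.fst, ?_, ?_⟩
  · intro i hi
    simp only [Finset.mem_image, Finset.mem_filter] at hi
    obtain ⟨z, ⟨hz, hza⟩, rfl⟩ := hi
    exact hp.1.2.1 z.1 z.2 hz
  · refine Cond.ext rfl rfl ?_
    ext ⟨i, g⟩
    simp only [Cond.addN, res, Finset.mem_union, Finset.mem_filter, Finset.mem_image]
    constructor
    · rintro (h | ⟨i', ⟨z, ⟨hz, hza⟩, rfl⟩, h⟩)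
      · exact h.1
      · rw [Prod.mk.injEq] at h
        obtain ⟨h1, h2⟩ := h
        subst h1
        subst h2
        rw [← hza]
        exact hz
    · intro h
      have hg : g < a + 1 := hp.2 i g h
      rcases lt_or_eq_of_le (Order.lt_add_one_iff.mp hg) with h' | h'
      · exact Or.inl ⟨h, h'⟩
      · exact Or.inr ⟨i, ⟨(i, g), ⟨h, h'⟩, rfl⟩, by rw [h']⟩

theorem res_addN {a β : Ordinal.{0}} (hβ : β ≤ a) (q : Cond Ordinal.{0}) (N : Finset Idx) :
    res ltO β (q.addN N a) = res ltO β q := by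
  classical
  refine Cond.ext rfl rfl ?_
  ext ⟨i, g⟩
  simp only [Cond.addN, res, Finset.mem_union, Finset.mem_filter, Finset.mem_image]
  constructor
  · rintro ⟨h | ⟨i', _, h⟩, hg⟩
    · exact ⟨h, hg⟩
    · rw [Prod.mk.injEq] at h
      exact absurd hg (by rw [← h.2]; exact not_lt.mpr hβ)
  · rintro ⟨h, hg⟩
    exact ⟨Or.inl h, hg⟩

section
variable {M : Type} (L : LocOp M) (en : Enum M) (c : R2)

theorem inE_addN {f : Ordinal.{0} → Dat M Ordinal.{0}} {a β : Ordinal.{0}} (hβ : β ≤ a) {m : M}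
    {q : Cond Ordinal.{0}} (N : Finset Idx) (h : inE ltO f β m q) :
    inE ltO f β m (q.addN N a) := by
  unfold inE at h ⊢
  rw [res_addN hβ]
  exact h

theorem inD_addN {f : Ordinal.{0} → Dat M Ordinal.{0}} {a β α : Ordinal.{0}} (hβ : β ≤ a)
    {m : M} {q : Cond Ordinal.{0}} (N : Finset Idx) (h : inD ltO f β m α q) :
    inD ltO f β m α (q.addN N a) := by
  unfold inD at h ⊢
  rw [res_addN hβ]
  rcases h with ⟨γ, h1, h2, h3⟩ | h
  · refine Or.inl ⟨γ, h1, h2, ?_⟩
    rw [res_addN (le_trans (le_of_lt h1) hβ)]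
    exact h3
  · exact Or.inr h

theorem pt_addN {r : Ordinal.{0} → Idx → ℕ → Bool} {a : Ordinal.{0}} {q : Cond Ordinal.{0}}
    {N : Finset Idx} (hq : Pt ltO r a q) (hv : Valid r (q.addN N a)) :
    Pt ltO r (a + 1) (q.addN N a) := by
  classical
  refine ⟨hv, ?_⟩
  intro i g h
  simp only [Cond.addN, Finset.mem_union, Finset.mem_image] at h
  rcases h with h | ⟨i', _, h⟩
  · exact lt_trans (hq.2 i g h) (Order.lt_add_one_iff.mpr le_rfl)
  · rw [Prod.mk.injEq] at h
    rw [← h.2]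
    exact Order.lt_add_one_iff.mpr le_rfl

theorem pt_up {r : Ordinal.{0} → Idx → ℕ → Bool} {a b : Ordinal.{0}} {q : Cond Ordinal.{0}}
    (hab : a ≤ b) (hq : Pt ltO r a q) : Pt ltO r b q :=
  pt_mono (fun _ hg => lt_of_lt_of_le hg hab) hq

theorem not_lim_succ (a : Ordinal.{0}) : ¬ isLim ltO (a + 1) := by
  intro h
  obtain ⟨b, h1, h2⟩ := h.2 a (Order.lt_add_one_iff.mpr le_rfl)
  exact absurd (Order.lt_add_one_iff.mp h2) (not_le.mpr h1)

theorem not_lim_zero : ¬ isLim ltO (0 : Ordinal.{0}) := by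
  rintro ⟨⟨b, hb⟩, -⟩
  exact absurd hb (not_lt.mpr zero_le)

/-- the E part below the top -/
theorem succE {a : Ordinal.{0}} (hs : Surj L en c a) (hp : Pres L en c a) {β : Ordinal.{0}}
    (hβ : β ≤ a) (m : M) {p : Cond Ordinal.{0}}
    (hpt : Pt ltO (rr (obj L en c)) (a + 1) p) :
    ∃ q, Pt ltO (rr (obj L en c)) (a + 1) q ∧ Ext (rr (obj L en c)) q p ∧
      inE ltO (obj L en c) β m q := by
  obtain ⟨N, hN, hpN⟩ := decomp hpt
  have hp0 : Pt ltO (rr (obj L en c)) a (res ltO a p) := pt_res hpt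
  obtain ⟨p', hmap⟩ := mapC_surj L en c hs (res ltO a p) (fun i g h => hp0.2 i g h)
  have key : ∃ t, (Bad (rr (obj L en c)) (res ltO a p) N t ∨
      ∃ q, Gd ltO (rr (obj L en c)) a (res ltO a p) N t q ∧ inE ltO (obj L en c) β m q) ∧
      ∀ i, comp i t = pre (rr (obj L en c) a i) (comp i t).length := by
    rcases lt_or_eq_of_le hβ with h | h
    · obtain ⟨k, hk⟩ := hs β h
      obtain ⟨t, ht, hr⟩ := r_meets L en c hs hp (DIx.E (some k) m p' N)
      exact ⟨t, ht _ β hmap hp0 hN hk, hr⟩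
    · obtain ⟨t, ht, hr⟩ := r_meets L en c hs hp (DIx.E none m p' N)
      exact ⟨t, ht _ β hmap hp0 hN h, hr⟩
  obtain ⟨t, hm, hr⟩ := key
  rcases hm with hbad | ⟨q, hq, hE⟩
  · exfalso
    refine bad_add hN hbad (fun i _ => hr i) ?_
    rw [hpN]
    exact hpt.1
  · obtain ⟨hv, he⟩ := gd_add hN hq (fun i _ => hr i)
    refine ⟨q.addN N a, pt_addN hq.1 hv, ?_, inE_addN hβ N hE⟩
    rw [hpN] at he
    exact he

/-- the D part below the top -/
theorem succD {a : Ordinal.{0}} (hs : Surj L en c a) (hp : Pres L en c a) {β : Ordinal.{0}}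
    (hβ : β ≤ a) (hlim : isLim ltO β) {α : Ordinal.{0}} (hα : α < β) (m : M)
    {p : Cond Ordinal.{0}} (hpt : Pt ltO (rr (obj L en c)) (a + 1) p) :
    ∃ q, Pt ltO (rr (obj L en c)) (a + 1) q ∧ Ext (rr (obj L en c)) q p ∧
      inD ltO (obj L en c) β m α q := by
  obtain ⟨N, hN, hpN⟩ := decomp hpt
  have hp0 : Pt ltO (rr (obj L en c)) a (res ltO a p) := pt_res hpt
  obtain ⟨p', hmap⟩ := mapC_surj L en c hs (res ltO a p) (fun i g h => hp0.2 i g h)
  obtain ⟨l, hl⟩ := hs α (lt_of_lt_of_le hα hβ)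
  have key : ∃ t, (Bad (rr (obj L en c)) (res ltO a p) N t ∨
      ∃ q, Gd ltO (rr (obj L en c)) a (res ltO a p) N t q ∧ inD ltO (obj L en c) β m α q) ∧
      ∀ i, comp i t = pre (rr (obj L en c) a i) (comp i t).length := by
    rcases lt_or_eq_of_le hβ with h | h
    · obtain ⟨k, hk⟩ := hs β h
      obtain ⟨t, ht, hr⟩ := r_meets L en c hs hp (DIx.D (some k) m l p' N)
      exact ⟨t, ht _ β α hmap hp0 hN hk hlim hl hα, hr⟩
    · obtain ⟨t, ht, hr⟩ := r_meets L en c hs hp (DIx.D none m l p' N)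
      exact ⟨t, ht _ β α hmap hp0 hN h hlim hl hα, hr⟩
  obtain ⟨t, hm, hr⟩ := key
  rcases hm with hbad | ⟨q, hq, hD⟩
  · exfalso
    refine bad_add hN hbad (fun i _ => hr i) ?_
    rw [hpN]
    exact hpt.1
  · obtain ⟨hv, he⟩ := gd_add hN hq (fun i _ => hr i)
    refine ⟨q.addN N a, pt_addN hq.1 hv, ?_, inD_addN hβ N hD⟩
    rw [hpN] at he
    exact he

/-- deciding finitely many cells -/
theorem many {a : Ordinal.{0}} (hs : Surj L en c a) (hp : Pres L en c a) (S : Finset M)
    {p : Cond Ordinal.{0}} (hpt : Pt ltO (rr (obj L en c)) (a + 1) p) :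
    ∃ q, Pt ltO (rr (obj L en c)) (a + 1) q ∧ Ext (rr (obj L en c)) q p ∧
      ∀ l, l ∈ S → inE ltO (obj L en c) a l q := by
  classical
  induction S using Finset.induction_on with
  | empty => exact ⟨p, hpt, ext_refl p, fun l hl => absurd hl (Finset.notMem_empty l)⟩
  | insert l0 S _ ih =>
    obtain ⟨q, h1, h2, h3⟩ := ih
    obtain ⟨q', h4, h5, h6⟩ := succE L en c hs hp le_rfl l0 h1
    refine ⟨q', h4, ext_trans hpt.1 h5 h2, ?_⟩
    intro l hl
    rcases Finset.mem_insert.mp hl with h | h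
    · rw [h]
      exact h6
    · rcases h3 l h with h7 | h7
      · exact Or.inl (B_open L en c h7 (pt_res h4) (res_ext h5))
      · exact Or.inr (B_open L en c h7 (pt_res h4) (res_ext h5))

/-- adding finitely many indices -/
theorem manyI {r : Ordinal.{0} → Idx → ℕ → Bool} {a : Ordinal.{0}} (X : Finset Idx)
    {p : Cond Ordinal.{0}} (hpt : Pt ltO r a p) :
    ∃ q, Pt ltO r a q ∧ Ext r q p ∧ X ⊆ q.dom := by
  classical
  induction X using Finset.induction_on with
  | empty => exact ⟨p, hpt, ext_refl p, Finset.empty_subset _⟩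
  | insert i X _ ih =>
    obtain ⟨q, h1, h2, h3⟩ := ih
    obtain ⟨q', h4, h5, h6, h7⟩ := add_index h1.1 i
    refine ⟨q', ⟨h4, ?_⟩, ext_trans hpt.1 h5 h2, ?_⟩
    · intro j g hj
      rw [h7] at hj
      exact h1.2 j g hj
    · intro j hj
      rcases Finset.mem_insert.mp hj with h | h
      · rw [h]
        exact h6
      · exact h5.1 (h3 h)

/-- the E part at the top -/
theorem topE {a : Ordinal.{0}} (hs : Surj L en c a) (hp : Pres L en c a) (m : M)
    {p : Cond Ordinal.{0}} (hpt : Pt ltO (rr (obj L en c)) (a + 1) p) :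
    ∃ q, Pt ltO (rr (obj L en c)) (a + 1) q ∧ Ext (rr (obj L en c)) q p ∧
      inE ltO (obj L en c) (a + 1) m q := by
  classical
  obtain ⟨q0, h1, h2, h3⟩ := many L en c hs hp (L.S m) hpt
  obtain ⟨q, h4, h5, h6⟩ := manyI (L.X m) h1
  refine ⟨q, h4, ext_trans hpt.1 h5 h2, ?_⟩
  have hq : ∀ l, l ∈ L.S m → inE ltO (obj L en c) a l q := by
    intro l hl
    rcases h3 l hl with h7 | h7
    · exact Or.inl (B_open L en c h7 (pt_res h4) (res_ext h5))
    · exact Or.inr (B_open L en c h7 (pt_res h4) (res_ext h5))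
  have hkey : ∀ b : Bool,
      L.phi c m (fun l => @decide (l ∈ (L.S m).filter (fun l =>
        ((obj L en c) a).B true l (res ltO a q))) (Classical.propDecidable _)) q.val = b →
      ((obj L en c) (a + 1)).B b m (res ltO (a + 1) q) := by
    intro b hb
    rw [obj_B, res_eq h4]
    refine ⟨h4, Or.inr (Or.inl ⟨a, ⟨Order.lt_add_one_iff.mpr le_rfl, ?_⟩, _,
      Finset.filter_subset _ _, ?_, h6, hb⟩)⟩
    · intro g hg
      exact (lt_or_eq_of_le (Order.lt_add_one_iff.mp hg)).symm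
    · intro l hl
      by_cases hB : ((obj L en c) a).B true l (res ltO a q)
      · have : @decide (l ∈ (L.S m).filter (fun l =>
            ((obj L en c) a).B true l (res ltO a q))) (Classical.propDecidable _) = true := by
          exact @decide_eq_true _ (Classical.propDecidable _) (Finset.mem_filter.mpr ⟨hl, hB⟩)
        rw [this]
        exact hB
      · have : @decide (l ∈ (L.S m).filter (fun l =>
            ((obj L en c) a).B true l (res ltO a q))) (Classical.propDecidable _) = false := by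
          exact @decide_eq_false _ (Classical.propDecidable _)
            (fun h => hB (Finset.mem_filter.mp h).2)
        rw [this]
        rcases hq l hl with h | h
        · exact h
        · exact absurd h hB
  unfold inE
  cases hb : L.phi c m (fun l => @decide (l ∈ (L.S m).filter (fun l =>
        ((obj L en c) a).B true l (res ltO a q))) (Classical.propDecidable _)) q.val with
  | false => exact Or.inl (hkey false hb)
  | true => exact Or.inr (hkey true hb)

end
end Preserve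

open Preserve

section ord
variable {M : Type} (L : LocOp M) (en : Enum M) (c : R2)

theorem pres_succ {a : Ordinal.{0}} (hs : Surj L en c a) (hp : Pres L en c a) :
    Pres L en c (a + 1) := by
  intro β hβ m p hpt
  rcases lt_or_eq_of_le hβ with h | h
  · have h' : β ≤ a := Order.lt_add_one_iff.mp h
    exact ⟨succE L en c hs hp h' m hpt,
      fun hlim α hα => succD L en c hs hp h' hlim hα m hpt⟩
  · subst h
    exact ⟨topE L en c hs hp m hpt, fun hlim => absurd hlim (not_lim_succ a)⟩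

namespace Preserve

theorem pres_zero : Pres L en c 0 := by
  intro β hβ m p hpt
  have hβ0 : β = 0 := le_antisymm hβ zero_le
  subst hβ0
  refine ⟨⟨p, hpt, ext_refl p, Or.inl ?_⟩, fun hlim => absurd hlim not_lim_zero⟩
  rw [obj_B, res_eq hpt]
  exact ⟨hpt, Or.inl ⟨fun b hb => absurd hb (not_lt.mpr zero_le), rfl⟩⟩

/-- a condition below a limit lies below a smaller element -/
theorem pt_below {r : Ordinal.{0} → Idx → ℕ → Bool} {a : Ordinal.{0}} (ha : isLim ltO a)
    {p : Cond Ordinal.{0}} (hpt : Pt ltO r a p) {β : Ordinal.{0}} (hβ : β < a) :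
    ∃ b, β ≤ b ∧ b < a ∧ Pt ltO r b p := by
  classical
  have key : ∀ S : Finset (Idx × Ordinal.{0}), (∀ z, z ∈ S → z.2 < a) →
      ∃ b, β ≤ b ∧ b < a ∧ ∀ z, z ∈ S → z.2 < b := by
    intro S
    induction S using Finset.induction_on with
    | empty => exact fun _ => ⟨β, le_rfl, hβ, fun z hz => absurd hz (Finset.notMem_empty z)⟩
    | insert z0 S _ ih =>
      intro hS
      obtain ⟨b, h1, h2, h3⟩ := ih (fun z hz => hS z (Finset.mem_insert_of_mem hz))
      obtain ⟨b', h4, h5⟩ := ha.2 z0.2 (hS z0 (Finset.mem_insert_self _ _))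
      refine ⟨max b b', le_trans h1 (le_max_left _ _), max_lt h2 h5, ?_⟩
      intro z hz
      rcases Finset.mem_insert.mp hz with h | h
      · rw [h]
        exact lt_of_lt_of_le h4 (le_max_right _ _)
      · exact lt_of_lt_of_le (h3 z h) (le_max_left _ _)
  obtain ⟨b, h1, h2, h3⟩ := key p.F (fun z hz => hpt.2 z.1 z.2 hz)
  exact ⟨b, h1, h2, hpt.1, fun i g h => h3 (i, g) h⟩

theorem pres_lim {a : Ordinal.{0}} (ha : isLim ltO a) (ih : ∀ b, b < a → Pres L en c b) :
    Pres L en c a := by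
  intro β hβ m p hpt
  rcases lt_or_eq_of_le hβ with h | h
  · constructor
    · obtain ⟨b, h1, h2, h3⟩ := pt_below ha hpt h
      obtain ⟨q, h4, h5, h6⟩ := (ih b h2 β h1 m p h3).1
      exact ⟨q, pt_up (le_of_lt h2) h4, h5, h6⟩
    · intro hlim α hα
      obtain ⟨b, h1, h2, h3⟩ := pt_below ha hpt h
      obtain ⟨q, h4, h5, h6⟩ := (ih b h2 β h1 m p h3).2 hlim α hα
      exact ⟨q, pt_up (le_of_lt h2) h4, h5, h6⟩
  · subst h
    constructor
    · by_cases hz : ∃ q, Pt ltO (rr (obj L en c)) β q ∧ Ext (rr (obj L en c)) q p ∧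
          ∃ α, α < β ∧ Z0 ltO (obj L en c) β m α q
      · obtain ⟨q, h1, h2, h3⟩ := hz
        refine ⟨q, h1, h2, Or.inl ?_⟩
        rw [obj_B, res_eq h1]
        exact ⟨h1, Or.inr (Or.inr (Or.inl ⟨ha, rfl, h3⟩))⟩
      · refine ⟨p, hpt, ext_refl p, Or.inr ?_⟩
        rw [obj_B, res_eq hpt]
        refine ⟨hpt, Or.inr (Or.inr (Or.inr ⟨ha, rfl, ?_⟩))⟩
        intro q hq hqp h
        exact hz ⟨q, hq, hqp, h⟩
    · intro _ α hα
      by_cases hz : ∃ γ, γ < β ∧ ¬ γ < α ∧ ∃ q, Pt ltO (rr (obj L en c)) β q ∧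
          Ext (rr (obj L en c)) q p ∧ ((obj L en c) γ).B true m (res ltO γ q)
      · obtain ⟨γ, h1, h2, q, h3, h4, h5⟩ := hz
        exact ⟨q, h3, h4, Or.inl ⟨γ, h1, h2, h5⟩⟩
      · refine ⟨p, hpt, ext_refl p, Or.inr ?_⟩
        rw [res_eq hpt]
        intro γ h1 h2 q hq hqp hB
        exact hz ⟨γ, h1, h2, q, hq, hqp, hB⟩

end Preserve

theorem pres_all {a : Ordinal.{0}} (h : ∀ b, b < a → Surj L en c b) : Pres L en c a := by
  induction a using WellFoundedLT.induction with
  | ind a ih =>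
    have ih' : ∀ b, b < a → Pres L en c b := fun b hb =>
      ih b hb (fun b' hb' => h b' (lt_trans hb' hb))
    by_cases h0 : a = 0
    · subst h0
      exact pres_zero L en c
    · by_cases hsucc : ∃ b, a = b + 1
      · obtain ⟨b, rfl⟩ := hsucc
        have hb : b < b + 1 := Order.lt_add_one_iff.mpr le_rfl
        exact pres_succ L en c (h b hb) (ih' b hb)
      · refine pres_lim L en c ⟨⟨0, pos_iff_ne_zero.mpr h0⟩, ?_⟩ ih'
        intro b hb
        refine ⟨b + 1, Order.lt_add_one_iff.mpr le_rfl, ?_⟩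
        exact lt_of_le_of_ne (Order.add_one_le_of_lt hb) (fun h => hsucc ⟨b, h.symm⟩)

end ord

end Pool.Agent.Helper78.ITTM
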