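import Pool.Agent.Helper78.ITTM.Locality
import Pool.Agent.Helper78.ITTM.Enumer
import Pool.Agent.Helper78.ITTM.Kappa

/-! Part B, module SurjC: the canonical enumerations are onto as long as no smaller ordinal is
good. -/

namespace Pool.Agent.Helper78.ITTM

section ord
variable {M : Type} (L : LocOp M) (en : Enum M) (c : R2)

namespace SurjC

theorem isLeast_of_exists {P : Ordinal.{0} → Prop} (h : ∃ a, P a) : ∃ a, isLeast ltO P a := by
  classical
  refine ⟨sInf {a | P a}, ?_, ?_⟩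
  · exact csInf_mem (s := {a | P a}) h
  · intro b hb hP
    exact absurd (csInf_le (OrderBot.bddBelow _) (show b ∈ {a | P a} from hP)) (not_le.mpr hb)

theorem isLeast_le {P : Ordinal.{0} → Prop} {a b : Ordinal.{0}} (h : isLeast ltO P a)
    (hb : P b) : a ≤ b := by
  by_contra hc
  exact h.2 b (not_le.mp hc) hb

/-- the supremum of a strictly increasing sequence -/
theorem sup_seq (s : ℕ → Ordinal.{0}) (hs : ∀ k, s k < s (k + 1)) :
    ∃ δ, isLim ltO δ ∧ (∀ k, s k < δ) ∧ (∀ b, b < δ → ∃ k, b < s k) ∧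
      ∀ g, (∀ k, s k ≤ g) → δ ≤ g := by
  have hb : BddAbove (Set.range s) := Ordinal.bddAbove_of_small
  have h1 : ∀ k, s k ≤ ⨆ k, s k := fun k => le_ciSup hb k
  have h2 : ∀ k, s k < ⨆ k, s k := fun k => lt_of_lt_of_le (hs k) (h1 (k + 1))
  have h3 : ∀ b, b < (⨆ k, s k) → ∃ k, b < s k := by
    intro b hb'
    exact exists_lt_of_lt_ciSup hb'
  refine ⟨⨆ k, s k, ⟨⟨s 0, h2 0⟩, ?_⟩, h2, h3, ?_⟩
  · intro b hb'
    obtain ⟨k, hk⟩ := h3 b hb'
    exact ⟨s k, hk, h2 k⟩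
  · intro g hg
    exact ciSup_le hg

theorem V_mono {a α α1 h : Ordinal.{0}} (hα : α ≤ α1) (hV : V ltO (obj L en c) a α h) :
    V ltO (obj L en c) a α1 h := by
  obtain ⟨h1, m, p, hp, hd⟩ := hV
  refine ⟨h1, m, p, ⟨hp.1, fun i g hg => lt_of_lt_of_le (hp.2 i g hg) hα⟩, ?_⟩
  rcases hd with ⟨α', hα', hl⟩ | hl
  · exact Or.inl ⟨α', fun hc => hα' (lt_of_le_of_lt hα hc), hl⟩
  · exact Or.inr hl

theorem cf_good {a : Ordinal.{0}} (hsg : SG ltO (obj L en c) a)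
    (h : ∀ b, b < a → ¬ SG ltO (obj L en c) b) (g : Ordinal.{0}) (hg : g < a) :
    ∃ t h, h < a ∧ g < h ∧ Cf ltO (obj L en c) a t h := by
  classical
  by_contra hcon
  push Not at hcon
  have hcf : ∀ k β, CPk ltO (obj L en c) a k β → β < a → β ≤ g := by
    intro k β hk hβ
    by_contra hc
    exact hcon (k, none) β hβ (not_le.mp hc) (Or.inl ⟨hsg, hk⟩)
  have hpos : (0 : Ordinal.{0}) < a := by
    obtain ⟨b, hb⟩ := hsg.1.1
    exact lt_of_le_of_lt (zero_le) hb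
  have h0 : ∃ β, CPk ltO (obj L en c) a 0 β ∧ CP ltO (obj L en c) a β := by
    obtain ⟨β, -, hβ⟩ := hsg.2 0 hpos
    obtain ⟨β', hβ'⟩ := isLeast_of_exists ⟨β, hβ⟩
    exact ⟨β', hβ', hβ'.1⟩
  have hstep : ∀ k β, CPk ltO (obj L en c) a k β → CP ltO (obj L en c) a β →
      ∃ β', CPk ltO (obj L en c) a (k + 1) β' ∧ CP ltO (obj L en c) a β' ∧ β < β' := by
    intro k β hk hβ
    obtain ⟨β1, h1, h2⟩ := hsg.2 β hβ.1
    obtain ⟨β', hβ'⟩ := isLeast_of_exists (P := fun b => ltO β b ∧ CP ltO (obj L en c) a b)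
      ⟨β1, h1, h2⟩
    exact ⟨β', ⟨β, hk, hβ'⟩, hβ'.1.2, hβ'.1.1⟩
  let s : ∀ k : ℕ, {β // CPk ltO (obj L en c) a k β ∧ CP ltO (obj L en c) a β} := fun k =>
    Nat.rec ⟨h0.choose, h0.choose_spec⟩
      (fun k x => ⟨(hstep k x.1 x.2.1 x.2.2).choose,
        (hstep k x.1 x.2.1 x.2.2).choose_spec.1, (hstep k x.1 x.2.1 x.2.2).choose_spec.2.1⟩) k
  have hs : ∀ k, (s k).1 < (s (k + 1)).1 := fun k =>
    (hstep k (s k).1 (s k).2.1 (s k).2.2).choose_spec.2.2
  obtain ⟨δ, hlim, hlt, hex, hle⟩ := sup_seq (fun k => (s k).1) hs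
  have hδg : δ ≤ g := hle g (fun k => hcf k _ (s k).2.1 (s k).2.2.1)
  have hδa : δ < a := lt_of_le_of_lt hδg hg
  refine h δ hδa (sg_restrict L en c hsg.1 hδa hlim ?_)
  intro α hα
  obtain ⟨k, hk⟩ := hex α hα
  exact ⟨(s k).1, hk, hlt k, (s k).2.2⟩

theorem cf_bad {a : Ordinal.{0}} (ha : isLim ltO a) (hsg : ¬ SG ltO (obj L en c) a)
    (hS : ∀ b, b < a → Surj L en c b) (g : Ordinal.{0}) (hg : g < a) :
    ∃ t h, h < a ∧ g < h ∧ Cf ltO (obj L en c) a t h := by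
  classical
  by_contra hcon
  push Not at hcon
  -- the base point
  have hb : ∃ α0, Bs ltO (obj L en c) a α0 := by
    have h1 : ∃ α, α < a ∧ ¬ ∃ β, ltO α β ∧ CP ltO (obj L en c) a β := by
      by_contra hc
      push Not at hc
      exact hsg ⟨ha, fun α hα => hc α hα⟩
    obtain ⟨α, hα, hα'⟩ := h1
    obtain ⟨α0, h0⟩ := isLeast_of_exists
      (P := fun α => ¬ ∃ β, ltO α β ∧ CP ltO (obj L en c) a β) ⟨α, hα'⟩
    exact ⟨α0, lt_of_le_of_lt (isLeast_le h0 hα') hα, h0⟩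
  obtain ⟨α0, hα0⟩ := hb
  have hIt : ∀ k α, It ltO (obj L en c) a α0 k α → α < a → α ≤ g := by
    intro k α hk hα
    by_contra hc
    exact hcon (k, none) α hα (not_le.mp hc) (Or.inr ⟨hsg, α0, α, hα0, hk, rfl⟩)
  have hVg : ∀ k α, It ltO (obj L en c) a α0 k α → α < a → ∀ h, V ltO (obj L en c) a α h →
      h ≤ g := by
    intro k α hk hα h hV
    by_contra hc
    obtain ⟨h1, m, p, hp, hd⟩ := hV
    obtain ⟨p', hp'⟩ := mapC_surj L en c (hS α hα) p hp.2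
    rcases hd with ⟨α', hα', hl⟩ | hl
    · rcases (not_lt.mp hα').lt_or_eq with hlt | heq
      · obtain ⟨l, hl'⟩ := hS α hα α' hlt
        refine hcon (k, some (m, some l, p', true)) h h1 (not_le.mp hc)
          (Or.inr ⟨hsg, α0, α, hα0, hk, h1, p, hp', hp, ?_⟩)
        exact ⟨α', hl', hl⟩
      · refine hcon (k, some (m, none, p', true)) h h1 (not_le.mp hc)
          (Or.inr ⟨hsg, α0, α, hα0, hk, h1, p, hp', hp, ?_⟩)
        exact ⟨α', heq, hl⟩
    · refine hcon (k, some (m, none, p', false)) h h1 (not_le.mp hc)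
        (Or.inr ⟨hsg, α0, α, hα0, hk, h1, p, hp', hp, ?_⟩)
      exact hl
  have hstep : ∀ k α, It ltO (obj L en c) a α0 k α → α < a →
      ∃ β, It ltO (obj L en c) a α0 (k + 1) β ∧ β < a ∧ Hn ltO (obj L en c) a α β := by
    intro k α hk hα
    have hαg := hIt k α hk hα
    obtain ⟨b', hb1, hb2⟩ := ha.2 g hg
    obtain ⟨β, hβ⟩ := isLeast_of_exists
      (P := fun β => ltO α β ∧ ∀ h, V ltO (obj L en c) a α h → ltO h β)
      ⟨b', lt_of_le_of_lt hαg hb1, fun h hV => lt_of_le_of_lt (hVg k α hk hα h hV) hb1⟩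
    have hβa : β < a := lt_of_le_of_lt (isLeast_le hβ
      ⟨lt_of_le_of_lt hαg hb1, fun h hV => lt_of_le_of_lt (hVg k α hk hα h hV) hb1⟩) hb2
    exact ⟨β, ⟨α, hk, hβa, hβ⟩, hβa, hβa, hβ⟩
  let s : ∀ k : ℕ, {β // It ltO (obj L en c) a α0 k β ∧ β < a} := fun k =>
    Nat.rec ⟨α0, rfl, hα0.1⟩
      (fun k x => ⟨(hstep k x.1 x.2.1 x.2.2).choose,
        (hstep k x.1 x.2.1 x.2.2).choose_spec.1, (hstep k x.1 x.2.1 x.2.2).choose_spec.2.1⟩) k
  have hH : ∀ k, Hn ltO (obj L en c) a (s k).1 (s (k + 1)).1 := fun k =>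
    (hstep k (s k).1 (s k).2.1 (s k).2.2).choose_spec.2.2
  have hs : ∀ k, (s k).1 < (s (k + 1)).1 := fun k => (hH k).2.1.1
  obtain ⟨δ, hlim, hlt, hex, hle⟩ := sup_seq (fun k => (s k).1) hs
  have hδg : δ ≤ g := hle g (fun k => hIt k _ (s k).2.1 (s k).2.2)
  have hδa : δ < a := lt_of_le_of_lt hδg hg
  refine hα0.2.1 ⟨δ, hlt 0, hδa, hlim, ?_⟩
  intro α h hα hV
  obtain ⟨k, hk⟩ := hex α hα
  exact lt_trans ((hH k).2.1.2 h (V_mono L en c hk.le hV)) (hlt (k + 1))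

end SurjC

open SurjC in
theorem surj_of {a : Ordinal.{0}} (h : ∀ b, b < a → ¬ SG ltO (obj L en c) b) :
    Surj L en c a := by
  classical
  induction a using WellFoundedLT.induction with
  | ind a ih =>
    have hS : ∀ b, b < a → Surj L en c b := fun b hb =>
      ih b hb (fun b' hb' => h b' (lt_trans hb' hb))
    intro g hg
    rw [obj_C]
    by_cases hlim : isLim ltO a
    · have key : ∃ t h, h < a ∧ g < h ∧ Cf ltO (obj L en c) a t h := by
        by_cases hsg : SG ltO (obj L en c) a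
        · exact cf_good L en c hsg h g hg
        · exact cf_bad L en c hlim hsg hS g hg
      obtain ⟨t, b, hb, hgb, hCf⟩ := key
      obtain ⟨l, hl⟩ := hS b hb g hgb
      obtain ⟨k, hk⟩ := en.eTs (t, l)
      refine ⟨k, Or.inr ⟨hlim, b, hb, ?_, ?_⟩⟩
      · rw [hk]; exact hCf
      · rw [hk]; exact hl
    · -- successor
      have hsucc : ∃ b, isSucc ltO b a := by
        by_contra hc
        apply hlim
        refine ⟨⟨g, hg⟩, fun b hb => ?_⟩
        by_contra hc'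
        push Not at hc'
        apply hc
        refine ⟨b, hb, fun g' hg' => ?_⟩
        rcases lt_trichotomy g' b with h1 | h1 | h1
        · exact Or.inr h1
        · exact Or.inl h1
        · exact absurd hg' (not_lt.mpr (hc' g' h1))
      obtain ⟨b, hb⟩ := hsucc
      rcases hb.2 g hg with h1 | h1
      · exact ⟨0, Or.inl ⟨b, hb, Or.inl ⟨rfl, h1⟩⟩⟩
      · obtain ⟨k, hk⟩ := hS b hb.1 g h1
        exact ⟨k + 1, Or.inl ⟨b, hb, Or.inr ⟨k, rfl, hk⟩⟩⟩

end ord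

end Pool.Agent.Helper78.ITTM
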