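import Pool.Agent.Helper78.ITTM.BDefs2

/-! Basic facts on conditions: extension, validity, restriction, change of the family of reals. -/

namespace Pool.Agent.Helper78.ITTM

universe u

section cond
variable {Ω : Type u} {lt : Ω → Ω → Prop} {r : Ω → Idx → ℕ → Bool}

theorem val_eq_of_ext {p q : Cond Ω} (h : Ext r q p) {i : Idx} (hi : i ∈ p.dom) :
    q.val i = p.val i := by
  unfold Cond.val
  rw [decide_eq_decide]
  exact h.2.1 i hi

theorem mem_res_F {b : Ω} {p : Cond Ω} {z : Idx × Ω} :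
    z ∈ (res lt b p).F ↔ z ∈ p.F ∧ lt z.2 b := by
  classical
  simp [res]

theorem ext_refl (p : Cond Ω) : Ext r p p :=
  ⟨fun _ h => h, fun _ _ => Iff.rfl, fun _ h => h, fun _ _ _ _ _ h1 h2 => absurd h1 h2⟩

theorem ext_trans {p q s : Cond Ω} (hp : Valid r p) (h1 : Ext r s q) (h2 : Ext r q p) :
    Ext r s p := by
  refine ⟨fun i hi => h1.1 (h2.1 hi), fun i hi => ?_, fun i hi => h1.2.2.1 (h2.2.2.1 hi), ?_⟩
  · rw [h1.2.1 i (h2.1 hi), h2.2.1 i hi]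
  · intro i g j hF hj hs hn
    by_cases hq : Idx.node i (pre (r g i) j) ∈ q.dom
    · rw [h1.2.1 _ hq]
      exact h2.2.2.2 i g j hF hj hq hn
    · refine h1.2.2.2 i g j (h2.2.2.1 hF) ?_ hs hq
      rw [val_eq_of_ext h2 (hp.2.1 i g hF)]
      exact hj

theorem pt_bot (a : Ω) : Pt lt r a (Cond.bot Ω) := by
  refine ⟨⟨?_, ?_, ?_⟩, ?_⟩
  · intro i hi
    exact hi
  · intro i g h
    simp [Cond.bot] at h
  · intro i g g' j h
    simp [Cond.bot] at h
  · intro i g h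
    simp [Cond.bot] at h

theorem pt_res {a b : Ω} {p : Cond Ω} (h : Pt lt r a p) : Pt lt r b (res lt b p) := by
  refine ⟨⟨h.1.1, ?_, ?_⟩, ?_⟩
  · intro i g hF
    exact h.1.2.1 i g (mem_res_F.1 hF).1
  · intro i g g' j hF hF' hj hpre hn
    exact h.1.2.2 i g g' j (mem_res_F.1 hF).1 (mem_res_F.1 hF').1 hj hpre hn
  · intro i g hF
    exact (mem_res_F.1 hF).2

theorem ext_res {b : Ω} {p : Cond Ω} (hp : Valid r p) : Ext r p (res lt b p) := by
  refine ⟨fun _ h => h, fun _ _ => Iff.rfl, fun z hz => (mem_res_F.1 hz).1, ?_⟩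
  intro i g j _ _ h1 h2
  exact absurd h1 h2

theorem res_ext {b : Ω} {p q : Cond Ω} (h : Ext r q p) : Ext r (res lt b q) (res lt b p) := by
  refine ⟨h.1, h.2.1, fun z hz => mem_res_F.2 ⟨h.2.2.1 (mem_res_F.1 hz).1, (mem_res_F.1 hz).2⟩,
    ?_⟩
  intro i g j hF hj hs hn
  exact h.2.2.2 i g j (mem_res_F.1 hF).1 hj hs hn

theorem res_eq {b : Ω} {p : Cond Ω} (h : Pt lt r b p) : res lt b p = p := by
  apply Cond.ext
  · rfl
  · rfl
  · ext z
    rw [mem_res_F]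
    exact ⟨fun hz => hz.1, fun hz => ⟨hz, h.2 z.1 z.2 hz⟩⟩

theorem res_res {b b' : Ω} {p : Cond Ω} (h : ∀ g, lt g b → lt g b') :
    res lt b (res lt b' p) = res lt b p := by
  apply Cond.ext
  · rfl
  · rfl
  · ext z
    rw [mem_res_F, mem_res_F, mem_res_F]
    exact ⟨fun hz => ⟨hz.1.1, hz.2⟩, fun hz => ⟨⟨hz.1, h _ hz.2⟩, hz.2⟩⟩

theorem pt_mono {a b : Ω} {p : Cond Ω} (h : ∀ g, lt g a → lt g b) (hp : Pt lt r a p) :
    Pt lt r b p :=
  ⟨hp.1, fun i g hF => h g (hp.2 i g hF)⟩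

theorem valid_congr_one {r' : Ω → Idx → ℕ → Bool} {p : Cond Ω}
    (h : ∀ i g, (i, g) ∈ p.F → r g = r' g) (hv : Valid r p) : Valid r' p := by
  refine ⟨hv.1, hv.2.1, ?_⟩
  intro i g g' j hF hF' hj hpre hn
  rw [← h i g hF, ← h i g' hF'] at hpre
  rw [← h i g hF] at hn
  rw [← h i g hF, ← h i g' hF']
  exact hv.2.2 i g g' j hF hF' hj hpre hn

theorem valid_congr {r' : Ω → Idx → ℕ → Bool} {p : Cond Ω}
    (h : ∀ i g, (i, g) ∈ p.F → r g = r' g) : Valid r p ↔ Valid r' p :=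
  ⟨valid_congr_one h, valid_congr_one fun i g hF => (h i g hF).symm⟩

theorem ext_congr_one {r' : Ω → Idx → ℕ → Bool} {p q : Cond Ω}
    (h : ∀ i g, (i, g) ∈ p.F → r g = r' g) (hv : Ext r q p) : Ext r' q p := by
  refine ⟨hv.1, hv.2.1, hv.2.2.1, ?_⟩
  intro i g j hF hj hs hn
  rw [← h i g hF] at hs hn ⊢
  exact hv.2.2.2 i g j hF hj hs hn

theorem ext_congr {r' : Ω → Idx → ℕ → Bool} {p q : Cond Ω}
    (h : ∀ i g, (i, g) ∈ p.F → r g = r' g) : Ext r q p ↔ Ext r' q p :=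
  ⟨ext_congr_one h, ext_congr_one fun i g hF => (h i g hF).symm⟩

theorem pt_congr {r' : Ω → Idx → ℕ → Bool} {a : Ω} {p : Cond Ω}
    (h : ∀ g, lt g a → r g = r' g) : Pt lt r a p ↔ Pt lt r' a p := by
  constructor
  · intro hp
    exact ⟨valid_congr_one (fun i g hF => h g (hp.2 i g hF)) hp.1, hp.2⟩
  · intro hp
    exact ⟨valid_congr_one (fun i g hF => (h g (hp.2 i g hF)).symm) hp.1, hp.2⟩

end cond

end Pool.Agent.Helper78.ITTM
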