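import Pool.Agent.Helper78.ITTM.CondBasic
import Pool.Agent.Helper78.ITTM.CondBasic2
import Pool.Agent.Helper78.ITTM.Locality

/-! Part B, module BlockB: forcing a bit of a block only depends on the part of the condition in
this block. -/

namespace Pool.Agent.Helper78.ITTM

universe u

section blockgen
variable {Ω : Type u} {lt : Ω → Ω → Prop} {r : Ω → Idx → ℕ → Bool}

theorem b_mrg_eq_of_blk {q : ℚ} {p p' : Cond Ω} (h : p.blk q = p'.blk q) :
    Cond.mrg q p' p = p := by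
  rw [← mrg_blk_congr (s := p) q h, mrg_self]

theorem b_mem_dom_of_blk {q : ℚ} {p p' : Cond Ω} (h : p.blk q = p'.blk q) {i : Idx}
    (hi : i.label < q) : i ∈ p.dom ↔ i ∈ p'.dom := by
  have h1 : (p.blk q).dom = (p'.blk q).dom := by rw [h]
  have h2 := Finset.ext_iff.1 h1 i
  simp only [Cond.blk, Finset.mem_filter, hi, and_true] at h2
  exact h2

theorem b_mem_tr_of_blk {q : ℚ} {p p' : Cond Ω} (h : p.blk q = p'.blk q) {i : Idx}
    (hi : i.label < q) : i ∈ p.tr ↔ i ∈ p'.tr := by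
  have h1 : (p.blk q).tr = (p'.blk q).tr := by rw [h]
  have h2 := Finset.ext_iff.1 h1 i
  simp only [Cond.blk, Finset.mem_filter, hi, and_true] at h2
  exact h2

theorem b_val_of_blk {q : ℚ} {p p' : Cond Ω} (h : p.blk q = p'.blk q) {i : Idx}
    (hi : i.label < q) : p.val i = p'.val i := by
  simp only [Cond.val, b_mem_tr_of_blk h hi]

theorem b_res_blk_congr {q : ℚ} {p p' : Cond Ω} (h : p.blk q = p'.blk q) (b : Ω) :
    (res lt b p).blk q = (res lt b p').blk q := by
  rw [← res_blk, ← res_blk, h]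

/-- moving an extension to a condition with the same block -/
theorem b_exists_transfer {q : ℚ} {a : Ω} {p p' s : Cond Ω} (hp : Pt lt r a p)
    (hp' : Pt lt r a p') (h : p.blk q = p'.blk q) (hs : Pt lt r a s) (hsp : Ext r s p') :
    ∃ s', Pt lt r a s' ∧ Ext r s' p ∧ s'.blk q = s.blk q := by
  refine ⟨Cond.mrg q s p, pt_mrg q hs hp, ?_, blk_mrg q⟩
  have h1 := ext_mrg' (r := r) q hp'.1 hp.1 hsp (ext_refl (r := r) p)
  rwa [b_mrg_eq_of_blk h] at h1

end blockgen

section ord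
variable {M : Type} (L : LocOp M) (en : Enum M) (c : R2)

/-- the induction step for the forcing of zeros -/
theorem Z0_block_aux {a : Ordinal.{0}} {m : M}
    (ih : ∀ β, β < a → ∀ {b : Bool} {m : M} {p p' : Cond Ordinal.{0}},
      Pt ltO (rr (obj L en c)) β p → Pt ltO (rr (obj L en c)) β p' →
      p.blk (L.blk m) = p'.blk (L.blk m) →
      ((obj L en c β).B b m p ↔ (obj L en c β).B b m p'))
    {p p' : Cond Ordinal.{0}} (hp : Pt ltO (rr (obj L en c)) a p)
    (hp' : Pt ltO (rr (obj L en c)) a p') (h : p.blk (L.blk m) = p'.blk (L.blk m))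
    {α : Ordinal.{0}} (hz : Z0 ltO (obj L en c) a m α p) : Z0 ltO (obj L en c) a m α p' := by
  intro β hβ hβα q hq hqp hB
  obtain ⟨s, hs, hsp, hsb⟩ := b_exists_transfer hp hp' h hq hqp
  refine hz β hβ hβα s hs hsp ?_
  exact (ih β hβ (pt_res hs) (pt_res hq) (b_res_blk_congr hsb β)).2 hB

theorem B_block_imp {a : Ordinal.{0}} 
    (ih : ∀ β, β < a → ∀ {b : Bool} {m : M} {p p' : Cond Ordinal.{0}},
      Pt ltO (rr (obj L en c)) β p → Pt ltO (rr (obj L en c)) β p' →
      p.blk (L.blk m) = p'.blk (L.blk m) →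
      ((obj L en c β).B b m p ↔ (obj L en c β).B b m p'))
    {b : Bool} {m : M} {p p' : Cond Ordinal.{0}}
    (hp : Pt ltO (rr (obj L en c)) a p) (hp' : Pt ltO (rr (obj L en c)) a p')
    (h : p.blk (L.blk m) = p'.blk (L.blk m))
    (hB : (obj L en c a).B b m p) : (obj L en c a).B b m p' := by
  rw [obj_B] at hB ⊢
  refine ⟨hp', ?_⟩
  rcases hB.2 with h1 | ⟨a', ha', t, ht, h1, h2, h3⟩ | ⟨hl, hb, α, hα, hz⟩ | ⟨hl, hb, hz⟩
  · exact Or.inl h1
  · refine Or.inr (Or.inl ⟨a', ha', t, ht, ?_, ?_, ?_⟩)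
    · intro l hl
      refine (ih a' ha'.1 (pt_res hp) (pt_res hp') ?_).1 (h1 l hl)
      rw [L.blkS m l hl]
      exact b_res_blk_congr h a'
    · intro i hi
      exact (b_mem_dom_of_blk h (L.blkX m i hi)).1 (h2 hi)
    · rw [← h3]
      exact L.loc c m _ _ _ _ (fun _ _ => rfl)
        (fun i hi => (b_val_of_blk h (L.blkX m i hi)).symm)
  · exact Or.inr (Or.inr (Or.inl ⟨hl, hb, α, hα, Z0_block_aux L en c ih hp hp' h hz⟩))
  · refine Or.inr (Or.inr (Or.inr ⟨hl, hb, ?_⟩))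
    rintro q hq hqp ⟨α, hα, hz'⟩
    obtain ⟨s, hs, hsp, hsb⟩ := b_exists_transfer hp hp' h hq hqp
    exact hz s hs hsp ⟨α, hα, Z0_block_aux L en c ih hq hs hsb.symm hz'⟩

theorem B_block {a : Ordinal.{0}} {b : Bool} {m : M} {p p' : Cond Ordinal.{0}}
    (hp : Pt ltO (rr (obj L en c)) a p) (hp' : Pt ltO (rr (obj L en c)) a p')
    (h : p.blk (L.blk m) = p'.blk (L.blk m)) :
    (obj L en c a).B b m p ↔ (obj L en c a).B b m p' := by
  induction a using WellFoundedLT.induction generalizing b m p p' with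
  | _ a ih =>
    exact ⟨B_block_imp L en c ih hp hp' h, B_block_imp L en c ih hp' hp h.symm⟩

end ord

end Pool.Agent.Helper78.ITTM
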