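import Pool.Agent.Helper78.ITTM.CondBasic
import Pool.Agent.Helper78.ITTM.Tables
import Pool.Agent.Helper78.ITTM.Enumer
import Pool.Agent.Helper78.ITTM.BlockB

/-! Part B, module B8: every task in the construction of the real can be done below every
condition. -/

namespace Pool.Agent.Helper78.ITTM

universe u

section aux
variable {Ω : Type u}

theorem blk_addI {p : Cond Ω} {q : ℚ} {i : Idx} (b : Bool) (h : ¬ i.label < q) :
    (p.addI i b).blk q = p.blk q := by
  refine Cond.ext ?_ ?_ ?_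
  · ext x
    simp only [Cond.blk, Cond.addI, Finset.mem_filter, Finset.mem_insert]
    constructor
    · rintro ⟨rfl | hx, h2⟩
      · exact absurd h2 h
      · exact ⟨hx, h2⟩
    · rintro ⟨hx, h2⟩
      exact ⟨Or.inr hx, h2⟩
  · ext x
    cases b
    · simp [Cond.blk, Cond.addI]
    · simp only [Cond.blk, Cond.addI, if_true, Finset.mem_filter, Finset.mem_insert]
      constructor
      · rintro ⟨rfl | hx, h2⟩
        · exact absurd h2 h
        · exact ⟨hx, h2⟩
      · rintro ⟨hx, h2⟩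
        exact ⟨Or.inr hx, h2⟩
  · rfl

/-- a root with label in a given interval outside a finite set -/
theorem exists_root {q0 q1 : ℚ} (h : q0 < q1) (D : Finset Idx) :
    ∃ l, q0 ≤ l ∧ l < q1 ∧ Idx.root l ∉ D := by
  by_contra hcon
  push Not at hcon
  have hinf : (Set.Ico q0 q1).Infinite := Set.Ico_infinite h
  refine hinf ?_
  have hinj : Set.InjOn Idx.root (Set.Ico q0 q1) := by
    intro x _ y _ hxy
    cases hxy
    rfl
  refine Set.Finite.of_finite_image ?_ hinj
  refine D.finite_toSet.subset ?_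
  rintro _ ⟨l, hl, rfl⟩
  exact hcon l hl.1 hl.2

end aux

section ord
variable {M : Type} (L : LocOp M) (en : Enum M) (en2 : Enum2 M) (c : R2)

theorem tgt_dense {a : Ordinal.{0}} (ha : isLim ltO a) (hs : Surj L en c a)
    (hp : Pres L en c a) (d : XIx M) (p : Cond Ordinal.{0})
    (hpt : Pt ltO (rr (obj L en c)) a p) : ∃ q, Good L ltO (obj L en c) a d p q := by
  cases d with
  | E l m =>
    by_cases hex : ∃ β, (obj L en c a).C l β
    · obtain ⟨β, hβ⟩ := hex
      have hβa : β < a := C_lt L en c hβ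
      obtain ⟨q, hq, hqp, hqE⟩ := (hp β hβa.le m p hpt).1
      refine ⟨q, hq, hqp, ?_⟩
      intro β' hβ'
      rw [C_fun L en c hβ' hβ]
      exact hqE
    · exact ⟨p, hpt, ext_refl p, fun β hβ => absurd ⟨β, hβ⟩ hex⟩
  | D l m l' =>
    by_cases hex : ∃ β α, (obj L en c a).C l β ∧ (obj L en c a).C l' α ∧ isLim ltO β ∧ α < β
    · obtain ⟨β, α, hβ, hα, hlim, hαβ⟩ := hex
      have hβa : β < a := C_lt L en c hβ
      obtain ⟨q, hq, hqp, hqD⟩ := (hp β hβa.le m p hpt).2 hlim α hαβ
      refine ⟨q, hq, hqp, ?_⟩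
      intro β' α' hβ' hα' _ _
      rw [C_fun L en c hβ' hβ, C_fun L en c hα' hα]
      exact hqD
    · refine ⟨p, hpt, ext_refl p, ?_⟩
      intro β α hβ hα hlim hαβ
      exact absurd ⟨β, α, hβ, hα, hlim, hαβ⟩ hex
  | dm i =>
    obtain ⟨q, hq, hqp, hi, hF⟩ := add_index hpt.1 i
    exact ⟨q, ⟨hq, fun j g hg => hpt.2 j g (hF ▸ hg)⟩, hqp, hi⟩
  | prm i l =>
    obtain ⟨q, hq, hqp, hi, hF⟩ := add_index hpt.1 i
    by_cases hex : ∃ g, (obj L en c a).C l g
    · obtain ⟨g, hg⟩ := hex
      obtain ⟨s, hsv, hsq, hsF, hsall⟩ := add_promise hq hi g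
      refine ⟨s, ⟨hsv, ?_⟩, ext_trans hpt.1 hsq hqp, ?_⟩
      · intro j g' hg'
        rcases hsall _ hg' with h | h
        · cases h
          exact C_lt L en c hg
        · rw [hF] at h
          exact hpt.2 j g' h
      · intro g' hg'
        rw [C_fun L en c hg' hg]
        exact hsF
    · exact ⟨p, hpt, ext_refl p, fun g hg => absurd ⟨g, hg⟩ hex⟩
  | dg e q0 q1 =>
    by_cases hlt : q0 < q1
    swap
    · exact ⟨p, hpt, ext_refl p, fun h => absurd h hlt⟩
    obtain ⟨l, hl0, hl1, hld⟩ := exists_root hlt p.dom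
    by_cases hex : ∃ p' γ, Pt ltO (rr (obj L en c)) a p' ∧ Ext (rr (obj L en c)) p' p ∧ γ < a ∧
        (obj L en c γ).B true (L.hc q0 e (num l)) (res ltO γ p')
    · obtain ⟨p', γ, hp', hp'p, hγ, hB⟩ := hex
      obtain ⟨s, hsP, hsp', hsE⟩ := (hp γ hγ.le (L.oc q0 e (num l)) p' hp').1
      have hBs : (obj L en c γ).B true (L.hc q0 e (num l)) (res ltO γ s) :=
        B_open L en c hB (pt_res hsP) (res_ext hsp')
      obtain ⟨b, hb⟩ : ∃ b, (obj L en c γ).B b (L.oc q0 e (num l)) (res ltO γ s) := by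
        rcases hsE with h | h
        · exact ⟨false, h⟩
        · exact ⟨true, h⟩
      have hsp : Ext (rr (obj L en c)) s p := ext_trans hpt.1 hsp' hp'p
      set t : Cond Ordinal.{0} := Cond.mrg q0 s p with ht
      have htP : Pt ltO (rr (obj L en c)) a t := pt_mrg q0 hsP hpt
      have htE : Ext (rr (obj L en c)) t p := ext_mrg q0 hpt.1 hsp (ext_refl p)
      have hlt' : Idx.root l ∉ t.dom := by
        intro h
        rw [ht] at h
        simp only [Cond.mrg, Finset.mem_union, Finset.mem_filter, Idx.label] at h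
        rcases h with h | h
        · exact absurd h.2 (not_lt.mpr hl0)
        · exact hld h.1
      obtain ⟨hv, hx⟩ := add_root htP.1 l hlt' (!b)
      have hwP : Pt ltO (rr (obj L en c)) a (t.addI (Idx.root l) (!b)) :=
        ⟨hv, fun j g hg => htP.2 j g hg⟩
      have hblk : (res ltO γ (t.addI (Idx.root l) (!b))).blk q0 = (res ltO γ s).blk q0 := by
        rw [← res_blk, ← res_blk, blk_addI _ (by simpa [Idx.label] using hl0), ht, blk_mrg]
      refine ⟨t.addI (Idx.root l) (!b), hwP, ext_trans hpt.1 hx htE, fun _ =>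
        ⟨l, hl0, hl1, by simp [Cond.addI], Or.inl ⟨γ, b, hγ, ?_, ?_, ?_⟩⟩⟩
      · refine (B_block L en c (pt_res hwP) (pt_res hsP) ?_).2 hBs
        rw [L.blkh]
        exact hblk
      · refine (B_block L en c (pt_res hwP) (pt_res hsP) ?_).2 hb
        rw [L.blko]
        exact hblk
      · have htr : Idx.root l ∉ t.tr := fun h => hlt' (htP.1.1 h)
        cases b
        · simp [Cond.addI]
        · simp [Cond.addI, htr]
    · obtain ⟨hv, hx⟩ := add_root hpt.1 l hld true
      refine ⟨p.addI (Idx.root l) true, ⟨hv, fun j g hg => hpt.2 j g hg⟩, hx, fun _ =>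
        ⟨l, hl0, hl1, by simp [Cond.addI], Or.inr ?_⟩⟩
      intro q' hq' hq'p γ hγ hB
      exact hex ⟨q', γ, hq', ext_trans hpt.1 hq'p hx, hγ, hB⟩

end ord

end Pool.Agent.Helper78.ITTM
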