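import Pool.Agent.Helper78.ITTM.GenSeq
import Pool.Agent.Helper78.ITTM.CondBasic
import Pool.Agent.Helper78.ITTM.Enumer
import Pool.Agent.Helper78.ITTM.Target

/-! Part B, module B9: the sequence of conditions defining `x₀`. -/

namespace Pool.Agent.Helper78.ITTM

section ord
variable {M : Type} (L : LocOp M) (en : Enum M) (en2 : Enum2 M) (c : R2)

/-- The stages of the construction of `x₀` are unique. -/
theorem xs_unique {a : Ordinal.{0}} (k : ℕ) : ∀ p q : Cond Ordinal.{0},
    Xs L en2 ltO (obj L en c) a k p → Xs L en2 ltO (obj L en c) a k q → p = q := by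
  induction k with
  | zero =>
    intro p q hp hq
    have h1 : p = Cond.bot _ := hp
    have h2 : q = Cond.bot _ := hq
    rw [h1, h2]
  | succ k ih =>
    intro p q hp hq
    obtain ⟨p0, hp0, hp⟩ := hp
    obtain ⟨q0, hq0, hq⟩ := hq
    have h0 : p0 = q0 := ih p0 q0 hp0 hq0
    subst h0
    rcases hp with ⟨n, hn, hg, hl⟩ | ⟨hpe, hpn⟩
    · rcases hq with ⟨n', hn', hg', hl'⟩ | ⟨hqe, hqn⟩
      · have hnn : n = n' := by
          rcases lt_trichotomy n n' with h | h | h
          · exact absurd hg (hl' n h p hn)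
          · exact h
          · exact absurd hg' (hl n' h q hn')
        subst hnn
        exact mapC_fun L en c hn hn'
      · exact absurd hg (hqn n p hn)
    · rcases hq with ⟨n', hn', hg', hl'⟩ | ⟨hqe, hqn⟩
      · exact absurd hg' (hpn n' q hn')
      · rw [hpe, hqe]

/-- Each stage can be extended by a good one. -/
theorem xs_next {a : Ordinal.{0}} (ha : isLim ltO a) (hs : Surj L en c a)
    (hp : Pres L en c a) (k : ℕ) (p : Cond Ordinal.{0})
    (hx : Xs L en2 ltO (obj L en c) a k p) (hpt : Pt ltO (rr (obj L en c)) a p) :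
    ∃ q, Xs L en2 ltO (obj L en c) a (k + 1) q ∧
      Good L ltO (obj L en c) a (en2.eX k) p q := by
  classical
  have hex : ∃ n q, MapC (obj L en c) a (en2.eC n) q ∧
      Good L ltO (obj L en c) a (en2.eX k) p q := by
    obtain ⟨q, hq⟩ := tgt_dense L en c ha hs hp (en2.eX k) p hpt
    obtain ⟨q', hq'⟩ := mapC_surj L en c hs q hq.1.2
    obtain ⟨n, hn⟩ := en2.eCs q'
    exact ⟨n, q, by rw [hn]; exact hq', hq⟩
  obtain ⟨q, hq1, hq2⟩ := Nat.find_spec hex
  refine ⟨q, ⟨p, hx, Or.inl ⟨Nat.find hex, hq1, hq2, ?_⟩⟩, hq2⟩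
  intro n' hn' q' hm hg
  exact Nat.find_min hex hn' ⟨q', hm, hg⟩

theorem xs_seq {a : Ordinal.{0}} (ha : isLim ltO a) (hs : Surj L en c a)
    (hp : Pres L en c a) : ∃ p, GenSeq L en c a (X0 L en2 ltO (obj L en c) a) p := by
  classical
  let S : ℕ → Type _ := fun k => {p : Cond Ordinal.{0} // Xs L en2 ltO (obj L en c) a k p ∧
    Pt ltO (rr (obj L en c)) a p}
  let st : (k : ℕ) → S k := fun k => Nat.rec (motive := S)
    ⟨Cond.bot _, rfl, pt_bot a⟩
    (fun k s => ⟨(xs_next L en en2 c ha hs hp k s.1 s.2.1 s.2.2).choose,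
      (xs_next L en en2 c ha hs hp k s.1 s.2.1 s.2.2).choose_spec.1,
      (xs_next L en en2 c ha hs hp k s.1 s.2.1 s.2.2).choose_spec.2.1⟩) k
  have hst : ∀ k, Good L ltO (obj L en c) a (en2.eX k) (st k).1 (st (k + 1)).1 := fun k =>
    (xs_next L en en2 c ha hs hp k (st k).1 (st k).2.1 (st k).2.2).choose_spec.2
  refine ⟨fun k => (st k).1, ⟨rfl, fun k => (st k).2.2, fun k => (hst k).2.1, ?_, ?_⟩⟩
  · intro i
    unfold X0
    rw [decide_eq_true_iff]
    constructor
    · rintro ⟨k, p, hx, hi⟩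
      refine ⟨k, ?_⟩
      rw [xs_unique L en en2 c k _ _ (st k).2.1 hx]
      exact hi
    · rintro ⟨k, hi⟩
      exact ⟨k, (st k).1, (st k).2.1, hi⟩
  · intro d
    obtain ⟨k, hk⟩ := en2.eXs d
    refine ⟨k + 1, ?_⟩
    have := (hst k).2.2
    rw [hk] at this
    exact this

end ord

end Pool.Agent.Helper78.ITTM
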