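import Pool.Agent.Helper78.ITTM.CondBasic
import Pool.Agent.Helper78.ITTM.Tables
import Pool.Agent.Helper78.ITTM.Kappa
import Pool.Agent.Helper78.ITTM.SurjC
import Pool.Agent.Helper78.ITTM.Generic
import Pool.Agent.Helper78.ITTM.Preserve
import Pool.Agent.Helper78.ITTM.XSeq
import Pool.Agent.Helper78.ITTM.Truth
import Pool.Agent.Helper78.ITTM.Loops

/-! Module B13: the generic real is correct, its diagonal properties. -/

namespace Pool.Agent.Helper78.ITTM

universe u

section ord
variable {M : Type} (L : LocOp M) (en : Enum M) (en2 : Enum2 M) (c : R2)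

namespace BMain

variable {L en c}

/-- Conditions of a generic sequence are descending. -/
theorem mono {a : Ordinal.{0}} {x : Idx → Bool} {p : ℕ → Cond Ordinal.{0}}
    (hG : GenSeq L en c a x p) {k k' : ℕ} (h : k ≤ k') :
    Ext (rr (obj L en c)) (p k') (p k) := by
  induction k', h using Nat.le_induction with
  | base => exact ext_refl _
  | succ n hn ih => exact ext_trans (hG.pt k).1 (hG.ext n) ih

/-- The value of the generic real on the domain of a condition. -/
theorem x_val {a : Ordinal.{0}} {x : Idx → Bool} {p : ℕ → Cond Ordinal.{0}}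
    (hG : GenSeq L en c a x p) {k : ℕ} {i : Idx} (hi : i ∈ (p k).dom) :
    x i = true ↔ i ∈ (p k).tr := by
  rw [hG.x]
  constructor
  · rintro ⟨k', hk'⟩
    rcases le_total k' k with h | h
    · exact ((mono hG h).2.1 i ((hG.pt k').1.1 hk')).2 hk'
    · exact ((mono hG h).2.1 i hi).1 hk'
  · intro h
    exact ⟨k, h⟩

theorem x_val' {a : Ordinal.{0}} {x : Idx → Bool} {p : ℕ → Cond Ordinal.{0}}
    (hG : GenSeq L en c a x p) {k : ℕ} {i : Idx} (hi : i ∈ (p k).dom) :
    (p k).val i = x i := by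
  have h := x_val hG hi
  rw [Cond.val]
  by_cases h1 : i ∈ (p k).tr
  · rw [h.2 h1]; exact decide_eq_true h1
  · have h2 : x i = false := by
      rw [← Bool.not_eq_true]
      exact fun h3 => h1 (h.1 h3)
    rw [h2]; exact decide_eq_false h1

theorem pre_length (r : ℕ → Bool) (j : ℕ) : (pre r j).length = j := by
  simp [pre]

/-- Nodes at `i` in a finite domain have bounded length. -/
theorem node_bound (D : Finset Idx) (i : Idx) :
    ∃ J : ℕ, ∀ s, Idx.node i s ∈ D → s.length < J := by
  classical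
  refine ⟨D.sup (fun z => match z with
    | .root _ => 0
    | .node _ s => s.length) + 1, fun s hs => ?_⟩
  have := Finset.le_sup (f := fun z : Idx => match z with
    | .root _ => 0
    | .node _ s => s.length) hs
  exact Nat.lt_succ_of_le this

end BMain

open BMain

theorem gen_correct {a : Ordinal.{0}} (ha : isLim ltO a) (hs : Surj L en c a) {x : Idx → Bool}
    {p : ℕ → Cond Ordinal.{0}} (hG : GenSeq L en c a x p) {δ : Ordinal.{0}} (hδ : δ < a)
    (q : ℚ) : Correct q (rr (obj L en c) δ) x := by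
  intro i _
  obtain ⟨l, hl⟩ := hs δ hδ
  obtain ⟨k, hk⟩ := hG.tgt (.prm i l)
  have hF : (i, δ) ∈ (p k).F := hk δ hl
  have hi : i ∈ (p k).dom := (hG.pt k).1.2.1 i δ hF
  obtain ⟨J, hJ⟩ := node_bound (p k).dom i
  refine ⟨J, fun j hj hpar => ?_⟩
  have hnot : Idx.node i (pre (rr (obj L en c) δ i) j) ∉ (p k).dom := by
    intro h
    have := hJ _ h
    rw [pre_length] at this
    omega
  obtain ⟨k', hk'⟩ := hG.tgt (.dm (Idx.node i (pre (rr (obj L en c) δ i) j)))
  have hk'' : Idx.node i (pre (rr (obj L en c) δ i) j) ∈ (p (max k k')).dom :=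
    (mono hG (le_max_right k k')).1 hk'
  have h1 := (mono hG (le_max_left k k')).2.2.2 i δ j hF
    (by rw [x_val' hG hi]; exact hpar) hk'' hnot
  have h2 := x_val hG hk''
  rw [Bool.eq_iff_iff]
  exact h2.trans h1

theorem kap_surj [Countable M] {a : Ordinal.{0}} (ha : a ≤ kap L en c) :
    Surj L en c a :=
  surj_of L en c fun _ hb => kap_min L en c (hb.trans_le ha)

namespace BMain

variable {L en c}

theorem kap_pres [Countable M] {a : Ordinal.{0}} (ha : a ≤ kap L en c) : Pres L en c a :=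
  pres_all L en c fun _ hb => kap_surj L en c (hb.le.trans ha)

theorem x0_seq [Countable M] : ∃ p, GenSeq L en c (kap L en c) (x0 L en en2 c) p :=
  xs_seq L en en2 c (kap_sg L en c).1 (kap_surj L en c le_rfl) (kap_pres le_rfl)

end BMain

theorem x0_correct [Countable M] {δ : Ordinal.{0}} (hδ : δ < kap L en c) (q : ℚ) :
    Correct q (rr (obj L en c) δ) (x0 L en en2 c) := by
  obtain ⟨p, hp⟩ := x0_seq (L := L) (en := en) en2 (c := c)
  exact gen_correct L en c (kap_sg L en c).1 (kap_surj L en c le_rfl) hp hδ q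

theorem r_inj [Countable M] {δ δ' : Ordinal.{0}} (hδ : δ < kap L en c) (hδ' : δ' < kap L en c)
    (i : Idx) (h : rr (obj L en c) δ i = rr (obj L en c) δ' i) : δ = δ' := by
  rcases lt_trichotomy δ δ' with h1 | h1 | h1
  · exact absurd h.symm (r_ne L en c (kap_surj L en c hδ'.le) (kap_pres hδ'.le) h1 i)
  · exact h1
  · exact absurd h (r_ne L en c (kap_surj L en c hδ.le) (kap_pres hδ.le) h1 i)

theorem x0_diag [Countable M]
    (hst : ∀ (x : Idx → Bool) (q : ℚ) (e : Prog) (n : ℕ) (γ γ' : Ordinal.{0}), γ ≤ γ' →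
      Zit L c x γ (L.hc q e n) = true →
      Zit L c x γ' (L.hc q e n) = true ∧ Zit L c x γ' (L.oc q e n) = Zit L c x γ (L.oc q e n))
    (e : Prog) {q q' : ℚ} (hq : q < q') :
    ∃ l, q ≤ l ∧ l < q' ∧ ∀ γ, Zit L c (x0 L en en2 c) γ (L.hc q e (num l)) = true →
      Zit L c (x0 L en en2 c) γ (L.oc q e (num l)) ≠ x0 L en en2 c (Idx.root l) := by
  obtain ⟨p, hp⟩ := x0_seq (L := L) (en := en) en2 (c := c)
  have hsg := kap_sg L en c
  have hlim := hsg.1
  have hsu : Surj L en c (kap L en c) := kap_surj L en c le_rfl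
  obtain ⟨k, hk⟩ := hp.tgt (.dg e q q')
  obtain ⟨l, hl1, hl2, hdom, hcase⟩ := hk hq
  refine ⟨l, hl1, hl2, fun γ hγ => ?_⟩
  rcases hcase with ⟨γ₀, b, hγ₀, h1, h2, h3⟩ | hnever
  · have t1 : Zit L c (x0 L en en2 c) γ₀ (L.hc q e (num l)) = true :=
      (truth L en c hlim hsu hp hγ₀ _ _).2 ⟨k, h1⟩
    have t2 : Zit L c (x0 L en en2 c) γ₀ (L.oc q e (num l)) = b :=
      (truth L en c hlim hsu hp hγ₀ _ _).2 ⟨k, h2⟩
    have t3 : Zit L c (x0 L en en2 c) γ (L.oc q e (num l)) = b := by
      rcases le_total γ γ₀ with h | h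
      · rw [← t2]; exact (hst _ q e _ γ γ₀ h hγ).2.symm
      · rw [← t2]; exact (hst _ q e _ γ₀ γ h t1).2
    have t4 : x0 L en en2 c (Idx.root l) = true ↔ b = false := (x_val hp hdom).trans h3
    rw [t3]
    intro h
    rw [← h] at t4
    cases b <;> simp at t4
  · exfalso
    have hlt : ∀ γ', γ' < kap L en c →
        Zit L c (x0 L en en2 c) γ' (L.hc q e (num l)) ≠ true := by
      intro γ' hγ' ht
      obtain ⟨k', hk'⟩ := (truth L en c hlim hsu hp hγ' _ _).1 ht
      have h4 := B_open L en c hk' (q := res ltO γ' (p (max k k')))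
        (pt_res (hp.pt _)) (res_ext (mono hp (le_max_right k k')))
      exact hnever (p (max k k')) (hp.pt _) (mono hp (le_max_left k k')) γ' hγ' h4
    obtain ⟨β, hβ, hβ2⟩ := loops L en c hsg hsu hp
    have h5 : Zit L c (x0 L en en2 c) β (L.hc q e (num l)) = false := by
      rw [← Bool.not_eq_true]; exact hlt β hβ
    rcases lt_or_ge γ β with h | h
    · exact hlt γ (h.trans hβ) hγ
    · rw [hβ2 _ h5 γ h] at hγ
      exact Bool.false_ne_true hγ

end ord

end Pool.Agent.Helper78.ITTM
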