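import Pool.Agent.Helper78.ITTM.BDefs2

/-! Part C: official runs as local iterations, Borel machines with arbitrary inputs, codes of
well-orders, cuts. -/

namespace Pool.Agent.Helper78.ITTM

universe u

/-! ### Official runs as local iterations -/

/-- Cells: head at `i` in state `q`; tape cells; two clock flags; halted. -/
inductive LC
  | hs (i q : ℕ)
  | tp (k : Fin 3) (i : ℕ)
  | fa | fb | hl
deriving DecidableEq

/-- Head at `j` in state `q`; when both flags are on (limit) the head is at 0 in state 1. -/
def vh (z : LC → Bool) (j q : ℕ) : Bool :=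
  if z .fa && z .fb then decide (j = 0 ∧ q = 1) else z (.hs j q)

/-- The symbols at cell `j`. -/
def sy (z : LC → Bool) (O : R2) (j : ℕ) : Fin 4 → Bool :=
  ![z (.tp 0 j), z (.tp 1 j), z (.tp 2 j), O j]

/-- One step of the simulation of the official program `e` on input `n` with oracle `O`. After the
halting state 2 has been reached the head walks to cell 0 and then everything is frozen. -/
noncomputable def lstep (e : Prog) (n : ℕ) (O : R2) (z : LC → Bool) (l : LC) : Bool :=
  if !z .fa && !z .fb then
    (match l with
      | .hs i q => decide (i = 0 ∧ q = 0)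
      | .tp k i => decide (k = 0 ∧ i < n)
      | .fa => true
      | .fb => false
      | .hl => false)
  else if z .hl then z l
  else
    (match l with
      | .hs i q => decide (∃ j, j ≤ i + 1 ∧ ∃ p : Fin (e.k + 3), vh z j p.1 = true ∧
          ((p.1 = 2 ∧ q = 2 ∧ i = j - 1) ∨
           (p.1 ≠ 2 ∧ (e.tr p (sy z O j)).1.1 = q ∧
              i = if (e.tr p (sy z O j)).2.2 then j + 1 else j - 1)))
      | .tp k i => decide ((∃ p : Fin (e.k + 3), p.1 ≠ 2 ∧ vh z i p.1 = true ∧
            (e.tr p (sy z O i)).2.1 k = true) ∨
          ((∀ p : Fin (e.k + 3), p.1 ≠ 2 → vh z i p.1 = false) ∧ z (.tp k i) = true))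
      | .fa => (z .fa && z .fb) || z .fb
      | .fb => !(z .fa && z .fb) && z .fa
      | .hl => vh z 0 2)

/-- The local iteration of an official run. -/
noncomputable def lrun (e : Prog) (n : ℕ) (O : R2) (a : Ordinal.{0}) : LC → Bool :=
  iter (lstep e n O) (fun _ => false) a

/-- The part of `x` in the block `label < q`, as a real. -/
noncomputable def msk (q : ℚ) (x : R2) : R2 := fun n => decide ((E0.symm n).label < q) && x n

/-- A function on indices as a real. -/
noncomputable def idr (x : Idx → Bool) : R2 := fun n => x (E0.symm n)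

/-- The oracles `d_q`. -/
noncomputable def dq (c : R2) (x : Idx → Bool) (q : ℚ) : R2 := join c (msk q (idr x))

/-- The function on indices coded by the odd part of a real. -/
noncomputable def ofr (d : R2) : Idx → Bool := fun i => d (2 * E0 i + 1)

/-! ### Borel machines with arbitrary inputs and outputs -/

/-- Borel machine with input cells `I` and output cells `O`. -/
structure BI (I O : Type) where
  J : Type
  cJ : Countable J
  init : J → Bool
  step : (I → Bool) → (J → Bool) → (J → Bool)
  meas : Measurable (fun p : (I → Bool) × (J → Bool) => step p.1 p.2)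
  halt : J
  out : O → J

/-- `M` halts on input `u` with output `v`. -/
def BI.Halts {I O : Type} (M : BI I O) (u : I → Bool) (v : O → Bool) : Prop :=
  ∃ a : Ordinal.{0}, iter (M.step u) M.init a M.halt = true ∧
    (∀ b, b < a → iter (M.step u) M.init b M.halt = false) ∧
    ∀ o, iter (M.step u) M.init a (M.out o) = v o

/-- Computable relations (they are graphs of partial functions). -/
def Comp {I O : Type} (R : (I → Bool) → (O → Bool) → Prop) : Prop :=
  ∃ M : BI I O, ∀ u v, M.Halts u v ↔ R u v

/-- The set of halting facts for the oracle `O`. -/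
noncomputable def hinf (O : R2) : Prog × ℕ × Bool → Bool :=
  fun p => @decide (Halts p.1 O p.2.1 p.2.2.toNat) (Classical.propDecidable _)

/-! ### Codes of orders -/

/-- The strict relation of a code. -/
def ltw {X : Type} (w : X × X → Bool) (b a : X) : Prop := w (b, a) = true ∧ b ≠ a

/-- Codes of linear orders (reflexive, on the field `{a | w (a, a)}`). -/
def LO {X : Type} (w : X × X → Bool) : Prop :=
  (∀ a b, w (a, b) = true → w (a, a) = true ∧ w (b, b) = true) ∧
  (∀ a b, w (a, b) = true → w (b, a) = true → a = b) ∧
  (∀ a b d, w (a, b) = true → w (b, d) = true → w (a, d) = true) ∧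
  (∀ a b, w (a, a) = true → w (b, b) = true → w (a, b) = true ∨ w (b, a) = true)

/-- Rank in the well-founded part. -/
noncomputable def rkw {X : Type} (w : X × X → Bool) (a : X) : Ordinal.{0} :=
  @dite _ (Acc (ltw w) a) (Classical.propDecidable _) (fun h => h.rank) (fun _ => 0)

/-- Elements of the field in the well-founded part. -/
def wfp {X : Type} (w : X × X → Bool) (a : X) : Prop := w (a, a) = true ∧ Acc (ltw w) a

/-- The relation coded by a real. -/
def wr (d : R2) : ℕ × ℕ → Bool := fun p => d (Nat.pair p.1 p.2)

/-- The real coding a relation. -/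
def wc (w : ℕ × ℕ → Bool) : R2 := fun n => w (Nat.unpair n)

/-- Program `e` is total according to `h`. -/
def tot (h : Prog × ℕ × Bool → Bool) (e : Prog) : Prop := ∀ n, ∃ b, h (e, n, b) = true

/-- The real computed by `e` according to `h`. -/
def rel (h : Prog × ℕ × Bool → Bool) (e : Prog) : R2 := fun n => h (e, n, true)

/-! ### State of the recursion along a code -/

/-- Cells of the table of the recursion along a code. -/
inductive JR (M : Type)
  | dn (a : ℕ)
  | B (a : ℕ) (b : Bool) (m : M) (p : Cond ℕ)
  | C (a k g : ℕ)
  | R (a : ℕ) (i : Idx) (j : ℕ)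

/-- The data function of a table. -/
def dat {M : Type} (z : JR M → Bool) (a : ℕ) : Dat M ℕ where
  B := fun b m p => z (.B a b m p) = true
  C := fun k g => z (.C a k g) = true
  r := fun i j => z (.R a i j)

/-- `z` is the table of the recursion along `w`. -/
def Tab {M : Type} (L : LocOp M) (en : Enum M) (c : R2) (w : ℕ × ℕ → Bool) (z : JR M → Bool) :
    Prop :=
  (∀ a, z (.dn a) = true ↔ wfp w a) ∧
  (∀ a, wfp w a → dat z a = Full L en c (ltw w) (dat z) a) ∧
  (∀ a, ¬ wfp w a → (∀ b m p, z (.B a b m p) = false) ∧ (∀ k g, z (.C a k g) = false) ∧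
    ∀ i j, z (.R a i j) = false)

/-! ### Cuts -/

/-- Dyadic value of a finite sequence. -/
def vq : List Bool → ℚ
  | [] => 0
  | b :: s => ((if b then 1 else -1) + vq s) / 2

/-- The sequence read off from a set of rationals. -/
def pfx (A : ℚ → Bool) : ℕ → List Bool
  | 0 => []
  | n + 1 => pfx A n ++ [A (vq (pfx A n))]

/-- The real decoded from a set of rationals. -/
def dec (A : ℚ → Bool) : R2 := fun n => A (vq (pfx A (2 * n)))

end Pool.Agent.Helper78.ITTM
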