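import Pool.Agent.Helper78.ITTM.CDefs

/-! Part C, second set of definitions: the sum of all computed well-orders, the cuts K and M. -/

namespace Pool.Agent.Helper78.ITTM

instance progCountable : Countable Prog := by
  have : Function.Injective (fun P : Prog => (⟨P.k, P.tr⟩ :
      Σ k : ℕ, Fin (k + 3) → (Fin 4 → Bool) → Fin (k + 3) × (Fin 3 → Bool) × Bool)) := by
    rintro ⟨k, t⟩ ⟨k', t'⟩ h
    cases h
    rfl
  exact this.countable

noncomputable instance progEnc : Encodable Prog := Encodable.ofCountable Prog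

/-- A numbering of the elements of the sum. -/
noncomputable def EK : Option (Prog × ℕ) ≃ ℕ :=
  @Denumerable.eqv (Option (Prog × ℕ))
    (@Denumerable.ofEncodableOfInfinite (Option (Prog × ℕ)) _
      (Infinite.of_injective (fun n : ℕ => some ((⟨0, fun _ _ => (0, fun _ => false, true)⟩ : Prog), n))
        (fun a b h => by simpa using h)))

/-- The field of the sum: the well-founded parts of all total linear orders, and a top element. -/
def fl (h : Prog × ℕ × Bool → Bool) : Option (Prog × ℕ) → Prop
  | none => True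
  | some (e, a) => tot h e ∧ LO (wr (rel h e)) ∧ wfp (wr (rel h e)) a

/-- The order of the sum. -/
def lamR (h : Prog × ℕ × Bool → Bool) : Option (Prog × ℕ) → Option (Prog × ℕ) → Prop
  | _, none => True
  | none, some _ => False
  | some (e, a), some (e', b) => Encodable.encode e < Encodable.encode e' ∨
      (e = e' ∧ wr (rel h e) (a, b) = true)

/-- The code of the sum of all well-orders computed according to `h`, with a top element. -/
noncomputable def lamN (h : Prog × ℕ × Bool → Bool) : ℕ × ℕ → Bool :=
  fun p => @decide (fl h (EK.symm p.1) ∧ fl h (EK.symm p.2) ∧ lamR h (EK.symm p.1) (EK.symm p.2))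
    (Classical.propDecidable _)

/-- The top element. -/
noncomputable def ltop : ℕ := EK none

/-- Prediction of a real from two reals. -/
def prd (u u' : Idx → Bool) (i : Idx) (s : List Bool) : ℕ → List Bool
  | 0 => s
  | k + 1 => prd u u' i s k ++
      [if (prd u u' i s k).length % 2 = (u i).toNat then u (Idx.node i (prd u u' i s k))
       else u' (Idx.node i (prd u u' i s k))]

section
variable {M : Type} (L : LocOp M) (en : Enum M) (en2 : Enum2 M)

/-- The real `(c, x₀)`. -/
noncomputable def X0r (c : R2) : R2 := join c (idr (x0 L en en2 c))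

/-- `w` has an element of rank `κ`. -/
def HasK (c : R2) (w : ℕ × ℕ → Bool) : Prop :=
  LO w ∧ ∃ a, wfp w a ∧ rkw w a = kap L en c

/-- The set `K`. -/
noncomputable def chiK (c : R2) (h : Prog × ℕ × Bool → Bool) : ℚ → Bool :=
  fun q => @decide (∃ e, tot h e ∧
    Correct q (rr (obj L en c) (rkw (lamN h) ltop)) (ofr (rel h e))) (Classical.propDecidable _)

/-- The complement of the set `M` below `q'`. -/
noncomputable def chiM (x : R2) (q' : ℚ) (h : ℚ × Prog × ℕ × Bool → Bool) : ℚ → Bool :=
  fun q => @decide (q ≤ q' ∧ ¬ ∃ e, tot (fun p => h (q, p)) e ∧ rel (fun p => h (q, p)) e = x)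
    (Classical.propDecidable _)

/-- Task 1. -/
def R1t (c : R2) (h : Prog × ℕ × Bool → Bool) (v : R2) : Prop :=
  v = X0r L en en2 c ∧ (HasK L en c (lamN h) ∨
    (¬ HasK L en c (lamN h) ∧ HasK L en c (wr (dec (chiK L en c h)))))

/-- Task 2. -/
def R2t (e1 e' : Prog) (i : Idx) (s : List Bool) (c : R2) (h : Prog × ℕ × Bool → Bool)
    (v : R2) : Prop :=
  tot h e1 ∧ tot h e' ∧ ofr (rel h e1) i ≠ ofr (rel h e') i ∧ ¬ HasK L en c (lamN h) ∧
  (∀ k, pre (rr (obj L en c) (rkw (lamN h) ltop) i) (s.length + k) =
    prd (ofr (rel h e1)) (ofr (rel h e')) i s k) ∧ v = wc (lamN h)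

/-- Task 3. -/
def R3t (q' : ℚ) (c x : R2) (h : ℚ × Prog × ℕ × Bool → Bool) (v : R2) : Prop :=
  v = X0r L en en2 c ∧ HasK L en c (wr (dec (chiM x q' h)))

end

end Pool.Agent.Helper78.ITTM
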