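import Pool.Agent.Helper78.ITTM.Ranks

/-! Countable ordinals have codes. -/

namespace Pool.Agent.Helper78.ITTM

open Classical in
theorem code_exists (a : Ordinal.{0}) (ha : a.card ≤ Cardinal.aleph0) :
    ∃ d : R2, LO (wr d) ∧ ∃ k, wfp (wr d) k ∧ rkw (wr d) k = a := by
  have hc0 : (Set.Iio a).Countable := by
    rw [← Cardinal.le_aleph0_iff_set_countable, Cardinal.mk_Iio_ordinal]
    exact Cardinal.lift_le_aleph0.2 ha
  have hc : (Set.Iic a).Countable := by
    have : Set.Iic a = insert a (Set.Iio a) := by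
      ext b
      simp [le_iff_eq_or_lt]
    rw [this]
    exact hc0.insert a
  haveI : Countable (Set.Iic a) := hc.to_subtype
  obtain ⟨g, hg⟩ := exists_injective_nat (Set.Iic a)
  let w : ℕ × ℕ → Bool := fun p => decide (∃ b b' : Set.Iic a, g b = p.1 ∧ g b' = p.2 ∧ b ≤ b')
  have hw : ∀ m n, w (m, n) = true ↔ ∃ b b' : Set.Iic a, g b = m ∧ g b' = n ∧ b ≤ b' :=
    fun m n => by simp [w]
  have hwg : ∀ b b' : Set.Iic a, w (g b, g b') = true ↔ b ≤ b' := by
    intro b b'
    rw [hw]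
    constructor
    · rintro ⟨c, c', h1, h2, h3⟩
      rw [hg h1, hg h2] at h3
      exact h3
    · intro h
      exact ⟨b, b', rfl, rfl, h⟩
  let d : R2 := fun n => w (Nat.unpair n)
  have hd : wr d = w := by
    funext p
    simp [wr, d]
  have hLO : LO w := by
    refine ⟨?_, ?_, ?_, ?_⟩
    · intro m n h
      rw [hw] at h
      obtain ⟨b, b', rfl, rfl, -⟩ := h
      exact ⟨(hwg b b).2 le_rfl, (hwg b' b').2 le_rfl⟩
    · intro m n h h'
      rw [hw] at h
      obtain ⟨b, b', rfl, rfl, h1⟩ := h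
      rw [hwg] at h'
      rw [le_antisymm h1 h']
    · intro m n k h h'
      rw [hw] at h h'
      obtain ⟨b, b', rfl, rfl, h1⟩ := h
      obtain ⟨c, c', h2, rfl, h3⟩ := h'
      rw [hg h2] at h3
      exact (hwg _ _).2 (h1.trans h3)
    · intro m n h h'
      rw [hw] at h h'
      obtain ⟨b, -, rfl, -, -⟩ := h
      obtain ⟨c, -, rfl, -, -⟩ := h'
      rcases le_total b c with h1 | h1
      · exact Or.inl ((hwg _ _).2 h1)
      · exact Or.inr ((hwg _ _).2 h1)
  have hlt : ∀ m (b : Set.Iic a), ltw w m (g b) ↔ ∃ b' : Set.Iic a, g b' = m ∧ b'.1 < b.1 := by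
    intro m b
    constructor
    · rintro ⟨h1, h2⟩
      rw [hw] at h1
      obtain ⟨b', c, rfl, h4, h5⟩ := h1
      rw [hg h4] at h5
      refine ⟨b', rfl, lt_of_le_of_ne h5 ?_⟩
      intro h6
      apply h2
      rw [Subtype.ext h6]
    · rintro ⟨b', rfl, h⟩
      refine ⟨(hwg _ _).2 h.le, fun h' => ?_⟩
      rw [hg h'] at h
      exact lt_irrefl _ h
  have key : ∀ b : Ordinal.{0}, ∀ hb : b ∈ Set.Iic a, Acc (ltw w) (g ⟨b, hb⟩) ∧
      rkw w (g ⟨b, hb⟩) = b := by
    intro b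
    induction b using Ordinal.induction with
    | h b ih =>
      intro hb
      have hacc : Acc (ltw w) (g ⟨b, hb⟩) := by
        refine Acc.intro _ (fun m hm => ?_)
        rw [hlt] at hm
        obtain ⟨⟨c, hc⟩, rfl, h⟩ := hm
        exact (ih c h hc).1
      refine ⟨hacc, ?_⟩
      apply le_antisymm
      · rw [rkw_acc hacc, Acc.rank_eq]
        refine Ordinal.iSup_le ?_
        rintro ⟨m, hm⟩
        rw [Order.succ_le_iff, ← rkw_acc]
        have hm' := hm
        rw [hlt] at hm'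
        obtain ⟨⟨c, hc⟩, rfl, h⟩ := hm'
        rw [(ih c h hc).2]
        exact h
      · refine le_of_forall_lt (fun c hcb => ?_)
        have hca : c ∈ Set.Iic a := (hcb.le.trans hb)
        have h1 : ltw w (g ⟨c, hca⟩) (g ⟨b, hb⟩) := by
          rw [hlt]
          exact ⟨⟨c, hca⟩, rfl, hcb⟩
        have h2 := rkw_lt_acc hacc h1
        rw [(ih c hcb hca).2] at h2
        exact h2
  have hk := key a (Set.mem_Iic.2 le_rfl)
  refine ⟨d, ?_, g ⟨a, Set.mem_Iic.2 le_rfl⟩, ?_, ?_⟩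
  · rw [hd]
    exact hLO
  · rw [hd]
    exact ⟨(hwg _ _).2 le_rfl, hk.1⟩
  · rw [hd]
    exact hk.2

end Pool.Agent.Helper78.ITTM
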