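import Pool.Agent.Helper78.ITTM.BDefs2

/-!
# Module B2: the one step lemma for Cohen generic reals
-/

namespace Pool.Agent.Helper78.ITTM

universe u

namespace CohenAux

variable {Ω : Type u} {lt : Ω → Ω → Prop} {r : Ω → Idx → ℕ → Bool}

lemma val_eq {p q : Cond Ω} {i : Idx} (h : i ∈ q.tr ↔ i ∈ p.tr) : q.val i = p.val i := by
  simp only [Cond.val, h]

lemma ext_trans {p q s : Cond Ω} (hp : Valid r p) (h1 : Ext r s q) (h2 : Ext r q p) :
    Ext r s p := by
  refine ⟨h2.1.trans h1.1, fun i hi => (h1.2.1 i (h2.1 hi)).trans (h2.2.1 i hi),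
    h2.2.2.1.trans h1.2.2.1, fun i g j hF hj hs hn => ?_⟩
  by_cases hq : Idx.node i (pre (r g i) j) ∈ q.dom
  · rw [h1.2.1 _ hq]
    exact h2.2.2.2 i g j hF hj hq hn
  · refine h1.2.2.2 i g j (h2.2.2.1 hF) ?_ hs hq
    rw [val_eq (h2.2.1 i (hp.2.1 i g hF))]
    exact hj

lemma pre_length (x : ℕ → Bool) (j : ℕ) : (pre x j).length = j := by simp [pre]

lemma pre_succ (x : ℕ → Bool) (j : ℕ) : pre x (j + 1) = pre x j ++ [x j] := by
  simp [pre, List.range_succ]

lemma first_diff (x : ℕ → Bool) (τ : List Bool) (h : pre x τ.length ≠ τ) :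
    ∃ j b, τ[j]? = some b ∧ τ.take j = pre x j ∧ b ≠ x j := by
  induction τ using List.reverseRecOn with
  | nil => exact absurd (by simp [pre]) h
  | append_singleton τ c ih =>
    by_cases h' : pre x τ.length = τ
    · refine ⟨τ.length, c, by simp, by simp [h'], ?_⟩
      intro hc
      apply h
      rw [List.length_append, List.length_singleton, pre_succ, h', hc]
    · obtain ⟨j, b, h1, h2, h3⟩ := ih h'
      have hj : j < τ.length := by
        rw [List.getElem?_eq_some_iff] at h1
        exact h1.1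
      refine ⟨j, b, ?_, ?_, h3⟩
      · rw [List.getElem?_append_left hj, h1]
      · rw [List.take_append_of_le_length hj.le, h2]

/-- The invariant of the extension of one component. -/
def Inv (r : Ω → Idx → ℕ → Bool) (p q : Cond Ω) (i : Idx) (τ : List Bool) : Prop :=
  (∀ j b, τ[j]? = some b → j % 2 = (p.val i).toNat → Idx.node i (τ.take j) ∈ q.dom →
    Idx.node i (τ.take j) ∉ p.dom → (Idx.node i (τ.take j) ∈ q.tr ↔ b = true)) ∧
  ∀ g, (i, g) ∈ q.F → pre (r g i) τ.length ≠ τ → ∃ j b, τ[j]? = some b ∧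
    τ.take j = pre (r g i) j ∧ b ≠ r g i j ∧
      (j % 2 = (p.val i).toNat → Idx.node i (pre (r g i) j) ∈ q.dom)

/-- A bit which may be added. -/
def OkBit (r : Ω → Idx → ℕ → Bool) (p q : Cond Ω) (i : Idx) (τ : List Bool) (b : Bool) : Prop :=
  τ.length % 2 = (p.val i).toNat →
    (Idx.node i τ ∈ q.dom → (Idx.node i τ ∈ q.tr ↔ b = true)) ∧
    (Idx.node i τ ∉ q.dom → ∀ g, (i, g) ∈ q.F → pre (r g i) τ.length = τ →
      b = r g i τ.length)

lemma inv_step {p q : Cond Ω} {i : Idx} {τ : List Bool} {b : Bool} (h : Inv r p q i τ)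
    (hb : OkBit r p q i τ b) : Inv r p q i (τ ++ [b]) := by
  refine ⟨fun j c hj hpar hq hp => ?_, fun g hg hne => ?_⟩
  · rcases Nat.lt_or_ge j τ.length with hlt | hge
    · rw [List.getElem?_append_left hlt] at hj
      rw [List.take_append_of_le_length hlt.le] at hq hp ⊢
      exact h.1 j c hj hpar hq hp
    · have hj' := hj
      rw [List.getElem?_eq_some_iff] at hj'
      obtain ⟨hlt, _⟩ := hj'
      have : j = τ.length := by simp at hlt; omega
      subst this
      simp only [List.take_left'] at hq hp ⊢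
      have hc : b = c := by simpa using hj
      rw [← hc]
      exact (hb hpar).1 hq
  · by_cases hf : pre (r g i) τ.length = τ
    · have hbne : b ≠ r g i τ.length := by
        intro hbe
        apply hne
        rw [List.length_append, List.length_singleton, pre_succ, hf, hbe]
      refine ⟨τ.length, b, by simp, by simp [hf], hbne, fun hpar => ?_⟩
      rw [hf]
      by_contra hnot
      exact hbne ((hb hpar).2 hnot g hg hf)
    · obtain ⟨j, c, h1, h2, h3, h4⟩ := h.2 g hg hf
      have hj : j < τ.length := by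
        rw [List.getElem?_eq_some_iff] at h1
        exact h1.1
      refine ⟨j, c, ?_, ?_, h3, h4⟩
      · rw [List.getElem?_append_left hj, h1]
      · rw [List.take_append_of_le_length hj.le, h2]

open Classical in
/-- The followers. -/
noncomputable def Fol (r : Ω → Idx → ℕ → Bool) (q : Cond Ω) (i : Idx) (τ : List Bool) :
    Finset (Idx × Ω) := q.F.filter fun z => z.1 = i ∧ pre (r z.2 i) τ.length = τ

lemma mem_Fol {q : Cond Ω} {i : Idx} {τ : List Bool} {z : Idx × Ω} :
    z ∈ Fol r q i τ ↔ z ∈ q.F ∧ z.1 = i ∧ pre (r z.2 i) τ.length = τ := by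
  simp [Fol]

lemma fol_step {q : Cond Ω} {i : Idx} {τ : List Bool} {b : Bool} {z : Idx × Ω} :
    z ∈ Fol r q i (τ ++ [b]) ↔ z ∈ Fol r q i τ ∧ r z.2 i τ.length = b := by
  rw [mem_Fol, mem_Fol, List.length_append, List.length_singleton, pre_succ]
  constructor
  · rintro ⟨h1, h2, h3⟩
    have := List.append_inj h3 (by simp [pre_length])
    exact ⟨⟨h1, h2, this.1⟩, by simpa using this.2⟩
  · rintro ⟨⟨h1, h2, h3⟩, h4⟩
    exact ⟨h1, h2, by rw [h3, h4]⟩

lemma exists_bit {p q : Cond Ω} {i : Idx} (hq : Valid r q) (hv : q.val i = p.val i)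
    (τ : List Bool) : ∃ b, OkBit r p q i τ b := by
  by_cases hd : Idx.node i τ ∈ q.dom
  · exact ⟨decide (Idx.node i τ ∈ q.tr), fun _ => ⟨fun _ => by simp, fun h => absurd hd h⟩⟩
  · by_cases hf : ∃ g, (i, g) ∈ q.F ∧ pre (r g i) τ.length = τ
    · obtain ⟨g, hg, hg'⟩ := hf
      refine ⟨r g i τ.length, fun hpar => ⟨fun h => absurd h hd, fun _ g' hg'' hg3 => ?_⟩⟩
      refine hq.2.2 i g g' τ.length hg hg'' (by rw [hv]; exact hpar) (by rw [hg', hg3]) ?_
      rw [hg']
      exact hd
    · refine ⟨false, fun hpar => ⟨fun h => absurd h hd, fun _ g hg hg' => ?_⟩⟩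
      exact absurd ⟨g, hg, hg'⟩ hf

lemma exists_split {p q : Cond Ω} {i : Idx} {τ : List Bool}
    (hpar : τ.length % 2 ≠ (p.val i).toNat) {z : Idx × Ω} (hz : z ∈ Fol r q i τ) :
    ∃ b, OkBit r p q i τ b ∧ (Fol r q i (τ ++ [b])).card < (Fol r q i τ).card := by
  refine ⟨!(r z.2 i τ.length), fun h => absurd h hpar, Finset.card_lt_card ?_⟩
  rw [Finset.ssubset_iff_of_subset (fun w hw => (fol_step.1 hw).1)]
  refine ⟨z, hz, fun h => ?_⟩
  have := (fol_step.1 h).2
  cases hc : r z.2 i τ.length <;> simp [hc] at this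

lemma kill {p q : Cond Ω} {i : Idx} (hq : Valid r q) (hv : q.val i = p.val i) :
    ∀ (k : ℕ) (τ : List Bool), Inv r p q i τ → (Fol r q i τ).card ≤ k →
      ∃ u, Inv r p q i (τ ++ u) ∧ Fol r q i (τ ++ u) = ∅ := by
  intro k
  induction k with
  | zero =>
    intro τ h hk
    exact ⟨[], by simpa using h, by simpa using hk⟩
  | succ k ih =>
    intro τ h hk
    -- a version for the wrong parity
    have key : ∀ τ : List Bool, Inv r p q i τ → (Fol r q i τ).card ≤ k + 1 →
        τ.length % 2 ≠ (p.val i).toNat →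
        ∃ u, Inv r p q i (τ ++ u) ∧ Fol r q i (τ ++ u) = ∅ := by
      intro τ h hk hpar
      rcases Finset.eq_empty_or_nonempty (Fol r q i τ) with he | ⟨z, hz⟩
      · exact ⟨[], by simpa using h, by simpa using he⟩
      · obtain ⟨b, hb, hc⟩ := exists_split hpar hz
        obtain ⟨u, hu, hu'⟩ := ih (τ ++ [b]) (inv_step h hb) (by omega)
        exact ⟨[b] ++ u, by simpa using hu, by simpa using hu'⟩
    by_cases hpar : τ.length % 2 = (p.val i).toNat
    · obtain ⟨b, hb⟩ := exists_bit hq hv τ
      have hsub : (Fol r q i (τ ++ [b])).card ≤ (Fol r q i τ).card :=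
        Finset.card_le_card fun w hw => (fol_step.1 hw).1
      obtain ⟨u, hu, hu'⟩ := key (τ ++ [b]) (inv_step h hb) (by omega) (by
        rw [List.length_append, List.length_singleton]
        omega)
      exact ⟨[b] ++ u, by simpa using hu, by simpa using hu'⟩
    · exact key τ h hk hpar

lemma pad {p q : Cond Ω} {i : Idx} (hq : Valid r q) (hv : q.val i = p.val i) (L : ℕ) :
    ∀ (τ : List Bool), Inv r p q i τ → Fol r q i τ = ∅ →
      ∃ u, Inv r p q i (τ ++ u) ∧ Fol r q i (τ ++ u) = ∅ ∧ L ≤ (τ ++ u).length := by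
  induction L with
  | zero => intro τ h hk; exact ⟨[], by simpa using h, by simpa using hk, by simp⟩
  | succ L ih =>
    intro τ h hk
    obtain ⟨u, hu, hu', hL⟩ := ih τ h hk
    obtain ⟨b, hb⟩ := exists_bit hq hv (τ ++ u)
    refine ⟨u ++ [b], ?_, ?_, ?_⟩
    · rw [← List.append_assoc]
      exact inv_step hu hb
    · rw [← List.append_assoc]
      refine Finset.eq_empty_of_forall_notMem fun w hw => ?_
      have := (fol_step.1 hw).1
      rw [hu'] at this
      simp at this
    · simp only [List.length_append, List.length_singleton] at hL ⊢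
      omega

lemma comp_append (i : Idx) (t s : List (Idx × Bool)) : comp i (t ++ s) = comp i t ++ comp i s := by
  simp [comp]

lemma comp_self (i : Idx) (u : List Bool) : comp i (u.map fun b => (i, b)) = u := by
  induction u with
  | nil => simp [comp]
  | cons b u ih =>
    simp only [comp] at ih
    simp [comp, ih]

lemma comp_other {i j : Idx} (h : j ≠ i) (u : List Bool) :
    comp i (u.map fun b => (j, b)) = [] := by
  induction u with
  | nil => simp [comp]
  | cons b u ih =>
    simp only [comp] at ih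
    simp [comp, ih, h]

lemma comp_flat (u : Idx → List Bool) (i : Idx) (l : List Idx) (hl : l.Nodup) :
    comp i (l.flatMap fun j => (u j).map fun b => (j, b)) = if i ∈ l then u i else [] := by
  induction l with
  | nil => simp [comp]
  | cons j l ih =>
    rw [List.nodup_cons] at hl
    rw [List.flatMap_cons, comp_append, ih hl.2]
    by_cases h : j = i
    · subst h
      simp [comp_self, hl.1]
    · have h' : i ≠ j := fun e => h e.symm
      simp [comp_other h, h']

/-- The lengths of the nodes. -/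
def nlen : Idx → ℕ
  | .root _ => 0
  | .node _ s => s.length

/-- The nodes added to the domain. -/
def newN (p : Cond Ω) (N : Finset Idx) (t : List (Idx × Bool)) : Finset Idx :=
  N.biUnion fun i => ((Finset.range (comp i t).length).filter fun j =>
    j % 2 = (p.val i).toNat).image fun j => Idx.node i ((comp i t).take j)

/-- The nodes with value `true`. -/
def newT (p : Cond Ω) (N : Finset Idx) (t : List (Idx × Bool)) : Finset Idx :=
  N.biUnion fun i => ((Finset.range (comp i t).length).filter fun j =>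
    j % 2 = (p.val i).toNat ∧ (comp i t)[j]? = some true).image
      fun j => Idx.node i ((comp i t).take j)

/-- The condition `p` with the nodes along `t` added. -/
def p1 (p : Cond Ω) (N : Finset Idx) (t : List (Idx × Bool)) : Cond Ω where
  dom := p.dom ∪ newN p N t
  tr := p.tr ∪ (newT p N t \ p.dom)
  F := p.F

lemma mem_newN {p : Cond Ω} {N : Finset Idx} {t : List (Idx × Bool)} {i : Idx} {s : List Bool} :
    Idx.node i s ∈ newN p N t ↔ i ∈ N ∧ s.length < (comp i t).length ∧
      s.length % 2 = (p.val i).toNat ∧ s = (comp i t).take s.length := by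
  simp only [newN, Finset.mem_biUnion, Finset.mem_image, Finset.mem_filter, Finset.mem_range]
  constructor
  · rintro ⟨i', hi', j, ⟨hj, hpar⟩, he⟩
    simp only [Idx.node.injEq] at he
    obtain ⟨rfl, rfl⟩ := he
    have : ((comp i' t).take j).length = j := by simp; omega
    rw [this]
    exact ⟨hi', hj, hpar, rfl⟩
  · rintro ⟨hi, hs, hpar, he⟩
    exact ⟨i, hi, s.length, ⟨hs, hpar⟩, by rw [← he]⟩

lemma mem_newT {p : Cond Ω} {N : Finset Idx} {t : List (Idx × Bool)} {i : Idx} {s : List Bool} :
    Idx.node i s ∈ newT p N t ↔ i ∈ N ∧ s.length < (comp i t).length ∧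
      (s.length % 2 = (p.val i).toNat ∧ (comp i t)[s.length]? = some true) ∧
      s = (comp i t).take s.length := by
  simp only [newT, Finset.mem_biUnion, Finset.mem_image, Finset.mem_filter, Finset.mem_range]
  constructor
  · rintro ⟨i', hi', j, ⟨hj, hpar⟩, he⟩
    simp only [Idx.node.injEq] at he
    obtain ⟨rfl, rfl⟩ := he
    have : ((comp i' t).take j).length = j := by simp; omega
    rw [this]
    exact ⟨hi', hj, hpar, rfl⟩
  · rintro ⟨hi, hs, hpar, he⟩
    exact ⟨i, hi, s.length, ⟨hs, hpar⟩, by rw [← he]⟩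

lemma newT_sub {p : Cond Ω} {N : Finset Idx} {t : List (Idx × Bool)} :
    newT p N t ⊆ newN p N t := by
  intro x hx
  cases x with
  | root l =>
    simp only [newT, Finset.mem_biUnion, Finset.mem_image] at hx
    obtain ⟨i, _, j, _, he⟩ := hx
    exact absurd he (by simp)
  | node i s =>
    rw [mem_newT] at hx
    rw [mem_newN]
    exact ⟨hx.1, hx.2.1, hx.2.2.1.1, hx.2.2.2⟩

lemma p1_ext {p : Cond Ω} (hp : Valid r p) {N : Finset Idx}
    {t : List (Idx × Bool)} (hb : ¬ Bad r p N t) : Ext r (p1 p N t) p := by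
  refine ⟨Finset.subset_union_left, fun i hi => ?_, subset_rfl, fun i g j hF hpar hd hn => ?_⟩
  · simp [p1, hi]
  · simp only [p1, Finset.mem_union] at hd
    have hd' : Idx.node i (pre (r g i) j) ∈ newN p N t := by
      rcases hd with h | h
      · exact absurd h hn
      · exact h
    rw [mem_newN, pre_length] at hd'
    obtain ⟨hiN, hlt, hpar', he⟩ := hd'
    have hget : (comp i t)[j]? = some (comp i t)[j] := List.getElem?_eq_getElem hlt
    have hval : (comp i t)[j] = r g i j := by
      by_contra hne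
      exact hb ⟨i, hiN, g, hF, j, _, hget, hpar', he.symm, hn, hne⟩
    have hntr : Idx.node i (pre (r g i) j) ∉ p.tr := fun h => hn (hp.1 h)
    simp only [p1, Finset.mem_union, Finset.mem_sdiff, mem_newT, pre_length, hntr, false_or, hn,
      not_false_eq_true, and_true]
    rw [hget, hval]
    constructor
    · rintro ⟨_, _, ⟨_, h⟩, _⟩
      simpa using h
    · intro h
      exact ⟨hiN, hlt, ⟨hpar', by rw [h]⟩, he⟩

lemma p1_valid {p : Cond Ω} (hp : Valid r p) {N : Finset Idx}
    {t : List (Idx × Bool)} (hb : ¬ Bad r p N t) : Valid r (p1 p N t) := by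
  refine ⟨?_, ?_, ?_⟩
  · intro x hx
    simp only [p1, Finset.mem_union, Finset.mem_sdiff] at hx ⊢
    rcases hx with h | ⟨h, _⟩
    · exact Or.inl (hp.1 h)
    · exact Or.inr (newT_sub h)
  · intro i g h
    exact Finset.mem_union_left _ (hp.2.1 i g h)
  · intro i g g' j h h' hpar he hn
    have hi := hp.2.1 i g h
    rw [val_eq ((p1_ext hp hb).2.1 i hi)] at hpar
    exact hp.2.2 i g g' j h h' hpar he fun hd => hn (Finset.mem_union_left _ hd)

end CohenAux

section cond
variable {Ω : Type u} {lt : Ω → Ω → Prop} {r : Ω → Idx → ℕ → Bool}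

open CohenAux in
theorem cohen {a : Ω} (A : Cond Ω → Prop)
    (hA : ∀ p, Pt lt r a p → ∃ q, Pt lt r a q ∧ Ext r q p ∧ A q) (p : Cond Ω)
    (hp : Pt lt r a p) (N : Finset Idx) (hN : N ⊆ p.dom) (t : List (Idx × Bool)) :
    ∃ s, Bad r p N (t ++ s) ∨ ∃ q, Gd lt r a p N (t ++ s) q ∧ A q := by
  by_cases hb : Bad r p N t
  · exact ⟨[], Or.inl (by simpa using hb)⟩
  obtain ⟨q, hq, hqp1, hAq⟩ := hA (p1 p N t) ⟨p1_valid hp.1 hb, hp.2⟩
  have hqp : Ext r q p := ext_trans hp.1 hqp1 (p1_ext hp.1 hb)
  -- nodes along `t`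
  have hnode : ∀ i ∈ N, ∀ j b, (comp i t)[j]? = some b → j % 2 = (p.val i).toNat →
      Idx.node i ((comp i t).take j) ∈ (p1 p N t).dom := by
    intro i hi j b hj hpar
    have hlt : j < (comp i t).length := by
      rw [List.getElem?_eq_some_iff] at hj
      exact hj.1
    refine Finset.mem_union_right _ (mem_newN.2 ?_)
    have : ((comp i t).take j).length = j := by simp; omega
    rw [this]
    exact ⟨hi, hlt, hpar, rfl⟩
  have hinv : ∀ i ∈ N, Inv r p q i (comp i t) := by
    intro i hi
    refine ⟨fun j b hj hpar _ hn => ?_, fun g hg hne => ?_⟩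
    · rw [hqp1.2.1 _ (hnode i hi j b hj hpar)]
      have hlt : j < (comp i t).length := by
        rw [List.getElem?_eq_some_iff] at hj
        exact hj.1
      have hlen : ((comp i t).take j).length = j := by simp; omega
      have hntr : Idx.node i ((comp i t).take j) ∉ p.tr := fun h => hn (hp.1.1 h)
      simp only [p1, Finset.mem_union, Finset.mem_sdiff, mem_newT, hlen, hntr, false_or, hn,
        not_false_eq_true, and_true, hj]
      constructor
      · rintro ⟨_, _, ⟨_, h⟩⟩
        simpa using h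
      · intro h
        exact ⟨hi, hlt, ⟨hpar, by rw [h]⟩⟩
    · obtain ⟨j, b, h1, h2, h3⟩ := first_diff (r g i) (comp i t) hne
      refine ⟨j, b, h1, h2, h3, fun hpar => ?_⟩
      rw [← h2]
      exact hqp1.1 (hnode i hi j b h1 hpar)
  have hex : ∀ i, ∃ u, i ∈ N → Inv r p q i (comp i t ++ u) ∧ Fol r q i (comp i t ++ u) = ∅ ∧
      q.dom.sup nlen + 1 ≤ (comp i t ++ u).length := by
    intro i
    by_cases hi : i ∈ N
    · have hv : q.val i = p.val i := val_eq (hqp.2.1 i (hN hi))
      obtain ⟨u, hu, hu'⟩ := kill hq.1 hv _ (comp i t) (hinv i hi) le_rfl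
      obtain ⟨u2, h1, h2, h3⟩ := pad hq.1 hv (q.dom.sup nlen + 1) _ hu hu'
      refine ⟨u ++ u2, fun _ => ?_⟩
      rw [← List.append_assoc]
      exact ⟨h1, h2, h3⟩
    · exact ⟨[], fun h => absurd h hi⟩
  choose u hu using hex
  refine ⟨N.toList.flatMap fun j => (u j).map fun b => (j, b), Or.inr ⟨q, ⟨hq, hqp, ?_⟩, hAq⟩⟩
  intro i hi
  have hc : comp i (t ++ N.toList.flatMap fun j => (u j).map fun b => (j, b)) =
      comp i t ++ u i := by
    rw [comp_append, comp_flat u i _ N.nodup_toList]
    simp [hi]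
  rw [hc]
  obtain ⟨h1, h2, h3⟩ := hu i hi
  refine ⟨h1.1, fun s hs => ?_, fun g hg => ?_⟩
  · have : nlen (Idx.node i s) ≤ q.dom.sup nlen := Finset.le_sup hs
    simp only [nlen] at this
    omega
  · refine h1.2 g hg fun he => ?_
    have : (i, g) ∈ Fol r q i (comp i t ++ u i) := mem_Fol.2 ⟨hg, rfl, he⟩
    rw [h2] at this
    simp at this

end cond

end Pool.Agent.Helper78.ITTM
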