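import Pool.Agent.Helper78.ITTM.CompClosure

/-! The accessible part of a coded relation is computable. -/

namespace Pool.Agent.Helper78.ITTM

open Ordinal

/-- Monotone runs reach a fixed point. -/
theorem iter_mono_of {J : Type} {F : (J → Bool) → (J → Bool)} {z : J → Bool}
    (hs : ∀ a j, iter F z a j = true → F (iter F z a) j = true) {a b : Ordinal.{0}} (hab : a ≤ b)
    {j : J} (h : iter F z a j = true) : iter F z b j = true := by
  obtain ⟨d, rfl⟩ : ∃ d, b = a + d := ⟨b - a, (Ordinal.add_sub_cancel_of_le hab).symm⟩
  rw [iter_add]
  refine iter_keep j true d h ?_ d le_rfl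
  intro c _ hc
  rw [← iter_add] at hc ⊢
  exact hs _ _ hc

theorem iter_exists_fixed {J : Type} {F : (J → Bool) → (J → Bool)} {z : J → Bool}
    (hs : ∀ a j, iter F z a j = true → F (iter F z a) j = true) :
    ∃ a : Ordinal.{0}, F (iter F z a) = iter F z a := by
  by_contra hcon
  push Not at hcon
  have hex : ∀ a : Ordinal.{0}, ∃ j, F (iter F z a) j = true ∧ iter F z a j = false := by
    intro a
    by_contra hc
    push Not at hc
    apply hcon a
    funext j
    cases hv : iter F z a j with
    | true => exact hs a j hv
    | false =>
      by_contra h1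
      exact hc j (by simpa using h1) hv
  choose f hf1 hf2 using hex
  refine not_injective_of_ordinal f fun a b hab => ?_
  have key : ∀ a b : Ordinal.{0}, a < b → f a ≠ f b := by
    intro a b hlt heq
    have h1 : iter F z (a + 1) (f a) = true := by
      rw [iter_succ]
      exact hf1 a
    have h2 := iter_mono_of hs (Order.add_one_le_of_lt hlt) h1
    rw [heq, hf2] at h2
    cases h2
  rcases lt_trichotomy a b with h | h | h
  · exact absurd hab (key a b h)
  · exact h
  · exact absurd hab.symm (key b a h)

theorem comp_acc (X : Type) [Countable X] :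
    Comp (I := X × X) (O := X) (fun w v => ∀ a, v a = true ↔ Acc (ltw w) a) := by
  classical
  let Φ : (X × X → Bool) → (X → Bool) → (X → Bool) := fun w z a =>
    decide (∀ b, ltw w b a → z b = true)
  have hmeas : Measurable (fun p : (X × X → Bool) × (X → Bool) => Φ p.1 p.2) := by
    rw [measurable_pi_iff]
    intro a
    show Measurable (fun p : (X × X → Bool) × (X → Bool) =>
      decide (∀ b, ltw p.1 b a → p.2 b = true))
    have hs : MeasurableSet {p : (X × X → Bool) × (X → Bool) |
        ∀ b, ltw p.1 b a → p.2 b = true} := by
      have : {p : (X × X → Bool) × (X → Bool) | ∀ b, ltw p.1 b a → p.2 b = true} =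
          ⋂ b, {p | p.1 (b, a) = true ∧ b ≠ a}ᶜ ∪ {p | p.2 b = true} := by
        ext p
        simp only [Set.mem_setOf_eq, Set.mem_iInter, Set.mem_union, Set.mem_compl_iff, ltw]
        exact forall_congr' fun b => by tauto
      rw [this]
      refine MeasurableSet.iInter fun b => MeasurableSet.union (MeasurableSet.compl ?_) ?_
      · have h0 : Measurable (fun p : (X × X → Bool) × (X → Bool) => p.1 (b, a)) :=
          (measurable_pi_apply (b, a)).comp measurable_fst
        have h1 : MeasurableSet {p : (X × X → Bool) × (X → Bool) | p.1 (b, a) = true} :=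
          h0 (measurableSet_singleton true)
        by_cases hba : b ≠ a
        · simpa [hba] using h1
        · simp [hba]
      · have h0 : Measurable (fun p : (X × X → Bool) × (X → Bool) => p.2 b) :=
          (measurable_pi_apply b).comp measurable_snd
        exact h0 (measurableSet_singleton true)
    have : (fun p : (X × X → Bool) × (X → Bool) =>
        decide (∀ b, ltw p.1 b a → p.2 b = true)) =
        fun p => if p ∈ {p : (X × X → Bool) × (X → Bool) |
          ∀ b, ltw p.1 b a → p.2 b = true} then true else false := by
      funext p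
      by_cases hp : ∀ b, ltw p.1 b a → p.2 b = true
      · simp [hp]
      · simp [hp]
    rw [this]
    exact Measurable.ite hs measurable_const measurable_const
  obtain ⟨M, hM⟩ := comp_fix (I := X × X) (O := X) (J := X) Φ hmeas (fun _ => false) id
  refine ⟨M, fun w v => ?_⟩
  rw [hM]
  have hΦ : ∀ z a, Φ w z a = true ↔ ∀ b, ltw w b a → z b = true := fun z a =>
    decide_eq_true_iff
  have hfix : ∀ z : X → Bool, Φ w z = z → ∀ a, Acc (ltw w) a → z a = true := by
    intro z hz a ha
    induction ha with
    | intro a _ ih =>
      rw [← hz, hΦ]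
      exact fun b hb => ih b hb
  have hsub : ∀ (c : Ordinal.{0}) a, iter (Φ w) (fun _ => false) c a = true →
      Acc (ltw w) a := by
    intro c
    induction c using Ordinal.limitRecOn with
    | zero =>
      intro a h
      rw [iter_zero] at h
      cases h
    | add_one c ih =>
      intro a h
      rw [iter_succ, hΦ] at h
      exact Acc.intro a fun b hb => ih b (h b hb)
    | limit c hc ih =>
      intro a h
      rw [iter_lim _ _ hc] at h
      have h' : lsup c (fun d _ => iter (Φ w) (fun _ => false) d a) = true := h
      rw [lsup_eq_true] at h'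
      obtain ⟨d, hd, -, hda⟩ := h' 0 hc.bot_lt
      exact ih d hd a hda
  have hinc : ∀ (c : Ordinal.{0}) a, iter (Φ w) (fun _ => false) c a = true →
      Φ w (iter (Φ w) (fun _ => false) c) a = true := by
    intro c
    induction c using Ordinal.limitRecOn with
    | zero =>
      intro a h
      rw [iter_zero] at h
      cases h
    | add_one c ih =>
      intro a h
      rw [hΦ]
      intro b hb
      rw [iter_succ] at h ⊢
      apply ih
      rw [hΦ] at h
      exact h b hb
    | limit c hc ih =>
      intro a h
      rw [hΦ]
      intro b hb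
      rw [iter_lim _ _ hc] at h ⊢
      have h' : lsup c (fun d _ => iter (Φ w) (fun _ => false) d a) = true := h
      show lsup c (fun d _ => iter (Φ w) (fun _ => false) d b) = true
      rw [lsup_eq_true] at h' ⊢
      intro e he
      obtain ⟨d, hd, hed, hda⟩ := h' e he
      refine ⟨d, hd, hed, ?_⟩
      have := ih d hd a hda
      rw [hΦ] at this
      exact this b hb
  constructor
  · rintro ⟨c, h1, h2⟩ a
    have h2' : v a = iter (Φ w) (fun _ => false) c a := (h2 a).symm
    rw [h2']
    exact ⟨hsub c a, hfix _ h1 a⟩
  · intro hv
    obtain ⟨c, hc⟩ := iter_exists_fixed hinc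
    refine ⟨c, hc, fun a => ?_⟩
    apply run_bool_ext
    rw [hv a]
    exact ⟨hsub c a, hfix _ hc a⟩

end Pool.Agent.Helper78.ITTM
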