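import Pool.Agent.Helper78.ITTM.CDefs2
import Pool.Agent.Helper78.ITTM.Run

/-! Closure properties of the computable relations. -/

namespace Pool.Agent.Helper78.ITTM

open Ordinal

/-! ### Simulation lemmas for iterations -/

theorem cc_lsup_congr {a : Ordinal.{0}} {f g : (b : Ordinal.{0}) → b < a → Bool}
    (h : ∀ b hb, f b hb = g b hb) : lsup a f = lsup a g := by
  have : f = g := by
    funext b hb
    exact h b hb
  rw [this]

/-- Two iterations which agree along `σ`, `τ` stay so. -/
theorem iter_sim {J J' K : Type} {F : (J → Bool) → (J → Bool)} {F' : (J' → Bool) → (J' → Bool)}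
    {z : J → Bool} {z' : J' → Bool} (σ : K → J) (τ : K → J') (B : Ordinal.{0})
    (h0 : ∀ k, z (σ k) = z' (τ k))
    (hs : ∀ b, b < B → (∀ k, iter F z b (σ k) = iter F' z' b (τ k)) →
      ∀ k, F (iter F z b) (σ k) = F' (iter F' z' b) (τ k)) :
    ∀ b, b ≤ B → ∀ k, iter F z b (σ k) = iter F' z' b (τ k) := by
  intro b
  induction b using Ordinal.limitRecOn with
  | zero =>
    intro _ k
    rw [iter_zero, iter_zero]
    exact h0 k
  | add_one b ih =>
    intro hb k
    have hlt : b < B := lt_of_lt_of_le (by simp) hb
    rw [iter_succ, iter_succ]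
    exact hs b hlt (ih hlt.le) k
  | limit b hb ih =>
    intro hbB k
    rw [iter_lim _ _ hb, iter_lim _ _ hb]
    exact cc_lsup_congr fun c hc => ih c hc (hc.le.trans hbB) k

/-- A cell which is never changed. -/
theorem iter_keep {J : Type} {F : (J → Bool) → (J → Bool)} {z : J → Bool} (j : J) (v : Bool)
    (B : Ordinal.{0}) (h0 : z j = v)
    (hs : ∀ b, b < B → iter F z b j = v → F (iter F z b) j = v) :
    ∀ b, b ≤ B → iter F z b j = v := by
  intro b
  induction b using Ordinal.limitRecOn with
  | zero =>
    intro _
    rw [iter_zero]
    exact h0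
  | add_one b ih =>
    intro hb
    have hlt : b < B := lt_of_lt_of_le (by simp) hb
    rw [iter_succ]
    exact hs b hlt (ih hlt.le)
  | limit b hb ih =>
    intro hbB
    rw [iter_lim _ _ hb]
    show lsup b (fun c _ => iter F z c j) = v
    cases v with
    | false =>
      rw [lsup_eq_false]
      exact ⟨0, hb.bot_lt, fun c hc _ => ih c hc (hc.le.trans hbB)⟩
    | true =>
      rw [lsup_eq_true]
      intro c hc
      exact ⟨c, hc, le_rfl, ih c hc (hc.le.trans hbB)⟩

/-- Fixed points. -/
theorem iter_fixed {J : Type} {F : (J → Bool) → (J → Bool)} {z : J → Bool} (h : F z = z)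
    (b : Ordinal.{0}) : iter F z b = z := by
  induction b using Ordinal.limitRecOn with
  | zero => rw [iter_zero]
  | add_one b ih => rw [iter_succ, ih, h]
  | limit b hb ih =>
    rw [iter_lim _ _ hb]
    funext j
    show lsup b (fun c _ => iter F z c j) = z j
    cases hv : z j with
    | false =>
      rw [lsup_eq_false]
      exact ⟨0, hb.bot_lt, fun c hc _ => by rw [ih c hc, hv]⟩
    | true =>
      rw [lsup_eq_true]
      intro c hc
      exact ⟨c, hc, le_rfl, by rw [ih c hc, hv]⟩

theorem iter_fixed_le {J : Type} {F : (J → Bool) → (J → Bool)} {z : J → Bool}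
    {a b : Ordinal.{0}} (h : F (iter F z a) = iter F z a) (hab : a ≤ b) :
    iter F z b = iter F z a := by
  obtain ⟨d, rfl⟩ : ∃ d, b = a + d := ⟨b - a, (Ordinal.add_sub_cancel_of_le hab).symm⟩
  rw [iter_add, iter_fixed h]

/-! ### Halting -/

section halting
variable {I O : Type}

/-- The run of a machine. -/
noncomputable def BI.rn (M : BI I O) (u : I → Bool) (a : Ordinal.{0}) : M.J → Bool :=
  iter (M.step u) M.init a

theorem BI.halts_def (M : BI I O) (u : I → Bool) (v : O → Bool) : M.Halts u v ↔
    ∃ a, M.rn u a M.halt = true ∧ (∀ b, b < a → M.rn u b M.halt = false) ∧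
      ∀ o, M.rn u a (M.out o) = v o := Iff.rfl

/-- The first stage at which a cell is on. -/
theorem cc_first {P : Ordinal.{0} → Prop} {a : Ordinal.{0}} (h : P a) :
    ∃ a0, a0 ≤ a ∧ P a0 ∧ ∀ b, b < a0 → ¬ P b := by
  classical
  have hne : {b | P b}.Nonempty := ⟨a, h⟩
  refine ⟨sInf {b | P b}, csInf_le' h, csInf_mem hne, fun b hb hPb => ?_⟩
  exact absurd (csInf_le' (s := {b | P b}) hPb) (not_le.2 hb)

/-- Machines which are frozen once the halting cell is on. -/
def BI.Frozen (M : BI I O) : Prop := ∀ u z, z M.halt = true → M.step u z = z

theorem BI.halts_iff (M : BI I O) (hM : M.Frozen) (u : I → Bool) (v : O → Bool) :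
    M.Halts u v ↔ ∃ a, M.rn u a M.halt = true ∧ ∀ o, M.rn u a (M.out o) = v o := by
  rw [M.halts_def]
  constructor
  · rintro ⟨a, h1, -, h3⟩
    exact ⟨a, h1, h3⟩
  · rintro ⟨a, h1, h3⟩
    obtain ⟨a0, hle, h4, h5⟩ := cc_first (P := fun a => M.rn u a M.halt = true) h1
    refine ⟨a0, h4, fun b hb => by simpa using h5 b hb, fun o => ?_⟩
    rw [← h3]
    have := iter_fixed_le (F := M.step u) (z := M.init) (hM u _ h4) hle
    show M.rn u a0 (M.out o) = M.rn u a (M.out o)
    unfold BI.rn
    rw [this]

theorem comp_fun {R : (I → Bool) → (O → Bool) → Prop} (h : Comp R) {u : I → Bool}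
    {v v' : O → Bool} (h1 : R u v) (h2 : R u v') : v = v' := by
  obtain ⟨M, hM⟩ := h
  rw [← hM, M.halts_def] at h1 h2
  obtain ⟨a', h1', h2', h3'⟩ := h2
  obtain ⟨a, h1, h2, h3⟩ := h1
  have : a = a' := by
    rcases lt_trichotomy a a' with h | h | h
    · rw [h2' a h] at h1
      cases h1
    · exact h
    · rw [h2 a' h] at h1'
      cases h1'
  subst this
  funext o
  rw [← h3, ← h3']

/-- Normal form: frozen, and not halted at the start. -/
theorem comp_normal {R : (I → Bool) → (O → Bool) → Prop} (h : Comp R) :
    ∃ M : BI I O, M.Frozen ∧ M.init M.halt = false ∧ ∀ u v, M.Halts u v ↔ R u v := by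
  classical
  obtain ⟨M, hM⟩ := h
  haveI := M.cJ
  let st : (I → Bool) → (Option M.J → Bool) → (Option M.J → Bool) := fun u z k =>
    if z none = true then z k else
      match k with
      | none => z (some M.halt)
      | some j => if z (some M.halt) = true then z (some j) else M.step u (fun i => z (some i)) j
  have hmeas : Measurable (fun p : (I → Bool) × (Option M.J → Bool) => st p.1 p.2) := by
    rw [measurable_pi_iff]
    intro k
    have he : ∀ k : Option M.J,
        Measurable (fun p : (I → Bool) × (Option M.J → Bool) => p.2 k) := fun k =>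
      (measurable_pi_apply k).comp measurable_snd
    have hset : ∀ k : Option M.J,
        MeasurableSet {p : (I → Bool) × (Option M.J → Bool) | p.2 k = true} := fun k =>
      (he k) (measurableSet_singleton true)
    refine Measurable.ite (hset none) (he k) ?_
    cases k with
    | none => exact he _
    | some j =>
      refine Measurable.ite (hset _) (he _) ?_
      have h1 : Measurable (fun p : (I → Bool) × (Option M.J → Bool) =>
          (p.1, fun i => p.2 (some i))) := by
        refine measurable_fst.prodMk ?_
        rw [measurable_pi_iff]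
        exact fun i => he (some i)
      exact (measurable_pi_apply j).comp (M.meas.comp h1)
  let N : BI I O :=
    { J := Option M.J
      cJ := inferInstance
      init := fun k => match k with
        | none => false
        | some j => M.init j
      step := st
      meas := hmeas
      halt := none
      out := fun o => some (M.out o) }
  have hfr : N.Frozen := by
    intro u z hz
    funext k
    show st u z k = z k
    have : z none = true := hz
    simp only [st, if_pos this]
  refine ⟨N, hfr, rfl, fun u v => ?_⟩
  rw [← hM, N.halts_iff hfr, M.halts_def]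
  -- the run agrees as long as `M` has not halted
  let F' : (Option M.J → Bool) → (Option M.J → Bool) := fun z k =>
    match k with
    | none => false
    | some j => M.step u (fun i => z (some i)) j
  have hA : ∀ b, (∀ j, iter F' N.init b (some j) = M.rn u b j) ∧ iter F' N.init b none = false := by
    intro b
    constructor
    · refine iter_sim (K := M.J) (fun j => some j) (fun j => j) b (fun j => rfl) ?_ b le_rfl
      intro c _ h j
      show M.step u _ j = M.step u _ j
      congr 1
      funext i
      exact h i
    · exact iter_keep none false b rfl (fun c _ _ => rfl) b le_rfl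
  have hsim : ∀ B : Ordinal.{0}, (∀ b, b < B → M.rn u b M.halt = false) →
      (∀ b, b ≤ B → (∀ j, N.rn u b (some j) = M.rn u b j) ∧ N.rn u b none = false) := by
    intro B hB b hb
    have key : ∀ b, b ≤ B → ∀ k : Option M.J, N.rn u b k = iter F' N.init b k := by
      refine iter_sim (K := Option M.J) (fun k => k) (fun k => k) B (fun k => rfl) ?_
      intro b hb ih k
      show st u (iter (N.step u) N.init b) k = F' (iter F' N.init b) k
      have hz : iter (N.step u) N.init b = iter F' N.init b := funext ih
      rw [hz]
      have h1 : ¬ iter F' N.init b none = true := by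
        rw [(hA b).2]
        exact Bool.false_ne_true
      have h2 : ¬ iter F' N.init b (some M.halt) = true := by
        rw [(hA b).1, hB b hb]
        exact Bool.false_ne_true
      simp only [st, if_neg h1]
      cases k with
      | none => simpa using h2
      | some j => simp only [if_neg h2, F']
    exact ⟨fun j => by rw [key b hb, (hA b).1], by rw [key b hb, (hA b).2]⟩
  constructor
  · rintro ⟨a, h1, h3⟩
    -- `M` halts before `a`
    have hex : ∃ b, M.rn u b M.halt = true := by
      by_contra hcon
      push Not at hcon
      have := (hsim a (fun b _ => by simpa using hcon b) a le_rfl).2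
      rw [show N.halt = none from rfl, this] at h1
      cases h1
    obtain ⟨b, hb⟩ := hex
    obtain ⟨a0, -, h4, h5⟩ := cc_first (P := fun a => M.rn u a M.halt = true) hb
    have h5' : ∀ b, b < a0 → M.rn u b M.halt = false := fun b hb => by simpa using h5 b hb
    obtain ⟨h6, h7⟩ := hsim a0 h5' a0 le_rfl
    have hst : N.rn u (a0 + 1) = fun k => match k with
        | none => true
        | some j => M.rn u a0 j := by
      show iter (N.step u) N.init (a0 + 1) = _
      rw [iter_succ]
      funext k
      show st u (N.rn u a0) k = _
      have h8 : ¬ N.rn u a0 none = true := by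
        rw [h7]
        exact Bool.false_ne_true
      have h9 : N.rn u a0 (some M.halt) = true := by rw [h6, h4]
      simp only [st, if_neg h8]
      cases k with
      | none => exact h9
      | some j =>
        simp only [if_pos h9]
        exact h6 j
    have hlt : a0 < a := by
      by_contra hle
      have := (hsim a0 h5' a (not_lt.1 hle)).2
      rw [show N.halt = none from rfl, this] at h1
      cases h1
    have hle : a0 + 1 ≤ a := Order.add_one_le_of_lt hlt
    have hfix : N.step u (iter (N.step u) N.init (a0 + 1)) = iter (N.step u) N.init (a0 + 1) := by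
      apply hfr
      show N.rn u (a0 + 1) none = true
      rw [hst]
    have h10 : N.rn u a = N.rn u (a0 + 1) := iter_fixed_le hfix hle
    refine ⟨a0, h4, h5', fun o => ?_⟩
    rw [← h3 o, h10, hst]
  · rintro ⟨a0, h4, h5, h3⟩
    obtain ⟨h6, h7⟩ := hsim a0 h5 a0 le_rfl
    have hst : N.rn u (a0 + 1) = fun k => match k with
        | none => true
        | some j => M.rn u a0 j := by
      show iter (N.step u) N.init (a0 + 1) = _
      rw [iter_succ]
      funext k
      show st u (N.rn u a0) k = _
      have h8 : ¬ N.rn u a0 none = true := by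
        rw [h7]
        exact Bool.false_ne_true
      have h9 : N.rn u a0 (some M.halt) = true := by rw [h6, h4]
      simp only [st, if_neg h8]
      cases k with
      | none => exact h9
      | some j =>
        simp only [if_pos h9]
        exact h6 j
    refine ⟨a0 + 1, ?_, fun o => ?_⟩
    · show N.rn u (a0 + 1) none = true
      rw [hst]
    · show N.rn u (a0 + 1) (some (M.out o)) = v o
      rw [hst]
      exact h3 o

/-- Relations computed by frozen machines. -/
theorem comp_of (M : BI I O) (hM : M.Frozen) {R : (I → Bool) → (O → Bool) → Prop}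
    (h : ∀ u v, (∃ a, M.rn u a M.halt = true ∧ ∀ o, M.rn u a (M.out o) = v o) ↔ R u v) :
    Comp R := ⟨M, fun u v => by rw [M.halts_iff hM, h]⟩

/-- Iterations of measurable operators until a fixed point is reached. -/
theorem comp_fix {J : Type} [Countable J] (Φ : (I → Bool) → (J → Bool) → (J → Bool))
    (hΦ : Measurable (fun p : (I → Bool) × (J → Bool) => Φ p.1 p.2)) (init : J → Bool)
    (out : O → J) : Comp (fun u v => ∃ a : Ordinal.{0}, Φ u (iter (Φ u) init a) =
      iter (Φ u) init a ∧ ∀ o, iter (Φ u) init a (out o) = v o) := by
  classical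
  let st : (I → Bool) → (Option J → Bool) → (Option J → Bool) := fun u z k =>
    match k with
    | none => decide (Φ u (fun i => z (some i)) = fun i => z (some i))
    | some j => Φ u (fun i => z (some i)) j
  have h1 : Measurable (fun p : (I → Bool) × (Option J → Bool) =>
      (p.1, fun i => p.2 (some i))) := by
    refine measurable_fst.prodMk ?_
    rw [measurable_pi_iff]
    exact fun i => (measurable_pi_apply (some i)).comp measurable_snd
  have hmeas : Measurable (fun p : (I → Bool) × (Option J → Bool) => st p.1 p.2) := by
    rw [measurable_pi_iff]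
    intro k
    cases k with
    | none =>
      show Measurable (fun p : (I → Bool) × (Option J → Bool) =>
        decide (Φ p.1 (fun i => p.2 (some i)) = fun i => p.2 (some i)))
      have hs : MeasurableSet {p : (I → Bool) × (Option J → Bool) |
          Φ p.1 (fun i => p.2 (some i)) = fun i => p.2 (some i)} := by
        have : {p : (I → Bool) × (Option J → Bool) |
            Φ p.1 (fun i => p.2 (some i)) = fun i => p.2 (some i)} =
            ⋂ j, {p | Φ p.1 (fun i => p.2 (some i)) j = p.2 (some j)} := by
          ext p
          simp only [Set.mem_setOf_eq, Set.mem_iInter]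
          exact funext_iff
        rw [this]
        refine MeasurableSet.iInter fun j => ?_
        exact measurableSet_eq_fun ((measurable_pi_apply j).comp (hΦ.comp h1))
          ((measurable_pi_apply (some j)).comp measurable_snd)
      have : (fun p : (I → Bool) × (Option J → Bool) =>
          decide (Φ p.1 (fun i => p.2 (some i)) = fun i => p.2 (some i))) =
          fun p => if p ∈ {p : (I → Bool) × (Option J → Bool) |
            Φ p.1 (fun i => p.2 (some i)) = fun i => p.2 (some i)} then true else false := by
        funext p
        simp only [Set.mem_setOf_eq]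
        by_cases hp : Φ p.1 (fun i => p.2 (some i)) = fun i => p.2 (some i)
        · simp [hp]
        · simp [hp]
      rw [this]
      exact Measurable.ite hs measurable_const measurable_const
    | some j => exact (measurable_pi_apply j).comp (hΦ.comp h1)
  let N : BI I O :=
    { J := Option J
      cJ := inferInstance
      init := fun k => match k with
        | none => false
        | some j => init j
      step := st
      meas := hmeas
      halt := none
      out := fun o => some (out o) }
  refine ⟨N, fun u v => ?_⟩
  rw [N.halts_def]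
  have hsome : ∀ b j, N.rn u b (some j) = iter (Φ u) init b j := by
    intro b
    refine iter_sim (K := J) (fun j => some j) (fun j => j) b (fun j => rfl) ?_ b le_rfl
    intro c _ h j
    show Φ u _ j = Φ u _ j
    congr 1
    funext i
    exact h i
  have hsucc : ∀ b, N.rn u (b + 1) none = decide (Φ u (iter (Φ u) init b) =
      iter (Φ u) init b) := by
    intro b
    show iter (N.step u) N.init (b + 1) none = _
    rw [iter_succ]
    show decide (Φ u (fun i => N.rn u b (some i)) = fun i => N.rn u b (some i)) = _
    have : (fun i => N.rn u b (some i)) = iter (Φ u) init b := funext (hsome b)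
    rw [this]
  have hno : ∀ B : Ordinal.{0}, (∀ b, b < B → Φ u (iter (Φ u) init b) ≠ iter (Φ u) init b) →
      ∀ b, b ≤ B → N.rn u b none = false := by
    intro B hB
    refine iter_keep (F := N.step u) (z := N.init) none false B rfl ?_
    intro b hb _
    have := hsucc b
    unfold BI.rn at this
    rw [iter_succ] at this
    rw [this]
    simpa using hB b hb
  constructor
  · rintro ⟨a, h2, h3, h4⟩
    have hex : ∃ b, b < a ∧ Φ u (iter (Φ u) init b) = iter (Φ u) init b := by
      by_contra hcon
      push Not at hcon
      have := hno a hcon a le_rfl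
      rw [show N.halt = none from rfl, this] at h2
      cases h2
    obtain ⟨b, hb, hfix⟩ := hex
    refine ⟨b, hfix, fun o => ?_⟩
    rw [← h4 o]
    show _ = N.rn u a (some (out o))
    rw [hsome, iter_fixed_le hfix hb.le]
  · rintro ⟨a, h2, h4⟩
    obtain ⟨a0, hle, h5, h6⟩ := cc_first
      (P := fun a => Φ u (iter (Φ u) init a) = iter (Φ u) init a) h2
    have hout : ∀ o, iter (Φ u) init a0 (out o) = v o := by
      intro o
      rw [← h4 o, iter_fixed_le h5 hle]
    refine ⟨a0 + 1, ?_, ?_, ?_⟩
    · show N.rn u (a0 + 1) none = true
      rw [hsucc]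
      simpa using h5
    · intro b hb
      exact hno a0 h6 b (Order.lt_add_one_iff.1 hb)
    · intro o
      show N.rn u (a0 + 1) (some (out o)) = v o
      rw [hsome, iter_succ, h5, hout]

theorem comp_borel [Countable O] (F : (I → Bool) → (O → Bool)) (hF : Measurable F) :
    Comp (fun u v => v = F u) := by
  obtain ⟨M, hM⟩ := comp_fix (I := I) (O := O) (J := O) (fun u _ => F u)
    (hF.comp measurable_fst) (fun _ => false) id
  refine ⟨M, fun u v => ?_⟩
  rw [hM]
  have hc : ∀ a : Ordinal.{0}, F u = iter (fun _ : O → Bool => F u) (fun _ => false) a →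
      iter (fun _ : O → Bool => F u) (fun _ => false) a = F u := fun a h => h.symm
  constructor
  · rintro ⟨a, h1, h2⟩
    funext o
    rw [← h2 o, ← h1]
    rfl
  · rintro rfl
    have h1 : iter (fun _ : O → Bool => F u) (fun _ => false) 1 = F u := by
      have := iter_succ (fun _ : O → Bool => F u) (fun _ => false) 0
      rw [zero_add] at this
      exact this
    exact ⟨1, h1.symm, fun o => by rw [h1]; rfl⟩

end halting

section closure
variable {I I' O O' : Type}

theorem cc_iter_one_add {J : Type} (F : (J → Bool) → (J → Bool)) (z : J → Bool)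
    (a : Ordinal.{0}) : iter F z (1 + a) = iter F (F z) a := by
  rw [iter_add]
  congr 1
  have := iter_succ F z 0
  rw [zero_add, iter_zero] at this
  exact this

theorem comp_seq {R1 : (I → Bool) → (O → Bool) → Prop}
    {R2 : (I ⊕ O → Bool) → (O' → Bool) → Prop} (h1 : Comp R1) (h2 : Comp R2) :
    Comp (fun u w => ∃ v, R1 u v ∧ R2 (Sum.elim u v) w) := by
  classical
  obtain ⟨M1, hf1, -, hM1⟩ := comp_normal h1
  obtain ⟨M2, hf2, hi2, hM2⟩ := comp_normal h2
  haveI := M1.cJ
  haveI := M2.cJ
  let st : (I → Bool) → (M1.J ⊕ M2.J → Bool) → (M1.J ⊕ M2.J → Bool) := fun u z k =>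
    match k with
    | .inl j => M1.step u (fun i => z (.inl i)) j
    | .inr j => if z (.inl M1.halt) = true then
        M2.step (Sum.elim u (fun o => z (.inl (M1.out o)))) (fun i => z (.inr i)) j
      else M2.init j
  have he : ∀ k : M1.J ⊕ M2.J,
      Measurable (fun p : (I → Bool) × (M1.J ⊕ M2.J → Bool) => p.2 k) := fun k =>
    (measurable_pi_apply k).comp measurable_snd
  have hmeas : Measurable (fun p : (I → Bool) × (M1.J ⊕ M2.J → Bool) => st p.1 p.2) := by
    rw [measurable_pi_iff]
    intro k
    cases k with
    | inl j =>
      have h1 : Measurable (fun p : (I → Bool) × (M1.J ⊕ M2.J → Bool) =>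
          (p.1, fun i => p.2 (.inl i))) := by
        refine measurable_fst.prodMk ?_
        rw [measurable_pi_iff]
        exact fun i => he _
      exact (measurable_pi_apply j).comp (M1.meas.comp h1)
    | inr j =>
      refine Measurable.ite ((he _) (measurableSet_singleton true)) ?_ measurable_const
      have h1 : Measurable (fun p : (I → Bool) × (M1.J ⊕ M2.J → Bool) =>
          (Sum.elim p.1 (fun o => p.2 (.inl (M1.out o))), fun i => p.2 (.inr i))) := by
        refine Measurable.prodMk ?_ ?_
        · rw [measurable_pi_iff]
          rintro (i | o)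
          · exact (measurable_pi_apply i).comp measurable_fst
          · exact he _
        · rw [measurable_pi_iff]
          exact fun i => he _
      exact (measurable_pi_apply j).comp (M2.meas.comp h1)
  let N : BI I O' :=
    { J := M1.J ⊕ M2.J
      cJ := inferInstance
      init := Sum.elim M1.init M2.init
      step := st
      meas := hmeas
      halt := .inr M2.halt
      out := fun o => .inr (M2.out o) }
  refine ⟨N, fun u w => ?_⟩
  have hl : ∀ b j, N.rn u b (.inl j) = M1.rn u b j := by
    intro b
    refine iter_sim (K := M1.J) (fun j => Sum.inl j) (fun j => j) b (fun j => rfl) ?_ b le_rfl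
    intro c _ h j
    show M1.step u _ j = M1.step u _ j
    congr 1
    funext i
    exact h i
  have hr0 : ∀ B : Ordinal.{0}, (∀ b, b < B → M1.rn u b M1.halt = false) →
      ∀ b, b ≤ B → ∀ j, N.rn u b (.inr j) = M2.init j := by
    intro B hB b hb j
    refine iter_keep (F := N.step u) (z := N.init) (.inr j) (M2.init j) B rfl ?_ b hb
    intro c hc _
    show (if N.rn u c (.inl M1.halt) = true then _ else M2.init j) = M2.init j
    rw [if_neg]
    rw [hl, hB c hc]
    exact Bool.false_ne_true
  have hr1 : ∀ a0, M1.rn u a0 M1.halt = true → (∀ b, b < a0 → M1.rn u b M1.halt = false) →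
      ∀ b j, N.rn u (a0 + b) (.inr j) =
        M2.rn (Sum.elim u (fun o => M1.rn u a0 (M1.out o))) b j := by
    intro a0 ha0 hb0 b
    have hadd : ∀ b, N.rn u (a0 + b) = iter (N.step u) (N.rn u a0) b := fun b =>
      iter_add _ _ _ _
    have hfr : ∀ b, M1.rn u (a0 + b) = M1.rn u a0 := fun b =>
      iter_fixed_le (hf1 u _ ha0) le_self_add
    rw [hadd]
    refine iter_sim (K := M2.J) (fun j => Sum.inr j) (fun j => j) b
      (fun j => hr0 a0 hb0 a0 le_rfl j) ?_ b le_rfl
    intro c _ h j
    have h3 : ∀ j, iter (N.step u) (N.rn u a0) c (.inl j) = M1.rn u a0 j := by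
      intro j
      rw [← hadd, hl, hfr]
    show (if iter (N.step u) (N.rn u a0) c (.inl M1.halt) = true then
      M2.step (Sum.elim u (fun o => iter (N.step u) (N.rn u a0) c (.inl (M1.out o))))
        (fun i => iter (N.step u) (N.rn u a0) c (.inr i)) j else M2.init j) = _
    rw [if_pos (by rw [h3, ha0])]
    have h4 : (fun o => iter (N.step u) (N.rn u a0) c (.inl (M1.out o))) =
        fun o => M1.rn u a0 (M1.out o) := funext fun o => h3 _
    have h5 : (fun i => iter (N.step u) (N.rn u a0) c (.inr i)) =
        iter (M2.step (Sum.elim u (fun o => M1.rn u a0 (M1.out o)))) M2.init c := funext h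
    rw [h4, h5]
  rw [N.halts_def]
  constructor
  · rintro ⟨a, h3, h4, h5⟩
    have hex : ∃ b, b < a ∧ M1.rn u b M1.halt = true := by
      by_contra hcon
      push Not at hcon
      have := hr0 a (fun b hb => by simpa using hcon b hb) a le_rfl M2.halt
      rw [hi2] at this
      rw [show N.halt = .inr M2.halt from rfl, this] at h3
      cases h3
    obtain ⟨b, hba, hb⟩ := hex
    obtain ⟨a0, hle, h6, h7⟩ := cc_first (P := fun a => M1.rn u a M1.halt = true) hb
    have h7' : ∀ b, b < a0 → M1.rn u b M1.halt = false := fun b hb => by simpa using h7 b hb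
    refine ⟨fun o => M1.rn u a0 (M1.out o), ?_, ?_⟩
    · rw [← hM1, M1.halts_def]
      exact ⟨a0, h6, h7', fun o => rfl⟩
    · rw [← hM2, M2.halts_iff hf2]
      obtain ⟨d, rfl⟩ : ∃ d, a = a0 + d :=
        ⟨a - a0, (Ordinal.add_sub_cancel_of_le (hle.trans hba.le)).symm⟩
      refine ⟨d, ?_, fun o => ?_⟩
      · rw [← hr1 a0 h6 h7']
        exact h3
      · rw [← hr1 a0 h6 h7']
        exact h5 o
  · rintro ⟨v, h3, h4⟩
    rw [← hM1, M1.halts_def] at h3
    obtain ⟨a0, h6, h7, h8⟩ := h3
    have hv : (fun o => M1.rn u a0 (M1.out o)) = v := funext h8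
    rw [← hM2, M2.halts_def] at h4
    obtain ⟨d, h9, h10, h11⟩ := h4
    refine ⟨a0 + d, ?_, ?_, ?_⟩
    · show N.rn u (a0 + d) (.inr M2.halt) = true
      rw [hr1 a0 h6 h7, hv]
      exact h9
    · intro b hb
      show N.rn u b (.inr M2.halt) = false
      rcases le_total b a0 with hle | hle
      · rw [hr0 a0 h7 b hle, hi2]
      · obtain ⟨b', rfl⟩ : ∃ d, b = a0 + d :=
          ⟨b - a0, (Ordinal.add_sub_cancel_of_le hle).symm⟩
        rw [hr1 a0 h6 h7, hv]
        exact h10 b' ((add_lt_add_iff_left a0).1 hb)
    · intro o
      show N.rn u (a0 + d) (.inr (M2.out o)) = w o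
      rw [hr1 a0 h6 h7, hv]
      exact h11 o

theorem comp_pre {R : (I → Bool) → (O → Bool) → Prop} (h : Comp R)
    (F : (I' → Bool) → (I → Bool)) (hF : Measurable F) : Comp (fun u v => R (F u) v) := by
  obtain ⟨M, hM⟩ := h
  refine ⟨{ J := M.J
            cJ := M.cJ
            init := M.init
            step := fun u z => M.step (F u) z
            meas := M.meas.comp ((hF.comp measurable_fst).prodMk measurable_snd)
            halt := M.halt
            out := M.out }, fun u v => ?_⟩
  show _ ↔ R (F u) v
  rw [← hM]
  rfl

theorem comp_guard {R : (I → Bool) → (O → Bool) → Prop} (h : Comp R)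
    {P : Set (I → Bool)} (hP : MeasurableSet P) : Comp (fun u v => u ∈ P ∧ R u v) := by
  classical
  obtain ⟨M, hf, hi, hM⟩ := comp_normal h
  haveI := M.cJ
  let N : BI I O :=
    { J := M.J
      cJ := M.cJ
      init := M.init
      step := fun u z => if u ∈ P then M.step u z else fun _ => false
      meas := Measurable.ite (measurable_fst hP) M.meas measurable_const
      halt := M.halt
      out := M.out }
  refine ⟨N, fun u v => ?_⟩
  show _ ↔ u ∈ P ∧ R u v
  rw [← hM]
  by_cases hu : u ∈ P
  · have : N.rn u = M.rn u := by
      funext a
      unfold BI.rn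
      have : N.step u = M.step u := by
        funext z
        show (if u ∈ P then M.step u z else fun _ => false) = _
        rw [if_pos hu]
      rw [this]
    rw [N.halts_def, M.halts_def, this]
    exact ⟨fun h => ⟨hu, h⟩, fun h => h.2⟩
  · constructor
    · rintro ⟨a, h1, -⟩
      have : N.rn u a M.halt = false := by
        refine iter_keep (F := N.step u) (z := N.init) M.halt false a hi ?_ a le_rfl
        intro b _ _
        show (if u ∈ P then M.step u _ else fun _ => false) M.halt = false
        rw [if_neg hu]
      have h1' : N.rn u a M.halt = true := h1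
      rw [this] at h1'
      cases h1'
    · exact fun h => absurd h.1 hu

theorem comp_ite {R1 R2 : (I → Bool) → (O → Bool) → Prop} (h1 : Comp R1) (h2 : Comp R2)
    {P : Set (I → Bool)} (hP : MeasurableSet P) :
    Comp (fun u v => (u ∈ P ∧ R1 u v) ∨ (u ∉ P ∧ R2 u v)) := by
  classical
  obtain ⟨M1, hf1, -, hM1⟩ := comp_normal h1
  obtain ⟨M2, hf2, -, hM2⟩ := comp_normal h2
  haveI := M1.cJ
  haveI := M2.cJ
  let st : (I → Bool) → (Option (M1.J × M2.J) → Bool) → (Option (M1.J × M2.J) → Bool) :=
    fun u z k =>
    match k with
    | none => true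
    | some j =>
      if u ∈ P then
        (if z none = true then M1.step u (fun i => z (some (i, M2.halt))) j.1 else M1.init j.1)
      else
        (if z none = true then M2.step u (fun i => z (some (M1.halt, i))) j.2 else M2.init j.2)
  have he : ∀ k, Measurable (fun p : (I → Bool) × (Option (M1.J × M2.J) → Bool) => p.2 k) :=
    fun k => (measurable_pi_apply k).comp measurable_snd
  have hmeas : Measurable
      (fun p : (I → Bool) × (Option (M1.J × M2.J) → Bool) => st p.1 p.2) := by
    rw [measurable_pi_iff]
    intro k
    cases k with
    | none => exact measurable_const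
    | some j =>
      refine Measurable.ite (measurable_fst hP) ?_ ?_
      · refine Measurable.ite ((he _) (measurableSet_singleton true)) ?_ measurable_const
        have h1 : Measurable (fun p : (I → Bool) × (Option (M1.J × M2.J) → Bool) =>
            (p.1, fun i => p.2 (some (i, M2.halt)))) := by
          refine measurable_fst.prodMk ?_
          rw [measurable_pi_iff]
          exact fun i => he _
        exact (measurable_pi_apply j.1).comp (M1.meas.comp h1)
      · refine Measurable.ite ((he _) (measurableSet_singleton true)) ?_ measurable_const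
        have h1 : Measurable (fun p : (I → Bool) × (Option (M1.J × M2.J) → Bool) =>
            (p.1, fun i => p.2 (some (M1.halt, i)))) := by
          refine measurable_fst.prodMk ?_
          rw [measurable_pi_iff]
          exact fun i => he _
        exact (measurable_pi_apply j.2).comp (M2.meas.comp h1)
  let N : BI I O :=
    { J := Option (M1.J × M2.J)
      cJ := inferInstance
      init := fun _ => false
      step := st
      meas := hmeas
      halt := some (M1.halt, M2.halt)
      out := fun o => some (M1.out o, M2.out o) }
  have hnone : ∀ u b, iter (N.step u) (N.step u N.init) b none = true := by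
    intro u b
    exact iter_keep none true b rfl (fun c _ _ => rfl) b le_rfl
  refine ⟨N, fun u v => ?_⟩
  -- the common argument
  have main : ∀ (M : BI I O) (π : M1.J × M2.J → M.J), π (M1.halt, M2.halt) = M.halt →
      (∀ o, π (M1.out o, M2.out o) = M.out o) →
      (∀ b k, N.rn u (1 + b) (some k) = M.rn u b (π k)) → (N.Halts u v ↔ M.Halts u v) := by
    intro M π hπ1 hπ2 hrun
    rw [N.halts_def, M.halts_def]
    have h0 : N.rn u 0 N.halt = false := by
      show iter (N.step u) N.init 0 _ = _
      rw [iter_zero]
    constructor
    · rintro ⟨a, h3, h4, h5⟩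
      have ha : 1 ≤ a := by
        rw [Order.one_le_iff_pos]
        by_contra hcon
        have : a = 0 := by simpa using hcon
        rw [this, h0] at h3
        cases h3
      obtain ⟨d, rfl⟩ : ∃ d, a = 1 + d := ⟨a - 1, (Ordinal.add_sub_cancel_of_le ha).symm⟩
      refine ⟨d, ?_, fun b hb => ?_, fun o => ?_⟩
      · rw [← hπ1, ← hrun]
        exact h3
      · rw [← hπ1, ← hrun]
        exact h4 (1 + b) ((add_lt_add_iff_left 1).2 hb)
      · rw [← hπ2, ← hrun]
        exact h5 o
    · rintro ⟨a, h3, h4, h5⟩
      refine ⟨1 + a, ?_, fun b hb => ?_, fun o => ?_⟩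
      · show N.rn u (1 + a) (some (M1.halt, M2.halt)) = true
        rw [hrun, hπ1]
        exact h3
      · rcases eq_zero_or_pos b with rfl | hb0
        · exact h0
        · obtain ⟨d, rfl⟩ : ∃ d, b = 1 + d :=
            ⟨b - 1, (Ordinal.add_sub_cancel_of_le (Order.one_le_iff_pos.2 hb0)).symm⟩
          show N.rn u (1 + d) (some (M1.halt, M2.halt)) = false
          rw [hrun, hπ1]
          exact h4 d ((add_lt_add_iff_left 1).1 hb)
      · show N.rn u (1 + a) (some (M1.out o, M2.out o)) = v o
        rw [hrun, hπ2]
        exact h5 o
  by_cases hu : u ∈ P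
  · have := main M1 Prod.fst rfl (fun o => rfl) (by
      intro b
      show ∀ k, iter (N.step u) N.init (1 + b) (some k) = _
      rw [cc_iter_one_add]
      refine iter_sim (K := M1.J × M2.J) (fun k => some k) Prod.fst b ?_ ?_ b le_rfl
      · intro k
        show (if u ∈ P then (if N.init none = true then _ else M1.init k.1) else _) = _
        rw [if_pos hu, if_neg (show ¬ N.init none = true from Bool.false_ne_true)]
      · intro c _ h k
        show (if u ∈ P then (if iter (N.step u) (N.step u N.init) c none = true then
          M1.step u (fun i => iter (N.step u) (N.step u N.init) c (some (i, M2.halt))) k.1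
            else _) else _) = _
        rw [if_pos hu, if_pos (hnone u c)]
        congr 1
        funext i
        exact h (i, M2.halt))
    rw [this, hM1]
    constructor
    · exact fun h => Or.inl ⟨hu, h⟩
    · rintro (h | h)
      · exact h.2
      · exact absurd hu h.1
  · have := main M2 Prod.snd rfl (fun o => rfl) (by
      intro b
      show ∀ k, iter (N.step u) N.init (1 + b) (some k) = _
      rw [cc_iter_one_add]
      refine iter_sim (K := M1.J × M2.J) (fun k => some k) Prod.snd b ?_ ?_ b le_rfl
      · intro k
        show (if u ∈ P then _ else (if N.init none = true then _ else M2.init k.2)) = _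
        rw [if_neg hu, if_neg (show ¬ N.init none = true from Bool.false_ne_true)]
      · intro c _ h k
        show (if u ∈ P then _ else (if iter (N.step u) (N.step u N.init) c none = true then
          M2.step u (fun i => iter (N.step u) (N.step u N.init) c (some (M1.halt, i))) k.2
            else _)) = _
        rw [if_neg hu, if_pos (hnone u c)]
        congr 1
        funext i
        exact h (M1.halt, i))
    rw [this, hM2]
    constructor
    · exact fun h => Or.inr ⟨hu, h⟩
    · rintro (h | h)
      · exact absurd h.1 hu
      · exact h.2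

theorem comp_post [Countable O'] {R : (I → Bool) → (O → Bool) → Prop} (h : Comp R)
    (F : (I ⊕ O → Bool) → (O' → Bool)) (hF : Measurable F) :
    Comp (fun u w => ∃ v, R u v ∧ w = F (Sum.elim u v)) :=
  comp_seq h (comp_borel F hF)

end closure

end Pool.Agent.Helper78.ITTM
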