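import Pool.Agent.Helper78.ITTM.MeasBase

/-! Part C, module C7b: measurability of the canonical enumerations. -/

namespace Pool.Agent.Helper78.ITTM

namespace Mb

section
variable {M : Type} [Countable M]

theorem m_V (a α h : ℕ) : Measurable (fun u : CWZ M => V (ltw u.2.1) (dat u.2.2) a α h) := by
  unfold V
  refine (m_lt h a).and (Measurable.exists fun m => Measurable.exists fun p =>
    (m_pt α p).and (Measurable.or (Measurable.exists fun α' => (m_lt α α').not.and ?_) ?_))
  · exact m_least (fun u h => gP (ltw u.2.1) (dat u.2.2) m α' p h) (fun h => m_gP m α' p h) h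
  · exact m_least (fun u h => zP (ltw u.2.1) (dat u.2.2) a m p h) (fun h => m_zP a m p h) h

theorem m_CP (a β : ℕ) : Measurable (fun u : CWZ M => CP (ltw u.2.1) (dat u.2.2) a β) := by
  unfold CP
  exact (m_lt β a).and ((m_lim β).and (Measurable.forall fun α => Measurable.forall fun h =>
    (m_lt α β).imp ((m_V a α h).imp (m_lt h β))))

theorem m_SG (a : ℕ) : Measurable (fun u : CWZ M => SG (ltw u.2.1) (dat u.2.2) a) := by
  unfold SG
  exact (m_lim a).and (Measurable.forall fun α => (m_lt α a).imp (Measurable.exists fun β =>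
    (m_lt α β).and (m_CP a β)))

theorem m_Hn (a α β : ℕ) : Measurable (fun u : CWZ M => Hn (ltw u.2.1) (dat u.2.2) a α β) := by
  unfold Hn
  exact (m_lt β a).and (m_least (fun u β => ltw u.2.1 α β ∧
    ∀ h, V (ltw u.2.1) (dat u.2.2) a α h → ltw u.2.1 h β)
    (fun β => (m_lt α β).and (Measurable.forall fun h => (m_V a α h).imp (m_lt h β))) β)

theorem m_It (a α0 k β : ℕ) :
    Measurable (fun u : CWZ M => It (ltw u.2.1) (dat u.2.2) a α0 k β) := by
  induction k generalizing β with
  | zero => exact measurable_const
  | succ k ih => exact Measurable.exists fun α => (ih α).and (m_Hn a α β)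

theorem m_Bs (a α0 : ℕ) : Measurable (fun u : CWZ M => Bs (ltw u.2.1) (dat u.2.2) a α0) := by
  unfold Bs
  exact (m_lt α0 a).and (m_least (fun u α => ¬ ∃ β, ltw u.2.1 α β ∧
    CP (ltw u.2.1) (dat u.2.2) a β)
    (fun α => (Measurable.exists fun β => (m_lt α β).and (m_CP a β)).not) α0)

theorem m_CPk (a k β : ℕ) : Measurable (fun u : CWZ M => CPk (ltw u.2.1) (dat u.2.2) a k β) := by
  induction k generalizing β with
  | zero =>
    exact m_least (fun u β => CP (ltw u.2.1) (dat u.2.2) a β) (fun β => m_CP a β) β
  | succ k ih =>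
    exact Measurable.exists fun β' => (ih β').and (m_least (fun u β => ltw u.2.1 β' β ∧
      CP (ltw u.2.1) (dat u.2.2) a β) (fun β => (m_lt β' β).and (m_CP a β)) β)

theorem m_Cf (a : ℕ) (t : TI M) (h : ℕ) :
    Measurable (fun u : CWZ M => Cf (ltw u.2.1) (dat u.2.2) a t h) := by
  obtain ⟨k, o⟩ := t
  refine Measurable.or ((m_SG a).and (m_CPk a k h)) ((m_SG a).not.and
    (Measurable.exists fun α0 => Measurable.exists fun α => (m_Bs a α0).and
      ((m_It a α0 k α).and ?_)))
  cases o with
  | none => exact measurable_const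
  | some x =>
    obtain ⟨m, o, p', e⟩ := x
    refine (m_lt h a).and (Measurable.exists fun p => (m_map α p' p).and ((m_pt α p).and ?_))
    cases e with
    | true =>
      simp only [if_true]
      refine Measurable.exists fun α' => Measurable.and ?_ ?_
      · cases o with
        | none => exact measurable_const
        | some l => exact m_C α l α'
      · exact m_least (fun u h => gP (ltw u.2.1) (dat u.2.2) m α' p h) (fun h => m_gP m α' p h) h
    | false =>
      simp only [Bool.false_eq_true, if_false]
      exact m_least (fun u h => zP (ltw u.2.1) (dat u.2.2) a m p h) (fun h => m_zP a m p h) h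

theorem m_Ctab (eT : ℕ → TI M × ℕ) (a k g : ℕ) :
    Measurable (fun u : CWZ M => Ctab (ltw u.2.1) (dat u.2.2) eT a k g) := by
  unfold Ctab
  refine Measurable.or (Measurable.exists fun a' => (m_succ a' a).and (Measurable.or
    measurable_const (Measurable.exists fun k' => measurable_const.and (m_C a' k' g)))) ?_
  exact (m_lim a).and (Measurable.exists fun h => (m_lt h a).and ((m_Cf a _ h).and (m_C h _ g)))

end

end Mb

section meas
variable {M : Type} [Countable M] (L : LocOp M) (en : Enum M)

theorem meas_C (a k g : ℕ) :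
    MeasurableSet {u : CWZ M | (Full L en u.1 (ltw u.2.1) (dat u.2.2) a).C k g} :=
  measurableSet_setOfPred.mpr (Mb.m_Ctab en.eT a k g)

theorem meas_SG (a : ℕ) : MeasurableSet {u : CWZ M | SG (ltw u.2.1) (dat u.2.2) a} :=
  measurableSet_setOfPred.mpr (Mb.m_SG a)

end meas

end Pool.Agent.Helper78.ITTM
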