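import Pool.Agent.Helper78.ITTM.CDefs2

set_option autoImplicit false

/-! Part C, module C7c, generic part: measurability of the definitions of part B for measurable
families of orders and data functions (structure `MxD`). -/

namespace Pool.Agent.Helper78.ITTM

section mxgen

variable {U : Type} [MeasurableSpace U] {Ω : Type} {M : Type}

theorem mx_countCond [Countable Ω] : Countable (Cond Ω) := by
  have : Function.Injective (fun p : Cond Ω => (p.dom, p.tr, p.F)) := by
    rintro ⟨d, t, F⟩ ⟨d', t', F'⟩ h
    simp only [Prod.mk.injEq] at h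
    obtain ⟨rfl, rfl, rfl⟩ := h
    rfl
  exact this.countable

theorem mx_bool {b : U → Bool} (hb : Measurable b) (P : Bool → Prop) :
    Measurable fun u => P (b u) := (measurable_from_top (f := P)).comp hb

/-- Any property of an initial segment. -/
theorem mx_pre0 {r : U → ℕ → Bool} (hr : ∀ j, Measurable fun u => r u j) (j : ℕ) :
    ∀ P : List Bool → Prop, Measurable fun u => P (pre (r u) j) := by
  induction j with
  | zero =>
    intro P
    have : ∀ u, pre (r u) 0 = [] := fun u => by simp [pre]
    simp only [this]
    exact measurable_const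
  | succ j ih =>
    intro P
    have h1 : ∀ u, pre (r u) (j + 1) = pre (r u) j ++ [r u j] := fun u => by
      simp [pre, List.range_succ]
    have h2 : ∀ u, P (pre (r u) (j + 1)) ↔
        ((r u j = true ∧ P (pre (r u) j ++ [true])) ∨
          (r u j = false ∧ P (pre (r u) j ++ [false]))) := by
      intro u
      rw [h1 u]
      cases r u j <;> simp
    simp only [h2]
    exact ((mx_bool (hr j) (· = true)).and (ih fun s => P (s ++ [true]))).or
      ((mx_bool (hr j) (· = false)).and (ih fun s => P (s ++ [false])))

theorem mx_pre {r : U → ℕ → Bool} (hr : ∀ j, Measurable fun u => r u j) (j : ℕ)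
    {P : U → List Bool → Prop} (hP : ∀ s, Measurable fun u => P u s) :
    Measurable fun u => P u (pre (r u) j) := by
  have h2 : ∀ u, P u (pre (r u) j) ↔ ∃ s, pre (r u) j = s ∧ P u s := by
    intro u
    simp
  simp only [h2]
  exact Measurable.exists fun s => (mx_pre0 hr j (· = s)).and (hP s)

theorem mx_isLim [Countable Ω] {lt : U → Ω → Ω → Prop}
    (hlt : ∀ a b, Measurable fun u => lt u a b) (a : Ω) :
    Measurable fun u => isLim (lt u) a := by
  unfold isLim
  exact (Measurable.exists fun b => hlt b a).and (Measurable.forall fun b => (hlt b a).imp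
    (Measurable.exists fun b' => (hlt b b').and (hlt b' a)))

theorem mx_res [Countable Ω] {lt : U → Ω → Ω → Prop}
    (hlt : ∀ a b, Measurable fun u => lt u a b) (a : Ω) (p : Cond Ω)
    {P : U → Cond Ω → Prop} (hP : ∀ q, Measurable fun u => P u q) :
    Measurable fun u => P u (res (lt u) a p) := by
  have := mx_countCond (Ω := Ω)
  have h2 : ∀ u, P u (res (lt u) a p) ↔ ∃ q, (p.dom = q.dom ∧ p.tr = q.tr ∧
      ∀ z, (z ∈ p.F ∧ lt u z.2 a) ↔ z ∈ q.F) ∧ P u q := by
    intro u
    constructor
    · intro h
      exact ⟨res (lt u) a p, ⟨rfl, rfl, fun z => by simp [res]⟩, h⟩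
    · rintro ⟨q, ⟨h1, h2, h3⟩, h4⟩
      have : res (lt u) a p = q := by
        ext1
        · exact h1
        · exact h2
        · ext z
          rw [← h3 z]
          simp [res]
      rwa [this]
  simp only [h2]
  refine Measurable.exists fun q => Measurable.and (Measurable.and measurable_const
    (Measurable.and measurable_const (Measurable.forall fun z => ?_))) (hP q)
  exact (measurable_const.and (hlt _ _)).iff measurable_const

section r
variable [Countable Ω] {r : U → Ω → Idx → ℕ → Bool} {lt : U → Ω → Ω → Prop}

theorem mx_Valid (hr : ∀ g i j, Measurable fun u => r u g i j) (p : Cond Ω) :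
    Measurable fun u => Valid (r u) p := by
  unfold Valid
  refine measurable_const.and (measurable_const.and (Measurable.forall fun i =>
    Measurable.forall fun g => Measurable.forall fun g' => Measurable.forall fun j =>
    measurable_const.imp (measurable_const.imp (measurable_const.imp
      (Measurable.imp ?_ (Measurable.imp ?_ ?_))))))
  · exact mx_pre (r := fun u => r u g i) (hr g i) j (P := fun u s => s = pre (r u g' i) j)
      (fun s => mx_pre (r := fun u => r u g' i) (hr g' i) j (P := fun u s' => s = s')
        (fun s' => measurable_const))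
  · exact mx_pre (r := fun u => r u g i) (hr g i) j
      (P := fun u s => Idx.node i s ∉ p.dom) (fun s => measurable_const)
  · have : ∀ u, (r u g i j = r u g' i j) ↔ ((r u g i j = true) ↔ (r u g' i j = true)) := by
      intro u
      cases r u g i j <;> cases r u g' i j <;> simp
    simp only [this]
    exact (mx_bool (hr g i j) (· = true)).iff (mx_bool (hr g' i j) (· = true))

theorem mx_Ext (hr : ∀ g i j, Measurable fun u => r u g i j) (q p : Cond Ω) :
    Measurable fun u => Ext (r u) q p := by
  unfold Ext
  refine measurable_const.and (measurable_const.and (measurable_const.and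
    (Measurable.forall fun i => Measurable.forall fun g => Measurable.forall fun j =>
    measurable_const.imp (measurable_const.imp (Measurable.imp ?_ (Measurable.imp ?_ ?_))))))
  · exact mx_pre (r := fun u => r u g i) (hr g i) j
      (P := fun u s => Idx.node i s ∈ q.dom) (fun s => measurable_const)
  · exact mx_pre (r := fun u => r u g i) (hr g i) j
      (P := fun u s => Idx.node i s ∉ p.dom) (fun s => measurable_const)
  · exact (mx_pre (r := fun u => r u g i) (hr g i) j
      (P := fun u s => Idx.node i s ∈ q.tr) (fun s => measurable_const)).iff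
      (mx_bool (hr g i j) (· = true))

theorem mx_Pt (hr : ∀ g i j, Measurable fun u => r u g i j)
    (hlt : ∀ a b, Measurable fun u => lt u a b) (a : Ω) (p : Cond Ω) :
    Measurable fun u => Pt (lt u) (r u) a p := by
  unfold Pt
  exact (mx_Valid hr p).and (Measurable.forall fun i => Measurable.forall fun g =>
    measurable_const.imp (hlt g a))

theorem mx_Bad (hr : ∀ g i j, Measurable fun u => r u g i j) (p : Cond Ω) (N : Finset Idx)
    (t : List (Idx × Bool)) : Measurable fun u => Bad (r u) p N t := by
  unfold Bad
  refine Measurable.exists fun i => measurable_const.and (Measurable.exists fun g =>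
    measurable_const.and (Measurable.exists fun j => Measurable.exists fun b =>
    measurable_const.and (measurable_const.and (Measurable.and ?_ (Measurable.and ?_ ?_)))))
  · exact mx_pre (r := fun u => r u g i) (hr g i) j
      (P := fun u s => (comp i t).take j = s) (fun s => measurable_const)
  · exact mx_pre (r := fun u => r u g i) (hr g i) j
      (P := fun u s => Idx.node i s ∉ p.dom) (fun s => measurable_const)
  · exact mx_bool (hr g i j) (b ≠ ·)

theorem mx_Gd (hr : ∀ g i j, Measurable fun u => r u g i j)
    (hlt : ∀ a b, Measurable fun u => lt u a b) (a : Ω) (p : Cond Ω) (N : Finset Idx)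
    (t : List (Idx × Bool)) (q : Cond Ω) :
    Measurable fun u => Gd (lt u) (r u) a p N t q := by
  unfold Gd
  refine (mx_Pt hr hlt a q).and ((mx_Ext hr q p).and (Measurable.forall fun i =>
    measurable_const.imp (measurable_const.and (measurable_const.and
    (Measurable.forall fun g => measurable_const.imp (Measurable.exists fun j =>
    Measurable.exists fun b => measurable_const.and (Measurable.and ?_
    (Measurable.and ?_ (measurable_const.imp ?_)))))))))
  · exact mx_pre (r := fun u => r u g i) (hr g i) j
      (P := fun u s => (comp i t).take j = s) (fun s => measurable_const)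
  · exact mx_bool (hr g i j) (b ≠ ·)
  · exact mx_pre (r := fun u => r u g i) (hr g i) j
      (P := fun u s => Idx.node i s ∈ q.dom) (fun s => measurable_const)

end r

/-- Measurable families of orders and data functions. -/
structure MxD (lt : U → Ω → Ω → Prop) (f : U → Ω → Dat M Ω) : Prop where
  lt : ∀ a b, Measurable fun u => lt u a b
  B : ∀ a b m p, Measurable fun u => (f u a).B b m p
  C : ∀ a k g, Measurable fun u => (f u a).C k g
  r : ∀ a i j, Measurable fun u => (f u a).r i j

section f
variable [Countable Ω] {lt : U → Ω → Ω → Prop} {f : U → Ω → Dat M Ω}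

theorem MxD.rr (h : MxD lt f) (g : Ω) (i : Idx) (j : ℕ) :
    Measurable fun u => rr (f u) g i j := h.r g i j

theorem mx_Bres (h : MxD lt f) (β : Ω) (b : Bool) (m : M) (q : Cond Ω) :
    Measurable fun u => (f u β).B b m (res (lt u) β q) :=
  mx_res h.lt β q (P := fun u q' => (f u β).B b m q') (fun q' => h.B β b m q')

theorem mx_Z0 (h : MxD lt f) (a : Ω) (m : M) (α : Ω) (p : Cond Ω) :
    Measurable fun u => Z0 (lt u) (f u) a m α p := by
  have := mx_countCond (Ω := Ω)
  unfold Z0
  exact Measurable.forall fun β => (h.lt β a).imp ((h.lt β α).not.imp (Measurable.forall fun q =>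
    (mx_Pt h.rr h.lt a q).imp ((mx_Ext h.rr q p).imp (mx_Bres h β true m q).not)))

theorem mx_Z0res (h : MxD lt f) (β : Ω) (m : M) (α : Ω) (q : Cond Ω) :
    Measurable fun u => Z0 (lt u) (f u) β m α (res (lt u) β q) :=
  mx_res h.lt β q (P := fun u q' => Z0 (lt u) (f u) β m α q') (fun q' => mx_Z0 h β m α q')

theorem mx_inE (h : MxD lt f) (β : Ω) (m : M) (q : Cond Ω) :
    Measurable fun u => inE (lt u) (f u) β m q := by
  unfold inE
  exact (mx_Bres h β false m q).or (mx_Bres h β true m q)

theorem mx_inD (h : MxD lt f) (β : Ω) (m : M) (α : Ω) (q : Cond Ω) :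
    Measurable fun u => inD (lt u) (f u) β m α q := by
  unfold inD
  exact (Measurable.exists fun γ => (h.lt γ β).and ((h.lt γ α).not.and
    (mx_Bres h γ true m q))).or (mx_Z0res h β m α q)

theorem mx_MapC (h : MxD lt f) (α : Ω) (p' : Cond ℕ) (p : Cond Ω) :
    Measurable fun u => MapC (f u) α p' p := by
  unfold MapC
  exact measurable_const.and (measurable_const.and ((Measurable.forall fun i =>
    Measurable.forall fun k => measurable_const.imp (Measurable.exists fun g => h.C α k g)).and
    (Measurable.forall fun i => Measurable.forall fun g => measurable_const.iff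
      (Measurable.exists fun k => measurable_const.and (h.C α k g)))))

theorem mx_Meets (h : MxD lt f) (a : Ω) (d : DIx M) (t : List (Idx × Bool)) :
    Measurable fun u => Meets (lt u) (f u) a d t := by
  have := mx_countCond (Ω := Ω)
  cases d with
  | E o m p' N =>
    cases o with
    | none =>
      show Measurable fun u => ∀ p β, MapC (f u) a p' p → Pt (lt u) (rr (f u)) a p → N ⊆ p.dom →
        β = a →
        Bad (rr (f u)) p N t ∨ ∃ q, Gd (lt u) (rr (f u)) a p N t q ∧ inE (lt u) (f u) β m q
      exact Measurable.forall fun p => Measurable.forall fun β => (mx_MapC h a p' p).imp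
        ((mx_Pt h.rr h.lt a p).imp (measurable_const.imp (measurable_const.imp
        ((mx_Bad h.rr p N t).or
        (Measurable.exists fun q => (mx_Gd h.rr h.lt a p N t q).and (mx_inE h β m q))))))
    | some k =>
      show Measurable fun u => ∀ p β, MapC (f u) a p' p → Pt (lt u) (rr (f u)) a p → N ⊆ p.dom →
        (f u a).C k β →
        Bad (rr (f u)) p N t ∨ ∃ q, Gd (lt u) (rr (f u)) a p N t q ∧ inE (lt u) (f u) β m q
      exact Measurable.forall fun p => Measurable.forall fun β => (mx_MapC h a p' p).imp
        ((mx_Pt h.rr h.lt a p).imp (measurable_const.imp ((h.C a k β).imp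
        ((mx_Bad h.rr p N t).or
        (Measurable.exists fun q => (mx_Gd h.rr h.lt a p N t q).and (mx_inE h β m q))))))
  | D o m l p' N =>
    cases o with
    | none =>
      show Measurable fun u => ∀ p β α, MapC (f u) a p' p → Pt (lt u) (rr (f u)) a p →
        N ⊆ p.dom → β = a → isLim (lt u) β → (f u a).C l α → lt u α β →
        Bad (rr (f u)) p N t ∨ ∃ q, Gd (lt u) (rr (f u)) a p N t q ∧ inD (lt u) (f u) β m α q
      exact Measurable.forall fun p => Measurable.forall fun β => Measurable.forall fun α =>
        (mx_MapC h a p' p).imp ((mx_Pt h.rr h.lt a p).imp (measurable_const.imp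
        (measurable_const.imp ((mx_isLim h.lt β).imp
        ((h.C a l α).imp ((h.lt α β).imp ((mx_Bad h.rr p N t).or
        (Measurable.exists fun q => (mx_Gd h.rr h.lt a p N t q).and (mx_inD h β m α q)))))))))
    | some k =>
      show Measurable fun u => ∀ p β α, MapC (f u) a p' p → Pt (lt u) (rr (f u)) a p →
        N ⊆ p.dom → (f u a).C k β → isLim (lt u) β → (f u a).C l α → lt u α β →
        Bad (rr (f u)) p N t ∨ ∃ q, Gd (lt u) (rr (f u)) a p N t q ∧ inD (lt u) (f u) β m α q
      exact Measurable.forall fun p => Measurable.forall fun β => Measurable.forall fun α =>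
        (mx_MapC h a p' p).imp ((mx_Pt h.rr h.lt a p).imp (measurable_const.imp
        ((h.C a k β).imp ((mx_isLim h.lt β).imp
        ((h.C a l α).imp ((h.lt α β).imp ((mx_Bad h.rr p N t).or
        (Measurable.exists fun q => (mx_Gd h.rr h.lt a p N t q).and (mx_inD h β m α q)))))))))
  | ne i k =>
    show Measurable fun u => ∀ g, (f u a).C k g → comp i t ≠ pre (rr (f u) g i) (comp i t).length
    exact Measurable.forall fun g => (h.C a k g).imp
      (mx_pre (r := fun u => rr (f u) g i) (h.rr g i) _ (P := fun u s => comp i t ≠ s)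
        (fun s => measurable_const))
  | len i j =>
    show Measurable fun u => j < (comp i t).length
    exact measurable_const

theorem mx_Gs (h : MxD lt f) (eD : ℕ → DIx M) (eL : ℕ → List (Idx × Bool)) (a : Ω) (k : ℕ) :
    ∀ t, Measurable fun u => Gs (lt u) (f u) eD eL a k t := by
  induction k with
  | zero => intro t; exact measurable_const
  | succ k ih =>
    intro t
    show Measurable fun u => ∃ t0, Gs (lt u) (f u) eD eL a k t0 ∧
      ((∃ n, t = t0 ++ eL n ∧ Meets (lt u) (f u) a (eD k) (t0 ++ eL n) ∧
          ∀ n', n' < n → ¬ Meets (lt u) (f u) a (eD k) (t0 ++ eL n')) ∨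
       (t = t0 ∧ ∀ n, ¬ Meets (lt u) (f u) a (eD k) (t0 ++ eL n)))
    exact Measurable.exists fun t0 => (ih t0).and ((Measurable.exists fun n =>
      measurable_const.and ((mx_Meets h a _ _).and (Measurable.forall fun n' =>
      measurable_const.imp (mx_Meets h a _ _).not))).or (measurable_const.and
      (Measurable.forall fun n => (mx_Meets h a _ _).not)))

theorem mx_Rtab (h : MxD lt f) (eD : ℕ → DIx M) (eL : ℕ → List (Idx × Bool)) (a : Ω)
    (i : Idx) (j : ℕ) : Measurable fun u => Rtab (lt u) (f u) eD eL a i j = true := by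
  have : ∀ u, (Rtab (lt u) (f u) eD eL a i j = true) ↔
      ∃ k t, Gs (lt u) (f u) eD eL a k t ∧ (comp i t)[j]? = some true := by
    intro u
    simp [Rtab]
  simp only [this]
  exact Measurable.exists fun k => Measurable.exists fun t => (mx_Gs h eD eL a k t).and
    measurable_const

theorem mx_Tgt (L : LocOp M) (h : MxD lt f) (a : Ω) (d : XIx M) (q : Cond Ω) :
    Measurable fun u => Tgt L (lt u) (f u) a d q := by
  have := mx_countCond (Ω := Ω)
  cases d with
  | E l m =>
    show Measurable fun u => ∀ β, (f u a).C l β → inE (lt u) (f u) β m q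
    exact Measurable.forall fun β => (h.C a l β).imp (mx_inE h β m q)
  | D l m l' =>
    show Measurable fun u => ∀ β α, (f u a).C l β → (f u a).C l' α → isLim (lt u) β →
      lt u α β → inD (lt u) (f u) β m α q
    exact Measurable.forall fun β => Measurable.forall fun α => (h.C a l β).imp
      ((h.C a l' α).imp ((mx_isLim h.lt β).imp ((h.lt α β).imp (mx_inD h β m α q))))
  | dm i => exact measurable_const
  | prm i l =>
    show Measurable fun u => ∀ g, (f u a).C l g → (i, g) ∈ q.F
    exact Measurable.forall fun g => (h.C a l g).imp measurable_const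
  | dg e q0 q1 =>
    show Measurable fun u => q0 < q1 → ∃ l, q0 ≤ l ∧ l < q1 ∧ Idx.root l ∈ q.dom ∧
      ((∃ γ b, lt u γ a ∧ (f u γ).B true (L.hc q0 e (num l)) (res (lt u) γ q) ∧
          (f u γ).B b (L.oc q0 e (num l)) (res (lt u) γ q) ∧ (Idx.root l ∈ q.tr ↔ b = false)) ∨
       ∀ q', Pt (lt u) (rr (f u)) a q' → Ext (rr (f u)) q' q → ∀ γ, lt u γ a →
          ¬ (f u γ).B true (L.hc q0 e (num l)) (res (lt u) γ q'))
    exact measurable_const.imp (Measurable.exists fun l => measurable_const.and
      (measurable_const.and (measurable_const.and ((Measurable.exists fun γ =>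
      Measurable.exists fun b => (h.lt γ a).and ((mx_Bres h γ _ _ q).and
      ((mx_Bres h γ _ _ q).and measurable_const))).or (Measurable.forall fun q' =>
      (mx_Pt h.rr h.lt a q').imp ((mx_Ext h.rr q' q).imp (Measurable.forall fun γ =>
      (h.lt γ a).imp (mx_Bres h γ _ _ q').not)))))))

theorem mx_Good (L : LocOp M) (h : MxD lt f) (a : Ω) (d : XIx M) (p q : Cond Ω) :
    Measurable fun u => Good L (lt u) (f u) a d p q := by
  unfold Good
  exact (mx_Pt h.rr h.lt a q).and ((mx_Ext h.rr q p).and (mx_Tgt L h a d q))

theorem mx_Xs (L : LocOp M) (en2 : Enum2 M) (h : MxD lt f) (a : Ω) (k : ℕ) :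
    ∀ q, Measurable fun u => Xs L en2 (lt u) (f u) a k q := by
  have := mx_countCond (Ω := Ω)
  induction k with
  | zero => intro q; exact measurable_const
  | succ k ih =>
    intro q
    show Measurable fun u => ∃ p, Xs L en2 (lt u) (f u) a k p ∧
      ((∃ n, MapC (f u) a (en2.eC n) q ∧ Good L (lt u) (f u) a (en2.eX k) p q ∧
          ∀ n', n' < n → ∀ q', MapC (f u) a (en2.eC n') q' →
            ¬ Good L (lt u) (f u) a (en2.eX k) p q') ∨
       (q = p ∧ ∀ n q', MapC (f u) a (en2.eC n) q' → ¬ Good L (lt u) (f u) a (en2.eX k) p q'))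
    exact Measurable.exists fun p => (ih p).and ((Measurable.exists fun n =>
      (mx_MapC h a _ q).and ((mx_Good L h a _ p q).and (Measurable.forall fun n' =>
      measurable_const.imp (Measurable.forall fun q' => (mx_MapC h a _ q').imp
      (mx_Good L h a _ p q').not)))).or (measurable_const.and (Measurable.forall fun n =>
      Measurable.forall fun q' => (mx_MapC h a _ q').imp (mx_Good L h a _ p q').not)))

theorem mx_X0 (L : LocOp M) (en2 : Enum2 M) (h : MxD lt f) (a : Ω) (i : Idx) :
    Measurable fun u => X0 L en2 (lt u) (f u) a i = true := by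
  have := mx_countCond (Ω := Ω)
  have : ∀ u, (X0 L en2 (lt u) (f u) a i = true) ↔
      ∃ k p, Xs L en2 (lt u) (f u) a k p ∧ i ∈ p.tr := by
    intro u
    simp [X0]
  simp only [this]
  exact Measurable.exists fun k => Measurable.exists fun p => (mx_Xs L en2 h a k p).and
    measurable_const

end f

end mxgen

section mxcode

variable {M : Type}

/-- The data of codes and tables are measurable. -/
theorem mx_code : MxD (U := R2 × (ℕ × ℕ → Bool) × (JR M → Bool)) (Ω := ℕ) (M := M)
    (fun u => ltw u.2.1) (fun u => dat u.2.2) := by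
  have h1 : ∀ p : ℕ × ℕ, Measurable fun u : R2 × (ℕ × ℕ → Bool) × (JR M → Bool) => u.2.1 p :=
    fun p => (measurable_pi_apply p).comp (measurable_fst.comp measurable_snd)
  have h2 : ∀ p : JR M, Measurable fun u : R2 × (ℕ × ℕ → Bool) × (JR M → Bool) => u.2.2 p :=
    fun p => (measurable_pi_apply p).comp (measurable_snd.comp measurable_snd)
  exact
    { lt := fun a b => (mx_bool (h1 (a, b)) (· = true)).and measurable_const
      B := fun a b m p => mx_bool (h2 (.B a b m p)) (· = true)
      C := fun a k g => mx_bool (h2 (.C a k g)) (· = true)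
      r := fun a i j => h2 (.R a i j) }

theorem mx_X0code [Countable M] (L : LocOp M) (en2 : Enum2 M) (a : ℕ) (i : Idx) :
    MeasurableSet {u : R2 × (ℕ × ℕ → Bool) × (JR M → Bool) |
      X0 L en2 (ltw u.2.1) (dat u.2.2) a i = true} :=
  measurableSet_setOfPred.2 (mx_X0 L en2 mx_code a i)

theorem mx_rcode [Countable M] (L : LocOp M) (en : Enum M)
    (hB : ∀ (a : ℕ) (b : Bool) (m : M) (p : Cond ℕ),
      MeasurableSet {u : R2 × (ℕ × ℕ → Bool) × (JR M → Bool) |
        (Full L en u.1 (ltw u.2.1) (dat u.2.2) a).B b m p})
    (hC : ∀ (a k g : ℕ), MeasurableSet {u : R2 × (ℕ × ℕ → Bool) × (JR M → Bool) |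
        (Full L en u.1 (ltw u.2.1) (dat u.2.2) a).C k g}) (a : ℕ) (i : Idx) (j : ℕ) :
    MeasurableSet {u : R2 × (ℕ × ℕ → Bool) × (JR M → Bool) |
      (Full L en u.1 (ltw u.2.1) (dat u.2.2) a).r i j = true} := by
  have hD : MxD (U := R2 × (ℕ × ℕ → Bool) × (JR M → Bool)) (Ω := ℕ) (M := M)
      (fun u => ltw u.2.1) (fun u => @Function.update ℕ (fun _ => Dat M ℕ) (Classical.decEq ℕ)
        (dat u.2.2) a ⟨Btab L u.1 (ltw u.2.1) (dat u.2.2) a,
          Ctab (ltw u.2.1) (dat u.2.2) en.eT a, fun _ _ => false⟩) := by
    have h0 := mx_code (M := M)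
    have e1 : ∀ (b : ℕ) (u : R2 × (ℕ × ℕ → Bool) × (JR M → Bool)), b ≠ a →
        @Function.update ℕ (fun _ => Dat M ℕ) (Classical.decEq ℕ)
        (dat u.2.2) a ⟨Btab L u.1 (ltw u.2.1) (dat u.2.2) a,
          Ctab (ltw u.2.1) (dat u.2.2) en.eT a, fun _ _ => false⟩ b = dat u.2.2 b := by
      intro b u hb
      simp [Function.update, hb]
    have e2 : ∀ (u : R2 × (ℕ × ℕ → Bool) × (JR M → Bool)),
        @Function.update ℕ (fun _ => Dat M ℕ) (Classical.decEq ℕ)
        (dat u.2.2) a ⟨Btab L u.1 (ltw u.2.1) (dat u.2.2) a,
          Ctab (ltw u.2.1) (dat u.2.2) en.eT a, fun _ _ => false⟩ a =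
        ⟨Btab L u.1 (ltw u.2.1) (dat u.2.2) a,
          Ctab (ltw u.2.1) (dat u.2.2) en.eT a, fun _ _ => false⟩ := by
      intro u
      simp [Function.update]
    refine ⟨h0.lt, ?_, ?_, ?_⟩
    · intro b' b m p
      by_cases hb : b' = a
      · subst hb
        simp only [e2]
        exact measurableSet_setOfPred.1 (hB b' b m p)
      · simp only [e1 b' _ hb]
        exact h0.B b' b m p
    · intro b' k g
      by_cases hb : b' = a
      · subst hb
        simp only [e2]
        exact measurableSet_setOfPred.1 (hC b' k g)
      · simp only [e1 b' _ hb]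
        exact h0.C b' k g
    · intro b' i j
      by_cases hb : b' = a
      · subst hb
        simp only [e2]
        exact measurable_const
      · simp only [e1 b' _ hb]
        exact h0.r b' i j
  exact measurableSet_setOfPred.2 (mx_Rtab hD en.eD en.eL a i j)

end mxcode

end Pool.Agent.Helper78.ITTM
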