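import Pool.Agent.Helper78.ITTM.MeasB
import Pool.Agent.Helper78.ITTM.MeasC
import Pool.Agent.Helper78.ITTM.MeasGen

set_option autoImplicit false

/-! Part C, module C7c: measurability of the generic real and of `X0`. -/

namespace Pool.Agent.Helper78.ITTM

section meas
variable {M : Type} [Countable M] (L : LocOp M) (en : Enum M) (en2 : Enum2 M)

theorem meas_r (a : ℕ) (i : Idx) (j : ℕ) :
    MeasurableSet {u : CWZ M | (Full L en u.1 (ltw u.2.1) (dat u.2.2) a).r i j = true} :=
  mx_rcode L en (fun a b m p => meas_B L en a b m p) (fun a k g => meas_C L en a k g) a i j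

theorem meas_X0 (a : ℕ) (i : Idx) :
    MeasurableSet {u : CWZ M | X0 L en2 (ltw u.2.1) (dat u.2.2) a i = true} :=
  mx_X0code L en2 a i

end meas

end Pool.Agent.Helper78.ITTM
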