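import Pool.Agent.Helper78.ITTM.MeasB
import Pool.Agent.Helper78.ITTM.MeasC
import Pool.Agent.Helper78.ITTM.MeasX
import Pool.Agent.Helper78.ITTM.CompClosure
import Pool.Agent.Helper78.ITTM.CompAcc
import Pool.Agent.Helper78.ITTM.Locality

/-! The recursion along a code as a Borel machine. -/

namespace Pool.Agent.Helper78.ITTM

open Ordinal

section tab
variable {M : Type} (L : LocOp M) (en : Enum M)

/-- All predecessors of `a` are done. -/
def ctRdy (w : ℕ × ℕ → Bool) (z : JR M → Bool) (a : ℕ) : Prop :=
  w (a, a) = true ∧ ∀ b, ltw w b a → z (.dn b) = true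

/-- The element is added now. -/
def ctNow (w : ℕ × ℕ → Bool) (z : JR M → Bool) (a : ℕ) : Prop :=
  z (.dn a) = false ∧ ctRdy w z a

/-- The step of the recursion, as a property. -/
def ctP (c : R2) (w : ℕ × ℕ → Bool) (z : JR M → Bool) : JR M → Prop
  | .dn a => z (.dn a) = true ∨ ctRdy w z a
  | .B a b m p => z (.B a b m p) = true ∨ (ctNow w z a ∧
      (Full L en c (ltw w) (dat z) a).B b m p)
  | .C a k g => z (.C a k g) = true ∨ (ctNow w z a ∧ (Full L en c (ltw w) (dat z) a).C k g)
  | .R a i j => z (.R a i j) = true ∨ (ctNow w z a ∧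
      (Full L en c (ltw w) (dat z) a).r i j = true)

/-- The step of the recursion. -/
noncomputable def ctS (c : R2) (w : ℕ × ℕ → Bool) (z : JR M → Bool) (j : JR M) : Bool :=
  @decide (ctP L en c w z j) (Classical.propDecidable _)

variable {L en} {c : R2} {w : ℕ × ℕ → Bool}

theorem ctS_iff {z : JR M → Bool} {j : JR M} : ctS L en c w z j = true ↔ ctP L en c w z j := by
  unfold ctS
  exact @decide_eq_true_iff _ (Classical.propDecidable _)

theorem ctS_inc {z : JR M → Bool} {j : JR M} (h : z j = true) : ctS L en c w z j = true := by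
  rw [ctS_iff]
  cases j <;> exact Or.inl h

/-- The run. -/
noncomputable def ctZ (L : LocOp M) (en : Enum M) (c : R2) (w : ℕ × ℕ → Bool)
    (τ : Ordinal.{0}) : JR M → Bool := iter (ctS L en c w) (fun _ => false) τ

theorem ctZ_mono {τ τ' : Ordinal.{0}} (h : τ ≤ τ') {j : JR M} (hj : ctZ L en c w τ j = true) :
    ctZ L en c w τ' j = true :=
  iter_mono_of (fun _ _ h => ctS_inc h) h hj

theorem ctZ_lim {τ : Ordinal.{0}} (h : Order.IsSuccLimit τ) {j : JR M} :
    ctZ L en c w τ j = true ↔ ∃ σ, σ < τ ∧ ctZ L en c w σ j = true := by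
  constructor
  · intro hj
    have : ctZ L en c w τ j = lsup τ (fun σ _ => ctZ L en c w σ j) := by
      unfold ctZ
      rw [iter_lim _ _ h]
    rw [this, lsup_eq_true] at hj
    obtain ⟨σ, hσ, -, h1⟩ := hj 0 h.bot_lt
    exact ⟨σ, hσ, h1⟩
  · rintro ⟨σ, hσ, h1⟩
    exact ctZ_mono hσ.le h1

theorem ctZ_succ (τ : Ordinal.{0}) : ctZ L en c w (τ + 1) = ctS L en c w (ctZ L en c w τ) := by
  unfold ctZ
  rw [iter_succ]

theorem ctZ_zero : ctZ L en c w 0 = fun _ => false := by
  unfold ctZ
  rw [iter_zero]

/-- (i) -/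
theorem ct_wfp (hw : LO w) {τ : Ordinal.{0}} : ∀ {a : ℕ}, ctZ L en c w τ (.dn a) = true →
    wfp w a := by
  induction τ using Ordinal.limitRecOn with
  | zero =>
    intro a h
    rw [ctZ_zero] at h
    cases h
  | add_one τ ih =>
    intro a h
    rw [ctZ_succ, ctS_iff] at h
    rcases h with h | h
    · exact ih h
    · exact ⟨h.1, Acc.intro a fun b hb => (ih (h.2 b hb)).2⟩
  | limit τ hτ ih =>
    intro a h
    rw [ctZ_lim hτ] at h
    obtain ⟨σ, hσ, h⟩ := h
    exact ih σ hσ h

/-- the index of a data cell -/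
def ctIx : JR M → ℕ
  | .dn a => a
  | .B a _ _ _ => a
  | .C a _ _ => a
  | .R a _ _ => a

/-- (iii) data cells are off as long as the element is not done -/
theorem ct_off {τ : Ordinal.{0}} : ∀ {j : JR M}, ctZ L en c w τ (.dn (ctIx j)) = false →
    ctZ L en c w τ j = false := by
  induction τ using Ordinal.limitRecOn with
  | zero =>
    intro j _
    rw [ctZ_zero]
  | add_one τ ih =>
    intro j h
    have h1 : ctZ L en c w τ (.dn (ctIx j)) = false := by
      rw [← Bool.not_eq_true]
      intro h2
      have := ctZ_mono (L := L) (en := en) (c := c) (w := w) (le_self_add (b := 1)) h2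
      rw [h] at this
      cases this
    have h2 := ih h1
    have h3 : ¬ ctRdy w (ctZ L en c w τ) (ctIx j) := by
      intro h3
      rw [ctZ_succ, ← Bool.not_eq_true, ctS_iff] at h
      exact h (Or.inr h3)
    rw [ctZ_succ, ← Bool.not_eq_true, ctS_iff]
    rw [← Bool.not_eq_true] at h2
    cases j with
    | dn a =>
      rintro (h4 | h4)
      · exact h2 h4
      · exact h3 h4
    | B a b m p =>
      rintro (h4 | h4)
      · exact h2 h4
      · exact h3 h4.1.2
    | C a k g =>
      rintro (h4 | h4)
      · exact h2 h4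
      · exact h3 h4.1.2
    | R a i j =>
      rintro (h4 | h4)
      · exact h2 h4
      · exact h3 h4.1.2
  | limit τ hτ ih =>
    intro j h
    rw [← Bool.not_eq_true, ctZ_lim hτ] at h ⊢
    rintro ⟨σ, hσ, h1⟩
    apply h
    refine ⟨σ, hσ, ?_⟩
    by_contra h2
    rw [Bool.not_eq_true] at h2
    rw [ih σ hσ h2] at h1
    cases h1

/-- (iv) data cells do not change once the element is done -/
theorem ct_keep {τ τ' : Ordinal.{0}} (hle : τ ≤ τ') {j : JR M}
    (h : ctZ L en c w τ (.dn (ctIx j)) = true) :
    ctZ L en c w τ' j = ctZ L en c w τ j := by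
  obtain ⟨d, rfl⟩ : ∃ d, τ' = τ + d := ⟨τ' - τ, (Ordinal.add_sub_cancel_of_le hle).symm⟩
  have hadd : ∀ e, iter (ctS L en c w) (ctZ L en c w τ) e = ctZ L en c w (τ + e) := by
    intro e
    unfold ctZ
    rw [iter_add]
  rw [← hadd]
  refine iter_keep j (ctZ L en c w τ j) d rfl ?_ d le_rfl
  intro e _ he
  rw [hadd] at he ⊢
  have hd := ctZ_mono (L := L) (en := en) (c := c) (w := w) (le_self_add (b := e)) h
  apply run_bool_ext
  rw [ctS_iff, ← he]
  cases j with
  | dn a => exact ⟨fun _ => hd, fun h => Or.inl h⟩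
  | B a b m p =>
    refine ⟨?_, fun h => Or.inl h⟩
    rintro (h1 | h1)
    · exact h1
    · exfalso
      have := h1.1.1
      rw [show ctZ L en c w (τ + e) (.dn a) = true from hd] at this
      cases this
  | C a k g =>
    refine ⟨?_, fun h => Or.inl h⟩
    rintro (h1 | h1)
    · exact h1
    · exfalso
      have := h1.1.1
      rw [show ctZ L en c w (τ + e) (.dn a) = true from hd] at this
      cases this
  | R a i j =>
    refine ⟨?_, fun h => Or.inl h⟩
    rintro (h1 | h1)
    · exact h1
    · exfalso
      have := h1.1.1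
      rw [show ctZ L en c w (τ + e) (.dn a) = true from hd] at this
      cases this

theorem ct_dat {z z' : JR M → Bool} {a : ℕ} (hB : ∀ b m p, z (.B a b m p) = z' (.B a b m p))
    (hC : ∀ k g, z (.C a k g) = z' (.C a k g)) (hR : ∀ i j, z (.R a i j) = z' (.R a i j)) :
    dat z a = dat z' a := by
  unfold dat
  simp only [hB, hC, hR]

theorem ct_dat_keep {τ τ' : Ordinal.{0}} (hle : τ ≤ τ') {a : ℕ}
    (h : ctZ L en c w τ (.dn a) = true) :
    dat (ctZ L en c w τ') a = dat (ctZ L en c w τ) a :=
  ct_dat (fun b m p => ct_keep hle (j := .B a b m p) h)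
    (fun k g => ct_keep hle (j := .C a k g) h) (fun i j => ct_keep hle (j := .R a i j) h)

theorem ct_ltw_trans (hw : LO w) (x y z : ℕ) (h : ltw w x y) (h' : ltw w y z) : ltw w x z := by
  obtain ⟨h1, h2⟩ := h
  obtain ⟨h3, h4⟩ := h'
  refine ⟨hw.2.2.1 _ _ _ h1 h3, ?_⟩
  rintro rfl
  exact h2 (hw.2.1 _ _ h1 h3)

theorem ct_ltw_irrefl (x : ℕ) : ¬ ltw w x x := fun h => h.2 rfl

/-- the invariant -/
def ctInv (L : LocOp M) (en : Enum M) (c : R2) (w : ℕ × ℕ → Bool) (z : JR M → Bool) (a : ℕ) :
    Prop :=
  (∀ b, ltw w b a → z (.dn b) = true) ∧ dat z a = Full L en c (ltw w) (dat z) a ∧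
    ∀ k g, (dat z a).C k g → ltw w g a

theorem ct_inv (hw : LO w) {τ : Ordinal.{0}} : ∀ {a : ℕ}, ctZ L en c w τ (.dn a) = true →
    ctInv L en c w (ctZ L en c w τ) a := by
  -- persistence
  have hper : ∀ {σ τ : Ordinal.{0}}, σ ≤ τ → (∀ {a : ℕ}, ctZ L en c w σ (.dn a) = true →
      ctInv L en c w (ctZ L en c w σ) a) → ∀ {a : ℕ}, ctZ L en c w σ (.dn a) = true →
      ctInv L en c w (ctZ L en c w τ) a := by
    intro σ τ hστ hI a ha
    obtain ⟨h1, h2, h3⟩ := hI ha
    refine ⟨fun b hb => ctZ_mono hστ (h1 b hb), ?_, ?_⟩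
    · rw [ct_dat_keep hστ ha, h2]
      refine full_congr L en c (ct_ltw_trans hw) ct_ltw_irrefl ?_ ?_
      · intro b hb
        exact (ct_dat_keep hστ (h1 b hb)).symm
      · intro b hb
        exact (hI (h1 b hb)).2.2
    · rw [ct_dat_keep hστ ha]
      exact h3
  induction τ using Ordinal.limitRecOn with
  | zero =>
    intro a h
    rw [ctZ_zero] at h
    cases h
  | add_one τ ih =>
    intro a h
    by_cases ha : ctZ L en c w τ (.dn a) = true
    · exact hper le_self_add ih ha
    · have ha' : ctZ L en c w τ (.dn a) = false := by simpa using ha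
      have hr : ctRdy w (ctZ L en c w τ) a := by
        rw [ctZ_succ, ctS_iff] at h
        rcases h with h | h
        · exact absurd h ha
        · exact h
      have hnow : ctNow w (ctZ L en c w τ) a := ⟨ha', hr⟩
      have hd : dat (ctZ L en c w (τ + 1)) a = Full L en c (ltw w) (dat (ctZ L en c w τ)) a := by
        have hB : ∀ b m p, (dat (ctZ L en c w (τ + 1)) a).B b m p ↔
            (Full L en c (ltw w) (dat (ctZ L en c w τ)) a).B b m p := by
          intro b m p
          show ctZ L en c w (τ + 1) (.B a b m p) = true ↔ _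
          rw [ctZ_succ, ctS_iff]
          have h0 : ctZ L en c w τ (.B a b m p) = false := ct_off (j := .B a b m p) ha'
          constructor
          · rintro (h1 | h1)
            · rw [h0] at h1
              cases h1
            · exact h1.2
          · exact fun h1 => Or.inr ⟨hnow, h1⟩
        have hC : ∀ k g, (dat (ctZ L en c w (τ + 1)) a).C k g ↔
            (Full L en c (ltw w) (dat (ctZ L en c w τ)) a).C k g := by
          intro k g
          show ctZ L en c w (τ + 1) (.C a k g) = true ↔ _
          rw [ctZ_succ, ctS_iff]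
          have h0 : ctZ L en c w τ (.C a k g) = false := ct_off (j := .C a k g) ha'
          constructor
          · rintro (h1 | h1)
            · rw [h0] at h1
              cases h1
            · exact h1.2
          · exact fun h1 => Or.inr ⟨hnow, h1⟩
        have hR : ∀ i j, (dat (ctZ L en c w (τ + 1)) a).r i j =
            (Full L en c (ltw w) (dat (ctZ L en c w τ)) a).r i j := by
          intro i j
          apply run_bool_ext
          show ctZ L en c w (τ + 1) (.R a i j) = true ↔ _
          rw [ctZ_succ, ctS_iff]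
          have h0 : ctZ L en c w τ (.R a i j) = false := ct_off (j := .R a i j) ha'
          constructor
          · rintro (h1 | h1)
            · rw [h0] at h1
              cases h1
            · exact h1.2
          · exact fun h1 => Or.inr ⟨hnow, h1⟩
        generalize dat (ctZ L en c w (τ + 1)) a = D at hB hC hR ⊢
        generalize Full L en c (ltw w) (dat (ctZ L en c w τ)) a = D' at hB hC hR ⊢
        cases D with
        | mk B C r =>
          cases D' with
          | mk B' C' r' =>
            have e1 : B = B' := by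
              funext b m p
              exact propext (hB b m p)
            have e2 : C = C' := by
              funext k g
              exact propext (hC k g)
            have e3 : r = r' := by
              funext i j
              exact hR i j
            rw [e1, e2, e3]
      refine ⟨fun b hb => ctZ_mono le_self_add (hr.2 b hb), ?_, ?_⟩
      · rw [hd]
        refine full_congr L en c (ct_ltw_trans hw) ct_ltw_irrefl ?_ ?_
        · intro b hb
          exact (ct_dat_keep le_self_add (hr.2 b hb)).symm
        · intro b hb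
          exact (ih (hr.2 b hb)).2.2
      · intro k g hg
        rw [hd] at hg
        have hg' : Ctab (ltw w) (dat (ctZ L en c w τ)) en.eT a k g := hg
        exact Loc.ctab_lt (ct_ltw_trans hw) (fun b hb => (ih (hr.2 b hb)).2.2) hg'
  | limit τ hτ ih =>
    intro a h
    rw [ctZ_lim hτ] at h
    obtain ⟨σ, hσ, h⟩ := h
    exact hper hσ.le (ih σ hσ) h

/-- The run stops exactly at the table. -/
theorem ct_tab (hw : LO w) (v : JR M → Bool) :
    (∃ τ : Ordinal.{0}, ctS L en c w (ctZ L en c w τ) = ctZ L en c w τ ∧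
      ∀ j, ctZ L en c w τ j = v j) ↔ Tab L en c w v := by
  have hdone : ∀ τ : Ordinal.{0}, ctS L en c w (ctZ L en c w τ) = ctZ L en c w τ →
      ∀ a, ctZ L en c w τ (.dn a) = true ↔ wfp w a := by
    intro τ hτ a
    refine ⟨ct_wfp hw, ?_⟩
    rintro ⟨h1, h2⟩
    induction h2 with
    | intro a _ ih =>
      rw [← hτ, ctS_iff]
      exact Or.inr ⟨h1, fun b hb => ih b hb (hw.1 _ _ hb.1).1⟩
  have hTab : ∀ τ : Ordinal.{0}, ctS L en c w (ctZ L en c w τ) = ctZ L en c w τ →
      Tab L en c w (ctZ L en c w τ) := by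
    intro τ hτ
    refine ⟨hdone τ hτ, ?_, ?_⟩
    · intro a ha
      exact (ct_inv hw ((hdone τ hτ a).2 ha)).2.1
    · intro a ha
      have h0 : ctZ L en c w τ (.dn a) = false := by
        rw [← Bool.not_eq_true, hdone τ hτ]
        exact ha
      exact ⟨fun b m p => ct_off (j := .B a b m p) h0, fun k g => ct_off (j := .C a k g) h0,
        fun i j => ct_off (j := .R a i j) h0⟩
  constructor
  · rintro ⟨τ, h1, h2⟩
    have : ctZ L en c w τ = v := funext h2
    rw [← this]
    exact hTab τ h1
  · intro hv
    obtain ⟨τ, hτ⟩ : ∃ τ : Ordinal.{0}, ctS L en c w (ctZ L en c w τ) = ctZ L en c w τ :=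
      iter_exists_fixed (fun _ _ h => ctS_inc h)
    refine ⟨τ, hτ, ?_⟩
    have hT := hTab τ hτ
    -- data agree on the well-founded part
    have hag : ∀ a, wfp w a → dat (ctZ L en c w τ) a = dat v a := by
      rintro a ⟨h1, h2⟩
      induction h2 with
      | intro a h3 ih =>
        have hwa : wfp w a := ⟨h1, Acc.intro a h3⟩
        have hb : ∀ b, ltw w b a → wfp w b := fun b hb => ⟨(hw.1 _ _ hb.1).1, h3 b hb⟩
        rw [hT.2.1 a hwa, hv.2.1 a hwa]
        refine full_congr L en c (ct_ltw_trans hw) ct_ltw_irrefl ?_ ?_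
        · intro b hb'
          exact ih b hb' (hb b hb').1
        · intro b hb'
          exact (ct_inv hw ((hdone τ hτ b).2 (hb b hb'))).2.2
    intro j
    cases j with
    | dn a =>
      apply run_bool_ext
      rw [hT.1, hv.1]
    | B a b m p =>
      by_cases ha : wfp w a
      · have := congrArg Dat.B (hag a ha)
        have h1 : (dat (ctZ L en c w τ) a).B b m p ↔ (dat v a).B b m p := by rw [this]
        exact run_bool_ext h1
      · rw [(hT.2.2 a ha).1, (hv.2.2 a ha).1]
    | C a k g =>
      by_cases ha : wfp w a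
      · have := congrArg Dat.C (hag a ha)
        have h1 : (dat (ctZ L en c w τ) a).C k g ↔ (dat v a).C k g := by rw [this]
        exact run_bool_ext h1
      · rw [(hT.2.2 a ha).2.1, (hv.2.2 a ha).2.1]
    | R a i j =>
      by_cases ha : wfp w a
      · have := congrArg Dat.r (hag a ha)
        exact congrFun (congrFun this i) j
      · rw [(hT.2.2 a ha).2.2, (hv.2.2 a ha).2.2]

end tab

/-! ### Measurability -/

section meas

theorem ct_jrCountable {M : Type} [Countable M] : Countable (JR M) := by
  classical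
  haveI : Countable (Cond ℕ) := by
    have : Function.Injective (fun p : Cond ℕ => (p.dom, p.tr, p.F)) := by
      rintro ⟨a, b, d⟩ ⟨a', b', d'⟩ h
      simp only [Prod.mk.injEq] at h
      obtain ⟨rfl, rfl, rfl⟩ := h
      rfl
    exact this.countable
  have : Function.Injective (fun j : JR M => match j with
    | .dn a => (Sum.inl (Sum.inl a) : (ℕ ⊕ (ℕ × Bool × M × Cond ℕ)) ⊕ ((ℕ × ℕ × ℕ) ⊕ (ℕ × Idx × ℕ)))
    | .B a b m p => Sum.inl (Sum.inr (a, b, m, p))
    | .C a k g => Sum.inr (Sum.inl (a, k, g))
    | .R a i j => Sum.inr (Sum.inr (a, i, j))) := by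
    intro x y h
    cases x <;> cases y <;> simp_all
  exact this.countable

variable {M : Type} [Countable M] (L : LocOp M) (en : Enum M)

theorem ct_meas_dec {Ω : Type*} [MeasurableSpace Ω] {P : Ω → Prop} (h : MeasurableSet {x | P x}) :
    Measurable (fun x => @decide (P x) (Classical.propDecidable _)) := by
  classical
  have : (fun x => @decide (P x) (Classical.propDecidable _)) =
      fun x => if x ∈ {x | P x} then true else false := by
    funext x
    by_cases hx : P x
    · simp [hx]
    · simp [hx]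
  rw [this]
  exact Measurable.ite h measurable_const measurable_const

theorem ct_meas : Measurable (fun p : ((ℕ ⊕ (ℕ × ℕ)) → Bool) × (JR M → Bool) =>
    ctS L en (fun n => p.1 (Sum.inl n)) (fun q => p.1 (Sum.inr q)) p.2) := by
  haveI := ct_jrCountable (M := M)
  have hz : ∀ j : JR M, MeasurableSet {p : ((ℕ ⊕ (ℕ × ℕ)) → Bool) × (JR M → Bool) |
      p.2 j = true} := by
    intro j
    have h0 : Measurable (fun p : ((ℕ ⊕ (ℕ × ℕ)) → Bool) × (JR M → Bool) => p.2 j) :=
      (measurable_pi_apply j).comp measurable_snd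
    exact h0 (measurableSet_singleton true)
  have hw : ∀ q : ℕ × ℕ, MeasurableSet {p : ((ℕ ⊕ (ℕ × ℕ)) → Bool) × (JR M → Bool) |
      p.1 (Sum.inr q) = true} := by
    intro q
    have h0 : Measurable (fun p : ((ℕ ⊕ (ℕ × ℕ)) → Bool) × (JR M → Bool) => p.1 (Sum.inr q)) :=
      (measurable_pi_apply (Sum.inr q)).comp measurable_fst
    exact h0 (measurableSet_singleton true)
  have hrdy : ∀ a : ℕ, MeasurableSet {p : ((ℕ ⊕ (ℕ × ℕ)) → Bool) × (JR M → Bool) |
      ctRdy (fun q => p.1 (Sum.inr q)) p.2 a} := by
    intro a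
    have : {p : ((ℕ ⊕ (ℕ × ℕ)) → Bool) × (JR M → Bool) |
        ctRdy (fun q => p.1 (Sum.inr q)) p.2 a} =
        {p | p.1 (Sum.inr (a, a)) = true} ∩
        ⋂ b, ({p | p.1 (Sum.inr (b, a)) = true} ∩ {_p | b ≠ a})ᶜ ∪ {p | p.2 (.dn b) = true} := by
      ext p
      simp only [ctRdy, ltw, Set.mem_setOf_eq, Set.mem_inter_iff, Set.mem_iInter, Set.mem_union,
        Set.mem_compl_iff]
      refine and_congr_right fun _ => forall_congr' fun b => ?_
      tauto
    rw [this]
    refine (hw _).inter (MeasurableSet.iInter fun b => MeasurableSet.union ?_ (hz _))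
    exact MeasurableSet.compl ((hw _).inter (MeasurableSet.const _))
  have hnow : ∀ a : ℕ, MeasurableSet {p : ((ℕ ⊕ (ℕ × ℕ)) → Bool) × (JR M → Bool) |
      ctNow (fun q => p.1 (Sum.inr q)) p.2 a} := by
    intro a
    have : {p : ((ℕ ⊕ (ℕ × ℕ)) → Bool) × (JR M → Bool) |
        ctNow (fun q => p.1 (Sum.inr q)) p.2 a} =
        {p | p.2 (.dn a) = true}ᶜ ∩ {p | ctRdy (fun q => p.1 (Sum.inr q)) p.2 a} := by
      ext p
      simp [ctNow]
    rw [this]
    exact (hz _).compl.inter (hrdy a)
  have hpr : Measurable (fun p : ((ℕ ⊕ (ℕ × ℕ)) → Bool) × (JR M → Bool) =>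
      (((fun n => p.1 (Sum.inl n)), (fun q => p.1 (Sum.inr q)), p.2) : CWZ M)) := by
    refine Measurable.prodMk ?_ (Measurable.prodMk ?_ measurable_snd)
    · rw [measurable_pi_iff]
      exact fun n => (measurable_pi_apply (Sum.inl n)).comp measurable_fst
    · rw [measurable_pi_iff]
      exact fun q => (measurable_pi_apply (Sum.inr q)).comp measurable_fst
  rw [measurable_pi_iff]
  intro j
  refine ct_meas_dec ?_
  cases j with
  | dn a => exact (hz _).union (hrdy a)
  | B a b m p => exact (hz _).union ((hnow a).inter (hpr (meas_B L en a b m p)))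
  | C a k g => exact (hz _).union ((hnow a).inter (hpr (meas_C L en a k g)))
  | R a i j => exact (hz _).union ((hnow a).inter (hpr (meas_r L en a i j)))

theorem ct_meas_LO {I : Type} (F : (I → Bool) → (ℕ × ℕ → Bool)) (hF : Measurable F) :
    MeasurableSet {u : I → Bool | LO (F u)} := by
  have hw : ∀ q : ℕ × ℕ, MeasurableSet {u : I → Bool | F u q = true} := by
    intro q
    have h0 : Measurable (fun u : I → Bool => F u q) := (measurable_pi_apply q).comp hF
    exact h0 (measurableSet_singleton true)
  have himp : ∀ {s t : Set (I → Bool)}, MeasurableSet s → MeasurableSet t →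
      MeasurableSet {u | u ∈ s → u ∈ t} := by
    intro s t hs ht
    have : {u | u ∈ s → u ∈ t} = sᶜ ∪ t := by
      ext u
      simp only [Set.mem_setOf_eq, Set.mem_union, Set.mem_compl_iff]
      tauto
    rw [this]
    exact hs.compl.union ht
  have e1 : MeasurableSet {u : I → Bool | ∀ a b, F u (a, b) = true →
      F u (a, a) = true ∧ F u (b, b) = true} := by
    have : {u : I → Bool | ∀ a b, F u (a, b) = true → F u (a, a) = true ∧ F u (b, b) = true} =
        ⋂ a, ⋂ b, {u | u ∈ {u | F u (a, b) = true} →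
          u ∈ {u | F u (a, a) = true} ∩ {u | F u (b, b) = true}} := by
      ext u
      simp
    rw [this]
    exact MeasurableSet.iInter fun a => MeasurableSet.iInter fun b =>
      himp (hw _) ((hw _).inter (hw _))
  have e2 : MeasurableSet {u : I → Bool | ∀ a b, F u (a, b) = true → F u (b, a) = true →
      a = b} := by
    have : {u : I → Bool | ∀ a b, F u (a, b) = true → F u (b, a) = true → a = b} =
        ⋂ a, ⋂ b, {u | u ∈ {u | F u (a, b) = true} ∩ {u | F u (b, a) = true} →
          u ∈ {_u | a = b}} := by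
      ext u
      simp
    rw [this]
    exact MeasurableSet.iInter fun a => MeasurableSet.iInter fun b =>
      himp ((hw _).inter (hw _)) (MeasurableSet.const _)
  have e3 : MeasurableSet {u : I → Bool | ∀ a b d, F u (a, b) = true → F u (b, d) = true →
      F u (a, d) = true} := by
    have : {u : I → Bool | ∀ a b d, F u (a, b) = true → F u (b, d) = true →
        F u (a, d) = true} =
        ⋂ a, ⋂ b, ⋂ d, {u | u ∈ {u | F u (a, b) = true} ∩ {u | F u (b, d) = true} →
          u ∈ {u | F u (a, d) = true}} := by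
      ext u
      simp
    rw [this]
    exact MeasurableSet.iInter fun a => MeasurableSet.iInter fun b => MeasurableSet.iInter fun d =>
      himp ((hw _).inter (hw _)) (hw _)
  have e4 : MeasurableSet {u : I → Bool | ∀ a b, F u (a, a) = true → F u (b, b) = true →
      F u (a, b) = true ∨ F u (b, a) = true} := by
    have : {u : I → Bool | ∀ a b, F u (a, a) = true → F u (b, b) = true →
        F u (a, b) = true ∨ F u (b, a) = true} =
        ⋂ a, ⋂ b, {u | u ∈ {u | F u (a, a) = true} ∩ {u | F u (b, b) = true} →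
          u ∈ {u | F u (a, b) = true} ∪ {u | F u (b, a) = true}} := by
      ext u
      simp
    rw [this]
    exact MeasurableSet.iInter fun a => MeasurableSet.iInter fun b =>
      himp ((hw _).inter (hw _)) ((hw _).union (hw _))
  exact e1.inter (e2.inter (e3.inter e4))

theorem comp_tab : Comp (I := ℕ ⊕ (ℕ × ℕ)) (O := JR M) (fun u z =>
    LO (fun p => u (Sum.inr p)) ∧
      Tab L en (fun n => u (Sum.inl n)) (fun p => u (Sum.inr p)) z) := by
  haveI := ct_jrCountable (M := M)
  have h1 := comp_fix (I := ℕ ⊕ (ℕ × ℕ)) (O := JR M) (J := JR M)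
    (fun u z => ctS L en (fun n => u (Sum.inl n)) (fun q => u (Sum.inr q)) z)
    (ct_meas L en) (fun _ => false) id
  have hP : MeasurableSet {u : (ℕ ⊕ (ℕ × ℕ)) → Bool | LO (fun p => u (Sum.inr p))} :=
    ct_meas_LO (fun u p => u (Sum.inr p)) (by
      rw [measurable_pi_iff]
      exact fun q => measurable_pi_apply (Sum.inr q))
  have h2 := comp_guard h1 hP
  obtain ⟨N, hN⟩ := h2
  refine ⟨N, fun u v => ?_⟩
  rw [hN]
  constructor
  · rintro ⟨h3, h4⟩
    have h3' : LO (fun p => u (Sum.inr p)) := h3
    exact ⟨h3', (ct_tab (L := L) (en := en) (c := fun n => u (Sum.inl n)) h3' v).1 h4⟩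
  · rintro ⟨h3, h4⟩
    have h3' : LO (fun p => u (Sum.inr p)) := h3
    exact ⟨h3', (ct_tab (L := L) (en := en) (c := fun n => u (Sum.inl n)) h3' v).2 h4⟩

end meas

end Pool.Agent.Helper78.ITTM
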