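import Pool.Agent.Helper78.ITTM.CDefs

/-! Ranks in the well-founded part of a code of a linear order. -/

namespace Pool.Agent.Helper78.ITTM

section ranks
variable {X : Type} {w : X × X → Bool}

theorem rkw_acc {a : X} (ha : Acc (ltw w) a) : rkw w a = ha.rank := by
  simp [rkw, ha]

theorem rkw_lt_acc {a b : X} (ha : Acc (ltw w) a) (h : ltw w b a) : rkw w b < rkw w a := by
  rw [rkw_acc ha, rkw_acc (ha.inv h)]
  exact Acc.rank_lt_of_rel ha h

theorem rkw_lt {a b : X} (ha : wfp w a) (h : ltw w b a) : rkw w b < rkw w a :=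
  rkw_lt_acc ha.2 h

theorem wfp_of_lt (hw : LO w) {a b : X} (ha : wfp w a) (h : ltw w b a) : wfp w b :=
  ⟨(hw.1 b a h.1).1, ha.2.inv h⟩

theorem ltw_trans (hw : LO w) {a b d : X} (h1 : ltw w a b) (h2 : ltw w b d) : ltw w a d := by
  refine ⟨hw.2.2.1 _ _ _ h1.1 h2.1, ?_⟩
  rintro rfl
  exact h1.2 (hw.2.1 _ _ h1.1 h2.1)

theorem ltw_irrefl (a : X) : ¬ ltw w a a := fun h => h.2 rfl

theorem rkw_surj_acc (hw : LO w) {a : X} (ha : Acc (ltw w) a) :
    ∀ δ : Ordinal.{0}, δ < rkw w a → ∃ b, ltw w b a ∧ rkw w b = δ := by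
  induction ha with
  | intro a h ih =>
    intro δ hδ
    have ha : Acc (ltw w) a := Acc.intro a h
    rw [rkw_acc ha, Acc.rank_eq] at hδ
    rw [Ordinal.lt_iSup_iff] at hδ
    obtain ⟨⟨b, hb⟩, hb2⟩ := hδ
    rw [Order.lt_succ_iff] at hb2
    have hb3 : δ ≤ rkw w b := by
      rw [rkw_acc (ha.inv hb)]
      exact hb2
    rcases hb3.eq_or_lt with he | hl
    · exact ⟨b, hb, he.symm⟩
    · obtain ⟨d, hd1, hd2⟩ := ih b hb δ hl
      exact ⟨d, ltw_trans hw hd1 hb, hd2⟩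

theorem rkw_surj (hw : LO w) {a : X} (ha : wfp w a) {δ : Ordinal.{0}} (hδ : δ < rkw w a) :
    ∃ b, ltw w b a ∧ rkw w b = δ := rkw_surj_acc hw ha.2 δ hδ

theorem ltw_total (hw : LO w) {a b : X} (ha : w (a, a) = true) (hb : w (b, b) = true)
    (hne : a ≠ b) : ltw w a b ∨ ltw w b a := by
  rcases hw.2.2.2 a b ha hb with h | h
  · exact Or.inl ⟨h, hne⟩
  · exact Or.inr ⟨h, fun h' => hne h'.symm⟩

theorem rkw_inj (hw : LO w) {a b : X} (ha : wfp w a) (hb : wfp w b) (h : rkw w a = rkw w b) :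
    a = b := by
  by_contra hne
  rcases ltw_total hw ha.1 hb.1 hne with h1 | h1
  · exact absurd h (rkw_lt hb h1).ne
  · exact absurd h (rkw_lt ha h1).ne'

theorem lt_of_rkw_lt (hw : LO w) {a b : X} (ha : wfp w a) (hb : wfp w b)
    (h : rkw w b < rkw w a) : ltw w b a := by
  have hne : b ≠ a := by
    rintro rfl
    exact lt_irrefl _ h
  rcases ltw_total hw hb.1 ha.1 hne with h1 | h1
  · exact h1
  · exact absurd h (rkw_lt hb h1).not_gt

end ranks

end Pool.Agent.Helper78.ITTM
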