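import Pool.Agent.Helper78.ITTM.Transport1

/-! Part C, module C8b: transport of `SG` and of the real `X0`. -/

namespace Pool.Agent.Helper78.ITTM

universe u v

section gen
variable {Ω : Type u} {Ω' : Type v} {M : Type} {lt : Ω → Ω → Prop} {lt' : Ω' → Ω' → Prop}
    {φ : Ω → Ω'} {D : Ω → Prop} {f : Ω → Dat M Ω} {f' : Ω' → Dat M Ω'}

theorem TrI.tgt_iff (H : TrI lt lt' φ D) (L : LocOp M) {a : Ω} (ha : D a)
    (hA : ∀ b, lt b a → Agr lt lt' φ f f' b) (hAa : Agr lt lt' φ f f' a) (d : XIx M)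
    {q : Cond Ω} (hq : CD D q) :
    Tgt L lt f a d q ↔ Tgt L lt' f' (φ a) d (q.map φ) := by
  cases d with
  | E l m =>
    show (∀ β, (f a).C l β → inE lt f β m q) ↔
      ∀ β, (f' (φ a)).C l β → inE lt' f' β m (q.map φ)
    exact H.allC ha hAa.C1 hAa.C1' hAa.C2 l fun β hβ hD => H.inE_iff hD (hA β hβ).B m hq
  | D l m l' =>
    have e1 : Tgt L lt f a (.D l m l') q ↔ ∀ β, (f a).C l β → ∀ α, (f a).C l' α →
        isLim lt β → lt α β → inD lt f β m α q :=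
      ⟨fun h β h1 α h2 => h β α h1 h2, fun h β α h1 h2 => h β h1 α h2⟩
    have e2 : Tgt L lt' f' (φ a) (.D l m l') (q.map φ) ↔ ∀ β, (f' (φ a)).C l β →
        ∀ α, (f' (φ a)).C l' α → isLim lt' β → lt' α β → inD lt' f' β m α (q.map φ) :=
      ⟨fun h β h1 α h2 => h β α h1 h2, fun h β α h1 h2 => h β h1 α h2⟩
    rw [e1, e2]
    refine H.allC ha hAa.C1 hAa.C1' hAa.C2 l fun β hβ hDβ => ?_
    refine H.allC ha hAa.C1 hAa.C1' hAa.C2 l' fun α hα hDα => ?_
    refine imp_congr (H.isLim_iff hDβ) (imp_congr (H.lt_iff β α hDβ hDα) ?_)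
    exact H.inD_iff hDβ (fun b hb => hA b (H.tr _ _ _ hb hβ)) hDα m hq
  | dm i => exact Iff.rfl
  | prm i l =>
    show (∀ g, (f a).C l g → (i, g) ∈ q.F) ↔ ∀ g, (f' (φ a)).C l g → (i, g) ∈ (q.map φ).F
    exact H.allC ha hAa.C1 hAa.C1' hAa.C2 l fun g _ hD => (H.mem_map hq hD).symm
  | dg e q0 q1 =>
    show (q0 < q1 → ∃ l, q0 ≤ l ∧ l < q1 ∧ Idx.root l ∈ q.dom ∧
      ((∃ γ b, lt γ a ∧ (f γ).B true (L.hc q0 e (num l)) (res lt γ q) ∧
          (f γ).B b (L.oc q0 e (num l)) (res lt γ q) ∧ (Idx.root l ∈ q.tr ↔ b = false)) ∨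
       ∀ q', Pt lt (rr f) a q' → Ext (rr f) q' q → ∀ γ, lt γ a →
          ¬ (f γ).B true (L.hc q0 e (num l)) (res lt γ q'))) ↔
      (q0 < q1 → ∃ l, q0 ≤ l ∧ l < q1 ∧ Idx.root l ∈ q.dom ∧
      ((∃ γ b, lt' γ (φ a) ∧ (f' γ).B true (L.hc q0 e (num l)) (res lt' γ (q.map φ)) ∧
          (f' γ).B b (L.oc q0 e (num l)) (res lt' γ (q.map φ)) ∧
            (Idx.root l ∈ q.tr ↔ b = false)) ∨
       ∀ q', Pt lt' (rr f') (φ a) q' → Ext (rr f') q' (q.map φ) → ∀ γ, lt' γ (φ a) →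
          ¬ (f' γ).B true (L.hc q0 e (num l)) (res lt' γ q')))
    refine imp_congr_right fun _ => exists_congr fun l => and_congr_right fun _ =>
      and_congr_right fun _ => and_congr_right fun _ => or_congr ?_ ?_
    · have e3 : (∃ γ b, lt γ a ∧ (f γ).B true (L.hc q0 e (num l)) (res lt γ q) ∧
          (f γ).B b (L.oc q0 e (num l)) (res lt γ q) ∧ (Idx.root l ∈ q.tr ↔ b = false)) ↔
          ∃ γ, lt γ a ∧ ∃ b, (f γ).B true (L.hc q0 e (num l)) (res lt γ q) ∧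
          (f γ).B b (L.oc q0 e (num l)) (res lt γ q) ∧ (Idx.root l ∈ q.tr ↔ b = false) :=
        ⟨fun ⟨γ, b, h1, h2⟩ => ⟨γ, h1, b, h2⟩, fun ⟨γ, h1, b, h2⟩ => ⟨γ, b, h1, h2⟩⟩
      have e4 : (∃ γ b, lt' γ (φ a) ∧
            (f' γ).B true (L.hc q0 e (num l)) (res lt' γ (q.map φ)) ∧
            (f' γ).B b (L.oc q0 e (num l)) (res lt' γ (q.map φ)) ∧
            (Idx.root l ∈ q.tr ↔ b = false)) ↔
          ∃ γ, lt' γ (φ a) ∧ ∃ b, (f' γ).B true (L.hc q0 e (num l)) (res lt' γ (q.map φ)) ∧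
            (f' γ).B b (L.oc q0 e (num l)) (res lt' γ (q.map φ)) ∧
            (Idx.root l ∈ q.tr ↔ b = false) :=
        ⟨fun ⟨γ, b, h1, h2⟩ => ⟨γ, h1, b, h2⟩, fun ⟨γ, h1, b, h2⟩ => ⟨γ, b, h1, h2⟩⟩
      rw [e3, e4]
      refine H.exLt ha fun γ hγ hDγ => exists_congr fun b => ?_
      rw [(hA γ hγ).B true _ _ (cd_res q), (hA γ hγ).B b _ _ (cd_res q), H.res_map hDγ hq]
    · refine H.allPt ha (fun g hg => (hA g hg).rr) ?_
      intro q' hq' hq''
      refine imp_congr (H.ext_iff hq hq' (fun i g hg => (hA g (hq'' i g hg)).rr)) ?_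
      refine H.allLt ha ?_
      intro γ hγ hDγ
      rw [(hA γ hγ).B true _ _ (cd_res q'), H.res_map hDγ hq']

theorem TrI.good_iff (H : TrI lt lt' φ D) (L : LocOp M) {a : Ω} (ha : D a)
    (hA : ∀ b, lt b a → Agr lt lt' φ f f' b) (hAa : Agr lt lt' φ f f' a) (d : XIx M)
    {p q : Cond Ω} (hp : CD D p) (hq : CD D q) :
    Good L lt f a d p q ↔ Good L lt' f' (φ a) d (p.map φ) (q.map φ) := by
  unfold Good
  constructor
  · rintro ⟨h1, h2, h3⟩
    exact ⟨(H.pt_iff ha hq (fun g hg => (hA g hg).rr)).mp h1,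
      (H.ext_iff hp hq (fun i g hg => (hA g (h1.2 i g hg)).rr)).mp h2,
      (H.tgt_iff L ha hA hAa d hq).mp h3⟩
  · rintro ⟨h1, h2, h3⟩
    have h1' := (H.pt_iff ha hq (fun g hg => (hA g hg).rr)).mpr h1
    exact ⟨h1', (H.ext_iff hp hq (fun i g hg => (hA g (h1'.2 i g hg)).rr)).mpr h2,
      (H.tgt_iff L ha hA hAa d hq).mpr h3⟩

theorem xs_below {a : Ω} (L : LocOp M) (en : Enum2 M) (hC : ∀ k g, (f a).C k g → lt g a) :
    ∀ (k : ℕ) {q : Cond Ω}, Xs L en lt f a k q → ∀ i g, (i, g) ∈ q.F → lt g a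
  | 0, q, h => by
    have h' : q = Cond.bot Ω := h
    subst h'
    intro i g hg
    simp [Cond.bot] at hg
  | k + 1, q, h => by
    obtain ⟨p, h1, h2⟩ := h
    rcases h2 with ⟨n, h3, -, -⟩ | ⟨h3, -⟩
    · exact mapC_lt hC h3
    · rw [h3]
      exact xs_below L en hC k h1

theorem TrI.xs_iff (H : TrI lt lt' φ D) (L : LocOp M) (en : Enum2 M) {a : Ω} (ha : D a)
    (hA : ∀ b, lt b a → Agr lt lt' φ f f' b) (hAa : Agr lt lt' φ f f' a) :
    ∀ (k : ℕ) {q : Cond Ω}, CD D q →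
      (Xs L en lt f a k q ↔ Xs L en lt' f' (φ a) k (q.map φ))
  | 0, q, hq => by
    have hb : (Cond.bot Ω).map φ = Cond.bot Ω' := by
      classical
      apply Cond.ext <;> simp [Cond.bot, Cond.map]
    show q = Cond.bot Ω ↔ q.map φ = Cond.bot Ω'
    constructor
    · rintro rfl
      exact hb
    · intro h
      refine H.map_inj hq ?_ (h.trans hb.symm)
      intro i g hg
      simp [Cond.bot] at hg
  | k + 1, q, hq => by
    have key : ∀ p, CD D p → (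
        ((∃ n, MapC f a (en.eC n) q ∧ Good L lt f a (en.eX k) p q ∧
          ∀ n', n' < n → ∀ q', MapC f a (en.eC n') q' → ¬ Good L lt f a (en.eX k) p q') ∨
        (q = p ∧ ∀ n q', MapC f a (en.eC n) q' → ¬ Good L lt f a (en.eX k) p q')) ↔
        ((∃ n, MapC f' (φ a) (en.eC n) (q.map φ) ∧
          Good L lt' f' (φ a) (en.eX k) (p.map φ) (q.map φ) ∧
          ∀ n', n' < n → ∀ q', MapC f' (φ a) (en.eC n') q' →
            ¬ Good L lt' f' (φ a) (en.eX k) (p.map φ) q') ∨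
        (q.map φ = p.map φ ∧ ∀ n q', MapC f' (φ a) (en.eC n) q' →
          ¬ Good L lt' f' (φ a) (en.eX k) (p.map φ) q'))) := by
      intro p hp
      have hall : ∀ n, (∀ q', MapC f a (en.eC n) q' → ¬ Good L lt f a (en.eX k) p q') ↔
          ∀ q', MapC f' (φ a) (en.eC n) q' →
            ¬ Good L lt' f' (φ a) (en.eX k) (p.map φ) q' := fun n =>
        H.allMapC ha hAa.C1 hAa.C1' hAa.C2 (en.eC n) fun q' hq' _ =>
          not_congr (H.good_iff L ha hA hAa (en.eX k) hp hq')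
      refine or_congr (exists_congr fun n => ?_) (and_congr ?_ (forall_congr' hall))
      · exact and_congr (H.mapC_iff ha hAa.C1 hAa.C1' hAa.C2 hq (en.eC n))
          (and_congr (H.good_iff L ha hA hAa (en.eX k) hp hq)
            (forall_congr' fun n' => imp_congr_right fun _ => hall n'))
      · exact ⟨fun h => congrArg _ h, fun h => H.map_inj hq hp h⟩
    show (∃ p, Xs L en lt f a k p ∧ _) ↔ ∃ p, Xs L en lt' f' (φ a) k p ∧ _
    constructor
    · rintro ⟨p, h1, h2⟩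
      have hp : CD D p := fun i g hg => H.dn a g ha (xs_below L en hAa.C1 k h1 i g hg)
      exact ⟨p.map φ, (H.xs_iff L en ha hA hAa k hp).mp h1, (key p hp).mp h2⟩
    · rintro ⟨p', h1, h2⟩
      obtain ⟨p, h3, rfl⟩ := H.exists_cond ha (xs_below L en hAa.C1' k h1)
      have hp : CD D p := fun i g hg => H.dn a g ha (h3 i g hg)
      exact ⟨p, (H.xs_iff L en ha hA hAa k hp).mpr h1, (key p hp).mpr h2⟩

theorem TrI.x0_eq (H : TrI lt lt' φ D) (L : LocOp M) (en : Enum2 M) {a : Ω} (ha : D a)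
    (hA : ∀ b, lt b a → Agr lt lt' φ f f' b) (hAa : Agr lt lt' φ f f' a) (i : Idx) :
    X0 L en lt f a i = X0 L en lt' f' (φ a) i := by
  have key : (∃ k p, Xs L en lt f a k p ∧ i ∈ p.tr) ↔
      ∃ k p, Xs L en lt' f' (φ a) k p ∧ i ∈ p.tr := by
    refine exists_congr fun k => ?_
    constructor
    · rintro ⟨p, h1, h2⟩
      have hp : CD D p := fun i g hg => H.dn a g ha (xs_below L en hAa.C1 k h1 i g hg)
      exact ⟨p.map φ, (H.xs_iff L en ha hA hAa k hp).mp h1, h2⟩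
    · rintro ⟨p', h1, h2⟩
      obtain ⟨p, h3, rfl⟩ := H.exists_cond ha (xs_below L en hAa.C1' k h1)
      have hp : CD D p := fun i g hg => H.dn a g ha (h3 i g hg)
      exact ⟨p, (H.xs_iff L en ha hA hAa k hp).mpr h1, h2⟩
  unfold X0
  rw [decide_eq_decide]
  exact key

end gen

section transport
variable {M : Type} (L : LocOp M) (en : Enum M) (en2 : Enum2 M) (c : R2)

theorem transport_SG {w : ℕ × ℕ → Bool} (hw : LO w) {z : JR M → Bool} (hz : Tab L en c w z)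
    {a : ℕ} (ha : wfp w a) :
    SG (ltw w) (dat z) a ↔ SG ltO (obj L en c) (rkw w a) :=
  transport_SG0 L en c hw hz ha

theorem transport_X0 {w : ℕ × ℕ → Bool} (hw : LO w) {z : JR M → Bool} (hz : Tab L en c w z)
    {a : ℕ} (ha : wfp w a) (i : Idx) :
    X0 L en2 (ltw w) (dat z) a i = X0 L en2 ltO (obj L en c) (rkw w a) i :=
  (trI_rkw hw).x0_eq L en2 ha (agr_tab_lt L en c hw hz ha) (agr_tab L en c hw hz ha) i

end transport

end Pool.Agent.Helper78.ITTM
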