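import Pool.Agent.Helper78.ITTM.Kappa
import Pool.Agent.Helper78.ITTM.Ranks
import Pool.Agent.Helper78.ITTM.Locality
import Pool.Agent.Helper78.ITTM.CompClosure
import Pool.Agent.Helper78.ITTM.MeasC
import Pool.Agent.Helper78.ITTM.MeasX
import Pool.Agent.Helper78.ITTM.Transport2
import Pool.Agent.Helper78.ITTM.CompTab

/-! Module C9x: computing the real `x₀` and the reals of the hierarchy from codes. -/

namespace Pool.Agent.Helper78.ITTM

section tab
variable {M : Type} [Countable M] (L : LocOp M) (en : Enum M) (en2 : Enum2 M)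

/-! ### Existence of the table -/

/-- The empty data. -/
def ckD (M : Type) : Dat M ℕ := ⟨fun _ _ _ => False, fun _ _ => False, fun _ _ => false⟩

/-- The table of a data function. -/
noncomputable def ckZ (w : ℕ × ℕ → Bool) (G : ℕ → Dat M ℕ) : JR M → Bool
  | .dn a => @decide (wfp w a) (Classical.propDecidable _)
  | .B a b m p => @decide ((G a).B b m p) (Classical.propDecidable _)
  | .C a k g => @decide ((G a).C k g) (Classical.propDecidable _)
  | .R a i j => (G a).r i j

omit [Countable M] in
lemma dat_ckZ (w : ℕ × ℕ → Bool) (G : ℕ → Dat M ℕ) : dat (ckZ w G) = G := by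
  funext a
  have e1 : (fun b m p => ckZ w G (.B a b m p) = true) = (G a).B := by
    funext b m p
    simp [ckZ]
  have e2 : (fun k g => ckZ w G (.C a k g) = true) = (G a).C := by
    funext k g
    simp [ckZ]
  unfold dat
  rw [e1, e2]
  rfl

omit [Countable M] in
theorem ck_tab_exists (c : R2) {w : ℕ × ℕ → Bool} (hw : LO w) :
    ∃ z : JR M → Bool, Tab L en c w z := by
  classical
  have hr : WellFounded (fun b a : ℕ => ltw w b a ∧ Acc (ltw w) a) := by
    constructor
    intro a
    by_cases ha : Acc (ltw w) a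
    · induction ha with
      | intro a h ih =>
        constructor
        rintro b ⟨hb, -⟩
        exact ih b hb
    · constructor
      rintro b ⟨-, hb⟩
      exact absurd hb ha
  let F : ℕ → Dat M ℕ := hr.fix (fun a rec => Full L en c (ltw w)
    (fun b => if h : ltw w b a ∧ Acc (ltw w) a then rec b h else ckD M) a)
  have hF : ∀ a, F a = Full L en c (ltw w)
      (fun b => if ltw w b a ∧ Acc (ltw w) a then F b else ckD M) a := by
    intro a
    exact hr.fix_eq _ a
  have htr : ∀ x y z, ltw w x y → ltw w y z → ltw w x z := fun x y z h1 h2 => ltw_trans hw h1 h2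
  have hirr : ∀ x, ¬ ltw w x x := fun x => ltw_irrefl x
  have hC : ∀ a, Acc (ltw w) a → ∀ k g, (F a).C k g → ltw w g a := by
    intro a ha
    induction ha with
    | intro a h ih =>
      intro k g hg
      rw [hF] at hg
      have hg' : Ctab (ltw w) (fun b => if ltw w b a ∧ Acc (ltw w) a then F b else ckD M)
        en.eT a k g := hg
      refine Loc.ctab_lt htr ?_ hg'
      intro b hb k g h'
      rw [if_pos ⟨hb, Acc.intro a h⟩] at h'
      exact ih b hb k g h'
  let G : ℕ → Dat M ℕ := fun a => if wfp w a then F a else ckD M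
  have hG : ∀ a, wfp w a → G a = Full L en c (ltw w) G a := by
    intro a ha
    have e : G a = F a := if_pos ha
    rw [e, hF]
    refine full_congr L en c htr hirr ?_ ?_
    · intro b hb
      have e1 : G b = F b := if_pos (wfp_of_lt hw ha hb)
      rw [e1]
      exact if_pos ⟨hb, ha.2⟩
    · intro b hb k g h
      rw [if_pos ⟨hb, ha.2⟩] at h
      exact hC b (ha.2.inv hb) k g h
  refine ⟨ckZ w G, ?_, ?_, ?_⟩
  · intro a
    simp [ckZ]
  · intro a ha
    rw [dat_ckZ]
    exact hG a ha
  · intro a ha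
    have e : G a = ckD M := if_neg ha
    refine ⟨fun b m p => ?_, fun k g => ?_, fun i j => ?_⟩
    · simp [ckZ, e, ckD]
    · simp [ckZ, e, ckD]
    · simp [ckZ, e, ckD]

/-! ### The least good element -/

theorem ck_hasK (c : R2) {w : ℕ × ℕ → Bool} {z : JR M → Bool} (hw : LO w)
    (hz : Tab L en c w z) :
    HasK L en c w ↔ ∃ a, z (.dn a) = true ∧ SG (ltw w) (dat z) a := by
  constructor
  · rintro ⟨-, a, ha, hk⟩
    refine ⟨a, (hz.1 a).2 ha, ?_⟩
    rw [transport_SG L en c hw hz ha, hk]
    exact kap_sg L en c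
  · rintro ⟨a, ha, hs⟩
    have ha' := (hz.1 a).1 ha
    rw [transport_SG L en c hw hz ha'] at hs
    refine ⟨hw, ?_⟩
    have hle : kap L en c ≤ rkw w a := by
      by_contra h
      exact kap_min L en c (not_le.1 h) hs
    rcases hle.eq_or_lt with h | h
    · exact ⟨a, ha', h.symm⟩
    · obtain ⟨b, hb, hb2⟩ := rkw_surj hw ha' h
      exact ⟨b, wfp_of_lt hw ha' hb, hb2⟩

/-- `a` is the least good element. -/
def ckLeast (w : ℕ × ℕ → Bool) (z : JR M → Bool) (a : ℕ) : Prop :=
  z (.dn a) = true ∧ SG (ltw w) (dat z) a ∧ ∀ b, ltw w b a → ¬ SG (ltw w) (dat z) b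

theorem ck_least (c : R2) {w : ℕ × ℕ → Bool} {z : JR M → Bool} (hw : LO w)
    (hz : Tab L en c w z) (a : ℕ) :
    ckLeast w z a ↔ wfp w a ∧ rkw w a = kap L en c := by
  constructor
  · rintro ⟨ha, hs, hm⟩
    have ha' := (hz.1 a).1 ha
    rw [transport_SG L en c hw hz ha'] at hs
    refine ⟨ha', ?_⟩
    have hle : kap L en c ≤ rkw w a := by
      by_contra h
      exact kap_min L en c (not_le.1 h) hs
    rcases hle.eq_or_lt with h | h
    · exact h.symm
    · obtain ⟨b, hb, hb2⟩ := rkw_surj hw ha' h
      refine absurd ?_ (hm b hb)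
      rw [transport_SG L en c hw hz (wfp_of_lt hw ha' hb), hb2]
      exact kap_sg L en c
  · rintro ⟨ha, hk⟩
    refine ⟨(hz.1 a).2 ha, ?_, ?_⟩
    · rw [transport_SG L en c hw hz ha, hk]
      exact kap_sg L en c
    · intro b hb hs
      rw [transport_SG L en c hw hz (wfp_of_lt hw ha hb)] at hs
      have := rkw_lt ha hb
      rw [hk] at this
      exact kap_min L en c this hs

/-! ### Measurability -/

/-- Inputs of the second machine. -/
abbrev ckI (M : Type) : Type := (ℕ ⊕ (ℕ × ℕ)) ⊕ JR M

/-- The three parts of an input. -/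
def ckP (u : ckI M → Bool) : CWZ M :=
  (fun n => u (Sum.inl (Sum.inl n)), fun p => u (Sum.inl (Sum.inr p)), fun j => u (Sum.inr j))

omit [Countable M] in
lemma meas_ckP : Measurable (ckP (M := M)) := by
  refine Measurable.prodMk ?_ (Measurable.prodMk ?_ ?_)
  · exact measurable_pi_lambda _ fun n => measurable_pi_apply _
  · exact measurable_pi_lambda _ fun n => measurable_pi_apply _
  · exact measurable_pi_lambda _ fun n => measurable_pi_apply _

omit [Countable M] in
lemma ck_meas_eq (j : ckI M) : Measurable (fun u : ckI M → Bool => u j = true) := by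
  rw [← measurableSet_setOfPred]
  have h : Measurable (fun u : ckI M → Bool => u j) := measurable_pi_apply j
  exact h (measurableSet_singleton true)

lemma ck_meas_SG (a : ℕ) :
    Measurable (fun u : ckI M → Bool => SG (ltw (ckP u).2.1) (dat (ckP u).2.2) a) := by
  rw [← measurableSet_setOfPred]
  exact meas_ckP (meas_SG a)

lemma ck_meas_least (a : ℕ) :
    Measurable (fun u : ckI M → Bool => ckLeast (ckP u).2.1 (ckP u).2.2 a) := by
  refine (ck_meas_eq (Sum.inr (.dn a))).and ((ck_meas_SG a).and (Measurable.forall fun b => ?_))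
  refine Measurable.imp ?_ (ck_meas_SG b).not
  exact (ck_meas_eq (Sum.inl (Sum.inr (b, a)))).and measurable_const

lemma ck_meas_P : MeasurableSet {u : ckI M → Bool |
    ∃ a, (ckP u).2.2 (.dn a) = true ∧ SG (ltw (ckP u).2.1) (dat (ckP u).2.2) a} := by
  rw [measurableSet_setOfPred]
  exact Measurable.exists fun a => (ck_meas_eq (Sum.inr (.dn a))).and (ck_meas_SG a)

/-- The real computed by the second machine. -/
noncomputable def ckX (u : ckI M → Bool) (i : Idx) : Bool :=
  @decide (∃ a, ckLeast (ckP u).2.1 (ckP u).2.2 a ∧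
    X0 L en2 (ltw (ckP u).2.1) (dat (ckP u).2.2) a i = true) (Classical.propDecidable _)

lemma ck_meas_X (i : Idx) : Measurable (fun u : ckI M → Bool => ckX L en2 u i) := by
  apply measurable_to_bool
  have h : MeasurableSet {u : ckI M → Bool | ∃ a, ckLeast (ckP u).2.1 (ckP u).2.2 a ∧
    X0 L en2 (ltw (ckP u).2.1) (dat (ckP u).2.2) a i = true} := by
    rw [measurableSet_setOfPred]
    refine Measurable.exists fun a => (ck_meas_least a).and ?_
    rw [← measurableSet_setOfPred]
    exact meas_ckP (meas_X0 L en2 a i)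
  convert h using 1
  ext u
  simp [ckX]

/-- The output of the second machine. -/
noncomputable def ckF (u : ckI M → Bool) : ℕ → Bool :=
  join (fun n => u (Sum.inl (Sum.inl n))) (idr (ckX L en2 u))

lemma ck_meas_F : Measurable (ckF L en2) := by
  refine measurable_pi_lambda _ fun n => ?_
  unfold ckF join idr
  by_cases h : n % 2 = 0
  · simp only [h, if_true]
    exact measurable_pi_apply _
  · simp only [h, if_false]
    exact ck_meas_X L en2 _

/-! ### The machines -/

theorem comp_hasK : Comp (I := ℕ ⊕ (ℕ × ℕ)) (O := Unit) (fun u v =>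
    LO (fun p => u (Sum.inr p)) ∧ (v () = true ↔
      HasK L en (fun n => u (Sum.inl n)) (fun p => u (Sum.inr p)))) := by
  classical
  have hF : Measurable (fun (u : ckI M → Bool) (_ : Unit) =>
      decide (∃ a, (ckP u).2.2 (.dn a) = true ∧
        SG (ltw (ckP u).2.1) (dat (ckP u).2.2) a)) := by
    refine measurable_pi_lambda _ fun _ => measurable_to_bool ?_
    convert ck_meas_P (M := M) using 1
    ext u
    simp
  have h := comp_seq (comp_tab L en) (comp_borel _ hF)
  convert h using 1
  funext u v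
  apply propext
  constructor
  · rintro ⟨hw, hv⟩
    obtain ⟨z, hz⟩ := ck_tab_exists L en (fun n => u (Sum.inl n)) hw
    refine ⟨z, ⟨hw, hz⟩, ?_⟩
    funext x
    have h1 := ck_hasK L en _ hw hz
    rw [h1] at hv
    change v () = decide _
    rw [Bool.eq_iff_iff, hv, decide_eq_true_iff]
    rfl
  · rintro ⟨z, ⟨hw, hz⟩, rfl⟩
    refine ⟨hw, ?_⟩
    rw [ck_hasK L en _ hw hz, decide_eq_true_iff]
    rfl

theorem comp_xw : Comp (I := ℕ ⊕ (ℕ × ℕ)) (O := ℕ) (fun u v =>
    HasK L en (fun n => u (Sum.inl n)) (fun p => u (Sum.inr p)) ∧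
      v = X0r L en en2 (fun n => u (Sum.inl n))) := by
  have h := comp_seq (comp_tab L en)
    (comp_guard (comp_borel _ (ck_meas_F L en2)) (ck_meas_P (M := M)))
  convert h using 1
  funext u v
  apply propext
  have key : ∀ z : JR M → Bool, LO (fun p => u (Sum.inr p)) →
      Tab L en (fun n => u (Sum.inl n)) (fun p => u (Sum.inr p)) z →
      HasK L en (fun n => u (Sum.inl n)) (fun p => u (Sum.inr p)) →
      ckF L en2 (Sum.elim u z) = X0r L en en2 (fun n => u (Sum.inl n)) := by
    intro z hw hz hK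
    obtain ⟨-, a, ha, hk⟩ := hK
    unfold ckF X0r
    congr 1
    congr 1
    funext i
    rw [Bool.eq_iff_iff]
    simp only [ckX, x0, decide_eq_true_eq]
    constructor
    · rintro ⟨b, hb, hb2⟩
      have hb' := (ck_least L en _ hw hz b).1 hb
      have := transport_X0 L en en2 _ hw hz hb'.1 i
      rw [hb'.2] at this
      rw [← this]
      exact hb2
    · intro hx
      refine ⟨a, (ck_least L en _ hw hz a).2 ⟨ha, hk⟩, ?_⟩
      have := transport_X0 L en en2 _ hw hz ha i
      rw [hk] at this
      rw [← this] at hx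
      exact hx
  constructor
  · rintro ⟨hK, rfl⟩
    have hw := hK.1
    obtain ⟨z, hz⟩ := ck_tab_exists L en (fun n => u (Sum.inl n)) hw
    refine ⟨z, ⟨hw, hz⟩, (ck_hasK L en _ hw hz).1 hK, (key z hw hz hK).symm⟩
  · rintro ⟨z, ⟨hw, hz⟩, hP, rfl⟩
    have hK := (ck_hasK L en _ hw hz).2 hP
    exact ⟨hK, key z hw hz hK⟩

theorem comp_xr (t : ℕ) : Comp (I := ℕ ⊕ (ℕ × ℕ)) (O := Idx × ℕ) (fun u v =>
    LO (fun p => u (Sum.inr p)) ∧ wfp (fun p => u (Sum.inr p)) t ∧
      ∀ i j, v (i, j) = rr (obj L en (fun n => u (Sum.inl n)))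
        (rkw (fun p => u (Sum.inr p)) t) i j) := by
  have hP : MeasurableSet {u : ckI M → Bool | u (Sum.inr (.dn t)) = true} := by
    rw [measurableSet_setOfPred]
    exact ck_meas_eq _
  have hF : Measurable (fun (u : ckI M → Bool) (x : Idx × ℕ) => u (Sum.inr (.R t x.1 x.2))) :=
    measurable_pi_lambda _ fun x => measurable_pi_apply _
  have h := comp_seq (comp_tab L en) (comp_guard (comp_borel _ hF) hP)
  convert h using 1
  funext u v
  apply propext
  constructor
  · rintro ⟨hw, ht, hv⟩
    obtain ⟨z, hz⟩ := ck_tab_exists L en (fun n => u (Sum.inl n)) hw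
    refine ⟨z, ⟨hw, hz⟩, (hz.1 t).2 ht, ?_⟩
    funext ⟨i, j⟩
    rw [hv]
    have := (transport L en _ hw hz ht).r
    change (obj L en (fun n => u (Sum.inl n)) _).r i j = (dat z t).r i j
    rw [this]
  · rintro ⟨z, ⟨hw, hz⟩, hP, rfl⟩
    have ht := (hz.1 t).1 hP
    refine ⟨hw, ht, ?_⟩
    intro i j
    have := (transport L en _ hw hz ht).r
    change (dat z t).r i j = (obj L en (fun n => u (Sum.inl n)) _).r i j
    rw [this]

end tab

end Pool.Agent.Helper78.ITTM
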