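import Pool.Agent.Helper78.ITTM.CDefs2
import Pool.Agent.Helper78.ITTM.CompClosure
import Pool.Agent.Helper78.ITTM.CompAcc

/-! The sum of all computed well-orders is computable from the halting facts. -/

namespace Pool.Agent.Helper78.ITTM

/-- All relations computed according to `h`, side by side. -/
noncomputable def clW (h : Prog × ℕ × Bool → Bool) : (Prog × ℕ) × (Prog × ℕ) → Bool :=
  fun p => @decide (p.1.1 = p.2.1) (Classical.propDecidable _) && wr (rel h p.1.1) (p.1.2, p.2.2)

theorem clW_meas : Measurable clW := by
  rw [measurable_pi_iff]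
  rintro ⟨⟨e, a⟩, ⟨e', b⟩⟩
  unfold clW wr rel
  by_cases he : e = e'
  · simp only [he, decide_true, Bool.true_and]
    exact measurable_pi_apply _
  · simp only [he, decide_false, Bool.false_and]
    exact measurable_const

theorem clW_ltw (h : Prog × ℕ × Bool → Bool) (x y : Prog × ℕ) :
    ltw (clW h) x y ↔ x.1 = y.1 ∧ ltw (wr (rel h y.1)) x.2 y.2 := by
  obtain ⟨e, a⟩ := x
  obtain ⟨e', b⟩ := y
  simp only [ltw, clW, Bool.and_eq_true, decide_eq_true_eq]
  constructor
  · rintro ⟨⟨rfl, h2⟩, h3⟩
    exact ⟨rfl, h2, fun hab => h3 (by rw [hab])⟩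
  · rintro ⟨rfl, h2, h3⟩
    exact ⟨⟨rfl, h2⟩, fun hab => h3 (by cases hab; rfl)⟩

theorem clW_acc (h : Prog × ℕ × Bool → Bool) (e : Prog) (a : ℕ) :
    Acc (ltw (clW h)) (e, a) ↔ Acc (ltw (wr (rel h e))) a := by
  constructor
  · intro hA
    have key : ∀ x : Prog × ℕ, Acc (ltw (clW h)) x → x.1 = e → Acc (ltw (wr (rel h e))) x.2 := by
      intro x hx
      induction hx with
      | intro x _ ih =>
        intro hxe
        refine Acc.intro _ fun b hb => ?_
        exact ih (e, b) ((clW_ltw h _ _).2 ⟨hxe.symm, by rw [hxe]; exact hb⟩) rfl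
    exact key _ hA rfl
  · intro hA
    induction hA with
    | intro a _ ih =>
      refine Acc.intro _ fun y hy => ?_
      obtain ⟨e', b⟩ := y
      obtain ⟨h1, h2⟩ := (clW_ltw h _ _).1 hy
      simp only at h1 h2
      subst h1
      exact ih b h2

/-- Halting facts together with the well-founded parts. -/
abbrev clT : Type := (Prog × ℕ × Bool) ⊕ (Prog × ℕ) → Bool

/-- The halting facts. -/
def clh (g : clT) : Prog × ℕ × Bool → Bool := fun p => g (Sum.inl p)

/-- The field, with the well-founded part given by the second component. -/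
def clF (g : clT) : Option (Prog × ℕ) → Prop
  | none => True
  | some (e, a) => tot (clh g) e ∧ LO (wr (rel (clh g) e)) ∧
      (wr (rel (clh g) e) (a, a) = true ∧ g (Sum.inr (e, a)) = true)

theorem clProp_coord {α : Type*} [MeasurableSpace α] {f : α → Bool} (hf : Measurable f) :
    Measurable (fun g => f g = true) :=
  measurableSet_setOfPred.1 (hf (measurableSet_singleton true))

theorem cl_wr_meas (e : Prog) (p : ℕ × ℕ) :
    Measurable (fun g : clT => wr (rel (clh g) e) p = true) :=
  clProp_coord (f := fun g : clT => wr (rel (clh g) e) p)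
    (measurable_pi_apply (Sum.inl (e, Nat.pair p.1 p.2, true)))

theorem cl_tot_meas (e : Prog) : Measurable (fun g : clT => tot (clh g) e) := by
  unfold tot
  refine Measurable.forall fun n => Measurable.exists fun b => ?_
  exact clProp_coord (f := fun g : clT => clh g (e, n, b)) (measurable_pi_apply _)

theorem cl_LO_meas (e : Prog) : Measurable (fun g : clT => LO (wr (rel (clh g) e))) := by
  unfold LO
  have w := cl_wr_meas e
  refine Measurable.and ?_ (Measurable.and ?_ (Measurable.and ?_ ?_))
  · exact Measurable.forall fun a => Measurable.forall fun b =>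
      (w _).imp ((w _).and (w _))
  · exact Measurable.forall fun a => Measurable.forall fun b =>
      (w _).imp ((w _).imp measurable_const)
  · exact Measurable.forall fun a => Measurable.forall fun b => Measurable.forall fun d =>
      (w _).imp ((w _).imp (w _))
  · exact Measurable.forall fun a => Measurable.forall fun b =>
      (w _).imp ((w _).imp ((w _).or (w _)))

theorem clF_meas (x : Option (Prog × ℕ)) : Measurable (fun g : clT => clF g x) := by
  match x with
  | none => exact measurable_const
  | some (e, a) =>
    exact (cl_tot_meas e).and ((cl_LO_meas e).and ((cl_wr_meas e _).and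
      (clProp_coord (f := fun g : clT => g (Sum.inr (e, a))) (measurable_pi_apply _))))

theorem cl_lamR_meas (x y : Option (Prog × ℕ)) :
    Measurable (fun g : clT => lamR (clh g) x y) := by
  match x, y with
  | none, none => exact measurable_const
  | some _, none => exact measurable_const
  | none, some _ => exact measurable_const
  | some (e, a), some (e', b) =>
    simp only [lamR]
    exact measurable_const.or (measurable_const.and (cl_wr_meas e _))

/-- The sum computed from the halting facts and the well-founded parts. -/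
noncomputable def clN (g : clT) : ℕ × ℕ → Bool :=
  fun p => @decide (clF g (EK.symm p.1) ∧ clF g (EK.symm p.2) ∧
    lamR (clh g) (EK.symm p.1) (EK.symm p.2)) (Classical.propDecidable _)

theorem clN_meas : Measurable clN := by
  rw [measurable_pi_iff]
  intro p
  have h := (clF_meas (EK.symm p.1)).and ((clF_meas (EK.symm p.2)).and
    (cl_lamR_meas (EK.symm p.1) (EK.symm p.2)))
  refine measurable_to_bool ?_
  have : (fun g : clT => clN g p) ⁻¹' {true} = {g : clT | clF g (EK.symm p.1) ∧
      clF g (EK.symm p.2) ∧ lamR (clh g) (EK.symm p.1) (EK.symm p.2)} := by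
    ext g
    simp [clN]
  rw [this]
  exact measurableSet_setOfPred.2 h

theorem clN_eq (h : Prog × ℕ × Bool → Bool) (v : Prog × ℕ → Bool)
    (hv : ∀ a, v a = true ↔ Acc (ltw (clW h)) a) : clN (Sum.elim h v) = lamN h := by
  have hF : ∀ x, clF (Sum.elim h v) x ↔ fl h x := by
    intro x
    match x with
    | none => exact Iff.rfl
    | some (e, a) =>
      simp only [clF, fl, wfp]
      have h1 : clh (Sum.elim h v) = h := rfl
      rw [h1, Sum.elim_inr, hv, clW_acc]
  have h1 : clh (Sum.elim h v) = h := rfl
  funext p
  unfold clN lamN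
  rw [h1]
  congr 1
  simp only [hF]

/-- The sum of all computed well-orders is computable. -/
theorem comp_lam : Comp (I := Prog × ℕ × Bool) (O := ℕ × ℕ) (fun h v => v = lamN h) := by
  have h1 := comp_pre (comp_acc (Prog × ℕ)) clW clW_meas
  have h2 := comp_post h1 clN clN_meas
  obtain ⟨Mm, hM⟩ := h2
  refine ⟨Mm, fun u v => ?_⟩
  rw [hM u v]
  constructor
  · rintro ⟨w, hw, rfl⟩
    exact clN_eq u w hw
  · intro hv
    classical
    have hw : ∀ a, (fun a => decide (Acc (ltw (clW u)) a)) a = true ↔ Acc (ltw (clW u)) a :=
      fun a => by simp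
    exact ⟨fun a => decide (Acc (ltw (clW u)) a), hw, by rw [hv, clN_eq u _ hw]⟩

end Pool.Agent.Helper78.ITTM
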