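import Pool.Agent.Helper78.ITTM.Lock

/-! Module C6: the values of an official program as a Borel machine. -/

namespace Pool.Agent.Helper78.ITTM

/-- The cells on which the value of a cell after one step depends. -/
def offT (k i : ℕ) (l : LC) : Finset LC :=
  {l, .fa, .fb, .hl} ∪ ((Finset.range (i + 2)) ×ˢ (Finset.range (k + 3))).image
    (fun p => LC.hs p.1 p.2) ∪
    ((Finset.univ : Finset (Fin 3)) ×ˢ (Finset.range (i + 2))).image (fun p => LC.tp p.1 p.2)

/-- The position of a cell. -/
def offI : LC → ℕ
  | .hs i _ => i
  | .tp _ i => i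
  | _ => 0

theorem off_dep (e : Prog) (n : ℕ) (l : LC) {O O' : R2} {z z' : LC → Bool}
    (hO : ∀ j, j ∈ Finset.range (offI l + 2) → O j = O' j)
    (hz : ∀ m, m ∈ offT e.k (offI l) l → z m = z' m) :
    lstep e n O z l = lstep e n O' z' l := by
  have hfa : z .fa = z' .fa := hz _ (by simp [offT])
  have hfb : z .fb = z' .fb := hz _ (by simp [offT])
  have hhl : z .hl = z' .hl := hz _ (by simp [offT])
  have hl : z l = z' l := hz _ (by simp [offT])
  have hvh : ∀ j, j ≤ offI l + 1 → ∀ p, p < e.k + 3 → vh z j p = vh z' j p := by
    intro j hj p hp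
    unfold vh
    rw [hfa, hfb, hz (.hs j p) (by
      simp only [offT, Finset.mem_union, Finset.mem_image, Finset.mem_product, Finset.mem_range]
      exact Or.inl (Or.inr ⟨(j, p), ⟨by show j < _; omega, hp⟩, rfl⟩))]
  have htp : ∀ j, j ≤ offI l + 1 → ∀ k, z (.tp k j) = z' (.tp k j) := by
    intro j hj k
    exact hz _ (by
      simp only [offT, Finset.mem_union, Finset.mem_image, Finset.mem_product, Finset.mem_range,
        Finset.mem_univ, true_and]
      exact Or.inr ⟨(k, j), by show j < _; omega, rfl⟩)
  have hsy : ∀ j, j ≤ offI l + 1 → sy z O j = sy z' O' j := by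
    intro j hj
    unfold sy
    rw [htp j hj, htp j hj, htp j hj, hO j (Finset.mem_range.2 (by omega))]
  unfold lstep
  rw [hfa, hfb, hhl]
  cases h1 : (!z' .fa && !z' .fb)
  · cases h2 : z' .hl
    · cases l with
      | hs i q =>
        simp only [Bool.false_eq_true, if_false]
        rw [decide_eq_decide]
        refine exists_congr fun j => and_congr_right fun hj => exists_congr fun p => ?_
        rw [hvh j hj p p.2, hsy j hj]
      | tp k i =>
        simp only [Bool.false_eq_true, if_false]
        rw [decide_eq_decide, hl]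
        have e1 : ∀ p : Fin (e.k + 3), vh z i p.1 = vh z' i p.1 :=
          fun p => hvh i (Nat.le_succ i) p p.2
        have e2 : sy z O i = sy z' O' i := hsy i (Nat.le_succ i)
        rw [e2]
        simp only [e1]
      | fa => rfl
      | fb => rfl
      | hl =>
        simp only [Bool.false_eq_true, if_false]
        exact hvh 0 (Nat.zero_le _) 2 (by omega)
    · simp only [Bool.false_eq_true, if_false, if_true]
      exact hl
  · rfl

theorem meas_fin2 {A B : Type} (f : (A → Bool) × (B → Bool) → Bool) (S : Finset A) (T : Finset B)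
    (h : ∀ p p' : (A → Bool) × (B → Bool), (∀ a, a ∈ S → p.1 a = p'.1 a) →
      (∀ b, b ∈ T → p.2 b = p'.2 b) → f p = f p') : Measurable f := by
  classical
  let r : (A → Bool) × (B → Bool) → ((S → Bool) × (T → Bool)) :=
    fun p => (fun a => p.1 a, fun b => p.2 b)
  let g : ((S → Bool) × (T → Bool)) → Bool := fun w =>
    f (fun a => if h : a ∈ S then w.1 ⟨a, h⟩ else false,
      fun b => if h : b ∈ T then w.2 ⟨b, h⟩ else false)
  have hfg : f = g ∘ r := by
    funext p
    refine h _ _ ?_ ?_
    · intro a ha
      simp [r, ha]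
    · intro b hb
      simp [r, hb]
  have hr : Measurable r := by
    refine Measurable.prodMk ?_ ?_
    · exact measurable_pi_lambda _ (fun a => (measurable_pi_apply _).comp measurable_fst)
    · exact measurable_pi_lambda _ (fun a => (measurable_pi_apply _).comp measurable_snd)
  have hg : Measurable g := Measurable.of_discrete
  rw [hfg]
  exact hg.comp hr

/-- The machine computing all values of the program. -/
noncomputable def offM (e : Prog) : BI ℕ ℕ where
  J := Option (ℕ × LC)
  cJ := inferInstance
  init := fun _ => false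
  step := fun O z j => match j with
    | some (n, l) => lstep e n O (fun l => z (some (n, l))) l
    | none => @decide (∀ n, z (some (n, .hl)) = true ∧ ∀ j, z (some (n, .tp 2 (j + 1))) = false)
        (Classical.propDecidable _)
  meas := by
    refine measurable_pi_lambda _ fun j => ?_
    match j with
    | some (n, l) =>
      refine meas_fin2 _ (Finset.range (offI l + 2))
        ((offT e.k (offI l) l).map ⟨fun l => some (n, l), fun a b h => by simpa using h⟩) ?_
      intro p p' h1 h2
      refine off_dep e n l h1 ?_
      intro m hm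
      exact h2 _ (Finset.mem_map.2 ⟨m, hm, rfl⟩)
    | none =>
      refine measurable_to_bool ?_
      have : ((fun p : (ℕ → Bool) × (Option (ℕ × LC) → Bool) =>
          @decide (∀ n, p.2 (some (n, .hl)) = true ∧ ∀ j, p.2 (some (n, .tp 2 (j + 1))) = false)
          (Classical.propDecidable _)) ⁻¹' {true}) =
          ⋂ n : ℕ, ((fun p => p.2 (some (n, .hl))) ⁻¹' {true} ∩
            ⋂ j : ℕ, (fun p => p.2 (some (n, .tp 2 (j + 1)))) ⁻¹' {false}) := by
        ext p
        simp
      rw [this]
      refine MeasurableSet.iInter fun n => MeasurableSet.inter ?_ (MeasurableSet.iInter fun j => ?_)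
      · exact ((measurable_pi_apply _).comp measurable_snd) (MeasurableSet.singleton _)
      · exact ((measurable_pi_apply _).comp measurable_snd) (MeasurableSet.singleton _)
  halt := none
  out := fun n => some (n, .tp 2 0)

theorem off_run (e : Prog) (O : R2) (a : Ordinal.{0}) (n : ℕ) (l : LC) :
    iter ((offM e).step O) (offM e).init a (some (n, l)) = lrun e n O a l := by
  induction a using Ordinal.limitRecOn generalizing l with
  | zero =>
    unfold lrun
    rw [iter_zero, iter_zero]
    rfl
  | add_one a ih =>
    unfold lrun at ih ⊢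
    rw [iter_succ, iter_succ]
    show lstep e n O (fun l => iter ((offM e).step O) (offM e).init a (some (n, l))) l = _
    congr 1
    funext l'
    exact ih l'
  | limit a ha ih =>
    unfold lrun at ih ⊢
    rw [iter_lim _ _ ha, iter_lim _ _ ha]
    apply run_bool_ext
    rw [lsup_eq_true, lsup_eq_true]
    constructor
    · intro h b hb
      obtain ⟨d, hd, hbd, he⟩ := h b hb
      exact ⟨d, hd, hbd, by rw [← ih d hd l]; exact he⟩
    · intro h b hb
      obtain ⟨d, hd, hbd, he⟩ := h b hb
      exact ⟨d, hd, hbd, by rw [ih d hd l]; exact he⟩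

theorem off_halt_succ (e : Prog) (O : R2) (a : Ordinal.{0}) :
    iter ((offM e).step O) (offM e).init (a + 1) (offM e).halt = true ↔
      ∀ n, lrun e n O a .hl = true ∧ ∀ j, lrun e n O a (.tp 2 (j + 1)) = false := by
  rw [iter_succ]
  show @decide (∀ n, iter ((offM e).step O) (offM e).init a (some (n, .hl)) = true ∧
    ∀ j, iter ((offM e).step O) (offM e).init a (some (n, .tp 2 (j + 1))) = false)
        (Classical.propDecidable _) = true ↔ _
  refine (@decide_eq_true_iff _ (Classical.propDecidable _)).trans ?_
  simp only [off_run]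

theorem off_first (e : Prog) (O : R2) {a : Ordinal.{0}}
    (h1 : iter ((offM e).step O) (offM e).init a (offM e).halt = true)
    (h2 : ∀ b, b < a → iter ((offM e).step O) (offM e).init b (offM e).halt = false) :
    ∃ b, a = b + 1 ∧ ∀ n, lrun e n O b .hl = true ∧ ∀ j, lrun e n O b (.tp 2 (j + 1)) = false := by
  induction a using Ordinal.limitRecOn with
  | zero =>
    rw [iter_zero] at h1
    cases h1
  | add_one a _ => exact ⟨a, rfl, (off_halt_succ e O a).1 h1⟩
  | limit a ha _ =>
    rw [iter_lim _ _ ha] at h1
    rw [lsup_eq_true] at h1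
    obtain ⟨c, hc, -, h3⟩ := h1 0 ha.bot_lt
    rw [h2 c hc] at h3
    cases h3

theorem comp_off (e : Prog) :
    Comp (I := ℕ) (O := ℕ) (fun O v => ∀ n, Halts e O n (v n).toNat) := by
  refine ⟨offM e, fun O v => ⟨?_, ?_⟩⟩
  · rintro ⟨a, h1, h2, h3⟩ n
    obtain ⟨b, rfl, h4⟩ := off_first e O h1 h2
    refine halts_of_lock (h4 n).1 ?_
    have h5 : lrun e n O b (.tp 2 0) = v n := by
      rw [← h3 n, ← lock_stable (h4 n).1 (le_self_add : b ≤ b + 1)]
      exact (off_run e O (b + 1) n (.tp 2 0)).symm
    intro j
    cases j with
    | zero =>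
      rw [h5]
      cases v n <;> simp
    | succ j =>
      rw [(h4 n).2 j]
      cases v n <;> simp
  · intro h
    choose γ hγ1 hγ2 using fun n => lock_of_halts (h n)
    have hb : BddAbove (Set.range γ) := Ordinal.bddAbove_of_small
    have hle : ∀ n, γ n ≤ ⨆ n, γ n := fun n => le_ciSup hb n
    have hex : iter ((offM e).step O) (offM e).init ((⨆ n, γ n) + 1) (offM e).halt = true := by
      rw [off_halt_succ]
      intro n
      rw [lock_stable (hγ1 n) (hle n)]
      refine ⟨hγ1 n, fun j => ?_⟩
      rw [hγ2]
      cases v n <;> simp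
    let S : Set Ordinal.{0} :=
      {a | iter ((offM e).step O) (offM e).init a (offM e).halt = true}
    have hS : S.Nonempty := ⟨_, hex⟩
    have h1 : iter ((offM e).step O) (offM e).init (sInf S) (offM e).halt = true := csInf_mem hS
    have h2 : ∀ b, b < sInf S → iter ((offM e).step O) (offM e).init b (offM e).halt = false := by
      intro b hb
      have : b ∉ S := notMem_of_lt_csInf' hb
      simpa [S] using this
    refine ⟨sInf S, h1, h2, fun n => ?_⟩
    obtain ⟨b, hb', h4⟩ := off_first e O h1 h2
    rw [hb']
    show iter ((offM e).step O) (offM e).init (b + 1) (some (n, .tp 2 0)) = v n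
    rw [off_run, lock_stable (h4 n).1 (le_self_add : b ≤ b + 1)]
    have h7 : lrun e n O b = lrun e n O (γ n) := by
      rcases le_total (γ n) b with hl | hl
      · exact lock_stable (hγ1 n) hl
      · exact (lock_stable (h4 n).1 hl).symm
    rw [h7, hγ2]
    cases v n <;> simp

end Pool.Agent.Helper78.ITTM
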