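import Pool.Agent.Helper78.ITTM.CDefs

/-! Cuts of rationals coding reals. -/

namespace Pool.Agent.Helper78.ITTM

theorem vq_bound (s : List Bool) : -1 < vq s ∧ vq s < 1 := by
  induction s with
  | nil => norm_num [vq]
  | cons b s ih =>
    obtain ⟨h1, h2⟩ := ih
    cases b <;> simp only [vq, Bool.false_eq_true, if_false, if_true] <;> constructor <;> linarith

theorem vq_append (s t : List Bool) : vq (s ++ t) = vq s + vq t / 2 ^ s.length := by
  induction s with
  | nil => simp [vq]
  | cons b s ih =>
    simp only [List.cons_append, vq, ih, List.length_cons, pow_succ]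
    field_simp
    ring

theorem vq_lt_of_true (s t : List Bool) : vq s < vq (s ++ true :: t) := by
  rw [vq_append]
  have h := (vq_bound t).1
  have h2 : 0 < vq (true :: t) := by
    simp only [vq, if_true]
    linarith
  have h3 : (0 : ℚ) < 2 ^ s.length := by positivity
  have := div_pos h2 h3
  linarith

theorem vq_lt_of_false (s t : List Bool) : vq (s ++ false :: t) < vq s := by
  rw [vq_append]
  have h := (vq_bound t).2
  have h2 : vq (false :: t) < 0 := by
    simp only [vq, Bool.false_eq_true, if_false]
    linarith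
  have h3 : (0 : ℚ) < 2 ^ s.length := by positivity
  have := div_neg_of_neg_of_pos h2 h3
  linarith

theorem pre_succ_split (w : R2) (n m : ℕ) (h : n < m) :
    ∃ t, pre w m = pre w n ++ w n :: t := by
  obtain ⟨k, rfl⟩ : ∃ k, m = n + 1 + k := ⟨m - (n + 1), by omega⟩
  refine ⟨(List.range k).map (fun i => w (n + 1 + i)), ?_⟩
  simp only [pre]
  rw [List.range_add, List.map_append, List.range_succ, List.map_append, List.append_assoc]
  congr 1
  simp [List.map_map, Function.comp_def]

theorem pre_add_one (w : R2) (n : ℕ) : pre w (n + 1) = pre w n ++ [w n] := by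
  simp [pre, List.range_succ]

theorem cut_exists (w : R2) : ∃ A : ℚ → Bool, (∀ q q', q ≤ q' → A q' = true → A q = true) ∧
    (∀ q, A q = true → ∃ q', q < q' ∧ A q' = true) ∧ (∃ q, A q = true) ∧
    (∃ q, A q = false) ∧ dec A = w := by
  classical
  let w' : R2 := fun n => if n % 2 = 0 then w (n / 2) else true
  let A : ℚ → Bool := fun q => decide (∃ n, w' n = true ∧ q ≤ vq (pre w' n))
  have hA : ∀ q, A q = true ↔ ∃ n, w' n = true ∧ q ≤ vq (pre w' n) := fun q => by simp [A]
  have hodd : ∀ n, w' (2 * n + 1) = true := fun n => by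
    have : (2 * n + 1) % 2 = 1 := by omega
    simp [w', this]
  have hinc : ∀ n m, n < m → w' n = true → vq (pre w' n) < vq (pre w' m) := by
    intro n m hnm hn
    obtain ⟨t, ht⟩ := pre_succ_split w' n m hnm
    rw [ht, hn]
    exact vq_lt_of_true _ _
  have hdec : ∀ n m, n < m → w' n = false → vq (pre w' m) < vq (pre w' n) := by
    intro n m hnm hn
    obtain ⟨t, ht⟩ := pre_succ_split w' n m hnm
    rw [ht, hn]
    exact vq_lt_of_false _ _
  have hval : ∀ n, A (vq (pre w' n)) = w' n := by
    intro n
    cases hn : w' n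
    · by_contra hc
      have h1 : A (vq (pre w' n)) = true := by
        cases h : A (vq (pre w' n))
        · exact absurd h hc
        · rfl
      rw [hA] at h1
      obtain ⟨m, hm, hle⟩ := h1
      rcases lt_trichotomy m n with h | h | h
      · exact absurd hle (not_le.mpr (hinc m n h hm))
      · rw [h, hn] at hm
        exact absurd hm (by simp)
      · exact absurd hle (not_le.mpr (hdec n m h hn))
    · rw [hA]
      exact ⟨n, hn, le_rfl⟩
  have hpfx : ∀ n, pfx A n = pre w' n := by
    intro n
    induction n with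
    | zero => simp [pfx, pre]
    | succ n ih => rw [pfx, ih, hval, pre_add_one]
  refine ⟨A, ?_, ?_, ?_, ?_, ?_⟩
  · intro q q' hq h
    rw [hA] at h ⊢
    obtain ⟨n, h1, h2⟩ := h
    exact ⟨n, h1, hq.trans h2⟩
  · intro q h
    rw [hA] at h
    obtain ⟨n, h1, h2⟩ := h
    refine ⟨vq (pre w' (2 * n + 1)), lt_of_le_of_lt h2 (hinc n _ (by omega) h1), ?_⟩
    rw [hval]
    exact hodd n
  · exact ⟨vq (pre w' 1), by rw [hval]; exact hodd 0⟩
  · refine ⟨1, ?_⟩
    by_contra hc
    have h1 : A 1 = true := by
      cases h : A 1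
      · exact absurd h hc
      · rfl
    rw [hA] at h1
    obtain ⟨n, -, h2⟩ := h1
    exact absurd h2 (not_le.mpr (vq_bound _).2)
  · funext n
    rw [dec, hpfx, hval]
    simp [w']

theorem meas_pfx (n : ℕ) (s : List Bool) : MeasurableSet {A : ℚ → Bool | pfx A n = s} := by
  induction n generalizing s with
  | zero =>
    by_cases h : s = []
    · have : {A : ℚ → Bool | pfx A 0 = s} = Set.univ := by
        ext A
        simp [pfx, h]
      rw [this]
      exact MeasurableSet.univ
    · have : {A : ℚ → Bool | pfx A 0 = s} = ∅ := by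
        ext A
        simp only [pfx, Set.mem_ofPred_eq, Set.mem_empty_iff_false, iff_false]
        exact fun h' => h h'.symm
      rw [this]
      exact MeasurableSet.empty
  | succ n ih =>
    have : {A : ℚ → Bool | pfx A (n + 1) = s} =
        ⋃ t : List Bool, ⋃ b : Bool, ({A : ℚ → Bool | pfx A n = t} ∩ {A : ℚ → Bool | A (vq t) = b}) ∩
          {_A : ℚ → Bool | t ++ [b] = s} := by
      ext A
      simp only [pfx, Set.mem_ofPred_eq, Set.mem_iUnion, Set.mem_inter_iff]
      constructor
      · intro h
        exact ⟨pfx A n, A (vq (pfx A n)), ⟨rfl, rfl⟩, h⟩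
      · rintro ⟨t, b, ⟨h1, h2⟩, h3⟩
        rw [h1, h2]
        exact h3
    rw [this]
    refine MeasurableSet.iUnion (fun t => MeasurableSet.iUnion (fun b => ?_))
    refine ((ih t).inter ?_).inter (MeasurableSet.const _)
    have hm : Measurable (fun A : ℚ → Bool => A (vq t)) := measurable_pi_apply (vq t)
    exact hm (measurableSet_singleton b)

theorem meas_dec : Measurable dec := by
  refine measurable_pi_iff.mpr (fun n => ?_)
  refine measurable_to_bool ?_
  have : (fun A : ℚ → Bool => dec A n) ⁻¹' {true} =
      ⋃ t : List Bool, {A : ℚ → Bool | pfx A (2 * n) = t} ∩ {A : ℚ → Bool | A (vq t) = true} := by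
    ext A
    simp only [dec, Set.mem_preimage, Set.mem_singleton_iff, Set.mem_iUnion, Set.mem_inter_iff,
      Set.mem_ofPred_eq]
    constructor
    · intro h
      exact ⟨_, rfl, h⟩
    · rintro ⟨t, h1, h2⟩
      rw [h1]
      exact h2
  rw [this]
  refine MeasurableSet.iUnion (fun t => (meas_pfx _ t).inter ?_)
  have hm : Measurable (fun A : ℚ → Bool => A (vq t)) := measurable_pi_apply (vq t)
  exact hm (measurableSet_singleton true)

end Pool.Agent.Helper78.ITTM
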