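import Mathlib

/-! Infinite time Turing machines: official definitions, generic machines, iterations. -/

namespace Pool.Agent.Helper78.ITTM

open Ordinal

/-- A real: the characteristic function of a set of natural numbers. -/
abbrev R2 : Type := ℕ → Bool

/-- A finite program of an oracle infinite time Turing machine.  The states are the numbers below
`k + 3`; state 0 is the start state, state 1 the limit state, state 2 the halting state.  `tr q v`
is the instruction for state `q` and read symbols `v` (the three tapes 0, 1, 2 and the oracle
tape 3): new state, symbols written on the three tapes, and the move (`true`: right, `false`: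
left). -/
structure Prog where
  k : ℕ
  tr : Fin (k + 3) → (Fin 4 → Bool) → Fin (k + 3) × (Fin 3 → Bool) × Bool

/-- A configuration: state, head position, contents of the three tapes. -/
structure Conf (k : ℕ) where
  q : Fin (k + 3)
  h : ℕ
  T : Fin 3 → ℕ → Bool

/-- The symbols read at the head position of a configuration, oracle tape `y`. -/
def Conf.read {k : ℕ} (c : Conf k) (y : R2) : Fin 4 → Bool :=
  fun i => if h : i.1 < 3 then c.T ⟨i.1, h⟩ c.h else y c.h

/-- One ordinary step.  A left move at cell 0 leaves the head on cell 0. -/
def Prog.step (P : Prog) (y : R2) (c : Conf P.k) : Conf P.k where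
  q := (P.tr c.q (c.read y)).1
  h := if (P.tr c.q (c.read y)).2.2 then c.h + 1 else c.h - 1
  T := fun i => Function.update (c.T i) c.h ((P.tr c.q (c.read y)).2.1 i)

/-- Limit superior of a sequence of bits of length `a`: the value is 1 if the bit is 1
cofinally often. -/
noncomputable def lsup (a : Ordinal.{0}) (f : (b : Ordinal.{0}) → b < a → Bool) : Bool :=
  open Classical in decide (∀ b, b < a → ∃ c, ∃ h : c < a, b ≤ c ∧ f c h = true)

/-- The start configuration on input `n` (given as `n` ones on tape 0). -/
def Prog.init (P : Prog) (n : ℕ) : Conf P.k where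
  q := ⟨0, by omega⟩
  h := 0
  T := fun i j => decide (i = 0 ∧ j < n)

/-- The run of program `P` with oracle `y` on input `n` through the ordinals. -/
noncomputable def Prog.run (P : Prog) (y : R2) (n : ℕ) (a : Ordinal.{0}) : Conf P.k :=
  Ordinal.limitRecOn a (P.init n) (fun _ c => P.step y c)
    (fun b _ f => ⟨⟨1, by omega⟩, 0, fun i j => lsup b (fun c hc => (f c hc).T i j)⟩)

/-- `P` with oracle `y` and input `n` halts with output `z` (unary on tape 2). -/
def Halts (P : Prog) (y : R2) (n z : ℕ) : Prop :=
  ∃ a, (P.run y n a).q = ⟨2, by omega⟩ ∧ (∀ b, b < a → (P.run y n b).q ≠ ⟨2, by omega⟩) ∧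
    ∀ j, (P.run y n a).T 2 j = decide (j < z)

/-- `x` is ITTM-decidable in `y`. -/
def Le (x y : R2) : Prop := ∃ P : Prog, ∀ n, Halts P y n (x n).toNat

/-! ### Generic machines with a single head, arbitrary tracks and states. -/

/-- A machine with track set `κ`, state set `Q`. -/
structure Mach (κ Q : Type) where
  lim : Q
  tr : Q → (κ → Bool) → Q × (κ → Bool) × Bool

/-- Configurations of generic machines. -/
structure Cfg (κ Q : Type) where
  q : Q
  h : ℕ
  T : κ → ℕ → Bool

/-- The symbols under the head. -/
def Cfg.rd {κ Q : Type} (c : Cfg κ Q) : κ → Bool := fun k => c.T k c.h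

/-- One step of a generic machine. -/
def Mach.step {κ Q : Type} (M : Mach κ Q) (c : Cfg κ Q) : Cfg κ Q where
  q := (M.tr c.q c.rd).1
  h := if (M.tr c.q c.rd).2.2 then c.h + 1 else c.h - 1
  T := fun k => Function.update (c.T k) c.h ((M.tr c.q c.rd).2.1 k)

/-- The transfinite run of a generic machine from a configuration. -/
noncomputable def Mach.run {κ Q : Type} (M : Mach κ Q) (c : Cfg κ Q) (a : Ordinal.{0}) : Cfg κ Q :=
  Ordinal.limitRecOn a c (fun _ c => M.step c)
    (fun b _ f => ⟨M.lim, 0, fun i j => lsup b (fun c hc => (f c hc).T i j)⟩)

/-! ### Transfinite iterations of operators on bit vectors. -/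

/-- The iteration of `F` from `z` with limit superior at limits. -/
noncomputable def iter {J : Type} (F : (J → Bool) → (J → Bool)) (z : J → Bool)
    (a : Ordinal.{0}) : J → Bool :=
  Ordinal.limitRecOn a z (fun _ w => F w) (fun b _ f => fun j => lsup b (fun c hc => f c hc j))

/-- Even part of a real. -/
def ev (y : R2) : R2 := fun i => y (2 * i)

/-- Odd part of a real. -/
def od (y : R2) : R2 := fun i => y (2 * i + 1)

/-- Join of two reals. -/
def join (c x : R2) : R2 := fun i => if i % 2 = 0 then c (i / 2) else x (i / 2)

/-- A Borel machine: countably many cells `J`, initial state, step depending on two reals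
(the constant `c` and the input `x`), a halting cell and output cells. -/
structure BM where
  J : Type
  cJ : Countable J
  init : J → Bool
  step : R2 → R2 → (J → Bool) → (J → Bool)
  meas : Measurable (fun p : R2 × R2 × (J → Bool) => step p.1 p.2.1 p.2.2)
  halt : J
  out : ℕ → J

/-- The run of a Borel machine. -/
noncomputable def BM.run (M : BM) (c x : R2) (a : Ordinal.{0}) : M.J → Bool :=
  iter (M.step c x) M.init a

/-- A Borel machine halts with output `v`: at the first stage at which the halting cell is on,
the output cells hold `v`. -/
def BM.Halts (M : BM) (c x v : R2) : Prop :=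
  ∃ a, M.run c x a M.halt = true ∧ (∀ b, b < a → M.run c x b M.halt = false) ∧
    ∀ n, M.run c x a (M.out n) = v n

/-- `x` computes some real with even part `c`. -/
def Above (c x : R2) : Prop := ∃ y, ev y = c ∧ Le y x

/-- `c` realises the countable family `M` of Borel machines. -/
def Realises (c : R2) (M : ℕ → BM) : Prop :=
  ∀ k x v, Above c x → (M k).Halts c x v → Le v x

end Pool.Agent.Helper78.ITTM
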