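import Pool.Agent.Helper78.ITTM.CDefs2
import Pool.Agent.Helper78.ITTM.Ranks

/-! The sum of all well-orders computed according to `h`. -/

namespace Pool.Agent.Helper78.ITTM

theorem lamN_iff (h : Prog × ℕ × Bool → Bool) (x y : Option (Prog × ℕ)) :
    lamN h (EK x, EK y) = true ↔ fl h x ∧ fl h y ∧ lamR h x y := by
  simp [lamN]

theorem lamR_refl (h : Prog × ℕ × Bool → Bool) (x : Option (Prog × ℕ)) (hx : fl h x) :
    lamR h x x := by
  match x with
  | none => simp [lamR]
  | some (e, a) =>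
    exact Or.inr ⟨rfl, hx.2.2.1⟩

theorem lamR_antisymm (h : Prog × ℕ × Bool → Bool) (x y : Option (Prog × ℕ)) (hx : fl h x)
    (h1 : lamR h x y) (h2 : lamR h y x) : x = y := by
  match x, y with
  | none, none => rfl
  | none, some (e, a) => exact absurd h1 (by simp [lamR])
  | some (e, a), none => exact absurd h2 (by simp [lamR])
  | some (e, a), some (e', b) =>
    simp only [lamR] at h1 h2
    rcases h1 with h1 | ⟨rfl, h1⟩
    · rcases h2 with h2 | ⟨rfl, h2⟩
      · exact absurd (lt_trans h1 h2) (lt_irrefl _)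
      · exact absurd h1 (lt_irrefl _)
    · rcases h2 with h2 | ⟨-, h2⟩
      · exact absurd h2 (lt_irrefl _)
      · rw [hx.2.1.2.1 a b h1 h2]

theorem lamR_trans (h : Prog × ℕ × Bool → Bool) (x y z : Option (Prog × ℕ)) (hx : fl h x)
    (h1 : lamR h x y) (h2 : lamR h y z) : lamR h x z := by
  match x, y, z with
  | x, _, none => cases x <;> simp [lamR]
  | none, some _, some _ => exact absurd h1 (by simp [lamR])
  | _, none, some _ => exact absurd h2 (by simp [lamR])
  | some (e, a), some (e', b), some (e'', d) =>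
    simp only [lamR] at h1 h2 ⊢
    rcases h1 with h1 | ⟨rfl, h1⟩
    · rcases h2 with h2 | ⟨rfl, h2⟩
      · exact Or.inl (lt_trans h1 h2)
      · exact Or.inl h1
    · rcases h2 with h2 | ⟨rfl, h2⟩
      · exact Or.inl h2
      · exact Or.inr ⟨rfl, hx.2.1.2.2.1 a b d h1 h2⟩

theorem lamR_total (h : Prog × ℕ × Bool → Bool) (x y : Option (Prog × ℕ)) (hx : fl h x)
    (hy : fl h y) : lamR h x y ∨ lamR h y x := by
  match x, y with
  | x, none => left; cases x <;> simp [lamR]
  | none, some (e, a) => right; simp [lamR]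
  | some (e, a), some (e', b) =>
    simp only [lamR]
    rcases lt_trichotomy (Encodable.encode e) (Encodable.encode e') with hl | he | hg
    · exact Or.inl (Or.inl hl)
    · have hee : e = e' := Encodable.encode_injective he
      subst hee
      rcases hx.2.1.2.2.2 a b hx.2.2.1 hy.2.2.1 with h1 | h1
      · exact Or.inl (Or.inr ⟨rfl, h1⟩)
      · exact Or.inr (Or.inr ⟨rfl, h1⟩)
    · exact Or.inr (Or.inl hg)

theorem lam_LO (h : Prog × ℕ × Bool → Bool) : LO (lamN h) := by
  have key : ∀ P : ℕ → Prop, (∀ x, P (EK x)) → ∀ n, P n := by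
    intro P hP n
    have := hP (EK.symm n)
    simpa using this
  refine ⟨?_, ?_, ?_, ?_⟩
  · refine key _ (fun x => key _ (fun y => ?_))
    intro hxy
    rw [lamN_iff] at hxy
    rw [lamN_iff, lamN_iff]
    exact ⟨⟨hxy.1, hxy.1, lamR_refl h x hxy.1⟩, ⟨hxy.2.1, hxy.2.1, lamR_refl h y hxy.2.1⟩⟩
  · refine key _ (fun x => key _ (fun y => ?_))
    intro h1 h2
    rw [lamN_iff] at h1 h2
    rw [lamR_antisymm h x y h1.1 h1.2.2 h2.2.2]
  · refine key _ (fun x => key _ (fun y => key _ (fun z => ?_)))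
    intro h1 h2
    rw [lamN_iff] at h1 h2 ⊢
    exact ⟨h1.1, h2.2.1, lamR_trans h x y z h1.1 h1.2.2 h2.2.2⟩
  · refine key _ (fun x => key _ (fun y => ?_))
    intro h1 h2
    rw [lamN_iff] at h1 h2 ⊢
    rw [lamN_iff]
    rcases lamR_total h x y h1.1 h2.1 with h3 | h3
    · exact Or.inl ⟨h1.1, h2.1, h3⟩
    · exact Or.inr ⟨h2.1, h1.1, h3⟩

theorem ltw_lamN (h : Prog × ℕ × Bool → Bool) (x y : Option (Prog × ℕ)) :
    ltw (lamN h) (EK x) (EK y) ↔ fl h x ∧ fl h y ∧ lamR h x y ∧ x ≠ y := by
  simp only [ltw, lamN_iff, ne_eq, EmbeddingLike.apply_eq_iff_eq]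
  tauto

theorem lam_acc_some (h : Prog × ℕ × Bool → Bool) (n : ℕ) :
    ∀ e : Prog, Encodable.encode e = n → ∀ a, Acc (ltw (lamN h)) (EK (some (e, a))) := by
  induction n using Nat.strong_induction_on with
  | _ n ih =>
    intro e he a
    by_cases hf : fl h (some (e, a))
    · have hacc : Acc (ltw (wr (rel h e))) a := hf.2.2.2
      induction hacc with
      | intro a _ iha =>
        refine Acc.intro _ (fun b hb => ?_)
        obtain ⟨y, rfl⟩ := EK.surjective b
        rw [ltw_lamN] at hb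
        obtain ⟨h1, h2, h3, h4⟩ := hb
        match y with
        | none => exact absurd h3 (by simp [lamR])
        | some (e', b') =>
          simp only [lamR] at h3
          rcases h3 with h3 | ⟨rfl, h3⟩
          · exact ih _ (by rw [← he]; exact h3) e' rfl b'
          · have hne : b' ≠ a := by
              rintro rfl
              exact h4 rfl
            exact iha b' ⟨h3, hne⟩ h1
    · refine Acc.intro _ (fun b hb => ?_)
      obtain ⟨y, rfl⟩ := EK.surjective b
      rw [ltw_lamN] at hb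
      exact absurd hb.2.1 hf

theorem lam_acc (h : Prog × ℕ × Bool → Bool) (a : ℕ) : Acc (ltw (lamN h)) a := by
  obtain ⟨x, rfl⟩ := EK.surjective a
  match x with
  | some (e, a) => exact lam_acc_some h _ e rfl a
  | none =>
    refine Acc.intro _ (fun b hb => ?_)
    obtain ⟨y, rfl⟩ := EK.surjective b
    rw [ltw_lamN] at hb
    match y with
    | none => exact absurd rfl hb.2.2.2
    | some (e, a) => exact lam_acc_some h _ e rfl a

theorem lam_top (h : Prog × ℕ × Bool → Bool) : wfp (lamN h) ltop := by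
  refine ⟨?_, lam_acc h _⟩
  rw [ltop, lamN_iff]
  simp [fl, lamR]

theorem lam_lt_top (h : Prog × ℕ × Bool → Bool) (x : Prog × ℕ) (hx : fl h (some x)) :
    ltw (lamN h) (EK (some x)) ltop := by
  rw [ltop, ltw_lamN]
  refine ⟨hx, trivial, ?_, by simp⟩
  obtain ⟨e, a⟩ := x
  simp [lamR]

theorem lam_le_top (h : Prog × ℕ × Bool → Bool) (a : ℕ) (ha : wfp (lamN h) a) :
    rkw (lamN h) a ≤ rkw (lamN h) ltop := by
  obtain ⟨x, rfl⟩ := EK.surjective a
  match x with
  | none => exact le_rfl
  | some y =>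
    have h1 := ha.1
    rw [lamN_iff] at h1
    exact (rkw_lt (lam_top h) (lam_lt_top h y h1.1)).le

theorem lam_rank (h : Prog × ℕ × Bool → Bool) (e : Prog) (he : tot h e)
    (hw : LO (wr (rel h e))) (a : ℕ) (ha : wfp (wr (rel h e)) a) :
    rkw (wr (rel h e)) a < rkw (lamN h) ltop := by
  have key : ∀ a, Acc (ltw (wr (rel h e))) a → wr (rel h e) (a, a) = true →
      rkw (wr (rel h e)) a ≤ rkw (lamN h) (EK (some (e, a))) := by
    intro a hacc
    induction hacc with
    | intro a hacc ih =>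
      intro haa
      have hA : Acc (ltw (wr (rel h e))) a := Acc.intro a hacc
      have hfa : fl h (some (e, a)) := ⟨he, hw, haa, hA⟩
      rw [rkw_acc hA, Acc.rank_eq]
      refine Ordinal.iSup_le ?_
      rintro ⟨b, hb⟩
      rw [Order.succ_le_iff]
      have hbb : wr (rel h e) (b, b) = true := (hw.1 b a hb.1).1
      have hfb : fl h (some (e, b)) := ⟨he, hw, hbb, hA.inv hb⟩
      have h1 := ih b hb hbb
      rw [rkw_acc (hA.inv hb)] at h1
      refine lt_of_le_of_lt h1 (rkw_lt_acc (lam_acc h _) ?_)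
      rw [ltw_lamN]
      refine ⟨hfb, hfa, ?_, ?_⟩
      · exact Or.inr ⟨rfl, hb.1⟩
      · intro hc
        exact hb.2 (by simpa using hc)
  exact lt_of_le_of_lt (key a ha.2 ha.1) (rkw_lt (lam_top h) (lam_lt_top h (e, a)
    ⟨he, hw, ha.1, ha.2⟩))

end Pool.Agent.Helper78.ITTM
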