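import Pool.Agent.Helper78.ITTM.CDefs2

/-! The product of all official runs as a local operator; enumerations. -/

namespace Pool.Agent.Helper78.ITTM

/-- Bound for the positions on which the new value of a cell depends. -/
def LC.bd : LC → ℕ
  | .hs i _ => i + 1
  | .tp _ i => i
  | _ => 0

/-- The cells on which the new value of a cell depends. -/
def LC.sup (K : ℕ) (l : LC) : Finset LC :=
  {.fa, .fb, .hl, l} ∪
    ((Finset.range (l.bd + 1) ×ˢ Finset.range (K + 3)).image (fun p => LC.hs p.1 p.2) ∪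
      ((Finset.univ : Finset (Fin 3)) ×ˢ Finset.range (l.bd + 1)).image (fun p => LC.tp p.1 p.2))

theorem LC.mem_hs {K : ℕ} {l : LC} {j q : ℕ} (h : j ≤ l.bd) (hq : q < K + 3) :
    LC.hs j q ∈ l.sup K := by
  refine Finset.mem_union_right _ (Finset.mem_union_left _ (Finset.mem_image.2 ⟨(j, q), ?_, rfl⟩))
  simp only [Finset.mem_product, Finset.mem_range]
  exact ⟨by omega, hq⟩

theorem LC.mem_tp {K : ℕ} {l : LC} {j : ℕ} (k : Fin 3) (h : j ≤ l.bd) :
    LC.tp k j ∈ l.sup K := by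
  refine Finset.mem_union_right _ (Finset.mem_union_right _ (Finset.mem_image.2 ⟨(k, j), ?_, rfl⟩))
  simp only [Finset.mem_product, Finset.mem_range, Finset.mem_univ, true_and]
  omega

theorem LC.mem_self {K : ℕ} {l : LC} : l ∈ l.sup K := by simp [LC.sup]
theorem LC.mem_fa {K : ℕ} {l : LC} : LC.fa ∈ l.sup K := by simp [LC.sup]
theorem LC.mem_fb {K : ℕ} {l : LC} : LC.fb ∈ l.sup K := by simp [LC.sup]
theorem LC.mem_hl {K : ℕ} {l : LC} : LC.hl ∈ l.sup K := by simp [LC.sup]

theorem lstep_congr (e : Prog) (n : ℕ) {O O' : R2} {z z' : LC → Bool} (l : LC)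
    (hO : ∀ j, j ≤ l.bd → O j = O' j) (hz : ∀ l', l' ∈ l.sup e.k → z l' = z' l') :
    lstep e n O z l = lstep e n O' z' l := by
  have ha : z .fa = z' .fa := hz _ LC.mem_fa
  have hb : z .fb = z' .fb := hz _ LC.mem_fb
  have hh : z .hl = z' .hl := hz _ LC.mem_hl
  have hl : z l = z' l := hz _ LC.mem_self
  have hv : ∀ j, j ≤ l.bd → ∀ q, q < e.k + 3 → vh z j q = vh z' j q := by
    intro j hj q hq
    unfold vh
    rw [ha, hb, hz _ (LC.mem_hs hj hq)]
  have hs : ∀ j, j ≤ l.bd → sy z O j = sy z' O' j := by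
    intro j hj
    unfold sy
    rw [hz _ (LC.mem_tp 0 hj), hz _ (LC.mem_tp 1 hj), hz _ (LC.mem_tp 2 hj), hO j hj]
  unfold lstep
  rw [ha, hb, hh, hl]
  cases l with
  | hs i q =>
    have e1 : (∃ j, j ≤ i + 1 ∧ ∃ p : Fin (e.k + 3), vh z j p.1 = true ∧
          ((p.1 = 2 ∧ q = 2 ∧ i = j - 1) ∨
           (p.1 ≠ 2 ∧ (e.tr p (sy z O j)).1.1 = q ∧
              i = if (e.tr p (sy z O j)).2.2 then j + 1 else j - 1))) ↔
        (∃ j, j ≤ i + 1 ∧ ∃ p : Fin (e.k + 3), vh z' j p.1 = true ∧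
          ((p.1 = 2 ∧ q = 2 ∧ i = j - 1) ∨
           (p.1 ≠ 2 ∧ (e.tr p (sy z' O' j)).1.1 = q ∧
              i = if (e.tr p (sy z' O' j)).2.2 then j + 1 else j - 1))) := by
      refine exists_congr (fun j => and_congr_right (fun hj => exists_congr (fun p => ?_)))
      rw [hv j hj p.1 p.2, hs j hj]
    simp only [e1]
  | tp k i =>
    have e1 : ((∃ p : Fin (e.k + 3), p.1 ≠ 2 ∧ vh z i p.1 = true ∧
            (e.tr p (sy z O i)).2.1 k = true) ∨
          ((∀ p : Fin (e.k + 3), p.1 ≠ 2 → vh z i p.1 = false) ∧ z (.tp k i) = true)) ↔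
        ((∃ p : Fin (e.k + 3), p.1 ≠ 2 ∧ vh z' i p.1 = true ∧
            (e.tr p (sy z' O' i)).2.1 k = true) ∨
          ((∀ p : Fin (e.k + 3), p.1 ≠ 2 → vh z' i p.1 = false) ∧ z' (.tp k i) = true)) := by
      rw [hs i le_rfl, hl]
      refine or_congr (exists_congr (fun p => ?_)) (and_congr_left (fun _ =>
        forall_congr' (fun p => ?_)))
      · rw [hv i le_rfl p.1 p.2]
      · rw [hv i le_rfl p.1 p.2]
    simp only [e1]
  | fa => rfl
  | fb => rfl
  | hl => simp only [hv 0 le_rfl 2 (by omega)]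

theorem dq_congr {c : R2} {x x' : Idx → Bool} {q : ℚ} {j : ℕ}
    (h : (E0.symm (j / 2)).label < q → x (E0.symm (j / 2)) = x' (E0.symm (j / 2))) :
    dq c x q j = dq c x' q j := by
  unfold dq join
  split_ifs with h1
  · rfl
  · unfold msk idr
    by_cases h2 : (E0.symm (j / 2)).label < q
    · rw [h h2]
    · simp [h2]

theorem meas_finite (N : ℕ) (g : R2 → Bool) (hg : ∀ O O' : R2, (∀ j, j ≤ N → O j = O' j) →
    g O = g O') : Measurable g := by
  let r : R2 → (Fin (N + 1) → Bool) := fun O j => O j.1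
  let t : (Fin (N + 1) → Bool) → R2 := fun v j => if h : j < N + 1 then v ⟨j, h⟩ else false
  have h1 : g = (fun v => g (t v)) ∘ r := by
    funext O
    refine hg _ _ (fun j hj => ?_)
    simp only [t, r]
    rw [dif_pos (by omega)]
  rw [h1]
  refine (measurable_of_countable _).comp ?_
  exact measurable_pi_lambda _ (fun j => measurable_pi_apply _)

theorem exists_L0 : ∃ L : LocOp (ℚ × Prog × ℕ × LC),
    (∀ c m z x, L.phi c m z x =
      lstep m.2.1 m.2.2.1 (dq c x m.1) (fun l => z (m.1, m.2.1, m.2.2.1, l)) m.2.2.2) ∧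
    (∀ q e n, L.hc q e n = (q, e, n, .hl)) ∧ (∀ q e n, L.oc q e n = (q, e, n, .tp 2 0)) := by
  classical
  refine ⟨{
    S := fun m => (m.2.2.2.sup m.2.1.k).image (fun l => (m.1, m.2.1, m.2.2.1, l))
    X := fun m => ((Finset.range (m.2.2.2.bd + 1)).image (fun k => E0.symm (k / 2))).filter
      (fun i => i.label < m.1)
    phi := fun c m z x =>
      lstep m.2.1 m.2.2.1 (dq c x m.1) (fun l => z (m.1, m.2.1, m.2.2.1, l)) m.2.2.2
    loc := ?_
    meas := ?_
    blk := fun m => m.1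
    blkS := ?_
    blkX := ?_
    hc := fun q e n => (q, e, n, .hl)
    oc := fun q e n => (q, e, n, .tp 2 0)
    blkh := fun _ _ _ => rfl
    blko := fun _ _ _ => rfl }, fun _ _ _ _ => rfl, fun _ _ _ => rfl, fun _ _ _ => rfl⟩
  · intro c m z z' x x' hz hx
    refine lstep_congr _ _ _ (fun j hj => dq_congr (fun hlt => ?_)) (fun l' hl' => ?_)
    · refine hx _ (Finset.mem_filter.2 ⟨Finset.mem_image.2 ⟨j, ?_, rfl⟩, hlt⟩)
      simp only [Finset.mem_range]
      omega
    · exact hz _ (Finset.mem_image.2 ⟨l', hl', rfl⟩)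
  · intro m z x
    have h1 : Measurable (fun O : R2 =>
        lstep m.2.1 m.2.2.1 O (fun l => z (m.1, m.2.1, m.2.2.1, l)) m.2.2.2) :=
      meas_finite m.2.2.2.bd _ (fun O O' h => lstep_congr _ _ _ h (fun _ _ => rfl))
    have h2 : Measurable (fun c : R2 => dq c x m.1) := by
      refine measurable_pi_lambda _ (fun j => ?_)
      unfold dq join
      split_ifs with h2
      · exact measurable_pi_apply _
      · exact measurable_const
    exact h1.comp h2
  · intro m l hl
    obtain ⟨l', -, rfl⟩ := Finset.mem_image.1 hl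
    rfl
  · intro m i hi
    exact (Finset.mem_filter.1 hi).2

instance condCountable : Countable (Cond ℕ) := by
  have : Function.Injective (fun p : Cond ℕ => (p.dom, p.tr, p.F)) := by
    intro p q h
    simp only [Prod.mk.injEq] at h
    exact Cond.ext h.1 h.2.1 h.2.2
  exact this.countable

instance dixCountable (M : Type) [Countable M] : Countable (DIx M) := by
  have : Function.Injective (fun d : DIx M => (match d with
      | .E o m p N => Sum.inl (o, m, p, N)
      | .D o m l p N => Sum.inr (Sum.inl (o, m, l, p, N))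
      | .ne i k => Sum.inr (Sum.inr (Sum.inl (i, k)))
      | .len i j => Sum.inr (Sum.inr (Sum.inr (i, j))) :
      (Option ℕ × M × Cond ℕ × Finset Idx) ⊕ ((Option ℕ × M × ℕ × Cond ℕ × Finset Idx) ⊕
        ((Idx × ℕ) ⊕ (Idx × ℕ))))) := by
    intro d d' h
    cases d <;> cases d' <;> simp_all
  exact this.countable

instance xixCountable (M : Type) [Countable M] : Countable (XIx M) := by
  have : Function.Injective (fun d : XIx M => (match d with
      | .E l m => Sum.inl (l, m)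
      | .D l m l' => Sum.inr (Sum.inl (l, m, l'))
      | .dm i => Sum.inr (Sum.inr (Sum.inl i))
      | .prm i l => Sum.inr (Sum.inr (Sum.inr (Sum.inl (i, l))))
      | .dg e q q' => Sum.inr (Sum.inr (Sum.inr (Sum.inr (e, q, q')))) :
      (ℕ × M) ⊕ ((ℕ × M × ℕ) ⊕ (Idx ⊕ ((Idx × ℕ) ⊕ (Prog × ℚ × ℚ)))))) := by
    intro d d' h
    cases d <;> cases d' <;> simp_all
  exact this.countable

theorem enum_exists (M : Type) [Countable M] [Nonempty M] :
    Nonempty (Enum M) ∧ Nonempty (Enum2 M) := by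
  obtain ⟨m0⟩ := (inferInstance : Nonempty M)
  have n1 : Nonempty (TI M × ℕ) := ⟨((0, none), 0)⟩
  have n2 : Nonempty (DIx M) := ⟨.ne (.root 0) 0⟩
  have n3 : Nonempty (List (Idx × Bool)) := ⟨[]⟩
  have n4 : Nonempty (Cond ℕ) := ⟨⟨∅, ∅, ∅⟩⟩
  have n5 : Nonempty (XIx M) := ⟨.dm (.root 0)⟩
  obtain ⟨f1, h1⟩ := exists_surjective_nat (TI M × ℕ)
  obtain ⟨f2, h2⟩ := exists_surjective_nat (DIx M)
  obtain ⟨f3, h3⟩ := exists_surjective_nat (List (Idx × Bool))
  obtain ⟨f4, h4⟩ := exists_surjective_nat (Cond ℕ)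
  obtain ⟨f5, h5⟩ := exists_surjective_nat (XIx M)
  exact ⟨⟨⟨f1, f2, f3, h1, h2, h3⟩⟩, ⟨⟨f4, f5, h4, h5⟩⟩⟩

end Pool.Agent.Helper78.ITTM
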