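import Pool.Agent.Helper78.ITTM.CDefs2
import Pool.Agent.Helper78.ITTM.Run

/-! Module C1: official runs as local iterations; locking after halting. -/

namespace Pool.Agent.Helper78.ITTM

open Ordinal

instance lcCountable : Countable LC := by
  have : Function.Injective (fun l : LC => match l with
      | .hs i q => (Sum.inl (i, q) : (ℕ × ℕ) ⊕ ((Fin 3 × ℕ) ⊕ Fin 3))
      | .tp k i => Sum.inr (Sum.inl (k, i))
      | .fa => Sum.inr (Sum.inr 0)
      | .fb => Sum.inr (Sum.inr 1)
      | .hl => Sum.inr (Sum.inr 2)) := by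
    intro a b h
    cases a <;> cases b <;> simp_all
  exact this.countable

/-! ### Official runs -/

theorem lck_run_zero (P : Prog) (y : R2) (n : ℕ) : P.run y n 0 = P.init n := by
  unfold Prog.run
  rw [Ordinal.limitRecOn_zero]

theorem lck_run_succ (P : Prog) (y : R2) (n : ℕ) (a : Ordinal.{0}) :
    P.run y n (a + 1) = P.step y (P.run y n a) := by
  unfold Prog.run
  rw [Ordinal.limitRecOn_add_one]

theorem lck_run_lim (P : Prog) (y : R2) (n : ℕ) {a : Ordinal.{0}} (ha : Order.IsSuccLimit a) :
    P.run y n a = ⟨⟨1, by omega⟩, 0, fun i j => lsup a (fun c _ => (P.run y n c).T i j)⟩ := by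
  unfold Prog.run
  rw [Ordinal.limitRecOn_limit _ _ _ _ ha]

/-! ### Frozen states -/

theorem lck_frozen {e : Prog} {n : ℕ} {O : R2} {z : LC → Bool} (h : z .hl = true)
    (hf : (z .fa || z .fb) = true) : lstep e n O z = z := by
  have h1 : (!z .fa && !z .fb) = false := by
    revert hf
    cases z .fa <;> cases z .fb <;> simp
  funext l
  simp [lstep, h1, h]

theorem lck_flags {e : Prog} {n : ℕ} {O : R2} {z : LC → Bool} :
    (lstep e n O z .fa || lstep e n O z .fb) = true := by
  simp only [lstep]
  cases z .fa <;> cases z .fb <;> cases z .hl <;> simp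

theorem lck_hl_flags {e : Prog} {n : ℕ} {O : R2} (a : Ordinal.{0}) :
    (lrun e n O a .fa || lrun e n O a .fb) = false → lrun e n O a .hl = false := by
  induction a using Ordinal.limitRecOn with
  | zero =>
    intro _
    unfold lrun
    rw [iter_zero]
  | add_one a ih =>
    intro h
    unfold lrun at h
    rw [iter_succ, lck_flags] at h
    cases h
  | limit a ha ih =>
    intro h
    unfold lrun at h ⊢
    rw [iter_lim _ _ ha] at h ⊢
    rw [Bool.or_eq_false_iff] at h
    obtain ⟨h1, h2⟩ := h
    rw [lsup_eq_false] at h1 h2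
    obtain ⟨b1, hb1, h1⟩ := h1
    obtain ⟨b2, hb2, h2⟩ := h2
    exfalso
    have hm : max b1 b2 + 1 < a := ha.add_one_lt (max_lt hb1 hb2)
    have e1 := h1 _ hm (le_trans (le_max_left _ _) (le_self_add))
    have e2 := h2 _ hm (le_trans (le_max_right _ _) (le_self_add))
    have := lck_flags (e := e) (n := n) (O := O) (z := iter (lstep e n O) (fun _ => false) (max b1 b2))
    rw [← iter_succ (lstep e n O) (fun _ => false) (max b1 b2), e1, e2] at this
    cases this

theorem lck_const {J : Type} {F : (J → Bool) → (J → Bool)} {z : J → Bool} (h : F z = z)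
    (b : Ordinal.{0}) : iter F z b = z := by
  induction b using Ordinal.limitRecOn with
  | zero => rw [iter_zero]
  | add_one b ih => rw [iter_succ, ih, h]
  | limit b hb ih =>
    rw [iter_lim _ _ hb]
    funext j
    apply run_bool_ext
    rw [lsup_eq_true]
    constructor
    · intro h'
      obtain ⟨c, hc, -, hcz⟩ := h' 0 hb.bot_lt
      rw [ih c hc] at hcz
      exact hcz
    · intro h' c hc
      exact ⟨c, hc, le_rfl, by rw [ih c hc]; exact h'⟩

theorem lock_stable {e : Prog} {n : ℕ} {O : R2} {γ γ' : Ordinal.{0}}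
    (h : lrun e n O γ .hl = true) (hle : γ ≤ γ') : lrun e n O γ' = lrun e n O γ := by
  obtain ⟨d, rfl⟩ : ∃ d, γ' = γ + d := ⟨γ' - γ, (Ordinal.add_sub_cancel_of_le hle).symm⟩
  have hf : (lrun e n O γ .fa || lrun e n O γ .fb) = true := by
    by_contra hc
    rw [Bool.not_eq_true] at hc
    rw [lck_hl_flags γ hc] at h
    cases h
  show iter _ _ (γ + d) = _
  rw [iter_add]
  exact lck_const (lck_frozen h hf) d

/-! ### The invariant -/

/-- The state `z` codes a configuration with head `h`, state `q`, tapes `T`. -/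
structure LckI (z : LC → Bool) (h q : ℕ) (T : Fin 3 → ℕ → Bool) : Prop where
  fl : (z .fa || z .fb) = true
  hl : z .hl = false
  vh : ∀ j p, vh z j p = decide (j = h ∧ p = q)
  tp : ∀ k j, z (.tp k j) = T k j

theorem lck_nfl {z : LC → Bool} (h : (z .fa || z .fb) = true) : (!z .fa && !z .fb) = false := by
  revert h
  cases z .fa <;> cases z .fb <;> simp

theorem lck_notboth {e : Prog} {n : ℕ} {O : R2} {z : LC → Bool} (hf : (z .fa || z .fb) = true)
    (hh : z .hl = false) : (lstep e n O z .fa && lstep e n O z .fb) = false := by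
  have h1 := lck_nfl hf
  simp only [lstep, h1, hh]
  cases h1 : z .fa <;> cases h2 : z .fb <;> simp

theorem lck_sy {k : ℕ} {z : LC → Bool} {O : R2} {c : Conf k} {j : ℕ}
    (h : ∀ k j, z (.tp k j) = c.T k j) (hj : j = c.h) : sy z O j = c.read O := by
  subst hj
  funext i
  unfold sy Conf.read
  fin_cases i <;> simp [h]

theorem lck_step {e : Prog} {n : ℕ} {O : R2} {z : LC → Bool} {c : Conf e.k}
    (h : LckI z c.h c.q.1 c.T) (hq : c.q.1 ≠ 2) :
    LckI (lstep e n O z) (e.step O c).h (e.step O c).q.1 (e.step O c).T := by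
  have h1 := lck_nfl h.fl
  have hb := lck_notboth (e := e) (n := n) (O := O) h.fl h.hl
  have hvp : ∀ (p : Fin (e.k + 3)) j, ITTM.vh z j p.1 = true ↔ j = c.h ∧ p = c.q := by
    intro p j
    rw [h.vh, decide_eq_true_iff, Fin.ext_iff]
  refine ⟨lck_flags, ?_, ?_, ?_⟩
  · simp only [lstep, h1, h.hl]
    simp only [Bool.false_eq_true, if_false]
    rw [h.vh]
    simp only [decide_eq_false_iff_not]
    rintro ⟨-, h2⟩
    exact hq h2.symm
  · intro j p
    have : ITTM.vh (lstep e n O z) j p = lstep e n O z (.hs j p) := by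
      unfold ITTM.vh
      rw [hb]
      simp
    rw [this]
    simp only [lstep, h1, h.hl]
    simp only [Bool.false_eq_true, if_false]
    rw [decide_eq_decide]
    constructor
    · rintro ⟨j', hj', q, hv, hq'⟩
      rw [hvp] at hv
      obtain ⟨rfl, rfl⟩ := hv
      rcases hq' with hq' | hq'
      · exact absurd hq'.1 hq
      · rw [lck_sy h.tp rfl] at hq'
        refine ⟨?_, ?_⟩
        · rw [hq'.2.2]
          rfl
        · rw [← hq'.2.1]
          rfl
    · rintro ⟨hj, hp⟩
      refine ⟨c.h, ?_, c.q, (hvp _ _).2 ⟨rfl, rfl⟩, Or.inr ⟨hq, ?_, ?_⟩⟩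
      · rw [hj]
        simp only [Prog.step]
        split_ifs <;> omega
      · rw [lck_sy h.tp rfl, hp]
        rfl
      · rw [lck_sy h.tp rfl, hj]
        rfl
  · intro k j
    simp only [lstep, h1, h.hl]
    simp only [Bool.false_eq_true, if_false]
    simp only [Prog.step]
    by_cases hj : j = c.h
    · subst hj
      rw [Function.update_self]
      rw [lck_sy h.tp rfl]
      apply run_bool_ext
      rw [decide_eq_true_iff]
      constructor
      · rintro (⟨p, hp, hv, ht⟩ | ⟨hv, -⟩)
        · rw [hvp] at hv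
          obtain ⟨-, rfl⟩ := hv
          exact ht
        · have := hv c.q hq
          rw [h.vh] at this
          simp at this
      · intro ht
        exact Or.inl ⟨c.q, hq, (hvp _ _).2 ⟨rfl, rfl⟩, ht⟩
    · rw [Function.update_of_ne hj]
      rw [← h.tp]
      apply run_bool_ext
      rw [decide_eq_true_iff]
      constructor
      · rintro (⟨p, hp, hv, ht⟩ | ⟨-, hv⟩)
        · rw [hvp] at hv
          exact absurd hv.1 hj
        · exact hv
      · intro ht
        refine Or.inr ⟨fun p _ => ?_, ht⟩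
        rw [h.vh]
        simp [hj]

/-- the step after the halting state has been reached, head not at 0 -/
theorem lck_walk {e : Prog} {n : ℕ} {O : R2} {z : LC → Bool} {h : ℕ} {T : Fin 3 → ℕ → Bool}
    (hz : LckI z (h + 1) 2 T) : LckI (lstep e n O z) h 2 T := by
  have h1 := lck_nfl hz.fl
  have hb := lck_notboth (e := e) (n := n) (O := O) hz.fl hz.hl
  refine ⟨lck_flags, ?_, ?_, ?_⟩
  · simp only [lstep, h1, hz.hl]
    simp only [Bool.false_eq_true, if_false]
    rw [hz.vh]
    simp
  · intro j p
    have : ITTM.vh (lstep e n O z) j p = lstep e n O z (.hs j p) := by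
      unfold ITTM.vh
      rw [hb]
      simp
    rw [this]
    simp only [lstep, h1, hz.hl]
    simp only [Bool.false_eq_true, if_false]
    rw [decide_eq_decide]
    constructor
    · rintro ⟨j', hj', q, hv, hq'⟩
      rw [hz.vh, decide_eq_true_iff] at hv
      obtain ⟨rfl, hq2⟩ := hv
      rcases hq' with hq' | hq'
      · refine ⟨?_, hq'.2.1⟩
        rw [hq'.2.2]
        simp
      · exact absurd hq2 hq'.1
    · rintro ⟨rfl, rfl⟩
      refine ⟨j + 1, le_rfl, ⟨2, by omega⟩, ?_, Or.inl ⟨rfl, rfl, by simp⟩⟩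
      rw [hz.vh]
      simp
  · intro k j
    simp only [lstep, h1, hz.hl]
    simp only [Bool.false_eq_true, if_false]
    rw [← hz.tp]
    apply run_bool_ext
    rw [decide_eq_true_iff]
    constructor
    · rintro (⟨p, hp, hv, ht⟩ | ⟨-, hv⟩)
      · rw [hz.vh, decide_eq_true_iff] at hv
        exact absurd hv.2 hp
      · exact hv
    · intro ht
      refine Or.inr ⟨fun p hp => ?_, ht⟩
      rw [hz.vh]
      simp [hp]

theorem lck_final {e : Prog} {n : ℕ} {O : R2} {z : LC → Bool} {T : Fin 3 → ℕ → Bool}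
    (hz : LckI z 0 2 T) : lstep e n O z .hl = true ∧ ∀ k j, lstep e n O z (.tp k j) = T k j := by
  have h1 := lck_nfl hz.fl
  refine ⟨?_, ?_⟩
  · simp only [lstep, h1, hz.hl]
    simp only [Bool.false_eq_true, if_false]
    rw [hz.vh]
    simp
  · intro k j
    simp only [lstep, h1, hz.hl]
    simp only [Bool.false_eq_true, if_false]
    rw [← hz.tp]
    apply run_bool_ext
    rw [decide_eq_true_iff]
    constructor
    · rintro (⟨p, hp, hv, ht⟩ | ⟨-, hv⟩)
      · rw [hz.vh, decide_eq_true_iff] at hv
        exact absurd hv.2 hp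
      · exact hv
    · intro ht
      refine Or.inr ⟨fun p hp => ?_, ht⟩
      rw [hz.vh]
      simp [hp]

theorem lck_walks {e : Prog} {n : ℕ} {O : R2} (h : ℕ) {T : Fin 3 → ℕ → Bool} :
    ∀ {γ : Ordinal.{0}}, LckI (lrun e n O γ) h 2 T →
    ∃ γ', γ ≤ γ' ∧ lrun e n O γ' .hl = true ∧ ∀ k j, lrun e n O γ' (.tp k j) = T k j := by
  induction h with
  | zero =>
    intro γ hz
    refine ⟨γ + 1, le_self_add, ?_⟩
    unfold lrun at hz ⊢
    rw [iter_succ]
    exact lck_final hz
  | succ h ih =>
    intro γ hz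
    have h2 : LckI (lrun e n O (γ + 1)) h 2 T := by
      unfold lrun at hz ⊢
      rw [iter_succ]
      exact lck_walk hz
    obtain ⟨γ', h3, h4⟩ := ih h2
    exact ⟨γ', le_trans le_self_add h3, h4⟩

theorem lck_init {e : Prog} {n : ℕ} {O : R2} :
    LckI (lrun e n O (1 + 0)) (e.init n).h (e.init n).q.1 (e.init n).T := by
  have h : lrun e n O (1 + 0) = lstep e n O (fun _ => false) := by
    unfold lrun
    have : (1 + 0 : Ordinal.{0}) = 0 + 1 := by simp
    rw [this, iter_succ, iter_zero]
  rw [h]
  have hb : (lstep e n O (fun _ => false) .fa && lstep e n O (fun _ => false) .fb) = false := by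
    simp [lstep]
  refine ⟨lck_flags, ?_, ?_, ?_⟩
  · simp [lstep]
  · intro j p
    have : ITTM.vh (lstep e n O (fun _ => false)) j p = lstep e n O (fun _ => false) (.hs j p) := by
      unfold ITTM.vh
      rw [hb]
      simp
    rw [this]
    simp [lstep, Prog.init]
  · intro k j
    simp [lstep, Prog.init]

theorem lck_inv {e : Prog} {n : ℕ} {O : R2} (a : Ordinal.{0}) :
    (∀ b, b < a → (e.run O n b).q.1 ≠ 2) →
    LckI (lrun e n O (1 + a)) (e.run O n a).h (e.run O n a).q.1 (e.run O n a).T := by
  induction a using Ordinal.limitRecOn with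
  | zero =>
    intro _
    rw [lck_run_zero]
    exact lck_init
  | add_one a ih =>
    intro h
    have h2 := ih (fun b hb => h b (lt_trans hb (lt_add_one a)))
    rw [lck_run_succ]
    have h3 : lrun e n O (1 + (a + 1)) = lstep e n O (lrun e n O (1 + a)) := by
      unfold lrun
      rw [← add_assoc, iter_succ]
    rw [h3]
    exact lck_step h2 (h a (lt_add_one a))
  | limit a ha ih =>
    intro h
    have hI : ∀ b, b < a →
        LckI (lrun e n O (1 + b)) (e.run O n b).h (e.run O n b).q.1 (e.run O n b).T :=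
      fun b hb => ih b hb (fun c hc => h c (lt_trans hc hb))
    have hl : lrun e n O (1 + a) = fun j => lsup a (fun b _ => lrun e n O (1 + b) j) := by
      unfold lrun
      rw [iter_add, iter_lim _ _ ha]
      funext j
      congr 1
      funext b hb
      rw [iter_add]
    have hs : ∀ b, lrun e n O (1 + (b + 1)) = lstep e n O (lrun e n O (1 + b)) := by
      intro b
      unfold lrun
      rw [← add_assoc, iter_succ]
    have hfa : lrun e n O (1 + a) .fa = true := by
      rw [hl]
      rw [lsup_eq_true]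
      intro b hb
      have h1 := (hI b hb).fl
      have h2 := (hI b hb).hl
      cases h3 : lrun e n O (1 + b) .fa
      · refine ⟨b + 1, ha.add_one_lt hb, le_self_add, ?_⟩
        rw [h3] at h1
        rw [hs]
        simp only [Bool.false_or] at h1
        simp [lstep, h1, h2, h3]
      · exact ⟨b, hb, le_rfl, h3⟩
    have hfb : lrun e n O (1 + a) .fb = true := by
      rw [hl]
      rw [lsup_eq_true]
      intro b hb
      have h1 := (hI b hb).fl
      have h2 := (hI b hb).hl
      cases h3 : lrun e n O (1 + b) .fb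
      · refine ⟨b + 1, ha.add_one_lt hb, le_self_add, ?_⟩
        rw [h3] at h1
        rw [hs]
        simp only [Bool.or_false] at h1
        simp [lstep, h1, h2, h3]
      · exact ⟨b, hb, le_rfl, h3⟩
    refine ⟨by rw [hfa]; rfl, ?_, ?_, ?_⟩
    · rw [hl]
      rw [lsup_eq_false]
      exact ⟨0, ha.bot_lt, fun c hc _ => (hI c hc).hl⟩
    · intro j p
      unfold ITTM.vh
      rw [hfa, hfb, lck_run_lim _ _ _ ha]
      simp
    · intro k j
      rw [hl, lck_run_lim _ _ _ ha]
      show lsup a _ = lsup a _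
      congr 1
      funext b hb
      exact (hI b hb).tp k j

theorem lock_of_halts {e : Prog} {n z : ℕ} {O : R2} (h : Halts e O n z) :
    ∃ γ, lrun e n O γ .hl = true ∧ ∀ j, lrun e n O γ (.tp 2 j) = decide (j < z) := by
  obtain ⟨a, h1, h2, h3⟩ := h
  have h4 := lck_inv (e := e) (n := n) (O := O) a (fun b hb hc => h2 b hb (Fin.ext hc))
  rw [h1] at h4
  obtain ⟨γ, -, h5, h6⟩ := lck_walks _ h4
  exact ⟨γ, h5, fun j => by rw [h6, h3]⟩

theorem lck_reach {e : Prog} {n : ℕ} {O : R2} {γ : Ordinal.{0}}
    (h : lrun e n O γ .hl = true) :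
    ∃ a, (e.run O n a).q = ⟨2, by omega⟩ ∧ ∀ b, b < a → (e.run O n b).q ≠ ⟨2, by omega⟩ := by
  have hex : ∃ a, (e.run O n a).q = ⟨2, by omega⟩ := by
    by_contra hc
    push Not at hc
    have hI := fun a => lck_inv (e := e) (n := n) (O := O) a
      (fun b _ hb => hc b (Fin.ext hb))
    rcases eq_or_ne γ 0 with rfl | hγ
    · unfold lrun at h
      rw [iter_zero] at h
      cases h
    · obtain ⟨a, rfl⟩ : ∃ a, γ = 1 + a :=
        ⟨γ - 1, (Ordinal.add_sub_cancel_of_le (Order.one_le_iff_pos.2
          (pos_iff_ne_zero.2 hγ))).symm⟩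
      rw [(hI a).hl] at h
      cases h
  let S : Set Ordinal.{0} := {a | (e.run O n a).q = ⟨2, by omega⟩}
  have hS : S.Nonempty := hex
  refine ⟨sInf S, csInf_mem hS, fun b hb hc => ?_⟩
  exact notMem_of_lt_csInf' hb hc

theorem halts_of_lock {e : Prog} {n z : ℕ} {O : R2} {γ : Ordinal.{0}}
    (h : lrun e n O γ .hl = true) (ht : ∀ j, lrun e n O γ (.tp 2 j) = decide (j < z)) :
    Halts e O n z := by
  obtain ⟨a, h1, h2⟩ := lck_reach h
  refine ⟨a, h1, h2, ?_⟩
  have h4 := lck_inv (e := e) (n := n) (O := O) a (fun b hb hc => h2 b hb (Fin.ext hc))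
  rw [h1] at h4
  obtain ⟨γ', -, h5, h6⟩ := lck_walks _ h4
  have h7 : lrun e n O γ' = lrun e n O γ := by
    rcases le_total γ γ' with hl | hl
    · exact lock_stable h hl
    · exact (lock_stable h5 hl).symm
  intro j
  rw [← h6, h7, ht]

theorem halts_fun {e : Prog} {n z z' : ℕ} {O : R2} (h : Halts e O n z) (h' : Halts e O n z') :
    z = z' := by
  obtain ⟨a, h1, h2, h3⟩ := h
  obtain ⟨a', h1', h2', h3'⟩ := h'
  have ha : a = a' := by
    rcases lt_trichotomy a a' with hlt | heq | hlt
    · exact absurd h1 (h2' a hlt)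
    · exact heq
    · exact absurd h1' (h2 a' hlt)
  subst ha
  by_contra hne
  rcases lt_or_gt_of_ne hne with hlt | hlt
  · have e1 := h3 z
    have e2 := h3' z
    rw [e1] at e2
    simp [hlt] at e2
  · have e1 := h3 z'
    have e2 := h3' z'
    rw [e1] at e2
    simp [hlt] at e2

end Pool.Agent.Helper78.ITTM
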