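import Pool.Agent.Helper78.ITTM.NetDefs

/-! Module T6: countably many Borel machines are combined into a single one with a start state of
finite support (boot cells). -/

namespace Pool.Agent.Helper78.ITTM

open Ordinal

namespace T6

section basic
variable {J : Type} (F : (J → Bool) → (J → Bool)) (z : J → Bool)

theorem it_zero : iter F z 0 = z := by
  unfold iter
  exact Ordinal.limitRecOn_zero _ _ _

theorem it_succ (a : Ordinal.{0}) : iter F z (a + 1) = F (iter F z a) := by
  unfold iter
  exact Ordinal.limitRecOn_add_one _ _ _ _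

theorem it_lim {a : Ordinal.{0}} (ha : Order.IsSuccLimit a) :
    iter F z a = fun j => lsup a (fun b _ => iter F z b j) := by
  unfold iter
  exact Ordinal.limitRecOn_limit _ _ _ _ ha

end basic

theorem ls_true {a : Ordinal.{0}} {f : (b : Ordinal.{0}) → b < a → Bool} :
    lsup a f = true ↔ ∀ b, b < a → ∃ c, ∃ h : c < a, b ≤ c ∧ f c h = true := by
  classical
  unfold lsup
  simp only [decide_eq_true_eq]

theorem ls_false {a : Ordinal.{0}} {f : (b : Ordinal.{0}) → b < a → Bool} :
    lsup a f = false ↔ ∃ b, b < a ∧ ∀ c, ∀ h : c < a, b ≤ c → f c h = false := by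
  rw [← Bool.not_eq_true, ls_true]
  push Not
  simp

theorem ls_congr {a : Ordinal.{0}} {f g : Ordinal.{0} → Bool} (h : ∀ c, c < a → f c = g c) :
    lsup a (fun c _ => f c) = lsup a (fun c _ => g c) := by
  congr 1
  funext c hc
  exact h c hc

theorem ls_one_add {b : Ordinal.{0}} (hb : Order.IsSuccLimit b) (f : Ordinal.{0} → Bool) :
    lsup (1 + b) (fun c _ => f c) = lsup b (fun c _ => f (1 + c)) := by
  rw [Bool.eq_iff_iff, ls_true, ls_true]
  constructor
  · intro h d hd
    obtain ⟨c, hc, hdc, hf⟩ := h (1 + d) (by simpa using hd)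
    have h1 : 1 ≤ c := le_trans le_self_add hdc
    refine ⟨c - 1, ?_, ?_, ?_⟩
    · rw [← add_lt_add_iff_left 1, Ordinal.add_sub_cancel_of_le h1]
      exact hc
    · rw [← add_le_add_iff_left 1, Ordinal.add_sub_cancel_of_le h1]
      exact hdc
    · rw [Ordinal.add_sub_cancel_of_le h1]
      exact hf
  · intro h d hd
    by_cases h1 : 1 ≤ d
    · have hd' : d - 1 < b := by
        rw [← add_lt_add_iff_left 1, Ordinal.add_sub_cancel_of_le h1]
        exact hd
      obtain ⟨c, hc, hdc, hf⟩ := h (d - 1) hd'
      refine ⟨1 + c, by simpa using hc, ?_, hf⟩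
      rw [← Ordinal.add_sub_cancel_of_le h1]
      simpa using hdc
    · obtain ⟨c, hc, _, hf⟩ := h 0 hb.bot_lt
      refine ⟨1 + c, by simpa using hc, ?_, hf⟩
      exact le_trans (le_of_not_ge h1) le_self_add

/-- Cells of the combined machine. -/
inductive CJ (M : ℕ → BM) : Type
  | boot (k : ℕ)
  | act (k : ℕ)
  | z (k : ℕ) (j : (M k).J)
  | halt
  | out (n : ℕ)

instance (M : ℕ → BM) : Countable (CJ M) := by
  have : ∀ k, Countable (M k).J := fun k => (M k).cJ
  let g : CJ M → (ℕ ⊕ ℕ) ⊕ ((Σ k, (M k).J) ⊕ (Unit ⊕ ℕ)) := fun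
    | .boot k => .inl (.inl k)
    | .act k => .inl (.inr k)
    | .z k j => .inr (.inl ⟨k, j⟩)
    | .halt => .inr (.inr (.inl ()))
    | .out n => .inr (.inr (.inr n))
  have hg : Function.Injective g := by
    intro a b hab
    cases a <;> cases b <;> simp_all [g]
  exact hg.countable

/-- The step of the combined machine. -/
noncomputable def stp (M : ℕ → BM) (c x : R2) (w : CJ M → Bool) : CJ M → Bool
  | .boot _ => false
  | .act k => w (.act k) || w (.boot k)
  | .z k j => if w (.boot k) then (M k).init j else (M k).step c x (fun j' => w (.z k j')) j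
  | .halt => open Classical in decide (∃ k, w (.act k) = true ∧ w (.z k (M k).halt) = true)
  | .out n => open Classical in decide (∃ k, w (.act k) = true ∧ w (.z k ((M k).out n)) = true)

/-- The start state which boots machine `k`. -/
noncomputable def st (M : ℕ → BM) (k : ℕ) : CJ M → Bool
  | .boot l => decide (l = k)
  | _ => false

theorem meas_stp (M : ℕ → BM) :
    Measurable (fun p : R2 × R2 × (CJ M → Bool) => stp M p.1 p.2.1 p.2.2) := by
  have hc : ∀ a : CJ M, Measurable (fun p : R2 × R2 × (CJ M → Bool) => p.2.2 a) := fun a =>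
    (measurable_pi_apply a).comp (measurable_snd.comp measurable_snd)
  have hs : ∀ a : CJ M, MeasurableSet {p : R2 × R2 × (CJ M → Bool) | p.2.2 a = true} := fun a =>
    hc a (measurableSet_singleton true)
  rw [measurable_pi_iff]
  intro a
  cases a with
  | boot k => exact measurable_const
  | act k =>
    apply measurable_to_bool
    have : ((fun p : R2 × R2 × (CJ M → Bool) => stp M p.1 p.2.1 p.2.2 (.act k)) ⁻¹' {true}) =
        {p | p.2.2 (.act k) = true} ∪ {p | p.2.2 (.boot k) = true} := by
      ext p
      simp [stp]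
    rw [this]
    exact (hs _).union (hs _)
  | z k j =>
    have h1 : Measurable (fun p : R2 × R2 × (CJ M → Bool) =>
        (M k).step p.1 p.2.1 (fun j' => p.2.2 (.z k j')) j) := by
      have h2 : Measurable (fun p : R2 × R2 × (CJ M → Bool) =>
          ((p.1, p.2.1, fun j' => p.2.2 (.z k j')) : R2 × R2 × ((M k).J → Bool))) := by
        refine measurable_fst.prodMk ((measurable_fst.comp measurable_snd).prodMk ?_)
        rw [measurable_pi_iff]
        exact fun j' => hc _
      exact (measurable_pi_apply j).comp ((M k).meas.comp h2)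
    exact Measurable.ite (hs _) measurable_const h1
  | halt =>
    apply measurable_to_bool
    have : ((fun p : R2 × R2 × (CJ M → Bool) => stp M p.1 p.2.1 p.2.2 .halt) ⁻¹' {true}) =
        ⋃ k, ({p | p.2.2 (.act k) = true} ∩ {p | p.2.2 (.z k (M k).halt) = true}) := by
      ext p
      simp [stp]
    rw [this]
    exact MeasurableSet.iUnion fun k => (hs _).inter (hs _)
  | out n =>
    apply measurable_to_bool
    have : ((fun p : R2 × R2 × (CJ M → Bool) => stp M p.1 p.2.1 p.2.2 (.out n)) ⁻¹' {true}) =
        ⋃ k, ({p | p.2.2 (.act k) = true} ∩ {p | p.2.2 (.z k ((M k).out n)) = true}) := by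
      ext p
      simp [stp]
    rw [this]
    exact MeasurableSet.iUnion fun k => (hs _).inter (hs _)

theorem st_finite (M : ℕ → BM) (k : ℕ) : {j | st M k j = true}.Finite := by
  refine (Set.finite_singleton (CJ.boot k)).subset ?_
  intro a ha
  cases a with
  | boot l =>
    simp only [st, Set.mem_ofPred_eq, decide_eq_true_eq] at ha
    subst ha
    rfl
  | _ => simp [st] at ha

/-- The state of the combined machine after `1 + b` steps. -/
theorem state (M : ℕ → BM) (k : ℕ) (c x : R2) (b : Ordinal.{0}) :
    (∀ l, iter (stp M c x) (st M k) (1 + b) (.boot l) = false) ∧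
    (∀ l, iter (stp M c x) (st M k) (1 + b) (.act l) = decide (l = k)) ∧
    ∀ j, iter (stp M c x) (st M k) (1 + b) (.z k j) = (M k).run c x b j := by
  induction b using Ordinal.limitRecOn with
  | zero =>
    have h1 : iter (stp M c x) (st M k) (1 + 0) = stp M c x (st M k) := by
      rw [add_zero]
      have := it_succ (stp M c x) (st M k) 0
      rw [zero_add, it_zero] at this
      exact this
    rw [h1]
    refine ⟨fun l => rfl, fun l => ?_, fun j => ?_⟩
    · simp [stp, st]
    · have : (M k).run c x 0 = (M k).init := it_zero _ _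
      rw [this]
      simp [stp, st]
  | add_one b ih =>
    obtain ⟨i1, i2, i3⟩ := ih
    have h1 : iter (stp M c x) (st M k) (1 + (b + 1)) =
        stp M c x (iter (stp M c x) (st M k) (1 + b)) := by
      rw [← add_assoc]
      exact it_succ _ _ _
    rw [h1]
    refine ⟨fun l => rfl, fun l => ?_, fun j => ?_⟩
    · simp [stp, i1, i2]
    · have h2 : (M k).run c x (b + 1) = (M k).step c x ((M k).run c x b) :=
        it_succ _ _ _
      rw [h2]
      simp only [stp, i1]
      have h3 : (fun j' => iter (stp M c x) (st M k) (1 + b) (.z k j')) = (M k).run c x b :=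
        funext i3
      simp [h3]
  | limit b hb ih =>
    have hlim : Order.IsSuccLimit (1 + b) := by
      rw [Ordinal.one_add_of_omega0_le (Ordinal.omega0_le_of_isSuccLimit hb)]
      exact hb
    rw [it_lim _ _ hlim]
    refine ⟨fun l => ?_, fun l => ?_, fun j => ?_⟩
    · show lsup (1 + b) (fun d _ => iter (stp M c x) (st M k) d (.boot l)) = false
      rw [ls_one_add hb (fun d => iter (stp M c x) (st M k) d (.boot l))]
      rw [ls_false]
      exact ⟨0, hb.bot_lt, fun d hd _ => (ih d hd).1 l⟩
    · show lsup (1 + b) (fun d _ => iter (stp M c x) (st M k) d (.act l)) = decide (l = k)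
      rw [ls_one_add hb (fun d => iter (stp M c x) (st M k) d (.act l))]
      rw [ls_congr (g := fun _ => decide (l = k)) (fun d hd => (ih d hd).2.1 l)]
      by_cases h : l = k
      · simp only [h, decide_true]
        rw [ls_true]
        exact fun d hd => ⟨d, hd, le_rfl, rfl⟩
      · simp only [h, decide_false]
        rw [ls_false]
        exact ⟨0, hb.bot_lt, fun d hd _ => rfl⟩
    · show lsup (1 + b) (fun d _ => iter (stp M c x) (st M k) d (.z k j)) = _
      rw [ls_one_add hb (fun d => iter (stp M c x) (st M k) d (.z k j))]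
      rw [ls_congr (g := fun d => (M k).run c x d j) (fun d hd => (ih d hd).2.2 j)]
      have := it_lim ((M k).step c x) (M k).init hb
      exact (congrFun this j).symm

theorem halts (M : ℕ → BM) (k : ℕ) (c x v : R2) (h : (M k).Halts c x v) :
    ItHalts (stp M c x) .halt .out (st M k) v := by
  obtain ⟨a, ha, hb, hv⟩ := h
  have hfalse : ∀ t, t ≤ 1 + a → iter (stp M c x) (st M k) t .halt = false := by
    intro t
    induction t using Ordinal.limitRecOn with
    | zero => intro _; rw [it_zero]; rfl
    | add_one t ih =>
      intro ht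
      rw [it_succ]
      simp only [stp, decide_eq_false_iff_not, not_exists, not_and, Bool.not_eq_true]
      intro l hl
      by_cases h1 : 1 ≤ t
      · have h2 := state M k c x (t - 1)
        rw [Ordinal.add_sub_cancel_of_le h1] at h2
        obtain ⟨-, i2, i3⟩ := h2
        rw [i2, decide_eq_true_eq] at hl
        subst hl
        rw [i3]
        apply hb
        have h3 : t < 1 + a := lt_of_lt_of_le (lt_add_one t) ht
        rw [← add_lt_add_iff_left 1, Ordinal.add_sub_cancel_of_le h1]
        exact h3
      · have h0 : t = 0 := by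
          rwa [not_le, Order.lt_one_iff] at h1
        rw [h0, it_zero] at hl
        simp [st] at hl
    | limit t ht ih =>
      intro hta
      rw [it_lim _ _ ht]
      show lsup t (fun d _ => iter (stp M c x) (st M k) d .halt) = false
      rw [ls_false]
      exact ⟨0, ht.bot_lt, fun d hd _ => ih d hd (hd.le.trans hta)⟩
  obtain ⟨-, i2, i3⟩ := state M k c x a
  refine ⟨1 + a + 1, ?_, ?_, ?_⟩
  · rw [it_succ]
    simp only [stp, decide_eq_true_eq]
    exact ⟨k, by rw [i2]; simp, by rw [i3]; exact ha⟩
  · intro b hb'
    exact hfalse b (by rwa [← Order.lt_add_one_iff] )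
  · intro n
    rw [it_succ, ← hv n, ← i3, Bool.eq_iff_iff]
    simp only [stp, decide_eq_true_eq]
    constructor
    · rintro ⟨l, h1, h2⟩
      rw [i2, decide_eq_true_eq] at h1
      subst h1
      exact h2
    · intro h
      exact ⟨k, by rw [i2]; simp, h⟩

end T6

/-- The realisation theorem for a countable family follows from the one for a single step. -/
theorem realise_of
    (one : ∀ {J : Type} [Countable J] (step : R2 → R2 → (J → Bool) → (J → Bool))
      (_ : Measurable (fun p : R2 × R2 × (J → Bool) => step p.1 p.2.1 p.2.2)) (halt : J)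
      (out : ℕ → J),
      ∃ c : R2, ∀ z0 : J → Bool, {j | z0 j = true}.Finite → ∀ x v, Above c x →
        ItHalts (step c x) halt out z0 v → Le v x) (M : ℕ → BM) : ∃ c, Realises c M := by
  obtain ⟨c, hc⟩ := one (T6.stp M) (T6.meas_stp M) T6.CJ.halt T6.CJ.out
  exact ⟨c, fun k x v hx hh => hc (T6.st M k) (T6.st_finite M k) x v hx (T6.halts M k c x v hh)⟩

end Pool.Agent.Helper78.ITTM
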