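import Pool.Agent.Helper78.ITTM.RealiseOne
import Pool.Agent.Helper78.ITTM.RealiseAux

/-! Module A3: every countable family of Borel machines is realised by some constant. -/

namespace Pool.Agent.Helper78.ITTM

/-- Every countable family of Borel machines is realised by some constant. -/
theorem realise (M : ℕ → BM) : ∃ c, Realises c M :=
  realise_of (fun step meas halt out => realise_one step meas halt out) M

end Pool.Agent.Helper78.ITTM
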