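import Pool.Agent.Helper78.ITTM.CDefs2
import Pool.Agent.Helper78.ITTM.Run
import Pool.Agent.Helper78.ITTM.Lock

/-! Part C, module C6x: the restart principle. -/

namespace Pool.Agent.Helper78.ITTM

open Ordinal

namespace Rst

/-! ### Measurability of the simulation of official programs -/

theorem mb_iff {α : Type*} [MeasurableSpace α] {f : α → Bool} :
    Measurable f ↔ Measurable (fun x => f x = true) := by
  constructor
  · intro h
    exact (Measurable.of_discrete (f := fun b : Bool => b = true)).comp h
  · intro h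
    have h2 : Measurable (fun P : Prop => @decide P (Classical.propDecidable _)) :=
      measurable_from_top
    have h3 := h2.comp h
    have h4 : f = (fun P : Prop => @decide P (Classical.propDecidable _)) ∘
        (fun x => f x = true) := by
      funext x
      simp only [Function.comp]
      exact Bool.eq_iff_iff.mpr (@decide_eq_true_iff _ (Classical.propDecidable _)).symm
    rw [h4]
    exact h3

theorem m_dec {α : Type*} [MeasurableSpace α] {P : α → Prop} (h : Measurable P)
    (inst : ∀ x, Decidable (P x)) : Measurable (fun x => @decide (P x) (inst x)) := by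
  rw [mb_iff]
  have : (fun x => @decide (P x) (inst x) = true) = P := by
    funext x
    exact propext (@decide_eq_true_iff (P x) (inst x))
  rw [this]
  exact h

theorem m_if {α β : Type*} [MeasurableSpace α] [MeasurableSpace β] {c : α → Bool} {f g : α → β}
    (hc : Measurable c) (hf : Measurable f) (hg : Measurable g) :
    Measurable (fun x => if c x = true then f x else g x) := by
  have hs : MeasurableSet {x | c x = true} := measurableSet_setOfPred.mpr (mb_iff.mp hc)
  exact Measurable.ite hs hf hg

theorem m_cell {A : Type} (a : A) : Measurable (fun z : A → Bool => z a) := measurable_pi_apply a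

abbrev OZ : Type := R2 × (LC → Bool)

theorem m_z (l : LC) : Measurable (fun p : OZ => p.2 l) :=
  (measurable_pi_apply l).comp measurable_snd

theorem m_o (j : ℕ) : Measurable (fun p : OZ => p.1 j) :=
  (measurable_pi_apply j).comp measurable_fst

theorem m_bin {α : Type*} [MeasurableSpace α] {f g : α → Bool} (F : Bool → Bool → Bool)
    (hf : Measurable f) (hg : Measurable g) : Measurable (fun x => F (f x) (g x)) :=
  (Measurable.of_discrete (f := fun p : Bool × Bool => F p.1 p.2)).comp (hf.prodMk hg)

theorem m_un {α : Type*} [MeasurableSpace α] {f : α → Bool} (F : Bool → Bool)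
    (hf : Measurable f) : Measurable (fun x => F (f x)) :=
  (Measurable.of_discrete (f := F)).comp hf

theorem m_vh (j q : ℕ) : Measurable (fun p : OZ => vh p.2 j q) := by
  unfold vh
  exact m_if (m_bin (fun a b => a && b) (m_z _) (m_z _)) measurable_const (m_z _)

theorem m_sy (j : ℕ) : Measurable (fun p : OZ => sy p.2 p.1 j) := by
  rw [measurable_pi_iff]
  intro a
  fin_cases a
  · exact m_z _
  · exact m_z _
  · exact m_z _
  · exact m_o j

theorem m_syf {β : Type} [MeasurableSpace β] (j : ℕ) (F : (Fin 4 → Bool) → β) :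
    Measurable (fun p : OZ => F (sy p.2 p.1 j)) :=
  (Measurable.of_discrete (f := F)).comp (m_sy j)

theorem m_eqt {α : Type*} [MeasurableSpace α] {f : α → Bool} (b : Bool) (hf : Measurable f) :
    Measurable (fun x => f x = b) :=
  (Measurable.of_discrete (f := fun c : Bool => c = b)).comp hf

theorem meas_lstep (e : Prog) (n : ℕ) (l : LC) :
    Measurable (fun p : OZ => lstep e n p.1 p.2 l) := by
  unfold lstep
  refine m_if (m_bin (fun a b => !a && !b) (m_z _) (m_z _)) ?_ (m_if (m_z _) (m_z _) ?_)
  · cases l <;> exact measurable_const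
  · cases l with
    | hs i q =>
      refine m_dec ?_ _
      refine Measurable.exists (fun j => Measurable.and measurable_const
        (Measurable.exists (fun p => Measurable.and (m_eqt _ (m_vh _ _)) (Measurable.or
          measurable_const (Measurable.and measurable_const
            (Measurable.and ?_ ?_))))))
      · exact m_syf j (fun s => ((e.tr p s).1.1 = q))
      · exact m_syf j (fun s => (i = if (e.tr p s).2.2 then j + 1 else j - 1))
    | tp k i =>
      refine m_dec ?_ _
      refine Measurable.or (Measurable.exists (fun p => Measurable.and measurable_const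
        (Measurable.and (m_eqt _ (m_vh _ _)) ?_))) (Measurable.and (Measurable.forall
          (fun p => Measurable.imp measurable_const (m_eqt _ (m_vh _ _)))) (m_eqt _ (m_z _)))
      exact m_syf i (fun s => (e.tr p s).2.1 k = true)
    | fa => exact m_bin (fun a b => (a && b) || b) (m_z _) (m_z _)
    | fb => exact m_bin (fun a b => !(a && b) && a) (m_z _) (m_z _)
    | hl => exact m_vh 0 2

/-! ### The machine -/

section machine
variable {I O T' : Type} (Or : T' → (I → Bool) → R2) (N : BI (I ⊕ (T' × Prog × ℕ × Bool)) O)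

/-- Cells: runs; stored facts; inner machine; two flags (`true`: flash, `false`: halted). -/
abbrev RJ (T' J : Type) : Type :=
  ((T' × Prog × ℕ × LC) ⊕ (T' × Prog × ℕ × Bool)) ⊕ (J ⊕ Bool)

/-- The facts seen on the runs. -/
noncomputable def hr {J : Type} (z : RJ T' J → Bool) : T' × Prog × ℕ × Bool → Bool :=
  fun p => @decide (z (.inl (.inl (p.1, p.2.1, p.2.2.1, .hl))) = true ∧
    ∀ j, z (.inl (.inl (p.1, p.2.1, p.2.2.1, .tp 2 j))) = decide (j < p.2.2.2.toNat))
    (Classical.propDecidable _)

/-- The stored facts. -/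
def sf {J : Type} (z : RJ T' J → Bool) : T' × Prog × ℕ × Bool → Bool := fun p => z (.inl (.inr p))

/-- The inner state. -/
def xi {J : Type} (z : RJ T' J → Bool) : J → Bool := fun k => z (.inr (.inl k))

/-- One step. -/
noncomputable def stp (u : I → Bool) (z : RJ T' N.J → Bool) : RJ T' N.J → Bool
  | .inl (.inl x) => lstep x.2.1 x.2.2.1 (Or x.1 u)
      (fun l => z (.inl (.inl (x.1, x.2.1, x.2.2.1, l)))) x.2.2.2
  | .inl (.inr p) => if z (.inr (.inr true)) = true then hr z p else z (.inl (.inr p))
  | .inr (.inl k) => if z (.inr (.inr true)) = true then N.init k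
      else if xi z N.halt = true then xi z k
      else if @decide (sf z = hr z) (Classical.propDecidable _) = true then
        N.step (Sum.elim u (sf z)) (xi z) k else xi z k
  | .inr (.inr true) => !z (.inr (.inr true)) && (!xi z N.halt &&
      !@decide (sf z = hr z) (Classical.propDecidable _))
  | .inr (.inr false) => !z (.inr (.inr true)) && xi z N.halt

/-- The initial state. -/
def ini : RJ T' N.J → Bool
  | .inr (.inr true) => true
  | _ => false

variable {Or N}

theorem m_hr [Countable T'] (p : T' × Prog × ℕ × Bool) :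
    Measurable (fun w : (I → Bool) × (RJ T' N.J → Bool) => hr w.2 p) := by
  unfold hr
  refine m_dec ?_ _
  refine Measurable.and (m_eqt _ ?_) (Measurable.forall (fun j => m_eqt _ ?_))
  · exact (measurable_pi_apply _).comp measurable_snd
  · exact (measurable_pi_apply _).comp measurable_snd

theorem m_c (j : RJ T' N.J) :
    Measurable (fun w : (I → Bool) × (RJ T' N.J → Bool) => w.2 j) :=
  (measurable_pi_apply _).comp measurable_snd

theorem m_same [Countable T'] : Measurable (fun w : (I → Bool) × (RJ T' N.J → Bool) =>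
    @decide (sf w.2 = hr w.2) (Classical.propDecidable _)) := by
  refine m_dec ?_ _
  have : (fun w : (I → Bool) × (RJ T' N.J → Bool) => sf w.2 = hr w.2) =
      fun w => ∀ p, (sf w.2 p == hr w.2 p) = true := by
    funext w
    exact propext ⟨fun h p => by rw [h]; simp, fun h => funext (fun p => by simpa using h p)⟩
  rw [this]
  refine Measurable.forall (fun p => m_eqt _ ?_)
  exact m_bin (fun a b => a == b) (m_c _) (m_hr p)

theorem m_stp [Countable T'] (hOr : ∀ τ, Measurable (Or τ)) :
    Measurable (fun w : (I → Bool) × (RJ T' N.J → Bool) => stp Or N w.1 w.2) := by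
  rw [measurable_pi_iff]
  rintro ((x | p) | (k | (_ | _)))
  · have h1 : Measurable (fun w : (I → Bool) × (RJ T' N.J → Bool) =>
        ((Or x.1 w.1, fun l => w.2 (.inl (.inl (x.1, x.2.1, x.2.2.1, l)))) : OZ)) := by
      refine Measurable.prodMk ((hOr x.1).comp measurable_fst) ?_
      rw [measurable_pi_iff]
      intro l
      exact m_c _
    exact (meas_lstep x.2.1 x.2.2.1 x.2.2.2).comp h1
  · exact m_if (m_c _) (m_hr p) (m_c _)
  · refine m_if (m_c _) measurable_const (m_if (m_c _) (m_c _) (m_if m_same ?_ (m_c _)))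
    have h1 : Measurable (fun w : (I → Bool) × (RJ T' N.J → Bool) =>
        ((Sum.elim w.1 (sf w.2), xi w.2) : (I ⊕ (T' × Prog × ℕ × Bool) → Bool) × (N.J → Bool))) := by
      refine Measurable.prodMk ?_ ?_
      · rw [measurable_pi_iff]
        rintro (i | p)
        · exact (measurable_pi_apply i).comp measurable_fst
        · exact m_c _
      · rw [measurable_pi_iff]
        intro k
        exact m_c _
    exact (measurable_pi_apply k).comp (N.meas.comp h1)
  · exact m_bin (fun a b => !a && b) (m_c _) (m_c _)
  · refine m_bin (fun a b => !a && b) (m_c _) (m_bin (fun a b => !a && !b) (m_c _) m_same)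

end machine

/-! ### Analysis of the run -/

section ana
variable {I O T' : Type} (Or : T' → (I → Bool) → R2) (N : BI (I ⊕ (T' × Prog × ℕ × Bool)) O)
  (u : I → Bool)

/-- The run of the machine. -/
noncomputable def Zt (a : Ordinal.{0}) : RJ T' N.J → Bool := iter (stp Or N u) (ini N) a

/-- flash flag -/
noncomputable def ff (a : Ordinal.{0}) : Bool := Zt Or N u a (.inr (.inr true))

/-- halting flag -/
noncomputable def hh (a : Ordinal.{0}) : Bool := Zt Or N u a (.inr (.inr false))

/-- facts seen -/
noncomputable def hs (a : Ordinal.{0}) : T' × Prog × ℕ × Bool → Bool := hr (Zt Or N u a)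

/-- facts stored -/
noncomputable def ss (a : Ordinal.{0}) : T' × Prog × ℕ × Bool → Bool := sf (Zt Or N u a)

/-- inner state -/
noncomputable def xx (a : Ordinal.{0}) : N.J → Bool := xi (Zt Or N u a)

/-- all facts -/
noncomputable def hi : T' × Prog × ℕ × Bool → Bool := fun p => hinf (Or p.1 u) p.2

theorem z_run (τ : T') (e : Prog) (n : ℕ) (a : Ordinal.{0}) :
    (fun l => Zt Or N u a (.inl (.inl (τ, e, n, l)))) = lrun e n (Or τ u) a := by
  induction a using Ordinal.limitRecOn with
  | zero =>
    unfold Zt lrun
    rw [iter_zero, iter_zero]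
    rfl
  | add_one a ih =>
    unfold Zt lrun at ih ⊢
    rw [iter_succ, iter_succ, ← ih]
    rfl
  | limit a ha ih =>
    unfold Zt lrun at ih ⊢
    rw [iter_lim _ _ ha, iter_lim _ _ ha]
    funext l
    refine congrArg (lsup a) ?_
    funext b hb
    exact congrFun (ih b hb) l

theorem hs_iff (a : Ordinal.{0}) (p : T' × Prog × ℕ × Bool) : hs Or N u a p = true ↔
    lrun p.2.1 p.2.2.1 (Or p.1 u) a .hl = true ∧
      ∀ j, lrun p.2.1 p.2.2.1 (Or p.1 u) a (.tp 2 j) = decide (j < p.2.2.2.toNat) := by
  unfold hs hr
  rw [@decide_eq_true_iff _ (Classical.propDecidable _), ← z_run Or N u p.1 p.2.1 p.2.2.1 a]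

theorem hi_iff (p : T' × Prog × ℕ × Bool) : hi Or u p = true ↔
    Halts p.2.1 (Or p.1 u) p.2.2.1 p.2.2.2.toNat := by
  unfold hi hinf
  rw [@decide_eq_true_iff _ (Classical.propDecidable _)]

theorem hs_sound {a : Ordinal.{0}} {p : T' × Prog × ℕ × Bool} (h : hs Or N u a p = true) :
    hi Or u p = true := by
  rw [hs_iff] at h
  rw [hi_iff]
  exact halts_of_lock h.1 h.2

theorem hs_mono {a b : Ordinal.{0}} (hab : a ≤ b) {p : T' × Prog × ℕ × Bool}
    (h : hs Or N u a p = true) : hs Or N u b p = true := by
  rw [hs_iff] at h ⊢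
  rw [lock_stable h.1 hab]
  exact h

theorem hs_complete : ∃ g : Ordinal.{0}, ∀ b, g ≤ b → hs Or N u b = hi Or u := by
  classical
  have h1 : ∀ p : T' × Prog × ℕ × Bool, ∃ g : Ordinal.{0}, hi Or u p = true →
      hs Or N u g p = true := by
    intro p
    by_cases hp : hi Or u p = true
    · obtain ⟨g, hg1, hg2⟩ := lock_of_halts ((hi_iff Or u p).mp hp)
      exact ⟨g, fun _ => (hs_iff Or N u g p).mpr ⟨hg1, hg2⟩⟩
    · exact ⟨0, fun h => absurd h hp⟩
  choose G hG using h1
  refine ⟨⨆ p, G p, ?_⟩
  intro b hb
  funext p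
  cases hp : hi Or u p with
  | true => exact hs_mono Or N u (le_trans (Ordinal.le_iSup G p) hb) (hG p hp)
  | false =>
    rw [← Bool.not_eq_true]
    intro h
    rw [hs_sound Or N u h] at hp
    exact Bool.noConfusion hp

theorem ff_zero : ff Or N u 0 = true := by
  unfold ff Zt
  rw [iter_zero]
  rfl

theorem hh_zero : hh Or N u 0 = false := by
  unfold hh Zt
  rw [iter_zero]
  rfl

theorem z_succ (a : Ordinal.{0}) : Zt Or N u (a + 1) = stp Or N u (Zt Or N u a) := by
  unfold Zt
  rw [iter_succ]

theorem z_lim {a : Ordinal.{0}} (ha : Order.IsSuccLimit a) (j : RJ T' N.J) :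
    Zt Or N u a j = lsup a (fun b _ => Zt Or N u b j) := by
  unfold Zt
  rw [iter_lim _ _ ha]

theorem ff_succ (a : Ordinal.{0}) : ff Or N u (a + 1) = (!ff Or N u a &&
    (!xx Or N u a N.halt && !@decide (ss Or N u a = hs Or N u a) (Classical.propDecidable _))) := by
  unfold ff
  rw [z_succ]
  rfl

theorem hh_succ (a : Ordinal.{0}) : hh Or N u (a + 1) = (!ff Or N u a && xx Or N u a N.halt) := by
  unfold hh
  rw [z_succ]
  rfl

theorem ss_succ (a : Ordinal.{0}) : ss Or N u (a + 1) =
    if ff Or N u a = true then hs Or N u a else ss Or N u a := by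
  funext p
  unfold ss
  rw [z_succ]
  unfold sf stp ff hs
  simp only
  split <;> rfl

theorem xx_flash {a : Ordinal.{0}} (h : ff Or N u a = true) : xx Or N u (a + 1) = N.init := by
  funext k
  unfold xx
  rw [z_succ]
  unfold xi stp
  unfold ff at h
  simp only [h, if_true]

theorem xx_halt {a : Ordinal.{0}} (h : ff Or N u a = false) (h2 : xx Or N u a N.halt = true) :
    xx Or N u (a + 1) = xx Or N u a := by
  funext k
  unfold xx at h2 ⊢
  rw [z_succ]
  unfold ff at h
  unfold xi at h2 ⊢
  unfold stp
  simp only [h, Bool.false_eq_true, if_false]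
  unfold xi
  simp only [h2, if_true]

theorem xx_step {a : Ordinal.{0}} (h : ff Or N u a = false) (h2 : xx Or N u a N.halt = false)
    (h3 : ss Or N u a = hs Or N u a) :
    xx Or N u (a + 1) = N.step (Sum.elim u (ss Or N u a)) (xx Or N u a) := by
  funext k
  have hd : @decide (sf (Zt Or N u a) = hr (Zt Or N u a)) (Classical.propDecidable _) = true :=
    @decide_eq_true _ (Classical.propDecidable _) h3
  have h2' : xi (Zt Or N u a) N.halt = false := h2
  have h1' : Zt Or N u a (.inr (.inr true)) = false := h
  change xi (Zt Or N u (a + 1)) k = _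
  rw [z_succ]
  change (stp Or N u (Zt Or N u a)) (.inr (.inl k)) = _
  unfold stp
  simp only [h1', h2', hd, Bool.false_eq_true, if_false, if_true]
  rfl

/-- forward analysis of a segment without flash -/
theorem fwd {s a : Ordinal.{0}} (hs0 : ff Or N u s = true)
    (h : ∀ b, s < b → b ≤ a → ff Or N u b = false) (hH : ∀ b, b ≤ a → hh Or N u b = false)
    (g : Ordinal.{0}) : s + 1 + g ≤ a → ss Or N u (s + 1 + g) = hs Or N u s ∧
      xx Or N u (s + 1 + g) = iter (N.step (Sum.elim u (hs Or N u s))) N.init g := by
  have hlt : ∀ g : Ordinal.{0}, s < s + 1 + g := fun g =>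
    lt_of_lt_of_le (Order.lt_add_one_iff.mpr le_rfl) le_self_add
  induction g using Ordinal.limitRecOn with
  | zero =>
    intro _
    rw [add_zero, ss_succ, xx_flash Or N u hs0, iter_zero, if_pos hs0]
    exact ⟨rfl, rfl⟩
  | add_one g ih =>
    intro hle
    rw [← add_assoc] at hle ⊢
    have hle' : s + 1 + g ≤ a := le_trans le_self_add hle
    obtain ⟨ih1, ih2⟩ := ih hle'
    have hf := h _ (hlt g) hle'
    have hx : xx Or N u (s + 1 + g) N.halt = false := by
      have h1 := hH _ hle
      rw [hh_succ, hf] at h1
      simpa using h1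
    have hsame : ss Or N u (s + 1 + g) = hs Or N u (s + 1 + g) := by
      by_contra hne
      have h1 := h _ (lt_of_lt_of_le (hlt g) le_self_add) hle
      rw [ff_succ, hf, hx, @decide_eq_false _ (Classical.propDecidable _) hne] at h1
      simp at h1
    rw [ss_succ, xx_step Or N u hf hx hsame, iter_succ, ih1, ih2, hf]
    exact ⟨by simp, rfl⟩
  | limit g hg ih =>
    intro hle
    have hb : ∀ c, c < g → s + 1 + c ≤ a := fun c hc =>
      le_trans (by gcongr) hle
    have hlim : Order.IsSuccLimit (s + 1 + g) := Ordinal.isSuccLimit_add _ hg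
    constructor
    · funext p
      change Zt Or N u (s + 1 + g) (.inl (.inr p)) = _
      rw [z_lim Or N u hlim, lsup_add hg (fun c => Zt Or N u c (.inl (.inr p)))]
      have : ∀ c, c < g → Zt Or N u (s + 1 + c) (.inl (.inr p)) = hs Or N u s p :=
        fun c hc => congrFun (ih c hc (hb c hc)).1 p
      cases hp : hs Or N u s p with
      | true =>
        rw [lsup_eq_true]
        intro b hbg
        exact ⟨b, hbg, le_rfl, by rw [this b hbg, hp]⟩
      | false =>
        rw [lsup_eq_false]
        refine ⟨0, hg.bot_lt, fun c hc _ => ?_⟩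
        rw [this c hc, hp]
    · funext k
      change Zt Or N u (s + 1 + g) (.inr (.inl k)) = _
      rw [z_lim Or N u hlim, lsup_add hg (fun c => Zt Or N u c (.inr (.inl k))),
        iter_lim _ _ hg]
      refine congrArg (lsup g) ?_
      funext c hc
      exact congrFun (ih c hc (hb c hc)).2 k

/-- the last flash before a stage without flash -/
theorem start {a : Ordinal.{0}} (ha : ff Or N u a = false) :
    ∃ s, s < a ∧ ff Or N u s = true ∧ ∀ b, s < b → b ≤ a → ff Or N u b = false := by
  classical
  have hex : ∃ s : Ordinal.{0}, ∀ b, s < b → b ≤ a → ff Or N u b = false :=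
    ⟨a, fun b h1 h2 => absurd h1 (not_lt.mpr h2)⟩
  let P : Set Ordinal.{0} := {s | ∀ b, s < b → b ≤ a → ff Or N u b = false}
  have hPne : P.Nonempty := hex
  obtain ⟨s, hsP, hmin⟩ : ∃ s ∈ P, ∀ t, t ∈ P → s ≤ t :=
    ⟨sInf P, csInf_mem hPne, fun t ht => csInf_le' ht⟩
  have hsa : s ≤ a := hmin a (fun b h1 h2 => absurd h1 (not_lt.mpr h2))
  have hfs : ff Or N u s = true := by
    by_contra hne
    rw [Bool.not_eq_true] at hne
    rcases Ordinal.zero_or_succ_or_isSuccLimit s with h0 | ⟨t, ht⟩ | hlim
    · rw [h0, ff_zero] at hne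
      exact Bool.noConfusion hne
    · have htP : t ∈ P := by
        intro b h1 h2
        rcases eq_or_lt_of_le (Order.add_one_le_of_lt h1) with h3 | h3
        · have h4 : b = s := by rw [← h3]; exact ht
          rw [h4]
          exact hne
        · refine hsP b ?_ h2
          have h4 : t + 1 = s := ht
          rw [← h4]
          exact h3
      have h5 := hmin t htP
      have h6 : t < s := by
        have h4 : t + 1 = s := ht
        rw [← h4]
        exact Order.lt_add_one_iff.mpr le_rfl
      exact absurd h5 (not_le.mpr h6)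
    · have h1 := hne
      unfold ff at h1
      rw [z_lim Or N u hlim, lsup_eq_false] at h1
      obtain ⟨t, hts, ht⟩ := h1
      have htP : t ∈ P := by
        intro b h2 h3
        rcases lt_trichotomy b s with h4 | h4 | h4
        · exact ht b h4 h2.le
        · rw [h4]
          exact hne
        · exact hsP b h4 h3
      exact absurd (hmin t htP) (not_le.mpr hts)
  refine ⟨s, lt_of_le_of_ne hsa ?_, hfs, hsP⟩
  intro h
  rw [h, ha] at hfs
  exact Bool.noConfusion hfs

/-- after a flash at which all facts are seen there is no flash any more -/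
theorem noflash (hH : ∀ b, hh Or N u b = false) {s : Ordinal.{0}} (hs0 : ff Or N u s = true)
    (hall : hs Or N u s = hi Or u) (b : Ordinal.{0}) (hb : s < b) : ff Or N u b = false := by
  induction b using WellFoundedLT.induction with
  | ind b ih =>
    rcases Ordinal.zero_or_succ_or_isSuccLimit b with h0 | ⟨t, ht⟩ | hlim
    · rw [h0] at hb
      exact absurd hb not_lt_bot
    · have ht1 : b = t + 1 := ht.symm
      subst ht1
      have htb : t < t + 1 := Order.lt_add_one_iff.mpr le_rfl
      rcases eq_or_lt_of_le (Order.lt_add_one_iff.mp hb) with h1 | h1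
      · rw [ff_succ, ← h1, hs0]
        rfl
      · have hseg : ∀ d, s < d → d ≤ t → ff Or N u d = false := fun d h2 h3 =>
          ih d (lt_of_le_of_lt h3 htb) h2
        obtain ⟨g, hg⟩ : ∃ g, t = s + 1 + g :=
          ⟨t - (s + 1), (Ordinal.add_sub_cancel_of_le (Order.add_one_le_of_lt h1)).symm⟩
        have h4 := (fwd Or N u hs0 hseg (fun d _ => hH d) g hg.ge).1
        rw [← hg] at h4
        have h5 : hs Or N u t = hi Or u := by
          funext p
          cases hp : hi Or u p with
          | true =>
            refine hs_mono Or N u h1.le ?_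
            rw [hall]
            exact hp
          | false =>
            rw [← Bool.not_eq_true]
            intro h
            rw [hs_sound Or N u h] at hp
            exact Bool.noConfusion hp
        have h6 : ss Or N u t = hs Or N u t := by rw [h4, h5, hall]
        rw [ff_succ, @decide_eq_true _ (Classical.propDecidable _) h6]
        simp
    · unfold ff
      rw [z_lim Or N u hlim, lsup_eq_false]
      refine ⟨s + 1, hlim.succ_lt hb, fun c hc hsc => ?_⟩
      exact ih c hc (lt_of_lt_of_le (Order.lt_add_one_iff.mpr le_rfl) hsc)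

/-- the inner machine halts on the full set of facts: then the machine halts -/
theorem must_halt {v : O → Bool} (hv : N.Halts (Sum.elim u (hi Or u)) v) :
    ∃ b, hh Or N u b = true := by
  by_contra hno
  have hH : ∀ b, hh Or N u b = false := by
    intro b
    rw [← Bool.not_eq_true]
    exact fun h => hno ⟨b, h⟩
  obtain ⟨g, hg⟩ := hs_complete Or N u
  have hstart : ∃ s, ff Or N u s = true ∧ hs Or N u s = hi Or u := by
    by_cases hex : ∃ s, g ≤ s ∧ ff Or N u s = true
    · obtain ⟨s, h1, h2⟩ := hex
      exact ⟨s, h2, hg s h1⟩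
    · have hf : ∀ b, g ≤ b → ff Or N u b = false := by
        intro b hb
        rw [← Bool.not_eq_true]
        exact fun h => hex ⟨b, hb, h⟩
      obtain ⟨s, h1, h2, h3⟩ := start Or N u (hf g le_rfl)
      refine ⟨s, h2, ?_⟩
      obtain ⟨d, hd⟩ : ∃ d, g = s + 1 + d :=
        ⟨g - (s + 1), (Ordinal.add_sub_cancel_of_le (Order.add_one_le_of_lt h1)).symm⟩
      have h4 := (fwd Or N u h2 h3 (fun b _ => hH b) d hd.ge).1
      rw [← hd] at h4
      have h5 : xx Or N u g N.halt = false := by
        have h6 := hH (g + 1)
        rw [hh_succ, hf g le_rfl] at h6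
        simpa using h6
      have h7 : ss Or N u g = hs Or N u g := by
        by_contra hne
        have h8 := hf (g + 1) le_self_add
        rw [ff_succ, hf g le_rfl, h5, @decide_eq_false _ (Classical.propDecidable _) hne] at h8
        simp at h8
      rw [← h4, h7]
      exact hg g le_rfl
  obtain ⟨s, hs0, hall⟩ := hstart
  obtain ⟨β, hβ, -, -⟩ := hv
  have h1 := (fwd Or N u hs0 (a := s + 1 + β) (fun b hb _ => noflash Or N u hH hs0 hall b hb)
    (fun b _ => hH b) β le_rfl).2
  have h2 : xx Or N u (s + 1 + β) N.halt = true := by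
    rw [h1, hall]
    exact hβ
  have h3 : ff Or N u (s + 1 + β) = false := noflash Or N u hH hs0 hall _
    (lt_of_lt_of_le (Order.lt_add_one_iff.mpr le_rfl) le_self_add)
  have h4 := hH (s + 1 + β + 1)
  rw [hh_succ, h3, h2] at h4
  simp at h4

/-- the first halting stage gives a sound result -/
theorem halt_sound {b : Ordinal.{0}} (hb : hh Or N u b = true) :
    ∃ h v, (∀ p, h p = true → hi Or u p = true) ∧ N.Halts (Sum.elim u h) v ∧
      ∃ a, hh Or N u a = true ∧ (∀ c, c < a → hh Or N u c = false) ∧
        ∀ o, Zt Or N u a (.inr (.inl (N.out o))) = v o := by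
  classical
  let P : Set Ordinal.{0} := {b | hh Or N u b = true}
  have hPne : P.Nonempty := ⟨b, hb⟩
  obtain ⟨a, haP, hmin⟩ : ∃ a ∈ P, ∀ t, t ∈ P → a ≤ t :=
    ⟨sInf P, csInf_mem hPne, fun t ht => csInf_le' ht⟩
  have hbelow : ∀ c, c < a → hh Or N u c = false := by
    intro c hc
    rw [← Bool.not_eq_true]
    intro h
    exact absurd (hmin c h) (not_le.mpr hc)
  have haT : hh Or N u a = true := haP
  rcases Ordinal.zero_or_succ_or_isSuccLimit a with h0 | ⟨t, ht⟩ | hlim
  · rw [h0, hh_zero] at haT
    exact Bool.noConfusion haT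
  · have ht1 : a = t + 1 := ht.symm
    subst ht1
    have htb : t < t + 1 := Order.lt_add_one_iff.mpr le_rfl
    have h1 := haT
    rw [hh_succ, Bool.and_eq_true, Bool.not_eq_true'] at h1
    obtain ⟨s, hst, hs0, hseg⟩ := start Or N u h1.1
    have hH : ∀ c, c ≤ t → hh Or N u c = false := fun c hc => hbelow c (lt_of_le_of_lt hc htb)
    obtain ⟨d, hd⟩ : ∃ d, t = s + 1 + d :=
      ⟨t - (s + 1), (Ordinal.add_sub_cancel_of_le (Order.add_one_le_of_lt hst)).symm⟩
    have h2 := (fwd Or N u hs0 hseg hH d hd.ge).2
    rw [← hd] at h2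
    refine ⟨hs Or N u s, fun o => xx Or N u t (N.out o), fun p hp => hs_sound Or N u hp,
      ⟨d, ?_, ?_, ?_⟩, t + 1, haT, hbelow, ?_⟩
    · rw [← h2]
      exact h1.2
    · intro c hc
      have hct : s + 1 + c < t := by
        rw [hd]
        exact (add_lt_add_iff_left _).2 hc
      rw [← (fwd Or N u hs0 hseg hH c hct.le).2]
      have h3 : hh Or N u (s + 1 + c + 1) = false :=
        hH _ (Order.add_one_le_of_lt hct)
      rw [hh_succ, hseg _ (lt_of_lt_of_le (Order.lt_add_one_iff.mpr le_rfl) le_self_add)
        hct.le] at h3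
      simpa using h3
    · intro o
      rw [← h2]
    · intro o
      exact congrFun (xx_halt Or N u h1.1 h1.2) (N.out o)
  · have h1 := haT
    unfold hh at h1
    rw [z_lim Or N u hlim, lsup_eq_true] at h1
    obtain ⟨c, hc, -, h2⟩ := h1 0 hlim.bot_lt
    have h3 : hh Or N u c = true := h2
    rw [hbelow c hc] at h3
    exact Bool.noConfusion h3

end ana

end Rst

open Rst in
theorem restart {I O T' : Type} [Countable T'] (Or : T' → (I → Bool) → R2)
    (hOr : ∀ τ, Measurable (Or τ))
    (R : (I ⊕ (T' × Prog × ℕ × Bool) → Bool) → (O → Bool) → Prop) (hR : Comp R) :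
    ∃ M : BI I O, ∀ u, (∃ v, R (Sum.elim u (fun p => hinf (Or p.1 u) p.2)) v) →
      ∃ h v, (∀ p, h p = true → hinf (Or p.1 u) p.2 = true) ∧ R (Sum.elim u h) v ∧
        M.Halts u v := by
  obtain ⟨N, hN⟩ := hR
  have := N.cJ
  refine ⟨{ J := RJ T' N.J, cJ := inferInstance, init := ini N, step := stp Or N,
            meas := m_stp hOr, halt := .inr (.inr false), out := fun o => .inr (.inl (N.out o)) },
    ?_⟩
  rintro u ⟨v, hv⟩
  obtain ⟨b, hb⟩ := must_halt Or N u ((hN _ _).mpr hv)
  obtain ⟨h, v', h1, h2, a, h3, h4, h5⟩ := halt_sound Or N u hb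
  exact ⟨h, v', h1, (hN _ _).mp h2, a, h3, h4, h5⟩

end Pool.Agent.Helper78.ITTM
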