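import Pool.Agent.Helper78.ITTM.TaskAux
import Pool.Agent.Helper78.ITTM.CompClosure
import Pool.Agent.Helper78.ITTM.CompK
import Pool.Agent.Helper78.ITTM.CompLam
import Pool.Agent.Helper78.ITTM.Cuts
import Pool.Agent.Helper78.ITTM.Lam

/-! Task 1 is computable. -/

namespace Pool.Agent.Helper78.ITTM

section task1
variable {M : Type} [Countable M] (L : LocOp M) (en : Enum M) (en2 : Enum2 M)

/-- the cut of task 1 from the halting facts and the reals at the top -/
noncomputable def t1chi {X : Type} (h : X → Prog × ℕ × Bool → Bool) (r : X → Idx → ℕ → Bool)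
    (x : X) : ℚ → Bool :=
  fun q => @decide (∃ e, tot (h x) e ∧ Correct q (r x) (ofr (rel (h x) e)))
    (Classical.propDecidable _)

theorem t1chi_meas {X : Type} [MeasurableSpace X] {h : X → Prog × ℕ × Bool → Bool}
    {r : X → Idx → ℕ → Bool} (hh : ∀ p, Measurable (fun x => h x p))
    (hr : ∀ i j, Measurable (fun x => r x i j)) : Measurable (t1chi h r) := by
  refine measurable_pi_lambda _ fun q => tk_dec ?_
  have : {x | ∃ e, tot (h x) e ∧ Correct q (r x) (ofr (rel (h x) e))} =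
      ⋃ e, ({x | tot (h x) e} ∩ {x | Correct q (r x) (ofr (rel (h x) e))}) := by
    ext x; simp
  rw [this]
  exact MeasurableSet.iUnion fun e => (tk_tot hh e).inter
    (tk_correct hr (fun i => hh _) q)

/-- rearrangement: the constant and the code -/
def t1g : ℕ ⊕ (ℕ × ℕ) → (ℕ ⊕ (Prog × ℕ × Bool)) ⊕ (ℕ × ℕ) :=
  Sum.elim (fun n => Sum.inl (Sum.inl n)) Sum.inr

/-- the input of the last call in task 1 -/
noncomputable def t1F (u : (((ℕ ⊕ (Prog × ℕ × Bool)) ⊕ (ℕ × ℕ)) ⊕ Unit) ⊕ (Idx × ℕ) → Bool) :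
    ℕ ⊕ (ℕ × ℕ) → Bool :=
  Sum.elim (fun n => u (Sum.inl (Sum.inl (Sum.inl (Sum.inl n)))))
    (wr (dec (t1chi (fun u p => u (Sum.inl (Sum.inl (Sum.inl (Sum.inr p)))))
      (fun u i j => u (Sum.inr (i, j))) u)))

theorem t1F_meas : Measurable t1F := by
  refine measurable_pi_lambda _ fun x => ?_
  rcases x with n | p
  · exact measurable_pi_apply _
  · exact (measurable_pi_apply (Nat.pair p.1 p.2)).comp (meas_dec.comp
      (t1chi_meas (fun p => measurable_pi_apply _) (fun i j => measurable_pi_apply _)))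

theorem comp_t1 : Comp (I := ℕ ⊕ (Prog × ℕ × Bool)) (O := ℕ) (fun u v =>
    R1t L en en2 (fun n => u (Sum.inl n)) (fun p => u (Sum.inr p)) v) := by
  have hA := comp_pre (I' := ℕ ⊕ (Prog × ℕ × Bool)) comp_lam (fun u p => u (Sum.inr p)) (tk_re _)
  have hB := comp_pre (comp_hasK L en) (fun u x => u (t1g x)) (tk_re t1g)
  have h1 := comp_pre (comp_xw L en en2)
    (fun (u : ((ℕ ⊕ (Prog × ℕ × Bool)) ⊕ (ℕ × ℕ)) ⊕ Unit → Bool) x => u (Sum.inl (t1g x)))
    (tk_re _)
  have h2 := comp_pre (comp_xr L en ltop)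
    (fun (u : ((ℕ ⊕ (Prog × ℕ × Bool)) ⊕ (ℕ × ℕ)) ⊕ Unit → Bool) x => u (Sum.inl (t1g x)))
    (tk_re _)
  have h3 := comp_pre (comp_xw L en en2) t1F t1F_meas
  have h4 := comp_ite h1 (comp_seq h2 h3) (tk_cell (Sum.inr ()))
  refine tk_congr (comp_seq hA (comp_seq hB h4)) ?_
  intro u v
  set c : R2 := fun n => u (Sum.inl n) with hc
  set h : Prog × ℕ × Bool → Bool := fun p => u (Sum.inr p) with hh
  constructor
  · rintro ⟨w, rfl, b, ⟨-, hb⟩, (⟨-, hK, hv⟩ | ⟨hnb, t, ⟨-, -, ht⟩, hK, hv⟩)⟩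
    · exact ⟨hv, Or.inl hK⟩
    · refine ⟨hv, Or.inr ⟨fun hK' => hnb (hb.2 hK'), ?_⟩⟩
      have e : (fun (i : Idx) (j : ℕ) => t (i, j)) =
          rr (obj L en c) (rkw (lamN h) ltop) := by
        funext i j; exact ht i j
      have e2 : (fun p => t1F (Sum.elim (Sum.elim (Sum.elim u (lamN h)) b) t) (Sum.inr p)) =
          wr (dec (chiK L en c h)) := by
        have e3 : t1chi (fun (u : (((ℕ ⊕ (Prog × ℕ × Bool)) ⊕ (ℕ × ℕ)) ⊕ Unit) ⊕ (Idx × ℕ) → Bool)
            p => u (Sum.inl (Sum.inl (Sum.inl (Sum.inr p))))) (fun u i j => u (Sum.inr (i, j)))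
            (Sum.elim (Sum.elim (Sum.elim u (lamN h)) b) t) = chiK L en c h := by
          funext q
          unfold t1chi chiK
          rw [← e]
          rfl
        rw [← e3]
        rfl
      rw [← e2]
      exact hK
  · rintro ⟨hv, hK⟩
    refine ⟨lamN h, rfl, fun _ => @decide (HasK L en c (lamN h)) (Classical.propDecidable _),
      ⟨lam_LO h, by simp [t1g]; rfl⟩, ?_⟩
    by_cases hk : HasK L en c (lamN h)
    · left
      refine ⟨?_, hk, hv⟩
      show @decide (HasK L en c (lamN h)) (Classical.propDecidable _) = true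
      simpa using hk
    · right
      have hK2 : HasK L en c (wr (dec (chiK L en c h))) := by
        rcases hK with hK | hK
        · exact absurd hK hk
        · exact hK.2
      refine ⟨?_, fun p => rr (obj L en c) (rkw (lamN h) ltop) p.1 p.2,
        ⟨lam_LO h, lam_top h, fun i j => rfl⟩, ?_, hv⟩
      · show ¬ @decide (HasK L en c (lamN h)) (Classical.propDecidable _) = true
        simpa using hk
      · exact hK2

end task1

end Pool.Agent.Helper78.ITTM
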