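import Pool.Agent.Helper78.ITTM.TaskAux
import Pool.Agent.Helper78.ITTM.CompClosure
import Pool.Agent.Helper78.ITTM.CompK
import Pool.Agent.Helper78.ITTM.CompLam
import Pool.Agent.Helper78.ITTM.Lam

/-! Task 2 is computable. -/

namespace Pool.Agent.Helper78.ITTM

section task2
variable {M : Type} [Countable M] (L : LocOp M) (en : Enum M)

/-- rearrangement: the constant and the code -/
def t2g : ℕ ⊕ (ℕ × ℕ) → (ℕ ⊕ (Prog × ℕ × Bool)) ⊕ (ℕ × ℕ) :=
  Sum.elim (fun n => Sum.inl (Sum.inl n)) Sum.inr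

/-- the Borel condition on the halting facts -/
def t2P (e1 e' : Prog) (i : Idx) (h : Prog × ℕ × Bool → Bool) : Prop :=
  tot h e1 ∧ tot h e' ∧ ofr (rel h e1) i ≠ ofr (rel h e') i

/-- the Borel condition on the real at the top -/
def t2Q (e1 e' : Prog) (i : Idx) (s : List Bool) (h : Prog × ℕ × Bool → Bool)
    (r : Idx → ℕ → Bool) : Prop :=
  ∀ k, pre (r i) (s.length + k) = prd (ofr (rel h e1)) (ofr (rel h e')) i s k

theorem t2P_meas {X : Type} [MeasurableSpace X] {h : X → Prog × ℕ × Bool → Bool}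
    (hh : ∀ p, Measurable (fun x => h x p)) (e1 e' : Prog) (i : Idx) :
    MeasurableSet {x | t2P e1 e' i (h x)} :=
  (tk_tot hh e1).inter ((tk_tot hh e').inter (tk_eq2 (hh _) (hh _)).compl)

theorem t2Q_meas {X : Type} [MeasurableSpace X] {h : X → Prog × ℕ × Bool → Bool}
    {r : X → Idx → ℕ → Bool} (hh : ∀ p, Measurable (fun x => h x p))
    (hr : ∀ i j, Measurable (fun x => r x i j)) (e1 e' : Prog) (i : Idx) (s : List Bool) :
    MeasurableSet {x | t2Q e1 e' i s (h x) (r x)} := by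
  have : {x | t2Q e1 e' i s (h x) (r x)} = ⋂ k, ⋃ t : List Bool,
      ({x | pre (r x i) (s.length + k) = t} ∩
        {x | prd (ofr (rel (h x) e1)) (ofr (rel (h x) e')) i s k = t}) := by
    ext x
    simp only [t2Q, Set.mem_setOf_eq, Set.mem_iInter, Set.mem_iUnion, Set.mem_inter_iff]
    refine forall_congr' fun k => ?_
    constructor
    · intro h
      exact ⟨_, rfl, h.symm⟩
    · rintro ⟨t, h1, h2⟩
      rw [h1, h2]
  rw [this]
  exact MeasurableSet.iInter fun k => MeasurableSet.iUnion fun t => (tk_pre (hr i) _ t).inter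
    (tk_prd (fun _ => hh _) (fun _ => hh _) i s k t)

theorem comp_t2 (e1 e' : Prog) (i : Idx) (s : List Bool) :
    Comp (I := ℕ ⊕ (Prog × ℕ × Bool)) (O := ℕ) (fun u v =>
      R2t L en e1 e' i s (fun n => u (Sum.inl n)) (fun p => u (Sum.inr p)) v) := by
  have hA := comp_pre (I' := ℕ ⊕ (Prog × ℕ × Bool)) comp_lam (fun u p => u (Sum.inr p)) (tk_re _)
  have hB := comp_pre (comp_hasK L en) (fun u x => u (t2g x)) (tk_re t2g)
  have h2 := comp_pre (comp_xr L en ltop)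
    (fun (u : ((ℕ ⊕ (Prog × ℕ × Bool)) ⊕ (ℕ × ℕ)) ⊕ Unit → Bool) x => u (Sum.inl (t2g x)))
    (tk_re _)
  have h3 := comp_borel (I := (((ℕ ⊕ (Prog × ℕ × Bool)) ⊕ (ℕ × ℕ)) ⊕ Unit) ⊕ (Idx × ℕ))
    (O := ℕ) (fun u n => u (Sum.inl (Sum.inl (Sum.inr (Nat.unpair n))))) (tk_re _)
  have h4 := comp_guard h3 (P := {u : (((ℕ ⊕ (Prog × ℕ × Bool)) ⊕ (ℕ × ℕ)) ⊕ Unit) ⊕ (Idx × ℕ) →
      Bool | t2Q e1 e' i s
    (fun p => u (Sum.inl (Sum.inl (Sum.inl (Sum.inr p))))) (fun i j => u (Sum.inr (i, j)))})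
    (t2Q_meas (X := (((ℕ ⊕ (Prog × ℕ × Bool)) ⊕ (ℕ × ℕ)) ⊕ Unit) ⊕ (Idx × ℕ) → Bool) (h := fun u p => u (Sum.inl (Sum.inl (Sum.inl (Sum.inr p)))))
      (r := fun u i j => u (Sum.inr (i, j)))
      (fun p => measurable_pi_apply _) (fun i j => measurable_pi_apply _) e1 e' i s)
  have h5 := comp_guard (comp_seq h2 h4)
    (P := {u : ((ℕ ⊕ (Prog × ℕ × Bool)) ⊕ (ℕ × ℕ)) ⊕ Unit → Bool | u (Sum.inr ()) = true}ᶜ) (tk_cell _).compl
  have h6 := comp_guard (comp_seq hA (comp_seq hB h5))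
    (P := {u : ℕ ⊕ (Prog × ℕ × Bool) → Bool | t2P e1 e' i (fun p => u (Sum.inr p))})
    (t2P_meas (X := ℕ ⊕ (Prog × ℕ × Bool) → Bool) (h := fun u p => u (Sum.inr p)) (fun p => measurable_pi_apply _) e1 e' i)
  refine tk_congr h6 ?_
  intro u v
  set c : R2 := fun n => u (Sum.inl n) with hc
  set h : Prog × ℕ × Bool → Bool := fun p => u (Sum.inr p) with hh
  constructor
  · rintro ⟨⟨p1, p2, p3⟩, w, rfl, b, ⟨-, hb⟩, hnb, t, ⟨-, -, ht⟩, hQ, hv⟩
    have e : (fun (i : Idx) (j : ℕ) => t (i, j)) =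
        rr (obj L en c) (rkw (lamN h) ltop) := by
      funext i j; exact ht i j
    refine ⟨p1, p2, p3, fun hK' => hnb (hb.2 hK'), ?_, hv⟩
    rw [← e]
    exact hQ
  · rintro ⟨p1, p2, p3, hK, hQ, hv⟩
    refine ⟨⟨p1, p2, p3⟩, lamN h, rfl,
      fun _ => @decide (HasK L en c (lamN h)) (Classical.propDecidable _),
      ⟨lam_LO h, by simp [t2g]; rfl⟩, ?_, fun p => rr (obj L en c) (rkw (lamN h) ltop) p.1 p.2,
        ⟨lam_LO h, lam_top h, fun i j => rfl⟩, hQ, hv⟩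
    show ¬ @decide (HasK L en c (lamN h)) (Classical.propDecidable _) = true
    simpa using hK

end task2

end Pool.Agent.Helper78.ITTM
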