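import Pool.Agent.Helper78.ITTM.Task3Pre
import Pool.Agent.Helper78.ITTM.CompK

/-! Part C, module C12c: task 3. -/

namespace Pool.Agent.Helper78.ITTM

section
variable {M : Type} [Countable M] (L : LocOp M) (en : Enum M) (en2 : Enum2 M)

theorem comp_t3 (q' : ℚ) :
    Comp (I := (ℕ ⊕ ℕ) ⊕ (ℚ × Prog × ℕ × Bool)) (O := ℕ) (fun u v =>
      R3t L en en2 q' (fun n => u (Sum.inl (Sum.inl n))) (fun n => u (Sum.inl (Sum.inr n)))
        (fun p => u (Sum.inr p)) v) :=
  comp_t3_of L en en2 (comp_xw L en en2) q'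

end

end Pool.Agent.Helper78.ITTM
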