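import Pool.Agent.Helper78.ITTM.CDefs2
import Pool.Agent.Helper78.ITTM.Realise
import Pool.Agent.Helper78.ITTM.Restart
import Pool.Agent.Helper78.ITTM.CompClosure
import Pool.Agent.Helper78.ITTM.CompOff
import Pool.Agent.Helper78.ITTM.Task1
import Pool.Agent.Helper78.ITTM.Task2
import Pool.Agent.Helper78.ITTM.Task3

/-! Module C13: one constant `c` realising all machines of the final argument. -/

namespace Pool.Agent.Helper78.ITTM

namespace Machines

/-- A Borel machine from a machine with two input reals. -/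
noncomputable def bm (M : BI (ℕ ⊕ ℕ) ℕ) : BM where
  J := M.J
  cJ := M.cJ
  init := M.init
  step := fun c x z => M.step (Sum.elim c x) z
  meas := by
    have h : Measurable (fun p : R2 × R2 × (M.J → Bool) =>
        ((Sum.elim p.1 p.2.1 : ℕ ⊕ ℕ → Bool), p.2.2)) := by
      refine Measurable.prodMk ?_ measurable_snd.snd
      rw [measurable_pi_iff]
      rintro (n | n)
      · exact (measurable_pi_apply n).comp measurable_fst
      · exact (measurable_pi_apply n).comp measurable_snd.fst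
    exact M.meas.comp h
  halt := M.halt
  out := M.out

theorem bm_halts (M : BI (ℕ ⊕ ℕ) ℕ) (c x v : R2) :
    (bm M).Halts c x v ↔ M.Halts (Sum.elim c x) v := Iff.rfl

/-- Realisation of a countable family of computable relations of two reals. -/
theorem real_fam {K : Type} [Countable K] [Nonempty K]
    (R : K → (ℕ ⊕ ℕ → Bool) → (ℕ → Bool) → Prop) (hR : ∀ k, Comp (R k)) :
    ∃ c, ∀ k x v, Above c x → R k (Sum.elim c x) v → Le v x := by
  choose M hM using hR
  obtain ⟨f, hf⟩ := exists_surjective_nat K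
  obtain ⟨c, hc⟩ := realise (fun n => bm (M (f n)))
  refine ⟨c, fun k x v ha h => ?_⟩
  obtain ⟨n, rfl⟩ := hf k
  exact hc n x v ha ((bm_halts _ c x v).2 ((hM _ _ _).2 h))

/-- Projections are measurable. -/
theorem meas_re {I I' : Type} (f : I → I') :
    Measurable (fun (u : I' → Bool) (i : I) => u (f i)) := by
  rw [measurable_pi_iff]
  exact fun i => measurable_pi_apply (f i)

/-- The join of two coordinatewise measurable reals. -/
theorem meas_join {X : Type} [MeasurableSpace X] {f g : X → R2} (hf : Measurable f)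
    (hg : Measurable g) : Measurable (fun u => join (f u) (g u)) := by
  rw [measurable_pi_iff]
  intro i
  unfold join
  by_cases h : i % 2 = 0
  · simp only [h, if_true]
    exact (measurable_pi_apply _).comp hf
  · simp only [h, if_false]
    exact (measurable_pi_apply _).comp hg

theorem meas_msk {X : Type} [MeasurableSpace X] {f : X → R2} (hf : Measurable f) (q : ℚ) :
    Measurable (fun u => msk q (f u)) := by
  rw [measurable_pi_iff]
  intro i
  unfold msk
  by_cases h : (E0.symm i).label < q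
  · simp only [h, decide_true, Bool.true_and]
    exact (measurable_pi_apply _).comp hf
  · simp only [h, decide_false, Bool.false_and]
    exact measurable_const

theorem meas_od {X : Type} [MeasurableSpace X] {f : X → R2} (hf : Measurable f) :
    Measurable (fun u => od (f u)) := by
  rw [measurable_pi_iff]
  intro i
  exact (measurable_pi_apply _).comp hf

/-- Program `e` with the second input as oracle. -/
theorem comp_e (e : Prog) : Comp (I := ℕ ⊕ ℕ) (O := ℕ)
    (fun u v => ∀ n, Halts e (fun n => u (Sum.inr n)) n (v n).toNat) :=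
  comp_pre (comp_off e) (fun u n => u (Sum.inr n)) (meas_re _)

end Machines

open Machines

section tasks
variable {M : Type} [Countable M] (L : LocOp M) (en : Enum M) (en2 : Enum2 M)

/-- all properties of the constant `c` used in the final argument -/
structure GoodC (c : R2) : Prop where
  tr : ∀ x U z, Above c x → Le U x → Le z U → Le z x
  ms : ∀ q x z, Above c x → Le z x → Le (join c (msk q (od z))) x
  t1 : ∀ x, Above c x → (∃ v, R1t L en en2 c (hinf x) v) → Le (X0r L en en2 c) x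
  t2 : ∀ x e1 e' i s, Above c x → (∃ v, R2t L en e1 e' i s c (hinf x) v) →
    ∃ h v, (∀ p, h p = true → hinf x p = true) ∧ R2t L en e1 e' i s c h v ∧ Le v x
  t3 : ∀ x d q', Above c x → Le d x →
    (∃ v, R3t L en en2 q' c x (fun p => hinf (join c (msk p.1 (od d))) p.2) v) →
    Le (X0r L en en2 c) x

/-- Index set of the machines. -/
abbrev KI : Type := (Prog × Prog) ⊕ (ℚ × Prog) ⊕ Unit ⊕ (Prog × Prog × Idx × List Bool) ⊕
  (Prog × ℚ)

namespace Machines

theorem mach_tr (e1 e2 : Prog) : Comp (I := ℕ ⊕ ℕ) (O := ℕ) (fun u w => ∃ v : ℕ → Bool,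
    (∀ n, Halts e1 (fun n => u (Sum.inr n)) n (v n).toNat) ∧
      ∀ n, Halts e2 v n (w n).toNat) := by
  have h2 : Comp (I := (ℕ ⊕ ℕ) ⊕ ℕ) (O := ℕ)
      (fun u w => ∀ n, Halts e2 (fun n => u (Sum.inr n)) n (w n).toNat) :=
    comp_pre (comp_off e2) (fun u n => u (Sum.inr n)) (meas_re _)
  exact comp_seq (comp_e e1) h2

theorem mach_ms (q : ℚ) (e : Prog) : Comp (I := ℕ ⊕ ℕ) (O := ℕ) (fun u w => ∃ v : ℕ → Bool,
    (∀ n, Halts e (fun n => u (Sum.inr n)) n (v n).toNat) ∧
      w = join (fun n => u (Sum.inl n)) (msk q (od v))) := by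
  refine comp_post (comp_e e)
    (fun p : (ℕ ⊕ ℕ) ⊕ ℕ → Bool => join (fun n => p (Sum.inl (Sum.inl n)))
      (msk q (od (fun n => p (Sum.inr n))))) ?_
  exact meas_join (meas_re _) (meas_msk (meas_od (meas_re _)) q)

theorem mach_t1 : ∃ B : BI (ℕ ⊕ ℕ) ℕ, ∀ c x : R2,
    (∃ v, R1t L en en2 c (hinf x) v) → B.Halts (Sum.elim c x) (X0r L en en2 c) := by
  have hR : Comp (I := (ℕ ⊕ ℕ) ⊕ (Unit × Prog × ℕ × Bool)) (O := ℕ) (fun u v =>
      R1t L en en2 (fun n => u (Sum.inl (Sum.inl n))) (fun p => u (Sum.inr ((), p))) v) := by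
    refine comp_pre (comp_t1 L en en2)
      (fun u => Sum.elim (fun n => u (Sum.inl (Sum.inl n))) (fun p => u (Sum.inr ((), p)))) ?_
    rw [measurable_pi_iff]
    rintro (n | p)
    · exact measurable_pi_apply _
    · exact measurable_pi_apply _
  obtain ⟨B, hB⟩ := restart (T' := Unit) (fun _ u n => u (Sum.inr n)) (fun _ => meas_re _) _ hR
  refine ⟨B, fun c x hv => ?_⟩
  obtain ⟨h, v, _, h2, h3⟩ := hB (Sum.elim c x) hv
  have h4 : v = X0r L en en2 c := h2.1
  rw [← h4]
  exact h3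

theorem mach_t2 (e1 e' : Prog) (i : Idx) (s : List Bool) : ∃ B : BI (ℕ ⊕ ℕ) ℕ, ∀ c x : R2,
    (∃ v, R2t L en e1 e' i s c (hinf x) v) →
    ∃ h v, (∀ p, h p = true → hinf x p = true) ∧ R2t L en e1 e' i s c h v ∧
      B.Halts (Sum.elim c x) v := by
  have hR : Comp (I := (ℕ ⊕ ℕ) ⊕ (Unit × Prog × ℕ × Bool)) (O := ℕ) (fun u v =>
      R2t L en e1 e' i s (fun n => u (Sum.inl (Sum.inl n))) (fun p => u (Sum.inr ((), p))) v) := by
    refine comp_pre (comp_t2 L en e1 e' i s)
      (fun u => Sum.elim (fun n => u (Sum.inl (Sum.inl n))) (fun p => u (Sum.inr ((), p)))) ?_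
    rw [measurable_pi_iff]
    rintro (n | p)
    · exact measurable_pi_apply _
    · exact measurable_pi_apply _
  obtain ⟨B, hB⟩ := restart (T' := Unit) (fun _ u n => u (Sum.inr n)) (fun _ => meas_re _) _ hR
  refine ⟨B, fun c x hv => ?_⟩
  obtain ⟨h, v, h1, h2, h3⟩ := hB (Sum.elim c x) hv
  exact ⟨fun p => h ((), p), v, fun p hp => h1 ((), p) hp, h2, h3⟩

theorem mach_t3 (e : Prog) (q' : ℚ) : ∃ B : BI (ℕ ⊕ ℕ) ℕ, ∀ c x d : R2,
    (∀ n, Halts e x n (d n).toNat) →
    (∃ v, R3t L en en2 q' c x (fun p => hinf (join c (msk p.1 (od d))) p.2) v) →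
    B.Halts (Sum.elim c x) (X0r L en en2 c) := by
  have hR : Comp (I := ((ℕ ⊕ ℕ) ⊕ ℕ) ⊕ (ℚ × Prog × ℕ × Bool)) (O := ℕ) (fun u v =>
      R3t L en en2 q' (fun n => u (Sum.inl (Sum.inl (Sum.inl n))))
        (fun n => u (Sum.inl (Sum.inl (Sum.inr n)))) (fun p => u (Sum.inr p)) v) := by
    refine comp_pre (comp_t3 L en en2 q')
      (fun u => Sum.elim (Sum.elim (fun n => u (Sum.inl (Sum.inl (Sum.inl n))))
        (fun n => u (Sum.inl (Sum.inl (Sum.inr n))))) (fun p => u (Sum.inr p))) ?_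
    rw [measurable_pi_iff]
    rintro ((n | n) | p)
    · exact measurable_pi_apply _
    · exact measurable_pi_apply _
    · exact measurable_pi_apply _
  obtain ⟨B, hB⟩ := restart (T' := ℚ)
    (fun q u => join (fun n => u (Sum.inl (Sum.inl n))) (msk q (od (fun n => u (Sum.inr n)))))
    (fun q => meas_join (meas_re _) (meas_msk (meas_od (meas_re _)) q)) _ hR
  have hBc : Comp (fun u v => B.Halts u v) := ⟨B, fun _ _ => Iff.rfl⟩
  obtain ⟨B', hB'⟩ := comp_seq (comp_e e) hBc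
  refine ⟨B', fun c x d hd hv => ?_⟩
  obtain ⟨h, v, _, h2, h3⟩ := hB (Sum.elim (Sum.elim c x) d) hv
  have h4 : v = X0r L en en2 c := h2.1
  rw [← h4]
  exact (hB' _ _).2 ⟨d, hd, h3⟩

end Machines

theorem goodC_exists : ∃ c, GoodC L en en2 c := by
  obtain ⟨B1, hB1⟩ := mach_t1 L en en2
  choose B2 hB2 using mach_t2 L en
  choose B3 hB3 using mach_t3 L en en2
  let R : KI → (ℕ ⊕ ℕ → Bool) → (ℕ → Bool) → Prop := fun k => match k with
    | Sum.inl (e1, e2) => fun u w => ∃ v : ℕ → Bool,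
        (∀ n, Halts e1 (fun n => u (Sum.inr n)) n (v n).toNat) ∧ ∀ n, Halts e2 v n (w n).toNat
    | Sum.inr (Sum.inl (q, e)) => fun u w => ∃ v : ℕ → Bool,
        (∀ n, Halts e (fun n => u (Sum.inr n)) n (v n).toNat) ∧
          w = join (fun n => u (Sum.inl n)) (msk q (od v))
    | Sum.inr (Sum.inr (Sum.inl ())) => fun u v => B1.Halts u v
    | Sum.inr (Sum.inr (Sum.inr (Sum.inl (e1, e', i, s)))) => fun u v =>
        (B2 e1 e' i s).Halts u v
    | Sum.inr (Sum.inr (Sum.inr (Sum.inr (e, q')))) => fun u v => (B3 e q').Halts u v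
  have hR : ∀ k, Comp (R k) := by
    rintro (⟨e1, e2⟩ | ⟨q, e⟩ | ⟨⟩ | ⟨e1, e', i, s⟩ | ⟨e, q'⟩)
    · exact mach_tr e1 e2
    · exact mach_ms q e
    · exact ⟨B1, fun _ _ => Iff.rfl⟩
    · exact ⟨B2 e1 e' i s, fun _ _ => Iff.rfl⟩
    · exact ⟨B3 e q', fun _ _ => Iff.rfl⟩
  have : Nonempty KI := ⟨Sum.inr (Sum.inr (Sum.inl ()))⟩
  obtain ⟨c, hc⟩ := real_fam R hR
  refine ⟨c, ⟨?_, ?_, ?_, ?_, ?_⟩⟩
  · rintro x U z ha ⟨e1, h1⟩ ⟨e2, h2⟩
    exact hc (Sum.inl (e1, e2)) x z ha ⟨U, h1, h2⟩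
  · rintro q x z ha ⟨e, h⟩
    exact hc (Sum.inr (Sum.inl (q, e))) x _ ha ⟨z, h, rfl⟩
  · intro x ha hv
    exact hc (Sum.inr (Sum.inr (Sum.inl ()))) x _ ha (hB1 c x hv)
  · intro x e1 e' i s ha hv
    obtain ⟨h, v, h1, h2, h3⟩ := hB2 e1 e' i s c x hv
    exact ⟨h, v, h1, h2, hc (Sum.inr (Sum.inr (Sum.inr (Sum.inl (e1, e', i, s))))) x v ha h3⟩
  · rintro x d q' ha ⟨e, he⟩ hv
    exact hc (Sum.inr (Sum.inr (Sum.inr (Sum.inr (e, q'))))) x _ ha (hB3 e q' c x d he hv)

end tasks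

end Pool.Agent.Helper78.ITTM
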