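import Pool.Agent.Helper78.ITTM.Lock
import Pool.Agent.Helper78.ITTM.BMain

/-! Module C3: the oracles of the chain are not reducible to the smaller ones. -/

namespace Pool.Agent.Helper78.ITTM

theorem nle_zit (L : LocOp (ℚ × Prog × ℕ × LC)) (h1 : ∀ c m z x, L.phi c m z x =
      lstep m.2.1 m.2.2.1 (dq c x m.1) (fun l => z (m.1, m.2.1, m.2.2.1, l)) m.2.2.2)
    (c : R2) (x : Idx → Bool) (a : Ordinal.{0}) (q : ℚ) (e : Prog) (n : ℕ) (l : LC) :
    Zit L c x a (q, e, n, l) = lrun e n (dq c x q) a l := by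
  induction a using Ordinal.limitRecOn generalizing l with
  | zero =>
    unfold Zit lrun
    rw [iter_zero, iter_zero]
  | add_one a ih =>
    unfold Zit lrun at ih ⊢
    rw [iter_succ, iter_succ]
    rw [h1]
    congr 1
    funext l'
    exact ih l'
  | limit a ha ih =>
    unfold Zit lrun at ih ⊢
    rw [iter_lim _ _ ha, iter_lim _ _ ha]
    apply run_bool_ext
    rw [lsup_eq_true, lsup_eq_true]
    constructor
    · intro h b hb
      obtain ⟨d, hd, hbd, he⟩ := h b hb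
      exact ⟨d, hd, hbd, by rw [← ih d hd l]; exact he⟩
    · intro h b hb
      obtain ⟨d, hd, hbd, he⟩ := h b hb
      exact ⟨d, hd, hbd, by rw [ih d hd l]; exact he⟩

theorem nle_num (c : R2) (x : Idx → Bool) {q' l : ℚ} (hl : l < q') :
    dq c x q' (num l) = x (Idx.root l) := by
  unfold dq num join
  have h1 : (2 * E0 (Idx.root l) + 1) % 2 ≠ 0 := by omega
  have h2 : (2 * E0 (Idx.root l) + 1) / 2 = E0 (Idx.root l) := by omega
  rw [if_neg h1, h2]
  unfold msk idr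
  simp [Idx.label, hl]

theorem not_le (L : LocOp (ℚ × Prog × ℕ × LC)) (h1 : ∀ c m z x, L.phi c m z x =
      lstep m.2.1 m.2.2.1 (dq c x m.1) (fun l => z (m.1, m.2.1, m.2.2.1, l)) m.2.2.2)
    (h2 : ∀ q e n, L.hc q e n = (q, e, n, .hl)) (h3 : ∀ q e n, L.oc q e n = (q, e, n, .tp 2 0))
    (en : Enum (ℚ × Prog × ℕ × LC)) (en2 : Enum2 (ℚ × Prog × ℕ × LC)) (c : R2) {q q' : ℚ}
    (hq : q < q') : ¬ Le (dq c (x0 L en en2 c) q') (dq c (x0 L en en2 c) q) := by
  rintro ⟨P, hP⟩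
  obtain ⟨l, -, hl, hd⟩ := x0_diag L en en2 c (fun x q e n γ γ' hle hh => by
    rw [h2, nle_zit L h1] at hh
    rw [h2, h3, nle_zit L h1, nle_zit L h1, nle_zit L h1, lock_stable hh hle]
    exact ⟨hh, rfl⟩) P hq
  obtain ⟨γ, hγ1, hγ2⟩ := lock_of_halts (hP (num l))
  have e1 := hd γ (by rw [h2, nle_zit L h1]; exact hγ1)
  apply e1
  rw [h3, nle_zit L h1, hγ2 0, nle_num c _ hl]
  cases x0 L en en2 c (Idx.root l) <;> simp

end Pool.Agent.Helper78.ITTM
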