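import Pool.Agent.Helper78.ITTM.CDefs2

/-! Part C, module C12': prediction of a real from two correct reals with different bits. -/

namespace Pool.Agent.Helper78.ITTM

private theorem pre_succ_thin (r : ℕ → Bool) (j : ℕ) : pre r (j + 1) = pre r j ++ [r j] := by
  simp [pre, List.range_succ]

private theorem pre_length_thin (r : ℕ → Bool) (j : ℕ) : (pre r j).length = j := by
  simp [pre]

theorem thin {q q' : ℚ} {r : Idx → ℕ → Bool} {u u' : Idx → Bool} (h : Correct q r u)
    (h' : Correct q' r u') {i : Idx} (hi : i.label < q) (hi' : i.label < q') (hu : u i ≠ u' i) :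
    ∃ s : List Bool, ∀ k, pre (r i) (s.length + k) = prd u u' i s k := by
  obtain ⟨J, hJ⟩ := h i hi
  obtain ⟨J', hJ'⟩ := h' i hi'
  refine ⟨pre (r i) (max J J'), fun k => ?_⟩
  rw [pre_length_thin]
  induction k with
  | zero => rfl
  | succ k ih =>
    have e1 : max J J' + (k + 1) = (max J J' + k) + 1 := by omega
    rw [e1, pre_succ_thin, prd, ← ih, pre_length_thin]
    congr 2
    by_cases hp : (max J J' + k) % 2 = (u i).toNat
    · rw [if_pos hp]
      exact (hJ _ (by omega) hp).symm
    · rw [if_neg hp]
      refine (hJ' _ (by omega) ?_).symm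
      have h2 : (max J J' + k) % 2 < 2 := Nat.mod_lt _ (by norm_num)
      revert hp hu h2
      generalize (max J J' + k) % 2 = m
      intro hp hu h2
      cases hx : u i <;> cases hy : u' i <;> simp_all <;> omega

end Pool.Agent.Helper78.ITTM
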