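import Pool.Agent.Helper78.ITTM.Refl
import Pool.Agent.Helper78.ITTM.BMain
import Pool.Agent.Helper78.ITTM.Lock
import Pool.Agent.Helper78.ITTM.LocalOp
import Pool.Agent.Helper78.ITTM.NotLe
import Pool.Agent.Helper78.ITTM.Ranks
import Pool.Agent.Helper78.ITTM.Lam
import Pool.Agent.Helper78.ITTM.Cuts
import Pool.Agent.Helper78.ITTM.CodeExists
import Pool.Agent.Helper78.ITTM.Thin
import Pool.Agent.Helper78.ITTM.Machines

/-! The final argument: a countable set of ITTM degrees without minimal upper bound. -/

namespace Pool.Agent.Helper78.ITTM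

abbrev M0 : Type := ℚ × Prog × ℕ × LC

theorem ev_join (c x : R2) : ev (join c x) = c := by
  funext n
  simp [ev, join]

theorem od_join (c x : R2) : od (join c x) = x := by
  funext n
  have h1 : (2 * n + 1) % 2 = 1 := by omega
  have h2 : (2 * n + 1) / 2 = n := by omega
  simp [od, join, h1, h2]

theorem msk_msk {q q' : ℚ} (h : q ≤ q') (x : R2) : msk q (msk q' x) = msk q x := by
  funext n
  by_cases h1 : (E0.symm n).label < q
  · have h2 : (E0.symm n).label < q' := lt_of_lt_of_le h1 h
    simp [msk, h1, h2]
  · simp [msk, h1]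

/-- totality and value from decidability -/
theorem tot_of_le {e : Prog} {U d : R2} (h : ∀ n, Halts e U n (d n).toNat) :
    tot (hinf U) e ∧ rel (hinf U) e = d := by
  constructor
  · intro n
    exact ⟨d n, by simpa [hinf] using h n⟩
  · funext n
    have hn := h n
    cases hd : d n
    · rw [hd] at hn
      by_contra hc
      have h1 : rel (hinf U) e n = true := by
        cases hr : rel (hinf U) e n
        · exact absurd hr hc
        · rfl
      have h2 : Halts e U n (true).toNat := by simpa [rel, hinf] using h1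
      have := halts_fun hn h2
      simp at this
    · rw [hd] at hn
      simpa [rel, hinf] using hn

theorem le_of_tot {e : Prog} {U : R2} (h : tot (hinf U) e) : Le (rel (hinf U) e) U := by
  refine ⟨e, fun n => ?_⟩
  obtain ⟨b, hb⟩ := h n
  have hb' : Halts e U n b.toNat := by simpa [hinf] using hb
  cases b
  · cases hr : rel (hinf U) e n
    · exact hb'
    · have h2 : Halts e U n (true).toNat := by simpa [rel, hinf] using hr
      exact h2
  · have h1 : rel (hinf U) e n = true := by simpa [rel, hinf] using hb'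
    rw [h1]
    exact hb'

theorem wr_wc (w : ℕ × ℕ → Bool) : wr (wc w) = w := by
  funext p
  simp [wr, wc]

theorem rkw_top_lt {M : Type} (L : LocOp M) (en : Enum M) (c : R2)
    (h : Prog × ℕ × Bool → Bool) (hk : ¬ HasK L en c (lamN h)) :
    rkw (lamN h) ltop < kap L en c := by
  by_contra hc
  push Not at hc
  apply hk
  refine ⟨lam_LO h, ?_⟩
  rcases hc.eq_or_lt with he | hl
  · exact ⟨ltop, lam_top h, he.symm⟩
  · obtain ⟨b, hb1, hb2⟩ := rkw_surj (lam_LO h) (lam_top h) hl
    exact ⟨b, wfp_of_lt (lam_LO h) (lam_top h) hb1, hb2⟩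

theorem final_core (L : LocOp M0) (en : Enum M0) (en2 : Enum2 M0) (c : R2)
    (hG : GoodC L en en2 c)
    (hnl : ∀ q q' : ℚ, q < q' → ¬ Le (dq c (x0 L en en2 c) q') (dq c (x0 L en en2 c) q))
    (hcor : ∀ δ, δ < kap L en c → ∀ q, Correct q (rr (obj L en c) δ) (x0 L en en2 c))
    (hinj : ∀ δ δ', δ < kap L en c → δ' < kap L en c → ∀ i,
      rr (obj L en c) δ i = rr (obj L en c) δ' i → δ = δ')
    (A : ℚ → Bool) (hA1 : ∀ q q', q ≤ q' → A q' = true → A q = true)
    (hA2 : ∀ q, A q = true → ∃ q', q < q' ∧ A q' = true) (hA3 : ∃ q, A q = true)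
    (hA4 : ∃ q, A q = false) (hA5 : HasK L en c (wr (dec A))) (U : R2)
    (hU : ∀ q, A q = true → Le (dq c (x0 L en en2 c) q) U) :
    ∃ V, (∀ q, A q = true → Le (dq c (x0 L en en2 c) q) V) ∧ Le V U ∧ ¬ Le U V := by
  classical
  set x := x0 L en en2 c with hx
  obtain ⟨qa, hqa⟩ := hA3
  have hAbU : Above c U := ⟨dq c x qa, ev_join _ _, hU qa hqa⟩
  have hltA : ∀ q q', A q = true → A q' = false → q < q' := by
    intro q q' h1 h2
    by_contra hc
    push Not at hc
    rw [hA1 q' q hc h1] at h2
    exact absurd h2 (by simp)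
  by_cases hI : Le (X0r L en en2 c) U
  · -- Case I
    obtain ⟨q', hq'⟩ := hA4
    have hAbV : Above c (dq c x q') := ⟨dq c x q', ev_join _ _, le_refl' _⟩
    refine ⟨dq c x q', fun q hq => ?_, ?_, ?_⟩
    · have h := hG.ms q (dq c x q') (dq c x q') hAbV (le_refl' _)
      rw [dq, od_join, msk_msk (hltA q q' hq hq').le] at h
      exact h
    · have h := hG.ms q' U (X0r L en en2 c) hAbU hI
      rw [X0r, od_join] at h
      exact h
    · intro hUV
      have h1 := hG.tr _ _ _ hAbV hUV hI
      have h2 := hG.ms (q' + 1) _ _ hAbV h1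
      rw [X0r, od_join] at h2
      exact hnl q' (q' + 1) (by linarith) h2
  · -- Case II
    set h := hinf U with hh
    have hK1 : ¬ HasK L en c (lamN h) := by
      intro hk
      exact hI (hG.t1 U hAbU ⟨_, rfl, Or.inl hk⟩)
    set δ := rkw (lamN h) ltop with hδ
    have hδκ : δ < kap L en c := rkw_top_lt L en c h hK1
    have hK2 : ¬ HasK L en c (wr (dec (chiK L en c h))) := by
      intro hk
      exact hI (hG.t1 U hAbU ⟨_, rfl, Or.inr ⟨hK1, hk⟩⟩)
    have hofr : ∀ q i, i.label < q → ofr (dq c x q) i = x i := by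
      intro q i hi
      have h1 : (2 * E0 i + 1) % 2 = 1 := by omega
      have h2 : (2 * E0 i + 1) / 2 = E0 i := by omega
      simp [ofr, dq, join, h1, h2, msk, idr, hi]
    have hcorq : ∀ q, Correct q (rr (obj L en c) δ) (ofr (dq c x q)) := by
      intro q i hi
      obtain ⟨J, hJ⟩ := hcor δ hδκ q i hi
      refine ⟨J, fun j hj hp => ?_⟩
      rw [hofr q i hi] at hp
      rw [hofr q _ (by simpa [Idx.label] using hi)]
      exact hJ j hj hp
    have hKA : ∀ q, A q = true → chiK L en c h q = true := by
      intro q hq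
      obtain ⟨e, he⟩ := hU q hq
      obtain ⟨ht, hr⟩ := tot_of_le he
      simp only [chiK, decide_eq_true_eq]
      refine ⟨e, ht, ?_⟩
      rw [hr]
      exact hcorq q
    have hne : chiK L en c h ≠ A := by
      intro he
      apply hK2
      rw [he]
      exact hA5
    obtain ⟨q', hq'1, hq'2⟩ : ∃ q', chiK L en c h q' = true ∧ A q' = false := by
      by_contra hcon
      push Not at hcon
      apply hne
      funext q
      cases hAq : A q
      · cases hk : chiK L en c h q
        · rfl
        · exact absurd hAq (hcon q hk)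
      · exact hKA q hAq
    simp only [chiK, decide_eq_true_eq] at hq'1
    obtain ⟨e', hte', hce'⟩ := hq'1
    set d := rel h e' with hd
    have hdU : Le d U := le_of_tot hte'
    -- uniqueness
    have huniq : ∀ q, A q = true → ∀ i : Idx, i.label < q → ofr d i = x i := by
      intro q hq i hi
      by_contra hne'
      obtain ⟨e1, he1⟩ := hU q hq
      obtain ⟨ht1, hr1⟩ := tot_of_le he1
      have hlt := hltA q q' hq hq'2
      have hneq : ofr (dq c x q) i ≠ ofr d i := by
        rw [hofr q i hi]
        exact fun h' => hne' h'.symm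
      obtain ⟨s, hs⟩ := thin (hcorq q) hce' hi (lt_trans hi hlt) hneq
      obtain ⟨h', v, hsub, hR, hv⟩ := hG.t2 U e1 e' i s hAbU
        ⟨wc (lamN h), ht1, hte', by rw [hr1]; exact hneq, hK1, by rw [hr1]; exact hs, rfl⟩
      obtain ⟨g1, g2, g3, g4, g5, g6⟩ := hR
      have hrel : ∀ e, tot h' e → rel h' e = rel h e := by
        intro e he
        funext n
        obtain ⟨b, hb⟩ := he n
        have hb' := hsub _ hb
        cases b
        · cases hr : rel h' e n
          · cases hr2 : rel h e n
            · rfl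
            · have a1 : Halts e U n (false).toNat := by simpa [hinf] using hb'
              have a2 : Halts e U n (true).toNat := by
                simpa [rel, hh, hinf] using hr2
              have := halts_fun a1 a2
              simp at this
          · have a0 := hsub _ hr
            have a1 : Halts e U n (false).toNat := by simpa [hinf] using hb'
            have a2 : Halts e U n (true).toNat := by simpa [hinf] using a0
            have := halts_fun a1 a2
            simp at this
        · have r1 : rel h' e n = true := hb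
          have r2 : rel h e n = true := hb'
          rw [r1, r2]
      rw [hrel e1 g1, hrel e' g2] at g5
      rw [hr1] at g5
      have hδ'κ : rkw (lamN h') ltop < kap L en c := rkw_top_lt L en c h' g4
      have hreq : rr (obj L en c) (rkw (lamN h') ltop) i = rr (obj L en c) δ i := by
        have hall : ∀ k, pre (rr (obj L en c) (rkw (lamN h') ltop) i) (s.length + k) =
            pre (rr (obj L en c) δ i) (s.length + k) := fun k => (g5 k).trans (hs k).symm
        funext j
        have hj := hall (j + 1)
        have hj2 := congrArg (fun l => l[j]?) hj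
        simp only [pre, List.getElem?_map] at hj2
        rw [List.getElem?_range (by omega)] at hj2
        simpa using hj2
      have hδδ : rkw (lamN h') ltop = δ := hinj _ _ hδ'κ hδκ i hreq
      obtain ⟨e3, he3⟩ := hv
      obtain ⟨ht3, hr3⟩ := tot_of_le he3
      have hw3 : wr (rel (hinf U) e3) = lamN h' := by rw [hr3, g6, wr_wc]
      have hlr := lam_rank (hinf U) e3 ht3 (by rw [hw3]; exact lam_LO h') ltop
        (by rw [hw3]; exact lam_top h')
      rw [hw3, hδδ] at hlr
      exact absurd hlr (lt_irrefl _)
    -- bounds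
    have hmsk : ∀ q, A q = true → msk q (od d) = msk q (idr x) := by
      intro q hq
      funext n
      by_cases hn : (E0.symm n).label < q
      · have h1 := huniq q hq (E0.symm n) hn
        simp only [ofr, Equiv.apply_symm_apply] at h1
        simp [msk, hn, od, h1, idr]
      · simp [msk, hn]
    have hbound : ∀ q'', A q'' = false → ∀ q, A q = true →
        Le (dq c x q) (join c (msk q'' (od d))) := by
      intro q'' hq'' q hq
      have hAb : Above c (join c (msk q'' (od d))) :=
        ⟨join c (msk q'' (od d)), ev_join _ _, le_refl' _⟩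
      have h1 := hG.ms q _ _ hAb (le_refl' (join c (msk q'' (od d))))
      rw [od_join, msk_msk (hltA q q'' hq hq'').le, hmsk q hq] at h1
      exact h1
    by_contra hcon
    push Not at hcon
    have hall : ∀ q'', A q'' = false → Le U (join c (msk q'' (od d))) := by
      intro q'' hq''
      exact hcon (join c (msk q'' (od d))) (hbound q'' hq'') (hG.ms q'' U d hAbU hdU)
    apply hI
    apply hG.t3 U d q' hAbU hdU
    refine ⟨_, rfl, ?_⟩
    have hchi : chiM U q' (fun p => hinf (join c (msk p.1 (od d))) p.2) = A := by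
      funext q
      cases hAq : A q
      · simp only [chiM, decide_eq_false_iff_not, not_and, not_not]
        intro _
        obtain ⟨e, he⟩ := hall q hAq
        obtain ⟨h1, h2⟩ := tot_of_le he
        exact ⟨e, h1, h2⟩
      · simp only [chiM, decide_eq_true_eq]
        refine ⟨(hltA q q' hAq hq'2).le, ?_⟩
        rintro ⟨e, h1, h2⟩
        have hUq : Le U (join c (msk q (od d))) := by
          have h3 := le_of_tot (U := join c (msk q (od d))) (e := e) h1
          have h2' : rel (hinf (join c (msk q (od d)))) e = U := h2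
          rw [h2'] at h3
          exact h3
        rw [hmsk q hAq] at hUq
        obtain ⟨q2, hq2, hq2A⟩ := hA2 q hAq
        have hAb : Above c (dq c x q) := ⟨dq c x q, ev_join _ _, le_refl' _⟩
        exact hnl q q2 hq2 (hG.tr _ _ _ hAb hUq (hU q2 hq2A))
    rw [hchi]
    exact hA5

instance m0Nonempty : Nonempty M0 := ⟨(0, ⟨0, fun _ _ => (0, fun _ => false, true)⟩, 0, .fa)⟩

theorem final_real : ∃ D : ℕ → R2, ∀ U, (∀ k, Le (D k) U) →
    ∃ V, (∀ k, Le (D k) V) ∧ Le V U ∧ ¬ Le U V := by
  obtain ⟨L, h1, h2, h3⟩ := exists_L0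
  obtain ⟨⟨en⟩, ⟨en2⟩⟩ := enum_exists M0
  obtain ⟨c, hG⟩ := goodC_exists L en en2
  obtain ⟨d, hd1, a, ha1, ha2⟩ := code_exists (kap L en c) (kap_card L en c)
  obtain ⟨A, hA1, hA2, hA3, hA4, hA5⟩ := cut_exists d
  have hne : Nonempty {q : ℚ // A q = true} := by
    obtain ⟨q, hq⟩ := hA3
    exact ⟨⟨q, hq⟩⟩
  obtain ⟨f, hf⟩ := exists_surjective_nat {q : ℚ // A q = true}
  refine ⟨fun k => dq c (x0 L en en2 c) (f k).1, fun U hU => ?_⟩
  obtain ⟨V, hV1, hV2, hV3⟩ := final_core L en en2 c hG
    (fun q q' hq => not_le L h1 h2 h3 en en2 c hq)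
    (fun δ hδ q => x0_correct L en en2 c hδ q)
    (fun δ δ' hδ hδ' i h => r_inj L en c hδ hδ' i h)
    A hA1 hA2 hA3 hA4 (by rw [hA5]; exact ⟨hd1, a, ha1, ha2⟩) U
    (fun q hq => by
      obtain ⟨k, hk⟩ := hf ⟨q, hq⟩
      have h : Le (dq c (x0 L en en2 c) (f k).1) U := hU k
      rw [hk] at h
      exact h)
  exact ⟨V, fun k => hV1 _ (f k).2, hV2, hV3⟩

end Pool.Agent.Helper78.ITTM
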