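import Pool.Agent.Helper78.ITTM.BDefs2

/-! Part B, module B9, definition: descending sequences of conditions doing all tasks. -/

namespace Pool.Agent.Helper78.ITTM

section ord
variable {M : Type} (L : LocOp M) (en : Enum M) (c : R2)

/-- a descending sequence of conditions defining a real and doing all tasks -/
structure GenSeq (a : Ordinal.{0}) (x : Idx → Bool) (p : ℕ → Cond Ordinal.{0}) : Prop where
  bot : p 0 = Cond.bot _
  pt : ∀ k, Pt ltO (rr (obj L en c)) a (p k)
  ext : ∀ k, Ext (rr (obj L en c)) (p (k + 1)) (p k)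
  x : ∀ i, x i = true ↔ ∃ k, i ∈ (p k).tr
  tgt : ∀ d : XIx M, ∃ k, Tgt L ltO (obj L en c) a d (p k)

end ord

end Pool.Agent.Helper78.ITTM
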