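import Pool.Agent.Helper78.ITTM.MeasBase

/-! Measurability of the forcing table `B` in the table of the recursion along a code, together
with the general lemmas on families of orders and data depending measurably on a parameter. -/

namespace Pool.Agent.Helper78.ITTM


section general

variable {U : Type} [MeasurableSpace U]

/-- A function with values in a countable type is measurable. -/
def MV {α : Type} (g : U → α) : Prop := ∀ s, Measurable fun u => g u = s

theorem MV.bind {α : Type} [Countable α] {g : U → α} (hg : MV g) {Q : α → U → Prop}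
    (hQ : ∀ s, Measurable (Q s)) : Measurable fun u => Q (g u) u := by
  have h : (fun u => Q (g u) u) = fun u => ∃ s, g u = s ∧ Q s u := by
    funext u
    exact propext ⟨fun h => ⟨_, rfl, h⟩, fun ⟨s, h1, h2⟩ => h1 ▸ h2⟩
  rw [h]
  exact Measurable.exists fun s => (hg s).and (hQ s)

theorem MV.map {α β : Type} [Countable α] {g : U → α} (hg : MV g) (h : α → β) :
    MV (fun u => h (g u)) := fun t => hg.bind (Q := fun s _ => h s = t) fun _ => measurable_const

theorem MV.pred {α : Type} [Countable α] {g : U → α} (hg : MV g) (h : α → Prop) :
    Measurable (fun u => h (g u)) := hg.bind (Q := fun s _ => h s) fun _ => measurable_const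

theorem MV.const {α : Type} (s : α) : MV (fun _ : U => s) := fun _ => measurable_const

theorem MV.pair {α β : Type} {g : U → α} {h : U → β} (hg : MV g) (hh : MV h) :
    MV (fun u => (g u, h u)) := by
  rintro ⟨s, t⟩
  have e : (fun u => (g u, h u) = (s, t)) = fun u => g u = s ∧ h u = t := by
    funext u
    exact propext Prod.mk_inj
  rw [e]
  exact (hg s).and (hh t)

theorem MV.eq {α : Type} [Countable α] {g h : U → α} (hg : MV g) (hh : MV h) :
    Measurable fun u => g u = h u := (hg.pair hh).pred (fun x => x.1 = x.2)

/-- A Boolean function. -/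
theorem MV.of_true {g : U → Bool} (hg : Measurable fun u => g u = true) : MV g := by
  intro s
  cases s
  · have e : (fun u => g u = false) = fun u => ¬ g u = true := by
      funext u
      cases g u <;> simp
    rw [e]
    exact hg.not
  · exact hg

instance idxCountable : Countable Idx := inferInstance

instance condCountable : Countable (Cond ℕ) := by
  have : Function.Injective (fun p : Cond ℕ => (p.dom, p.tr, p.F)) := by
    rintro ⟨a, b, c⟩ ⟨a', b', c'⟩ h
    simp only [Prod.mk.injEq] at h
    obtain ⟨h1, h2, h3⟩ := h
    subst h1 h2 h3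
    rfl
  exact this.countable

theorem MV.cond {g : U → Cond ℕ} (h1 : ∀ i, Measurable fun u => i ∈ (g u).dom)
    (h2 : ∀ i, Measurable fun u => i ∈ (g u).tr) (h3 : ∀ z, Measurable fun u => z ∈ (g u).F) :
    MV g := by
  intro s
  have e : (fun u => g u = s) = fun u => (∀ i, i ∈ (g u).dom ↔ i ∈ s.dom) ∧
      (∀ i, i ∈ (g u).tr ↔ i ∈ s.tr) ∧ (∀ z, z ∈ (g u).F ↔ z ∈ s.F) := by
    funext u
    refine propext ⟨fun h => by rw [h]; simp, fun ⟨a, b, c⟩ => ?_⟩
    exact Cond.ext (Finset.ext a) (Finset.ext b) (Finset.ext c)
  rw [e]
  exact (Measurable.forall fun i => (h1 i).iff measurable_const).and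
    ((Measurable.forall fun i => (h2 i).iff measurable_const).and
      (Measurable.forall fun z => (h3 z).iff measurable_const))

/-- Orders and data on `ℕ` depending measurably on a parameter. -/
structure MD {M : Type} (lt : U → ℕ → ℕ → Prop) (f : U → ℕ → Dat M ℕ) : Prop where
  lt : ∀ a b, Measurable fun u => lt u a b
  B : ∀ a b m p, Measurable fun u => (f u a).B b m p
  C : ∀ a k g, Measurable fun u => (f u a).C k g
  r : ∀ a i j, Measurable fun u => (f u a).r i j = true

variable {M : Type} {lt : U → ℕ → ℕ → Prop} {f : U → ℕ → Dat M ℕ}

theorem MD.rv (h : MD lt f) (a : ℕ) (i : Idx) (j : ℕ) : MV (fun u => rr (f u) a i j) :=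
  MV.of_true (h.r a i j)

theorem mv_pre {g : U → ℕ → Bool} (h : ∀ j, MV (fun u => g u j)) (j : ℕ) :
    MV (fun u => pre (g u) j) := by
  induction j with
  | zero => exact MV.const _
  | succ j ih =>
    have e : (fun u => pre (g u) (j + 1)) = fun u => pre (g u) j ++ [g u j] := by
      funext u
      simp [pre, List.range_succ]
    rw [e]
    exact (ih.pair (h j)).map (fun x => x.1 ++ [x.2])

theorem MD.mpre (h : MD lt f) (a : ℕ) (i : Idx) (j : ℕ) : MV (fun u => pre (rr (f u) a i) j) :=
  mv_pre (h.rv a i) j

theorem MD.mvalid (h : MD lt f) (p : Cond ℕ) : Measurable fun u => Valid (rr (f u)) p := by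
  unfold Valid
  refine measurable_const.and (measurable_const.and ?_)
  refine Measurable.forall fun i => Measurable.forall fun g => Measurable.forall fun g' =>
    Measurable.forall fun j => measurable_const.imp (measurable_const.imp (measurable_const.imp ?_))
  refine ((h.mpre g i j).eq (h.mpre g' i j)).imp (Measurable.imp ?_ ?_)
  · exact (h.mpre g i j).pred (fun s => Idx.node i s ∉ p.dom)
  · exact (h.rv g i j).eq (h.rv g' i j)

theorem MD.mext (h : MD lt f) (q p : Cond ℕ) : Measurable fun u => Ext (rr (f u)) q p := by
  unfold Ext
  refine measurable_const.and (measurable_const.and (measurable_const.and ?_))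
  refine Measurable.forall fun i => Measurable.forall fun g => Measurable.forall fun j =>
    measurable_const.imp (measurable_const.imp ?_)
  refine Measurable.imp ?_ (Measurable.imp ?_ (Measurable.iff ?_ ?_))
  · exact (h.mpre g i j).pred (fun s => Idx.node i s ∈ q.dom)
  · exact (h.mpre g i j).pred (fun s => Idx.node i s ∉ p.dom)
  · exact (h.mpre g i j).pred (fun s => Idx.node i s ∈ q.tr)
  · exact h.r g i j

theorem MD.mpt (h : MD lt f) (a : ℕ) (p : Cond ℕ) :
    Measurable fun u => Pt (lt u) (rr (f u)) a p := by
  unfold Pt
  exact (h.mvalid p).and (Measurable.forall fun i => Measurable.forall fun g =>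
    measurable_const.imp (h.lt g a))

theorem MD.mres (h : MD lt f) (a : ℕ) (p : Cond ℕ) : MV (fun u => res (lt u) a p) := by
  refine MV.cond (fun i => (measurable_const : Measurable fun _ : U => i ∈ p.dom))
    (fun i => (measurable_const : Measurable fun _ : U => i ∈ p.tr)) fun z => ?_
  have e : (fun u => z ∈ (res (lt u) a p).F) = fun u => z ∈ p.F ∧ lt u z.2 a := by
    funext u
    simp only [res, Finset.mem_filter]
  rw [e]
  exact measurable_const.and (h.lt z.2 a)

theorem MD.mbres (h : MD lt f) (a : ℕ) (b : Bool) (m : M) (p : Cond ℕ) :
    Measurable fun u => (f u a).B b m (res (lt u) a p) :=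
  (h.mres a p).bind (Q := fun s u => (f u a).B b m s) fun s => h.B a b m s

theorem MD.misMin (h : MD lt f) (a : ℕ) : Measurable fun u => isMin (lt u) a := by
  unfold isMin
  exact Measurable.forall fun b => (h.lt b a).not

theorem MD.misSucc (h : MD lt f) (b a : ℕ) : Measurable fun u => isSucc (lt u) b a := by
  unfold isSucc
  exact (h.lt b a).and (Measurable.forall fun g => (h.lt g a).imp (measurable_const.or (h.lt g b)))

theorem MD.misLim (h : MD lt f) (a : ℕ) : Measurable fun u => isLim (lt u) a := by
  unfold isLim
  exact (Measurable.exists fun b => h.lt b a).and (Measurable.forall fun b => (h.lt b a).imp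
    (Measurable.exists fun b' => (h.lt b b').and (h.lt b' a)))

theorem MD.misLeast (h : MD lt f) {P : U → ℕ → Prop} (hP : ∀ a, Measurable fun u => P u a) (a : ℕ) :
    Measurable fun u => isLeast (lt u) (P u) a := by
  unfold isLeast
  exact (hP a).and (Measurable.forall fun b => (h.lt b a).imp (hP b).not)

theorem MD.mz0 (h : MD lt f) (a : ℕ) (m : M) (α : ℕ) (p : Cond ℕ) :
    Measurable fun u => Z0 (lt u) (f u) a m α p := by
  unfold Z0
  exact Measurable.forall fun β => (h.lt β a).imp ((h.lt β α).not.imp (Measurable.forall fun q =>
    (h.mpt a q).imp ((h.mext q p).imp (h.mbres β true m q).not)))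

theorem MD.mbtab (h : MD lt f) [Countable M] (L : LocOp M) {c : U → R2} (hc : Measurable c) (a : ℕ)
    (b : Bool) (m : M) (p : Cond ℕ) :
    Measurable fun u => Btab L (c u) (lt u) (f u) a b m p := by
  classical
  unfold Btab
  refine (h.mpt a p).and (Measurable.or ?_ (Measurable.or ?_ (Measurable.or ?_ ?_)))
  · exact (h.misMin a).and measurable_const
  · refine Measurable.exists fun a' => (h.misSucc a' a).and (Measurable.exists fun t => ?_)
    refine measurable_const.and (Measurable.and ?_ (measurable_const.and ?_))
    · exact Measurable.forall fun l => measurable_const.imp (h.mbres a' _ l p)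
    · exact (measurable_of_countable fun x : Bool => x = b).comp ((L.meas m _ _).comp hc)
  · exact (h.misLim a).and (measurable_const.and (Measurable.exists fun α => (h.lt α a).and
      (h.mz0 a m α p)))
  · refine (h.misLim a).and (measurable_const.and (Measurable.forall fun q => (h.mpt a q).imp
      ((h.mext q p).imp (Measurable.not ?_))))
    exact Measurable.exists fun α => (h.lt α a).and (h.mz0 a m α q)

end general

section meas
variable {M : Type}

theorem measurable_apply_true {ι : Type} (i : ι) : Measurable fun z : ι → Bool => z i = true :=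
  (measurable_of_countable fun b : Bool => b = true).comp (measurable_pi_apply i)

/-- The orders and data given by the codes and tables. -/
theorem md_CWZ : MD (M := M) (fun u : CWZ M => ltw u.2.1) (fun u : CWZ M => dat u.2.2) where
  lt a b := by
    unfold ltw
    exact ((measurable_apply_true (a, b)).comp (measurable_fst.comp measurable_snd)).and
      measurable_const
  B a b m p := (measurable_apply_true (JR.B a b m p)).comp (measurable_snd.comp measurable_snd)
  C a k g := (measurable_apply_true (JR.C a k g)).comp (measurable_snd.comp measurable_snd)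
  r a i j := (measurable_apply_true (JR.R a i j)).comp (measurable_snd.comp measurable_snd)

variable [Countable M] (L : LocOp M) (en : Enum M)

theorem meas_B (a : ℕ) (b : Bool) (m : M) (p : Cond ℕ) :
    MeasurableSet {u : CWZ M | (Full L en u.1 (ltw u.2.1) (dat u.2.2) a).B b m p} :=
  measurableSet_setOfPred.mpr (md_CWZ.mbtab L measurable_fst a b m p)

end meas

end Pool.Agent.Helper78.ITTM
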