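import Pool.Agent.Helper78.ITTM.CDefs2

/-! Part C, base of the measurability modules C7: basic relations of the tables as measurable
functions of the code, the order and the table. -/

namespace Pool.Agent.Helper78.ITTM

abbrev CWZ (M : Type) : Type := R2 × (ℕ × ℕ → Bool) × (JR M → Bool)

namespace Mb

instance condCountable : Countable (Cond ℕ) := by
  have h : Function.Injective (fun p : Cond ℕ => (p.dom, p.tr, p.F)) := by
    rintro ⟨a, b, d⟩ ⟨a', b', d'⟩ h
    cases h
    rfl
  exact h.countable

/-! ### General tools -/

theorem mb_iff {α : Type*} [MeasurableSpace α] {f : α → Bool} :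
    Measurable f ↔ Measurable (fun x => f x = true) := by
  constructor
  · intro h
    exact (Measurable.of_discrete (f := fun b : Bool => b = true)).comp h
  · intro h
    have h2 : Measurable (fun P : Prop => @decide P (Classical.propDecidable _)) :=
      measurable_from_top
    have h3 := h2.comp h
    have h4 : f = (fun P : Prop => @decide P (Classical.propDecidable _)) ∘
        (fun x => f x = true) := by
      funext x
      exact Bool.eq_iff_iff.mpr (@decide_eq_true_iff _ (Classical.propDecidable _)).symm
    rw [h4]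
    exact h3

theorem m_dec {α : Type*} [MeasurableSpace α] {P : α → Prop} (h : Measurable P)
    (inst : ∀ x, Decidable (P x)) : Measurable (fun x => @decide (P x) (inst x)) := by
  rw [mb_iff]
  have : (fun x => @decide (P x) (inst x) = true) = P := by
    funext x
    exact propext (@decide_eq_true_iff (P x) (inst x))
  rw [this]
  exact h

theorem m_if {α β : Type*} [MeasurableSpace α] [MeasurableSpace β] {c : α → Bool} {f g : α → β}
    (hc : Measurable c) (hf : Measurable f) (hg : Measurable g) :
    Measurable (fun x => if c x = true then f x else g x) := by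
  have hs : MeasurableSet {x | c x = true} := measurableSet_setOfPred.mpr (mb_iff.mp hc)
  exact Measurable.ite hs hf hg

theorem m_bin {α : Type*} [MeasurableSpace α] {f g : α → Bool} (F : Bool → Bool → Bool)
    (hf : Measurable f) (hg : Measurable g) : Measurable (fun x => F (f x) (g x)) :=
  (Measurable.of_discrete (f := fun p : Bool × Bool => F p.1 p.2)).comp (hf.prodMk hg)

theorem m_un {α β : Type*} [MeasurableSpace α] [MeasurableSpace β] {f : α → Bool}
    (F : Bool → β) (hf : Measurable f) : Measurable (fun x => F (f x)) :=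
  (Measurable.of_discrete (f := F)).comp hf

theorem m_eqt {α : Type*} [MeasurableSpace α] {f : α → Bool} (b : Bool) (hf : Measurable f) :
    Measurable (fun x => f x = b) :=
  m_un (fun c => c = b) hf

theorem m_beq {α : Type*} [MeasurableSpace α] {f g : α → Bool}
    (hf : Measurable f) (hg : Measurable g) : Measurable (fun x => f x = g x) :=
  (Measurable.of_discrete (f := fun p : Bool × Bool => p.1 = p.2)).comp (hf.prodMk hg)

theorem m_iff {α : Type*} [MeasurableSpace α] {P Q : α → Prop} (hP : Measurable P)
    (hQ : Measurable Q) : Measurable (fun x => P x ↔ Q x) := by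
  have : (fun x => P x ↔ Q x) = fun x => (P x → Q x) ∧ (Q x → P x) := by
    funext x
    exact propext iff_iff_implies_and_implies
  rw [this]
  exact (hP.imp hQ).and (hQ.imp hP)

/-- lists of bits -/
theorem m_list {α : Type*} [MeasurableSpace α] (f : ℕ → α → Bool) (hf : ∀ k, Measurable (f k))
    (l : List ℕ) : @Measurable α (List Bool) _ ⊤ (fun x => l.map (fun k => f k x)) := by
  induction l with
  | nil =>
    simp only [List.map_nil]
    exact @measurable_const _ _ ⊤ _ _
  | cons k l ih =>
    intro s _
    have h1 : (fun x => (k :: l).map (fun k => f k x)) ⁻¹' s =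
        ⋃ b : Bool, (f k ⁻¹' {b}) ∩ ((fun x => l.map (fun k => f k x)) ⁻¹' {t | b :: t ∈ s}) := by
      ext x
      simp
    rw [h1]
    refine MeasurableSet.iUnion (fun b => MeasurableSet.inter ?_ ?_)
    · exact hf k (MeasurableSet.singleton b)
    · exact ih (by trivial)

section
variable {M : Type}

theorem m_c (n : ℕ) : Measurable (fun u : CWZ M => u.1 n) :=
  (measurable_pi_apply n).comp measurable_fst

theorem m_w (p : ℕ × ℕ) : Measurable (fun u : CWZ M => u.2.1 p) :=
  (measurable_pi_apply p).comp (measurable_fst.comp measurable_snd)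

theorem m_z (j : JR M) : Measurable (fun u : CWZ M => u.2.2 j) :=
  (measurable_pi_apply j).comp (measurable_snd.comp measurable_snd)

theorem m_lt (b a : ℕ) : Measurable (fun u : CWZ M => ltw u.2.1 b a) :=
  (m_eqt true (m_w _)).and measurable_const

theorem m_B (a : ℕ) (b : Bool) (m : M) (p : Cond ℕ) :
    Measurable (fun u : CWZ M => (dat u.2.2 a).B b m p) := m_eqt true (m_z _)

theorem m_C (a k g : ℕ) : Measurable (fun u : CWZ M => (dat u.2.2 a).C k g) :=
  m_eqt true (m_z _)

theorem m_r (a : ℕ) (i : Idx) (j : ℕ) : Measurable (fun u : CWZ M => rr (dat u.2.2) a i j) :=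
  m_z _

theorem m_preL (a : ℕ) (i : Idx) (j : ℕ) :
    @Measurable (CWZ M) (List Bool) _ ⊤ (fun u => pre (rr (dat u.2.2) a i) j) :=
  m_list (fun k (u : CWZ M) => rr (dat u.2.2) a i k) (fun k => m_r a i k) (List.range j)

theorem m_pre {β : Type*} [MeasurableSpace β] (Q : List Bool → β) (a : ℕ) (i : Idx) (j : ℕ) :
    Measurable (fun u : CWZ M => Q (pre (rr (dat u.2.2) a i) j)) :=
  fun s _ => (m_preL a i j) (t := Q ⁻¹' s) (by trivial)

theorem m_pre2 (Q : List Bool → List Bool → Prop) (a a' : ℕ) (i i' : Idx) (j j' : ℕ) :
    Measurable (fun u : CWZ M => Q (pre (rr (dat u.2.2) a i) j) (pre (rr (dat u.2.2) a' i') j')) := by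
  have : (fun u : CWZ M => Q (pre (rr (dat u.2.2) a i) j) (pre (rr (dat u.2.2) a' i') j')) =
      fun u => ∃ s : List Bool, pre (rr (dat u.2.2) a i) j = s ∧
        Q s (pre (rr (dat u.2.2) a' i') j') := by
    funext u
    exact propext ⟨fun h => ⟨_, rfl, h⟩, fun ⟨s, h1, h2⟩ => by rw [h1]; exact h2⟩
  rw [this]
  exact Measurable.exists (fun s => (m_pre (fun t => t = s) a i j).and
    (m_pre (fun t => Q s t) a' i' j'))

theorem m_valid (p : Cond ℕ) : Measurable (fun u : CWZ M => Valid (rr (dat u.2.2)) p) := by
  unfold Valid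
  refine measurable_const.and (measurable_const.and (Measurable.forall fun i =>
    Measurable.forall fun g => Measurable.forall fun g' => Measurable.forall fun j =>
      measurable_const.imp (measurable_const.imp (measurable_const.imp
        (Measurable.imp ?_ (Measurable.imp ?_ ?_))))))
  · exact m_pre2 (fun s t => s = t) g g' i i j j
  · exact m_pre (fun s => Idx.node i s ∉ p.dom) g i j
  · exact m_beq (m_r g i j) (m_r g' i j)

theorem m_ext (q p : Cond ℕ) : Measurable (fun u : CWZ M => Ext (rr (dat u.2.2)) q p) := by
  unfold Ext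
  refine measurable_const.and (measurable_const.and (measurable_const.and (Measurable.forall fun i =>
    Measurable.forall fun g => Measurable.forall fun j =>
      measurable_const.imp (measurable_const.imp
        (Measurable.imp ?_ (Measurable.imp ?_ (m_iff ?_ ?_)))))))
  · exact m_pre (fun s => Idx.node i s ∈ q.dom) g i j
  · exact m_pre (fun s => Idx.node i s ∉ p.dom) g i j
  · exact m_pre (fun s => Idx.node i s ∈ q.tr) g i j
  · exact m_eqt true (m_r g i j)

theorem m_pt (a : ℕ) (p : Cond ℕ) :
    Measurable (fun u : CWZ M => Pt (ltw u.2.1) (rr (dat u.2.2)) a p) := by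
  unfold Pt
  exact (m_valid p).and (Measurable.forall fun i => Measurable.forall fun g =>
    measurable_const.imp (m_lt g a))

theorem m_resE (β : ℕ) (q q' : Cond ℕ) :
    Measurable (fun u : CWZ M => res (ltw u.2.1) β q = q') := by
  classical
  have : (fun u : CWZ M => res (ltw u.2.1) β q = q') =
      fun u => q.dom = q'.dom ∧ q.tr = q'.tr ∧
        ∀ z, (z ∈ q.F ∧ ltw u.2.1 z.2 β) ↔ z ∈ q'.F := by
    funext u
    rw [Cond.ext_iff, Finset.ext_iff (s₁ := (res (ltw u.2.1) β q).F)]
    simp only [res, Finset.mem_filter]
  rw [this]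
  exact measurable_const.and (measurable_const.and (Measurable.forall fun z =>
    m_iff (measurable_const.and (m_lt _ _)) measurable_const))

theorem m_res (P : CWZ M → Cond ℕ → Prop) (hP : ∀ q', Measurable (fun u => P u q'))
    (β : ℕ) (q : Cond ℕ) : Measurable (fun u : CWZ M => P u (res (ltw u.2.1) β q)) := by
  have : (fun u : CWZ M => P u (res (ltw u.2.1) β q)) =
      fun u => ∃ q', res (ltw u.2.1) β q = q' ∧ P u q' := by
    funext u
    exact propext ⟨fun h => ⟨_, rfl, h⟩, fun ⟨s, h1, h2⟩ => by rw [h1]; exact h2⟩
  rw [this]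
  exact Measurable.exists (fun q' => (m_resE β q q').and (hP q'))

theorem m_Bres (a : ℕ) (b : Bool) (m : M) (β : ℕ) (q : Cond ℕ) :
    Measurable (fun u : CWZ M => (dat u.2.2 a).B b m (res (ltw u.2.1) β q)) :=
  m_res (fun u q' => (dat u.2.2 a).B b m q') (fun q' => m_B a b m q') β q

theorem m_Z0 (a : ℕ) (m : M) (α : ℕ) (p : Cond ℕ) :
    Measurable (fun u : CWZ M => Z0 (ltw u.2.1) (dat u.2.2) a m α p) := by
  unfold Z0
  exact Measurable.forall fun β => (m_lt β a).imp ((m_lt β α).not.imp
    (Measurable.forall fun q => (m_pt a q).imp ((m_ext q p).imp (m_Bres β true m β q).not)))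

theorem m_min (a : ℕ) : Measurable (fun u : CWZ M => isMin (ltw u.2.1) a) := by
  unfold isMin
  exact Measurable.forall fun b => (m_lt b a).not

theorem m_succ (b a : ℕ) : Measurable (fun u : CWZ M => isSucc (ltw u.2.1) b a) := by
  unfold isSucc
  exact (m_lt b a).and (Measurable.forall fun g => (m_lt g a).imp
    (measurable_const.or (m_lt g b)))

theorem m_lim (a : ℕ) : Measurable (fun u : CWZ M => isLim (ltw u.2.1) a) := by
  unfold isLim
  exact (Measurable.exists fun b => m_lt b a).and (Measurable.forall fun b => (m_lt b a).imp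
    (Measurable.exists fun b' => (m_lt b b').and (m_lt b' a)))

theorem m_least (P : CWZ M → ℕ → Prop) (hP : ∀ h, Measurable (fun u => P u h)) (a : ℕ) :
    Measurable (fun u : CWZ M => isLeast (ltw u.2.1) (P u) a) := by
  unfold isLeast
  exact (hP a).and (Measurable.forall fun b => (m_lt b a).imp (hP b).not)

theorem m_gP (m : M) (α : ℕ) (p : Cond ℕ) (h : ℕ) :
    Measurable (fun u : CWZ M => gP (ltw u.2.1) (dat u.2.2) m α p h) := by
  unfold gP
  exact Measurable.exists fun β => (m_lt β h).and ((m_lt β α).not.and
    (Measurable.exists fun q => (m_pt h q).and ((m_ext q p).and (m_Bres β true m β q))))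

theorem m_zP (a : ℕ) (m : M) (p : Cond ℕ) (h : ℕ) :
    Measurable (fun u : CWZ M => zP (ltw u.2.1) (dat u.2.2) a m p h) := by
  unfold zP
  exact Measurable.exists fun q => (m_pt h q).and ((m_ext q p).and (m_Z0 a m h q))

theorem m_map (α : ℕ) (p' : Cond ℕ) (p : Cond ℕ) :
    Measurable (fun u : CWZ M => MapC (dat u.2.2) α p' p) := by
  unfold MapC
  exact measurable_const.and (measurable_const.and ((Measurable.forall fun i =>
    Measurable.forall fun k => measurable_const.imp (Measurable.exists fun g => m_C α k g)).and
    (Measurable.forall fun i => Measurable.forall fun g => m_iff measurable_const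
      (Measurable.exists fun k => measurable_const.and (m_C α k g)))))

end

end Mb

end Pool.Agent.Helper78.ITTM
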