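import Pool.Agent.Helper78.ITTM.Inv

/-! One micro-instruction of the compute pass of stage 2. -/

namespace Pool.Agent.Helper78.ITTM

open Ordinal

namespace MicroAux

theorem run_zero' {κ Q : Type} (M : Mach κ Q) (c : Cfg κ Q) : M.run c 0 = c := by
  simp [Mach.run]

theorem run_succ' {κ Q : Type} (M : Mach κ Q) (c : Cfg κ Q) (a : Ordinal.{0}) :
    M.run c (a + 1) = M.step (M.run c a) := by
  simp only [Mach.run]
  rw [Ordinal.limitRecOn_add_one]

theorem run_nat' {κ Q : Type} (M : Mach κ Q) (c : Cfg κ Q) (n : ℕ) :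
    M.run c (n : Ordinal.{0}) = M.step^[n] c := by
  induction n with
  | zero => simp [run_zero']
  | succ n ih => rw [Nat.cast_succ, run_succ', ih, Function.iterate_succ_apply']

/-- `A` is reached with `P` before. -/
def Ev {κ Q : Type} (M : Mach κ Q) (P A : Cfg κ Q → Prop) (c : Cfg κ Q) : Prop :=
  ∃ N : ℕ, A (M.step^[N] c) ∧ ∀ m, m < N → P (M.step^[m] c)

theorem Ev.refl {κ Q : Type} {M : Mach κ Q} {P A : Cfg κ Q → Prop} {c : Cfg κ Q} (h : A c) :
    Ev M P A c := ⟨0, h, fun m hm => absurd hm (Nat.not_lt_zero m)⟩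

theorem Ev.step {κ Q : Type} {M : Mach κ Q} {P A : Cfg κ Q → Prop} {c : Cfg κ Q} (h : P c)
    (h2 : Ev M P A (M.step c)) : Ev M P A c := by
  obtain ⟨N, hN, hP⟩ := h2
  refine ⟨N + 1, by simpa [Function.iterate_succ_apply] using hN, ?_⟩
  intro m hm
  cases m with
  | zero => simpa using h
  | succ m =>
    rw [Function.iterate_succ_apply]
    exact hP m (by omega)

theorem Ev.trans {κ Q : Type} {M : Mach κ Q} {P A B : Cfg κ Q → Prop} {c : Cfg κ Q}
    (h : Ev M P A c) (h2 : ∀ d, A d → Ev M P B d) : Ev M P B c := by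
  obtain ⟨N, hN, hP⟩ := h
  obtain ⟨N2, hN2, hP2⟩ := h2 _ hN
  refine ⟨N2 + N, by rw [Function.iterate_add_apply]; exact hN2, ?_⟩
  intro m hm
  by_cases hmN : m < N
  · exact hP m hmN
  · obtain ⟨m', rfl⟩ := Nat.exists_eq_add_of_le' (Nat.le_of_not_lt hmN)
    rw [Function.iterate_add_apply]
    exact hP2 m' (by omega)

section
variable (e : Prog) (a : List Bool) (x y : R2) (n : ℕ) (W : R2)

/-- Full description of a configuration in the compute pass. -/
structure MM (q : S2 e.k a.length) (h : ℕ) (t7 t8 t9 : R2)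
    (c : Cfg (Fin 14) (S2 e.k a.length)) : Prop where
  q : c.q = q
  h : c.h = h
  T : St2 x y n W c.T
  f : Fl false true c.T
  e7 : c.T 7 = t7
  e8 : c.T 8 = t8
  e9 : c.T 9 = t9

variable {e a x y n W}

theorem step_MM {q : S2 e.k a.length} {h : ℕ} {t7 t8 t9 : R2}
    {c : Cfg (Fin 14) (S2 e.k a.length)} (H : MM e a x y n W q h t7 t8 t9 c)
    (q' : S2 e.k a.length) (b7 b8 b9 mv : Bool)
    (htr : tr2 e a q c.rd = (q', put (put (put c.rd 7 b7) 8 b8) 9 b9, mv)) :
    MM e a x y n W q' (if mv then h + 1 else h - 1) (Function.update t7 h b7)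
      (Function.update t8 h b8) (Function.update t9 h b9) ((M2 e a).step c) := by
  obtain ⟨hq, hh, hT, hf, h7, h8, h9⟩ := H
  have hs : (M2 e a).tr c.q c.rd = (q', put (put (put c.rd 7 b7) 8 b8) 9 b9, mv) := by
    rw [hq]; exact htr
  have hk : ∀ k : Fin 14, k ≠ 7 → k ≠ 8 → k ≠ 9 → ((M2 e a).step c).T k = c.T k := by
    intro k k7 k8 k9
    simp only [Mach.step, hs, put, Function.update_of_ne k9, Function.update_of_ne k8,
      Function.update_of_ne k7, Cfg.rd, Function.update_eq_self]
  refine ⟨?_, ?_, ?_, ?_, ?_, ?_, ?_⟩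
  · simp [Mach.step, hs]
  · simp [Mach.step, hs, hh]
  · obtain ⟨a0, a1, a5, a6, a10, a11, a12, a13⟩ := hT
    refine ⟨?_, ?_, ?_, ?_, ?_, ?_, ?_, ?_⟩
    · rw [hk 0 (by decide) (by decide) (by decide)]; exact a0
    · rw [hk 1 (by decide) (by decide) (by decide)]; exact a1
    · rw [hk 5 (by decide) (by decide) (by decide)]; exact a5
    · rw [hk 6 (by decide) (by decide) (by decide)]; exact a6
    · rw [hk 10 (by decide) (by decide) (by decide)]; exact a10
    · rw [hk 11 (by decide) (by decide) (by decide)]; exact a11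
    · rw [hk 12 (by decide) (by decide) (by decide)]; exact a12
    · rw [hk 13 (by decide) (by decide) (by decide)]; exact a13
  · unfold Fl
    rw [hk 11 (by decide) (by decide) (by decide), hk 12 (by decide) (by decide) (by decide)]
    exact hf
  · simp [Mach.step, hs, put, hh, h7, Function.update_of_ne]
  · simp [Mach.step, hs, put, hh, h8, Function.update_of_ne]
  · simp [Mach.step, hs, put, hh, h9]

/-- A step without changes on the tape. -/
theorem step_MM0 {q : S2 e.k a.length} {h : ℕ} {t7 t8 t9 : R2}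
    {c : Cfg (Fin 14) (S2 e.k a.length)} (H : MM e a x y n W q h t7 t8 t9 c)
    (q' : S2 e.k a.length) (mv : Bool)
    (htr : tr2 e a q c.rd = (q', c.rd, mv)) :
    MM e a x y n W q' (if mv then h + 1 else h - 1) t7 t8 t9 ((M2 e a).step c) := by
  have h7 : c.rd 7 = t7 h := by simp [Cfg.rd, H.e7, H.h]
  have h8 : c.rd 8 = t8 h := by simp [Cfg.rd, H.e8, H.h]
  have h9 : c.rd 9 = t9 h := by simp [Cfg.rd, H.e9, H.h]
  have := step_MM H q' (t7 h) (t8 h) (t9 h) mv (by
    rw [htr]
    simp [put, ← h7, ← h8, ← h9, Function.update_eq_self])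
  simpa [Function.update_eq_self] using this

theorem rdx {q : S2 e.k a.length} {h : ℕ} {t7 t8 t9 : R2}
    {c : Cfg (Fin 14) (S2 e.k a.length)} (H : MM e a x y n W q h t7 t8 t9 c) :
    c.rd 0 = x h ∧ c.rd 1 = inp n h ∧ c.rd 5 = y h ∧ c.rd 6 = W h ∧ c.rd 7 = t7 h ∧
      c.rd 8 = t8 h ∧ c.rd 9 = t9 h ∧ c.rd 10 = decide (h = 0) := by
  refine ⟨?_, ?_, ?_, ?_, ?_, ?_, ?_, ?_⟩
  · simp [Cfg.rd, H.h, H.T.t0]
  · simp [Cfg.rd, H.h, H.T.t1]
  · simp [Cfg.rd, H.h, H.T.t5]
  · simp [Cfg.rd, H.h, H.T.t6]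
  · simp [Cfg.rd, H.h, H.e7]
  · simp [Cfg.rd, H.h, H.e8]
  · simp [Cfg.rd, H.h, H.e9]
  · simp [Cfg.rd, H.h, H.T.t10]

/-- The predicate which holds during the treatment of one micro-instruction. -/
def Du (x y : R2) (n : ℕ) (W s7 s7' : R2) (c : Cfg (Fin 14) (S2 e.k a.length)) : Prop :=
  out2 c.q = none ∧ St2 x y n W c.T ∧ Fl false true c.T ∧ ∀ i, (c.T 7 i = s7 i ∨ c.T 7 i = s7' i)

theorem MM.du {q : S2 e.k a.length} {h : ℕ} {t7 t8 t9 : R2} {s7 s7' : R2}
    {c : Cfg (Fin 14) (S2 e.k a.length)} (H : MM e a x y n W q h t7 t8 t9 c)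
    (hq : out2 q = none) (h7 : t7 = s7 ∨ t7 = s7') : Du x y n W s7 s7' c := by
  refine ⟨by rw [H.q]; exact hq, H.T, H.f, fun i => ?_⟩
  rw [H.e7]
  rcases h7 with h7 | h7
  · left; rw [h7]
  · right; rw [h7]

/-- walking to the right -/
theorem walkR {q : S2 e.k a.length} {t7 t8 t9 : R2} {s7 s7' : R2}
    (hq : out2 q = none) (h7 : t7 = s7 ∨ t7 = s7') (m : ℕ)
    (htr : ∀ (h : ℕ) (c : Cfg (Fin 14) (S2 e.k a.length)), h < m →
      MM e a x y n W q h t7 t8 t9 c → tr2 e a q c.rd = (q, c.rd, true)) :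
    ∀ (k h : ℕ) (c : Cfg (Fin 14) (S2 e.k a.length)), h + k = m →
      MM e a x y n W q h t7 t8 t9 c →
      Ev (M2 e a) (Du x y n W s7 s7') (MM e a x y n W q m t7 t8 t9) c := by
  intro k
  induction k with
  | zero =>
    intro h c hm H
    obtain rfl : h = m := by omega
    exact Ev.refl H
  | succ k ih =>
    intro h c hm H
    refine Ev.step (H.du hq h7) ?_
    have := step_MM0 H q true (htr h c (by omega) H)
    exact ih (h + 1) _ (by omega) (by simpa using this)

/-- walking to the left to the origin -/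
theorem walkL {q : S2 e.k a.length} {t7 t8 t9 : R2} {s7 s7' : R2}
    (hq : out2 q = none) (h7 : t7 = s7 ∨ t7 = s7')
    (htr : ∀ (h : ℕ) (c : Cfg (Fin 14) (S2 e.k a.length)), 0 < h →
      MM e a x y n W q h t7 t8 t9 c → tr2 e a q c.rd = (q, c.rd, false)) :
    ∀ (h : ℕ) (c : Cfg (Fin 14) (S2 e.k a.length)),
      MM e a x y n W q h t7 t8 t9 c →
      Ev (M2 e a) (Du x y n W s7 s7') (MM e a x y n W q 0 t7 t8 t9) c := by
  intro h
  induction h with
  | zero =>
    intro c H
    exact Ev.refl H
  | succ k ih =>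
    intro c H
    refine Ev.step (H.du hq h7) ?_
    have := step_MM0 H q false (htr (k + 1) c (by omega) H)
    exact ih _ (by simpa using this)

/-- the marker at a position -/
def dl (p : ℕ) : R2 := fun i => decide (i = p)

/-- the bits read so far -/
def wv (y : R2) (j t : ℕ) : Fin 4 → Bool := fun s =>
  if 2 * s.1 < t then y (8 * j + 2 * s.1) else y (8 * j)

theorem wv_step (j t : ℕ) (ht : t < 8) :
    (if t % 2 = 0 then Function.update (wv y j t) ⟨t / 2, by omega⟩ (y (8 * j + t))
      else wv y j t) = wv y j (t + 1) := by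
  funext s
  by_cases h : t % 2 = 0
  · rw [if_pos h]
    by_cases hs : s = ⟨t / 2, by omega⟩
    · subst hs
      simp only [Function.update_self, wv]
      rw [if_pos (by omega)]
      congr 1
      omega
    · rw [Function.update_of_ne hs]
      have : s.1 ≠ t / 2 := fun h' => hs (Fin.ext h')
      simp only [wv]
      by_cases h2 : 2 * s.1 < t
      · rw [if_pos h2, if_pos (by omega)]
      · rw [if_neg h2, if_neg (by omega)]
  · rw [if_neg h]
    simp only [wv]
    by_cases h2 : 2 * s.1 < t
    · rw [if_pos h2, if_pos (by omega)]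
    · rw [if_neg h2, if_neg (by omega)]

/-- fetch: walking to the marker -/
theorem phA (r : Bool) (j p : ℕ) (t7 s7 s7' : R2) (h7 : t7 = s7 ∨ t7 = s7')
    (c : Cfg (Fin 14) (S2 e.k a.length))
    (H : MM e a x y n W (.fetch r) 0 t7 (dl (8 * j)) (dl p) c) :
    Ev (M2 e a) (Du x y n W s7 s7')
      (MM e a x y n W (.fetch r) (8 * j) t7 (dl (8 * j)) (dl p)) c := by
  refine walkR rfl h7 (8 * j) ?_ (8 * j) 0 c (by omega) H
  intro h c hm H
  obtain ⟨-, -, -, -, -, r8, -, -⟩ := rdx H
  have : c.rd 8 = false := by rw [r8]; simp [dl]; omega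
  simp [tr2, this]

/-- fetch: reading the bits -/
theorem phC (r : Bool) (j p : ℕ) (t7 s7 s7' : R2) (h7 : t7 = s7 ∨ t7 = s7') :
    ∀ (k t : ℕ) (ht : t + k = 8) (c : Cfg (Fin 14) (S2 e.k a.length)),
    MM e a x y n W (.rdi r ⟨t, by omega⟩ (wv y j t)) (8 * j + t) t7 (fun _ => false) (dl p) c →
    Ev (M2 e a) (Du x y n W s7 s7')
      (MM e a x y n W (.rdi r ⟨8, by omega⟩ (wv y j 8)) (8 * j + 8) t7 (fun _ => false) (dl p))
      c := by
  intro k
  induction k with
  | zero =>
    intro t ht c H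
    obtain rfl : t = 8 := by omega
    exact Ev.refl H
  | succ k ih =>
    intro t ht c H
    refine Ev.step (H.du rfl h7) ?_
    obtain ⟨-, -, r5, -, -, -, -, -⟩ := rdx H
    have := step_MM0 H (.rdi r ⟨t + 1, by omega⟩ (wv y j (t + 1))) true (by
      have ht8 : t < 8 := by omega
      simp only [tr2, ht8, dif_pos, r5]
      rw [wv_step j t ht8])
    exact ih (t + 1) (by omega) _ (by simpa [Nat.add_assoc] using this)

/-- from fetch to execution -/
theorem phD (r : Bool) (j p : ℕ) (t7 s7 s7' : R2) (h7 : t7 = s7 ∨ t7 = s7')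
    (c : Cfg (Fin 14) (S2 e.k a.length))
    (H : MM e a x y n W (.fetch r) 0 t7 (dl (8 * j)) (dl p) c) :
    Ev (M2 e a) (Du x y n W s7 s7')
      (MM e a x y n W (.go r (fun s => y (8 * j + 2 * s.1))) p t7 (dl (8 * (j + 1))) (dl p)) c := by
  refine Ev.trans (phA r j p t7 s7 s7' h7 c H) ?_
  clear H c
  intro c H
  refine Ev.step (H.du rfl h7) ?_
  have hw1 : (fun _ => y (8 * j)) = wv y j 1 := by
    funext s
    simp only [wv]
    split_ifs with h
    · congr 1
      omega
    · rfl
  have H2 : MM e a x y n W (.rdi r ⟨1, by omega⟩ (wv y j 1)) (8 * j + 1) t7 (fun _ => false) (dl p)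
      ((M2 e a).step c) := by
    obtain ⟨-, -, r5, -, r7, r8, r9, -⟩ := rdx H
    have := step_MM H (.rdi r ⟨1, by omega⟩ (wv y j 1)) (t7 (8 * j)) false (dl p (8 * j)) true (by
      have : c.rd 8 = true := by rw [r8]; simp [dl]
      simp only [tr2, this, if_true, r5, hw1]
      simp only [put, ← r7, ← r9, Function.update_eq_self]
      have h9 : Function.update c.rd 8 false 9 = c.rd 9 := Function.update_of_ne (by decide) _ _
      rw [← h9, Function.update_eq_self])
    have h8 : Function.update (dl (8 * j)) (8 * j) false = fun _ => false := by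
      funext i
      by_cases hi : i = 8 * j
      · subst hi; simp
      · rw [Function.update_of_ne hi]; simp [dl, hi]
    rw [h8] at this
    simpa [Function.update_eq_self] using this
  refine Ev.trans (phC r j p t7 s7 s7' h7 7 1 (by omega) _ H2) ?_
  clear H2 H c
  intro c H
  refine Ev.step (H.du rfl h7) ?_
  have hw8 : wv y j 8 = fun s => y (8 * j + 2 * s.1) := by
    funext s
    simp only [wv]
    rw [if_pos (by omega)]
  have H2 : MM e a x y n W (.bk2 r (fun s => y (8 * j + 2 * s.1))) (8 * j + 7) t7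
      (dl (8 * (j + 1))) (dl p) ((M2 e a).step c) := by
    obtain ⟨-, -, -, -, r7, r8, r9, -⟩ := rdx H
    have := step_MM H (.bk2 r (wv y j 8)) (t7 (8 * j + 8)) true (dl p (8 * j + 8)) false (by
      simp only [tr2, lt_irrefl, dif_neg, not_false_eq_true]
      simp only [put, ← r7, ← r9, Function.update_eq_self]
      have h9 : Function.update c.rd 8 true 9 = c.rd 9 := Function.update_of_ne (by decide) _ _
      rw [← h9, Function.update_eq_self])
    have h8 : Function.update (fun _ : ℕ => false) (8 * j + 8) true = dl (8 * (j + 1)) := by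
      funext i
      by_cases hi : i = 8 * j + 8
      · subst hi; simp [dl]; omega
      · rw [Function.update_of_ne hi]
        simp only [dl]
        symm
        rw [decide_eq_false_iff_not]
        omega
    rw [h8, hw8] at this
    simpa [Function.update_eq_self] using this
  refine Ev.trans (walkL (q := .bk2 r (fun s => y (8 * j + 2 * s.1))) rfl h7 ?_ _ _ H2) ?_
  · clear H2 H c
    intro h c hm H
    obtain ⟨-, -, -, -, -, -, -, r10⟩ := rdx H
    have : c.rd 10 = false := by rw [r10]; simp; omega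
    simp [tr2, this]
  clear H2 H c
  intro c H
  refine Ev.step (H.du rfl h7) ?_
  have H2 : MM e a x y n W (.go r (fun s => y (8 * j + 2 * s.1))) 0 t7
      (dl (8 * (j + 1))) (dl p) ((M2 e a).step c) := by
    obtain ⟨-, -, -, -, -, -, -, r10⟩ := rdx H
    have := step_MM0 H (.go r (fun s => y (8 * j + 2 * s.1))) false (by
      have : c.rd 10 = true := by rw [r10]; simp
      simp [tr2, this])
    simpa using this
  refine walkR (q := .go r (fun s => y (8 * j + 2 * s.1))) rfl h7 p ?_ p 0 _ (by omega) H2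
  clear H2 H c
  intro h c hm H
  obtain ⟨-, -, -, -, -, -, r9, -⟩ := rdx H
  have : c.rd 9 = false := by rw [r9]; simp [dl]; omega
  simp [tr2, this]

/-- back to the origin -/
theorem phG (r : Bool) (h : ℕ) (t7 t8 t9 s7 s7' : R2) (h7 : t7 = s7 ∨ t7 = s7')
    (c : Cfg (Fin 14) (S2 e.k a.length))
    (H : MM e a x y n W (.bkf r) h t7 t8 t9 c) :
    Ev (M2 e a) (Du x y n W s7 s7') (MM e a x y n W (.fetch r) 0 t7 t8 t9) c := by
  refine Ev.trans (walkL (q := .bkf r) rfl h7 ?_ _ _ H) ?_
  · clear H c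
    intro h c hm H
    obtain ⟨-, -, -, -, -, -, -, r10⟩ := rdx H
    have : c.rd 10 = false := by rw [r10]; simp; omega
    simp [tr2, this]
  clear H c
  intro c H
  refine Ev.step (H.du rfl h7) (Ev.refl ?_)
  obtain ⟨-, -, -, -, -, -, -, r10⟩ := rdx H
  have := step_MM0 H (.fetch r) false (by
    have : c.rd 10 = true := by rw [r10]; simp
    simp [tr2, this])
  simpa using this

/-- moving the position marker -/
theorem phF (r : Bool) (p p' : ℕ) (t7 t8 s7 s7' : R2) (h7 : t7 = s7 ∨ t7 = s7')
    (c : Cfg (Fin 14) (S2 e.k a.length))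
    (H : MM e a x y n W (.pr r) p' t7 t8 (Function.update (dl p) p false) c) :
    Ev (M2 e a) (Du x y n W s7 s7') (MM e a x y n W (.fetch r) 0 t7 t8 (dl p')) c := by
  refine Ev.step (H.du rfl h7) ?_
  have H2 : MM e a x y n W (.bkf r) (p' - 1) t7 t8 (dl p') ((M2 e a).step c) := by
    obtain ⟨-, -, -, -, r7, r8, r9, -⟩ := rdx H
    have := step_MM H (.bkf r) (t7 p') (t8 p') true false (by
      simp only [tr2, put, ← r7, ← r8, Function.update_eq_self])
    have h9 : Function.update (Function.update (dl p) p false) p' true = dl p' := by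
      funext i
      by_cases hi : i = p'
      · subst hi; simp [dl]
      · rw [Function.update_of_ne hi]
        by_cases hi2 : i = p
        · subst hi2; simp [dl, hi]
        · rw [Function.update_of_ne hi2]; simp [dl, hi, hi2]
    rw [h9] at this
    simpa [Function.update_eq_self] using this
  exact phG r _ t7 t8 (dl p') s7 s7' h7 _ H2

/-- the value of track 7 after the micro-instruction -/
def nx7 (o : Op) (r : Bool) (p : ℕ) (t7 : R2) : R2 :=
  if o = Op.emit then Function.update t7 p (t7 p || r) else t7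

/-- execution of a micro-instruction -/
theorem phE (r : Bool) (w : Fin 4 → Bool) (p : ℕ) (t7 t8 : R2)
    (c : Cfg (Fin 14) (S2 e.k a.length))
    (H : MM e a x y n W (.go r w) p t7 t8 (dl p) c) :
    Ev (M2 e a) (Du x y n W t7 (nx7 (Op.dec w) r p t7))
      (MM e a x y n W (.fetch ((Op.dec w).act (trk W x y (inp n)) (p, r)).2) 0
        (nx7 (Op.dec w) r p t7) t8 (dl ((Op.dec w).act (trk W x y (inp n)) (p, r)).1)) c := by
  refine Ev.step (H.du rfl (Or.inl rfl)) ?_
  obtain ⟨r0, r1, r5, r6, r7, r8, r9, -⟩ := rdx H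
  have h9 : c.rd 9 = true := by rw [r9]; simp [dl]
  cases ho : Op.dec w with
  | nop =>
    have h7' : nx7 Op.nop r p t7 = t7 := rfl
    rw [h7']
    have := step_MM0 H (.bkf r) false (by simp only [tr2, h9, ho, if_true])
    exact phG r _ t7 t8 (dl p) t7 t7 (Or.inl rfl) _ this
  | R =>
    have h7' : nx7 Op.R r p t7 = t7 := rfl
    rw [h7']
    have := step_MM H (.pr r) (t7 p) (t8 p) false true (by
      simp only [tr2, h9, ho, if_true, put, ← r7, ← r8, Function.update_eq_self])
    simp only [if_true, Function.update_eq_self] at this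
    exact phF r p (p + 1) t7 t8 t7 t7 (Or.inl rfl) _ this
  | L =>
    have h7' : nx7 Op.L r p t7 = t7 := rfl
    rw [h7']
    have := step_MM H (.pr r) (t7 p) (t8 p) false false (by
      simp only [tr2, h9, ho, if_true, put, ← r7, ← r8, Function.update_eq_self])
    simp only [Function.update_eq_self] at this
    exact phF r p (p - 1) t7 t8 t7 t7 (Or.inl rfl) _ this
  | emit =>
    have h7' : nx7 Op.emit r p t7 = Function.update t7 p (t7 p || r) := rfl
    rw [h7']
    have := step_MM H (.bkf true) (t7 p || r) (t8 p) (dl p p) false (by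
      simp only [tr2, h9, ho, if_true, put, r7]
      have e8 : Function.update c.rd 7 (t7 p || r) 8 = t8 p := by
        rw [Function.update_of_ne (by decide), r8]
      have e9 : Function.update c.rd 7 (t7 p || r) 9 = dl p p := by
        rw [Function.update_of_ne (by decide), r9]
      rw [← e8, Function.update_eq_self, ← e9, Function.update_eq_self])
    simp only [Function.update_eq_self] at this
    exact phG true _ _ t8 (dl p) t7 _ (Or.inr rfl) _ this
  | lit d s =>
    have h7' : nx7 (Op.lit d s) r p t7 = t7 := rfl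
    rw [h7']
    have := step_MM0 H (.bkf (r && (![c.rd 6, c.rd 0, c.rd 5, c.rd 1] d == s))) false (by
      simp only [tr2, h9, ho, if_true])
    have e4 : (![c.rd 6, c.rd 0, c.rd 5, c.rd 1] d) = trk W x y (inp n) d p := by
      rw [r6, r0, r5, r1]
      fin_cases d <;> rfl
    rw [e4] at this
    exact phG _ _ t7 t8 (dl p) t7 t7 (Or.inl rfl) _ this

end

end MicroAux

section A2h
variable (e : Prog) (a : List Bool) (x y : R2) (n : ℕ)

/-- configuration before micro-instruction `j` -/
structure Mic (W : R2) (j : ℕ) (c : Cfg (Fin 14) (S2 e.k a.length)) : Prop where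
  q : c.q = S2.fetch (sem (ops y) (trk W x y (inp n)) j).2
  h : c.h = 0
  T : St2 x y n W c.T
  f : Fl false true c.T
  t7 : ∀ i, c.T 7 i = true ↔ ∃ j', j' < j ∧ ops y j' = Op.emit ∧
    sem (ops y) (trk W x y (inp n)) j' = (i, true)
  t8 : ∀ i, c.T 8 i = decide (i = 8 * j)
  t9 : ∀ i, c.T 9 i = decide (i = (sem (ops y) (trk W x y (inp n)) j).1)

open MicroAux in
theorem micro (W : R2) (j : ℕ) (c : Cfg (Fin 14) (S2 e.k a.length))
    (hc : Mic e a x y n W j c) :
    ∃ N : ℕ, 0 < N ∧ Mic e a x y n W (j + 1) ((M2 e a).run c (N : Ordinal.{0})) ∧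
    ∀ N' : ℕ, N' < N → out2 ((M2 e a).run c (N' : Ordinal.{0})).q = none ∧
      St2 x y n W ((M2 e a).run c (N' : Ordinal.{0})).T ∧
      Fl false true ((M2 e a).run c (N' : Ordinal.{0})).T ∧
      ∀ i, (((M2 e a).run c (N' : Ordinal.{0})).T 7 i = c.T 7 i ∨
        ((M2 e a).run c (N' : Ordinal.{0})).T 7 i =
          ((M2 e a).run c (N : Ordinal.{0})).T 7 i) := by
  set S := sem (ops y) (trk W x y (inp n)) with hS
  have hdec : Op.dec (fun t : Fin 4 => y (8 * j + 2 * t.1)) = ops y j := rfl
  have H : MM e a x y n W (.fetch (S j).2) 0 (c.T 7) (dl (8 * j)) (dl (S j).1) c :=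
    ⟨hc.q, hc.h, hc.T, hc.f, rfl, funext hc.t8, funext hc.t9⟩
  have E1 := phD (S j).2 j (S j).1 (c.T 7) (c.T 7) (nx7 (ops y j) (S j).2 (S j).1 (c.T 7))
    (Or.inl rfl) c H
  have E2 := Ev.trans E1 (fun d Hd => by
    have := phE (S j).2 _ (S j).1 (c.T 7) (dl (8 * (j + 1))) d Hd
    rw [hdec] at this
    exact this)
  have hSj : S (j + 1) = (ops y j).act (trk W x y (inp n)) ((S j).1, (S j).2) := rfl
  rw [← hSj] at E2
  obtain ⟨N, hN, hP⟩ := E2
  have hc7 : ∀ N' : ℕ, (M2 e a).run c (N' : Ordinal.{0}) = (M2 e a).step^[N'] c :=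
    fun N' => run_nat' _ _ _
  refine ⟨N, ?_, ?_, ?_⟩
  · rcases Nat.eq_zero_or_pos N with h0 | h0
    · exfalso
      subst h0
      have h8 := congrFun hN.e8 (8 * j)
      simp only [Function.iterate_zero, id_eq] at h8
      rw [hc.t8] at h8
      simp only [dl] at h8
      simp at h8
    · exact h0
  · rw [hc7]
    refine ⟨hN.q, hN.h, hN.T, hN.f, ?_, ?_, ?_⟩
    · intro i
      rw [hN.e7]
      unfold nx7
      split_ifs with he
      · constructor
        · intro hi
          by_cases hip : i = (S j).1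
          · subst hip
            rw [Function.update_self, Bool.or_eq_true] at hi
            rcases hi with hi | hi
            · obtain ⟨j', hj', h1, h2⟩ := (hc.t7 _).1 hi
              exact ⟨j', by omega, h1, h2⟩
            · exact ⟨j, by omega, he, Prod.ext rfl hi⟩
          · rw [Function.update_of_ne hip] at hi
            obtain ⟨j', hj', h1, h2⟩ := (hc.t7 _).1 hi
            exact ⟨j', by omega, h1, h2⟩
        · rintro ⟨j', hj', h1, h2⟩
          by_cases hjj : j' = j
          · subst hjj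
            have : (S j').1 = i := by rw [hS, h2]
            subst this
            have h3 : (S j').2 = true := by rw [hS, h2]
            rw [Function.update_self, h3, Bool.or_true]
          · have : c.T 7 i = true := (hc.t7 i).2 ⟨j', by omega, h1, h2⟩
            by_cases hip : i = (S j).1
            · subst hip
              rw [Function.update_self, this, Bool.true_or]
            · rw [Function.update_of_ne hip, this]
      · rw [hc.t7]
        constructor
        · rintro ⟨j', hj', h1, h2⟩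
          exact ⟨j', by omega, h1, h2⟩
        · rintro ⟨j', hj', h1, h2⟩
          refine ⟨j', ?_, h1, h2⟩
          rcases Nat.lt_succ_iff_lt_or_eq.1 hj' with h | h
          · exact h
          · subst h; exact absurd h1 he
    · intro i
      rw [hN.e8]; rfl
    · intro i
      rw [hN.e9]; rfl
  · intro N' hN'
    rw [hc7, hc7, hN.e7]
    obtain ⟨h1, h2, h3, h4⟩ := hP N' hN'
    exact ⟨h1, h2, h3, h4⟩

end A2h

end Pool.Agent.Helper78.ITTM
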