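import Pool.Agent.Helper78.ITTM.Prog2

/-! Borel steps by open steps: NAND trees and the synchronous network. -/

namespace Pool.Agent.Helper78.ITTM

/-- Well-founded NAND trees with literals from `J`. -/
inductive Tree (J : Type)
  | lit (j : J) (b : Bool)
  | nand (f : ℕ → Tree J)

/-- Evaluation of a tree. -/
noncomputable def Tree.eval {J : Type} (v : J → Bool) : Tree J → Bool
  | .lit j b => v j == b
  | .nand f => open Classical in decide (∃ k, Tree.eval v (f k) = false)

/-- The subtree at an address. -/
def Tree.sub {J : Type} : Tree J → List ℕ → Option (Tree J)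
  | t, [] => some t
  | .lit _ _, _ :: _ => none
  | .nand f, k :: s => (f k).sub s

/-- Literals of the trees of an operator: state cells, cells of `c`, cells of `x`. -/
abbrev Lt (J : Type) : Type := J ⊕ (ℕ ⊕ ℕ)

/-- The valuation of the literals. -/
def val {J : Type} (c x : R2) (z : J → Bool) : Lt J → Bool
  | .inl j => z j
  | .inr (.inl i) => c i
  | .inr (.inr i) => x i

/-- Cells of the network. -/
inductive NC (J : Type)
  | H | R1 | f
  | z (j : J)
  | U (s : List ℕ)
  | nd (s : List ℕ)

/-- The network step for the root tree `t`; the value of state cell `j` is computed at the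
address `[g j]`.  `x`, `c` are the oracles, `i` the input. -/
noncomputable def netStep {J : Type} (t : Tree (Lt J)) (g : J → ℕ) (halt : J) (out : ℕ → J)
    (W : NC J → Bool) (x c i : R2) : NC J → Bool
  | .H => W (.z halt)
  | .R1 => open Classical in
      decide (∃ m, i m = false ∧ (∀ m', m' < m → i m' = true) ∧ W (.z (out m)) = true)
  | .f => !(W .f) && !(W (.nd []))
  | .z j => if !(W .f) && !(W (.nd [])) then W (.U [g j]) else W (.z j)
  | .U s => match t.sub s with
    | some (.lit l b) => val c x (fun j => W (.z j)) l == b
    | some (.nand _) => @decide (∃ k, W (.U (s ++ [k])) = false) (Classical.propDecidable _)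
    | none => false
  | .nd s => W .f || (match t.sub s with
    | some (.nand _) => @decide (∃ k, W (.nd (s ++ [k])) = true) (Classical.propDecidable _)
    | _ => false)

/-- Start state of the network. -/
def netInit {J : Type} (z0 : J → Bool) : NC J → Bool
  | .f => true
  | .z j => z0 j
  | _ => false

/-- The iteration of a step from `z0` halts with output `v`. -/
def ItHalts {J : Type} (F : (J → Bool) → (J → Bool)) (halt : J) (out : ℕ → J) (z0 : J → Bool)
    (v : R2) : Prop :=
  ∃ a, iter F z0 a halt = true ∧ (∀ b, b < a → iter F z0 b halt = false) ∧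
    ∀ n, iter F z0 a (out n) = v n

end Pool.Agent.Helper78.ITTM
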