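import Pool.Agent.Helper78.ITTM.NetDefs

/-! Openness of the network step and a numbering of the cells of the network. -/

namespace Pool.Agent.Helper78.ITTM

/-- A bit depending continuously on a point is on on an open set. -/
theorem isOpen_bit {X : Type} [TopologicalSpace X] {f : X → Bool} (hf : Continuous f) :
    IsOpen {p : X | f p = true} :=
  (isOpen_discrete ({true} : Set Bool)).preimage hf

theorem net_open {J : Type} (t : Tree (Lt J)) (g : J → ℕ) (halt : J) (out : ℕ → J)
    (E : NC J ≃ ℕ) (i : ℕ) :
    IsOpen {p : R2 × R2 × R2 × R2 |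
      netStep t g halt out (fun q => p.1 (E q)) p.2.1 p.2.2.1 p.2.2.2 (E.symm i) = true} := by
  have hW : ∀ q : NC J, Continuous (fun p : R2 × R2 × R2 × R2 => p.1 (E q)) := fun q =>
    (continuous_apply (E q)).comp continuous_fst
  have hx : ∀ k : ℕ, Continuous (fun p : R2 × R2 × R2 × R2 => p.2.1 k) := fun k =>
    (continuous_apply k).comp (continuous_fst.comp continuous_snd)
  have hc : ∀ k : ℕ, Continuous (fun p : R2 × R2 × R2 × R2 => p.2.2.1 k) := fun k =>
    (continuous_apply k).comp (continuous_fst.comp (continuous_snd.comp continuous_snd))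
  have hi : ∀ k : ℕ, Continuous (fun p : R2 × R2 × R2 × R2 => p.2.2.2 k) := fun k =>
    (continuous_apply k).comp (continuous_snd.comp (continuous_snd.comp continuous_snd))
  have hcl : ∀ {f : R2 × R2 × R2 × R2 → Bool}, Continuous f → ∀ b : Bool,
      IsOpen {p | f p = b} := fun {f} hf b =>
    (isOpen_discrete ({b} : Set Bool)).preimage hf
  have hd : Continuous (fun p : R2 × R2 × R2 × R2 =>
      (!(p.1 (E .f)) && !(p.1 (E (.nd []))))) := by
    have h := (hW .f).prodMk (hW (.nd []))
    exact (continuous_of_discreteTopology (f := fun r : Bool × Bool => (!r.1 && !r.2))).comp h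
  generalize E.symm i = cell
  cases cell with
  | H => exact isOpen_bit (hW _)
  | R1 =>
    have : {p : R2 × R2 × R2 × R2 |
        netStep t g halt out (fun q => p.1 (E q)) p.2.1 p.2.2.1 p.2.2.2 .R1 = true} =
        ⋃ m : ℕ, ({p : R2 × R2 × R2 × R2 | p.2.2.2 m = false} ∩
          ((⋂ m' ∈ Finset.range m, {p : R2 × R2 × R2 × R2 | p.2.2.2 m' = true}) ∩
            {p : R2 × R2 × R2 × R2 | p.1 (E (.z (out m))) = true})) := by
      ext p
      simp [netStep]
    rw [this]
    refine isOpen_iUnion fun m => (hcl (hi m) false).inter (IsOpen.inter ?_ (hcl (hW _) true))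
    exact isOpen_biInter_finset fun m' _ => hcl (hi m') true
  | f => exact isOpen_bit hd
  | z j =>
    have h := (hd.prodMk ((hW (.U [g j])).prodMk (hW (.z j))))
    exact isOpen_bit ((continuous_of_discreteTopology
      (f := fun r : Bool × (Bool × Bool) => if r.1 = true then r.2.1 else r.2.2)).comp h)
  | U s =>
    simp only [netStep]
    generalize t.sub s = o
    cases o with
    | none => simp
    | some t' =>
      cases t' with
      | lit l b =>
        dsimp only
        have hv : Continuous (fun p : R2 × R2 × R2 × R2 =>
            val p.2.2.1 p.2.1 (fun j => p.1 (E (.z j))) l) := by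
          rcases l with j | l | l
          · exact hW _
          · exact hc _
          · exact hx _
        exact isOpen_bit ((continuous_of_discreteTopology (f := fun r : Bool => r == b)).comp hv)
      | nand f =>
        have : {p : R2 × R2 × R2 × R2 | @decide (∃ k, p.1 (E (.U (s ++ [k]))) = false)
            (Classical.propDecidable _) = true} =
            ⋃ k : ℕ, {p : R2 × R2 × R2 × R2 | p.1 (E (.U (s ++ [k]))) = false} := by
          ext p
          simp
        dsimp only
        rw [this]
        exact isOpen_iUnion fun k => hcl (hW _) false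
  | nd s =>
    simp only [netStep]
    generalize t.sub s = o
    cases o with
    | none =>
      simp only [Bool.or_false]
      exact isOpen_bit (hW _)
    | some t' =>
      cases t' with
      | lit l b =>
        simp only [Bool.or_false]
        exact isOpen_bit (hW _)
      | nand f =>
        have : {p : R2 × R2 × R2 × R2 | (p.1 (E .f) ||
            @decide (∃ k, p.1 (E (.nd (s ++ [k]))) = true) (Classical.propDecidable _)) = true} =
            {p : R2 × R2 × R2 × R2 | p.1 (E .f) = true} ∪
            ⋃ k : ℕ, {p : R2 × R2 × R2 × R2 | p.1 (E (.nd (s ++ [k]))) = true} := by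
          ext p
          simp
        dsimp only
        rw [this]
        exact (hcl (hW _) true).union (isOpen_iUnion fun k => hcl (hW _) true)

/-- The code of a cell. -/
def NC.code {J : Type} : NC J → ℕ × (J ⊕ List ℕ)
  | .H => (0, .inr [])
  | .R1 => (1, .inr [])
  | .f => (2, .inr [])
  | .z j => (3, .inl j)
  | .U s => (4, .inr s)
  | .nd s => (5, .inr s)

theorem NC.code_injective {J : Type} : Function.Injective (NC.code (J := J)) := by
  intro a b h
  cases a <;> cases b <;> simp_all [NC.code]

/-- a numbering of the cells with `H` and `R1` at 0 and 1 -/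
theorem net_equiv (J : Type) [Countable J] : ∃ E : NC J ≃ ℕ, E .H = 0 ∧ E .R1 = 1 := by
  have hc : Countable (NC J) := NC.code_injective.countable
  have hinf : Infinite (NC J) := Infinite.of_injective (fun s : List ℕ => NC.U (J := J) s)
    (fun a b h => by simpa using h)
  obtain ⟨e⟩ := nonempty_equiv_of_countable (α := NC J) (β := ℕ)
  let E1 : NC J ≃ ℕ := e.trans (Equiv.swap (e .H) 0)
  have h1 : E1 .H = 0 := by simp [E1]
  have h2 : E1 .R1 ≠ 0 := by
    intro h
    have := E1.injective (h.trans h1.symm)
    cases this
  refine ⟨E1.trans (Equiv.swap (E1 .R1) 1), ?_, ?_⟩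
  · rw [Equiv.trans_apply, h1]
    exact Equiv.swap_apply_of_ne_of_ne (Ne.symm h2) (by decide)
  · rw [Equiv.trans_apply]
    exact Equiv.swap_apply_left _ _

end Pool.Agent.Helper78.ITTM
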