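import Pool.Agent.Helper78.ITTM.Run
import Pool.Agent.Helper78.ITTM.NetDefs

/-! Module T4: the run of the synchronous network. -/

namespace Pool.Agent.Helper78.ITTM

open Ordinal

/-- The rank of a tree. -/
noncomputable def Tree.rank {J : Type} : Tree J → Ordinal.{0}
  | .lit _ _ => 0
  | .nand f => ⨆ k, (Tree.rank (f k) + 1)

/-- The rank at an address. -/
noncomputable def Tree.rk {J : Type} (t : Tree J) (s : List ℕ) : Ordinal.{0} :=
  match t.sub s with
  | some u => u.rank
  | none => 0

namespace NetRun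

theorem sub_nil {J : Type} (t : Tree J) : t.sub [] = some t := by
  cases t <;> rfl

theorem sub_append {J : Type} (t : Tree J) (s : List ℕ) (k : ℕ) :
    t.sub (s ++ [k]) = match t.sub s with
      | some (.nand f) => some (f k)
      | _ => none := by
  induction s generalizing t with
  | nil =>
    cases t with
    | lit l b => rfl
    | nand f =>
      rw [sub_nil]
      exact sub_nil (f k)
  | cons m s ih =>
    cases t with
    | lit l b => rfl
    | nand f => exact ih (f m)

theorem sub_child {J : Type} {t : Tree J} {s : List ℕ} {f : ℕ → Tree J}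
    (h : t.sub s = some (.nand f)) (k : ℕ) : t.sub (s ++ [k]) = some (f k) := by
  rw [sub_append, h]

theorem rk_child {J : Type} {t : Tree J} {s : List ℕ} {f : ℕ → Tree J}
    (h : t.sub s = some (.nand f)) (k : ℕ) : t.rk (s ++ [k]) = (f k).rank := by
  rw [Tree.rk, sub_child h]

theorem lt_rk {J : Type} {t : Tree J} {s : List ℕ} {f : ℕ → Tree J}
    (h : t.sub s = some (.nand f)) (b : Ordinal.{0}) :
    b < t.rk s ↔ ∃ k, b ≤ t.rk (s ++ [k]) := by
  have h1 : t.rk s = ⨆ k, ((f k).rank + 1) := by
    rw [Tree.rk, h]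
    exact Tree.rank.eq_2 f
  rw [h1, Ordinal.lt_iSup_add_one_iff]
  simp only [rk_child h]

theorem rk_lit {J : Type} {t : Tree J} {s : List ℕ} {l : J} {b : Bool}
    (h : t.sub s = some (.lit l b)) : t.rk s = 0 := by
  rw [Tree.rk, h]
  exact Tree.rank.eq_1 l b

theorem rk_none {J : Type} {t : Tree J} {s : List ℕ} (h : t.sub s = none) : t.rk s = 0 := by
  rw [Tree.rk, h]

/-- Transfer of limits superior along the time map `θ * a`. -/
theorem dilate {θ a : Ordinal.{0}} (hθ : 0 < θ) (ha : Order.IsSuccLimit a)
    (f g : Ordinal.{0} → Bool)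
    (h1 : ∀ b, b < a → ∀ d, d < θ → f (θ * b + d) = true → g b = true ∨ g (b + 1) = true)
    (h2 : ∀ b, b < a → g b = true → f (θ * b) = true) :
    lsup (θ * a) (fun c _ => f c) = lsup a (fun c _ => g c) := by
  have hθ0 : θ ≠ 0 := hθ.ne'
  refine run_bool_ext ?_
  rw [lsup_eq_true, lsup_eq_true]
  constructor
  · intro h b hb
    obtain ⟨C, hC, hle, hv⟩ := h (θ * b) ((mul_lt_mul_iff_right₀ hθ).2 hb)
    have h3 : θ * (C / θ) + C % θ = C := Ordinal.div_add_mod C θ
    have h4 : C / θ < a := (Ordinal.lt_mul_iff_div_lt hθ0).1 hC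
    have h5 : b ≤ C / θ := (Ordinal.mul_le_iff_le_div hθ0).1 hle
    rw [← h3] at hv
    rcases h1 _ h4 _ (Ordinal.mod_lt C hθ0) hv with h6 | h6
    · exact ⟨_, h4, h5, h6⟩
    · exact ⟨_, ha.add_one_lt h4, h5.trans (le_add_right le_rfl), h6⟩
  · intro h B hB
    have h3 : B / θ < a := (Ordinal.lt_mul_iff_div_lt hθ0).1 hB
    obtain ⟨c, hc, hle, hv⟩ := h _ (ha.add_one_lt h3)
    refine ⟨θ * c, (mul_lt_mul_iff_right₀ hθ).2 hc, ?_, h2 c hc hv⟩
    have h5 : B < θ * c := (Ordinal.lt_mul_iff_div_lt hθ0).2 (Order.add_one_le_iff.1 hle)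
    exact h5.le

section
variable {J : Type} (t : Tree (Lt J)) (g : J → ℕ) (halt : J) (out : ℕ → J) (c x i : R2)

/-- The step of the network. -/
noncomputable abbrev F : (NC J → Bool) → (NC J → Bool) := fun W => netStep t g halt out W x c i

theorem lsup_const {a : Ordinal.{0}} (ha : 0 < a) (v : Bool) : lsup a (fun _ _ => v) = v := by
  cases v with
  | true =>
    rw [lsup_eq_true]
    exact fun b hb => ⟨b, hb, le_rfl, rfl⟩
  | false =>
    rw [lsup_eq_false]
    exact ⟨0, ha, fun _ _ _ => rfl⟩

/-- A bit which is eventually constant below a limit. -/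
theorem lsup_eventually {a : Ordinal.{0}} {f : (b : Ordinal.{0}) → b < a → Bool} {v : Bool}
    {b₀ : Ordinal.{0}} (hb₀ : b₀ < a) (h : ∀ b, ∀ hb : b < a, b₀ ≤ b → f b hb = v) :
    lsup a f = v := by
  cases v with
  | true =>
    rw [lsup_eq_true]
    intro b hb
    exact ⟨max b b₀, max_lt hb hb₀, le_max_left _ _, h _ _ (le_max_right _ _)⟩
  | false =>
    rw [lsup_eq_false]
    exact ⟨b₀, hb₀, fun c hc hle => h c hc hle⟩

/-- The state of the network at time `1 + b` of a big step. -/
theorem big_inv (W₀ : NC J → Bool) (Z : J → Bool) (hf : W₀ .f = true)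
    (hz : ∀ j, W₀ (.z j) = Z j) (b : Ordinal.{0}) (hb : b ≤ t.rk [] + 1) :
    iter (F t g halt out c x i) W₀ (1 + b) .f = false ∧
    (∀ j, iter (F t g halt out c x i) W₀ (1 + b) (.z j) = Z j) ∧
    (∀ s, iter (F t g halt out c x i) W₀ (1 + b) (.nd s) = true ↔ b ≤ t.rk s) ∧
    (∀ s u, t.rk s < b → t.sub s = some u →
      iter (F t g halt out c x i) W₀ (1 + b) (.U s) = u.eval (val c x Z)) := by
  induction b using Ordinal.limitRecOn with
  | zero =>
    have h1 : iter (F t g halt out c x i) W₀ (1 + 0) = F t g halt out c x i W₀ := by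
      rw [add_zero, ← zero_add (1 : Ordinal.{0}), iter_succ, iter_zero]
    rw [h1]
    refine ⟨?_, ?_, ?_, ?_⟩
    · simp [F, netStep, hf]
    · intro j
      simp [F, netStep, hf, hz]
    · intro s
      simp [F, netStep, hf]
    · intro s u h
      exact absurd h (not_lt.2 zero_le)
  | add_one b ih =>
    have hb1 : b ≤ t.rk [] := Order.lt_add_one_iff.1 (Order.add_one_le_iff.1 hb)
    obtain ⟨i1, i2, i3, i4⟩ := ih (hb1.trans (le_add_right le_rfl))
    rw [← add_assoc, iter_succ]
    set W := iter (F t g halt out c x i) W₀ (1 + b) with hW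
    have hnd : W (.nd []) = true := (i3 []).2 hb1
    refine ⟨?_, ?_, ?_, ?_⟩
    · simp [F, netStep, hnd]
    · intro j
      simp [F, netStep, hnd, i2]
    · intro s
      rcases hs : t.sub s with _ | u
      · simp [F, netStep, i1, hs, rk_none hs]
      · cases u with
        | lit l bb => simp [F, netStep, i1, hs, rk_lit hs]
        | nand f =>
          rw [Order.add_one_le_iff, lt_rk hs]
          simp only [F, netStep, i1, hs, Bool.false_or, decide_eq_true_eq]
          constructor
          · rintro ⟨k, hk⟩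
            exact ⟨k, (i3 _).1 hk⟩
          · rintro ⟨k, hk⟩
            exact ⟨k, (i3 _).2 hk⟩
    · intro s u hr hs
      rw [Order.lt_add_one_iff] at hr
      cases u with
      | lit l bb =>
        simp only [F, netStep, hs]
        have : (fun j => W (.z j)) = Z := funext i2
        rw [this]
        rw [Tree.eval.eq_1]
      | nand f =>
        simp only [F, netStep, hs]
        rw [Tree.eval.eq_2]
        have h2 : ∀ k, W (.U (s ++ [k])) = (f k).eval (val c x Z) := by
          intro k
          refine i4 (s ++ [k]) (f k) ?_ (sub_child hs k)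
          refine lt_of_lt_of_le ?_ hr
          exact (lt_rk hs _).2 ⟨k, le_rfl⟩
        exact decide_eq_decide.2 (by simp only [h2])
  | limit b hl ih =>
    have h1 : ∀ q, iter (F t g halt out c x i) W₀ (1 + b) q =
        lsup b (fun b' _ => iter (F t g halt out c x i) W₀ (1 + b') q) := by
      intro q
      rw [iter_lim _ _ (Ordinal.isSuccLimit_add 1 hl)]
      exact lsup_add hl (fun c' => iter (F t g halt out c x i) W₀ c' q)
    have hlt : ∀ b', b' < b → b' ≤ t.rk [] + 1 := fun b' h => (h.le).trans hb
    have hb0 : 0 < b := hl.bot_lt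
    refine ⟨?_, ?_, ?_, ?_⟩
    · rw [h1]
      exact lsup_eventually hb0 fun b' hb' _ => (ih b' hb' (hlt b' hb')).1
    · intro j
      rw [h1]
      exact lsup_eventually hb0 fun b' hb' _ => (ih b' hb' (hlt b' hb')).2.1 j
    · intro s
      rw [h1, lsup_eq_true]
      constructor
      · intro h
        by_contra hcon
        push Not at hcon
        obtain ⟨c', hc', hle, hv⟩ := h (t.rk s + 1) (hl.add_one_lt hcon)
        have h3 := ((ih c' hc' (hlt c' hc')).2.2.1 s).1 hv
        exact absurd (Order.add_one_le_iff.1 hle) (not_lt.2 h3)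
      · intro h b' hb'
        exact ⟨b', hb', le_rfl, ((ih b' hb' (hlt b' hb')).2.2.1 s).2 (hb'.le.trans h)⟩
    · intro s u hr hs
      rw [h1]
      refine lsup_eventually (hl.add_one_lt hr) fun b' hb' hle => ?_
      exact (ih b' hb' (hlt b' hb')).2.2.2 s u (Order.add_one_le_iff.1 hle) hs

/-- The length of a big step. -/
noncomputable def theta : Ordinal.{0} := 1 + (t.rk [] + 1) + 1

theorem theta_pos : 0 < theta t := by
  rw [theta]
  exact lt_of_lt_of_le zero_lt_one (le_add_left le_rfl)

/-- During a big step the state cells do not change. -/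
theorem big_z (W₀ : NC J → Bool) (Z : J → Bool) (hf : W₀ .f = true)
    (hz : ∀ j, W₀ (.z j) = Z j) (d : Ordinal.{0}) (hd : d < theta t) (j : J) :
    iter (F t g halt out c x i) W₀ d (.z j) = Z j := by
  rcases eq_or_ne d 0 with rfl | h0
  · rw [iter_zero, hz]
  · have h1 : 1 ≤ d := Order.one_le_iff_pos.2 (pos_iff_ne_zero.2 h0)
    have h2 : 1 + (d - 1) = d := Ordinal.add_sub_cancel_of_le h1
    rw [← h2]
    refine (big_inv t g halt out c x i W₀ Z hf hz (d - 1) ?_).2.1 j
    rw [theta, Order.lt_add_one_iff, ← h2] at hd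
    exact (add_le_add_iff_left 1).1 hd

end

/-- One big step. -/
theorem big_end {J : Type} (f : ℕ → Tree (Lt J)) (g : J → ℕ) (halt : J) (out : ℕ → J)
    (step : R2 → R2 → (J → Bool) → (J → Bool))
    (hf : ∀ j c x z, (f (g j)).eval (val c x z) = step c x z j) (c x i : R2)
    (W₀ : NC J → Bool) (Z : J → Bool) (hf₀ : W₀ .f = true)
    (hz : ∀ j, W₀ (.z j) = Z j) :
    iter (F (.nand f) g halt out c x i) W₀ (theta (.nand f)) .f = true ∧
    ∀ j, iter (F (.nand f) g halt out c x i) W₀ (theta (.nand f)) (.z j) = step c x Z j := by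
  obtain ⟨i1, i2, i3, i4⟩ := big_inv (.nand f) g halt out c x i W₀ Z hf₀ hz
    ((Tree.nand f).rk [] + 1) le_rfl
  rw [theta, iter_succ]
  set W := iter (F (.nand f) g halt out c x i) W₀ (1 + ((Tree.nand f).rk [] + 1)) with hW
  have hnd : W (.nd []) = false := by
    rw [← Bool.not_eq_true, i3]
    exact not_le.2 (Order.lt_add_one_iff.2 le_rfl)
  have hs0 : (Tree.nand f).sub [] = some (Tree.nand f) := rfl
  constructor
  · simp [F, netStep, i1, hnd]
  · intro j
    simp only [F, netStep, i1, hnd, Bool.not_false, Bool.and_self, if_true]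
    rw [← hf]
    refine i4 [g j] (f (g j)) ?_ ?_
    · have := (lt_rk hs0 ((Tree.nand f).rk ([] ++ [g j]))).2 ⟨g j, le_rfl⟩
      exact this.trans (Order.lt_add_one_iff.2 le_rfl)
    · exact sub_child hs0 (g j)

end NetRun

open NetRun in
theorem net_run {J : Type} (f : ℕ → Tree (Lt J)) (g : J → ℕ) (halt : J) (out : ℕ → J)
    (step : R2 → R2 → (J → Bool) → (J → Bool))
    (hf : ∀ j c x z, (f (g j)).eval (val c x z) = step c x z j) (c x i : R2) (z0 : J → Bool) :
    ∃ θ : Ordinal.{0}, 0 < θ ∧ ∀ a,
      (iter (fun W => netStep (.nand f) g halt out W x c i) (netInit z0) (θ * a) .f = true ∧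
      ∀ j, iter (fun W => netStep (.nand f) g halt out W x c i) (netInit z0) (θ * a) (.z j) =
        iter (step c x) z0 a j) ∧
      ∀ d, d < θ → ∀ j,
        iter (fun W => netStep (.nand f) g halt out W x c i) (netInit z0) (θ * a + d) (.z j) =
          iter (step c x) z0 a j := by
  have hθ := theta_pos (Tree.nand f)
  refine ⟨theta (.nand f), hθ, ?_⟩
  set θ := theta (Tree.nand f) with hθd
  have key : ∀ a, iter (F (.nand f) g halt out c x i) (netInit z0) (θ * a) .f = true ∧
      ∀ j, iter (F (.nand f) g halt out c x i) (netInit z0) (θ * a) (.z j) =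
        iter (step c x) z0 a j := by
    intro a
    induction a using Ordinal.limitRecOn with
    | zero =>
      rw [mul_zero, iter_zero, iter_zero]
      exact ⟨rfl, fun j => rfl⟩
    | add_one a ih =>
      obtain ⟨h1, h2⟩ := ih
      rw [mul_add_one, iter_add, iter_succ]
      exact big_end f g halt out step hf c x i _ _ h1 h2
    | limit a hl ih =>
      have hll := Ordinal.isSuccLimit_mul_right hθ hl
      rw [iter_lim _ _ hll, iter_lim _ _ hl]
      constructor
      · change lsup (θ * a)
          (fun b _ => iter (F (.nand f) g halt out c x i) (netInit z0) b .f) = true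
        rw [dilate hθ hl
          (fun b => iter (F (.nand f) g halt out c x i) (netInit z0) b .f) (fun _ => true)
          (fun b hb d hd _ => Or.inl rfl) (fun b hb _ => (ih b hb).1)]
        exact lsup_const hl.bot_lt true
      · intro j
        refine dilate hθ hl
          (fun b => iter (F (.nand f) g halt out c x i) (netInit z0) b (.z j))
          (fun b => iter (step c x) z0 b j) ?_ ?_
        · intro b hb d hd h
          left
          obtain ⟨h1, h2⟩ := ih b hb
          rw [← h, iter_add]
          exact (big_z _ g halt out c x i _ _ h1 h2 d hd j).symm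
        · intro b hb h
          rw [← h]
          exact (ih b hb).2 j
  intro a
  refine ⟨key a, ?_⟩
  intro d hd j
  obtain ⟨h1, h2⟩ := key a
  rw [iter_add]
  exact big_z _ g halt out c x i _ _ h1 h2 d hd j

end Pool.Agent.Helper78.ITTM
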