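import Pool.Agent.Helper78.ITTM.Stream

/-! Codes of micro-instruction streams and of open operators. -/

namespace Pool.Agent.Helper78.ITTM

/-- Encoding of a micro-instruction by four bits. -/
def Op.enc : Op → Fin 4 → Bool
  | .nop => ![false, false, false, false]
  | .R => ![true, false, false, false]
  | .L => ![false, true, false, false]
  | .emit => ![true, true, false, false]
  | .lit d s => ![decide (d = 1 ∨ d = 3), decide (d = 2 ∨ d = 3), s, true]

theorem Op.dec_enc (o : Op) : Op.dec o.enc = o := by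
  cases o with
  | nop => rfl
  | R => rfl
  | L => rfl
  | emit => rfl
  | lit d s => fin_cases d <;> cases s <;> rfl

theorem code_stream (s : ℕ → Op) : ∃ c : R2, ∀ y, ev y = c → ops y = s := by
  refine ⟨fun i => (s (i / 4)).enc ⟨i % 4, Nat.mod_lt _ (by norm_num)⟩, fun y hy => ?_⟩
  funext j
  have h : (fun t : Fin 4 => y (8 * j + 2 * t.1)) = (s j).enc := by
    funext t
    have h1 := congrFun hy (4 * j + t.1)
    simp only [ev] at h1
    have h2 : 2 * (4 * j + t.1) = 8 * j + 2 * t.1 := by ring
    have h3 : (4 * j + t.1) / 4 = j := by have := t.2; omega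
    have h4 : (4 * j + t.1) % 4 = t.1 := by have := t.2; omega
    rw [h2] at h1
    rw [h1, h3]
    congr 1
    exact Fin.ext h4
  unfold ops
  rw [h, Op.dec_enc]

theorem open_code (G : R2 → R2 → R2 → R2 → R2)
    (hG : ∀ i, IsOpen {p : R2 × R2 × R2 × R2 | G p.1 p.2.1 p.2.2.1 p.2.2.2 i = true}) :
    ∃ c, ∀ W x y i, ev y = c → Psi (ops y) (trk W x y i) = G W x c i := by
  obtain ⟨s, hs⟩ := stream (fun D => G (D 0) (D 1) (ev (D 2)) (D 3)) (fun i => by
    have hev : Continuous (fun y : R2 => ev y) :=
      continuous_pi (fun n => continuous_apply (2 * n))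
    have hc : Continuous (fun D : Fin 4 → R2 => ((D 0, D 1, ev (D 2), D 3) : R2 × R2 × R2 × R2)) :=
      (continuous_apply 0).prodMk ((continuous_apply 1).prodMk
        ((hev.comp (continuous_apply 2)).prodMk (continuous_apply 3)))
    exact (hG i).preimage hc)
  obtain ⟨c, hc⟩ := code_stream s
  refine ⟨c, fun W x y i hy => ?_⟩
  rw [hc y hy, hs, ← hy]
  rfl

end Pool.Agent.Helper78.ITTM
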