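import Pool.Agent.Helper78.ITTM.Defs

/-! The abstract 14-track program: stage 1 computes a real `y` from the oracle with a given
official program, stage 2 iterates the open operator coded by a stream of micro-instructions. -/

namespace Pool.Agent.Helper78.ITTM

/-- Micro-instructions. -/
inductive Op
  | nop | R | L | emit
  | lit (d : Fin 4) (s : Bool)
deriving DecidableEq

/-- Decoding of four bits to a micro-instruction. -/
def Op.dec (v : Fin 4 → Bool) : Op :=
  if v 3 then .lit (if v 0 then (if v 1 then 3 else 1) else (if v 1 then 2 else 0)) (v 2)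
  else if v 0 then (if v 1 then .emit else .R) else (if v 1 then .L else .nop)

/-- The micro-instruction stream coded by (the even cells of) `y`. -/
def ops (y : R2) (j : ℕ) : Op := Op.dec (fun t => y (8 * j + 2 * t.1))

/-- The four data tracks: `W`, the oracle `x`, the real `y`, the input. -/
def trk (W x y i : R2) (d : Fin 4) : R2 := ![W, x, y, i] d

/-- Effect of a micro-instruction on (position, register). -/
def Op.act (D : Fin 4 → R2) : Op → ℕ × Bool → ℕ × Bool
  | .nop, p => p
  | .R, p => (p.1 + 1, p.2)
  | .L, p => (p.1 - 1, p.2)
  | .emit, p => (p.1, true)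
  | .lit d s, p => (p.1, p.2 && (D d p.1 == s))

/-- Position and register after `j` micro-instructions. -/
def sem (s : ℕ → Op) (D : Fin 4 → R2) : ℕ → ℕ × Bool
  | 0 => (0, true)
  | j + 1 => (s j).act D (sem s D j)

/-- The operator computed by a stream. -/
noncomputable def Psi (s : ℕ → Op) (D : Fin 4 → R2) : R2 :=
  fun i => open Classical in decide (∃ j, s j = Op.emit ∧ sem s D j = (i, true))

/-- The input `n` as a real. -/
def inp (n : ℕ) : R2 := fun i => decide (i < n)

/-- A finite pattern as a real. -/
def pat (a : List Bool) : R2 := fun i => a.getD i false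

/-- The stage 2 iteration. -/
noncomputable def W2 (a : List Bool) (x y : R2) (n : ℕ) (t : Ordinal.{0}) : R2 :=
  iter (fun W => Psi (ops y) (trk W x y (inp n))) (pat a) t

/-! Tracks: 0 oracle, 1 input, 2 3 4 tapes of `e`, 5 `y`, 6 `W`, 7 `N`, 8 marker `P`,
9 marker `Q`, 10 mark of cell 0, 11 12 flags, 13 stage. -/

/-- States of the abstract program. -/
inductive S2 (k L : ℕ)
  | lim | clean1 | wr | backRun
  | run (q : Fin (k + 3))
  | st (b : Bool)
  | mv | bk
  | ini (j : Fin (L + 1))
  | bini | clean2 | copy
  | fetch (r : Bool)
  | rdi (r : Bool) (t : Fin 9) (v : Fin 4 → Bool)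
  | bk2 (r : Bool) (v : Fin 4 → Bool)
  | go (r : Bool) (v : Fin 4 → Bool)
  | pr (r : Bool)
  | bkf (r : Bool)
  | o1
  | hlt (b : Bool)

abbrev V14 : Type := Fin 14 → Bool

/-- Set one symbol. -/
def put (v : V14) (k : Fin 14) (b : Bool) : V14 := Function.update v k b

/-- Clear the three tapes of `e`. -/
def clrE (v : V14) : V14 := put (put (put v 2 false) 3 false) 4 false

/-- Clear `N` and the two markers. -/
def clrN (v : V14) : V14 := put (put (put v 7 false) 8 false) 9 false

/-- One simulated step of the official program `e` in state `q`. -/
def runStep (e : Prog) (L : ℕ) (q : Fin (e.k + 3)) (v : V14) : S2 e.k L × V14 × Bool :=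
  let r := e.tr q ![v 2, v 3, v 4, v 0]
  (.run r.1, put (put (put v 2 (r.2.1 0)) 3 (r.2.1 1)) 4 (r.2.1 2), r.2.2)

/-- The transition table. -/
def tr2 (e : Prog) (a : List Bool) : S2 e.k a.length → V14 → S2 e.k a.length × V14 × Bool
  | .lim, v =>
    if v 13 then
      if v 11 then
        if v 12 then
          -- start of a step
          if v 6 then (.o1, v, true)
          else (.clean2, clrN (put v 12 false), true)
        else
          -- compute pass
          (.fetch true, put (put (put (put v 11 false) 12 true) 8 true) 9 true, false)
      else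
        -- copy pass
        (.copy, put (put v 11 true) 6 (v 7), true)
    else
      if v 11 then
        if v 12 then
          -- stage 1 finished: write the pattern
          (.ini ⟨0, by omega⟩, put v 13 true, false)
        else
          -- tapes of e are clean: write the input
          if v 8 then (.run ⟨0, by omega⟩, put (put v 11 false) 12 true, false)
          else (.wr, put (put (put v 11 false) 12 true) 2 true, true)
      else
        if v 12 then runStep e a.length ⟨1, by omega⟩ v
        else (.clean1, clrE (put (put (put v 10 true) 8 true) 11 true), true)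
  | .clean1, v => (.clean1, clrE v, true)
  | .wr, v => if v 8 then (.backRun, v, false) else (.wr, put v 2 true, true)
  | .backRun, v => if v 10 then (.run ⟨0, by omega⟩, v, false) else (.backRun, v, false)
  | .run q, v =>
    if q = ⟨2, by omega⟩ then
      if v 10 then
        if v 8 then (.mv, put (put v 5 (v 4)) 8 false, true) else (.st (v 4), v, true)
      else (.run q, v, false)
    else runStep e a.length q v
  | .st b, v => if v 8 then (.mv, put (put v 5 b) 8 false, true) else (.st b, v, true)
  | .mv, v => (.bk, put v 8 true, false)
  | .bk, v =>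
    if v 10 then (.clean1, clrE (put (put v 11 true) 12 false), true) else (.bk, v, false)
  | .ini j, v =>
    if h : j.1 < a.length then (.ini ⟨j.1 + 1, by omega⟩, put v 6 (a.get ⟨j.1, h⟩), true)
    else (.bini, v, false)
  | .bini, v => if v 10 then (.lim, v, false) else (.bini, v, false)
  | .clean2, v => (.clean2, clrN v, true)
  | .copy, v => (.copy, put v 6 (v 7), true)
  | .fetch r, v =>
    if v 8 then (.rdi r ⟨1, by omega⟩ (fun _ => v 5), put v 8 false, true) else (.fetch r, v, true)
  | .rdi r t w, v =>
    if h : t.1 < 8 then
      (.rdi r ⟨t.1 + 1, by omega⟩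
        (if t.1 % 2 = 0 then Function.update w ⟨t.1 / 2, by omega⟩ (v 5) else w), v, true)
    else (.bk2 r w, put v 8 true, false)
  | .bk2 r w, v => if v 10 then (.go r w, v, false) else (.bk2 r w, v, false)
  | .go r w, v =>
    if v 9 then
      match Op.dec w with
      | .nop => (.bkf r, v, false)
      | .R => (.pr r, put v 9 false, true)
      | .L => (.pr r, put v 9 false, false)
      | .emit => (.bkf true, put v 7 (v 7 || r), false)
      | .lit d s => (.bkf (r && (![v 6, v 0, v 5, v 1] d == s)), v, false)
    else (.go r w, v, true)
  | .pr r, v => (.bkf r, put v 9 true, false)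
  | .bkf r, v => if v 10 then (.fetch r, v, false) else (.bkf r, v, false)
  | .o1, v => (.hlt (v 6), v, false)
  | .hlt b, v => (.hlt b, v, false)

/-- The abstract machine. -/
def M2 (e : Prog) (a : List Bool) : Mach (Fin 14) (S2 e.k a.length) where
  lim := .lim
  tr := tr2 e a

/-- Output function of the abstract machine. -/
def out2 {k L : ℕ} : S2 k L → Option Bool
  | .hlt b => some b
  | _ => none

/-- Start configuration of an abstract machine with oracle `x` (track 0) and input `n`
(track 1). -/
def start2 {K : ℕ} {Q : Type} (M : Mach (Fin K) Q) (x : R2) (n : ℕ) : Cfg (Fin K) Q where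
  q := M.lim
  h := 0
  T := fun k i => if k.1 = 0 then x i else if k.1 = 1 then inp n i else false

/-- An abstract machine with output function `out` halts with output `b`. -/
def Halts2 {K : ℕ} {Q : Type} (M : Mach (Fin K) Q) (out : Q → Option Bool) (x : R2) (n : ℕ)
    (b : Bool) : Prop :=
  ∃ t, out (M.run (start2 M x n) t).q = some b ∧ (M.run (start2 M x n) t).h = 0 ∧
    ∀ s, s < t → out (M.run (start2 M x n) s).q = none

end Pool.Agent.Helper78.ITTM
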