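import Pool.Agent.Helper78.ITTM.TreeMeas

/-! Trees for all coordinates of a Borel step. -/

namespace Pool.Agent.Helper78.ITTM

theorem root_tree {J : Type} [Countable J] (j0 : J) (step : R2 → R2 → (J → Bool) → (J → Bool))
    (meas : Measurable (fun p : R2 × R2 × (J → Bool) => step p.1 p.2.1 p.2.2)) :
    ∃ (f : ℕ → Tree (Lt J)) (g : J → ℕ), ∀ j c x z, (f (g j)).eval (val c x z) = step c x z j := by
  have key : ∀ j : J, ∃ t : Tree (Lt J), ∀ v, t.eval v = true ↔
      v ∈ {v : Lt J → Bool | step (fun i => v (.inr (.inl i))) (fun i => v (.inr (.inr i)))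
        (fun j' => v (.inl j')) j = true} := by
    intro j
    have : Nonempty (Lt J) := ⟨.inl j0⟩
    refine tree_of_measurable ?_
    have h1 : Measurable (fun v : Lt J → Bool =>
        (((fun i => v (.inr (.inl i))), (fun i => v (.inr (.inr i))), (fun j' => v (.inl j'))) :
          R2 × R2 × (J → Bool))) := by
      refine Measurable.prodMk ?_ (Measurable.prodMk ?_ ?_)
      · exact measurable_pi_lambda _ (fun i => measurable_pi_apply _)
      · exact measurable_pi_lambda _ (fun i => measurable_pi_apply _)
      · exact measurable_pi_lambda _ (fun i => measurable_pi_apply _)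
    have h2 : Measurable (fun v : Lt J → Bool => step (fun i => v (.inr (.inl i)))
        (fun i => v (.inr (.inr i))) (fun j' => v (.inl j')) j) :=
      (measurable_pi_apply j).comp (meas.comp h1)
    exact h2 (measurableSet_singleton true)
  choose t ht using key
  obtain ⟨g, hg⟩ := exists_injective_nat J
  have : Nonempty J := ⟨j0⟩
  refine ⟨fun n => t (Function.invFun g n), g, fun j c x z => ?_⟩
  have h : Function.invFun g (g j) = j := Function.leftInverse_invFun hg j
  beta_reduce
  rw [h]
  have h' := ht j (val c x z)
  have e : step (fun i => val c x z (.inr (.inl i))) (fun i => val c x z (.inr (.inr i)))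
      (fun j' => val c x z (.inl j')) j = step c x z j := rfl
  rw [Set.mem_ofPred_eq, e] at h'
  cases h1 : (t j).eval (val c x z) <;> cases h2 : step c x z j <;> simp_all

end Pool.Agent.Helper78.ITTM
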