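import Pool.Agent.Helper78.ITTM.Abstract
import Pool.Agent.Helper78.ITTM.OpenCode
import Pool.Agent.Helper78.ITTM.RootTree
import Pool.Agent.Helper78.ITTM.NetOpen
import Pool.Agent.Helper78.ITTM.NetRun

/-! Realisation of one Borel iteration by official machines: module T5. -/

namespace Pool.Agent.Helper78.ITTM

open Ordinal

/-- Transport of an iteration along a bijection of the cells. -/
theorem iter_conj {A B : Type} (E : A ≃ B) (F : (A → Bool) → (A → Bool)) (w : A → Bool)
    (t : Ordinal.{0}) :
    iter (fun W : B → Bool => fun n => F (fun q => W (E q)) (E.symm n))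
      (fun n => w (E.symm n)) t = fun n => iter F w t (E.symm n) := by
  induction t using Ordinal.limitRecOn with
  | zero => rw [iter_zero, iter_zero]
  | add_one a ih =>
    rw [iter_succ, iter_succ, ih]
    funext n
    simp
  | limit a ha ih =>
    rw [iter_lim _ _ ha, iter_lim _ _ ha]
    funext n
    congr 1
    funext b hb
    rw [ih b hb]

/-- A finitely supported real is a pattern. -/
theorem exists_pat (u : R2) (hu : {n | u n = true}.Finite) : ∃ a : List Bool, pat a = u := by
  obtain ⟨N, hN⟩ := hu.bddAbove
  refine ⟨(List.range (N + 1)).map u, ?_⟩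
  funext n
  unfold pat
  rcases lt_or_ge n (N + 1) with h | h
  · rw [List.getD_eq_getElem _ _ (by simpa using h)]
    simp
  · rw [List.getD_eq_default _ _ (by simpa using h)]
    cases hb : u n with
    | false => rfl
    | true =>
      have := hN (show n ∈ {n | u n = true} from hb)
      omega

theorem realise_one {J : Type} [Countable J] (step : R2 → R2 → (J → Bool) → (J → Bool))
    (meas : Measurable (fun p : R2 × R2 × (J → Bool) => step p.1 p.2.1 p.2.2)) (halt : J)
    (out : ℕ → J) :
    ∃ c : R2, ∀ z0 : J → Bool, {j | z0 j = true}.Finite → ∀ x v, Above c x →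
      ItHalts (step c x) halt out z0 v → Le v x := by
  obtain ⟨f, g, hf⟩ := root_tree halt step meas
  obtain ⟨E, hE0, hE1⟩ := net_equiv J
  obtain ⟨c, hc⟩ := open_code
    (fun W x c i n => netStep (.nand f) g halt out (fun q => W (E q)) x c i (E.symm n))
    (fun i => net_open (.nand f) g halt out E i)
  refine ⟨c, ?_⟩
  intro z0 hz0 x v hab hit
  obtain ⟨y, hy, e, he⟩ := hab
  obtain ⟨a, ha, hb, hv⟩ := hit
  obtain ⟨p, hp⟩ := exists_pat (fun n => netInit z0 (E.symm n)) (by
    have h1 : {q : NC J | netInit z0 q = true}.Finite := by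
      refine ((hz0.image NC.z).union (Set.finite_singleton NC.f)).subset ?_
      intro q hq
      cases q with
      | H => exact absurd hq (by simp [netInit])
      | R1 => exact absurd hq (by simp [netInit])
      | f => exact Or.inr rfl
      | z j => exact Or.inl ⟨j, hq, rfl⟩
      | U s => exact absurd hq (by simp [netInit])
      | nd s => exact absurd hq (by simp [netInit])
    refine (h1.image E).subset ?_
    intro n hn
    exact ⟨E.symm n, hn, by simp⟩)
  obtain ⟨P, hP⟩ := lsc_official e p
  refine ⟨P, fun n => hP x y n (v n) he ?_⟩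
  obtain ⟨θ, hθ, hr⟩ := net_run f g halt out step hf c x (inp n) z0
  have key : ∀ t, W2 p x y n t = fun m =>
      iter (fun W => netStep (.nand f) g halt out W x c (inp n)) (netInit z0) t (E.symm m) := by
    intro t
    have h1 : (fun W => Psi (ops y) (trk W x y (inp n))) = fun W : ℕ → Bool => fun m =>
        (fun W => netStep (.nand f) g halt out W x c (inp n)) (fun q => W (E q)) (E.symm m) := by
      funext W
      rw [hc W x y (inp n) hy]
    unfold W2
    rw [h1, hp]
    exact iter_conj E (fun W => netStep (.nand f) g halt out W x c (inp n)) (netInit z0) t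
  have sE0 : E.symm 0 = .H := by rw [← hE0]; simp
  have sE1 : E.symm 1 = .R1 := by rw [← hE1]; simp
  set It := iter (fun W => netStep (.nand f) g halt out W x c (inp n)) (netInit z0) with hIt
  have hfalse : ∀ s, s ≤ θ * a → It s .H = false := by
    intro s
    induction s using Ordinal.limitRecOn with
    | zero => intro _; rw [hIt, iter_zero]; rfl
    | add_one s ih =>
      intro hs
      have hs' : s < θ * a := lt_of_lt_of_le (Order.lt_add_one_iff.2 le_rfl) hs
      rw [hIt, iter_succ, ← hIt]
      show It s (.z halt) = false
      have h1 := Ordinal.div_add_mod s θ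
      have h2 : s / θ < a := (Ordinal.lt_mul_iff_div_lt hθ.ne').1 hs'
      rw [← h1, (hr (s / θ)).2 _ (Ordinal.mod_lt _ hθ.ne') halt]
      exact hb _ h2
    | limit s hs ih =>
      intro hle
      rw [hIt, iter_lim _ _ hs, lsup_eq_false]
      refine ⟨0, ?_, fun b hb' _ => ?_⟩
      · exact hs.bot_lt
      · exact ih b hb' (hb'.le.trans hle)
  refine ⟨θ * a + 1, ?_, ?_, ?_⟩
  · rw [key]
    show It (θ * a + 1) (E.symm 0) = true
    rw [sE0, hIt, iter_succ, ← hIt]
    show It (θ * a) (.z halt) = true
    rw [((hr a).1).2 halt]
    exact ha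
  · intro s hs
    rw [key]
    show It s (E.symm 0) = false
    rw [sE0]
    exact hfalse s (Order.lt_add_one_iff.1 hs)
  · rw [key]
    show It (θ * a + 1) (E.symm 1) = v n
    rw [sE1, hIt, iter_succ, ← hIt]
    have h1 : ∀ m, (inp n m = false ∧ (∀ m', m' < m → inp n m' = true)) ↔ m = n := by
      intro m
      unfold inp
      constructor
      · rintro ⟨h1, h2⟩
        by_contra hne
        have h3 : ¬ m < n := by simpa using h1
        have h4 : n < m := by omega
        have := h2 n h4
        simp at this
      · rintro rfl
        simp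
    have h2 : (∃ m, inp n m = false ∧ (∀ m', m' < m → inp n m' = true) ∧
        It (θ * a) (.z (out m)) = true) ↔ v n = true := by
      constructor
      · rintro ⟨m, hm1, hm2, hm3⟩
        have := (h1 m).1 ⟨hm1, hm2⟩
        subst this
        rw [((hr a).1).2, hv] at hm3
        exact hm3
      · intro h
        have h3 := (h1 n).2 rfl
        refine ⟨n, h3.1, h3.2, ?_⟩
        rw [((hr a).1).2, hv]
        exact h
    refine Bool.eq_iff_iff.2 (Iff.trans ?_ h2)
    exact @decide_eq_true_iff (∃ m, inp n m = false ∧ (∀ m', m' < m → inp n m' = true) ∧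
        It (θ * a) (.z (out m)) = true) (Classical.propDecidable _)

end Pool.Agent.Helper78.ITTM
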