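import Pool.Agent.Helper78.ITTM.St1c

/-! Module A5: `x` is decidable in `x`. -/

namespace Pool.Agent.Helper78.ITTM

open Ordinal

namespace Refl

/-- Transition table of the identity program. -/
def idTr (q : Fin 5) (v : Fin 4 → Bool) : Fin 5 × (Fin 3 → Bool) × Bool :=
  match q with
  | 0 => if v 0 then (3, ![v 0, true, v 2], true) else (2, ![v 0, v 1, v 3], false)
  | 3 => if v 0 then (3, ![v 0, v 1, v 2], true)
      else (if v 3 then (4, ![v 0, v 1, v 2], false) else (2, ![v 0, v 1, v 2], false))
  | 4 => if v 1 then (2, ![v 0, v 1, true], false) else (4, ![v 0, v 1, v 2], false)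
  | q => (q, ![v 0, v 1, v 2], false)

/-- The identity program. -/
def idP : Prog where
  k := 2
  tr := idTr

/-- The tapes during the run for `n > 0`. -/
def tp (n : ℕ) (b : Bool) : Fin 3 → ℕ → Bool :=
  ![fun j => decide (j < n), fun j => decide (j = 0), fun j => b && decide (j = 0)]

theorem idP_nat_succ (x : R2) (n i : ℕ) :
    idP.run x n ((i + 1 : ℕ) : Ordinal.{0}) = idP.step x (idP.run x n (i : Ordinal.{0})) := by
  rw [← St1c.prun_succ]
  norm_cast

theorem idP_zero (x : R2) (n : ℕ) : idP.run x n ((0 : ℕ) : Ordinal.{0}) = idP.init n := by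
  rw [Nat.cast_zero]
  exact St1c.prun_zero _ _ _

theorem id_first (x : R2) (n : ℕ) (hn : 0 < n) :
    idP.run x n ((1 : ℕ) : Ordinal.{0}) = ⟨(3 : Fin 5), 1, tp n false⟩ := by
  rw [idP_nat_succ, idP_zero]
  have hr : idTr (0 : Fin 5) ((idP.init n).read x) =
      (3, ![true, true, false], true) := by
    have h0 : (idP.init n).read x 0 = true := by
      show decide ((0 : Fin 3) = 0 ∧ 0 < n) = true
      simp [hn]
    have h2 : (idP.init n).read x 2 = false := by
      show decide ((2 : Fin 3) = 0 ∧ 0 < n) = false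
      simp
    unfold idTr
    simp only [h0, h2]
    rfl
  have hstep : idP.step x (idP.init n) =
      ⟨(idTr (0 : Fin 5) ((idP.init n).read x)).1,
        if (idTr (0 : Fin 5) ((idP.init n).read x)).2.2 then 0 + 1 else 0 - 1,
        fun i => Function.update ((idP.init n).T i) 0
          ((idTr (0 : Fin 5) ((idP.init n).read x)).2.1 i)⟩ := rfl
  rw [hstep, hr]
  congr 1
  funext i j
  fin_cases i
  · show Function.update (fun j => decide ((0 : Fin 3) = 0 ∧ j < n)) 0 true j = decide (j < n)
    by_cases hj : j = 0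
    · subst hj; simp [hn]
    · simp [Function.update_of_ne hj]
  · show Function.update (fun j => decide ((1 : Fin 3) = 0 ∧ j < n)) 0 true j = decide (j = 0)
    by_cases hj : j = 0
    · subst hj; simp
    · simp [Function.update_of_ne hj, hj]
  · show Function.update (fun j => decide ((2 : Fin 3) = 0 ∧ j < n)) 0 false j =
      (false && decide (j = 0))
    by_cases hj : j = 0
    · subst hj; simp
    · simp [Function.update_of_ne hj]

/-- A step that writes back the symbols read. -/
theorem id_same (x : R2) (n : ℕ) (b : Bool) (q q' : Fin 5) (h : ℕ) (mv : Bool)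
    (ht : idTr q ((⟨q, h, tp n b⟩ : Conf 2).read x) =
      (q', ![tp n b 0 h, tp n b 1 h, tp n b 2 h], mv)) :
    idP.step x ⟨q, h, tp n b⟩ = ⟨q', if mv then h + 1 else h - 1, tp n b⟩ := by
  have hstep : idP.step x ⟨q, h, tp n b⟩ =
      ⟨(idTr q ((⟨q, h, tp n b⟩ : Conf 2).read x)).1,
        if (idTr q ((⟨q, h, tp n b⟩ : Conf 2).read x)).2.2 then h + 1 else h - 1,
        fun i => Function.update (tp n b i) h
          ((idTr q ((⟨q, h, tp n b⟩ : Conf 2).read x)).2.1 i)⟩ := rfl
  rw [hstep, ht]
  congr 1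
  funext i
  fin_cases i
  · exact Function.update_eq_self _ _
  · exact Function.update_eq_self _ _
  · exact Function.update_eq_self _ _

theorem id_right (x : R2) (n : ℕ) (i : ℕ) (hi : i < n) :
    idP.run x n ((i + 1 : ℕ) : Ordinal.{0}) = ⟨(3 : Fin 5), i + 1, tp n false⟩ := by
  induction i with
  | zero => exact id_first x n hi
  | succ i ih =>
    rw [idP_nat_succ, ih (by omega)]
    have := id_same x n false 3 3 (i + 1) true (by
      have h0 : (⟨(3 : Fin 5), i + 1, tp n false⟩ : Conf 2).read x 0 = true := by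
        show decide (i + 1 < n) = true
        simp [hi]
      show (if (⟨(3 : Fin 5), i + 1, tp n false⟩ : Conf 2).read x 0 then _ else _) = _
      rw [if_pos h0]
      rfl)
    rw [this]
    rfl

theorem id_left (x : R2) (n : ℕ) (hn : 0 < n) (hx : x n = true) (i : ℕ) (hi : i < n) :
    idP.run x n ((n + 1 + i : ℕ) : Ordinal.{0}) = ⟨(4 : Fin 5), n - 1 - i, tp n false⟩ := by
  induction i with
  | zero =>
    obtain ⟨m, rfl⟩ : ∃ m, n = m + 1 := ⟨n - 1, by omega⟩
    show idP.run x (m + 1) ((m + 1 + 1 : ℕ) : Ordinal.{0}) = _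
    rw [idP_nat_succ, id_right x (m + 1) m (by omega)]
    have := id_same x (m + 1) false 3 4 (m + 1) false (by
      have h0 : (⟨(3 : Fin 5), m + 1, tp (m + 1) false⟩ : Conf 2).read x 0 = false := by
        show decide (m + 1 < m + 1) = false
        simp
      have h3 : (⟨(3 : Fin 5), m + 1, tp (m + 1) false⟩ : Conf 2).read x 3 = true := hx
      show (if (⟨(3 : Fin 5), m + 1, tp (m + 1) false⟩ : Conf 2).read x 0 then _
        else (if (⟨(3 : Fin 5), m + 1, tp (m + 1) false⟩ : Conf 2).read x 3 then _ else _)) = _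
      rw [if_neg (by rw [h0]; decide), if_pos h3]
      rfl)
    rw [this]
    rfl
  | succ i ih =>
    show idP.run x n ((n + 1 + i + 1 : ℕ) : Ordinal.{0}) = _
    rw [idP_nat_succ, ih (by omega)]
    have := id_same x n false 4 4 (n - 1 - i) false (by
      have h1 : (⟨(4 : Fin 5), n - 1 - i, tp n false⟩ : Conf 2).read x 1 = false := by
        show decide (n - 1 - i = 0) = false
        have : n - 1 - i ≠ 0 := by omega
        simp [this]
      show (if (⟨(4 : Fin 5), n - 1 - i, tp n false⟩ : Conf 2).read x 1 then _ else _) = _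
      rw [if_neg (by rw [h1]; decide)]
      rfl)
    rw [this]
    congr 1

theorem nat_of_lt {b : Ordinal.{0}} {N : ℕ} (h : b < (N : Ordinal.{0})) :
    ∃ m : ℕ, m < N ∧ b = m := by
  obtain ⟨m, rfl⟩ := Ordinal.lt_omega0.1 (h.trans (Ordinal.natCast_lt_omega0 N))
  exact ⟨m, by exact_mod_cast h, rfl⟩

theorem fne02 : (⟨0, by omega⟩ : Fin 5) ≠ ⟨2, by omega⟩ := by decide

theorem fne32 : (3 : Fin 5) ≠ ⟨2, by omega⟩ := by decide

theorem fne42 : (4 : Fin 5) ≠ ⟨2, by omega⟩ := by decide

theorem id_halts_zero (x : R2) : Halts idP x 0 (x 0).toNat := by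
  have h1 : idP.run x 0 ((1 : ℕ) : Ordinal.{0}) =
      ⟨(2 : Fin 5), 0, fun i => Function.update ((idP.init 0).T i) 0
        ((![false, false, x 0] : Fin 3 → Bool) i)⟩ := by
    rw [idP_nat_succ, idP_zero]
    have hr : idTr (0 : Fin 5) ((idP.init 0).read x) =
        (2, ![false, false, x 0], false) := by
      have h0 : (idP.init 0).read x 0 = false := by
        show decide ((0 : Fin 3) = 0 ∧ 0 < 0) = false
        simp
      have h1 : (idP.init 0).read x 1 = false := by
        show decide ((1 : Fin 3) = 0 ∧ 0 < 0) = false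
        simp
      have h3 : (idP.init 0).read x 3 = x 0 := rfl
      unfold idTr
      simp only [h0, h1, h3]
      rfl
    have hstep : idP.step x (idP.init 0) =
        ⟨(idTr (0 : Fin 5) ((idP.init 0).read x)).1,
          if (idTr (0 : Fin 5) ((idP.init 0).read x)).2.2 then 0 + 1 else 0 - 1,
          fun i => Function.update ((idP.init 0).T i) 0
            ((idTr (0 : Fin 5) ((idP.init 0).read x)).2.1 i)⟩ := rfl
    rw [hstep, hr]
    rfl
  refine ⟨((1 : ℕ) : Ordinal.{0}), ?_, ?_, ?_⟩
  · rw [h1]; rfl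
  · intro b hb
    obtain ⟨m, hm, rfl⟩ := nat_of_lt hb
    obtain rfl : m = 0 := by omega
    rw [idP_zero]
    show (⟨0, by omega⟩ : Fin 5) ≠ ⟨2, by omega⟩
    decide
  · intro j
    rw [h1]
    show Function.update (fun j => decide ((2 : Fin 3) = 0 ∧ j < 0)) 0 (x 0) j =
      decide (j < (x 0).toNat)
    by_cases hj : j = 0
    · subst hj
      cases x 0 <;> simp
    · rw [Function.update_of_ne hj]
      cases x 0 <;> simp <;> omega

theorem id_halts_pos (x : R2) (n : ℕ) (hn : 0 < n) : Halts idP x n (x n).toNat := by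
  obtain ⟨m, rfl⟩ : ∃ m, n = m + 1 := ⟨n - 1, by omega⟩
  have hq0 : ∀ i : ℕ, i < m + 2 →
      (idP.run x (m + 1) (i : Ordinal.{0})).q ≠ (⟨2, by omega⟩ : Fin 5) := by
    intro i hi
    cases i with
    | zero =>
      rw [idP_zero]
      exact fne02
    | succ i =>
      rw [id_right x (m + 1) i (by omega)]
      exact fne32
  cases hx : x (m + 1) with
  | false =>
    have h1 : idP.run x (m + 1) ((m + 1 + 1 : ℕ) : Ordinal.{0}) =
        ⟨(2 : Fin 5), m, tp (m + 1) false⟩ := by
      rw [idP_nat_succ, id_right x (m + 1) m (by omega)]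
      have := id_same x (m + 1) false 3 2 (m + 1) false (by
        have h0 : (⟨(3 : Fin 5), m + 1, tp (m + 1) false⟩ : Conf 2).read x 0 = false := by
          show decide (m + 1 < m + 1) = false
          simp
        have h3 : (⟨(3 : Fin 5), m + 1, tp (m + 1) false⟩ : Conf 2).read x 3 = false := hx
        show (if (⟨(3 : Fin 5), m + 1, tp (m + 1) false⟩ : Conf 2).read x 0 then _
          else (if (⟨(3 : Fin 5), m + 1, tp (m + 1) false⟩ : Conf 2).read x 3 then _
            else _)) = _
        rw [if_neg (by rw [h0]; decide), if_neg (by rw [h3]; decide)]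
        rfl)
      rw [this]
      rfl
    refine ⟨((m + 1 + 1 : ℕ) : Ordinal.{0}), ?_, ?_, ?_⟩
    · rw [h1]; rfl
    · intro b hb
      obtain ⟨i, hi, rfl⟩ := nat_of_lt hb
      exact hq0 i hi
    · intro j
      rw [h1]
      show (false && decide (j = 0)) = decide (j < 0)
      simp
  | true =>
    have h0 := id_left x (m + 1) hn hx m (by omega)
    have h1 : idP.run x (m + 1) ((m + 1 + 1 + m + 1 : ℕ) : Ordinal.{0}) =
        ⟨(2 : Fin 5), 0, fun i => Function.update (tp (m + 1) false i) 0
          ((![true, true, true] : Fin 3 → Bool) i)⟩ := by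
      rw [idP_nat_succ, h0]
      have hz : m + 1 - 1 - m = 0 := by omega
      rw [hz]
      rfl
    refine ⟨((m + 1 + 1 + m + 1 : ℕ) : Ordinal.{0}), ?_, ?_, ?_⟩
    · rw [h1]; rfl
    · intro b hb
      obtain ⟨i, hi, rfl⟩ := nat_of_lt hb
      by_cases h : i < m + 2
      · exact hq0 i h
      · obtain ⟨l, rfl⟩ : ∃ l, i = m + 1 + 1 + l := ⟨i - (m + 2), by omega⟩
        rw [id_left x (m + 1) hn hx l (by omega)]
        exact fne42
    · intro j
      rw [h1]
      show Function.update (fun j => false && decide (j = 0)) 0 true j = decide (j < 1)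
      by_cases hj : j = 0
      · subst hj; simp
      · rw [Function.update_of_ne hj]
        simp [hj]

end Refl

theorem le_refl' (x : R2) : Le x x := by
  refine ⟨Refl.idP, fun n => ?_⟩
  rcases Nat.eq_zero_or_pos n with rfl | hn
  · exact Refl.id_halts_zero x
  · exact Refl.id_halts_pos x n hn

end Pool.Agent.Helper78.ITTM
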