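import Pool.Agent.Helper78.ITTM.Prog2

/-! Every coordinatewise open operator is computed by a stream of micro-instructions. -/

namespace Pool.Agent.Helper78.ITTM

namespace StreamAux

open Filter Topology

/-- Execution of a list of micro-instructions. -/
def exec (D : Fin 4 → R2) (l : List Op) (p : ℕ × Bool) : ℕ × Bool :=
  l.foldl (fun q o => o.act D q) p

lemma exec_nil (D : Fin 4 → R2) (p : ℕ × Bool) : exec D [] p = p := rfl

lemma exec_cons (D : Fin 4 → R2) (o : Op) (l : List Op) (p : ℕ × Bool) :
    exec D (o :: l) p = exec D l (o.act D p) := rfl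

lemma exec_append (D : Fin 4 → R2) (l l' : List Op) (p : ℕ × Bool) :
    exec D (l ++ l') p = exec D l' (exec D l p) := by
  unfold exec
  rw [List.foldl_append]

lemma exec_R (D : Fin 4 → R2) (n : ℕ) : ∀ (p : ℕ) (r : Bool),
    exec D (List.replicate n Op.R) (p, r) = (p + n, r) := by
  induction n with
  | zero => intro p r; rfl
  | succ n ih =>
    intro p r
    rw [List.replicate_succ, exec_cons]
    show exec D (List.replicate n Op.R) (p + 1, r) = _
    rw [ih, Prod.mk.injEq]
    exact ⟨by omega, rfl⟩

lemma exec_L (D : Fin 4 → R2) (n : ℕ) : ∀ (p : ℕ) (r : Bool),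
    exec D (List.replicate n Op.L) (p + n, r) = (p, r) := by
  induction n with
  | zero => intro p r; rfl
  | succ n ih =>
    intro p r
    rw [List.replicate_succ, exec_cons]
    show exec D (List.replicate n Op.L) (p + (n + 1) - 1, r) = _
    have : p + (n + 1) - 1 = p + n := by omega
    rw [this, ih]

/-- Instructions testing one condition. -/
def cOps (c : Fin 4 × ℕ × Bool) : List Op :=
  List.replicate c.2.1 Op.R ++ Op.lit c.1 c.2.2 :: List.replicate c.2.1 Op.L

lemma exec_cOps (D : Fin 4 → R2) (c : Fin 4 × ℕ × Bool) (r : Bool) :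
    exec D (cOps c) (0, r) = (0, r && (D c.1 c.2.1 == c.2.2)) := by
  unfold cOps
  rw [exec_append, exec_R, exec_cons]
  show exec D (List.replicate c.2.1 Op.L) (0 + c.2.1, r && (D c.1 (0 + c.2.1) == c.2.2)) = _
  rw [exec_L, Nat.zero_add]

/-- The truth of a list of conditions. -/
def holds (D : Fin 4 → R2) (l : List (Fin 4 × ℕ × Bool)) : Bool :=
  l.all (fun c => D c.1 c.2.1 == c.2.2)

lemma exec_conds (D : Fin 4 → R2) (l : List (Fin 4 × ℕ × Bool)) : ∀ r : Bool,
    exec D (l.flatMap cOps) (0, r) = (0, r && holds D l) := by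
  induction l with
  | nil => intro r; simp [holds, exec]
  | cons c l ih =>
    intro r
    rw [List.flatMap_cons, exec_append, exec_cOps, ih]
    simp [holds, Bool.and_assoc]

/-- Instructions before the emission. -/
def pre (i : ℕ) (l : List (Fin 4 × ℕ × Bool)) : List Op :=
  l.flatMap cOps ++ List.replicate i Op.R

/-- A block of instructions. -/
def block (i : ℕ) (l : List (Fin 4 × ℕ × Bool)) : List Op :=
  pre i l ++ Op.emit :: List.replicate i Op.L

lemma exec_pre (D : Fin 4 → R2) (i : ℕ) (l : List (Fin 4 × ℕ × Bool)) :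
    exec D (pre i l) (0, true) = (i, holds D l) := by
  unfold pre
  rw [exec_append, exec_conds, exec_R]
  simp

lemma exec_block (D : Fin 4 → R2) (i : ℕ) (l : List (Fin 4 × ℕ × Bool)) :
    exec D (block i l) (0, true) = (0, true) := by
  unfold block
  rw [exec_append, exec_pre, exec_cons]
  show exec D (List.replicate i Op.L) (i, true) = (0, true)
  have h := exec_L D i 0 true
  rwa [Nat.zero_add] at h

lemma emit_not_mem_pre (i : ℕ) (l : List (Fin 4 × ℕ × Bool)) : Op.emit ∉ pre i l := by
  unfold pre cOps
  simp only [List.mem_append, List.mem_flatMap, List.mem_cons, List.mem_replicate]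
  rintro (⟨c, _, (⟨_, h⟩ | h | ⟨_, h⟩)⟩ | ⟨_, h⟩) <;> exact Op.noConfusion h

lemma emit_not_mem_post (i : ℕ) : Op.emit ∉ List.replicate i Op.L := by
  rw [List.mem_replicate]
  rintro ⟨_, h⟩
  exact Op.noConfusion h

lemma idx {α : Type} {x : α} {A C : List α} (hA : x ∉ A) (hC : x ∉ C) {k : ℕ}
    (h : (A ++ x :: C)[k]? = some x) : k = A.length := by
  rcases lt_trichotomy k A.length with hk | hk | hk
  · rw [List.getElem?_append_left hk] at h
    exact absurd (List.mem_of_getElem? h) hA
  · exact hk
  · rw [List.getElem?_append_right hk.le] at h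
    obtain ⟨m, hm⟩ : ∃ m, k - A.length = m + 1 := ⟨k - A.length - 1, by omega⟩
    rw [hm, List.getElem?_cons_succ] at h
    exact absurd (List.mem_of_getElem? h) hC

/-- Offsets. -/
def off (B : ℕ → List Op) : ℕ → ℕ
  | 0 => 0
  | n + 1 => off B n + (B n).length

/-- Concatenation of infinitely many nonempty lists. -/
lemma flatten (B : ℕ → List Op) (hB : ∀ n, B n ≠ []) : ∃ s : ℕ → Op,
    (∀ n k, k < (B n).length → (B n)[k]? = some (s (off B n + k))) ∧
    ∀ j, ∃ n k, k < (B n).length ∧ j = off B n + k := by
  classical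
  have hpos : ∀ n, 0 < (B n).length := fun n => List.length_pos_iff.mpr (hB n)
  have hstep : ∀ n, off B (n + 1) = off B n + (B n).length := fun n => rfl
  have hlt : ∀ n, off B n < off B (n + 1) := fun n => by rw [hstep]; have := hpos n; omega
  have hmono : StrictMono (off B) := strictMono_nat_of_lt_succ hlt
  have hge : ∀ n, n ≤ off B n := fun n => hmono.le_apply
  have huniq : ∀ n k, k < (B n).length →
      Nat.findGreatest (fun m => off B m ≤ off B n + k) (off B n + k) = n := by
    intro n k hk
    rw [Nat.findGreatest_eq_iff]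
    refine ⟨(hge n).trans (Nat.le_add_right _ _), fun _ => Nat.le_add_right _ _, ?_⟩
    intro m hm _ hle
    have h1 : off B (n + 1) ≤ off B m := hmono.monotone hm
    rw [hstep] at h1
    omega
  refine ⟨fun j => ((B (Nat.findGreatest (fun m => off B m ≤ j) j)).getD
    (j - off B (Nat.findGreatest (fun m => off B m ≤ j) j)) Op.nop), ?_, ?_⟩
  · intro n k hk
    show _ = some ((B (Nat.findGreatest (fun m => off B m ≤ off B n + k) (off B n + k))).getD
      (off B n + k - off B (Nat.findGreatest (fun m => off B m ≤ off B n + k) (off B n + k))) Op.nop)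
    rw [huniq n k hk, Nat.add_sub_cancel_left, List.getD_eq_getElem?_getD,
      List.getElem?_eq_getElem hk]
    rfl
  · intro j
    have h0 : off B 0 ≤ j := Nat.zero_le _
    refine ⟨Nat.findGreatest (fun m => off B m ≤ j) j,
      j - off B (Nat.findGreatest (fun m => off B m ≤ j) j), ?_, ?_⟩
    · have h1 : ¬ off B (Nat.findGreatest (fun m => off B m ≤ j) j + 1) ≤ j := by
        intro h2
        have h3 : Nat.findGreatest (fun m => off B m ≤ j) j + 1 ≤ j := (hge _).trans h2
        have h4 := Nat.le_findGreatest (P := fun m => off B m ≤ j) h3 h2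
        omega
      rw [hstep] at h1
      have h5 : off B (Nat.findGreatest (fun m => off B m ≤ j) j) ≤ j :=
        Nat.findGreatest_spec (P := fun m => off B m ≤ j) (Nat.zero_le j) h0
      omega
    · have h5 : off B (Nat.findGreatest (fun m => off B m ≤ j) j) ≤ j :=
        Nat.findGreatest_spec (P := fun m => off B m ≤ j) (Nat.zero_le j) h0
      omega

lemma sem_off (B : ℕ → List Op) (s : ℕ → Op) (D : Fin 4 → R2)
    (hs : ∀ n k, k < (B n).length → (B n)[k]? = some (s (off B n + k)))
    (h0 : ∀ n, exec D (B n) (0, true) = (0, true)) (n : ℕ) :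
    sem s D (off B n) = (0, true) ∧ ∀ k, k ≤ (B n).length →
      sem s D (off B n + k) = exec D ((B n).take k) (0, true) := by
  have key : ∀ n, sem s D (off B n) = (0, true) → ∀ k, k ≤ (B n).length →
      sem s D (off B n + k) = exec D ((B n).take k) (0, true) := by
    intro n hn k
    induction k with
    | zero => intro _; rw [Nat.add_zero, hn, List.take_zero]; rfl
    | succ k ih =>
      intro hk
      have hk' : k < (B n).length := by omega
      have e1 : sem s D (off B n + (k + 1)) = (s (off B n + k)).act D (sem s D (off B n + k)) := rfl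
      rw [e1, ih (by omega)]
      have e2 : (B n).take (k + 1) = (B n).take k ++ [s (off B n + k)] := by
        rw [List.take_add_one, hs n k hk']
        rfl
      rw [e2, exec_append]
      rfl
  have hall : sem s D (off B n) = (0, true) := by
    induction n with
    | zero => rfl
    | succ n ih =>
      have h1 := key n ih (B n).length le_rfl
      have e1 : off B (n + 1) = off B n + (B n).length := rfl
      rw [e1, h1, List.take_length, h0]
  exact ⟨hall, key n hall⟩

/-- Open sets are unions of cylinders. -/
lemma cyl {U : Set (Fin 4 → R2)} (hU : IsOpen U) {D : Fin 4 → R2} (hD : D ∈ U) :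
    ∃ N : ℕ, ∀ D' : Fin 4 → R2, (∀ d, ∀ p, p < N → D' d p = D d p) → D' ∈ U := by
  by_contra hcon
  push Not at hcon
  choose E hE1 hE2 using hcon
  have hlim : Tendsto E atTop (𝓝 D) := by
    rw [tendsto_pi_nhds]
    intro d
    rw [tendsto_pi_nhds]
    intro p
    apply tendsto_const_nhds.congr'
    filter_upwards [eventually_gt_atTop p] with N hN
    exact (hE1 N d p hN).symm
  have h1 : ∀ᶠ N in atTop, E N ∈ U := hlim.eventually (hU.mem_nhds hD)
  obtain ⟨N, hN⟩ := h1.exists
  exact hE2 N hN

/-- The conditions of a cylinder. -/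
def conds (D : Fin 4 → R2) (N : ℕ) : List (Fin 4 × ℕ × Bool) :=
  (List.finRange 4).flatMap (fun d => (List.range N).map (fun p => (d, p, D d p)))

lemma holds_conds (D D' : Fin 4 → R2) (N : ℕ) :
    holds D' (conds D N) = true ↔ ∀ d, ∀ p, p < N → D' d p = D d p := by
  unfold holds conds
  rw [List.all_eq_true]
  constructor
  · intro h d p hp
    have h1 := h (d, p, D d p) (by
      rw [List.mem_flatMap]
      refine ⟨d, List.mem_finRange d, ?_⟩
      rw [List.mem_map]
      exact ⟨p, List.mem_range.mpr hp, rfl⟩)
    exact eq_of_beq h1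
  · intro h c hc
    rw [List.mem_flatMap] at hc
    obtain ⟨d, _, hc⟩ := hc
    rw [List.mem_map] at hc
    obtain ⟨p, hp, rfl⟩ := hc
    rw [List.mem_range] at hp
    exact beq_iff_eq.mpr (h d p hp)

end StreamAux

open StreamAux in
theorem stream (G : (Fin 4 → R2) → R2) (hG : ∀ i, IsOpen {D : Fin 4 → R2 | G D i = true}) :
    ∃ s : ℕ → Op, ∀ D, Psi s D = G D := by
  classical
  obtain ⟨B, hBdef⟩ : ∃ B : ℕ → List Op, ∀ n, B n =
      match (Encodable.decode n : Option (ℕ × List (Fin 4 × ℕ × Bool))) with
      | some p => if ∀ D, holds D p.2 = true → G D p.1 = true then block p.1 p.2 else [Op.nop]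
      | none => [Op.nop] := ⟨_, fun n => rfl⟩
  have hcases : ∀ n, B n = [Op.nop] ∨ ∃ i l, B n = block i l ∧
      ∀ D, holds D l = true → G D i = true := by
    intro n
    rw [hBdef n]
    rcases (Encodable.decode n : Option (ℕ × List (Fin 4 × ℕ × Bool))) with _ | p
    · exact Or.inl rfl
    · by_cases h : ∀ D, holds D p.2 = true → G D p.1 = true
      · right
        refine ⟨p.1, p.2, ?_, h⟩
        show (if ∀ D, holds D p.2 = true → G D p.1 = true then block p.1 p.2 else [Op.nop]) = _
        rw [if_pos h]
      · left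
        show (if ∀ D, holds D p.2 = true → G D p.1 = true then block p.1 p.2 else [Op.nop]) = _
        rw [if_neg h]
  have hex : ∀ i l, (∀ D, holds D l = true → G D i = true) → ∃ n, B n = block i l := by
    intro i l h
    refine ⟨Encodable.encode (i, l), ?_⟩
    rw [hBdef, Encodable.encodek]
    show (if ∀ D, holds D l = true → G D i = true then block i l else [Op.nop]) = _
    rw [if_pos h]
  have hne : ∀ n, B n ≠ [] := by
    intro n
    rcases hcases n with h | ⟨i, l, h, _⟩
    · rw [h]; exact List.cons_ne_nil _ _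
    · rw [h]; unfold block; simp
  have h0 : ∀ D n, exec D (B n) (0, true) = (0, true) := by
    intro D n
    rcases hcases n with h | ⟨i, l, h, _⟩
    · rw [h]; rfl
    · rw [h]; exact exec_block D i l
  obtain ⟨s, hs, hcov⟩ := flatten B hne
  refine ⟨s, fun D => ?_⟩
  have hsem := sem_off B s D hs (h0 D)
  funext i
  rw [Bool.eq_iff_iff]
  unfold Psi
  rw [decide_eq_true_iff]
  constructor
  · rintro ⟨j, hj, hjs⟩
    obtain ⟨n, k, hk, rfl⟩ := hcov j
    have h1 := hs n k hk
    rw [hj] at h1
    rw [(hsem n).2 k hk.le] at hjs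
    rcases hcases n with h | ⟨i', l, h, hv⟩
    · rw [h] at h1
      have : Op.emit ∈ [Op.nop] := List.mem_of_getElem? h1
      rw [List.mem_singleton] at this
      exact Op.noConfusion this
    · rw [h] at h1 hjs
      have h2 : k = (pre i' l).length := idx (emit_not_mem_pre i' l) (emit_not_mem_post i') h1
      rw [h2] at hjs
      unfold block at hjs
      rw [List.take_left', exec_pre, Prod.mk.injEq] at hjs
      · rw [← hjs.1]
        exact hv D hjs.2
      · rfl
  · intro hGi
    obtain ⟨N, hN⟩ := cyl (hG i) (D := D) hGi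
    obtain ⟨n, hn⟩ := hex i (conds D N) (fun D' hD' => hN D' ((holds_conds D D' N).mp hD'))
    have hlen : (pre i (conds D N)).length < (B n).length := by
      rw [hn]
      unfold block
      rw [List.length_append, List.length_cons]
      omega
    refine ⟨off B n + (pre i (conds D N)).length, ?_, ?_⟩
    · have h1 := hs n _ hlen
      rw [hn] at h1
      unfold block at h1
      rw [List.getElem?_append_right le_rfl, Nat.sub_self, List.getElem?_cons_zero] at h1
      exact (Option.some.inj h1).symm
    · rw [(hsem n).2 _ hlen.le, hn]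
      unfold block
      rw [List.take_left' rfl, exec_pre, Prod.mk.injEq]
      exact ⟨rfl, (holds_conds D D N).mpr (fun _ _ _ => rfl)⟩

end Pool.Agent.Helper78.ITTM
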