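import Pool.Agent.Helper78.ITTM.CDefs2
import Pool.Agent.Helper78.ITTM.CompClosure
import Pool.Agent.Helper78.ITTM.Cuts

/-! Part C, module C12c: measurability of the input map of task 3. -/

namespace Pool.Agent.Helper78.ITTM

/-- The input of task 3 as a subset of the product space. -/
abbrev IT3 : Type := (ℕ ⊕ ℕ) ⊕ (ℚ × Prog × ℕ × Bool)

theorem meas_coord_t3 (p : IT3) (b : Bool) : MeasurableSet {u : IT3 → Bool | u p = b} := by
  have hm : Measurable (fun u : IT3 → Bool => u p) := measurable_pi_apply p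
  exact hm (measurableSet_singleton b)

theorem meas_tot_t3 (q : ℚ) (e : Prog) :
    MeasurableSet {u : IT3 → Bool | tot (fun p => u (Sum.inr (q, p))) e} := by
  have : {u : IT3 → Bool | tot (fun p => u (Sum.inr (q, p))) e} =
      ⋂ n : ℕ, ⋃ b : Bool, {u : IT3 → Bool | u (Sum.inr (q, e, n, b)) = true} := by
    ext u
    simp only [tot, Set.mem_ofPred_eq, Set.mem_iInter, Set.mem_iUnion]
  rw [this]
  exact MeasurableSet.iInter fun n => MeasurableSet.iUnion fun b => meas_coord_t3 _ _

theorem meas_rel_t3 (q : ℚ) (e : Prog) :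
    MeasurableSet {u : IT3 → Bool | rel (fun p => u (Sum.inr (q, p))) e =
      fun n => u (Sum.inl (Sum.inr n))} := by
  have : {u : IT3 → Bool | rel (fun p => u (Sum.inr (q, p))) e =
      fun n => u (Sum.inl (Sum.inr n))} =
      ⋂ n : ℕ, ⋃ b : Bool, ({u : IT3 → Bool | u (Sum.inr (q, e, n, true)) = b} ∩
        {u : IT3 → Bool | u (Sum.inl (Sum.inr n)) = b}) := by
    ext u
    simp only [Set.mem_ofPred_eq, Set.mem_iInter, Set.mem_iUnion, Set.mem_inter_iff]
    constructor
    · intro h n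
      exact ⟨_, congrFun h n, rfl⟩
    · intro h
      funext n
      obtain ⟨b, h1, h2⟩ := h n
      exact h1.trans h2.symm
  rw [this]
  exact MeasurableSet.iInter fun n => MeasurableSet.iUnion fun b =>
    (meas_coord_t3 _ _).inter (meas_coord_t3 _ _)

theorem meas_chiM_t3 (q' : ℚ) : Measurable (fun u : IT3 → Bool =>
    chiM (fun n => u (Sum.inl (Sum.inr n))) q' (fun p => u (Sum.inr p))) := by
  refine measurable_pi_iff.mpr (fun q => measurable_to_bool ?_)
  have : (fun u : IT3 → Bool =>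
      chiM (fun n => u (Sum.inl (Sum.inr n))) q' (fun p => u (Sum.inr p)) q) ⁻¹' {true} =
      {_u : IT3 → Bool | q ≤ q'} ∩ (⋃ e : Prog,
        ({u : IT3 → Bool | tot (fun p => u (Sum.inr (q, p))) e} ∩
          {u : IT3 → Bool | rel (fun p => u (Sum.inr (q, p))) e =
            fun n => u (Sum.inl (Sum.inr n))}))ᶜ := by
    ext u
    simp only [chiM, Set.mem_preimage, Set.mem_singleton_iff, Set.mem_inter_iff,
      Set.mem_ofPred_eq, Set.mem_compl_iff, Set.mem_iUnion, decide_eq_true_eq]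
  rw [this]
  refine (MeasurableSet.const _).inter (MeasurableSet.compl (MeasurableSet.iUnion fun e => ?_))
  exact (meas_tot_t3 q e).inter (meas_rel_t3 q e)

/-- The input map of task 3. -/
noncomputable def inT3 (q' : ℚ) (u : IT3 → Bool) : ℕ ⊕ (ℕ × ℕ) → Bool :=
  Sum.elim (fun n => u (Sum.inl (Sum.inl n)))
    (wr (dec (chiM (fun n => u (Sum.inl (Sum.inr n))) q' (fun p => u (Sum.inr p)))))

theorem meas_inT3 (q' : ℚ) : Measurable (inT3 q') := by
  refine measurable_pi_iff.mpr (fun x => ?_)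
  rcases x with n | p
  · exact measurable_pi_apply (Sum.inl (Sum.inl n))
  · exact (measurable_pi_apply (Nat.pair p.1 p.2)).comp (meas_dec.comp (meas_chiM_t3 q'))

section
variable {M : Type} (L : LocOp M) (en : Enum M) (en2 : Enum2 M)

theorem comp_t3_of (hxw : Comp (I := ℕ ⊕ (ℕ × ℕ)) (O := ℕ) (fun u v =>
      HasK L en (fun n => u (Sum.inl n)) (fun p => u (Sum.inr p)) ∧
        v = X0r L en en2 (fun n => u (Sum.inl n)))) (q' : ℚ) :
    Comp (I := (ℕ ⊕ ℕ) ⊕ (ℚ × Prog × ℕ × Bool)) (O := ℕ) (fun u v =>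
      R3t L en en2 q' (fun n => u (Sum.inl (Sum.inl n))) (fun n => u (Sum.inl (Sum.inr n)))
        (fun p => u (Sum.inr p)) v) := by
  have h := comp_pre hxw (inT3 q') (meas_inT3 q')
  have he : (fun (u : IT3 → Bool) (v : ℕ → Bool) =>
      R3t L en en2 q' (fun n => u (Sum.inl (Sum.inl n))) (fun n => u (Sum.inl (Sum.inr n)))
        (fun p => u (Sum.inr p)) v) = (fun u v =>
      HasK L en (fun n => inT3 q' u (Sum.inl n)) (fun p => inT3 q' u (Sum.inr p)) ∧
        v = X0r L en en2 (fun n => inT3 q' u (Sum.inl n))) := by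
    funext u v
    exact propext and_comm
  rw [he]
  exact h

end

end Pool.Agent.Helper78.ITTM
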