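import Pool.Agent.Helper78.ITTM.CDefs2

/-! Auxiliary lemmas for the tasks: congruence and measurability. -/

namespace Pool.Agent.Helper78.ITTM

section aux
variable {I I' O O' : Type}

theorem tk_congr {R R' : (I → Bool) → (O → Bool) → Prop} (h : Comp R)
    (hr : ∀ u v, R u v ↔ R' u v) : Comp R' := by
  obtain ⟨M, hM⟩ := h
  exact ⟨M, fun u v => (hM u v).trans (hr u v)⟩

/-- Rearrangements of the coordinates are measurable. -/
theorem tk_re (g : I' → I) : Measurable (fun (u : I → Bool) (y : I') => u (g y)) :=
  measurable_pi_lambda _ (fun y => measurable_pi_apply _)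

theorem tk_cell (a : I) : MeasurableSet {u : I → Bool | u a = true} :=
  (measurable_pi_apply a : Measurable (fun u : I → Bool => u a)) (MeasurableSet.of_discrete (s := {true}))

theorem tk_bool {X : Type} [MeasurableSpace X] {f : X → Bool}
    (h : MeasurableSet {x | f x = true}) : Measurable f :=
  measurable_to_bool (by
    have : f ⁻¹' {true} = {x | f x = true} := by ext x; simp
    rw [this]; exact h)

theorem tk_dec {X : Type} [MeasurableSpace X] {P : X → Prop}
    (h : MeasurableSet {x | P x}) : Measurable (fun x => @decide (P x) (Classical.propDecidable _)) :=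
  tk_bool (by simpa using h)

theorem tk_eqs {X : Type} [MeasurableSpace X] {f : X → Bool} (hf : Measurable f) (b : Bool) :
    MeasurableSet {x | f x = b} :=
  hf (MeasurableSet.of_discrete (s := {b}))

theorem tk_eq2 {X : Type} [MeasurableSpace X] {f g : X → Bool} (hf : Measurable f)
    (hg : Measurable g) : MeasurableSet {x | f x = g x} :=
  measurableSet_eq_fun hf hg

/-- A list valued function depending measurably on finitely many bits. -/
theorem tk_pre {X : Type} [MeasurableSpace X] {f : X → ℕ → Bool}
    (hf : ∀ j, Measurable (fun x => f x j)) (j : ℕ) (s : List Bool) :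
    MeasurableSet {x | pre (f x) j = s} := by
  have h1 : Measurable (fun x => (fun k : Fin j => f x k.1)) :=
    measurable_pi_lambda _ (fun k => hf k.1)
  have h2 : {x | pre (f x) j = s} = (fun x => (fun k : Fin j => f x k.1)) ⁻¹'
      {t | (List.range j).map (fun k => if h : k < j then t ⟨k, h⟩ else false) = s} := by
    ext x
    have : (List.range j).map (fun k => if h : k < j then (fun k : Fin j => f x k.1) ⟨k, h⟩ else false)
        = pre (f x) j := by
      unfold pre
      apply List.map_congr_left
      intro k hk
      rw [List.mem_range] at hk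
      simp [hk]
    simp only [Set.mem_setOf_eq, Set.mem_preimage]
    rw [this]
  rw [h2]
  exact h1 (MeasurableSet.of_discrete)

theorem tk_tot {X : Type} [MeasurableSpace X] {h : X → Prog × ℕ × Bool → Bool}
    (hh : ∀ p, Measurable (fun x => h x p)) (e : Prog) : MeasurableSet {x | tot (h x) e} := by
  have : {x | tot (h x) e} = ⋂ n, ⋃ b, {x | h x (e, n, b) = true} := by
    ext x; simp [tot]
  rw [this]
  exact MeasurableSet.iInter fun n => MeasurableSet.iUnion fun b => tk_eqs (hh _) true

theorem tk_correct {X : Type} [MeasurableSpace X] {r : X → Idx → ℕ → Bool} {y : X → Idx → Bool}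
    (hr : ∀ i j, Measurable (fun x => r x i j)) (hy : ∀ i, Measurable (fun x => y x i)) (q : ℚ) :
    MeasurableSet {x | Correct q (r x) (y x)} := by
  have : {x | Correct q (r x) (y x)} = ⋂ i : Idx, ⋂ (_ : i.label < q), ⋃ J : ℕ, ⋂ j : ℕ,
      ⋂ (_ : J ≤ j), ({x | y x i = decide (j % 2 = 1)}ᶜ ∪
        ⋃ s : List Bool, ({x | pre (r x i) j = s} ∩ {x | y x (Idx.node i s) = r x i j})) := by
    ext x
    simp only [Correct, Set.mem_setOf_eq, Set.mem_iInter, Set.mem_iUnion, Set.mem_union,
      Set.mem_compl_iff, Set.mem_inter_iff]
    refine forall_congr' fun i => forall_congr' fun hi => exists_congr fun J =>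
      forall_congr' fun j => forall_congr' fun hj => ?_
    have e1 : (j % 2 = (y x i).toNat) ↔ (y x i = decide (j % 2 = 1)) := by
      rcases Nat.mod_two_eq_zero_or_one j with h | h <;> cases y x i <;> simp [h]
    rw [e1]
    constructor
    · intro h
      by_cases h0 : y x i = decide (j % 2 = 1)
      · exact Or.inr ⟨_, rfl, h h0⟩
      · exact Or.inl h0
    · rintro (h | ⟨s, rfl, h⟩) h0
      · exact absurd h0 h
      · exact h
  rw [this]
  refine MeasurableSet.iInter fun i => MeasurableSet.iInter fun _ => MeasurableSet.iUnion fun J =>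
    MeasurableSet.iInter fun j => MeasurableSet.iInter fun _ => MeasurableSet.union
      (tk_eqs (hy i) _).compl (MeasurableSet.iUnion fun s => MeasurableSet.inter
        (tk_pre (hr i) j s) (tk_eq2 (hy _) (hr _ _)))

theorem tk_prd {X : Type} [MeasurableSpace X] {y y' : X → Idx → Bool}
    (hy : ∀ i, Measurable (fun x => y x i)) (hy' : ∀ i, Measurable (fun x => y' x i))
    (i : Idx) (s : List Bool) (k : ℕ) (t : List Bool) :
    MeasurableSet {x | prd (y x) (y' x) i s k = t} := by
  induction k generalizing t with
  | zero => simp [prd]
  | succ k ih =>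
    have : {x | prd (y x) (y' x) i s (k + 1) = t} = ⋃ t' : List Bool,
        ({x | prd (y x) (y' x) i s k = t'} ∩
          {x | t' ++ [if t'.length % 2 = (y x i).toNat then y x (Idx.node i t')
            else y' x (Idx.node i t')] = t}) := by
      ext x
      simp only [prd, Set.mem_setOf_eq, Set.mem_iUnion, Set.mem_inter_iff]
      constructor
      · intro h
        exact ⟨_, rfl, h⟩
      · rintro ⟨t', rfl, h⟩
        exact h
    rw [this]
    refine MeasurableSet.iUnion fun t' => (ih t').inter ?_
    have h2 : Measurable (fun x => if t'.length % 2 = (y x i).toNat then y x (Idx.node i t')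
            else y' x (Idx.node i t')) := by
      refine Measurable.ite ?_ (hy _) (hy' _)
      have : {x | t'.length % 2 = (y x i).toNat} = {x | y x i = decide (t'.length % 2 = 1)} := by
        ext x
        rcases Nat.mod_two_eq_zero_or_one t'.length with h | h <;> cases h' : y x i <;>
          simp [h, h']
      rw [this]
      exact tk_eqs (hy i) _
    exact h2 (MeasurableSet.of_discrete (s := {b : Bool | t' ++ [b] = t}))

end aux

end Pool.Agent.Helper78.ITTM
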