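import Pool.Agent.Helper78.ITTM.CDefs2
import Pool.Agent.Helper78.ITTM.Enumer

/-! Part C, module C8, first file: transport of all relations of the tables along a partial
isomorphism of orders. -/

namespace Pool.Agent.Helper78.ITTM

universe u v

/-- `φ` is an isomorphism of the down-closed set `D` onto an initial segment. -/
structure TrI {Ω : Type u} {Ω' : Type v} (lt : Ω → Ω → Prop) (lt' : Ω' → Ω' → Prop)
    (φ : Ω → Ω') (D : Ω → Prop) : Prop where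
  tr : ∀ x y z, lt x y → lt y z → lt x z
  irr : ∀ x, ¬ lt x x
  tr' : ∀ x y z, lt' x y → lt' y z → lt' x z
  tri' : ∀ x y, lt' x y ∨ x = y ∨ lt' y x
  irr' : ∀ x, ¬ lt' x x
  dn : ∀ b g, D b → lt g b → D g
  lt_iff : ∀ b g, D b → D g → (lt g b ↔ lt' (φ g) (φ b))
  inj : ∀ b g, D b → D g → φ b = φ g → b = g
  surj : ∀ b δ, D b → lt' δ (φ b) → ∃ g, lt g b ∧ φ g = δ
  out : ∀ α α', D α → ¬ lt α α' → D α' ∨ ∀ β, ¬ lt β α'
  bot : ∀ α, D α → ∃ g, D g ∧ ¬ lt α g ∧ ∀ β, ¬ lt β g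

/-- All promises of `p` are in `D`. -/
def CD {Ω : Type u} (D : Ω → Prop) (p : Cond Ω) : Prop := ∀ i g, (i, g) ∈ p.F → D g

/-- Agreement of two data functions at an element. -/
structure Agr {Ω : Type u} {Ω' : Type v} {M : Type} (lt : Ω → Ω → Prop) (lt' : Ω' → Ω' → Prop)
    (φ : Ω → Ω') (f : Ω → Dat M Ω) (f' : Ω' → Dat M Ω') (b : Ω) : Prop where
  B : ∀ v m p, CD (fun g => lt g b) p → ((f b).B v m p ↔ (f' (φ b)).B v m (p.map φ))
  C1 : ∀ k g, (f b).C k g → lt g b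
  C1' : ∀ k g, (f' (φ b)).C k g → lt' g (φ b)
  C2 : ∀ k g, lt g b → ((f b).C k g ↔ (f' (φ b)).C k (φ g))
  r : (f b).r = (f' (φ b)).r

section base
variable {Ω : Type u} {Ω' : Type v} {lt : Ω → Ω → Prop} {lt' : Ω' → Ω' → Prop}
    {φ : Ω → Ω'} {D : Ω → Prop}

theorem CD.mono {D' : Ω → Prop} (h : ∀ x, D x → D' x) {p : Cond Ω} (hp : CD D p) : CD D' p :=
  fun i g hg => h g (hp i g hg)

theorem TrI.exLt (H : TrI lt lt' φ D) {x : Ω} (hx : D x) {Q : Ω → Prop} {Q' : Ω' → Prop}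
    (h : ∀ β, lt β x → D β → (Q β ↔ Q' (φ β))) :
    (∃ β, lt β x ∧ Q β) ↔ ∃ β', lt' β' (φ x) ∧ Q' β' := by
  constructor
  · rintro ⟨β, hβ, hQ⟩
    have hD := H.dn x β hx hβ
    exact ⟨φ β, (H.lt_iff x β hx hD).mp hβ, (h β hβ hD).mp hQ⟩
  · rintro ⟨β', hβ', hQ⟩
    obtain ⟨β, hβ, rfl⟩ := H.surj x β' hx hβ'
    exact ⟨β, hβ, (h β hβ (H.dn x β hx hβ)).mpr hQ⟩

theorem TrI.allLt (H : TrI lt lt' φ D) {x : Ω} (hx : D x) {Q : Ω → Prop} {Q' : Ω' → Prop}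
    (h : ∀ β, lt β x → D β → (Q β ↔ Q' (φ β))) :
    (∀ β, lt β x → Q β) ↔ ∀ β', lt' β' (φ x) → Q' β' := by
  constructor
  · intro h1 β' hβ'
    obtain ⟨β, hβ, rfl⟩ := H.surj x β' hx hβ'
    exact (h β hβ (H.dn x β hx hβ)).mp (h1 β hβ)
  · intro h1 β hβ
    have hD := H.dn x β hx hβ
    exact (h β hβ hD).mpr (h1 (φ β) ((H.lt_iff x β hx hD).mp hβ))

theorem TrI.eq_iff (H : TrI lt lt' φ D) {x y : Ω} (hx : D x) (hy : D y) : x = y ↔ φ x = φ y :=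
  ⟨fun h => congrArg φ h, H.inj x y hx hy⟩

theorem TrI.isMin_iff (H : TrI lt lt' φ D) {x : Ω} (hx : D x) :
    isMin lt x ↔ isMin lt' (φ x) := by
  have := H.allLt hx (Q := fun _ => False) (Q' := fun _ => False) (fun _ _ _ => Iff.rfl)
  exact this

theorem TrI.isSucc_iff (H : TrI lt lt' φ D) {x b : Ω} (hx : D x) (hb : D b) :
    isSucc lt b x ↔ isSucc lt' (φ b) (φ x) := by
  unfold isSucc
  refine and_congr (H.lt_iff x b hx hb) ?_
  refine H.allLt hx (Q := fun g => g = b ∨ lt g b) (Q' := fun g => g = φ b ∨ lt' g (φ b)) ?_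
  intro g hg hD
  exact or_congr (H.eq_iff hD hb) (H.lt_iff b g hb hD)

theorem TrI.isLim_iff (H : TrI lt lt' φ D) {x : Ω} (hx : D x) :
    isLim lt x ↔ isLim lt' (φ x) := by
  unfold isLim
  refine and_congr ?_ ?_
  · have := H.exLt hx (Q := fun _ => True) (Q' := fun _ => True) (fun _ _ _ => Iff.rfl)
    simpa using this
  · refine H.allLt hx (Q := fun b => ∃ b', lt b b' ∧ lt b' x)
      (Q' := fun b => ∃ b', lt' b b' ∧ lt' b' (φ x)) ?_
    intro b hb hD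
    have := H.exLt hx (Q := fun b' => lt b b') (Q' := fun b' => lt' (φ b) b')
      (fun b' _ hD' => H.lt_iff b' b hD' hD)
    constructor
    · rintro ⟨b', h1, h2⟩
      obtain ⟨b'', h3, h4⟩ := this.mp ⟨b', h2, h1⟩
      exact ⟨b'', h4, h3⟩
    · rintro ⟨b', h1, h2⟩
      obtain ⟨b'', h3, h4⟩ := this.mpr ⟨b', h2, h1⟩
      exact ⟨b'', h4, h3⟩

theorem TrI.isLeast_iff (H : TrI lt lt' φ D) {x : Ω} (hx : D x) {Q : Ω → Prop} {Q' : Ω' → Prop}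
    (h0 : Q x ↔ Q' (φ x)) (h : ∀ β, lt β x → D β → (Q β ↔ Q' (φ β))) :
    isLeast lt Q x ↔ isLeast lt' Q' (φ x) := by
  unfold isLeast
  exact and_congr h0 (H.allLt hx (fun β h1 h2 => not_congr (h β h1 h2)))

theorem map_dom (p : Cond Ω) : (p.map φ).dom = p.dom := rfl
theorem map_tr (p : Cond Ω) : (p.map φ).tr = p.tr := rfl
theorem map_val (p : Cond Ω) : (p.map φ).val = p.val := rfl

theorem mem_map (p : Cond Ω) (i : Idx) (δ : Ω') :
    (i, δ) ∈ (p.map φ).F ↔ ∃ g, (i, g) ∈ p.F ∧ φ g = δ := by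
  classical
  unfold Cond.map
  simp only [Finset.mem_image, Prod.mk.injEq, Prod.exists]
  constructor
  · rintro ⟨i', g, h1, rfl, h2⟩
    exact ⟨g, h1, h2⟩
  · rintro ⟨g, h1, h2⟩
    exact ⟨i, g, h1, rfl, h2⟩

theorem TrI.mem_map (H : TrI lt lt' φ D) {p : Cond Ω} (hp : CD D p) {i : Idx} {g : Ω}
    (hg : D g) : (i, φ g) ∈ (p.map φ).F ↔ (i, g) ∈ p.F := by
  rw [ITTM.mem_map]
  constructor
  · rintro ⟨g', h1, h2⟩
    have := H.inj g' g (hp i g' h1) hg h2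
    rw [← this]
    exact h1
  · intro h
    exact ⟨g, h, rfl⟩

theorem TrI.map_inj (H : TrI lt lt' φ D) {p q : Cond Ω} (hp : CD D p) (hq : CD D q)
    (h : p.map φ = q.map φ) : p = q := by
  apply Cond.ext
  · rw [← map_dom (φ := φ) p, h, map_dom]
  · rw [← map_tr (φ := φ) p, h, map_tr]
  · ext ⟨i, g⟩
    constructor
    · intro h1
      rw [← H.mem_map hq (hp i g h1), ← h, H.mem_map hp (hp i g h1)]
      exact h1
    · intro h1
      rw [← H.mem_map hp (hq i g h1), h, H.mem_map hq (hq i g h1)]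
      exact h1

theorem TrI.exists_cond (H : TrI lt lt' φ D) {x : Ω} (hx : D x) {p' : Cond Ω'}
    (hp' : ∀ i g, (i, g) ∈ p'.F → lt' g (φ x)) :
    ∃ p : Cond Ω, CD (fun g => lt g x) p ∧ p.map φ = p' := by
  classical
  have hk : ∀ g' : Ω', ∃ g : Ω, lt' g' (φ x) → (lt g x ∧ φ g = g') := by
    intro g'
    by_cases h : lt' g' (φ x)
    · obtain ⟨g, h1, h2⟩ := H.surj x g' hx h
      exact ⟨g, fun _ => ⟨h1, h2⟩⟩
    · exact ⟨x, fun h' => absurd h' h⟩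
  choose κ hκ using hk
  refine ⟨⟨p'.dom, p'.tr, p'.F.image (fun z => (z.1, κ z.2))⟩, ?_, ?_⟩
  · intro i g hg
    simp only [Finset.mem_image, Prod.mk.injEq, Prod.exists] at hg
    obtain ⟨i', g', h1, rfl, rfl⟩ := hg
    exact (hκ g' (hp' _ _ h1)).1
  · apply Cond.ext
    · rfl
    · rfl
    · ext ⟨i, δ⟩
      rw [ITTM.mem_map]
      simp only [Finset.mem_image, Prod.mk.injEq, Prod.exists]
      constructor
      · rintro ⟨g, ⟨i', g', h1, rfl, rfl⟩, rfl⟩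
        rw [(hκ g' (hp' _ _ h1)).2]
        exact h1
      · intro h
        exact ⟨κ δ, ⟨i, δ, h, rfl, rfl⟩, (hκ δ (hp' _ _ h)).2⟩

theorem TrI.valid_iff (_H : TrI lt lt' φ D) {r : Ω → Idx → ℕ → Bool} {r' : Ω' → Idx → ℕ → Bool}
    {p : Cond Ω} (hr : ∀ i g, (i, g) ∈ p.F → r g = r' (φ g)) :
    Valid r p ↔ Valid r' (p.map φ) := by
  unfold Valid
  rw [map_dom, map_tr, map_val]
  refine and_congr Iff.rfl (and_congr ?_ ?_)
  · constructor
    · intro h i g' hg'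
      obtain ⟨g, h1, -⟩ := (ITTM.mem_map p i g').mp hg'
      exact h i g h1
    · intro h i g hg
      exact h i (φ g) ((ITTM.mem_map p i _).mpr ⟨g, hg, rfl⟩)
  · constructor
    · intro h i g1 g2 j h1 h2 h3 h4 h5
      obtain ⟨a1, h6, rfl⟩ := (ITTM.mem_map p i g1).mp h1
      obtain ⟨a2, h7, rfl⟩ := (ITTM.mem_map p i g2).mp h2
      rw [← hr i a1 h6, ← hr i a2 h7] at *
      exact h i a1 a2 j h6 h7 h3 h4 h5
    · intro h i a1 a2 j h6 h7 h3 h4 h5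
      have h1 := (ITTM.mem_map p i (φ a1)).mpr ⟨a1, h6, rfl⟩
      have h2 := (ITTM.mem_map p i (φ a2)).mpr ⟨a2, h7, rfl⟩
      have := h i (φ a1) (φ a2) j h1 h2 h3
      rw [← hr i a1 h6, ← hr i a2 h7] at this
      exact this h4 h5

theorem TrI.ext_iff (H : TrI lt lt' φ D) {r : Ω → Idx → ℕ → Bool} {r' : Ω' → Idx → ℕ → Bool}
    {p q : Cond Ω} (hp : CD D p) (hq : CD D q) (hr : ∀ i g, (i, g) ∈ q.F → r g = r' (φ g)) :
    Ext r q p ↔ Ext r' (q.map φ) (p.map φ) := by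
  have hF : p.F ⊆ q.F ↔ (p.map φ).F ⊆ (q.map φ).F := by
    constructor
    · rintro h ⟨i, δ⟩ hδ
      rw [ITTM.mem_map] at hδ ⊢
      obtain ⟨g, h1, h2⟩ := hδ
      exact ⟨g, h h1, h2⟩
    · rintro h ⟨i, g⟩ hg
      have hD := hp i g hg
      rw [← H.mem_map hq hD]
      exact h ((H.mem_map hp hD).mpr hg)
  unfold Ext
  rw [map_dom, map_tr, map_val, map_dom, map_tr]
  refine and_congr Iff.rfl (and_congr Iff.rfl ?_)
  constructor
  · rintro ⟨h1, h2⟩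
    refine ⟨hF.mp h1, ?_⟩
    intro i g' j h3 h4
    obtain ⟨g, h5, rfl⟩ := (ITTM.mem_map p i g').mp h3
    rw [← hr i g (h1 h5)]
    exact h2 i g j h5 h4
  · rintro ⟨h1, h2⟩
    refine ⟨hF.mpr h1, ?_⟩
    intro i g j h3 h4
    have h5 := (ITTM.mem_map p i (φ g)).mpr ⟨g, h3, rfl⟩
    have := h2 i (φ g) j h5 h4
    rw [← hr i g (hF.mpr h1 h3)] at this
    exact this

theorem TrI.pt_iff (H : TrI lt lt' φ D) {r : Ω → Idx → ℕ → Bool} {r' : Ω' → Idx → ℕ → Bool}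
    {p : Cond Ω} {x : Ω} (hx : D x) (hp : CD D p) (hr : ∀ g, lt g x → r g = r' (φ g)) :
    Pt lt r x p ↔ Pt lt' r' (φ x) (p.map φ) := by
  have hB : (∀ i g, (i, g) ∈ p.F → lt g x) ↔ ∀ i g, (i, g) ∈ (p.map φ).F → lt' g (φ x) := by
    constructor
    · intro h i g' hg'
      obtain ⟨g, h1, rfl⟩ := (ITTM.mem_map p i g').mp hg'
      exact (H.lt_iff x g hx (hp i g h1)).mp (h i g h1)
    · intro h i g hg
      exact (H.lt_iff x g hx (hp i g hg)).mpr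
        (h i (φ g) ((ITTM.mem_map p i _).mpr ⟨g, hg, rfl⟩))
  unfold Pt
  constructor
  · rintro ⟨h1, h2⟩
    exact ⟨(H.valid_iff (fun i g hg => hr g (h2 i g hg))).mp h1, hB.mp h2⟩
  · rintro ⟨h1, h2⟩
    have h2' := hB.mpr h2
    exact ⟨(H.valid_iff (fun i g hg => hr g (h2' i g hg))).mpr h1, h2'⟩

theorem TrI.res_map (H : TrI lt lt' φ D) {p : Cond Ω} {x : Ω} (hx : D x) (hp : CD D p) :
    (res lt x p).map φ = res lt' (φ x) (p.map φ) := by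
  classical
  apply Cond.ext
  · rfl
  · rfl
  · ext ⟨i, δ⟩
    have e1 : ∀ (g : Ω), (i, g) ∈ (res lt x p).F ↔ ((i, g) ∈ p.F ∧ lt g x) := by
      intro g
      unfold res
      simp only [Finset.mem_filter]
    have e2 : (i, δ) ∈ (res lt' (φ x) (p.map φ)).F ↔ ((i, δ) ∈ (p.map φ).F ∧ lt' δ (φ x)) := by
      unfold res
      simp only [Finset.mem_filter]
    rw [ITTM.mem_map, e2, ITTM.mem_map]
    constructor
    · rintro ⟨g, h1, rfl⟩
      obtain ⟨h2, h3⟩ := (e1 g).mp h1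
      exact ⟨⟨g, h2, rfl⟩, (H.lt_iff x g hx (hp i g h2)).mp h3⟩
    · rintro ⟨⟨g, h2, rfl⟩, h3⟩
      exact ⟨g, (e1 g).mpr ⟨h2, (H.lt_iff x g hx (hp i g h2)).mpr h3⟩, rfl⟩

theorem cd_res {x : Ω} (p : Cond Ω) : CD (fun g => lt g x) (res lt x p) := by
  intro i g hg
  unfold res at hg
  simp only [Finset.mem_filter] at hg
  exact hg.2

theorem TrI.exPt (H : TrI lt lt' φ D) {r : Ω → Idx → ℕ → Bool} {r' : Ω' → Idx → ℕ → Bool}
    {x : Ω} (hx : D x) (hr : ∀ g, lt g x → r g = r' (φ g)) {Q : Cond Ω → Prop}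
    {Q' : Cond Ω' → Prop}
    (h : ∀ q, CD D q → (∀ i g, (i, g) ∈ q.F → lt g x) → (Q q ↔ Q' (q.map φ))) :
    (∃ q, Pt lt r x q ∧ Q q) ↔ ∃ q', Pt lt' r' (φ x) q' ∧ Q' q' := by
  constructor
  · rintro ⟨q, h1, h2⟩
    have hD : CD D q := fun i g hg => H.dn x g hx (h1.2 i g hg)
    exact ⟨q.map φ, (H.pt_iff hx hD hr).mp h1, (h q hD h1.2).mp h2⟩
  · rintro ⟨q', h1, h2⟩
    obtain ⟨q, h3, rfl⟩ := H.exists_cond hx h1.2
    have hD : CD D q := fun i g hg => H.dn x g hx (h3 i g hg)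
    exact ⟨q, (H.pt_iff hx hD hr).mpr h1, (h q hD h3).mpr h2⟩

theorem TrI.allPt (H : TrI lt lt' φ D) {r : Ω → Idx → ℕ → Bool} {r' : Ω' → Idx → ℕ → Bool}
    {x : Ω} (hx : D x) (hr : ∀ g, lt g x → r g = r' (φ g)) {Q : Cond Ω → Prop}
    {Q' : Cond Ω' → Prop}
    (h : ∀ q, CD D q → (∀ i g, (i, g) ∈ q.F → lt g x) → (Q q ↔ Q' (q.map φ))) :
    (∀ q, Pt lt r x q → Q q) ↔ ∀ q', Pt lt' r' (φ x) q' → Q' q' := by
  have := H.exPt hx hr (Q := fun q => ¬ Q q) (Q' := fun q => ¬ Q' q)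
    (fun q h1 h2 => not_congr (h q h1 h2))
  constructor
  · intro h1 q' hq'
    by_contra hn
    obtain ⟨q, h2, h3⟩ := this.mpr ⟨q', hq', hn⟩
    exact h3 (h1 q h2)
  · intro h1 q hq
    by_contra hn
    obtain ⟨q', h2, h3⟩ := this.mp ⟨q, hq, hn⟩
    exact h3 (h1 q' h2)

end base

section tab
variable {Ω : Type u} {Ω' : Type v} {M : Type} {lt : Ω → Ω → Prop} {lt' : Ω' → Ω' → Prop}
    {φ : Ω → Ω'} {D : Ω → Prop} {f : Ω → Dat M Ω} {f' : Ω' → Dat M Ω'}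

theorem Agr.rr {b : Ω} (h : Agr lt lt' φ f f' b) : rr f b = rr f' (φ b) := h.r

theorem TrI.z0_iff (H : TrI lt lt' φ D) {x α : Ω} (hx : D x)
    (hA : ∀ b, lt b x → Agr lt lt' φ f f' b) (hα : D α) {p : Cond Ω} (hp : CD D p) (m : M) :
    Z0 lt f x m α p ↔ Z0 lt' f' (φ x) m (φ α) (p.map φ) := by
  unfold Z0
  refine H.allLt hx (Q := fun β => ¬ lt β α → ∀ q, Pt lt (ITTM.rr f) x q → Ext (ITTM.rr f) q p →
    ¬ (f β).B true m (res lt β q)) (Q' := fun β => ¬ lt' β (φ α) → ∀ q, Pt lt' (ITTM.rr f') (φ x) q →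
    Ext (ITTM.rr f') q (p.map φ) → ¬ (f' β).B true m (res lt' β q)) ?_
  intro β hβ hDβ
  refine imp_congr (not_congr (H.lt_iff α β hα hDβ)) ?_
  refine H.allPt hx (fun g hg => (hA g hg).rr) ?_
  intro q hq hq'
  refine imp_congr (H.ext_iff hp hq (fun i g hg => (hA g (hq' i g hg)).rr)) (not_congr ?_)
  rw [(hA β hβ).B true m _ (cd_res q), H.res_map hDβ hq]

theorem TrI.gP_iff (H : TrI lt lt' φ D) {x α : Ω} (hx : D x)
    (hA : ∀ b, lt b x → Agr lt lt' φ f f' b) (hα : D α) {p : Cond Ω} (hp : CD D p) (m : M) :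
    gP lt f m α p x ↔ gP lt' f' m (φ α) (p.map φ) (φ x) := by
  unfold gP
  refine H.exLt hx ?_
  intro β hβ hDβ
  refine and_congr (not_congr (H.lt_iff α β hα hDβ)) ?_
  refine H.exPt hx (fun g hg => (hA g hg).rr) ?_
  intro q hq hq'
  refine and_congr (H.ext_iff hp hq (fun i g hg => (hA g (hq' i g hg)).rr)) ?_
  rw [(hA β hβ).B true m _ (cd_res q), H.res_map hDβ hq]

theorem gP_out {α α0 x : Ω} (h : ∀ β, ¬ lt β α) (h0 : ∀ β, ¬ lt β α0) {p : Cond Ω} {m : M} :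
    gP lt f m α p x ↔ gP lt f m α0 p x := by
  unfold gP
  refine exists_congr fun β => and_congr_right fun _ => and_congr ?_ Iff.rfl
  exact ⟨fun _ => h0 β, fun _ => h β⟩

theorem TrI.leastG_iff (H : TrI lt lt' φ D) {x α : Ω} (hx : D x)
    (hA : ∀ b, lt b x → Agr lt lt' φ f f' b) (hα : D α) {p : Cond Ω} (hp : CD D p) (m : M) :
    isLeast lt (gP lt f m α p) x ↔ isLeast lt' (gP lt' f' m (φ α) (p.map φ)) (φ x) :=
  H.isLeast_iff hx (H.gP_iff hx hA hα hp m)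
    (fun β hβ hD => H.gP_iff hD (fun b hb => hA b (H.tr _ _ _ hb hβ)) hα hp m)

theorem TrI.zP_iff (H : TrI lt lt' φ D) {a x : Ω} (ha : D a)
    (hA : ∀ b, lt b a → Agr lt lt' φ f f' b) (hx : lt x a) {p : Cond Ω} (hp : CD D p) (m : M) :
    zP lt f a m p x ↔ zP lt' f' (φ a) m (p.map φ) (φ x) := by
  have hDx := H.dn a x ha hx
  unfold zP
  refine H.exPt hDx (fun g hg => (hA g (H.tr _ _ _ hg hx)).rr) ?_
  intro q hq hq'
  exact and_congr (H.ext_iff hp hq (fun i g hg => (hA g (H.tr _ _ _ (hq' i g hg) hx)).rr))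
    (H.z0_iff ha hA hDx hq m)

theorem TrI.leastZ_iff (H : TrI lt lt' φ D) {a x : Ω} (ha : D a)
    (hA : ∀ b, lt b a → Agr lt lt' φ f f' b) (hx : lt x a) {p : Cond Ω} (hp : CD D p) (m : M) :
    isLeast lt (zP lt f a m p) x ↔ isLeast lt' (zP lt' f' (φ a) m (p.map φ)) (φ x) :=
  H.isLeast_iff (H.dn a x ha hx) (H.zP_iff ha hA hx hp m)
    (fun β hβ _ => H.zP_iff ha hA (H.tr _ _ _ hβ hx) hp m)

theorem TrI.v_iff (H : TrI lt lt' φ D) {a α h : Ω} (ha : D a)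
    (hA : ∀ b, lt b a → Agr lt lt' φ f f' b) (hα : lt α a) (hh : D h) :
    V lt f a α h ↔ V lt' f' (φ a) (φ α) (φ h) := by
  have hDα := H.dn a α ha hα
  unfold V
  rw [← H.lt_iff a h ha hh]
  refine and_congr_right fun hha => ?_
  refine exists_congr fun m => ?_
  refine H.exPt hDα (fun g hg => (hA g (H.tr _ _ _ hg hα)).rr) ?_
  intro p hp _
  refine or_congr ?_ (H.leastZ_iff ha hA hha hp m)
  have hAh : ∀ b, lt b h → Agr lt lt' φ f f' b := fun b hb => hA b (H.tr _ _ _ hb hha)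
  constructor
  · rintro ⟨α', h1, h2⟩
    rcases H.out α α' hDα h1 with h3 | h3
    · refine ⟨φ α', ?_, (H.leastG_iff hh hAh h3 hp m).mp h2⟩
      rw [← H.lt_iff α' α h3 hDα]
      exact h1
    · obtain ⟨g, hg, h4, h5⟩ := H.bot α hDα
      refine ⟨φ g, ?_, (H.leastG_iff hh hAh hg hp m).mp ?_⟩
      · rw [← H.lt_iff g α hg hDα]
        exact h4
      · have e : gP lt f m α' p = gP lt f m g p := by
          funext y
          exact propext (gP_out h3 h5)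
        rw [← e]
        exact h2
  · rintro ⟨α', h1, h2⟩
    have h3 : ∃ g, D g ∧ φ g = α' := by
      rcases H.tri' α' (φ α) with h3 | h3 | h3
      · obtain ⟨g, h4, h5⟩ := H.surj α α' hDα h3
        exact ⟨g, H.dn α g hDα h4, h5⟩
      · exact ⟨α, hDα, h3.symm⟩
      · exact absurd h3 h1
    obtain ⟨g, hg, rfl⟩ := h3
    refine ⟨g, ?_, (H.leastG_iff hh hAh hg hp m).mpr h2⟩
    rw [H.lt_iff g α hg hDα]
    exact h1

theorem TrI.allV (H : TrI lt lt' φ D) {a α x : Ω} (ha : D a)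
    (hA : ∀ b, lt b a → Agr lt lt' φ f f' b) (hα : lt α a) (hx : D x) :
    (∀ h, V lt f a α h → lt h x) ↔ ∀ h, V lt' f' (φ a) (φ α) h → lt' h (φ x) := by
  constructor
  · intro h1 h' hh'
    obtain ⟨h, h2, rfl⟩ := H.surj a h' ha hh'.1
    have hD := H.dn a h ha h2
    exact (H.lt_iff x h hx hD).mp (h1 h ((H.v_iff ha hA hα hD).mpr hh'))
  · intro h1 h hh
    have hD := H.dn a h ha hh.1
    exact (H.lt_iff x h hx hD).mpr (h1 (φ h) ((H.v_iff ha hA hα hD).mp hh))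

theorem TrI.cp_iff (H : TrI lt lt' φ D) {a β : Ω} (ha : D a)
    (hA : ∀ b, lt b a → Agr lt lt' φ f f' b) (hβ : D β) :
    CP lt f a β ↔ CP lt' f' (φ a) (φ β) := by
  unfold CP
  rw [← H.lt_iff a β ha hβ, H.isLim_iff hβ]
  refine and_congr_right fun hβa => and_congr_right fun _ => ?_
  have e1 : (∀ α h, lt α β → V lt f a α h → lt h β) ↔
      ∀ α, lt α β → ∀ h, V lt f a α h → lt h β :=
    ⟨fun h1 α h2 h h3 => h1 α h h2 h3, fun h1 α h h2 h3 => h1 α h2 h h3⟩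
  have e2 : (∀ α h, lt' α (φ β) → V lt' f' (φ a) α h → lt' h (φ β)) ↔
      ∀ α, lt' α (φ β) → ∀ h, V lt' f' (φ a) α h → lt' h (φ β) :=
    ⟨fun h1 α h2 h h3 => h1 α h h2 h3, fun h1 α h h2 h3 => h1 α h2 h h3⟩
  rw [e1, e2]
  refine H.allLt hβ ?_
  intro α hα _
  exact H.allV ha hA (H.tr _ _ _ hα hβa) hβ

theorem TrI.exCP (H : TrI lt lt' φ D) {a α : Ω} (ha : D a)
    (hA : ∀ b, lt b a → Agr lt lt' φ f f' b) (hα : D α) :
    (∃ β, lt α β ∧ CP lt f a β) ↔ ∃ β, lt' (φ α) β ∧ CP lt' f' (φ a) β := by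
  constructor
  · rintro ⟨β, h1, h2⟩
    have hβ := H.dn a β ha h2.1
    exact ⟨φ β, (H.lt_iff β α hβ hα).mp h1, (H.cp_iff ha hA hβ).mp h2⟩
  · rintro ⟨β', h1, h2⟩
    obtain ⟨β, h3, rfl⟩ := H.surj a β' ha h2.1
    have hβ := H.dn a β ha h3
    exact ⟨β, (H.lt_iff β α hβ hα).mpr h1, (H.cp_iff ha hA hβ).mpr h2⟩

theorem TrI.sg_iff (H : TrI lt lt' φ D) {a : Ω} (ha : D a)
    (hA : ∀ b, lt b a → Agr lt lt' φ f f' b) :
    SG lt f a ↔ SG lt' f' (φ a) := by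
  unfold SG
  rw [H.isLim_iff ha]
  refine and_congr_right fun _ => ?_
  refine H.allLt ha ?_
  intro α _ hD
  exact H.exCP ha hA hD

theorem TrI.hn_iff (H : TrI lt lt' φ D) {a α β : Ω} (ha : D a)
    (hA : ∀ b, lt b a → Agr lt lt' φ f f' b) (hα : lt α a) (hβ : D β) :
    Hn lt f a α β ↔ Hn lt' f' (φ a) (φ α) (φ β) := by
  have hDα := H.dn a α ha hα
  unfold Hn
  rw [← H.lt_iff a β ha hβ]
  refine and_congr_right fun _ => ?_
  have key : ∀ x, D x → ((lt α x ∧ ∀ h, V lt f a α h → lt h x) ↔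
      (lt' (φ α) (φ x) ∧ ∀ h, V lt' f' (φ a) (φ α) h → lt' h (φ x))) := fun x hx =>
    and_congr (H.lt_iff x α hx hDα) (H.allV ha hA hα hx)
  exact H.isLeast_iff hβ (key β hβ) (fun x _ hx => key x hx)

theorem TrI.it_iff (H : TrI lt lt' φ D) {a α0 : Ω} (ha : D a)
    (hA : ∀ b, lt b a → Agr lt lt' φ f f' b) (hα0 : lt α0 a) :
    ∀ (k : ℕ) {β : Ω}, D β → (It lt f a α0 k β ↔ It lt' f' (φ a) (φ α0) k (φ β))
  | 0, β, hβ => by
    simp only [It]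
    exact H.eq_iff hβ (H.dn a α0 ha hα0)
  | k + 1, β, hβ => by
    simp only [It]
    constructor
    · rintro ⟨α, h1, h2⟩
      have hα : lt α a := H.tr _ _ _ h2.2.1.1 h2.1
      have hD := H.dn a α ha hα
      exact ⟨φ α, (H.it_iff ha hA hα0 k hD).mp h1, (H.hn_iff ha hA hα hβ).mp h2⟩
    · rintro ⟨α', h1, h2⟩
      have hα' : lt' α' (φ a) := H.tr' _ _ _ h2.2.1.1 h2.1
      obtain ⟨α, hα, rfl⟩ := H.surj a α' ha hα'
      have hD := H.dn a α ha hα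
      exact ⟨α, (H.it_iff ha hA hα0 k hD).mpr h1, (H.hn_iff ha hA hα hβ).mpr h2⟩

theorem TrI.bs_iff (H : TrI lt lt' φ D) {a α0 : Ω} (ha : D a)
    (hA : ∀ b, lt b a → Agr lt lt' φ f f' b) (hα0 : D α0) :
    Bs lt f a α0 ↔ Bs lt' f' (φ a) (φ α0) := by
  unfold Bs
  rw [← H.lt_iff a α0 ha hα0]
  refine and_congr_right fun _ => ?_
  exact H.isLeast_iff hα0 (not_congr (H.exCP ha hA hα0))
    (fun x _ hx => not_congr (H.exCP ha hA hx))

theorem TrI.cpk_iff (H : TrI lt lt' φ D) {a : Ω} (ha : D a)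
    (hA : ∀ b, lt b a → Agr lt lt' φ f f' b) :
    ∀ (k : ℕ) {β : Ω}, D β → (CPk lt f a k β ↔ CPk lt' f' (φ a) k (φ β))
  | 0, β, hβ => by
    simp only [CPk]
    exact H.isLeast_iff hβ (H.cp_iff ha hA hβ) (fun x _ hx => H.cp_iff ha hA hx)
  | k + 1, β, hβ => by
    simp only [CPk]
    have key : ∀ β', D β' → (isLeast lt (fun β => lt β' β ∧ CP lt f a β) β ↔
        isLeast lt' (fun β => lt' (φ β') β ∧ CP lt' f' (φ a) β) (φ β)) := fun β' hβ' =>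
      H.isLeast_iff hβ (and_congr (H.lt_iff β β' hβ hβ') (H.cp_iff ha hA hβ))
        (fun x _ hx => and_congr (H.lt_iff x β' hx hβ') (H.cp_iff ha hA hx))
    constructor
    · rintro ⟨β', h1, h2⟩
      have hD := H.dn β β' hβ h2.1.1
      exact ⟨φ β', (H.cpk_iff ha hA k hD).mp h1, (key β' hD).mp h2⟩
    · rintro ⟨β', h1, h2⟩
      obtain ⟨β1, h3, rfl⟩ := H.surj β β' hβ h2.1.1
      have hD := H.dn β β1 hβ h3
      exact ⟨β1, (H.cpk_iff ha hA k hD).mpr h1, (key β1 hD).mpr h2⟩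

theorem TrI.exC (H : TrI lt lt' φ D) {α : Ω} (hα : D α) (hC1 : ∀ k g, (f α).C k g → lt g α)
    (hC1' : ∀ k g, (f' (φ α)).C k g → lt' g (φ α))
    (hC2 : ∀ k g, lt g α → ((f α).C k g ↔ (f' (φ α)).C k (φ g))) (k : ℕ)
    {Q : Ω → Prop} {Q' : Ω' → Prop} (h : ∀ g, lt g α → D g → (Q g ↔ Q' (φ g))) :
    (∃ g, (f α).C k g ∧ Q g) ↔ ∃ g, (f' (φ α)).C k g ∧ Q' g := by
  constructor
  · rintro ⟨g, h1, h2⟩
    have h3 := hC1 k g h1
    exact ⟨φ g, (hC2 k g h3).mp h1, (h g h3 (H.dn α g hα h3)).mp h2⟩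
  · rintro ⟨g', h1, h2⟩
    obtain ⟨g, h3, rfl⟩ := H.surj α g' hα (hC1' k g' h1)
    exact ⟨g, (hC2 k g h3).mpr h1, (h g h3 (H.dn α g hα h3)).mpr h2⟩

theorem TrI.mapC_iff (H : TrI lt lt' φ D) {α : Ω} (hα : D α)
    (hC1 : ∀ k g, (f α).C k g → lt g α)
    (hC1' : ∀ k g, (f' (φ α)).C k g → lt' g (φ α))
    (hC2 : ∀ k g, lt g α → ((f α).C k g ↔ (f' (φ α)).C k (φ g))) {p : Cond Ω} (hp : CD D p)
    (p' : Cond ℕ) : MapC f α p' p ↔ MapC f' (φ α) p' (p.map φ) := by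
  unfold MapC
  rw [map_dom, map_tr]
  refine and_congr Iff.rfl (and_congr Iff.rfl (and_congr ?_ ?_))
  · refine forall_congr' fun i => forall_congr' fun k => imp_congr_right fun _ => ?_
    have := H.exC hα hC1 hC1' hC2 k (Q := fun _ => True) (Q' := fun _ => True)
      (fun _ _ _ => Iff.rfl)
    simpa using this
  · constructor
    · intro h i g'
      rw [ITTM.mem_map]
      constructor
      · rintro ⟨g, h1, rfl⟩
        obtain ⟨k, h2, h3⟩ := (h i g).mp h1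
        exact ⟨k, h2, (hC2 k g (hC1 k g h3)).mp h3⟩
      · rintro ⟨k, h2, h3⟩
        obtain ⟨g, h4, rfl⟩ := H.surj α g' hα (hC1' k g' h3)
        exact ⟨g, (h i g).mpr ⟨k, h2, (hC2 k g h4).mpr h3⟩, rfl⟩
    · intro h i g
      constructor
      · intro h1
        obtain ⟨k, h2, h3⟩ := (h i (φ g)).mp ((ITTM.mem_map p i _).mpr ⟨g, h1, rfl⟩)
        have h4 := (H.lt_iff α g hα (hp i g h1)).mpr (hC1' k _ h3)
        exact ⟨k, h2, (hC2 k g h4).mpr h3⟩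
      · rintro ⟨k, h2, h3⟩
        have h4 := hC1 k g h3
        have hg := H.dn α g hα h4
        rw [← H.mem_map hp hg]
        exact (h i (φ g)).mpr ⟨k, h2, (hC2 k g h4).mp h3⟩

theorem mapC_lt {α : Ω} (hC1 : ∀ k g, (f α).C k g → lt g α) {p' : Cond ℕ} {p : Cond Ω}
    (h : MapC f α p' p) : ∀ i g, (i, g) ∈ p.F → lt g α := by
  intro i g hg
  obtain ⟨k, -, h2⟩ := (h.2.2.2 i g).mp hg
  exact hC1 k g h2

theorem TrI.exMapC (H : TrI lt lt' φ D) {α : Ω} (hα : D α)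
    (hC1 : ∀ k g, (f α).C k g → lt g α)
    (hC1' : ∀ k g, (f' (φ α)).C k g → lt' g (φ α))
    (hC2 : ∀ k g, lt g α → ((f α).C k g ↔ (f' (φ α)).C k (φ g)))
    (p' : Cond ℕ) {Q : Cond Ω → Prop} {Q' : Cond Ω' → Prop}
    (h : ∀ p, CD D p → (∀ i g, (i, g) ∈ p.F → lt g α) → (Q p ↔ Q' (p.map φ))) :
    (∃ p, MapC f α p' p ∧ Q p) ↔ ∃ p, MapC f' (φ α) p' p ∧ Q' p := by
  constructor
  · rintro ⟨p, h1, h2⟩
    have h3 := mapC_lt hC1 h1
    have hD : CD D p := fun i g hg => H.dn α g hα (h3 i g hg)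
    exact ⟨p.map φ, (H.mapC_iff hα hC1 hC1' hC2 hD p').mp h1, (h p hD h3).mp h2⟩
  · rintro ⟨q, h1, h2⟩
    obtain ⟨p, h3, rfl⟩ := H.exists_cond hα (mapC_lt hC1' h1)
    have hD : CD D p := fun i g hg => H.dn α g hα (h3 i g hg)
    exact ⟨p, (H.mapC_iff hα hC1 hC1' hC2 hD p').mpr h1, (h p hD h3).mpr h2⟩

end tab

end Pool.Agent.Helper78.ITTM
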