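import Pool.Agent.Helper78.ITTM.TransBase

/-! Part C, module C8, second file: transport of the tables, the enumerations and the generic
reals along a partial isomorphism. -/

namespace Pool.Agent.Helper78.ITTM

universe u v

section tab
variable {Ω : Type u} {Ω' : Type v} {M : Type} {lt : Ω → Ω → Prop} {lt' : Ω' → Ω' → Prop}
    {φ : Ω → Ω'} {D : Ω → Prop} {f : Ω → Dat M Ω} {f' : Ω' → Dat M Ω'}

theorem TrI.cf_iff (H : TrI lt lt' φ D) {a h : Ω} (ha : D a)
    (hA : ∀ b, lt b a → Agr lt lt' φ f f' b) (hh : D h) (t : TI M) :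
    Cf lt f a t h ↔ Cf lt' f' (φ a) t (φ h) := by
  unfold Cf
  rw [← H.sg_iff ha hA, ← H.cpk_iff ha hA t.1 hh]
  refine or_congr Iff.rfl (and_congr_right fun _ => ?_)
  have step : ∀ α, lt α a → D α →
      ((match t.2 with
        | none => h = α
        | some (m, o, p', e) => lt h a ∧ ∃ p, MapC f α p' p ∧ Pt lt (ITTM.rr f) α p ∧
            if e then
              ∃ α', (match o with
                | none => α' = α
                | some l => (f α).C l α') ∧ isLeast lt (gP lt f m α' p) h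
            else isLeast lt (zP lt f a m p) h) ↔
       (match t.2 with
        | none => φ h = φ α
        | some (m, o, p', e) => lt' (φ h) (φ a) ∧ ∃ p, MapC f' (φ α) p' p ∧
            Pt lt' (ITTM.rr f') (φ α) p ∧
            if e then
              ∃ α', (match o with
                | none => α' = φ α
                | some l => (f' (φ α)).C l α') ∧ isLeast lt' (gP lt' f' m α' p) (φ h)
            else isLeast lt' (zP lt' f' (φ a) m p) (φ h))) := by
    intro α hα hDα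
    have hAα := hA α hα
    obtain ⟨n, o⟩ := t
    cases o with
    | none =>
      exact H.eq_iff hh hDα
    | some s =>
      obtain ⟨m, o, p', e⟩ := s
      simp only
      rw [← H.lt_iff a h ha hh]
      refine and_congr_right fun hha => ?_
      have hAh : ∀ b, lt b h → Agr lt lt' φ f f' b := fun b hb => hA b (H.tr _ _ _ hb hha)
      refine H.exMapC hDα hAα.C1 hAα.C1' hAα.C2 p' ?_
      intro p hp hp'
      refine and_congr (H.pt_iff hDα hp (fun g hg => (hA g (H.tr _ _ _ hg hα)).r)) ?_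
      cases e with
      | true =>
        simp only [if_true]
        cases o with
        | none =>
          simp only
          constructor
          · rintro ⟨α', rfl, h2⟩
            exact ⟨φ α', rfl, (H.leastG_iff hh hAh hDα hp m).mp h2⟩
          · rintro ⟨α', rfl, h2⟩
            exact ⟨α, rfl, (H.leastG_iff hh hAh hDα hp m).mpr h2⟩
        | some l =>
          simp only
          exact H.exC hDα hAα.C1 hAα.C1' hAα.C2 l (fun g _ hg => H.leastG_iff hh hAh hg hp m)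
      | false =>
        simp only [Bool.false_eq_true, if_false]
        exact H.leastZ_iff ha hA hha hp m
  constructor
  · rintro ⟨α0, α, h1, h2, h3⟩
    have hα0 : lt α0 a := h1.1
    have hα : lt α a := by
      cases ht : t.1 with
      | zero =>
        rw [ht] at h2
        simp only [It] at h2
        rw [h2]; exact hα0
      | succ n =>
        rw [ht] at h2
        obtain ⟨x, -, hx⟩ := h2
        exact hx.1
    have hDα0 := H.dn a α0 ha hα0
    have hDα := H.dn a α ha hα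
    exact ⟨φ α0, φ α, (H.bs_iff ha hA hDα0).mp h1, (H.it_iff ha hA hα0 t.1 hDα).mp h2,
      (step α hα hDα).mp h3⟩
  · rintro ⟨β0, β, h1, h2, h3⟩
    have hβ0 : lt' β0 (φ a) := h1.1
    have hβ : lt' β (φ a) := by
      cases ht : t.1 with
      | zero =>
        rw [ht] at h2
        simp only [It] at h2
        rw [h2]; exact hβ0
      | succ n =>
        rw [ht] at h2
        obtain ⟨x, -, hx⟩ := h2
        exact hx.1
    obtain ⟨α0, hα0, rfl⟩ := H.surj a β0 ha hβ0
    obtain ⟨α, hα, rfl⟩ := H.surj a β ha hβ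
    have hDα0 := H.dn a α0 ha hα0
    have hDα := H.dn a α ha hα
    exact ⟨α0, α, (H.bs_iff ha hA hDα0).mpr h1, (H.it_iff ha hA hα0 t.1 hDα).mpr h2,
      (step α hα hDα).mpr h3⟩

theorem TrI.exSucc (H : TrI lt lt' φ D) {a : Ω} (ha : D a) {Q : Ω → Prop} {Q' : Ω' → Prop}
    (h : ∀ β, lt β a → D β → (Q β ↔ Q' (φ β))) :
    (∃ a', isSucc lt a' a ∧ Q a') ↔ ∃ a', isSucc lt' a' (φ a) ∧ Q' a' := by
  constructor
  · rintro ⟨b, h1, h2⟩
    have hb := H.dn a b ha h1.1
    exact ⟨φ b, (H.isSucc_iff ha hb).mp h1, (h b h1.1 hb).mp h2⟩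
  · rintro ⟨b', h1, h2⟩
    obtain ⟨b, h3, rfl⟩ := H.surj a b' ha h1.1
    have hb := H.dn a b ha h3
    exact ⟨b, (H.isSucc_iff ha hb).mpr h1, (h b h3 hb).mpr h2⟩

theorem TrI.ctab_iff (H : TrI lt lt' φ D) {a : Ω} (ha : D a)
    (hA : ∀ b, lt b a → Agr lt lt' φ f f' b) (eT : ℕ → TI M × ℕ) (k : ℕ) {g : Ω} (hg : D g) :
    Ctab lt f eT a k g ↔ Ctab lt' f' eT (φ a) k (φ g) := by
  have hCg : ∀ b, lt b a → D b → ∀ n, ((f b).C n g ↔ (f' (φ b)).C n (φ g)) := by
    intro b hb hDb n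
    constructor
    · intro h1
      exact ((hA b hb).C2 n g ((hA b hb).C1 n g h1)).mp h1
    · intro h1
      exact ((hA b hb).C2 n g ((H.lt_iff b g hDb hg).mpr ((hA b hb).C1' n _ h1))).mpr h1
  unfold Ctab
  refine or_congr ?_ (and_congr (H.isLim_iff ha) ?_)
  · refine H.exSucc ha ?_
    intro b hb hDb
    refine or_congr (and_congr Iff.rfl (H.eq_iff hg hDb)) ?_
    exact exists_congr fun n => and_congr Iff.rfl (hCg b hb hDb n)
  · refine H.exLt ha ?_
    intro h hh hDh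
    exact and_congr (H.cf_iff ha hA hDh _) (hCg h hh hDh _)

theorem TrI.btab_iff (H : TrI lt lt' φ D) {a : Ω} (ha : D a)
    (hA : ∀ b, lt b a → Agr lt lt' φ f f' b) (L : LocOp M) (c : R2) (v : Bool) (m : M)
    {p : Cond Ω} (hp : CD D p) :
    Btab L c lt f a v m p ↔ Btab L c lt' f' (φ a) v m (p.map φ) := by
  have hr : ∀ g, lt g a → ITTM.rr f g = ITTM.rr f' (φ g) := fun g hg => (hA g hg).r
  unfold Btab
  rw [map_dom, map_val]
  refine and_congr (H.pt_iff ha hp hr) ?_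
  refine or_congr (and_congr (H.isMin_iff ha) Iff.rfl) (or_congr ?_ (or_congr ?_ ?_))
  · refine H.exSucc ha ?_
    intro b hb hDb
    refine exists_congr fun t => and_congr Iff.rfl (and_congr ?_ Iff.rfl)
    refine forall_congr' fun l => imp_congr_right fun _ => ?_
    rw [(hA b hb).B _ l _ (cd_res p), H.res_map hDb hp]
  · refine and_congr (H.isLim_iff ha) (and_congr Iff.rfl ?_)
    refine H.exLt ha ?_
    intro α _ hDα
    exact H.z0_iff ha hA hDα hp m
  · refine and_congr (H.isLim_iff ha) (and_congr Iff.rfl ?_)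
    refine H.allPt ha hr ?_
    intro q hq hq'
    refine imp_congr (H.ext_iff hp hq (fun i g hg => hr g (hq' i g hg))) (not_congr ?_)
    refine H.exLt ha ?_
    intro α _ hDα
    exact H.z0_iff ha hA hDα hq m

theorem TrI.bad_iff (_H : TrI lt lt' φ D) {r : Ω → Idx → ℕ → Bool} {r' : Ω' → Idx → ℕ → Bool}
    {p : Cond Ω} (hr : ∀ i g, (i, g) ∈ p.F → r g = r' (φ g)) (N : Finset Idx)
    (t : List (Idx × Bool)) : Bad r p N t ↔ Bad r' (p.map φ) N t := by
  unfold Bad
  rw [map_dom, map_val]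
  refine exists_congr fun i => and_congr_right fun _ => ?_
  constructor
  · rintro ⟨g, h1, j, b, h2⟩
    refine ⟨φ g, (ITTM.mem_map p i _).mpr ⟨g, h1, rfl⟩, j, b, ?_⟩
    rw [← hr i g h1]
    exact h2
  · rintro ⟨g', h1, j, b, h2⟩
    obtain ⟨g, h3, rfl⟩ := (ITTM.mem_map p i g').mp h1
    refine ⟨g, h3, j, b, ?_⟩
    rw [hr i g h3]
    exact h2

theorem TrI.gd_iff (H : TrI lt lt' φ D) {r : Ω → Idx → ℕ → Bool} {r' : Ω' → Idx → ℕ → Bool}
    {a : Ω} (ha : D a) (hr : ∀ g, lt g a → r g = r' (φ g)) {p q : Cond Ω} (hp : CD D p)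
    (hq : CD D q) (hq' : ∀ i g, (i, g) ∈ q.F → lt g a) (N : Finset Idx)
    (t : List (Idx × Bool)) :
    Gd lt r a p N t q ↔ Gd lt' r' (φ a) (p.map φ) N t (q.map φ) := by
  have hrq : ∀ i g, (i, g) ∈ q.F → r g = r' (φ g) := fun i g hg => hr g (hq' i g hg)
  unfold Gd
  rw [map_dom, map_dom, map_tr, map_val]
  refine and_congr (H.pt_iff ha hq hr) (and_congr (H.ext_iff hp hq hrq) ?_)
  refine forall_congr' fun i => imp_congr_right fun _ => ?_
  refine and_congr Iff.rfl (and_congr Iff.rfl ?_)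
  constructor
  · intro h g' hg'
    obtain ⟨g, h3, rfl⟩ := (ITTM.mem_map q i g').mp hg'
    rw [← hrq i g h3]
    exact h g h3
  · intro h g hg
    rw [hrq i g hg]
    exact h (φ g) ((ITTM.mem_map q i _).mpr ⟨g, hg, rfl⟩)

theorem TrI.inE_iff (H : TrI lt lt' φ D) {β : Ω} (hβ : D β)
    (hB : ∀ v m p, CD (fun g => lt g β) p → ((f β).B v m p ↔ (f' (φ β)).B v m (p.map φ)))
    (m : M) {q : Cond Ω} (hq : CD D q) :
    inE lt f β m q ↔ inE lt' f' (φ β) m (q.map φ) := by
  unfold inE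
  rw [hB _ m _ (cd_res q), hB _ m _ (cd_res q), H.res_map hβ hq]

theorem TrI.inD_iff (H : TrI lt lt' φ D) {β α : Ω} (hβ : D β)
    (hA : ∀ b, lt b β → Agr lt lt' φ f f' b) (hα : D α) (m : M) {q : Cond Ω} (hq : CD D q) :
    inD lt f β m α q ↔ inD lt' f' (φ β) m (φ α) (q.map φ) := by
  unfold inD
  refine or_congr ?_ ?_
  · refine H.exLt hβ ?_
    intro γ hγ hDγ
    refine and_congr (not_congr (H.lt_iff α γ hα hDγ)) ?_
    rw [(hA γ hγ).B true m _ (cd_res q), H.res_map hDγ hq]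
  · rw [← H.res_map hβ hq]
    refine H.z0_iff hβ hA hα ?_ m
    intro i g hg
    exact H.dn β g hβ (cd_res q i g hg)

/-- Agreement at `a` for the table and the enumeration. -/
structure AgrBC {Ω : Type u} {Ω' : Type v} {M : Type} (lt : Ω → Ω → Prop)
    (lt' : Ω' → Ω' → Prop) (φ : Ω → Ω') (f : Ω → Dat M Ω) (f' : Ω' → Dat M Ω') (b : Ω) :
    Prop where
  B : ∀ v m p, CD (fun g => lt g b) p → ((f b).B v m p ↔ (f' (φ b)).B v m (p.map φ))
  C1 : ∀ k g, (f b).C k g → lt g b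
  C1' : ∀ k g, (f' (φ b)).C k g → lt' g (φ b)
  C2 : ∀ k g, lt g b → ((f b).C k g ↔ (f' (φ b)).C k (φ g))

theorem TrI.allC (H : TrI lt lt' φ D) {α : Ω} (hα : D α) (hC1 : ∀ k g, (f α).C k g → lt g α)
    (hC1' : ∀ k g, (f' (φ α)).C k g → lt' g (φ α))
    (hC2 : ∀ k g, lt g α → ((f α).C k g ↔ (f' (φ α)).C k (φ g))) (k : ℕ)
    {Q : Ω → Prop} {Q' : Ω' → Prop} (h : ∀ g, lt g α → D g → (Q g ↔ Q' (φ g))) :
    (∀ g, (f α).C k g → Q g) ↔ ∀ g, (f' (φ α)).C k g → Q' g := by
  constructor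
  · intro h1 g' hg'
    obtain ⟨g, h3, rfl⟩ := H.surj α g' hα (hC1' k g' hg')
    exact (h g h3 (H.dn α g hα h3)).mp (h1 g ((hC2 k g h3).mpr hg'))
  · intro h1 g hg
    have h3 := hC1 k g hg
    exact (h g h3 (H.dn α g hα h3)).mpr (h1 (φ g) ((hC2 k g h3).mp hg))

theorem TrI.allMapC (H : TrI lt lt' φ D) {α : Ω} (hα : D α)
    (hC1 : ∀ k g, (f α).C k g → lt g α)
    (hC1' : ∀ k g, (f' (φ α)).C k g → lt' g (φ α))
    (hC2 : ∀ k g, lt g α → ((f α).C k g ↔ (f' (φ α)).C k (φ g)))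
    (p' : Cond ℕ) {Q : Cond Ω → Prop} {Q' : Cond Ω' → Prop}
    (h : ∀ p, CD D p → (∀ i g, (i, g) ∈ p.F → lt g α) → (Q p ↔ Q' (p.map φ))) :
    (∀ p, MapC f α p' p → Q p) ↔ ∀ p, MapC f' (φ α) p' p → Q' p := by
  constructor
  · intro h1 q hq
    obtain ⟨p, h3, rfl⟩ := H.exists_cond hα (mapC_lt hC1' hq)
    have hD : CD D p := fun i g hg => H.dn α g hα (h3 i g hg)
    exact (h p hD h3).mp (h1 p ((H.mapC_iff hα hC1 hC1' hC2 hD p').mpr hq))
  · intro h1 p hp
    have h3 := mapC_lt hC1 hp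
    have hD : CD D p := fun i g hg => H.dn α g hα (h3 i g hg)
    exact (h p hD h3).mpr (h1 _ ((H.mapC_iff hα hC1 hC1' hC2 hD p').mp hp))

theorem TrI.meets_iff (H : TrI lt lt' φ D) {a : Ω} (ha : D a)
    (hA : ∀ b, lt b a → Agr lt lt' φ f f' b) (hBC : AgrBC lt lt' φ f f' a)
    (d : DIx M) (t : List (Idx × Bool)) :
    Meets lt f a d t ↔ Meets lt' f' (φ a) d t := by
  have hr : ∀ g, lt g a → ITTM.rr f g = ITTM.rr f' (φ g) := fun g hg => (hA g hg).r
  cases d with
  | E o m p' N =>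
    have key : ∀ p, CD D p → (∀ i g, (i, g) ∈ p.F → lt g a) → ∀ β, D β → (β = a ∨ lt β a) →
        ((Bad (ITTM.rr f) p N t ∨ ∃ q, Gd lt (ITTM.rr f) a p N t q ∧ inE lt f β m q) ↔
        (Bad (ITTM.rr f') (p.map φ) N t ∨ ∃ q, Gd lt' (ITTM.rr f') (φ a) (p.map φ) N t q ∧
          inE lt' f' (φ β) m q)) := by
      intro p hp hp' β hβ hβa
      refine or_congr (H.bad_iff (fun i g hg => hr g (hp' i g hg)) N t) ?_
      have hB : ∀ v m p, CD (fun g => lt g β) p →
          ((f β).B v m p ↔ (f' (φ β)).B v m (p.map φ)) := by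
        rcases hβa with rfl | h
        · exact hBC.B
        · exact (hA β h).B
      constructor
      · rintro ⟨q, h1, h2⟩
        have hq' := h1.1.2
        have hq : CD D q := fun i g hg => H.dn a g ha (hq' i g hg)
        exact ⟨q.map φ, (H.gd_iff ha hr hp hq hq' N t).mp h1, (H.inE_iff hβ hB m hq).mp h2⟩
      · rintro ⟨q', h1, h2⟩
        obtain ⟨q, hq', rfl⟩ := H.exists_cond ha h1.1.2
        have hq : CD D q := fun i g hg => H.dn a g ha (hq' i g hg)
        exact ⟨q, (H.gd_iff ha hr hp hq hq' N t).mpr h1, (H.inE_iff hβ hB m hq).mpr h2⟩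
    have e0 : ∀ {P : Cond Ω → Ω → Prop} {R : Ω → Prop}, (∀ p β, MapC f a p' p →
        Pt lt (ITTM.rr f) a p → N ⊆ p.dom → R β → P p β) ↔ ∀ p, MapC f a p' p →
        (Pt lt (ITTM.rr f) a p → N ⊆ p.dom → ∀ β, R β → P p β) :=
      ⟨fun h p h1 h2 h3 β h4 => h p β h1 h2 h3 h4, fun h p β h1 h2 h3 h4 => h p h1 h2 h3 β h4⟩
    have e0' : ∀ {P : Cond Ω' → Ω' → Prop} {R : Ω' → Prop}, (∀ p β, MapC f' (φ a) p' p →
        Pt lt' (ITTM.rr f') (φ a) p → N ⊆ p.dom → R β → P p β) ↔ ∀ p, MapC f' (φ a) p' p →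
        (Pt lt' (ITTM.rr f') (φ a) p → N ⊆ p.dom → ∀ β, R β → P p β) :=
      ⟨fun h p h1 h2 h3 β h4 => h p β h1 h2 h3 h4, fun h p β h1 h2 h3 h4 => h p h1 h2 h3 β h4⟩
    cases o with
    | none =>
      refine e0.trans (Iff.trans ?_ e0'.symm)
      refine H.allMapC ha hBC.C1 hBC.C1' hBC.C2 p' ?_
      intro p hp hp'
      refine imp_congr (H.pt_iff ha hp hr) (imp_congr Iff.rfl ?_)
      constructor
      · rintro h β rfl
        exact (key p hp hp' a ha (Or.inl rfl)).mp (h a rfl)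
      · rintro h β rfl
        exact (key p hp hp' β ha (Or.inl rfl)).mpr (h (φ β) rfl)
    | some k =>
      refine e0.trans (Iff.trans ?_ e0'.symm)
      refine H.allMapC ha hBC.C1 hBC.C1' hBC.C2 p' ?_
      intro p hp hp'
      refine imp_congr (H.pt_iff ha hp hr) (imp_congr Iff.rfl ?_)
      exact H.allC ha hBC.C1 hBC.C1' hBC.C2 k
        (fun β hβ hDβ => key p hp hp' β hDβ (Or.inr hβ))
  | D o m l p' N =>
    have key : ∀ p, CD D p → (∀ i g, (i, g) ∈ p.F → lt g a) → ∀ β, D β → (β = a ∨ lt β a) →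
        ∀ α, D α →
        ((Bad (ITTM.rr f) p N t ∨ ∃ q, Gd lt (ITTM.rr f) a p N t q ∧ inD lt f β m α q) ↔
        (Bad (ITTM.rr f') (p.map φ) N t ∨ ∃ q, Gd lt' (ITTM.rr f') (φ a) (p.map φ) N t q ∧
          inD lt' f' (φ β) m (φ α) q)) := by
      intro p hp hp' β hβ hβa α hα
      refine or_congr (H.bad_iff (fun i g hg => hr g (hp' i g hg)) N t) ?_
      have hAβ : ∀ b, lt b β → Agr lt lt' φ f f' b := by
        rcases hβa with rfl | h
        · exact hA
        · exact fun b hb => hA b (H.tr _ _ _ hb h)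
      constructor
      · rintro ⟨q, h1, h2⟩
        have hq' := h1.1.2
        have hq : CD D q := fun i g hg => H.dn a g ha (hq' i g hg)
        exact ⟨q.map φ, (H.gd_iff ha hr hp hq hq' N t).mp h1,
          (H.inD_iff hβ hAβ hα m hq).mp h2⟩
      · rintro ⟨q', h1, h2⟩
        obtain ⟨q, hq', rfl⟩ := H.exists_cond ha h1.1.2
        have hq : CD D q := fun i g hg => H.dn a g ha (hq' i g hg)
        exact ⟨q, (H.gd_iff ha hr hp hq hq' N t).mpr h1, (H.inD_iff hβ hAβ hα m hq).mpr h2⟩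
    have e0 : ∀ {P : Cond Ω → Ω → Ω → Prop} {R : Ω → Prop}, (∀ p β α, MapC f a p' p →
        Pt lt (ITTM.rr f) a p → N ⊆ p.dom → R β → isLim lt β → (f a).C l α → lt α β →
        P p β α) ↔ ∀ p, MapC f a p' p →
        (Pt lt (ITTM.rr f) a p → N ⊆ p.dom → ∀ β, R β → isLim lt β → ∀ α, (f a).C l α →
          lt α β → P p β α) :=
      ⟨fun h p h1 h2 h3 β h4 h5 α h6 h7 => h p β α h1 h2 h3 h4 h5 h6 h7,
        fun h p β α h1 h2 h3 h4 h5 h6 h7 => h p h1 h2 h3 β h4 h5 α h6 h7⟩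
    have e0' : ∀ {P : Cond Ω' → Ω' → Ω' → Prop} {R : Ω' → Prop}, (∀ p β α,
        MapC f' (φ a) p' p →
        Pt lt' (ITTM.rr f') (φ a) p → N ⊆ p.dom → R β → isLim lt' β → (f' (φ a)).C l α →
        lt' α β → P p β α) ↔ ∀ p, MapC f' (φ a) p' p →
        (Pt lt' (ITTM.rr f') (φ a) p → N ⊆ p.dom → ∀ β, R β → isLim lt' β →
          ∀ α, (f' (φ a)).C l α → lt' α β → P p β α) :=
      ⟨fun h p h1 h2 h3 β h4 h5 α h6 h7 => h p β α h1 h2 h3 h4 h5 h6 h7,
        fun h p β α h1 h2 h3 h4 h5 h6 h7 => h p h1 h2 h3 β h4 h5 α h6 h7⟩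
    have key2 : ∀ p, CD D p → (∀ i g, (i, g) ∈ p.F → lt g a) → ∀ β, D β → (β = a ∨ lt β a) →
        ((isLim lt β → ∀ α, (f a).C l α → lt α β →
          (Bad (ITTM.rr f) p N t ∨ ∃ q, Gd lt (ITTM.rr f) a p N t q ∧ inD lt f β m α q)) ↔
        (isLim lt' (φ β) → ∀ α, (f' (φ a)).C l α → lt' α (φ β) →
          (Bad (ITTM.rr f') (p.map φ) N t ∨ ∃ q, Gd lt' (ITTM.rr f') (φ a) (p.map φ) N t q ∧
          inD lt' f' (φ β) m α q))) := by
      intro p hp hp' β hβ hβa
      refine imp_congr (H.isLim_iff hβ) ?_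
      refine H.allC ha hBC.C1 hBC.C1' hBC.C2 l (fun α _ hDα => ?_)
      exact imp_congr (H.lt_iff β α hβ hDα) (key p hp hp' β hβ hβa α hDα)
    cases o with
    | none =>
      refine e0.trans (Iff.trans ?_ e0'.symm)
      refine H.allMapC ha hBC.C1 hBC.C1' hBC.C2 p' ?_
      intro p hp hp'
      refine imp_congr (H.pt_iff ha hp hr) (imp_congr Iff.rfl ?_)
      constructor
      · rintro h β rfl
        exact (key2 p hp hp' a ha (Or.inl rfl)).mp (h a rfl)
      · rintro h β rfl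
        exact (key2 p hp hp' β ha (Or.inl rfl)).mpr (h (φ β) rfl)
    | some k =>
      refine e0.trans (Iff.trans ?_ e0'.symm)
      refine H.allMapC ha hBC.C1 hBC.C1' hBC.C2 p' ?_
      intro p hp hp'
      refine imp_congr (H.pt_iff ha hp hr) (imp_congr Iff.rfl ?_)
      exact H.allC ha hBC.C1 hBC.C1' hBC.C2 k
        (fun β hβ hDβ => key2 p hp hp' β hDβ (Or.inr hβ))
  | ne i k =>
    refine H.allC ha hBC.C1 hBC.C1' hBC.C2 k (fun g hg _ => ?_)
    rw [hr g hg]
  | len i j => exact Iff.rfl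

theorem TrI.gs_iff (H : TrI lt lt' φ D) {a : Ω} (ha : D a)
    (hA : ∀ b, lt b a → Agr lt lt' φ f f' b) (hBC : AgrBC lt lt' φ f f' a)
    (eD : ℕ → DIx M) (eL : ℕ → List (Idx × Bool)) (k : ℕ) :
    ∀ t, Gs lt f eD eL a k t ↔ Gs lt' f' eD eL (φ a) k t := by
  induction k with
  | zero => intro t; exact Iff.rfl
  | succ k ih =>
    intro t
    unfold Gs
    simp only [ih, H.meets_iff ha hA hBC]

theorem TrI.rtab_eq (H : TrI lt lt' φ D) {a : Ω} (ha : D a)
    (hA : ∀ b, lt b a → Agr lt lt' φ f f' b) (hBC : AgrBC lt lt' φ f f' a)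
    (eD : ℕ → DIx M) (eL : ℕ → List (Idx × Bool)) :
    Rtab lt f eD eL a = Rtab lt' f' eD eL (φ a) := by
  funext i j
  unfold Rtab
  have key : (∃ k t, Gs lt f eD eL a k t ∧ (comp i t)[j]? = some true) =
      ∃ k t, Gs lt' f' eD eL (φ a) k t ∧ (comp i t)[j]? = some true :=
    propext (exists_congr fun k => exists_congr fun t =>
      and_congr_left fun _ => H.gs_iff ha hA hBC eD eL k t)
  rw [key]

theorem TrI.agrBC_tab (H : TrI lt lt' φ D) {a : Ω} (ha : D a)
    (hA : ∀ b, lt b a → Agr lt lt' φ f f' b) (L : LocOp M) (en : Enum M) (c : R2)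
    (r : Idx → ℕ → Bool) (r' : Idx → ℕ → Bool) :
    AgrBC lt lt' φ
      (@Function.update Ω (fun _ => Dat M Ω) (Classical.decEq Ω) f a
        ⟨Btab L c lt f a, Ctab lt f en.eT a, r⟩)
      (@Function.update Ω' (fun _ => Dat M Ω') (Classical.decEq Ω') f' (φ a)
        ⟨Btab L c lt' f' (φ a), Ctab lt' f' en.eT (φ a), r'⟩) a := by
  constructor
  · intro v m p hp
    rw [@Function.update_self Ω _ (Classical.decEq Ω), @Function.update_self Ω' _ (Classical.decEq Ω')]
    exact H.btab_iff ha hA L c v m (fun i g hg => H.dn a g ha (hp i g hg))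
  · intro k g hg
    rw [@Function.update_self Ω _ (Classical.decEq Ω)] at hg
    exact Loc.ctab_lt H.tr (fun b hb k g h => (hA b hb).C1 k g h) hg
  · intro k g hg
    rw [@Function.update_self Ω' _ (Classical.decEq Ω')] at hg
    refine Loc.ctab_lt H.tr' ?_ hg
    intro b' hb' k g h
    obtain ⟨b, hb, rfl⟩ := H.surj a b' ha hb'
    exact (hA b hb).C1' k g h
  · intro k g hg
    rw [@Function.update_self Ω _ (Classical.decEq Ω), @Function.update_self Ω' _ (Classical.decEq Ω')]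
    exact H.ctab_iff ha hA en.eT k (H.dn a g ha hg)

theorem TrI.agr_full (H : TrI lt lt' φ D) {a : Ω} (ha : D a)
    (hA : ∀ b, lt b a → Agr lt lt' φ f f' b) (L : LocOp M) (en : Enum M) (c : R2)
    (h : f a = Full L en c lt f a) (h' : f' (φ a) = Full L en c lt' f' (φ a)) :
    Agr lt lt' φ f f' a := by
  have hBC := H.agrBC_tab ha hA L en c (f a).r (f' (φ a)).r
  have hBC0 := H.agrBC_tab ha hA L en c (fun _ _ => false) (fun _ _ => false)
  have hA0 : ∀ b, lt b a → Agr lt lt' φ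
      (@Function.update Ω (fun _ => Dat M Ω) (Classical.decEq Ω) f a
        ⟨Btab L c lt f a, Ctab lt f en.eT a, fun _ _ => false⟩)
      (@Function.update Ω' (fun _ => Dat M Ω') (Classical.decEq Ω') f' (φ a)
        ⟨Btab L c lt' f' (φ a), Ctab lt' f' en.eT (φ a), fun _ _ => false⟩) b := by
    intro b hb
    have hne : b ≠ a := by
      rintro rfl
      exact H.irr b hb
    have hne' : φ b ≠ φ a := fun e => hne (H.inj b a (H.dn a b ha hb) ha e)
    have hAb := hA b hb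
    constructor
    · rw [@Function.update_of_ne Ω _ (Classical.decEq Ω) _ _ hne,
        @Function.update_of_ne Ω' _ (Classical.decEq Ω') _ _ hne']
      exact hAb.B
    · rw [@Function.update_of_ne Ω _ (Classical.decEq Ω) _ _ hne]
      exact hAb.C1
    · rw [@Function.update_of_ne Ω' _ (Classical.decEq Ω') _ _ hne']
      exact hAb.C1'
    · rw [@Function.update_of_ne Ω _ (Classical.decEq Ω) _ _ hne,
        @Function.update_of_ne Ω' _ (Classical.decEq Ω') _ _ hne']
      exact hAb.C2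
    · rw [@Function.update_of_ne Ω _ (Classical.decEq Ω) _ _ hne,
        @Function.update_of_ne Ω' _ (Classical.decEq Ω') _ _ hne']
      exact hAb.r
  have hR := H.rtab_eq ha hA0 hBC0 en.eD en.eL
  have eB : (f a).B = Btab L c lt f a := congrArg Dat.B h
  have eC : (f a).C = Ctab lt f en.eT a := congrArg Dat.C h
  have eB' : (f' (φ a)).B = Btab L c lt' f' (φ a) := congrArg Dat.B h'
  have eC' : (f' (φ a)).C = Ctab lt' f' en.eT (φ a) := congrArg Dat.C h'
  have eR := congrArg Dat.r h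
  have eR' := congrArg Dat.r h'
  have b1 := hBC.B
  have b2 := hBC.C1
  have b3 := hBC.C1'
  have b4 := hBC.C2
  rw [@Function.update_self Ω _ (Classical.decEq Ω),
    @Function.update_self Ω' _ (Classical.decEq Ω')] at b1 b4
  rw [@Function.update_self Ω _ (Classical.decEq Ω)] at b2
  rw [@Function.update_self Ω' _ (Classical.decEq Ω')] at b3
  constructor
  · rw [eB, eB']
    exact b1
  · rw [eC]
    exact b2
  · rw [eC']
    exact b3
  · rw [eC, eC']
    exact b4
  · rw [eR, eR']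
    exact hR

end tab

end Pool.Agent.Helper78.ITTM
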