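import Pool.Agent.Helper78.ITTM.TransTab
import Pool.Agent.Helper78.ITTM.Ranks

/-! Part C, module C8a: the tables of the recursion along a code agree with the hierarchy on the
ordinals. -/

namespace Pool.Agent.Helper78.ITTM

/-- The rank is an isomorphism of the well-founded part onto an initial segment. -/
theorem trI_rkw {w : ℕ × ℕ → Bool} (hw : LO w) : TrI (ltw w) ltO (rkw w) (wfp w) where
  tr x y z h h' := by
    refine ⟨hw.2.2.1 x y z h.1 h'.1, ?_⟩
    rintro rfl
    exact h.2 (hw.2.1 _ _ h.1 h'.1)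
  irr x h := h.2 rfl
  tr' x y z h h' := lt_trans h h'
  tri' x y := lt_trichotomy x y
  irr' x := lt_irrefl x
  dn b g hb hg := wfp_of_lt hw hb hg
  lt_iff b g hb hg := ⟨fun h => rkw_lt hb h, fun h => lt_of_rkw_lt hw hb hg h⟩
  inj b g hb hg h := rkw_inj hw hb hg h
  surj b δ hb hδ := rkw_surj hw hb hδ
  out α α' hα h := by
    by_cases hf : w (α', α') = true
    · left
      rcases hw.2.2.2 α α' hα.1 hf with h1 | h1
      · by_cases e : α = α'
        · rw [← e]; exact hα
        · exact absurd ⟨h1, e⟩ h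
      · by_cases e : α' = α
        · rw [e]; exact hα
        · exact wfp_of_lt hw hα ⟨h1, e⟩
    · right
      intro β hβ
      exact hf (hw.1 _ _ hβ.1).2
  bot α hα := by
    by_cases h0 : rkw w α = 0
    · refine ⟨α, hα, fun h => h.2 rfl, fun β hβ => ?_⟩
      have := rkw_lt hα hβ
      rw [h0] at this
      exact absurd this (not_lt_of_ge zero_le)
    · obtain ⟨g, hg, hg0⟩ := rkw_surj hw hα (pos_iff_ne_zero.mpr h0)
      have hDg := wfp_of_lt hw hα hg
      refine ⟨g, hDg, fun h => ?_, fun β hβ => ?_⟩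
      · have := rkw_lt hDg h
        rw [hg0] at this
        exact absurd this (not_lt_of_ge zero_le)
      · have := rkw_lt hDg hβ
        rw [hg0] at this
        exact absurd this (not_lt_of_ge zero_le)

section transport
variable {M : Type} (L : LocOp M) (en : Enum M) (en2 : Enum2 M) (c : R2)

theorem agr_tab {w : ℕ × ℕ → Bool} (hw : LO w) {z : JR M → Bool} (hz : Tab L en c w z) {a : ℕ}
    (ha : wfp w a) : Agr (ltw w) ltO (rkw w) (dat z) (obj L en c) a := by
  have H := trI_rkw hw
  have key : ∀ a, Acc (ltw w) a → wfp w a → Agr (ltw w) ltO (rkw w) (dat z) (obj L en c) a := by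
    intro a hacc
    induction hacc with
    | intro a _ ih =>
      intro ha
      exact H.agr_full ha (fun b hb => ih b hb (wfp_of_lt hw ha hb)) L en c (hz.2.1 a ha)
        (obj_eq L en c _)
  exact key a ha.2 ha

theorem agr_tab_lt {w : ℕ × ℕ → Bool} (hw : LO w) {z : JR M → Bool} (hz : Tab L en c w z) {a : ℕ}
    (ha : wfp w a) (b : ℕ) (hb : ltw w b a) :
    Agr (ltw w) ltO (rkw w) (dat z) (obj L en c) b :=
  agr_tab L en c hw hz (wfp_of_lt hw ha hb)

/-- the table data at `a` agree with the hierarchy at the rank of `a` -/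
structure Mat (w : ℕ × ℕ → Bool) (z : JR M → Bool) (a : ℕ) : Prop where
  B : ∀ b m p, (∀ i g, (i, g) ∈ p.F → ltw w g a) →
    ((dat z a).B b m p ↔ (obj L en c (rkw w a)).B b m (p.map (rkw w)))
  B1 : ∀ b m p, (dat z a).B b m p → ∀ i g, (i, g) ∈ p.F → ltw w g a
  C1 : ∀ k g, (dat z a).C k g → ltw w g a
  C2 : ∀ k g, ltw w g a → ((dat z a).C k g ↔ (obj L en c (rkw w a)).C k (rkw w g))
  r : (dat z a).r = (obj L en c (rkw w a)).r

theorem transport {w : ℕ × ℕ → Bool} (hw : LO w) {z : JR M → Bool} (hz : Tab L en c w z) {a : ℕ}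
    (ha : wfp w a) : Mat L en c w z a := by
  have h := agr_tab L en c hw hz ha
  refine ⟨h.B, ?_, h.C1, h.C2, h.r⟩
  intro b m p hB
  rw [hz.2.1 a ha] at hB
  have hB' : Btab L c (ltw w) (dat z) a b m p := hB
  exact hB'.1.2

/-- Transport of `SG`, see also `TrI.sg_iff`. -/
theorem transport_SG0 {w : ℕ × ℕ → Bool} (hw : LO w) {z : JR M → Bool} (hz : Tab L en c w z)
    {a : ℕ} (ha : wfp w a) :
    SG (ltw w) (dat z) a ↔ SG ltO (obj L en c) (rkw w a) :=
  (trI_rkw hw).sg_iff ha (agr_tab_lt L en c hw hz ha)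

end transport

end Pool.Agent.Helper78.ITTM
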