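import Pool.Agent.Helper78.ITTM.NetDefs

/-! NAND trees for all measurable sets of `J → Bool`, `J` countable. -/

namespace Pool.Agent.Helper78.ITTM

/-- a set of valuations which is decided by a tree -/
def IsTr {J : Type} (S : Set (J → Bool)) : Prop :=
  ∃ t : Tree J, ∀ v, t.eval v = true ↔ v ∈ S

theorem eval_nand {J : Type} (v : J → Bool) (f : ℕ → Tree J) :
    (Tree.nand f).eval v = true ↔ ∃ k, (f k).eval v = false := by
  classical
  show (decide (∃ k, Tree.eval v (f k) = false)) = true ↔ _
  rw [decide_eq_true_iff]

theorem IsTr.compl {J : Type} {S : Set (J → Bool)} (h : IsTr S) : IsTr Sᶜ := by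
  obtain ⟨t, ht⟩ := h
  refine ⟨.nand fun _ => t, fun v => ?_⟩
  rw [eval_nand]
  constructor
  · rintro ⟨-, hk⟩ hv
    rw [(ht v).mpr hv] at hk
    exact absurd hk (by simp)
  · intro hv
    refine ⟨0, ?_⟩
    by_contra hcon
    exact hv ((ht v).mp (by simpa using hcon))

theorem IsTr.iUnion {J : Type} {S : ℕ → Set (J → Bool)} (h : ∀ n, IsTr (S n)) :
    IsTr (⋃ n, S n) := by
  choose t ht using fun n => (h n).compl
  refine ⟨.nand t, fun v => ?_⟩
  rw [eval_nand, Set.mem_iUnion]
  constructor
  · rintro ⟨k, hk⟩
    refine ⟨k, ?_⟩
    by_contra hcon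
    have := (ht k v).mpr hcon
    rw [this] at hk
    exact absurd hk (by simp)
  · rintro ⟨k, hk⟩
    refine ⟨k, ?_⟩
    by_contra hcon
    exact (ht k v).mp (by simpa using hcon) hk

theorem isTr_lit {J : Type} (j : J) (b : Bool) : IsTr {v : J → Bool | v j = b} :=
  ⟨.lit j b, fun v => by
    show (v j == b) = true ↔ _
    simp⟩

theorem isTr_empty {J : Type} [Nonempty J] : IsTr (∅ : Set (J → Bool)) := by
  obtain ⟨j⟩ := ‹Nonempty J›
  have h : IsTr (⋃ n : ℕ, {v : J → Bool | v j = (n == 0)}) := IsTr.iUnion fun n => isTr_lit j _
  have h2 : (⋃ n : ℕ, {v : J → Bool | v j = (n == 0)})ᶜ = (∅ : Set (J → Bool)) := by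
    rw [Set.compl_empty_iff]
    ext v
    simp only [Set.mem_iUnion, Set.mem_univ, iff_true]
    cases hv : v j
    · exact ⟨1, hv⟩
    · exact ⟨0, hv⟩
  rw [← h2]
  exact h.compl

theorem tree_of_measurable {J : Type} [Countable J] [Nonempty J] {S : Set (J → Bool)}
    (hS : MeasurableSet S) : ∃ t : Tree J, ∀ v, t.eval v = true ↔ v ∈ S := by
  have h1 : MeasurableSpace.GenerateMeasurable
      {s : Set (J → Bool) | ∃ j, @MeasurableSet _ (MeasurableSpace.comap
        (fun v : J → Bool => v j) inferInstance) s} S := by
    have := hS
    rw [MeasurableSpace.pi, MeasurableSpace.measurableSet_iSup] at this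
    exact this
  clear hS
  show IsTr S
  induction h1 with
  | basic s hs =>
    obtain ⟨j, A, -, rfl⟩ := hs
    by_cases h0 : false ∈ A
    · by_cases h1 : true ∈ A
      · have : (fun v : J → Bool => v j) ⁻¹' A = (∅ : Set (J → Bool))ᶜ := by
          ext v
          simp only [Set.mem_preimage, Set.compl_empty, Set.mem_univ, iff_true]
          cases v j
          · exact h0
          · exact h1
        rw [this]
        exact isTr_empty.compl
      · have : (fun v : J → Bool => v j) ⁻¹' A = {v : J → Bool | v j = false} := by
          ext v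
          show v j ∈ A ↔ v j = false
          cases v j
          · simpa using h0
          · simpa using h1
        rw [this]
        exact isTr_lit j false
    · by_cases h1 : true ∈ A
      · have : (fun v : J → Bool => v j) ⁻¹' A = {v : J → Bool | v j = true} := by
          ext v
          show v j ∈ A ↔ v j = true
          cases v j
          · simpa using h0
          · simpa using h1
        rw [this]
        exact isTr_lit j true
      · have : (fun v : J → Bool => v j) ⁻¹' A = (∅ : Set (J → Bool)) := by
          ext v
          simp only [Set.mem_preimage, Set.mem_empty_iff_false, iff_false]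
          cases v j
          · exact h0
          · exact h1
        rw [this]
        exact isTr_empty
  | empty => exact isTr_empty
  | compl s _ ih => exact ih.compl
  | iUnion f _ ih => exact IsTr.iUnion ih

end Pool.Agent.Helper78.ITTM
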